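import Pool.Agent.SPC.TExt

/-!
# Cycles with parameters

`G B`: the algebra of rational cycles over `B`; `GT B`: rational cycles over `B[t_0, t_1, ...]`.
-/

set_option autoImplicit false

noncomputable section

namespace Pool.Agent.SPC

universe u v w w'

open MvPolynomial

/-- The algebra of rational cycles over `B`. -/
def G (B : Type u) [CommRing B] [IsDomain B] [Algebra ℚ B] : Subalgebra ℚ ((ℕ →₀ ℤ) → B) where
  carrier := {τ | IsExp τ}
  mul_mem' h h' := h.mul h'
  add_mem' h h' := h.add h'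
  algebraMap_mem' c := by
    have h : algebraMap ℚ ((ℕ →₀ ℤ) → B) c = c • (1 : (ℕ →₀ ℤ) → B) :=
      Algebra.algebraMap_eq_smul_one c
    rw [Set.mem_ofPred_eq, h]
    exact IsExp.one.smul c

/-- Rational cycles with parameters. -/
def GT (B : Type u) [CommRing B] [IsDomain B] [Algebra ℚ B] : Type u := G (T B)

instance (B : Type u) [CommRing B] [IsDomain B] [Algebra ℚ B] : CommRing (GT B) :=
  inferInstanceAs (CommRing (G (T B)))

instance (B : Type u) [CommRing B] [IsDomain B] [Algebra ℚ B] : Algebra ℚ (GT B) :=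
  inferInstanceAs (Algebra ℚ (G (T B)))

namespace GT

variable {B : Type u} [CommRing B] [IsDomain B] [Algebra ℚ B] {B' : Type v} [CommRing B']
  [IsDomain B'] [Algebra ℚ B'] {B'' : Type w} [CommRing B''] [IsDomain B''] [Algebra ℚ B'']

/-- The values of a cycle. -/
def val (x : GT B) : (ℕ →₀ ℤ) → T B := Subtype.val x

/-- Constructor. -/
def mk (τ : (ℕ →₀ ℤ) → T B) (h : IsExp τ) : GT B := ⟨τ, h⟩

theorem isExp (x : GT B) : IsExp x.val := x.2

@[simp] theorem val_mk (τ : (ℕ →₀ ℤ) → T B) (h : IsExp τ) : (mk τ h).val = τ := rfl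

theorem ext {x y : GT B} (h : ∀ a, x.val a = y.val a) : x = y := Subtype.ext (funext h)

theorem val_add (x y : GT B) (a : ℕ →₀ ℤ) : (x + y).val a = x.val a + y.val a := rfl

theorem val_mul (x y : GT B) (a : ℕ →₀ ℤ) : (x * y).val a = x.val a * y.val a := rfl

theorem val_smul (c : ℚ) (x : GT B) (a : ℕ →₀ ℤ) : (c • x).val a = c • x.val a := rfl

theorem val_one (a : ℕ →₀ ℤ) : (1 : GT B).val a = 1 := rfl

theorem val_zero (a : ℕ →₀ ℤ) : (0 : GT B).val a = 0 := rfl

/-- A ring homomorphism acts. -/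
def mapT (f : T B →+* T B') : GT B →ₐ[ℚ] GT B' where
  toFun x := mk (fun a => f (x.val a)) ((isTr_ringHom f).exp x.isExp)
  map_one' := ext fun a => by rw [val_mk, val_one, map_one, val_one]
  map_mul' x y := ext fun a => by rw [val_mk, val_mul, map_mul]; rfl
  map_zero' := ext fun a => by rw [val_mk, val_zero, map_zero, val_zero]
  map_add' x y := ext fun a => by rw [val_mk, val_add, map_add]; rfl
  commutes' c := ext fun _ => congrArg (fun g : ℚ →+* T B' => g c)
    (Subsingleton.elim (f.comp (algebraMap ℚ (T B))) (algebraMap ℚ (T B')))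

theorem val_mapT (f : T B →+* T B') (x : GT B) (a : ℕ →₀ ℤ) : (mapT f x).val a = f (x.val a) := rfl

/-- Functoriality. -/
def map (f : B →+* B') : GT B →ₐ[ℚ] GT B' := mapT (tMap f)

/-- Substitution of the parameters. -/
def sub (v : ℕ → ℕ ⊕ Bool) : GT B →ₐ[ℚ] GT B := mapT (subHom B v)

theorem val_map (f : B →+* B') (x : GT B) (a : ℕ →₀ ℤ) :
    (map f x).val a = tMap f (x.val a) := rfl

theorem val_sub (v : ℕ → ℕ ⊕ Bool) (x : GT B) (a : ℕ →₀ ℤ) :
    (sub v x).val a = subHom B v (x.val a) := rfl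

end GT

/-- Change of positions of exponents: the position `s` is moved to `p s`, or forgotten. -/
def posL (p : ℕ → Option ℕ) : (ℕ →₀ ℤ) →+ (ℕ →₀ ℤ) :=
  Finsupp.liftAddHom fun s => (p s).elim 0 fun t => Finsupp.singleAddHom t

theorem posL_single (p : ℕ → Option ℕ) (s : ℕ) (n : ℤ) :
    posL p (Finsupp.single s n) = (p s).elim 0 fun t => Finsupp.single t n := by
  unfold posL
  rw [Finsupp.liftAddHom_apply_single]
  cases p s <;> rfl

theorem posL_some (a : ℕ →₀ ℤ) : posL some a = a := by
  have h : posL some = AddMonoidHom.id _ := by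
    ext s : 1
    refine AddMonoidHom.ext fun n => ?_
    rw [AddMonoidHom.comp_apply, Finsupp.singleAddHom_apply, posL_single]
    rfl
  rw [h]; rfl

theorem posL_posL (p q : ℕ → Option ℕ) (a : ℕ →₀ ℤ) :
    posL q (posL p a) = posL (fun s => (p s).bind q) a := by
  have h : (posL q).comp (posL p) = posL (fun s => (p s).bind q) := by
    ext s : 1
    refine AddMonoidHom.ext fun n => ?_
    rw [AddMonoidHom.comp_apply, Finsupp.singleAddHom_apply, AddMonoidHom.comp_apply,
      AddMonoidHom.comp_apply, Finsupp.singleAddHom_apply, posL_single, posL_single]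
    cases p s with
    | none => exact map_zero _
    | some t => exact posL_single q t n
  rw [← h]; rfl

namespace GT

variable {B : Type u} [CommRing B] [IsDomain B] [Algebra ℚ B] {B' : Type v} [CommRing B']
  [IsDomain B'] [Algebra ℚ B'] {B'' : Type w} [CommRing B''] [IsDomain B''] [Algebra ℚ B'']

/-- Change of positions: position `s` gets the coordinate `p s`, or `1`. -/
def pos (p : ℕ → Option ℕ) : GT B →ₐ[ℚ] GT B where
  toFun x := mk (fun a => x.val (posL p a)) (x.isExp.pos (posL p))
  map_one' := rfl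
  map_mul' _ _ := rfl
  map_zero' := rfl
  map_add' _ _ := rfl
  commutes' _ := rfl

theorem val_pos (p : ℕ → Option ℕ) (x : GT B) (a : ℕ →₀ ℤ) :
    (pos p x).val a = x.val (posL p a) := rfl

/-- A law acts. -/
def actT (t : T B → T B') (h : IsTr ℚ t) : GT B →ₗ[ℚ] GT B' where
  toFun x := mk (fun a => t (x.val a)) (h.exp x.isExp)
  map_add' x y := ext fun a => by rw [val_mk, val_add, h.map_add]; rfl
  map_smul' c x := ext fun a => by rw [val_mk, val_smul, h.map_smulQ]; rfl

theorem val_actT (t : T B → T B') (h : IsTr ℚ t) (x : GT B) (a : ℕ →₀ ℤ) :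
    (actT t h x).val a = t (x.val a) := rfl

/-- A law `B → B'` acts. -/
def act (t : B → B') (h : IsTr ℚ t) : GT B →ₗ[ℚ] GT B' := actT (tExt t) h.t

theorem val_act (t : B → B') (h : IsTr ℚ t) (x : GT B) (a : ℕ →₀ ℤ) :
    (act t h x).val a = tExt t (x.val a) := rfl

/-- Substitute `c` for the variable of `B[X]`. -/
def evT (B : Type u) [CommRing B] (c : T B) : T (Polynomial B) →+* T B :=
  eval₂Hom (Polynomial.eval₂RingHom C c) X

/-- A one-parameter family of laws acts, with parameter `c`. -/
def actAt (t : B → Polynomial B') (h : IsTr ℚ t) (c : T B') : GT B →ₗ[ℚ] GT B' :=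
  (mapT (evT B' c)).toLinearMap ∘ₗ act t h

theorem val_actAt (t : B → Polynomial B') (h : IsTr ℚ t) (c : T B') (x : GT B) (a : ℕ →₀ ℤ) :
    (actAt t h c x).val a = evT B' c (tExt t (x.val a)) := rfl

end GT

end Pool.Agent.SPC
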