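import Pool.Agent.SPC.NatB
import Pool.Agent.SPC.GT

/-!
# The motivic differential algebra `MA B` of a domain `B`

`MA B` is the algebra of families over the cube algebra `GT B`: equivariant families of rational
cycles (cubes with values in the powers of the multiplicative group, normalised).

MODULE SPC-AlgA.  PLAN.  The missing proofs: `map_id`, `map_map`, `map_injective`: componentwise
(`Subtype.ext`, `funext`, `GT.ext`), `MvPolynomial.map_id`, `map_map`, `map_injective`.
`act_d`, `act_par`: `NatOp.fam_d`, `NatOp.fam_par`.  `act_mul`, `hot_mul`: `NatOp.fam_mul`,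
`HomOp.fam_mul` with `tExt_mul_map` and (for `hot`) `evT B' c (tMap (C ∘ j') q) = tMap j' q`.
`d_hot`: `HomOp.d_fam`; `actAt t h (place B' (inr b)) = act (fun s => (t s).eval b)`: compare
coefficients (`evT B' (C b) q = tMap (evalRingHom b) q`, `map_tExt`).
-/

set_option autoImplicit false

noncomputable section

namespace Pool.Agent.SPC

universe u v w w'

open MvPolynomial SDG

section

variable {B : Type u} [CommRing B] [IsDomain B] [Algebra ℚ B]

instance : CubeAlg (GT B) where
  sub v := GT.sub v
  pos p := GT.pos p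
  sub_id x := GT.ext fun a => subHom_id B (x.val a)
  sub_sub v w x := GT.ext fun a => subHom_subHom B v w (x.val a)
  pos_id x := GT.ext fun a => by rw [GT.val_pos, posL_some]
  pos_pos p q x := GT.ext fun a => by
    rw [GT.val_pos, GT.val_pos, GT.val_pos, posL_posL]
  sub_pos v p x := rfl

end

/-- The motivic differential algebra of a domain of characteristic zero. -/
def MA (B : Type u) [CommRing B] [IsDomain B] [Algebra ℚ B] : Type u := Fam (GT B)

section

variable (B : Type u) [CommRing B] [IsDomain B] [Algebra ℚ B]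

instance : Ring (MA B) := inferInstanceAs (Ring (Fam (GT B)))

instance : Algebra ℚ (MA B) := inferInstanceAs (Algebra ℚ (Fam (GT B)))

instance : SDG (MA B) := inferInstanceAs (SDG (Fam (GT B)))

end

namespace MA

variable {B : Type u} [CommRing B] [IsDomain B] [Algebra ℚ B] {B' : Type v} [CommRing B']
  [IsDomain B'] [Algebra ℚ B'] {B'' : Type w} [CommRing B''] [IsDomain B''] [Algebra ℚ B'']
  {D : Type w'} [CommRing D] [IsDomain D] [Algebra ℚ D]

/-- The components of a family. -/
def comp (x : MA B) : Finset (ℕ ⊕ₗ ℕ) → GT B := Subtype.val x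

theorem isFam (x : MA B) : IsFam x.comp := x.2

/-- Constructor. -/
def mk (x : Finset (ℕ ⊕ₗ ℕ) → GT B) (h : IsFam x) : MA B := ⟨x, h⟩

@[simp] theorem comp_mk (x : Finset (ℕ ⊕ₗ ℕ) → GT B) (h : IsFam x) : (mk x h).comp = x := rfl

theorem ext {x y : MA B} (h : ∀ U, x.comp U = y.comp U) : x = y := Subtype.ext (funext h)

/-- Functoriality. -/
def map (f : B →+* B') : SHom (MA B) (MA B') where
  toAlgHom := NatOp.famAlg (GT.map f) (fun v x => GT.ext fun a => (map_subHom f v _).symm)
    (fun p x => rfl)
  map_par' x := NatOp.fam_par _ x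
  map_d' x := NatOp.fam_d _ x

theorem comp_map (f : B →+* B') (x : MA B) (U : Finset (ℕ ⊕ₗ ℕ)) :
    (map f x).comp U = GT.map f (x.comp U) := rfl

theorem map_id (x : MA B) : map (RingHom.id B) x = x := by
  exact MA.ext fun U => GT.ext fun a => MvPolynomial.map_id _

theorem map_map (f : B →+* B') (g : B' →+* B'') (x : MA B) :
    map g (map f x) = map (g.comp f) x := by
  exact MA.ext fun U => GT.ext fun a => MvPolynomial.map_map _ _ _

theorem map_injective (f : B →+* B') (hf : Function.Injective f) :
    Function.Injective (map f) := by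
  intro x y hxy
  refine MA.ext fun U => GT.ext fun a => ?_
  have h1 : GT.map f (x.comp U) = GT.map f (y.comp U) := by
    rw [← comp_map, hxy, comp_map]
  have h2 : (GT.map f (x.comp U)).val a = (GT.map f (y.comp U)).val a := by rw [h1]
  rw [GT.val_map, GT.val_map] at h2
  exact MvPolynomial.map_injective f hf h2

private theorem tr_zero {t : B → B'} (h : IsTr ℚ t) : t 0 = 0 := by
  have h1 := h.map_add 0 0
  rw [add_zero] at h1
  exact left_eq_add.1 h1

private theorem act_ext {x y : MA B'} (h : ∀ U a, (x.comp U).val a = (y.comp U).val a) : x = y :=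
  MA.ext fun U => GT.ext fun a => h U a

private theorem comp_add (x y : MA B) (U : Finset (ℕ ⊕ₗ ℕ)) : (x + y).comp U = x.comp U + y.comp U := rfl

private theorem comp_sub (x y : MA B) (U : Finset (ℕ ⊕ₗ ℕ)) : (x - y).comp U = x.comp U - y.comp U := rfl

private theorem comp_zero (U : Finset (ℕ ⊕ₗ ℕ)) : (0 : MA B).comp U = 0 := rfl

private theorem val_sub' (x y : GT B) (a : ℕ →₀ ℤ) : (x - y).val a = x.val a - y.val a := rfl

/-- a ring homomorphism as a natural operator -/
private def natMap (f : B →+* B') : NatOp (GT B) (GT B') :=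
  ⟨(GT.map f).toLinearMap, fun v x => GT.ext fun a => (map_subHom f v _).symm, fun p x => rfl⟩

/-- The natural operator of a law. -/
def natOp (t : B → B') (h : IsTr ℚ t) : NatOp (GT B) (GT B') where
  f := GT.act t h
  sub v x := GT.ext fun a => tExt_sub h.map_add v _
  pos p x := rfl

/-- Laws act. -/
def act (t : B → B') (h : IsTr ℚ t) : MA B →ₗ[ℚ] MA B' := (natOp t h).fam

theorem comp_act (t : B → B') (h : IsTr ℚ t) (x : MA B) (U : Finset (ℕ ⊕ₗ ℕ)) :
    (act t h x).comp U = GT.act t h (x.comp U) := rfl

theorem act_d (t : B → B') (h : IsTr ℚ t) (x : MA B) : act t h (d x) = d (act t h x) :=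
  NatOp.fam_d _ x

theorem act_par (t : B → B') (h : IsTr ℚ t) (x : MA B) : act t h (par x) = par (act t h x) :=
  NatOp.fam_par _ x

theorem act_hom (f : B →+* B') (x : MA B) : act f (isTr_ringHom f) x = map f x := by
  refine act_ext fun U a => ?_
  rw [comp_act, comp_map, GT.val_act, GT.val_map]
  ext m
  rw [coeff_tExt (map_zero f), MvPolynomial.coeff_map]

theorem act_congr {t t' : B → B'} (h : IsTr ℚ t) (h' : IsTr ℚ t') (e : ∀ b, t b = t' b)
    (x : MA B) : act t h x = act t' h' x := by
  obtain rfl : t = t' := funext e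
  rfl

theorem act_add (t t' : B → B') (h : IsTr ℚ t) (h' : IsTr ℚ t') (x : MA B) :
    act (fun s => t s + t' s) (h.add h') x = act t h x + act t' h' x := by
  refine act_ext fun U a => ?_
  rw [comp_add, comp_act, comp_act, comp_act, GT.val_add, GT.val_act, GT.val_act, GT.val_act]
  ext m
  rw [coeff_tExt (tr_zero (h.add h')), MvPolynomial.coeff_add, coeff_tExt (tr_zero h),
    coeff_tExt (tr_zero h')]

theorem act_sub (t t' : B → B') (h : IsTr ℚ t) (h' : IsTr ℚ t') (x : MA B) :
    act (fun s => t s - t' s) (h.sub h') x = act t h x - act t' h' x := by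
  refine act_ext fun U a => ?_
  rw [comp_sub, comp_act, comp_act, comp_act, val_sub', GT.val_act, GT.val_act, GT.val_act]
  ext m
  rw [coeff_tExt (tr_zero (h.sub h')), MvPolynomial.coeff_sub, coeff_tExt (tr_zero h),
    coeff_tExt (tr_zero h')]

theorem act_zero (x : MA B) : act (fun _ : B => (0 : B')) IsTr.zero x = 0 := by
  refine act_ext fun U a => ?_
  rw [comp_zero, comp_act, GT.val_zero, GT.val_act]
  ext m
  rw [coeff_tExt rfl, MvPolynomial.coeff_zero]

theorem act_sum {ι : Type w'} (s : Finset ι) (t : ι → B → B') (h : ∀ i ∈ s, IsTr ℚ (t i))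
    (h' : ∀ i, IsTr ℚ (t i)) (x : MA B) :
    act (fun b => ∑ i ∈ s, t i b) (IsTr.sum s h) x = ∑ i ∈ s, act (t i) (h' i) x := by
  classical
  induction s using Finset.induction_on with
  | empty =>
    rw [Finset.sum_empty]
    exact (act_congr _ IsTr.zero (fun b => Finset.sum_empty) x).trans (act_zero x)
  | insert a s ha ih =>
    rw [Finset.sum_insert ha, ← ih fun i _ => h' i, ← act_add]
    exact act_congr _ _ (fun b => Finset.sum_insert ha) x

theorem act_act (t : B → B') (h : IsTr ℚ t) (t' : B' → B'') (h' : IsTr ℚ t') (x : MA B) :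
    act t' h' (act t h x) = act (fun s => t' (t s)) (h'.comp h) x := by
  refine act_ext fun U a => ?_
  rw [comp_act, comp_act, comp_act, GT.val_act, GT.val_act, GT.val_act]
  ext m
  rw [coeff_tExt (tr_zero h'), coeff_tExt (tr_zero h), coeff_tExt (tr_zero (h'.comp h))]

/-- Projection formula. -/
theorem act_mul (t : B → B') (h : IsTr ℚ t) (j : D →+* B) (j' : D →+* B')
    (hj : ∀ x z, t (x * j z) = t x * j' z) (x : MA B) (z : MA D) :
    act t h (x * map j z) = act t h x * map j' z := by
  exact NatOp.fam_mul (natOp t h) (natMap j) (natMap j') (fun x z => GT.ext fun a =>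
    tExt_mul_map j j' h.map_add hj (x.val a) (z.val a)) x z

theorem act_mul_left (t : B → B') (h : IsTr ℚ t) (j : D →+* B) (j' : D →+* B')
    (hj : ∀ x z, t (x * j z) = t x * j' z) (x : MA B) (z : MA D) :
    act t h (map j z * x) = map j' z * act t h x := by
  exact NatOp.fam_mul_left (natOp t h) (natMap j) (natMap j') (fun x z => GT.ext fun a => by
    have h1 := tExt_mul_map j j' h.map_add hj (x.val a) (z.val a)
    rw [mul_comm, mul_comm (tExt t _)] at h1
    exact h1) x z

theorem act_one (t : B → B') (h : IsTr ℚ t) (h1 : t 1 = 1) : act t h (1 : MA B) = 1 := by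
  classical
  have h2 : GT.act t h (1 : GT B) = 1 := by
    refine GT.ext fun a => ?_
    rw [GT.val_act, GT.val_one, GT.val_one]
    ext m
    rw [coeff_tExt (tr_zero h), MvPolynomial.coeff_one, MvPolynomial.coeff_one]
    split_ifs
    · exact h1
    · exact tr_zero h
  refine MA.ext fun U => ?_
  rw [comp_act]
  by_cases hU : U = ∅
  · have e1 : (1 : MA B).comp U = 1 := if_pos hU
    have e2 : (1 : MA B').comp U = 1 := if_pos hU
    rw [e1, e2, h2]
  · have e1 : (1 : MA B).comp U = 0 := if_neg hU
    have e2 : (1 : MA B').comp U = 0 := if_neg hU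
    rw [e1, e2, map_zero]

private theorem evT_C (c : T B') (P : Polynomial B') :
    GT.evT B' c (C P) = Polynomial.eval₂ C c P := by
  unfold GT.evT
  rw [MvPolynomial.coe_eval₂Hom, MvPolynomial.eval₂_C]
  rfl

private theorem evT_X (c : T B') (n : ℕ) : GT.evT B' c (X n) = X n := by
  unfold GT.evT
  rw [MvPolynomial.coe_eval₂Hom, MvPolynomial.eval₂_X]

private theorem evT_place (c : T B') (e : ℕ ⊕ Bool) :
    GT.evT B' c (place (Polynomial B') e) = place B' e := by
  cases e with
  | inl n => exact evT_X c n
  | inr b =>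
    show GT.evT B' c (C (if b then 1 else 0)) = C (if b then 1 else 0)
    rw [evT_C]
    cases b <;> simp

private theorem sub_evT (v : ℕ → ℕ ⊕ Bool) (c : ℕ ⊕ Bool) (q : T (Polynomial B')) :
    subHom B' v (GT.evT B' (place B' c) q) =
      GT.evT B' (place B' (Sum.elim v Sum.inr c)) (subHom (Polynomial B') v q) := by
  have h : (subHom B' v).comp (GT.evT B' (place B' c)) =
      (GT.evT B' (place B' (Sum.elim v Sum.inr c))).comp (subHom (Polynomial B') v) := by
    refine MvPolynomial.ringHom_ext (fun P => ?_) (fun n => ?_)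
    · rw [RingHom.comp_apply, RingHom.comp_apply, subHom_C, evT_C, evT_C, Polynomial.hom_eval₂,
        subHom_place]
      congr 1
      exact RingHom.ext fun b => subHom_C B' v b
    · rw [RingHom.comp_apply, RingHom.comp_apply, subHom_X, evT_X, evT_place, subHom_X]
  exact congrArg (fun g : T (Polynomial B') →+* T B' => g q) h

private theorem evT_const (b : B') (q : T (Polynomial B')) :
    GT.evT B' (C b) q = tMap (Polynomial.evalRingHom b) q := by
  have h : GT.evT B' (C b) = tMap (Polynomial.evalRingHom b) := by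
    refine MvPolynomial.ringHom_ext (fun P => ?_) (fun n => ?_)
    · rw [evT_C, MvPolynomial.map_C, Polynomial.coe_evalRingHom, Polynomial.eval₂_hom]
    · rw [evT_X, MvPolynomial.map_X]
  rw [h]

private theorem evT_map (c : T B') (j' : D →+* B') (q : T D) :
    GT.evT B' c (tMap (Polynomial.C.comp j') q) = tMap j' q := by
  have h : (GT.evT B' c).comp (tMap (Polynomial.C.comp j')) = tMap j' := by
    refine MvPolynomial.ringHom_ext (fun P => ?_) (fun n => ?_)
    · rw [RingHom.comp_apply, MvPolynomial.map_C, MvPolynomial.map_C, evT_C, RingHom.comp_apply,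
        Polynomial.eval₂_C]
    · rw [RingHom.comp_apply, MvPolynomial.map_X, MvPolynomial.map_X, evT_X]
  exact congrArg (fun g : T D →+* T B' => g q) h

/-- The homotopy of a one-parameter family of laws. -/
def homOp (t : B → Polynomial B') (h : IsTr ℚ t) : HomOp (GT B) (GT B') where
  h c := GT.actAt t h (place B' c)
  sub v c x := by
    refine GT.ext fun a => ?_
    show subHom B' v (GT.evT B' (place B' c) (tExt t (x.val a))) =
      GT.evT B' (place B' (Sum.elim v Sum.inr c)) (tExt t (subHom B v (x.val a)))
    rw [sub_evT, tExt_sub h.map_add]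
  pos p c x := rfl

/-- The homotopy operator of a one-parameter family of laws. -/
def hot (t : B → Polynomial B') (h : IsTr ℚ t) : MA B →ₗ[ℚ] MA B' := (homOp t h).fam

theorem hot_par (t : B → Polynomial B') (h : IsTr ℚ t) (x : MA B) :
    hot t h (par x) = -par (hot t h x) := HomOp.fam_par _ x

/-- The value of a one-parameter family at a point. -/
theorem isTr_eval {t : B → Polynomial B'} (h : IsTr ℚ t) (b : B') :
    IsTr ℚ (fun s => (t s).eval b) := by
  exact (isTr_ringHom (Polynomial.evalRingHom b)).comp h

private theorem at_fam (t : B → Polynomial B') (h : IsTr ℚ t) (b : Bool) (x : MA B) :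
    ((homOp t h).at b).fam x =
      act (fun s => (t s).eval (if b then 1 else 0)) (isTr_eval h _) x := by
  refine act_ext fun U a => ?_
  rw [comp_act, GT.val_act]
  show GT.evT B' (C (if b then 1 else 0)) (tExt t ((x.comp U).val a)) = _
  have h0 : t 0 = 0 := by
    have h1 := h.map_add 0 0
    rw [add_zero] at h1
    exact left_eq_add.1 h1
  rw [evT_const, map_tExt _ h0]
  rfl

theorem d_hot (t : B → Polynomial B') (h : IsTr ℚ t) (x : MA B) :
    d (hot t h x) + hot t h (d x) =
      act (fun s => (t s).eval 0) (isTr_eval h 0) x -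
        act (fun s => (t s).eval 1) (isTr_eval h 1) x := by
  have h1 := HomOp.d_fam (homOp t h) x
  have h2 := at_fam t h false x
  have h3 := at_fam t h true x
  have h4 : ((homOp t h).at false).fam x - ((homOp t h).at true).fam x =
      act (fun s => (t s).eval 0) (isTr_eval h 0) x -
        act (fun s => (t s).eval 1) (isTr_eval h 1) x := by
    rw [h2, h3]
    rfl
  exact h1.trans h4

theorem hot_mul (t : B → Polynomial B') (h : IsTr ℚ t) (j : D →+* B) (j' : D →+* B')
    (hj : ∀ x z, t (x * j z) = t x * Polynomial.C (j' z)) (x : MA B) (z : MA D) :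
    hot t h (x * map j z) = hot t h x * map j' z := by
  refine HomOp.fam_mul (homOp t h) (natMap j) (natMap j') (fun c x z => GT.ext fun a => ?_) x z
  show GT.evT B' (place B' c) (tExt t (x.val a * tMap j (z.val a))) =
    GT.evT B' (place B' c) (tExt t (x.val a)) * tMap j' (z.val a)
  rw [tExt_mul_map j (Polynomial.C.comp j') h.map_add hj, map_mul, evT_map]

end MA

end Pool.Agent.SPC
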