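import Mathlib

/-!
# Rings that contain the rational numbers

`HasRat B`: the positive integers are invertible in `B` (a proposition, so that the `ℚ`-algebra
structure `ratAlgebra B` is canonical).
-/

noncomputable section

namespace Pool.Agent.SPC

universe u v

/-- The positive integers are invertible. -/
class HasRat (B : Type u) [CommRing B] : Prop where
  unit : ∀ n : ℕ, n ≠ 0 → IsUnit (n : B)

theorem HasRat.of_hom {B : Type u} {B' : Type v} [CommRing B] [CommRing B'] [HasRat B]
    (f : B →+* B') : HasRat B' :=
  ⟨fun n hn => by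
    have h := (HasRat.unit (B := B) n hn).map f
    rwa [map_natCast] at h⟩

instance (B : Type u) [CommRing B] [Algebra ℚ B] : HasRat B :=
  ⟨fun n hn => by
    have h : IsUnit ((n : ℚ)) := IsUnit.mk0 _ (Nat.cast_ne_zero.2 hn)
    have h1 := h.map (algebraMap ℚ B)
    rwa [map_natCast] at h1⟩

theorem HasRat.of_algebra (k : Type u) (B : Type v) [CommRing k] [HasRat k] [CommRing B]
    [Algebra k B] : HasRat B := HasRat.of_hom (algebraMap k B)

instance (k : Type u) (L : Type v) [CommRing k] [HasRat k] [CommRing L] [Algebra k L]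
    (S : Subalgebra k L) : HasRat S := HasRat.of_algebra k S

instance (B : Type u) [CommRing B] [HasRat B] : HasRat (Polynomial B) :=
  HasRat.of_hom (Polynomial.C : B →+* Polynomial B)

instance (σ : Type v) (B : Type u) [CommRing B] [HasRat B] : HasRat (MvPolynomial σ B) :=
  HasRat.of_hom (MvPolynomial.C : B →+* MvPolynomial σ B)

/-- The canonical `ℚ`-algebra structure. -/
@[reducible] def ratAlgebra (B : Type u) [CommRing B] [HasRat B] : Algebra ℚ B :=
  (IsLocalization.lift (M := nonZeroDivisors ℤ) (S := ℚ) (g := Int.castRingHom B) (by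
    rintro ⟨y, hy⟩
    have hy0 : y ≠ 0 := nonZeroDivisors.ne_zero hy
    have h1 : IsUnit ((y.natAbs : ℕ) : B) := HasRat.unit _ (Int.natAbs_ne_zero.2 hy0)
    change IsUnit ((y : ℤ) : B)
    rcases Int.natAbs_eq y with h | h
    · rw [h, Int.cast_natCast]
      exact h1
    · rw [h, Int.cast_neg, Int.cast_natCast]
      exact h1.neg) : ℚ →+* B).toAlgebra

theorem HasRat.charZero (B : Type u) [CommRing B] [Nontrivial B] [HasRat B] : CharZero B := by
  let _ := ratAlgebra B
  exact charZero_of_injective_algebraMap (algebraMap ℚ B).injective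

end Pool.Agent.SPC
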