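import Pool.Agent.SPC.Univ
import Pool.Agent.SPC.Rat

/-!
# Functors from domains to supercommutative differential rings

The formal properties of cochains used in the chain of points.
-/

noncomputable section

namespace Pool.Agent.SPC

universe u v w

open SDG

/-- The rational numbers, with zero differential. -/
instance : SDG ℚ where
  par := AlgHom.id ℚ ℚ
  d := 0
  par_par _ := rfl
  d_par _ := by simp
  d_d _ := rfl
  d_mul _ _ := by simp
  comm a b _ := mul_comm a b
  anti a b ha _ := by
    have h : a = -a := ha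
    have h0 : a = 0 := by linarith
    rw [h0, zero_mul, mul_zero, neg_zero]

/-- The rational combination `∑ i, c i • chi i` of ring homomorphisms `B → K'` takes values in
`B'` (`j : B' → K'` injective) and all `chi i b` are integral over `B'`: a finite
correspondence from `B` to `B'`, given by its trace. -/
def IsTrace {B B' K' : Type u} [CommRing B] [CommRing B'] [CommRing K'] [Algebra ℚ K']
    (j : B' →+* K') {ι : Type} [Fintype ι] (c : ι → ℚ) (chi : ι → (B →+* K')) : Prop :=
  (∀ i b, j.IsIntegralElem (chi i b)) ∧ ∀ b, ∃ b', j b' = ∑ i, c i • chi i b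

/-- A functor from domains to supercommutative differential rings which preserves injections,
is continuous on fields, has an augmentation, finite correspondences (`trace`) and homotopies
(`htp`). -/
structure DGF where
  obj : ∀ (B : Type u) [CommRing B] [IsDomain B] [HasRat B], Type u
  [ring : ∀ (B : Type u) [CommRing B] [IsDomain B] [HasRat B], Ring (obj B)]
  [alg : ∀ (B : Type u) [CommRing B] [IsDomain B] [HasRat B], Algebra ℚ (obj B)]
  [sdg : ∀ (B : Type u) [CommRing B] [IsDomain B] [HasRat B], SDG (obj B)]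
  map : ∀ {B B' : Type u} [CommRing B] [IsDomain B] [HasRat B] [CommRing B'] [IsDomain B']
      [HasRat B'] (_ : B →+* B'),
    SHom (obj B) (obj B')
  map_id : ∀ {B : Type u} [CommRing B] [IsDomain B] [HasRat B], map (RingHom.id B) = SHom.id (obj B)
  map_comp : ∀ {B B' B'' : Type u} [CommRing B] [IsDomain B] [HasRat B] [CommRing B']
      [IsDomain B'] [HasRat B']
    [CommRing B''] [IsDomain B''] [HasRat B''] (g : B' →+* B'') (f : B →+* B'),
    map (g.comp f) = (map g).comp (map f)
  inj : ∀ {B B' : Type u} [CommRing B] [IsDomain B] [HasRat B] [CommRing B'] [IsDomain B']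
      [HasRat B'] (f : B →+* B'),
    Function.Injective f → Function.Injective (map f)
  cont : ∀ {Om : Type u} [Field Om] [CharZero Om] (a : obj Om), ∃ F : Finset Om,
    ∀ (B : Type u) [CommRing B] [IsDomain B] [HasRat B] (j : B →+* Om), Function.Injective j →
      (F : Set Om) ⊆ Set.range j → ∃ b : obj B, map j b = a
  eps : ∀ (B : Type u) [CommRing B] [IsDomain B] [HasRat B], SHom (obj B) ℚ
  eps_map : ∀ {B B' : Type u} [CommRing B] [IsDomain B] [HasRat B] [CommRing B'] [IsDomain B']
      [HasRat B']
    (f : B →+* B') (a : obj B), eps B' (map f a) = eps B a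
  trace : ∀ {B B' K' : Type u} [CommRing B] [IsDomain B] [HasRat B] [CommRing B'] [IsDomain B']
    [HasRat B'] [Field K'] [IsAlgClosed K'] [CharZero K'] (j : B' →+* K')
    (_ : Function.Injective j) {ι : Type} [Fintype ι] (c : ι → ℚ) (chi : ι → (B →+* K'))
    (_ : IsTrace j c chi) (a : obj B), ∃ b : obj B', map j b = ∑ i, c i • map (chi i) a
  htp : ∀ (B : Type u) [CommRing B] [IsDomain B] [HasRat B], obj (Polynomial B) →ₗ[ℚ] obj B
  htp_d : ∀ {B : Type u} [CommRing B] [IsDomain B] [HasRat B] (a : obj (Polynomial B)),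
    d (htp B a) + htp B (d a) = map (Polynomial.evalRingHom 0) a - map (Polynomial.evalRingHom 1) a
  htp_par : ∀ {B : Type u} [CommRing B] [IsDomain B] [HasRat B] (a : obj (Polynomial B)),
    htp B (par a) = -par (htp B a)
  htp_mul : ∀ {B : Type u} [CommRing B] [IsDomain B] [HasRat B] (a : obj (Polynomial B))
      (b : obj B),
    htp B (a * map Polynomial.C b) = htp B a * b

attribute [instance] DGF.ring DGF.alg DGF.sdg

namespace DGF

variable (A : DGF.{u})

/-- Base change of pairs along a homomorphism of domains. -/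
def bc {B B' : Type u} [CommRing B] [IsDomain B] [HasRat B] [CommRing B'] [IsDomain B']
    [HasRat B'] (g : B →+* B')
    (P : PT (A.obj B)) : PT (A.obj B') := P.map (A.map g)

theorem bc_comp {B B' B'' : Type u} [CommRing B] [IsDomain B] [HasRat B] [CommRing B']
    [IsDomain B'] [HasRat B']
    [CommRing B''] [IsDomain B''] [HasRat B''] (g : B' →+* B'') (f : B →+* B') (P : PT (A.obj B)) :
    A.bc (g.comp f) P = A.bc g (A.bc f P) := by
  unfold bc
  rw [PT.map_map, A.map_comp]

theorem map_comp_apply {B B' B'' : Type u} [CommRing B] [IsDomain B] [HasRat B] [CommRing B']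
    [IsDomain B'] [HasRat B']
    [CommRing B''] [IsDomain B''] [HasRat B''] (g : B' →+* B'') (f : B →+* B') (a : A.obj B) :
    A.map (g.comp f) a = A.map g (A.map f a) := by
  rw [A.map_comp]
  rfl

theorem exact_bc_iff {B B' : Type u} [CommRing B] [IsDomain B] [HasRat B] [CommRing B']
    [IsDomain B'] [HasRat B']
    (g : B →+* B') (P : PT (A.obj B)) : (A.bc g P).Exact ↔ ∃ y : P.1.I → A.obj B', ∀ l,
      d (y l) + ∑ m, par (y m) * A.map g (P.1.D m l) = A.map g (P.2 l) := by
  constructor
  · rintro ⟨y, hy⟩
    exact ⟨y, fun l => congrFun hy l⟩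
  · rintro ⟨y, hy⟩
    exact ⟨y, funext hy⟩

theorem exact_iff {B : Type u} [CommRing B] [IsDomain B] [HasRat B] (P : PT (A.obj B)) :
    P.Exact ↔ ∃ y : P.1.I → A.obj B, ∀ l, d (y l) + ∑ m, par (y m) * P.1.D m l = P.2 l := by
  constructor
  · rintro ⟨y, hy⟩
    exact ⟨y, fun l => congrFun hy l⟩
  · rintro ⟨y, hy⟩
    exact ⟨y, funext hy⟩

/-- Exactness over a field is detected over finitely generated subrings. -/
theorem exact_cont {B Om : Type u} [CommRing B] [IsDomain B] [HasRat B] [Field Om] [CharZero Om]
    (i : B →+* Om)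
    (P : PT (A.obj B)) (h : (A.bc i P).Exact) : ∃ F : Finset Om,
    ∀ (C : Type u) [CommRing C] [IsDomain C] [HasRat C] (g : B →+* C)
        (j : C →+* Om), Function.Injective j →
      j.comp g = i → (F : Set Om) ⊆ Set.range j → (A.bc g P).Exact := by
  classical
  obtain ⟨y, hy⟩ := (A.exact_bc_iff i P).1 h
  choose F hF using fun l : P.1.I => A.cont (y l)
  refine ⟨Finset.univ.biUnion F, ?_⟩
  intro C _ _ _ g j hj hji hFj
  have h1 : ∀ l : P.1.I, ∃ b : A.obj C, A.map j b = y l := by
    intro l
    refine hF l C j hj (subset_trans ?_ hFj)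
    intro x hx
    exact Finset.mem_coe.2 (Finset.mem_biUnion.2 ⟨l, Finset.mem_univ l, hx⟩)
  choose z hz using h1
  refine (A.exact_bc_iff g P).2 ⟨z, fun l => A.inj j hj ?_⟩
  subst hji
  rw [map_add, map_sum, (A.map j).map_d, hz, ← A.map_comp_apply, ← hy l]
  congr 1
  refine Finset.sum_congr rfl fun m _ => ?_
  rw [map_mul, (A.map j).map_par, hz, ← A.map_comp_apply]

theorem tn_cont {B Om : Type u} [CommRing B] [IsDomain B] [HasRat B] [Field Om] [CharZero Om]
    (i : B →+* Om)
    (P : PT (A.obj B)) (h : (A.bc i P).TN) : ∃ F : Finset Om,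
    ∀ (C : Type u) [CommRing C] [IsDomain C] [HasRat C] (g : B →+* C)
        (j : C →+* Om), Function.Injective j →
      j.comp g = i → (F : Set Om) ⊆ Set.range j → (A.bc g P).TN := by
  obtain ⟨n, hn⟩ := PT.tn_iff.1 h
  have h1 : (A.bc i (P.pow n)).Exact := by
    unfold bc at *
    rw [PT.map_pow]
    exact hn
  obtain ⟨F, hF⟩ := A.exact_cont i (P.pow n) h1
  refine ⟨F, fun C _ _ _ g j hj hji hFj => PT.tn_iff.2 ⟨n, ?_⟩⟩
  have h2 := hF C g j hj hji hFj
  unfold bc at *
  rw [← PT.map_pow]
  exact h2

/-- Pairs over a field come from finitely generated subrings. -/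
theorem obj_cont {Om : Type u} [Field Om] [CharZero Om] (P : PT (A.obj Om)) : ∃ F : Finset Om,
    ∀ (C : Type u) [CommRing C] [IsDomain C] [HasRat C] (j : C →+* Om), Function.Injective j →
      (F : Set Om) ⊆ Set.range j → ∃ Q : PT (A.obj C), A.bc j Q = P := by
  classical
  obtain ⟨M, f⟩ := P
  choose F hF using fun l : M.I => A.cont (f l)
  choose G hG using fun x : M.I × M.I => A.cont (M.D x.1 x.2)
  refine ⟨Finset.univ.biUnion F ∪ Finset.univ.biUnion G, ?_⟩
  intro C _ _ _ j hj hFj
  rw [Finset.coe_union, Set.union_subset_iff] at hFj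
  have h1 : ∀ l : M.I, ∃ b : A.obj C, A.map j b = f l := by
    intro l
    refine hF l C j hj (subset_trans ?_ hFj.1)
    intro x hx
    exact Finset.mem_coe.2 (Finset.mem_biUnion.2 ⟨l, Finset.mem_univ l, hx⟩)
  have h2 : ∀ x : M.I × M.I, ∃ b : A.obj C, A.map j b = M.D x.1 x.2 := by
    intro l
    refine hG l C j hj (subset_trans ?_ hFj.2)
    intro x hx
    exact Finset.mem_coe.2 (Finset.mem_biUnion.2 ⟨l, Finset.mem_univ l, hx⟩)
  choose f' hf' using h1
  choose D' hD' using h2
  let M' : TC (A.obj C) :=
    { I := M.I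
      odd := M.odd
      rk := M.rk
      D := fun i k => D' (i, k)
      par_D := fun i k => by
        apply A.inj j hj
        rw [(A.map j).map_par, map_smul, hD']
        exact M.par_D i k
      tri := fun i k h => by
        apply A.inj j hj
        rw [hD', map_zero]
        exact M.tri i k h
      flat := fun i k => by
        apply A.inj j hj
        rw [map_add, map_sum, map_zero, (A.map j).map_d, hD']
        refine Eq.trans ?_ (M.flat i k)
        congr 1
        refine Finset.sum_congr rfl fun l _ => ?_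
        rw [map_mul, (A.map j).map_par, hD', hD'] }
  refine ⟨⟨M', f'⟩, ?_⟩
  refine PT.ext' ?_ ?_
  · funext i k
    exact hD' (i, k)
  · funext i
    exact hf' i

theorem even_of_inj {B C : Type u} [CommRing B] [IsDomain B] [HasRat B] [CommRing C] [IsDomain C]
    [HasRat C]
    (j : B →+* C) (hj : Function.Injective j) {P : PT (A.obj B)} (h : (A.bc j P).Even) :
    P.Even := by
  intro i
  apply A.inj j hj
  rw [(A.map j).map_par, map_smul]
  exact h i

theorem closed_of_inj {B C : Type u} [CommRing B] [IsDomain B] [HasRat B] [CommRing C]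
    [IsDomain C] [HasRat C]
    (j : B →+* C) (hj : Function.Injective j) {P : PT (A.obj B)} (h : (A.bc j P).Closed) :
    P.Closed := by
  funext i
  apply A.inj j hj
  have h1 := congrFun (TC.mapE_dif (A.map j) P.1 P.2) i
  have h2 := congrFun h i
  rw [Pi.zero_apply, map_zero]
  exact h1.trans h2

end DGF

end Pool.Agent.SPC
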