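import Pool.Agent.SPC.TC
import Pool.Agent.SPC.Dgf

/-!
# SPC, part B: matrices over a supercommutative differential ring (definitions)

`Dr rk s Y`: the matrix `Y` lowers the rank by at least `s`. `dM`, `pM`: entrywise differential and
parity. `Spl A e`: a splitting of the complex `A` (with the augmentation `e`) if every even closed
element of augmentation zero is a boundary: `σ` inverts the differential on these elements and `V` is a
complement of the boundaries in the odd closed elements.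
-/

noncomputable section

namespace Pool.Agent.SPC

universe u

open SDG

variable {A : Type u} [Ring A] [Algebra ℚ A] [SDG A]

/-- A splitting. -/
structure Spl (A : Type u) [Ring A] [Algebra ℚ A] [SDG A] (e : SHom A ℚ) where
  σ : A →ₗ[ℚ] A
  V : Submodule ℚ A
  σ_par : ∀ a, par (σ a) = -σ a
  d_σ : ∀ a, par a = a → d a = 0 → e a = 0 → d (σ a) = a
  V_par : ∀ v ∈ V, par v = -v
  V_d : ∀ v ∈ V, d v = 0
  V_ex : ∀ a, par a = -a → d a = 0 → ∃ v ∈ V, ∃ h, par h = h ∧ e h = 0 ∧ a = v + d h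
  V_inj : ∀ v ∈ V, ∀ b, d b = v → v = 0

/-- Odd elements have augmentation zero. -/
theorem e_odd (e : SHom A ℚ) {a : A} (h : par a = -a) : e a = 0 := by
  have h1 : e (par a) = e a := e.map_par a
  rw [h, map_neg] at h1
  linarith

theorem e_d (e : SHom A ℚ) (a : A) : e (d a) = 0 := e.map_d a

variable {I : Type} [Fintype I] [DecidableEq I]

/-- The matrix `Y` lowers the rank by at least `s`. -/
def Dr (rk : I → ℕ) (s : ℕ) (Y : Matrix I I A) : Prop := ∀ i j, rk i < rk j + s → Y i j = 0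

/-- Entrywise differential. -/
def dM (Y : Matrix I I A) : Matrix I I A := fun i j => d (Y i j)

/-- Entrywise parity automorphism. -/
def pM (Y : Matrix I I A) : Matrix I I A := fun i j => par (Y i j)

/-- Entrywise application of `σ`. -/
def sM {e : SHom A ℚ} (S : Spl A e) (Y : Matrix I I A) : Matrix I I A := fun i j => S.σ (Y i j)

/-- The constant part of a matrix. -/
def eM (e : SHom A ℚ) (Y : Matrix I I A) : Matrix I I A := fun i j => algebraMap ℚ A (e (Y i j))

theorem Dr.zero (rk : I → ℕ) (s : ℕ) : Dr rk s (0 : Matrix I I A) := fun _ _ _ => rfl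

theorem Dr.add {rk : I → ℕ} {s : ℕ} {Y Z : Matrix I I A} (hY : Dr rk s Y) (hZ : Dr rk s Z) :
    Dr rk s (Y + Z) := fun i j h => by
  rw [Matrix.add_apply, hY i j h, hZ i j h, add_zero]

theorem Dr.sub {rk : I → ℕ} {s : ℕ} {Y Z : Matrix I I A} (hY : Dr rk s Y) (hZ : Dr rk s Z) :
    Dr rk s (Y - Z) := fun i j h => by
  rw [Matrix.sub_apply, hY i j h, hZ i j h, sub_zero]

theorem Dr.neg {rk : I → ℕ} {s : ℕ} {Y : Matrix I I A} (hY : Dr rk s Y) : Dr rk s (-Y) :=
  fun i j h => by rw [Matrix.neg_apply, hY i j h, neg_zero]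

theorem Dr.mono {rk : I → ℕ} {s t : ℕ} {Y : Matrix I I A} (h : Dr rk t Y) (hst : s ≤ t) :
    Dr rk s Y := fun i j hij => h i j (by omega)

theorem Dr.mul {rk : I → ℕ} {s t : ℕ} {Y Z : Matrix I I A} (hY : Dr rk s Y) (hZ : Dr rk t Z) :
    Dr rk (s + t) (Y * Z) := fun i j h => by
  rw [Matrix.mul_apply]
  refine Finset.sum_eq_zero fun k _ => ?_
  by_cases h1 : rk i < rk k + s
  · rw [hY i k h1, zero_mul]
  · rw [hZ k j (by omega), mul_zero]

theorem Dr.dM {rk : I → ℕ} {s : ℕ} {Y : Matrix I I A} (hY : Dr rk s Y) : Dr rk s (dM Y) :=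
  fun i j h => by
    unfold Pool.Agent.SPC.dM
    rw [hY i j h, map_zero]

theorem Dr.pM {rk : I → ℕ} {s : ℕ} {Y : Matrix I I A} (hY : Dr rk s Y) : Dr rk s (pM Y) :=
  fun i j h => by
    unfold Pool.Agent.SPC.pM
    rw [hY i j h, map_zero]

theorem Dr.sM {e : SHom A ℚ} (S : Spl A e) {rk : I → ℕ} {s : ℕ} {Y : Matrix I I A}
    (hY : Dr rk s Y) : Dr rk s (sM S Y) :=
  fun i j h => by
    unfold Pool.Agent.SPC.sM
    rw [hY i j h, map_zero]

theorem Dr.eM (e : SHom A ℚ) {rk : I → ℕ} {s : ℕ} {Y : Matrix I I A}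
    (hY : Dr rk s Y) : Dr rk s (eM e Y) :=
  fun i j h => by
    unfold Pool.Agent.SPC.eM
    rw [hY i j h, map_zero, map_zero]

theorem Dr.one (rk : I → ℕ) : Dr rk 0 (1 : Matrix I I A) := fun i j h => by
  rw [Matrix.one_apply_ne]
  rintro rfl
  omega

theorem Dr.eq_zero {rk : I → ℕ} {l : ℕ} (hl : ∀ i, rk i < l) {Y : Matrix I I A} (h : Dr rk l Y) :
    Y = 0 := by
  ext i j
  exact h i j (by have := hl i; omega)

theorem pM_mul (Y Z : Matrix I I A) : pM (Y * Z) = pM Y * pM Z := by
  ext i j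
  unfold pM
  rw [Matrix.mul_apply, Matrix.mul_apply, map_sum]
  simp only [map_mul]

theorem dM_mul (Y Z : Matrix I I A) : dM (Y * Z) = dM Y * Z + pM Y * dM Z := by
  ext i j
  unfold dM pM
  rw [Matrix.mul_apply, Matrix.add_apply, Matrix.mul_apply, Matrix.mul_apply, map_sum,
    ← Finset.sum_add_distrib]
  simp only [d_mul]

theorem dM_add (Y Z : Matrix I I A) : dM (Y + Z) = dM Y + dM Z := by
  ext i j
  exact map_add d _ _

theorem dM_sub (Y Z : Matrix I I A) : dM (Y - Z) = dM Y - dM Z := by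
  ext i j
  exact map_sub d _ _

theorem pM_add (Y Z : Matrix I I A) : pM (Y + Z) = pM Y + pM Z := by
  ext i j
  exact map_add par _ _

theorem pM_sub (Y Z : Matrix I I A) : pM (Y - Z) = pM Y - pM Z := by
  ext i j
  exact map_sub par _ _

theorem sM_add {e : SHom A ℚ} (S : Spl A e) (Y Z : Matrix I I A) : sM S (Y + Z) = sM S Y + sM S Z := by
  ext i j
  exact map_add S.σ _ _

theorem sM_sub {e : SHom A ℚ} (S : Spl A e) (Y Z : Matrix I I A) : sM S (Y - Z) = sM S Y - sM S Z := by
  ext i j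
  exact map_sub S.σ _ _

/-- The matrix `D` is the differential of a twisted complex. -/
structure IsTC (odd : I → Bool) (rk : I → ℕ) (D : Matrix I I A) : Prop where
  par_D : ∀ i j, IsPar (!(odd i ^^ odd j)) (D i j)
  tri : Dr rk 1 D
  flat : dM D + pM D * D = 0

/-- `D'` is obtained from `D` by the change of basis `g` (with inverse `g'`), which is the identity
modulo the augmentation. -/
structure Gauge (e : SHom A ℚ) (odd : I → Bool) (rk : I → ℕ) (D D' g g' : Matrix I I A) :
    Prop where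
  mul : g * g' = 1
  mul' : g' * g = 1
  tri : Dr rk 0 g
  tri' : Dr rk 0 g'
  par_g : ∀ i j, IsPar (odd i ^^ odd j) (g i j)
  par_g' : ∀ i j, IsPar (odd i ^^ odd j) (g' i j)
  eg : eM e g = 1
  eg' : eM e g' = 1
  eq : D' * g = dM g + pM g * D

/-- `D` is in normal form up to matrices which lower the rank by at least `s`: `D = D₀ + Φ` with
`Φ = X + σ (Φ * Φ)`, `X` with values in `V` and commuting with the constant part `D₀`. -/
structure Near {e : SHom A ℚ} (S : Spl A e) (odd : I → Bool) (rk : I → ℕ)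
    (D X Φ : Matrix I I A) (s : ℕ) : Prop where
  XV : ∀ i j, X i j ∈ S.V
  X1 : Dr rk 1 X
  Xp : ∀ i j, odd i ≠ odd j → X i j = 0
  fixp : Φ = X + sM S (Φ * Φ)
  Φ1 : Dr rk 1 Φ
  near : Dr rk s (D - eM e D - Φ)
  comm : Dr rk s (eM e D * X - X * eM e D)

end Pool.Agent.SPC
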