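import Pool.Agent.SPC.BDef

/-!
# SPC, part B: the equation `Φ = X + σ (Φ * Φ)`, differential and commutation with constants

Entrywise computation and induction on the number of ranks by which a matrix lowers the rank.
-/

noncomputable section

namespace Pool.Agent.SPC

universe u

open SDG

variable {A : Type u} [Ring A] [Algebra ℚ A] [SDG A] {e : SHom A ℚ} (S : Spl A e) {I : Type}
  [Fintype I] [DecidableEq I] {rk : I → ℕ} {l : ℕ}

omit [DecidableEq I] in
private theorem fx_entry {X Φ : Matrix I I A} (h : Φ = X + sM S (Φ * Φ)) (i j : I) :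
    Φ i j = X i j + S.σ ((Φ * Φ) i j) :=
  congrFun (congrFun h i) j

omit [DecidableEq I] in
private theorem fx_sl (c Y : Matrix I I A) : sM S (eM e c * Y) = eM e c * sM S Y := by
  ext i j
  show S.σ ((eM e c * Y) i j) = _
  rw [Matrix.mul_apply, Matrix.mul_apply, map_sum]
  refine Finset.sum_congr rfl fun k _ => ?_
  show S.σ (algebraMap ℚ A (e (c i k)) * Y k j) = algebraMap ℚ A (e (c i k)) * S.σ (Y k j)
  rw [← Algebra.smul_def, ← Algebra.smul_def, map_smul]

omit [DecidableEq I] in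
private theorem fx_sr (c Y : Matrix I I A) : sM S (Y * eM e c) = sM S Y * eM e c := by
  ext i j
  show S.σ ((Y * eM e c) i j) = _
  rw [Matrix.mul_apply, Matrix.mul_apply, map_sum]
  refine Finset.sum_congr rfl fun k _ => ?_
  show S.σ (Y i k * algebraMap ℚ A (e (c k j))) = S.σ (Y i k) * algebraMap ℚ A (e (c k j))
  rw [← Algebra.commutes, ← Algebra.commutes, ← Algebra.smul_def, ← Algebra.smul_def, map_smul]

theorem fix_odd {X Φ : Matrix I I A} (h : Φ = X + sM S (Φ * Φ)) (hX : ∀ i j, X i j ∈ S.V) :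
    pM Φ = -Φ := by
  ext i j
  show par (Φ i j) = -(Φ i j)
  rw [fx_entry S h i j, map_add, S.V_par _ (hX i j), S.σ_par]
  abel

theorem fix_e {X Φ : Matrix I I A} (h : Φ = X + sM S (Φ * Φ)) (hX : ∀ i j, X i j ∈ S.V) :
    eM e Φ = 0 := by
  ext i j
  have h1 : par (Φ i j) = -(Φ i j) := congrFun (congrFun (fix_odd S h hX) i) j
  show algebraMap ℚ A (e (Φ i j)) = 0
  rw [e_odd e h1, map_zero]

theorem fix_d (hl : ∀ i, rk i < l) {X Φ : Matrix I I A} (h : Φ = X + sM S (Φ * Φ))
    (h1 : Dr rk 1 Φ) (hX : ∀ i j, X i j ∈ S.V) : dM Φ = Φ * Φ := by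
  have hodd := fix_odd S h hX
  have key : ∀ t, Dr rk t (dM Φ - Φ * Φ) := by
    intro t
    induction t with
    | zero => exact (h1.dM.mono (Nat.zero_le _)).sub ((h1.mul h1).mono (Nat.zero_le _))
    | succ t ih =>
      have h2 : dM (Φ * Φ) = (dM Φ - Φ * Φ) * Φ - Φ * (dM Φ - Φ * Φ) := by
        rw [dM_mul, hodd]
        noncomm_ring
      have h3 : Dr rk (t + 1) (dM (Φ * Φ)) := by
        rw [h2]
        refine (ih.mul h1).sub ?_
        have h4 := h1.mul ih
        rwa [add_comm] at h4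
      intro i j hij
      have h4 : d ((Φ * Φ) i j) = 0 := h3 i j hij
      have h5 : par ((Φ * Φ) i j) = (Φ * Φ) i j := by
        have h6 : par ((Φ * Φ) i j) = (pM Φ * pM Φ) i j := congrFun (congrFun (pM_mul Φ Φ) i) j
        rw [h6, hodd, neg_mul_neg]
      have h6 : e ((Φ * Φ) i j) = 0 := by
        rw [Matrix.mul_apply, map_sum]
        refine Finset.sum_eq_zero fun k _ => ?_
        have h7 : par (Φ i k) = -(Φ i k) := congrFun (congrFun hodd i) k
        rw [map_mul, e_odd e h7, zero_mul]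
      show d (Φ i j) - (Φ * Φ) i j = 0
      rw [fx_entry S h i j, map_add, S.V_d _ (hX i j), S.d_σ _ h5 h4 h6, zero_add, sub_self]
  exact sub_eq_zero.1 ((key l).eq_zero hl)

theorem fix_comm {X Φ D : Matrix I I A} (h : Φ = X + sM S (Φ * Φ)) (h1 : Dr rk 1 Φ)
    (hD : Dr rk 1 D) {s : ℕ} (hs : Dr rk s (eM e D * X - X * eM e D)) :
    Dr rk s (eM e D * Φ - Φ * eM e D) ∧
      Dr rk (s + 1) ((eM e D * Φ - Φ * eM e D) - (eM e D * X - X * eM e D)) := by
  have hL : eM e D * Φ - Φ * eM e D = (eM e D * X - X * eM e D) +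
      sM S ((eM e D * Φ - Φ * eM e D) * Φ + Φ * (eM e D * Φ - Φ * eM e D)) := by
    have h2 : (eM e D * Φ - Φ * eM e D) * Φ + Φ * (eM e D * Φ - Φ * eM e D) =
        eM e D * (Φ * Φ) - (Φ * Φ) * eM e D := by noncomm_ring
    rw [h2, sM_sub, fx_sl, fx_sr]
    have h3 : eM e D * Φ - Φ * eM e D =
        eM e D * (X + sM S (Φ * Φ)) - (X + sM S (Φ * Φ)) * eM e D := by rw [← h]
    rw [h3]
    noncomm_ring
  have hS : ∀ t, Dr rk t (eM e D * Φ - Φ * eM e D) →
      Dr rk (t + 1) (sM S ((eM e D * Φ - Φ * eM e D) * Φ + Φ * (eM e D * Φ - Φ * eM e D))) := by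
    intro t ht
    refine Dr.sM S ((ht.mul h1).add ?_)
    have h4 := h1.mul ht
    rwa [add_comm] at h4
  have key : ∀ t, t ≤ s → Dr rk t (eM e D * Φ - Φ * eM e D) := by
    intro t
    induction t with
    | zero =>
      intro _
      exact (((hD.eM e).mul h1).mono (Nat.zero_le _)).sub ((h1.mul (hD.eM e)).mono (Nat.zero_le _))
    | succ t ih =>
      intro ht
      rw [hL]
      exact (hs.mono ht).add (hS t (ih (by omega)))
  refine ⟨key s le_rfl, ?_⟩
  have h5 : (eM e D * Φ - Φ * eM e D) - (eM e D * X - X * eM e D) =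
      sM S ((eM e D * Φ - Φ * eM e D) * Φ + Φ * (eM e D * Φ - Φ * eM e D)) :=
    sub_eq_iff_eq_add'.2 hL
  rw [h5]
  exact hS s (key s le_rfl)

end Pool.Agent.SPC
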