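import Pool.Agent.SPC.BFixA
import Pool.Agent.SPC.BFixB

/-!
# SPC, part B: elements of a complex in normal form

`difV D x`: the differential of the element `x`.

MODULE SPC-BEltA: `exists_vfix`. PLAN. The row vector `F = v + σ (F * Φ)`: iterate `Y (n + 1) = v + σ (Y n * Φ)`, start `Y 0 = 0`; the
difference `Y (n + 1) - Y n` vanishes at all `j` with `l ≤ rk j + n` (`Φ i j ≠ 0` implies `rk j < rk i`, and `rk i < l`), so
`Y (l + 1) = Y l`; `F` vanishes above the ranks where `v` is supported:
for every `t`, if `v j = 0` for `t ≤ rk j` then `F j = 0` for `t ≤ rk j`. Odd: `S.V_par`, `S.σ_par`.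
`d (F j) = ∑ i, F i * Φ i j`: by downward induction on the rank (`t` from `l`): `(F * Φ) j` is even, has augmentation `0` and is closed:
`d (∑ i, F i * Φ i j) = ∑ i, d (F i) * Φ i j - ∑ i, F i * d (Φ i j)` with `d (F i) = (F * Φ) i` for `rk i > rk j` and
`dM Φ = Φ * Φ`. Parity: if `v j = 0` for all `j` with `odd j = true` then `F j = 0` for these `j` (`Φ i j = 0` for
`odd i ≠ odd j`). `(F * D₀) = (v * D₀) + σ ((F * D₀) * Φ)` as `Φ` commutes with the constant matrix `D₀`.
-/

noncomputable section

namespace Pool.Agent.SPC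

universe u

open SDG

variable {A : Type u} [Ring A] [Algebra ℚ A] [SDG A] {e : SHom A ℚ} (S : Spl A e) {I : Type}
  [Fintype I] [DecidableEq I] {odd : I → Bool} {rk : I → ℕ} {l : ℕ}

/-- The differential of `∑ i, x i * w i`. -/
def difV (D : Matrix I I A) (x : I → A) : I → A := fun j => d (x j) + ∑ i, par (x i) * D i j

/-- Row vector times matrix. -/
def vM (x : I → A) (Y : Matrix I I A) : I → A := fun j => ∑ i, x i * Y i j

/-- The iterates. -/
def vit (Φ : Matrix I I A) (v : I → A) : ℕ → I → A
  | 0 => 0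
  | n + 1 => fun j => v j + S.σ (vM (vit Φ v n) Φ j)

omit [DecidableEq I] in
theorem vM_congr {Φ : Matrix I I A} {x y : I → A} {j : I} (h : ∀ i, Φ i j ≠ 0 → x i = y i) :
    vM x Φ j = vM y Φ j := by
  unfold vM
  refine Finset.sum_congr rfl fun i _ => ?_
  by_cases h0 : Φ i j = 0
  · rw [h0, mul_zero, mul_zero]
  · rw [h i h0]

omit [DecidableEq I] in
theorem vM_zero {Φ : Matrix I I A} {x : I → A} {j : I} (h : ∀ i, Φ i j ≠ 0 → x i = 0) :
    vM x Φ j = 0 := by
  unfold vM
  refine Finset.sum_eq_zero fun i _ => ?_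
  by_cases h0 : Φ i j = 0
  · rw [h0, mul_zero]
  · rw [h i h0, zero_mul]

omit [DecidableEq I] in
theorem vit_stab (hl : ∀ i, rk i < l) {Φ : Matrix I I A} (h1 : Dr rk 1 Φ) (v : I → A) :
    ∀ n j, l ≤ rk j + n → vit S Φ v (n + 1) j = vit S Φ v n j := by
  intro n
  induction n with
  | zero =>
    intro j hj
    have := hl j
    omega
  | succ n ih =>
    intro j hj
    show v j + S.σ (vM (vit S Φ v (n + 1)) Φ j) = v j + S.σ (vM (vit S Φ v n) Φ j)
    rw [vM_congr]
    intro i hi
    refine ih i ?_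
    by_contra hc
    exact hi (h1 i j (by omega))

theorem exists_vfix (hl : ∀ i, rk i < l) {Φ : Matrix I I A} (h1 : Dr rk 1 Φ)
    (hodd : pM Φ = -Φ) (hd : dM Φ = Φ * Φ) (hpar : ∀ i j, odd i ≠ odd j → Φ i j = 0)
    {v : I → A} (hv : ∀ j, v j ∈ S.V) (hvp : ∀ j, odd j = true → v j = 0) :
    ∃ F : I → A, (∀ j, F j = v j + S.σ (vM F Φ j)) ∧ (∀ j, par (F j) = -F j) ∧
      (∀ j, odd j = true → F j = 0) ∧ (∀ j, d (F j) = vM F Φ j) ∧
        ∀ t, (∀ j, t ≤ rk j → v j = 0) → ∀ j, t ≤ rk j → F j = 0 := by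
  have hfix : ∀ j, vit S Φ v l j = v j + S.σ (vM (vit S Φ v l) Φ j) := by
    intro j
    have h := vit_stab S hl h1 v l j (by omega)
    exact h.symm
  have hrk : ∀ i j, Φ i j ≠ 0 → rk j < rk i := by
    intro i j h
    by_contra hc
    exact h (h1 i j (by omega))
  have hp : ∀ j, par (vit S Φ v l j) = -vit S Φ v l j := by
    intro j
    rw [hfix j, map_add, S.V_par _ (hv j), S.σ_par, neg_add]
  have hz : ∀ n j, odd j = true → vit S Φ v n j = 0 := by
    intro n
    induction n with
    | zero => intro j _; rfl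
    | succ n ih =>
      intro j hj
      show v j + S.σ (vM (vit S Φ v n) Φ j) = 0
      rw [hvp j hj, vM_zero, map_zero, add_zero]
      intro i hi
      refine ih i ?_
      by_contra hc
      exact hi (hpar i j (by rw [hj]; exact hc))
  have hs : ∀ n t, (∀ j, t ≤ rk j → v j = 0) → ∀ j, t ≤ rk j → vit S Φ v n j = 0 := by
    intro n t ht
    induction n with
    | zero => intro j _; rfl
    | succ n ih =>
      intro j hj
      show v j + S.σ (vM (vit S Φ v n) Φ j) = 0
      rw [ht j hj, vM_zero, map_zero, add_zero]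
      intro i hi
      exact ih i (by have := hrk i j hi; omega)
  have hΦp : ∀ i j, par (Φ i j) = -Φ i j := fun i j => congrFun (congrFun hodd i) j
  have hΦd : ∀ i j, d (Φ i j) = ∑ k, Φ i k * Φ k j := by
    intro i j
    have h : d (Φ i j) = (Φ * Φ) i j := congrFun (congrFun hd i) j
    rw [h, Matrix.mul_apply]
  have hdF : ∀ m j, l ≤ rk j + m → d (vit S Φ v l j) = vM (vit S Φ v l) Φ j := by
    intro m
    induction m with
    | zero =>
      intro j hj
      have := hl j
      omega
    | succ m ih =>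
      intro j hj
      have ha1 : par (vM (vit S Φ v l) Φ j) = vM (vit S Φ v l) Φ j := by
        unfold vM
        rw [map_sum]
        refine Finset.sum_congr rfl fun i _ => ?_
        rw [map_mul, hp, hΦp, neg_mul_neg]
      have ha2 : e (vM (vit S Φ v l) Φ j) = 0 := by
        unfold vM
        rw [map_sum]
        refine Finset.sum_eq_zero fun i _ => ?_
        rw [map_mul, e_odd e (hp i), zero_mul]
      have ha3 : d (vM (vit S Φ v l) Φ j) = 0 := by
        have e1 : d (vM (vit S Φ v l) Φ j) =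
            ∑ i, (vM (vit S Φ v l) Φ i * Φ i j - vit S Φ v l i * ∑ k, Φ i k * Φ k j) := by
          conv_lhs => unfold vM
          rw [map_sum]
          refine Finset.sum_congr rfl fun i _ => ?_
          rw [d_mul, hp, hΦd, neg_mul, ← sub_eq_add_neg]
          congr 1
          by_cases h0 : Φ i j = 0
          · rw [h0, mul_zero, mul_zero]
          · rw [ih i (by have := hrk i j h0; omega)]
        rw [e1, Finset.sum_sub_distrib, sub_eq_zero]
        unfold vM
        simp only [Finset.sum_mul, Finset.mul_sum]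
        rw [Finset.sum_comm]
        simp only [mul_assoc]
      conv_lhs => rw [hfix j]
      rw [map_add, S.V_d _ (hv j), zero_add, S.d_σ _ ha1 ha3 ha2]
  exact ⟨vit S Φ v l, hfix, hp, hz l, fun j => hdF l j (by omega), hs l⟩

end Pool.Agent.SPC
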