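import Pool.Agent.SPC.BElt

/-!
# SPC, part B: elements of a complex in normal form are standard up to boundaries

MODULE SPC-BEltB. PLAN. Put `D₀ = eM e D`, `D = D₀ + Φ`, `D₀ * X = X * D₀`, hence `D₀ * Φ = Φ * D₀` (`fix_comm` for `s = l`). Prove
by induction on `n`: for `t = l - n`, `r₀ < t`: there are `z v : I → A` with `z j` of parity `odd j`,
`e (z j) = 0`, `v j ∈ S.V`, `v j = 0` if `rk j < t` or `odd j = true`, `vM v D₀ j = 0` for `t ≤ rk j`, and with `F` from `exists_vfix` for `v`: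
`ρ = x - difV D z - F` vanishes at all `j` with `t ≤ rk j`. Start `t = l`: `z = v = 0` (`F = 0`). Step from `t` to `t - 1 > r₀`:
`difV D F = - vM F D₀` (`d F = vM F Φ`, `par F = - F`) and `vM F D₀ j = vM v D₀ j + S.σ (vM (vM F D₀) Φ j)`, so `vM F D₀` vanishes at
ranks `≥ t` and equals `vM v D₀` at rank `t - 1`. `difV D (difV D z) = 0` (flatness). For `rk j = t - 1`: `difV D ρ j = d (ρ j)` (the
other terms need `rk i > rk j`, where `ρ i = 0`) and `difV D ρ j = difV D x j + vM F D₀ j = vM v D₀ j ∈ S.V`; so both are zero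
(`S.V_inj`). `ρ j` is closed, of parity `!odd j`, `e (ρ j) = 0` (`hxe`; `e (difV D z j) = ∑ i, e (z i) * e (D i j) = 0`;
`e_odd` for `F`). `odd j = false`: `ρ j` is odd, `S.V_ex`: `ρ j = v' + d h`; `odd j = true`: `ρ j` is even and
`F j = 0`: `h = S.σ (ρ j)`, `v' = 0`. New `z + h`, `v + v'` (only at rank `t - 1`); the new `F'` satisfies
`F' - F = v'` at ranks `≥ t - 1` (the difference of two solutions of `F = v + σ (vM F Φ)` vanishes at ranks `≥ t`).
End: `t = r₀ + 1` (if `l ≤ r₀ + 1` take `z = v = 0`): `vM v D₀ j = 0` for `rk j ≤ r₀` by `h0` (`v` is supported in ranks `> r₀`), so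
`vM v D₀ = 0`, `vM F D₀ = 0`, `difV D F = 0` and `difV D x = difV D ρ`; take `y = ρ`.
-/

noncomputable section

namespace Pool.Agent.SPC

universe u

open SDG

variable {A : Type u} [Ring A] [Algebra ℚ A] [SDG A] {e : SHom A ℚ} (S : Spl A e) {I : Type}
  [Fintype I] [DecidableEq I] {odd : I → Bool} {rk : I → ℕ} {l : ℕ}

omit [DecidableEq I] in
private theorem bl_sub (D : Matrix I I A) (x y : I → A) : difV D (x - y) = difV D x - difV D y := by
  funext j
  unfold difV
  simp only [Pi.sub_apply, map_sub, sub_mul, Finset.sum_sub_distrib]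
  abel

omit [DecidableEq I] in
private theorem bl_add (D : Matrix I I A) (x y : I → A) : difV D (x + y) = difV D x + difV D y := by
  funext j
  unfold difV
  simp only [Pi.add_apply, map_add, add_mul, Finset.sum_add_distrib]
  abel

private theorem bl_flat {D : Matrix I I A} (hf : dM D + pM D * D = 0) (z : I → A) :
    difV D (difV D z) = 0 := by
  funext j
  have h1 : d (difV D z j) = ∑ i, (-(par (d (z i))) * D i j + z i * d (D i j)) := by
    unfold difV
    rw [map_add, d_d, zero_add, map_sum]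
    refine Finset.sum_congr rfl fun i _ => ?_
    rw [d_mul, d_par, par_par]
  have h2 : ∀ i, par (difV D z i) = par (d (z i)) + ∑ k, z k * par (D k i) := by
    intro i
    unfold difV
    rw [map_add, map_sum]
    congr 1
    refine Finset.sum_congr rfl fun k _ => ?_
    rw [map_mul, par_par]
  have h3 : ∀ k, d (D k j) + ∑ i, par (D k i) * D i j = 0 := by
    intro k
    have h4 := congrFun (congrFun hf k) j
    rw [Matrix.add_apply, Matrix.mul_apply] at h4
    exact h4
  have h5 : ∑ i, par (difV D z i) * D i j =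
      ∑ i, par (d (z i)) * D i j + ∑ k, z k * ∑ i, par (D k i) * D i j := by
    have h6 : ∀ i, par (difV D z i) * D i j =
        par (d (z i)) * D i j + ∑ k, z k * (par (D k i) * D i j) := by
      intro i
      rw [h2 i, add_mul, Finset.sum_mul]
      congr 1
      refine Finset.sum_congr rfl fun k _ => ?_
      rw [mul_assoc]
    rw [Finset.sum_congr rfl fun i _ => h6 i, Finset.sum_add_distrib, Finset.sum_comm]
    congr 1
    refine Finset.sum_congr rfl fun k _ => ?_
    rw [Finset.mul_sum]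
  have h7 : ∑ k, z k * (d (D k j) + ∑ i, par (D k i) * D i j) = 0 :=
    Finset.sum_eq_zero fun k _ => by rw [h3 k, mul_zero]
  simp only [mul_add] at h7
  rw [Finset.sum_add_distrib] at h7
  show d (difV D z j) + ∑ i, par (difV D z i) * D i j = 0
  rw [h1, h5, Finset.sum_add_distrib]
  have h8 : ∑ i, -(par (d (z i))) * D i j = -∑ i, par (d (z i)) * D i j := by
    rw [← Finset.sum_neg_distrib]
    refine Finset.sum_congr rfl fun i _ => ?_
    rw [neg_mul]
  rw [h8]
  calc -∑ i, par (d (z i)) * D i j + ∑ i, z i * d (D i j) +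
        (∑ i, par (d (z i)) * D i j + ∑ k, z k * ∑ i, par (D k i) * D i j)
      = ∑ i, z i * d (D i j) + ∑ k, z k * ∑ i, par (D k i) * D i j := by abel
    _ = 0 := h7

omit [DecidableEq I] in
private theorem bl_sum0 {Y : Matrix I I A} (hY : Dr rk 1 Y) {u : I → A} {j : I}
    (hu : ∀ i, rk j + 1 ≤ rk i → u i = 0) : ∑ i, u i * Y i j = 0 := by
  refine Finset.sum_eq_zero fun i _ => ?_
  rcases Nat.lt_or_ge (rk i) (rk j + 1) with h | h
  · rw [hY i j h, mul_zero]
  · rw [hu i h, zero_mul]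

omit [DecidableEq I] in
private theorem bl_van (hl : ∀ i, rk i < l) {Φ : Matrix I I A} (hΦ : Dr rk 1 Φ) {u w : I → A}
    (hu : ∀ j, u j = w j + S.σ (vM u Φ j)) {t : ℕ} (hw : ∀ j, t ≤ rk j → w j = 0) :
    (∀ j, t ≤ rk j → u j = 0) ∧ ∀ j, t ≤ rk j + 1 → u j = w j := by
  have h1 : ∀ n : ℕ, ∀ j, t ≤ rk j → l ≤ rk j + n → u j = 0 := by
    intro n
    induction n with
    | zero =>
      intro j _ h3
      have h4 := hl j
      omega
    | succ n ih =>
      intro j h2 h3
      have h4 : vM u Φ j = 0 := bl_sum0 hΦ fun i hi => ih i (by omega) (by omega)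
      rw [hu j, hw j h2, h4, map_zero, add_zero]
  have h2 : ∀ j, t ≤ rk j → u j = 0 := fun j hj => h1 l j hj (by omega)
  refine ⟨h2, fun j hj => ?_⟩
  have h4 : vM u Φ j = 0 := bl_sum0 hΦ fun i hi => h2 i (by omega)
  rw [hu j, h4, map_zero, add_zero]

omit [DecidableEq I] in
private theorem bl_vM (x : I → A) (Y Z : Matrix I I A) : vM (vM x Y) Z = vM x (Y * Z) :=
  Matrix.vecMul_vecMul x Y Z

omit [DecidableEq I] in
private theorem bl_com {D Φ : Matrix I I A} (hc : eM e D * Φ = Φ * eM e D) {F v : I → A}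
    (hF : ∀ j, F j = v j + S.σ (vM F Φ j)) (j : I) :
    vM F (eM e D) j = vM v (eM e D) j + S.σ (vM (vM F (eM e D)) Φ j) := by
  rw [bl_vM, hc, ← bl_vM]
  have h1 : S.σ (vM (vM F Φ) (eM e D) j) = ∑ i, S.σ (vM F Φ i) * eM e D i j := by
    unfold vM
    rw [map_sum]
    refine Finset.sum_congr rfl fun i _ => ?_
    unfold eM
    rw [← Algebra.commutes, ← Algebra.smul_def, map_smul, ← Algebra.commutes, ← Algebra.smul_def]
  rw [h1]
  unfold vM
  rw [← Finset.sum_add_distrib]
  refine Finset.sum_congr rfl fun i _ => ?_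
  rw [← add_mul]
  congr 1
  exact hF i

omit [DecidableEq I] in
private theorem bl_dF {D Φ : Matrix I I A} (h1 : D = eM e D + Φ) {F : I → A}
    (hp : ∀ j, par (F j) = -F j) (hd : ∀ j, d (F j) = vM F Φ j) (j : I) :
    difV D F j = -vM F (eM e D) j := by
  have hD : ∀ i j, D i j = eM e D i j + Φ i j := fun i j => congrFun (congrFun h1 i) j
  unfold difV
  rw [hd j]
  unfold vM
  have h2 : ∑ i, par (F i) * D i j = -∑ i, F i * eM e D i j - ∑ i, F i * Φ i j := by
    rw [← Finset.sum_neg_distrib, ← Finset.sum_sub_distrib]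
    refine Finset.sum_congr rfl fun i _ => ?_
    rw [hp i, hD i j]
    rw [mul_add, neg_mul, neg_mul, sub_eq_add_neg]
  rw [h2]
  abel

omit [DecidableEq I] in
private theorem bl_V {D : Matrix I I A} {v : I → A} (hv : ∀ j, v j ∈ S.V) (j : I) :
    vM v (eM e D) j ∈ S.V := by
  refine Submodule.sum_mem _ fun i _ => ?_
  unfold eM
  rw [← Algebra.commutes, ← Algebra.smul_def]
  exact Submodule.smul_mem _ _ (hv i)

private theorem bl_psub {s : Bool} {a b : A} (ha : IsPar s a) (hb : IsPar s b) : IsPar s (a - b) := by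
  unfold IsPar at *
  rw [map_sub, ha, hb, smul_sub]

omit [DecidableEq I] in
private theorem bl_par {D : Matrix I I A} (hD : ∀ i j, IsPar (!(odd i ^^ odd j)) (D i j))
    {z : I → A} (hz : ∀ j, IsPar (odd j) (z j)) (j : I) : IsPar (!odd j) (difV D z j) := by
  refine (hz j).d.add (IsPar.sum _ fun i _ => ?_)
  have h1 : IsPar (odd i ^^ !(odd i ^^ odd j)) (par (z i) * D i j) :=
    ((hz i).apply_parP true).mul (hD i j)
  have h2 : (odd i ^^ !(odd i ^^ odd j)) = !odd j := by
    cases odd i <;> cases odd j <;> rfl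
  rw [h2] at h1
  exact h1

private theorem bl_ep (e : SHom A ℚ) (a : A) : e (par a) = e a := e.map_par a

omit [DecidableEq I] in
private theorem bl_e {D : Matrix I I A} {z : I → A} (hz : ∀ j, e (z j) = 0) (j : I) :
    e (difV D z j) = 0 := by
  unfold difV
  rw [map_add, e_d, zero_add, map_sum]
  refine Finset.sum_eq_zero fun i _ => ?_
  rw [map_mul, bl_ep, hz i, zero_mul]

/-- the state of the induction -/
private structure Ok (odd : I → Bool) (rk : I → ℕ) (D Φ : Matrix I I A) (x : I → A) (t : ℕ)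
    (z v F : I → A) : Prop where
  zp : ∀ j, IsPar (odd j) (z j)
  ze : ∀ j, e (z j) = 0
  vV : ∀ j, v j ∈ S.V
  v0 : ∀ j, rk j < t → v j = 0
  vp : ∀ j, odd j = true → v j = 0
  vD : ∀ j, t ≤ rk j → vM v (eM e D) j = 0
  Ff : ∀ j, F j = v j + S.σ (vM F Φ j)
  Fp : ∀ j, par (F j) = -F j
  Fo : ∀ j, odd j = true → F j = 0
  Fd : ∀ j, d (F j) = vM F Φ j
  ro : ∀ j, t ≤ rk j → (x - difV D z - F) j = 0

private theorem bl_base (hl : ∀ i, rk i < l) {D Φ : Matrix I I A} {x : I → A} {t : ℕ} (ht : l ≤ t) :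
    ∃ z v F, Ok S odd rk D Φ x t z v F := by
  have h0 : ∀ j, vM (0 : I → A) Φ j = 0 := fun j => Finset.sum_eq_zero fun i _ => by
    rw [Pi.zero_apply, zero_mul]
  refine ⟨0, 0, 0, fun j => IsPar.zero _, fun j => map_zero e, fun j => Submodule.zero_mem _,
    fun j _ => rfl, fun j _ => rfl, fun j hj => ?_, fun j => ?_, fun j => ?_, fun j _ => rfl,
    fun j => ?_, fun j hj => ?_⟩
  · have := hl j
    omega
  · rw [h0 j, map_zero, add_zero]
  · rw [Pi.zero_apply, map_zero, neg_zero]
  · rw [h0 j, Pi.zero_apply, map_zero]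
  · have := hl j
    omega

private theorem bl_step (hl : ∀ i, rk i < l) {D X Φ : Matrix I I A} (hD : IsTC odd rk D)
    (h : Near S odd rk D X Φ l) (h1 : D = eM e D + Φ) (hc : eM e D * Φ = Φ * eM e D) {x : I → A}
    (hx : ∀ j, IsPar (!odd j) (x j)) {t : ℕ} (hxe : ∀ j, rk j = t → e (x j) = 0)
    (hxd : ∀ j, rk j = t → difV D x j = 0) {z v F : I → A} (hk : Ok S odd rk D Φ x (t + 1) z v F) :
    ∃ z' v' F', Ok S odd rk D Φ x t z' v' F' := by
  obtain ⟨ρ, hρ⟩ : ∃ ρ, ρ = x - difV D z - F := ⟨_, rfl⟩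
  have hro : ∀ j, t + 1 ≤ rk j → ρ j = 0 := by
    intro j hj
    rw [hρ]
    exact hk.ro j hj
  have hEr : Dr rk 1 (eM e D) := hD.tri.eM e
  have hFD := bl_van S hl h.Φ1 (fun j => bl_com S hc hk.Ff j) hk.vD
  have hdV : ∀ j, rk j = t → d (ρ j) = vM v (eM e D) j := by
    intro j hj
    have h2 : difV D ρ j = d (ρ j) := by
      unfold difV
      rw [bl_sum0 (u := fun i => par (ρ i)) hD.tri (fun i hi => ?_), add_zero]
      show par (ρ i) = 0
      rw [hro i (by omega), map_zero]
    have h3 : difV D ρ j = vM v (eM e D) j := by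
      rw [hρ, bl_sub, bl_sub, bl_flat hD.flat]
      rw [Pi.sub_apply, Pi.sub_apply, Pi.zero_apply, hxd j hj, bl_dF h1 hk.Fp hk.Fd j,
        hFD.2 j (by omega)]
      abel
    rw [← h2, h3]
  have hV0 : ∀ j, rk j = t → vM v (eM e D) j = 0 := fun j hj =>
    S.V_inj _ (bl_V S hk.vV j) (ρ j) (hdV j hj)
  have hpar : ∀ j, IsPar (!odd j) (ρ j) := by
    intro j
    rw [hρ]
    refine bl_psub (bl_psub (hx j) (bl_par hD.par_D hk.zp j)) ?_
    cases ho : odd j with
    | false =>
      show par (F j) = sgn (!false) • F j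
      rw [hk.Fp j, Bool.not_false, sgn_true, neg_one_smul]
    | true =>
      rw [hk.Fo j ho]
      exact IsPar.zero _
  have hex : ∀ j, ∃ v' h' : A, v' ∈ S.V ∧ (rk j ≠ t → v' = 0 ∧ h' = 0) ∧ (odd j = true → v' = 0) ∧
      IsPar (odd j) h' ∧ e h' = 0 ∧ (rk j = t → ρ j = v' + d h') := by
    intro j
    by_cases hj : rk j = t
    · have hcl : d (ρ j) = 0 := by rw [hdV j hj, hV0 j hj]
      have hpj := hpar j
      cases ho : odd j with
      | false =>
        rw [ho] at hpj
        have hp : par (ρ j) = -ρ j := by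
          have h2 : par (ρ j) = sgn (!false) • ρ j := hpj
          rw [h2, Bool.not_false, sgn_true, neg_one_smul]
        obtain ⟨v', hv', h', a1, a2, a3⟩ := S.V_ex (ρ j) hp hcl
        refine ⟨v', h', hv', fun h2 => absurd hj h2, fun h2 => absurd h2 Bool.false_ne_true, ?_, a2,
          fun _ => a3⟩
        show par h' = sgn false • h'
        rw [a1, sgn_false, one_smul]
      | true =>
        rw [ho] at hpj
        have hp : par (ρ j) = ρ j := by
          have h2 : par (ρ j) = sgn (!true) • ρ j := hpj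
          rw [h2, Bool.not_true, sgn_false, one_smul]
        have he : e (ρ j) = 0 := by
          rw [hρ, Pi.sub_apply, Pi.sub_apply, map_sub, map_sub, hxe j hj, bl_e hk.ze j,
            e_odd e (hk.Fp j)]
          ring
        refine ⟨0, S.σ (ρ j), Submodule.zero_mem _, fun h2 => absurd hj h2, fun _ => rfl, ?_,
          e_odd e (S.σ_par _), fun _ => ?_⟩
        · show par (S.σ (ρ j)) = sgn true • S.σ (ρ j)
          rw [S.σ_par, sgn_true, neg_one_smul]
        · rw [S.d_σ _ hp hcl he, zero_add]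
    · exact ⟨0, 0, Submodule.zero_mem _, fun _ => ⟨rfl, rfl⟩, fun _ => rfl, IsPar.zero _, map_zero e,
        fun h2 => absurd h2 hj⟩
  choose v' h' b1 b2 b3 b4 b5 b6 using hex
  obtain ⟨F', f1, f2, f3, f4, -⟩ := exists_vfix S hl h.Φ1 (fix_odd S h.fixp h.XV)
    (fix_d S hl h.fixp h.Φ1 h.XV) (fix_par S h.fixp h.Φ1 h.Xp) (v := v + v')
    (fun j => Submodule.add_mem _ (hk.vV j) (b1 j))
    (fun j hj => by rw [Pi.add_apply, hk.vp j hj, b3 j hj, add_zero])
  have hG : ∀ j, (F' - F) j = v' j + S.σ (vM (F' - F) Φ j) := by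
    intro j
    have h2 : vM (F' - F) Φ j = vM F' Φ j - vM F Φ j := by
      unfold vM
      rw [← Finset.sum_sub_distrib]
      refine Finset.sum_congr rfl fun i _ => ?_
      rw [Pi.sub_apply, sub_mul]
    rw [h2, map_sub]
    have h3 := f1 j
    have h4 := hk.Ff j
    rw [Pi.add_apply] at h3
    calc (F' - F) j = F' j - F j := rfl
      _ = (v j + v' j + S.σ (vM F' Φ j)) - (v j + S.σ (vM F Φ j)) := by rw [← h3, ← h4]
      _ = v' j + (S.σ (vM F' Φ j) - S.σ (vM F Φ j)) := by abel
  have hGv := bl_van S hl h.Φ1 hG (t := t + 1) (fun j hj => (b2 j (by omega)).1)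
  have hdh : ∀ j, t ≤ rk j → difV D h' j = d (h' j) := by
    intro j hj
    unfold difV
    rw [bl_sum0 (u := fun i => par (h' i)) hD.tri (fun i hi => ?_), add_zero]
    show par (h' i) = 0
    rw [(b2 i (by omega)).2, map_zero]
  refine ⟨z + h', v + v', F', fun j => (hk.zp j).add (b4 j), fun j => ?_,
    fun j => Submodule.add_mem _ (hk.vV j) (b1 j), fun j hj => ?_, fun j hj => ?_, fun j hj => ?_,
    f1, f2, f3, f4, fun j hj => ?_⟩
  · rw [Pi.add_apply, map_add, hk.ze j, b5 j, add_zero]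
  · rw [Pi.add_apply, hk.v0 j (by omega), (b2 j (by omega)).1, add_zero]
  · rw [Pi.add_apply, hk.vp j hj, b3 j hj, add_zero]
  · have h2 : vM (v + v') (eM e D) j = vM v (eM e D) j + ∑ i, v' i * eM e D i j := by
      unfold vM
      rw [← Finset.sum_add_distrib]
      refine Finset.sum_congr rfl fun i _ => ?_
      rw [Pi.add_apply, add_mul]
    rw [h2, bl_sum0 hEr (fun i hi => (b2 i (by omega)).1), add_zero]
    rcases Nat.eq_or_lt_of_le hj with h3 | h3
    · exact hV0 j h3.symm
    · exact hk.vD j h3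
  · have h2 : (x - difV D (z + h') - F') j = ρ j - difV D h' j - (F' - F) j := by
      rw [hρ, bl_add]
      simp only [Pi.sub_apply, Pi.add_apply]
      abel
    rw [h2, hdh j hj]
    rcases Nat.eq_or_lt_of_le hj with h3 | h3
    · rw [hGv.2 j (by omega), b6 j h3.symm]
      abel
    · rw [hro j h3, hGv.1 j h3, (b2 j (by omega)).2, map_zero]
      abel

theorem exists_elt_nf (hl : ∀ i, rk i < l) {D X Φ : Matrix I I A} (hD : IsTC odd rk D)
    (h : Near S odd rk D X Φ l) (h1 : D = eM e D + Φ) (h2 : eM e D * X = X * eM e D) {r₀ : ℕ}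
    (h0 : ∀ i j, r₀ < rk i → rk j ≤ r₀ → e (D i j) = 0) {x : I → A}
    (hx : ∀ j, IsPar (!odd j) (x j)) (hxe : ∀ j, r₀ < rk j → e (x j) = 0)
    (hxd : ∀ j, r₀ < rk j → difV D x j = 0) :
    ∃ y : I → A, (∀ j, r₀ < rk j → y j = 0) ∧ difV D y = difV D x := by
  have hc : eM e D * Φ = Φ * eM e D := by
    have h3 := (fix_comm S h.fixp h.Φ1 hD.tri (s := l) (by
      rw [h2, sub_self]
      exact Dr.zero rk l)).1
    exact sub_eq_zero.1 (h3.eq_zero hl)
  have key : ∀ n t : ℕ, r₀ < t → l ≤ t + n → ∃ z v F, Ok S odd rk D Φ x t z v F := by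
    intro n
    induction n with
    | zero => exact fun t _ h4 => bl_base S hl h4
    | succ n ih =>
      intro t h3 h4
      obtain ⟨z, v, F, hk⟩ := ih (t + 1) (by omega) (by omega)
      exact bl_step S hl hD h h1 hc hx (fun j hj => hxe j (by omega)) (fun j hj => hxd j (by omega))
        hk
  obtain ⟨z, v, F, hk⟩ := key l (r₀ + 1) (by omega) (by omega)
  have hvD : ∀ j, vM v (eM e D) j = 0 := by
    intro j
    rcases Nat.lt_or_ge r₀ (rk j) with h3 | h3
    · exact hk.vD j h3
    · refine Finset.sum_eq_zero fun i _ => ?_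
      rcases Nat.lt_or_ge r₀ (rk i) with h4 | h4
      · unfold eM
        rw [h0 i j h4 h3, map_zero, mul_zero]
      · rw [hk.v0 i (by omega), zero_mul]
  have hFD := (bl_van S hl h.Φ1 (fun j => bl_com S hc hk.Ff j) (t := 0) (fun j _ => hvD j)).1
  refine ⟨x - difV D z - F, fun j hj => hk.ro j hj, ?_⟩
  rw [bl_sub, bl_sub, bl_flat hD.flat]
  funext j
  rw [Pi.sub_apply, Pi.sub_apply, Pi.zero_apply, bl_dF h1 hk.Fp hk.Fd j, hFD j (Nat.zero_le _)]
  abel

end Pool.Agent.SPC
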