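import Pool.Agent.SPC.BDef

/-!
# SPC, part B: the equation `Φ = X + σ (Φ * Φ)`, existence and dependence on `X`
-/

noncomputable section

namespace Pool.Agent.SPC

universe u

open SDG

variable {A : Type u} [Ring A] [Algebra ℚ A] [SDG A] {e : SHom A ℚ} (S : Spl A e) {I : Type}
  [Fintype I] [DecidableEq I] {rk : I → ℕ} {l : ℕ}

private def fxY (X : Matrix I I A) : ℕ → Matrix I I A
  | 0 => 0
  | n + 1 => X + sM S (fxY X n * fxY X n)

private theorem fx_sq (Y Z : Matrix I I A) : Y * Y - Z * Z = (Y - Z) * Y + Z * (Y - Z) := by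
  rw [sub_mul, mul_sub]
  abel

theorem exists_fix (hl : ∀ i, rk i < l) {X : Matrix I I A} (hX : Dr rk 1 X) :
    ∃ Φ, Φ = X + sM S (Φ * Φ) ∧ Dr rk 1 Φ := by
  have h1 : ∀ n, Dr rk 1 (fxY S X n) := by
    intro n
    induction n with
    | zero => exact Dr.zero rk 1
    | succ n ih =>
      change Dr rk 1 (X + sM S (fxY S X n * fxY S X n))
      exact hX.add (Dr.sM S ((ih.mul ih).mono (by omega)))
  have h2 : ∀ n, Dr rk (n + 1) (fxY S X (n + 1) - fxY S X n) := by
    intro n
    induction n with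
    | zero => exact (h1 1).sub (h1 0)
    | succ n ih =>
      have h3 : fxY S X (n + 1 + 1) - fxY S X (n + 1) =
          sM S ((fxY S X (n + 1) - fxY S X n) * fxY S X (n + 1) +
            fxY S X n * (fxY S X (n + 1) - fxY S X n)) := by
        rw [← fx_sq, sM_sub]
        change X + sM S (fxY S X (n + 1) * fxY S X (n + 1)) - (X + sM S (fxY S X n * fxY S X n)) = _
        abel
      rw [h3]
      refine Dr.sM S (Dr.add ?_ ?_)
      · exact ih.mul (h1 (n + 1))
      · exact ((h1 n).mul ih).mono (by omega)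
  have h4 : fxY S X (l + 1) = fxY S X l :=
    sub_eq_zero.1 (Dr.eq_zero hl ((h2 l).mono (by omega)))
  exact ⟨fxY S X l, h4.symm, h1 l⟩

theorem fix_diff {X X' Φ Φ' : Matrix I I A} (h : Φ = X + sM S (Φ * Φ))
    (h' : Φ' = X' + sM S (Φ' * Φ')) (h1 : Dr rk 1 Φ) (h1' : Dr rk 1 Φ') {s : ℕ}
    (hs : Dr rk s (X' - X)) : Dr rk s (Φ' - Φ) ∧ Dr rk (s + 1) (Φ' - Φ - (X' - X)) := by
  have h2 : Φ' - Φ = (X' - X) + sM S ((Φ' - Φ) * Φ' + Φ * (Φ' - Φ)) := by
    rw [← fx_sq, sM_sub]
    calc Φ' - Φ = (X' + sM S (Φ' * Φ')) - (X + sM S (Φ * Φ)) := by rw [← h, ← h']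
      _ = _ := by abel
  have h3 : ∀ t, t ≤ s → Dr rk t (Φ' - Φ) := by
    intro t
    induction t with
    | zero =>
      intro _
      exact (h1'.sub h1).mono (by omega)
    | succ t ih =>
      intro ht
      have h4 := ih (by omega)
      rw [h2]
      refine (hs.mono ht).add (Dr.sM S (Dr.add ?_ ?_))
      · exact h4.mul h1'
      · exact (h1.mul h4).mono (by omega)
  have h5 := h3 s le_rfl
  refine ⟨h5, ?_⟩
  have h6 : Φ' - Φ - (X' - X) = sM S ((Φ' - Φ) * Φ' + Φ * (Φ' - Φ)) := by
    rw [sub_eq_iff_eq_add']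
    exact h2
  rw [h6]
  refine Dr.sM S (Dr.add ?_ ?_)
  · exact h5.mul h1'
  · exact (h1.mul h5).mono (by omega)

theorem fix_par {odd : I → Bool} {X Φ : Matrix I I A} (h : Φ = X + sM S (Φ * Φ))
    (h1 : Dr rk 1 Φ) (hX : ∀ i j, odd i ≠ odd j → X i j = 0) (i j : I) (hij : odd i ≠ odd j) :
    Φ i j = 0 := by
  have key : ∀ n : ℕ, ∀ i j, rk i ≤ rk j + n → odd i ≠ odd j → Φ i j = 0 := by
    intro n
    induction n with
    | zero =>
      intro i j hr _
      exact h1 i j (by omega)
    | succ n ih =>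
      intro i j hr hij
      have h2 : (Φ * Φ) i j = 0 := by
        rw [Matrix.mul_apply]
        refine Finset.sum_eq_zero fun k _ => ?_
        by_cases hik : odd i = odd k
        · have hkj : odd k ≠ odd j := by
            intro h'
            exact hij (hik.trans h')
          by_cases h3 : rk i < rk k + 1
          · rw [h1 i k h3, zero_mul]
          · rw [ih k j (by omega) hkj, mul_zero]
        · by_cases h3 : rk k < rk j + 1
          · rw [h1 k j h3, mul_zero]
          · rw [ih i k (by omega) hik, zero_mul]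
      rw [h, Matrix.add_apply, hX i j hij, zero_add]
      change S.σ ((Φ * Φ) i j) = 0
      rw [h2, map_zero]
  exact key (rk i) i j (by omega) hij

end Pool.Agent.SPC
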