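import Pool.Agent.SPC.BDef

/-!
# SPC, part B: changes of basis

MODULE SPC-BGau. PLAN. `Gauge.trans`: `D'' * (k * g) = (dM k + pM k * D') * g = dM k * g + pM k * (dM g + pM g * D)`,
`dM_mul`, `pM_mul`; `eM` is multiplicative (`eM_mul`). `exists_gauge`: `g = 1 - h`, `g' = ∑ n < l, h ^ n` (`h ^ l = 0`: `Dr rk l`;
`mul_geom_sum`, `geom_sum_mul` or commutation), `D' = (dM g + pM g * D) * g'`. Then `D' * g = dM g + pM g * D`. Flatness:
`(dM D' + pM D' * D') * g = dM (D' * g) + pM (D' * g) * D = g * (dM D + pM D * D) = 0` (use `dM_mul`, `pM_mul`,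
`dM (pM g) = - pM (dM g)`, `dM (dM g) = 0`, `pM (pM g) = g`), multiply by `g'`. `dM 1 = 0`, `pM 1 = 1`, `eM e 1 = 1`.
Last claim: `D' = D' * g + D' * h = - dM h + D - pM h * D + D' * h`, and `D' * h - pM h * D` satisfies
`Dr rk (s + 1)`. `eM e D' = (eM e (dM g) + eM e (pM g) * eM e D) * eM e g' = eM e D` (`e_d`, `e.map_par`, `eM e g = 1`
because `e (h i j) = 0`). Parities: `IsPar.mul`, `IsPar.sum`, `IsPar.d`, with cases on the booleans.
-/

noncomputable section

namespace Pool.Agent.SPC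

universe u

open SDG

variable {A : Type u} [Ring A] [Algebra ℚ A] [SDG A] {e : SHom A ℚ} {I : Type}
  [Fintype I] [DecidableEq I] {odd : I → Bool} {rk : I → ℕ} {l : ℕ}

omit [DecidableEq I] in
private theorem mp_mul {b c : Bool} {Y Z : Matrix I I A}
    (hY : ∀ i j, IsPar (b ^^ (odd i ^^ odd j)) (Y i j))
    (hZ : ∀ i j, IsPar (c ^^ (odd i ^^ odd j)) (Z i j)) :
    ∀ i j, IsPar ((b ^^ c) ^^ (odd i ^^ odd j)) ((Y * Z) i j) := by
  intro i j
  rw [Matrix.mul_apply]
  refine IsPar.sum _ fun k _ => ?_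
  have h := (hY i k).mul (hZ k j)
  have key : ∀ b c x y z : Bool,
      ((b ^^ (x ^^ z)) ^^ (c ^^ (z ^^ y))) = ((b ^^ c) ^^ (x ^^ y)) := by decide
  rw [key] at h
  exact h

omit [Fintype I] in
private theorem mp_one : ∀ i j, IsPar (false ^^ (odd i ^^ odd j)) ((1 : Matrix I I A) i j) := by
  intro i j
  by_cases hij : i = j
  · subst hij
    rw [Matrix.one_apply_eq]
    have h : (false ^^ (odd i ^^ odd i)) = false := by
      cases odd i <;> rfl
    rw [h]
    exact IsPar.one
  · rw [Matrix.one_apply_ne hij]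
    exact IsPar.zero _

omit [Fintype I] [DecidableEq I] in
private theorem mp_false {Y : Matrix I I A} (h : ∀ i j, IsPar (odd i ^^ odd j) (Y i j)) :
    ∀ i j, IsPar (false ^^ (odd i ^^ odd j)) (Y i j) := fun i j => by
  rw [Bool.false_xor]
  exact h i j

omit [Fintype I] [DecidableEq I] in
private theorem mp_false' {Y : Matrix I I A}
    (h : ∀ i j, IsPar (false ^^ (odd i ^^ odd j)) (Y i j)) :
    ∀ i j, IsPar (odd i ^^ odd j) (Y i j) := fun i j => by
  have := h i j
  rwa [Bool.false_xor] at this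

omit [Fintype I] [DecidableEq I] in
private theorem mp_true {Y : Matrix I I A} (h : ∀ i j, IsPar (!(odd i ^^ odd j)) (Y i j)) :
    ∀ i j, IsPar (true ^^ (odd i ^^ odd j)) (Y i j) := fun i j => by
  rw [Bool.true_xor]
  exact h i j

omit [Fintype I] [DecidableEq I] in
private theorem par_sub {s : Bool} {a b : A} (ha : IsPar s a) (hb : IsPar s b) :
    IsPar s (a - b) := by
  unfold IsPar at *
  rw [map_sub, ha, hb, smul_sub]

omit [Fintype I] in
private theorem dM_one : dM (1 : Matrix I I A) = 0 := by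
  ext i j
  unfold dM
  by_cases hij : i = j
  · subst hij
    rw [Matrix.one_apply_eq, d_one]
    rfl
  · rw [Matrix.one_apply_ne hij, map_zero]
    rfl

omit [Fintype I] in
private theorem pM_one : pM (1 : Matrix I I A) = 1 := by
  ext i j
  unfold pM
  by_cases hij : i = j
  · subst hij
    rw [Matrix.one_apply_eq, map_one]
  · rw [Matrix.one_apply_ne hij, map_zero]

omit [Fintype I] in
private theorem eM_one (e : SHom A ℚ) : eM e (1 : Matrix I I A) = 1 := by
  ext i j
  unfold eM
  by_cases hij : i = j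
  · subst hij
    rw [Matrix.one_apply_eq, map_one, map_one]
  · rw [Matrix.one_apply_ne hij, map_zero, map_zero]

omit [Fintype I] [DecidableEq I] in
private theorem eM_add (e : SHom A ℚ) (Y Z : Matrix I I A) : eM e (Y + Z) = eM e Y + eM e Z := by
  ext i j
  unfold eM
  rw [Matrix.add_apply, Matrix.add_apply, map_add, map_add]

omit [Fintype I] [DecidableEq I] in
private theorem eM_sub (e : SHom A ℚ) (Y Z : Matrix I I A) : eM e (Y - Z) = eM e Y - eM e Z := by
  ext i j
  unfold eM
  rw [Matrix.sub_apply, Matrix.sub_apply, map_sub, map_sub]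

omit [Fintype I] [DecidableEq I] in
private theorem eM_dM (e : SHom A ℚ) (Y : Matrix I I A) : eM e (dM Y) = 0 := by
  ext i j
  unfold eM dM
  rw [e_d, map_zero]
  rfl

omit [Fintype I] [DecidableEq I] in
private theorem eM_pM (e : SHom A ℚ) (Y : Matrix I I A) : eM e (pM Y) = eM e Y := by
  ext i j
  unfold eM pM
  have h1 : e (par (Y i j)) = e (Y i j) := e.map_par _
  rw [h1]

omit [Fintype I] [DecidableEq I] in
private theorem dM_dM (Y : Matrix I I A) : dM (dM Y) = 0 := by
  ext i j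
  exact d_d _

omit [Fintype I] [DecidableEq I] in
private theorem pM_pM (Y : Matrix I I A) : pM (pM Y) = Y := by
  ext i j
  exact par_par _

omit [Fintype I] [DecidableEq I] in
private theorem dM_pM (Y : Matrix I I A) : dM (pM Y) = -pM (dM Y) := by
  ext i j
  exact d_par _

private theorem dr_pow {h : Matrix I I A} (h1 : Dr rk 1 h) (n : ℕ) : Dr rk n (h ^ n) := by
  induction n with
  | zero =>
    rw [pow_zero]
    exact Dr.one rk
  | succ n ih =>
    rw [pow_succ]
    exact ih.mul h1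

private theorem mp_pow {h : Matrix I I A}
    (h2 : ∀ i j, IsPar (false ^^ (odd i ^^ odd j)) (h i j)) (n : ℕ) :
    ∀ i j, IsPar (false ^^ (odd i ^^ odd j)) ((h ^ n) i j) := by
  induction n with
  | zero =>
    rw [pow_zero]
    exact mp_one
  | succ n ih =>
    rw [pow_succ]
    exact mp_mul ih h2

private theorem flat_aux {D D' g g' : Matrix I I A} (hD : dM D + pM D * D = 0) (hgg : g * g' = 1)
    (heq : D' * g = dM g + pM g * D) : dM D' + pM D' * D' = 0 := by
  have h1 : (dM D' + pM D' * D') * g = 0 := by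
    have e1 : dM D' * g = dM (D' * g) - pM D' * dM g := by
      rw [dM_mul, add_sub_cancel_right]
    have e2 : pM D' * D' * g = pM D' * dM g + pM (D' * g) * D := by
      rw [pM_mul, mul_assoc, heq, mul_add, mul_assoc]
    have e3 : g * dM D + g * (pM D * D) = 0 := by
      rw [← mul_add, hD, mul_zero]
    rw [add_mul, e1, e2, heq, dM_add, dM_mul, dM_dM, pM_pM, dM_pM, pM_add, pM_mul, pM_pM,
      add_mul, mul_assoc g (pM D) D, neg_mul]
    calc _ = g * dM D + g * (pM D * D) := by abel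
      _ = 0 := e3
  rw [← mul_one (dM D' + pM D' * D'), ← hgg, ← mul_assoc, h1, zero_mul]

theorem eM_mul (e : SHom A ℚ) (Y Z : Matrix I I A) : eM e (Y * Z) = eM e Y * eM e Z := by
  ext i j
  unfold eM
  rw [Matrix.mul_apply, Matrix.mul_apply, map_sum, map_sum]
  simp only [map_mul]

theorem Gauge.refl (e : SHom A ℚ) (D : Matrix I I A) : Gauge e odd rk D D 1 1 := by
  refine ⟨mul_one 1, mul_one 1, Dr.one rk, Dr.one rk, mp_false' mp_one, mp_false' mp_one,
    eM_one e, eM_one e, ?_⟩
  rw [mul_one, dM_one, pM_one, one_mul, zero_add]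

theorem Gauge.trans {D D' D'' g g' k k' : Matrix I I A} (h : Gauge e odd rk D D' g g')
    (h' : Gauge e odd rk D' D'' k k') : Gauge e odd rk D D'' (k * g) (g' * k') := by
  refine ⟨?_, ?_, h'.tri.mul h.tri, h.tri'.mul h'.tri',
    mp_false' (mp_mul (mp_false h'.par_g) (mp_false h.par_g)),
    mp_false' (mp_mul (mp_false h.par_g') (mp_false h'.par_g')), ?_, ?_, ?_⟩
  · rw [mul_assoc, ← mul_assoc g, h.mul, one_mul, h'.mul]
  · rw [mul_assoc, ← mul_assoc k', h'.mul', one_mul, h.mul']
  · rw [eM_mul, h'.eg, h.eg, mul_one]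
  · rw [eM_mul, h'.eg', h.eg', mul_one]
  · rw [← mul_assoc, h'.eq, add_mul, mul_assoc (pM k), h.eq, dM_mul, pM_mul, mul_add,
      mul_assoc (pM k), add_assoc]

theorem exists_gauge (hl : ∀ i, rk i < l) {D : Matrix I I A} (hD : IsTC odd rk D)
    {h : Matrix I I A} {s : ℕ} (hs : 1 ≤ s) (h1 : Dr rk s h)
    (h2 : ∀ i j, IsPar (odd i ^^ odd j) (h i j)) (h3 : ∀ i j, e (h i j) = 0) :
    ∃ D' g g', Gauge e odd rk D D' g g' ∧ IsTC odd rk D' ∧ eM e D' = eM e D ∧
      Dr rk (s + 1) (D' - (D - dM h)) := by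
  have hh1 : Dr rk 1 h := h1.mono hs
  have hpow : h ^ l = 0 := (dr_pow hh1 l).eq_zero hl
  have hm := mp_false h2
  have eh : eM e h = 0 := by
    ext i j
    unfold eM
    rw [h3, map_zero]
    rfl
  obtain ⟨g, hg⟩ : ∃ g : Matrix I I A, g = 1 - h := ⟨_, rfl⟩
  obtain ⟨g', hg'⟩ : ∃ g' : Matrix I I A, g' = ∑ n ∈ Finset.range l, h ^ n := ⟨_, rfl⟩
  have hgg : g * g' = 1 := by
    rw [hg, hg', mul_neg_geom_sum, hpow, sub_zero]
  have hgg' : g' * g = 1 := by
    rw [hg, hg', geom_sum_mul_neg, hpow, sub_zero]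
  have htg : Dr rk 0 g := by
    rw [hg]
    exact (Dr.one rk).sub (h1.mono (Nat.zero_le _))
  have htg' : Dr rk 0 g' := by
    intro i j hij
    rw [hg', Matrix.sum_apply]
    exact Finset.sum_eq_zero fun n _ => (dr_pow hh1 n).mono (Nat.zero_le _) i j hij
  have hpg : ∀ i j, IsPar (false ^^ (odd i ^^ odd j)) (g i j) := by
    intro i j
    rw [hg, Matrix.sub_apply]
    exact par_sub (mp_one i j) (hm i j)
  have hpg' : ∀ i j, IsPar (false ^^ (odd i ^^ odd j)) (g' i j) := by
    intro i j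
    rw [hg', Matrix.sum_apply]
    exact IsPar.sum _ fun n _ => mp_pow hm n i j
  have eg : eM e g = 1 := by
    rw [hg, eM_sub, eM_one, eh, sub_zero]
  have eg' : eM e g' = 1 := by
    have := congrArg (eM e) hgg
    rwa [eM_mul, eg, one_mul, eM_one] at this
  obtain ⟨D', hD'⟩ : ∃ D' : Matrix I I A, D' = (dM g + pM g * D) * g' := ⟨_, rfl⟩
  have heq : D' * g = dM g + pM g * D := by
    rw [hD', mul_assoc, hgg', mul_one]
  have hdg : dM g = -dM h := by
    rw [hg, dM_sub, dM_one, zero_sub]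
  have hpg1 : pM g = 1 - pM h := by
    rw [hg, pM_sub, pM_one]
  have htD' : Dr rk 1 D' := by
    rw [hD']
    refine Dr.mul (s := 1) (t := 0) (Dr.add ?_ ?_) htg'
    · rw [hdg]
      exact hh1.dM.neg
    · have := htg.pM.mul hD.tri
      rwa [zero_add] at this
  refine ⟨D', g, g', ⟨hgg, hgg', htg, htg', mp_false' hpg, mp_false' hpg', eg, eg', heq⟩,
    ⟨?_, htD', flat_aux hD.flat hgg heq⟩, ?_, ?_⟩
  · have k1 : ∀ i j, IsPar (true ^^ (odd i ^^ odd j)) ((dM g) i j) := by
      intro i j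
      have := (hpg i j).d
      rwa [Bool.false_xor, ← Bool.true_xor] at this
    have k2 : ∀ i j, IsPar (false ^^ (odd i ^^ odd j)) ((pM g) i j) := fun i j =>
      (hpg i j).apply_parP true
    have k3 := mp_mul k2 (mp_true hD.par_D)
    have k4 : ∀ i j, IsPar (true ^^ (odd i ^^ odd j)) ((dM g + pM g * D) i j) := fun i j =>
      (k1 i j).add (k3 i j)
    have k5 := mp_mul k4 hpg'
    intro i j
    have := k5 i j
    rw [← hD'] at this
    rwa [Bool.xor_false, Bool.true_xor] at this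
  · rw [hD', eM_mul, eM_add, eM_dM, eM_mul, eM_pM, eg, eg', one_mul, zero_add, mul_one]
  · have k1 : D' - (D - dM h) = D' * h - pM h * D := by
      have k2 : D' = D' * g + D' * h := by
        rw [← mul_add, hg, sub_add_cancel, mul_one]
      have k3 : D' * g = -dM h + (D - pM h * D) := by
        rw [heq, hdg, hpg1, sub_mul, one_mul]
      calc D' - (D - dM h) = (D' * g + D' * h) - (D - dM h) := by rw [← k2]
        _ = (-dM h + (D - pM h * D) + D' * h) - (D - dM h) := by rw [k3]
        _ = _ := by abel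
    rw [k1]
    refine Dr.sub ?_ (h1.pM.mul hD.tri)
    have := htD'.mul h1
    rwa [add_comm] at this

end Pool.Agent.SPC
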