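import Pool.Agent.SPC.BNfA

/-!
# SPC, part B: the normal form

Iteration of `near_step`.
-/

noncomputable section

namespace Pool.Agent.SPC

universe u

open SDG

variable {A : Type u} [Ring A] [Algebra ℚ A] [SDG A] {e : SHom A ℚ} (S : Spl A e) {I : Type}
  [Fintype I] [DecidableEq I] {odd : I → Bool} {rk : I → ℕ} {l : ℕ}

private theorem near_zero {D : Matrix I I A} (hD : IsTC odd rk D) :
    Near S odd rk D (0 : Matrix I I A) (0 : Matrix I I A) 1 := by
  refine ⟨fun i j => Submodule.zero_mem _, Dr.zero rk 1, fun i j _ => rfl, ?_, Dr.zero rk 1,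
    (hD.tri.sub (hD.tri.eM e)).sub (Dr.zero rk 1), ?_⟩
  · rw [mul_zero, zero_add]
    ext i j
    show (0 : A) = S.σ 0
    rw [map_zero]
  · rw [mul_zero, zero_mul, sub_zero]
    exact Dr.zero rk 1

private theorem exists_near (hl : ∀ i, rk i < l) {D : Matrix I I A} (hD : IsTC odd rk D) (s : ℕ) :
    ∃ D' g g' X Φ, Gauge e odd rk D D' g g' ∧ IsTC odd rk D' ∧ eM e D' = eM e D ∧
      Near S odd rk D' X Φ (s + 1) := by
  induction s with
  | zero => exact ⟨D, 1, 1, 0, 0, Gauge.refl e D, hD, rfl, near_zero S hD⟩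
  | succ s ih =>
    obtain ⟨D', g, g', X, Φ, h1, h2, h3, h4⟩ := ih
    obtain ⟨D'', k, k', X', Φ', h5, h6, h7, h8⟩ := near_step S hl h2 (Nat.le_add_left 1 s) h4
    exact ⟨D'', k * g, g' * k', X', Φ', h1.trans h5, h6, h7.trans h3, h8⟩

theorem exists_nf (hl : ∀ i, rk i < l) {D : Matrix I I A} (hD : IsTC odd rk D) :
    ∃ D' g g' X Φ, Gauge e odd rk D D' g g' ∧ IsTC odd rk D' ∧ eM e D' = eM e D ∧
      Near S odd rk D' X Φ l ∧ D' = eM e D' + Φ ∧ eM e D' * X = X * eM e D' := by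
  obtain ⟨D', g, g', X, Φ, h1, h2, h3, h4⟩ := exists_near S hl hD l
  have h5 := h4.near.mono (Nat.le_add_right l 1)
  have h6 := h4.comm.mono (Nat.le_add_right l 1)
  refine ⟨D', g, g', X, Φ, h1, h2, h3, ⟨h4.XV, h4.X1, h4.Xp, h4.fixp, h4.Φ1, h5, h6⟩, ?_, ?_⟩
  · have h7 := h5.eq_zero hl
    rw [sub_sub, sub_eq_zero] at h7
    exact h7
  · exact sub_eq_zero.1 (h6.eq_zero hl)

end Pool.Agent.SPC
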