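import Pool.Agent.SPC.BSpl
import Pool.Agent.SPC.BNf
import Pool.Agent.SPC.BEltB

/-!
# SPC, part B: elements of general complexes

MODULE SPC-BMain. PLAN. `exists_spl` gives `S`; `l` larger than all ranks; `exists_nf` gives `D'`, `g`, `g'`. Put `x' = vM x g'`, so
`x = vM x' g` and `difV D x = vM (difV D' x') g` (from `Gauge.eq`: `d (vM x' g) = vM (d x') g + vM (par x') (dM g)`), `difV D' x' = vM (difV D x) g'`.
The hypotheses for `x'`: `g'` does not raise the rank (`Gauge.tri'`: `g' i j ≠ 0` implies `rk j ≤ rk i`), so `difV D' x' j = 0` for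
`r₀ < rk j`; `e (x' j) = e (x j)` (`Gauge.eg'`); `e (D' i j) = e (D i j)` (from `eM e D' = eM e D`,
`algebraMap ℚ A` injective if `A` is nontrivial; if `A` is trivial everything is equal). `exists_elt_nf` gives `y'`; `y = vM y' g`.
-/

noncomputable section

namespace Pool.Agent.SPC

universe u

open SDG

variable {A : Type u} [Ring A] [Algebra ℚ A] [SDG A] {e : SHom A ℚ} {I : Type}
  [Fintype I] [DecidableEq I] {odd : I → Bool} {rk : I → ℕ}

omit [DecidableEq I] in
private theorem bm_vM (x : I → A) (Y Z : Matrix I I A) : vM (vM x Y) Z = vM x (Y * Z) :=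
  Matrix.vecMul_vecMul x Y Z

private theorem bm_one (x : I → A) : vM x (1 : Matrix I I A) = x := Matrix.vecMul_one x

omit [DecidableEq I] in
private theorem bm_key {D D' g : Matrix I I A} (h : D' * g = dM g + pM g * D) (x : I → A) :
    difV D (vM x g) = vM (difV D' x) g := by
  funext j
  have h1 : ∀ i, ∑ k, D' i k * g k j = d (g i j) + ∑ k, par (g i k) * D k j := by
    intro i
    have h2 := congrFun (congrFun h i) j
    rw [Matrix.mul_apply, Matrix.add_apply, Matrix.mul_apply] at h2
    exact h2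
  have h3 : d (vM x g j) = ∑ i, (d (x i) * g i j + par (x i) * d (g i j)) := by
    unfold vM
    rw [map_sum]
    refine Finset.sum_congr rfl fun i _ => ?_
    rw [d_mul]
  have h4 : ∑ k, par (vM x g k) * D k j = ∑ i, par (x i) * ∑ k, par (g i k) * D k j := by
    unfold vM
    simp only [map_sum, map_mul, Finset.sum_mul, Finset.mul_sum]
    rw [Finset.sum_comm]
    refine Finset.sum_congr rfl fun i _ => Finset.sum_congr rfl fun k _ => ?_
    rw [mul_assoc]
  have h5 : vM (difV D' x) g j =
      ∑ i, d (x i) * g i j + ∑ i, par (x i) * ∑ k, D' i k * g k j := by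
    unfold vM difV
    simp only [add_mul, Finset.sum_add_distrib, Finset.sum_mul, Finset.mul_sum]
    congr 1
    rw [Finset.sum_comm]
    refine Finset.sum_congr rfl fun i _ => Finset.sum_congr rfl fun k _ => ?_
    rw [mul_assoc]
  rw [h5]
  show d (vM x g j) + ∑ k, par (vM x g k) * D k j = _
  rw [h3, h4, Finset.sum_add_distrib, add_assoc, ← Finset.sum_add_distrib]
  congr 1
  refine Finset.sum_congr rfl fun i _ => ?_
  rw [h1 i, mul_add]

private theorem bm_e (e : SHom A ℚ) (c : ℚ) : e (algebraMap ℚ A c) = c :=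
  AlgHomClass.commutes e c

omit [DecidableEq I] in
private theorem bm_eM {Y Z : Matrix I I A} (h : eM e Y = eM e Z) (i j : I) :
    e (Y i j) = e (Z i j) := by
  have h1 : algebraMap ℚ A (e (Y i j)) = algebraMap ℚ A (e (Z i j)) :=
    congrFun (congrFun h i) j
  have h2 := congrArg e h1
  rwa [bm_e, bm_e] at h2

private theorem bm_eM1 {Y : Matrix I I A} (h : eM e Y = 1) (i j : I) :
    e (Y i j) = if i = j then 1 else 0 := by
  have h1 : algebraMap ℚ A (e (Y i j)) = (1 : Matrix I I A) i j := congrFun (congrFun h i) j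
  have h2 := congrArg e h1
  rw [bm_e] at h2
  rw [h2, Matrix.one_apply]
  split_ifs
  · exact map_one e
  · exact map_zero e

omit [DecidableEq I] in
private theorem bm_van {r₀ : ℕ} {g : Matrix I I A} (hg : Dr rk 0 g) {x : I → A}
    (hx : ∀ j, r₀ < rk j → x j = 0) (j : I) (hj : r₀ < rk j) : vM x g j = 0 := by
  refine Finset.sum_eq_zero fun i _ => ?_
  rcases Nat.lt_or_ge (rk i) (rk j) with h | h
  · rw [hg i j (by omega), mul_zero]
  · rw [hx i (by omega), zero_mul]

theorem exists_elt (hB : ∀ a : A, par a = a → d a = 0 → e a = 0 → ∃ b, d b = a)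
    {D : Matrix I I A} (hD : IsTC odd rk D) {r₀ : ℕ}
    (h0 : ∀ i j, r₀ < rk i → rk j ≤ r₀ → e (D i j) = 0) {x : I → A}
    (hx : ∀ j, IsPar (!odd j) (x j)) (hxe : ∀ j, r₀ < rk j → e (x j) = 0)
    (hxd : ∀ j, r₀ < rk j → difV D x j = 0) :
    ∃ y : I → A, (∀ j, r₀ < rk j → y j = 0) ∧ difV D y = difV D x := by
  obtain ⟨S⟩ := exists_spl e hB
  have hl : ∀ i, rk i < Finset.univ.sup rk + 1 := fun i =>
    Nat.lt_succ_of_le (Finset.le_sup (Finset.mem_univ i))
  obtain ⟨D', g, g', X, Φ, hG, hTC, heM, hN, hDD, hcm⟩ := exists_nf S hl hD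
  have hxx : vM (vM x g') g = x := by
    rw [bm_vM, hG.mul', bm_one]
  have hdx : difV D x = vM (difV D' (vM x g')) g := by
    rw [← bm_key hG.eq, hxx]
  have hdx' : difV D' (vM x g') = vM (difV D x) g' := by
    rw [hdx, bm_vM, hG.mul, bm_one]
  obtain ⟨y', hy', hyd⟩ := exists_elt_nf S hl hTC hN hDD hcm (r₀ := r₀) (x := vM x g')
    (fun i j hi hj => by rw [bm_eM heM i j]; exact h0 i j hi hj)
    (fun j => by
      refine IsPar.sum _ fun i _ => ?_
      have h1 := (hx i).mul (hG.par_g' i j)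
      have h2 : (!odd i ^^ (odd i ^^ odd j)) = !odd j := by
        cases odd i <;> cases odd j <;> rfl
      rwa [h2] at h1)
    (fun j hj => by
      unfold vM
      rw [map_sum]
      refine Finset.sum_eq_zero fun i _ => ?_
      rw [map_mul, bm_eM1 hG.eg' i j]
      split_ifs with h
      · rw [h, hxe j hj, zero_mul]
      · rw [mul_zero])
    (fun j hj => by
      rw [hdx']
      exact bm_van hG.tri' hxd j hj)
  refine ⟨vM y' g, bm_van hG.tri hy', ?_⟩
  rw [bm_key hG.eq, hyd, ← hdx]

end Pool.Agent.SPC
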