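import Pool.Agent.SPC.BFixA
import Pool.Agent.SPC.BFixB
import Pool.Agent.SPC.BGau

/-!
# SPC, part B: the induction step of the normal form

MODULE SPC-BNfA. One more level of the normal form.
-/

noncomputable section

namespace Pool.Agent.SPC

universe u

open SDG

variable {A : Type u} [Ring A] [Algebra ℚ A] [SDG A] {e : SHom A ℚ} (S : Spl A e) {I : Type}
  [Fintype I] [DecidableEq I] {odd : I → Bool} {rk : I → ℕ} {l : ℕ}

omit [Fintype I] [DecidableEq I] in
private theorem eM_add' (e : SHom A ℚ) (Y Z : Matrix I I A) : eM e (Y + Z) = eM e Y + eM e Z := by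
  ext i j
  show algebraMap ℚ A (e (Y i j + Z i j)) = algebraMap ℚ A (e (Y i j)) + algebraMap ℚ A (e (Z i j))
  rw [map_add, map_add]

omit [Fintype I] [DecidableEq I] in
private theorem dM_eM (e : SHom A ℚ) (Y : Matrix I I A) : dM (eM e Y) = 0 := by
  ext i j
  show d (algebraMap ℚ A (e (Y i j))) = 0
  rw [Algebra.algebraMap_eq_smul_one, map_smul, d_one, smul_zero]

omit [Fintype I] [DecidableEq I] in
private theorem pM_eM (e : SHom A ℚ) (Y : Matrix I I A) : pM (eM e Y) = eM e Y := by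
  ext i j
  exact AlgHom.commutes par (e (Y i j))

omit [Fintype I] [DecidableEq I] in
private theorem eM_dM (e : SHom A ℚ) (Y : Matrix I I A) : eM e (dM Y) = 0 := by
  ext i j
  show algebraMap ℚ A (e (d (Y i j))) = 0
  rw [e_d, map_zero]

omit [Fintype I] [DecidableEq I] in
private theorem eM_pM (e : SHom A ℚ) (Y : Matrix I I A) : eM e (pM Y) = eM e Y := by
  ext i j
  have h1 : e (par (Y i j)) = e (Y i j) := e.map_par (Y i j)
  show algebraMap ℚ A (e (par (Y i j))) = algebraMap ℚ A (e (Y i j))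
  rw [h1]

omit [Fintype I] [DecidableEq I] in
private theorem eM_zero' (e : SHom A ℚ) : eM e (0 : Matrix I I A) = 0 := by
  ext i j
  show algebraMap ℚ A (e (0 : A)) = 0
  rw [map_zero, map_zero]

private theorem sq_zero {D : Matrix I I A} (hD : IsTC odd rk D) : eM e D * eM e D = 0 := by
  have h := congrArg (eM e) hD.flat
  rw [eM_add', eM_mul, eM_dM, eM_pM, zero_add, eM_zero'] at h
  exact h

private theorem comm_V {D X : Matrix I I A} (hX : ∀ i j, X i j ∈ S.V) (i j : I) :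
    (eM e D * X - X * eM e D) i j ∈ S.V := by
  rw [Matrix.sub_apply, Matrix.mul_apply, Matrix.mul_apply]
  refine Submodule.sub_mem _ (Submodule.sum_mem _ fun k _ => ?_) (Submodule.sum_mem _ fun k _ => ?_)
  · show algebraMap ℚ A (e (D i k)) * X k j ∈ S.V
    rw [← Algebra.smul_def]
    exact Submodule.smul_mem _ _ (hX k j)
  · show X i k * algebraMap ℚ A (e (D k j)) ∈ S.V
    rw [← Algebra.commutes, ← Algebra.smul_def]
    exact Submodule.smul_mem _ _ (hX i k)

private theorem step_a (hl : ∀ i, rk i < l) {D X Φ δ : Matrix I I A} (hD : IsTC odd rk D) {s : ℕ}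
    (hs : 1 ≤ s) (h : Near S odd rk D X Φ s) (hδ : δ = D - eM e D - Φ) :
    Dr rk (s + 1) (dM δ + (eM e D * X - X * eM e D)) := by
  have hd1 : Dr rk s δ := by
    rw [hδ]
    exact h.near
  have hD0 : Dr rk 1 (eM e D) := hD.tri.eM e
  have hodd := fix_odd S h.fixp h.XV
  have hdΦ := fix_d S hl h.fixp h.Φ1 h.XV
  have hsq := sq_zero (e := e) hD
  have hcm := (fix_comm S h.fixp h.Φ1 hD.tri h.comm).2
  have hDe : D = eM e D + Φ + δ := by
    rw [hδ]
    abel
  have hfl := hD.flat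
  have hp : pM D = eM e D + -Φ + pM δ := by
    conv_lhs => rw [hDe]
    rw [pM_add, pM_add, pM_eM, hodd]
  have hdd : dM D = Φ * Φ + dM δ := by
    conv_lhs => rw [hDe]
    rw [dM_add, dM_add, dM_eM, hdΦ, zero_add]
  have hR : Dr rk (s + 1) (eM e D * δ - Φ * δ + pM δ * eM e D + pM δ * Φ + pM δ * δ) := by
    refine (((Dr.sub ?_ ?_).add ?_).add ?_).add ?_
    · exact (hD0.mul hd1).mono (by omega)
    · exact (h.Φ1.mul hd1).mono (by omega)
    · exact (hd1.pM.mul hD0).mono (by omega)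
    · exact (hd1.pM.mul h.Φ1).mono (by omega)
    · exact (hd1.pM.mul hd1).mono (by omega)
  have h3 : Φ * Φ + dM δ + (eM e D + -Φ + pM δ) * (eM e D + Φ + δ) = 0 := by
    rw [← hDe, ← hp, ← hdd]
    exact hfl
  have h4 : dM δ + (eM e D * X - X * eM e D) =
      (Φ * Φ + dM δ + (eM e D + -Φ + pM δ) * (eM e D + Φ + δ)) - eM e D * eM e D -
      (eM e D * δ - Φ * δ + pM δ * eM e D + pM δ * Φ + pM δ * δ) -
      ((eM e D * Φ - Φ * eM e D) - (eM e D * X - X * eM e D)) := by
    noncomm_ring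
  rw [h4, h3, hsq, sub_zero, zero_sub]
  exact hR.neg.sub hcm

private theorem step_b (hl : ∀ i, rk i < l) {D X Φ δ : Matrix I I A} (hD : IsTC odd rk D) {s : ℕ}
    (hs : 1 ≤ s) (h : Near S odd rk D X Φ s) (hδ : δ = D - eM e D - Φ) (i j : I)
    (hij : rk i < rk j + (s + 1)) :
    (eM e D * X - X * eM e D) i j = 0 ∧ d (δ i j) = 0 := by
  have h1 := step_a S hl hD hs h hδ i j hij
  rw [Matrix.add_apply] at h1
  have h2 : d (δ i j) + (eM e D * X - X * eM e D) i j = 0 := h1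
  have h3 : d (-δ i j) = (eM e D * X - X * eM e D) i j := by
    rw [map_neg, neg_eq_iff_add_eq_zero]
    exact h2
  have h4 := S.V_inj _ (comm_V S h.XV i j) _ h3
  refine ⟨h4, ?_⟩
  rw [h4, add_zero] at h2
  exact h2

private theorem step_c (hl : ∀ i, rk i < l) {D X Φ δ : Matrix I I A} (hD : IsTC odd rk D) {s : ℕ}
    (hs : 1 ≤ s) (h : Near S odd rk D X Φ s) (hδ : δ = D - eM e D - Φ) (i j : I)
    (hij : rk i < rk j + (s + 1)) :
    ∃ v a : A, v ∈ S.V ∧ (odd i ≠ odd j → v = 0) ∧ IsPar (odd i ^^ odd j) a ∧ e a = 0 ∧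
      δ i j = v + d a := by
  have hdc := (step_b S hl hD hs h hδ i j hij).2
  have hodd := fix_odd S h.fixp h.XV
  have hΦp : par (Φ i j) = -Φ i j := congrFun (congrFun hodd i) j
  have hδij : δ i j = D i j - algebraMap ℚ A (e (D i j)) - Φ i j := by
    rw [hδ]
    rfl
  have hDp : par (D i j) = sgn (!(odd i ^^ odd j)) • D i j := hD.par_D i j
  by_cases ho : odd i = odd j
  · have hx : (odd i ^^ odd j) = false := by
      rw [ho]
      exact Bool.xor_self _
    rw [hx] at hDp ⊢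
    have hD1 : par (D i j) = -D i j := by
      rw [hDp]
      exact neg_one_smul ℚ _
    have h1 : par (δ i j) = -δ i j := by
      rw [hδij, e_odd e hD1, map_zero, sub_zero, map_sub, hD1, hΦp]
      abel
    obtain ⟨v, hv, a, ha, hea, he⟩ := S.V_ex _ h1 hdc
    refine ⟨v, a, hv, fun h => absurd ho h, ?_, hea, he⟩
    show par a = sgn false • a
    rw [sgn_false, one_smul]
    exact ha
  · have hx : (odd i ^^ odd j) = true := by
      cases h1 : odd i <;> cases h2 : odd j <;> simp_all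
    rw [hx] at hDp ⊢
    have hD1 : par (D i j) = D i j := by
      rw [hDp]
      exact one_smul ℚ _
    have hΦ0 := fix_par S h.fixp h.Φ1 h.Xp i j ho
    have h1 : par (δ i j) = δ i j := by
      rw [hδij, hΦ0, sub_zero, map_sub, hD1, AlgHom.commutes]
    have h2 : e (δ i j) = 0 := by
      rw [hδij, hΦ0, sub_zero, map_sub]
      have h3 : e (algebraMap ℚ A (e (D i j))) = e (D i j) := AlgHomClass.commutes e (e (D i j))
      rw [h3, sub_self]
    refine ⟨0, S.σ (δ i j), Submodule.zero_mem _, fun _ => rfl, ?_, e_odd e (S.σ_par _), ?_⟩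
    · show par (S.σ (δ i j)) = sgn true • S.σ (δ i j)
      rw [sgn_true, neg_one_smul]
      exact S.σ_par _
    · rw [zero_add, S.d_σ _ h1 hdc h2]

private theorem step_d (hl : ∀ i, rk i < l) {D X Φ δ : Matrix I I A} (hD : IsTC odd rk D) {s : ℕ}
    (hs : 1 ≤ s) (h : Near S odd rk D X Φ s) (hδ : δ = D - eM e D - Φ) (i j : I) :
    ∃ v a : A, v ∈ S.V ∧ (odd i ≠ odd j → v = 0) ∧ IsPar (odd i ^^ odd j) a ∧ e a = 0 ∧
      (rk i < rk j + s → v = 0 ∧ a = 0) ∧ (rk i < rk j + (s + 1) → δ i j = v + d a) := by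
  rcases lt_trichotomy (rk i) (rk j + s) with h1 | h1 | h1
  · refine ⟨0, 0, Submodule.zero_mem _, fun _ => rfl, IsPar.zero _, map_zero e,
      fun _ => ⟨rfl, rfl⟩, fun _ => ?_⟩
    rw [map_zero, add_zero, hδ]
    exact h.near i j h1
  · obtain ⟨v, a, h2, h3, h4, h5, h6⟩ := step_c S hl hD hs h hδ i j (by omega)
    exact ⟨v, a, h2, h3, h4, h5, fun h7 => absurd h7 (by omega), fun _ => h6⟩
  · exact ⟨0, 0, Submodule.zero_mem _, fun _ => rfl, IsPar.zero _, map_zero e,
      fun _ => ⟨rfl, rfl⟩, fun h2 => absurd h2 (by omega)⟩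

theorem near_step (hl : ∀ i, rk i < l) {D X Φ : Matrix I I A} (hD : IsTC odd rk D) {s : ℕ}
    (hs : 1 ≤ s) (h : Near S odd rk D X Φ s) : ∃ D' g g' X' Φ', Gauge e odd rk D D' g g' ∧
      IsTC odd rk D' ∧ eM e D' = eM e D ∧ Near S odd rk D' X' Φ' (s + 1) := by
  obtain ⟨δ, hδ⟩ : ∃ δ, δ = D - eM e D - Φ := ⟨_, rfl⟩
  obtain ⟨Y, H, hYV, hYp, hHp, hHe, hz, hdec⟩ : ∃ Y H : Matrix I I A, (∀ i j, Y i j ∈ S.V) ∧
      (∀ i j, odd i ≠ odd j → Y i j = 0) ∧ (∀ i j, IsPar (odd i ^^ odd j) (H i j)) ∧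
      (∀ i j, e (H i j) = 0) ∧ (∀ i j, rk i < rk j + s → Y i j = 0 ∧ H i j = 0) ∧
      ∀ i j, rk i < rk j + (s + 1) → δ i j = Y i j + d (H i j) := by
    have h0 := step_d S hl hD hs h hδ
    choose Y H hYV hYp hHp hHe hz hdec using h0
    exact ⟨Y, H, hYV, hYp, hHp, hHe, hz, hdec⟩
  have hYs : Dr rk s Y := fun i j hij => (hz i j hij).1
  have hHs : Dr rk s H := fun i j hij => (hz i j hij).2
  have hrem : Dr rk (s + 1) (δ - Y - dM H) := by
    intro i j hij
    show δ i j - Y i j - d (H i j) = 0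
    rw [hdec i j hij]
    abel
  have hK : Dr rk (s + 1) (eM e D * X - X * eM e D) :=
    fun i j hij => (step_b S hl hD hs h hδ i j hij).1
  obtain ⟨D', g, g', hG, hTC, heM, hD'⟩ :=
    exists_gauge (e := e) (h := H) hl hD hs hHs hHp hHe
  obtain ⟨Φ', hΦ', hΦ1'⟩ := exists_fix S hl (X := X + Y)
    (h.X1.add (hYs.mono hs))
  have hXY : X + Y - X = Y := by abel
  have hfd := (fix_diff S h.fixp hΦ' h.Φ1 hΦ1' (s := s) (by
    rw [hXY]
    exact hYs)).2
  rw [hXY] at hfd
  refine ⟨D', g, g', X + Y, Φ', hG, hTC, heM, ?_, h.X1.add (hYs.mono hs), ?_,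
    hΦ', hΦ1', ?_, ?_⟩
  · intro i j
    exact Submodule.add_mem _ (h.XV i j) (hYV i j)
  · intro i j hij
    show X i j + Y i j = 0
    rw [h.Xp i j hij, hYp i j hij, add_zero]
  · have h1 : D' - eM e D' - Φ' = (D' - (D - dM H)) +
        (δ - Y - dM H) - (Φ' - Φ - Y) := by
      rw [heM, hδ]
      abel
    rw [h1]
    exact (hD'.add hrem).sub hfd
  · have h1 : eM e D' * (X + Y) - (X + Y) * eM e D' =
        (eM e D * X - X * eM e D) + (eM e D * Y - Y * eM e D) := by
      rw [heM, mul_add, add_mul]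
      abel
    rw [h1]
    have hD0 : Dr rk 1 (eM e D) := hD.tri.eM e
    exact hK.add (((hD0.mul hYs).mono (by omega)).sub ((hYs.mul hD0).mono (by omega)))

end Pool.Agent.SPC
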