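import Pool.Agent.SPC.Tr

/-!
# From one exact fibre to nilpotent fibres
-/

noncomputable section

namespace Pool.Agent.SPC

universe u v w

open SDG

theorem PT.tn_of_tn_pow {A : Type u} [Ring A] [Algebra ℚ A] [SDG A] {P : PT A} (hP : P.Even)
    {n : ℕ} (h : (P.pow n).TN) : P.TN := by
  obtain ⟨N, hN⟩ := PT.tn_iff.1 h
  refine PT.tn_iff.2 ⟨n * N, ?_⟩
  refine exact_of_forall (M := P.1) (f := P.2) hP (n * N) ?_
  intro W _ _ _ j r
  obtain ⟨v, hv⟩ := (r.pow n).exists_of_exact (f := P.1.powE P.2 n) (n := N) hN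
  refine ⟨v, ?_⟩
  rw [hv, r.ev_powE, pow_mul]

theorem PT.tn_of_exact {A : Type u} [Ring A] [Algebra ℚ A] [SDG A] {P : PT A} (hP : P.Even)
    (h : P.Exact) : P.TN := by
  refine PT.tn_iff.2 ⟨1, ?_⟩
  refine exact_of_forall (M := P.1) (f := P.2) hP 1 ?_
  intro W _ _ _ j r
  obtain ⟨g, hg⟩ := h
  refine ⟨r.ev g, ?_⟩
  rw [r.d_ev, pow_one]
  exact congrArg r.ev hg

namespace DGF

variable (A : DGF.{u})

/-- The output of the transport argument for two points of a domain. -/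
def Transports {S k Om : Type u} [CommRing S] [IsDomain S] [HasRat S] [CommRing k] [IsDomain k] [HasRat k] [CommRing Om]
    [IsDomain Om] [HasRat Om] (x : S →+* k) (eta : S →+* Om) : Prop :=
  ∀ P : PT (A.obj S), P.Even → P.Closed → (A.bc x P).Exact → ∃ N : ℕ,
    ∀ (W : Type u) [Ring W] [Algebra ℚ W] [SDG W] (j : SHom (A.obj Om) W)
      (r : Rep (A.bc eta P).1 j), ∃ v, d v = r.ev (A.bc eta P).2 ^ N

theorem tn_of_transports {S k Om : Type u} [CommRing S] [IsDomain S] [HasRat S] [CommRing k] [IsDomain k] [HasRat k]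
    [CommRing Om] [IsDomain Om] [HasRat Om] {x : S →+* k} {eta : S →+* Om} (h : A.Transports x eta)
    {P : PT (A.obj S)} (hP : P.Even) (hP' : P.Closed) (hx : (A.bc x P).TN) :
    (A.bc eta P).TN := by
  obtain ⟨n, hn⟩ := PT.tn_iff.1 hx
  have h1 : (A.bc x (P.pow n)).Exact := by
    unfold bc at *
    rw [PT.map_pow]
    exact hn
  obtain ⟨N, hN⟩ := h (P.pow n) (PT.Even.pow hP n) (PT.Closed.pow hP' n) h1
  have h2 : (A.bc eta (P.pow n)).TN :=
    ⟨N, exact_of_forall (PT.Even.map (A.map eta) (PT.Even.pow hP n)) N fun W _ _ _ j r => hN W j r⟩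
  refine PT.tn_of_tn_pow (n := n) (PT.Even.map (A.map eta) hP) ?_
  unfold bc at *
  rw [← PT.map_pow]
  exact h2

end DGF

end Pool.Agent.SPC
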