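import Pool.Agent.SPC.BMain
import Pool.Agent.SPC.Trans

/-!
# SPC, part B: if the even cohomology is `ℚ` then the nilpotence theorem holds

PLAN. `M = P.1`, `f = P.2`. First `f` with `e (f i) = 0` for all `i` (`square_exact`): let `R = 2 * sup rk + 1` and let `T : TC A` be
the twisted complex with index set `Option M.I`, `odd none = true`, `rk none = R`, `D none (some j) = f j`, `D (some i) (some j) = M.D i j`, the other
entries `0` (flatness at `(none, some j)` is `M.dif f = 0`). Apply `exists_elt` to the twisted complex `T.tmul M` (`IsTC`: its fields `par_D`, `tri`, `flat`) with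
`r₀ = 2 * sup rk` (`(none, k)` has rank `> r₀`, `(some i, k)` has rank `≤ r₀`) and `x = TC.tE T M (Pi.single none 1) f`, so `x (none, k) = par (f k)`,
`x (some i, k) = 0`. `TC.tmul_dif`: the differential of `x` is `TC.tE T M (T.D none) f` because `M.dif f = 0`: zero at `(none, k)` and
`f i * parP (M.odd i) (f k)` at `(some i, k)`. `e (TC.tD T M (none, k) (some i, k')) = 0`: `e (f i) = 0` and `none ≠ some i`. The resulting `y` is supported on
`(some i, k)`; `y' (i, k) = y (some i, k)` satisfies `(M.tmul M).dif y' = TC.tE M M f f`.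
`tn_of_even_cohomology`: `P.map e` exact gives `g : M.I → ℚ` with `(M.map e).dif g = e ∘ f`; make `g` odd as in `KFin.lean`
(`DGF.transport`), `G = algebraMap ∘ g`, `f' = f - M.dif G` is even, closed and `e (f' i) = 0`. By `square_exact`, `Rep.ev_tE` and `d_ev`, for every
`r : Rep M j` the square of `r.ev f'` is a boundary; `r.ev f = r.ev f' + d (r.ev G)`; `pow_add_exact` (a copy of the lemma of `KFin.lean`, private) and
`exact_of_forall` with `n = 2`.
-/

noncomputable section

namespace Pool.Agent.SPC

universe u

open SDG

variable {A : Type u} [Ring A] [Algebra ℚ A] [SDG A] {e : SHom A ℚ}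

/-- The twisted complex with one more basis element, whose differential is `f`. -/
private def ext (M : TC A) (f : M.I → A) (hf : M.Even f) (hf' : M.dif f = 0) : TC A where
  I := Option M.I
  odd o := match o with
    | none => true
    | some i => M.odd i
  rk o := match o with
    | none => 2 * Finset.univ.sup M.rk + 1
    | some i => M.rk i
  D o o' := match o, o' with
    | none, some j => f j
    | some i, some j => M.D i j
    | _, none => 0
  par_D o o' := by
    match o, o' with
    | none, some j =>
      have h := hf j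
      simpa using h
    | some i, some j => exact M.par_D i j
    | none, none => exact IsPar.zero _
    | some i, none => exact IsPar.zero _
  tri o o' := by
    match o, o' with
    | none, some j =>
      intro h
      exfalso
      have h1 : M.rk j ≤ Finset.univ.sup M.rk := Finset.le_sup (Finset.mem_univ j)
      have h2 : 2 * Finset.univ.sup M.rk + 1 ≤ M.rk j := h
      omega
    | some i, some j => exact M.tri i j
    | none, none => exact fun _ => rfl
    | some i, none => exact fun _ => rfl
  flat o o' := by
    match o, o' with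
    | none, some j =>
      rw [Fintype.sum_option]
      change d (f j) + (par 0 * f j + ∑ i, par (f i) * M.D i j) = 0
      rw [map_zero, zero_mul, zero_add]
      exact congrFun hf' j
    | some i, some j =>
      rw [Fintype.sum_option]
      change d (M.D i j) + (par 0 * f j + ∑ l, par (M.D i l) * M.D l j) = 0
      rw [map_zero, zero_mul, zero_add]
      exact M.flat i j
    | none, none =>
      rw [Fintype.sum_option]
      change d (0 : A) + (par (0 : A) * 0 + ∑ i, par (f i) * 0) = 0
      simp
    | some i, none =>
      rw [Fintype.sum_option]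
      change d (0 : A) + (par (0 : A) * 0 + ∑ l, par (M.D i l) * 0) = 0
      simp

/-- Powers of a closed even element modulo boundaries. -/
private theorem pow_add {W : Type u} [Ring W] [Algebra ℚ W] [SDG W] {a : W} (ha : par a = a)
    (ha' : d a = 0) (b : W) (n : ℕ) : ∃ w, (a + d b) ^ n = a ^ n + d w := by
  induction n with
  | zero => exact ⟨0, by rw [pow_zero, pow_zero, map_zero, add_zero]⟩
  | succ n ih =>
    obtain ⟨w, hw⟩ := ih
    have h1 : d (a ^ n) = 0 := by
      have h2 : ∀ m : ℕ, par (a ^ m) = a ^ m ∧ d (a ^ m) = 0 := by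
        intro m
        induction m with
        | zero => exact ⟨by rw [pow_zero, map_one], by rw [pow_zero, d_one]⟩
        | succ m ihm =>
          refine ⟨by rw [pow_succ, map_mul, ihm.1, ha], ?_⟩
          rw [pow_succ, d_mul, ihm.2, ha', zero_mul, mul_zero, add_zero]
      exact (h2 n).2
    refine ⟨a * w + b * a ^ n + b * d w, ?_⟩
    rw [pow_succ', hw, pow_succ', map_add, map_add, d_mul, d_mul, d_mul, ha', ha, h1, d_d]
    simp only [zero_mul, mul_zero, zero_add, add_zero, add_mul, mul_add]
    abel

theorem square_exact (hB : ∀ a : A, par a = a → d a = 0 → e a = 0 → ∃ b, d b = a) {M : TC A}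
    {f : M.I → A} (hf : M.Even f) (hf' : M.dif f = 0) (h0 : ∀ i, e (f i) = 0) :
    (M.tmul M).Exact (TC.tE M M f f) := by
  obtain ⟨T, hT⟩ : ∃ T : TC A, T = ext M f hf hf' := ⟨_, rfl⟩
  have hI : T.I = Option M.I := by rw [hT]; rfl
  clear hI
  subst hT
  obtain ⟨r₀, hr₀⟩ : ∃ r₀ : ℕ, r₀ = 2 * Finset.univ.sup M.rk := ⟨_, rfl⟩
  have hrk : ∀ i, M.rk i ≤ Finset.univ.sup M.rk := fun i => Finset.le_sup (Finset.mem_univ i)
  obtain ⟨s, hs⟩ : ∃ s : (ext M f hf hf').I → A,
      s = fun o : Option M.I => match o with
        | none => 1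
        | some _ => 0 := ⟨_, rfl⟩
  have hsn : s none = 1 := by rw [hs]
  have hss : ∀ i : M.I, s (some i) = 0 := by intro i; rw [hs]
  have hds : (ext M f hf hf').dif s = fun o => (ext M f hf hf').D none o := by
    funext o
    rw [TC.dif_apply]
    have h1 : d (s o) = 0 := by
      match o with
      | none => rw [hsn, d_one]
      | some i => rw [hss, map_zero]
    rw [h1, zero_add]
    have h2 : (∑ i, par (s i) * (ext M f hf hf').D i o) =
        par (s none) * (ext M f hf hf').D none o +
          ∑ i : M.I, par (s (some i)) * (ext M f hf hf').D (some i) o :=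
      Fintype.sum_option _
    rw [h2, hsn, map_one, one_mul]
    simp only [hss, map_zero, zero_mul, Finset.sum_const_zero, add_zero]
  have hIs : IsTC ((ext M f hf hf').tmul M).odd ((ext M f hf hf').tmul M).rk
      ((ext M f hf hf').tmul M).D :=
    ⟨((ext M f hf hf').tmul M).par_D,
      fun i j h => ((ext M f hf hf').tmul M).tri i j (Nat.lt_succ_iff.1 h),
      by
        ext i j
        exact ((ext M f hf hf').tmul M).flat i j⟩
  have hdx : ((ext M f hf hf').tmul M).dif (TC.tE (ext M f hf hf') M s f) =
      TC.tE (ext M f hf hf') M (fun o => (ext M f hf hf').D none o) f := by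
    rw [TC.tmul_dif, hds, hf', TC.tE_zero_right, add_zero]
  have hkey : ∃ y : ((ext M f hf hf').tmul M).I → A,
      (∀ j, r₀ < ((ext M f hf hf').tmul M).rk j → y j = 0) ∧
        difV ((ext M f hf hf').tmul M).D y =
          difV ((ext M f hf hf').tmul M).D (TC.tE (ext M f hf hf') M s f) := by
    refine exists_elt hB hIs (r₀ := r₀) (x := TC.tE (ext M f hf hf') M s f) ?_ ?_ ?_ ?_
    · rintro ⟨o, k⟩ ⟨o', k'⟩ h1 h2
      match o, o' with
      | some i, _ =>
        exfalso
        have h3 : r₀ < M.rk i + M.rk k := h1
        have := hrk i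
        have := hrk k
        omega
      | none, none =>
        exfalso
        have h3 : (2 * Finset.univ.sup M.rk + 1) + M.rk k' ≤ r₀ := h2
        omega
      | none, some j =>
        have hne : ¬ ((none : Option M.I) = some j) := by simp
        have e0 : ((ext M f hf hf').tmul M).D (none, k) (some j, k') =
            (if k = k' then f j else 0) + 0 := by
          change TC.tD (ext M f hf hf') M (none, k) (some j, k') = _
          unfold TC.tD
          exact congrArg₂ (fun a b => a + b) rfl (if_neg hne)
        rw [e0, add_zero]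
        split_ifs
        · exact h0 j
        · exact map_zero e
    · rintro ⟨o, k⟩
      match o with
      | none =>
        change IsPar (!(true ^^ M.odd k)) (s none * par (f k))
        rw [hsn, one_mul]
        have h1 : IsPar (M.odd k) (par (f k)) := (hf k).apply_parP true
        simpa using h1
      | some i =>
        change IsPar _ (s (some i) * _)
        rw [hss, zero_mul]
        exact IsPar.zero _
    · rintro ⟨o, k⟩ h1
      match o with
      | none =>
        change e (s none * par (f k)) = 0
        rw [hsn, one_mul, e.map_par, h0, map_zero]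
      | some i =>
        change e (s (some i) * _) = 0
        rw [hss, zero_mul, map_zero]
    · rintro ⟨o, k⟩ h1
      have h2 : difV ((ext M f hf hf').tmul M).D (TC.tE (ext M f hf hf') M s f) (o, k) =
          TC.tE (ext M f hf hf') M (fun o => (ext M f hf hf').D none o) f (o, k) :=
        congrFun hdx (o, k)
      rw [h2]
      match o with
      | none =>
        change (0 : A) * _ = 0
        rw [zero_mul]
      | some i =>
        exfalso
        have h3 : r₀ < M.rk i + M.rk k := h1
        have := hrk i
        have := hrk k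
        omega
  obtain ⟨y, hy1, hy2⟩ := hkey
  · refine ⟨fun x => y (some x.1, x.2), ?_⟩
    funext z
    obtain ⟨j, k'⟩ := z
    have h1 := congrFun hy2 (some j, k')
    have h2 : difV ((ext M f hf hf').tmul M).D (TC.tE (ext M f hf hf') M s f) (some j, k') =
        TC.tE M M f f (j, k') := congrFun hdx (some j, k')
    rw [h2] at h1
    rw [← h1]
    change d (y (some j, k')) + ∑ x : M.I × M.I, par (y (some x.1, x.2)) *
      TC.tD M M x (j, k') = d (y (some j, k')) +
        ∑ i, par (y i) * ((ext M f hf hf').tmul M).D i (some j, k')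
    congr 1
    have h3 : (∑ i, par (y i) * ((ext M f hf hf').tmul M).D i (some j, k')) =
        ∑ o : Option M.I, ∑ k : M.I, par (y (o, k)) *
          TC.tD (ext M f hf hf') M (o, k) (some j, k') := by
      exact Fintype.sum_prod_type (fun i : Option M.I × M.I => par (y i) *
          TC.tD (ext M f hf hf') M i (some j, k'))
    have h4 : ∀ k : M.I, y (none, k) = 0 := by
      intro k
      refine hy1 (none, k) ?_
      change r₀ < (2 * Finset.univ.sup M.rk + 1) + M.rk k
      omega
    rw [h3, Fintype.sum_option]
    simp only [h4, map_zero, zero_mul, Finset.sum_const_zero, zero_add]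
    rw [Fintype.sum_prod_type]
    refine Finset.sum_congr rfl fun i _ => Finset.sum_congr rfl fun k _ => ?_
    congr 1
    unfold TC.tD
    congr 1
    change _ = (if some i = some j then sgn (M.odd i) • parP A (M.odd i) (M.D k k') else 0)
    simp only [Option.some.injEq]

theorem tn_of_even_cohomology (hB : ∀ a : A, par a = a → d a = 0 → e a = 0 → ∃ b, d b = a)
    {P : PT A} (hP : P.Even) (hP' : P.Closed) (h : (P.map e).Exact) : (P.pow 2).Exact := by
  obtain ⟨M, f⟩ := P
  have hP1 : M.pr f = f := TC.even_iff.1 hP
  have hP2 : M.dif f = 0 := hP'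
  have hx1 : (M.map e).Exact (TC.mapE e M f) := h
  obtain ⟨g, hg⟩ := hx1
  have hev : (M.map e).pr (TC.mapE e M f) = TC.mapE e M f :=
    TC.even_iff.1 (TC.Even.mapE e (M := M) hP)
  obtain ⟨g', hg'⟩ : ∃ g' : (M.map e).I → ℚ, g' = (2⁻¹ : ℚ) • (g - (M.map e).pr g) :=
    ⟨_, rfl⟩
  have hpg : (M.map e).pr g' = -g' := by
    rw [hg', map_smul, map_sub, TC.pr_pr, ← smul_neg, neg_sub]
  have hdg : (M.map e).dif g' = TC.mapE e M f := by
    rw [hg', map_smul, map_sub, TC.dif_pr, hg, hev, sub_neg_eq_add, ← two_smul ℚ, smul_smul,
      inv_mul_cancel₀ (by norm_num : (2 : ℚ) ≠ 0), one_smul]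
  obtain ⟨G, hG⟩ : ∃ G : M.I → A, ∀ a, G a = algebraMap ℚ A (g' a) := ⟨_, fun _ => rfl⟩
  have hxG : TC.mapE e M G = g' := by
    funext a
    exact (congrArg e (hG a)).trans (AlgHomClass.commutes e (g' a))
  have hpG : M.pr G = -G := by
    funext a
    have h2 : sgn (M.odd a) * g' a = -g' a := congrFun hpg a
    have h3 : par (algebraMap ℚ A (g' a)) = algebraMap ℚ A (g' a) := AlgHom.commutes _ _
    rw [TC.pr_apply, Pi.neg_apply, hG, ← map_neg, ← h2, h3, Algebra.algebraMap_eq_smul_one,
      Algebra.algebraMap_eq_smul_one, smul_smul]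
  have hdG : M.pr (M.dif G) = M.dif G := by
    have h4 := TC.dif_pr M G
    rw [hpG, map_neg, neg_inj] at h4
    exact h4.symm
  have hQe : M.Even (f - M.dif G) := by
    refine TC.even_iff.2 ?_
    rw [map_sub, hP1, hdG]
  have hQc : M.dif (f - M.dif G) = 0 := by
    rw [map_sub, hP2, TC.dif_dif, sub_zero]
  have hQx : ∀ a, e ((f - M.dif G) a) = 0 := by
    intro a
    have h3 := congrFun (TC.mapE_dif e M G) a
    rw [hxG] at h3
    have h4 := congrFun hdg a
    rw [Pi.sub_apply, map_sub, sub_eq_zero]
    exact h4.symm.trans h3.symm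
  have hsq := square_exact hB hQe hQc hQx
  refine exact_of_forall (M := M) (f := f) hP 2 ?_
  intro W _ _ _ j r
  obtain ⟨v, hv⟩ : ∃ v, d v = r.ev (f - M.dif G) ^ 2 := by
    obtain ⟨y, hy⟩ := hsq
    refine ⟨(r.tmul r).ev y, ?_⟩
    rw [Rep.d_ev, hy, Rep.ev_tE, pow_two]
  have hfe : r.ev f = r.ev (f - M.dif G) + d (r.ev G) := by
    rw [r.d_ev, ← r.ev_add, sub_add_cancel]
  obtain ⟨w, hw⟩ := pow_add (a := r.ev (f - M.dif G)) (r.ev_even hQe) (by
      rw [r.d_ev, hQc]
      unfold Rep.ev
      refine Finset.sum_eq_zero fun i _ => ?_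
      rw [Pi.zero_apply, map_zero, zero_mul]) (r.ev G) 2
  refine ⟨v + w, ?_⟩
  rw [map_add, hv, hfe, hw]

/-- The even cohomology over `K` is `ℚ`. -/
def DGF.EvenTrivial (F : DGF.{u}) (K : Type u) [CommRing K] [IsDomain K] [HasRat K] : Prop :=
  ∀ a : F.obj K, par a = a → d a = 0 → F.eps K a = 0 → ∃ b, d b = a

theorem DGF.pow_exact_of_evenTrivial (F : DGF.{u}) {K : Type u} [Field K] [CharZero K]
    (h : F.EvenTrivial K) (P : PT (F.obj K)) (hP : P.Even) (hP' : P.Closed)
    (he : (P.map (F.eps K)).Exact) : P.TN :=
  PT.tn_iff.2 ⟨2, tn_of_even_cohomology h hP hP' he⟩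

end Pool.Agent.SPC
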