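import Pool.Agent.SPC.BDef

/-!
# SPC, part B: existence of a splitting

The splitting `σ` is a linear right inverse of the differential, made odd; `V` is the intersection of
a complement of the boundaries of even elements of augmentation zero with the odd closed elements.
-/

noncomputable section

namespace Pool.Agent.SPC

universe u

open SDG

variable {A : Type u} [Ring A] [Algebra ℚ A] [SDG A]

/-- Even closed elements of augmentation zero. -/
private def Zp (e : SHom A ℚ) : Submodule ℚ A where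
  carrier := {a | par a = a ∧ d a = 0 ∧ e a = 0}
  add_mem' := by
    rintro a b ⟨h1, h2, h3⟩ ⟨h4, h5, h6⟩
    exact ⟨by rw [map_add, h1, h4], by rw [map_add, h2, h5, add_zero],
      by rw [map_add, h3, h6, add_zero]⟩
  zero_mem' := ⟨map_zero _, map_zero _, map_zero _⟩
  smul_mem' := by
    rintro c a ⟨h1, h2, h3⟩
    exact ⟨by rw [map_smul, h1], by rw [map_smul, h2, smul_zero],
      by rw [map_smul, h3, smul_zero]⟩

/-- Odd closed elements. -/
private def Zo (A : Type u) [Ring A] [Algebra ℚ A] [SDG A] : Submodule ℚ A where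
  carrier := {a | par a = -a ∧ d a = 0}
  add_mem' := by
    rintro a b ⟨h1, h2⟩ ⟨h4, h5⟩
    exact ⟨by rw [map_add, h1, h4, neg_add], by rw [map_add, h2, h5, add_zero]⟩
  zero_mem' := ⟨by rw [map_zero, neg_zero], map_zero _⟩
  smul_mem' := by
    rintro c a ⟨h1, h2⟩
    exact ⟨by rw [map_smul, h1, smul_neg], by rw [map_smul, h2, smul_zero]⟩

/-- Even elements of augmentation zero. -/
private def Ez (e : SHom A ℚ) : Submodule ℚ A where
  carrier := {a | par a = a ∧ e a = 0}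
  add_mem' := by
    rintro a b ⟨h1, h3⟩ ⟨h4, h6⟩
    exact ⟨by rw [map_add, h1, h4], by rw [map_add, h3, h6, add_zero]⟩
  zero_mem' := ⟨map_zero _, map_zero _⟩
  smul_mem' := by
    rintro c a ⟨h1, h3⟩
    exact ⟨by rw [map_smul, h1], by rw [map_smul, h3, smul_zero]⟩

private theorem exists_sigma (e : SHom A ℚ)
    (hB : ∀ a : A, par a = a → d a = 0 → e a = 0 → ∃ b, d b = a) :
    ∃ σ : A →ₗ[ℚ] A, (∀ a, par (σ a) = -σ a) ∧
      ∀ a, par a = a → d a = 0 → e a = 0 → d (σ a) = a := by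
  have hf : Function.Surjective ((d : A →ₗ[ℚ] A).restrict
      (p := (Zp e).comap (d : A →ₗ[ℚ] A)) (q := Zp e) fun x hx => hx) := by
    rintro ⟨a, ha⟩
    obtain ⟨b, hb⟩ := hB a ha.1 ha.2.1 ha.2.2
    refine ⟨⟨b, ?_⟩, Subtype.ext hb⟩
    show d b ∈ Zp e
    rw [hb]
    exact ha
  obtain ⟨g, hg⟩ := LinearMap.exists_rightInverse_of_surjective _ (LinearMap.range_eq_top.2 hf)
  obtain ⟨τ, hτ⟩ := LinearMap.exists_extend (((Zp e).comap (d : A →ₗ[ℚ] A)).subtype ∘ₗ g)
  have h1 : ∀ a, a ∈ Zp e → d (τ a) = a := by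
    intro a ha
    have h2 : τ a = (g ⟨a, ha⟩ : A) := LinearMap.congr_fun hτ ⟨a, ha⟩
    have h3 := congrArg Subtype.val (LinearMap.congr_fun hg ⟨a, ha⟩)
    rw [h2]
    exact h3
  refine ⟨(2⁻¹ : ℚ) • (τ - (par : A →ₐ[ℚ] A).toLinearMap ∘ₗ τ), fun a => ?_, fun a ha hd he => ?_⟩
  · show par ((2⁻¹ : ℚ) • (τ a - par (τ a))) = -((2⁻¹ : ℚ) • (τ a - par (τ a)))
    rw [map_smul, map_sub, par_par, ← smul_neg, neg_sub]
  · show d ((2⁻¹ : ℚ) • (τ a - par (τ a))) = a
    rw [map_smul, map_sub, d_par, h1 a ⟨ha, hd, he⟩, ha, sub_neg_eq_add, ← two_smul ℚ a, smul_smul,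
      inv_mul_cancel₀ two_ne_zero, one_smul]

theorem exists_spl (e : SHom A ℚ)
    (hB : ∀ a : A, par a = a → d a = 0 → e a = 0 → ∃ b, d b = a) : Nonempty (Spl A e) := by
  obtain ⟨σ, hσ1, hσ2⟩ := exists_sigma e hB
  obtain ⟨C, hC⟩ := Submodule.exists_isCompl ((Ez e).map (d : A →ₗ[ℚ] A))
  refine ⟨⟨σ, C ⊓ Zo A, hσ1, hσ2, fun v hv => hv.2.1, fun v hv => hv.2.2, fun a ha hd => ?_,
    fun v hv b hb => ?_⟩⟩
  · have h1 : a ∈ (Ez e).map (d : A →ₗ[ℚ] A) ⊔ C := by
      rw [hC.sup_eq_top]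
      exact Submodule.mem_top
    obtain ⟨b, hb, c, hc, rfl⟩ := Submodule.mem_sup.1 h1
    obtain ⟨h, hh, rfl⟩ := hb
    refine ⟨c, ⟨hc, ?_, ?_⟩, h, hh.1, hh.2, add_comm _ _⟩
    · have h2 : par (d h) = -d h := by
        have h3 := d_par h
        rw [hh.1] at h3
        exact neg_eq_iff_eq_neg.1 h3.symm
      rw [map_add, h2, neg_add] at ha
      exact add_left_cancel ha
    · rw [map_add, d_d, zero_add] at hd
      exact hd
  · have h1 : par v = -v := hv.2.1
    have hbv : d (par b) = v := by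
      rw [d_par, hb, h1, neg_neg]
    have h2 : d ((2⁻¹ : ℚ) • (b + par b) - e b • (1 : A)) = v := by
      rw [map_sub, map_smul, map_smul, d_one, smul_zero, sub_zero, map_add, hb, hbv,
        ← two_smul ℚ v, smul_smul, inv_mul_cancel₀ two_ne_zero, one_smul]
    have h3 : v ∈ (Ez e).map (d : A →ₗ[ℚ] A) := by
      refine ⟨_, ⟨?_, ?_⟩, h2⟩
      · rw [map_sub, map_smul, map_smul, map_add, par_par, map_one, add_comm]
      · have h4 : e (par b) = e b := e.map_par b
        rw [map_sub, map_smul, map_smul, map_add, h4, map_one, ← two_smul ℚ (e b), smul_smul,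
          inv_mul_cancel₀ two_ne_zero, one_smul, smul_eq_mul, mul_one, sub_self]
    have h4 : v ∈ (Ez e).map (d : A →ₗ[ℚ] A) ⊓ C := ⟨h3, hv.1⟩
    rw [hC.inf_eq_bot] at h4
    exact (Submodule.mem_bot ℚ).1 h4

end Pool.Agent.SPC
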