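import Pool.Agent.SPC.CRep

/-!
# Characteristic polynomials for a product of two monic elements
-/

noncomputable section

namespace Pool.Agent.SPC

open Polynomial TensorProduct

universe u v w

section general

variable {K : Type w} [Field K] {A B C : Type*} [AddCommGroup A] [Module K A] [Module.Finite K A]
  [AddCommGroup B] [Module K B] [Module.Finite K B] [AddCommGroup C] [Module K C] [Module.Finite K C]

open Module.Basis in
private theorem cp_sub (W : Submodule K B) (e : B →ₗ[K] B) (he : W ≤ W.comap e) :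
    e.charpoly = (e.restrict he).charpoly * (W.mapQ W e he).charpoly := by
  let m := Module.Free.ChooseBasisIndex K W
  let bW : Module.Basis m K W := Module.Free.chooseBasis K W
  let n := Module.Free.ChooseBasisIndex K (B ⧸ W)
  let bQ : Module.Basis n K (B ⧸ W) := Module.Free.chooseBasis K (B ⧸ W)
  let b := sumQuot bW bQ
  let P : Matrix m m K := LinearMap.toMatrix bW bW (e.restrict he)
  let Q : Matrix m n K := Matrix.of fun i l ↦
    ((sumQuot bW bQ).repr (e ((sumQuot bW bQ) (Sum.inr l)))) (Sum.inl i)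
  let D : Matrix n n K := LinearMap.toMatrix bQ bQ (W.mapQ W e he)
  suffices LinearMap.toMatrix b b e = Matrix.fromBlocks P Q 0 D by
    rw [← LinearMap.charpoly_toMatrix e b, this, ← LinearMap.charpoly_toMatrix _ bW,
      ← LinearMap.charpoly_toMatrix _ bQ, Matrix.charpoly_fromBlocks_zero₂₁]
  ext u v
  cases u with
  | inl i =>
    cases v with
    | inl k =>
      simp only [b, sumQuot_inl, Matrix.fromBlocks_apply₁₁, P, LinearMap.toMatrix_apply]
      apply sumQuot_repr_inl_of_mem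
    | inr l => simp [b, LinearMap.toMatrix_apply, Matrix.fromBlocks_apply₁₂, Q]
  | inr j =>
    cases v with
    | inl k =>
      suffices W.mkQ (e (bW k)) = 0 by simp [LinearMap.toMatrix_apply, b, this]
      rw [← LinearMap.mem_ker, Submodule.ker_mkQ]
      exact he (Submodule.coe_mem (bW k))
    | inr l =>
      simp only [LinearMap.toMatrix_apply, sumQuot_repr_inr,
        Matrix.fromBlocks_apply₂₂, b, D]
      rw [← sumQuot_inr bW bQ l, W.mapQ_apply]
      simp

private theorem cp_exact (f : A →ₗ[K] B) (g : B →ₗ[K] C) (hf : Function.Injective f)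
    (hg : Function.Surjective g) (hfg : ∀ x, g x = 0 ↔ ∃ y, f y = x) (a : A →ₗ[K] A)
    (b : B →ₗ[K] B) (c : C →ₗ[K] C) (h1 : ∀ x, b (f x) = f (a x)) (h2 : ∀ x, g (b x) = c (g x)) :
    b.charpoly = a.charpoly * c.charpoly := by
  obtain ⟨W, hW⟩ : ∃ W : Submodule K B, W = LinearMap.ker g := ⟨_, rfl⟩
  have hWm : ∀ x, x ∈ W ↔ g x = 0 := by
    intro x
    rw [hW, LinearMap.mem_ker]
  have he : W ≤ W.comap b := by
    intro x hx
    rw [Submodule.mem_comap, hWm, h2, (hWm x).1 hx, map_zero]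
  rw [cp_sub W b he]
  have hfW : ∀ x, f x ∈ W := fun x => (hWm _).2 ((hfg _).2 ⟨x, rfl⟩)
  have hbij : Function.Bijective (f.codRestrict W hfW) := by
    constructor
    · intro x y hxy
      exact hf (congrArg Subtype.val hxy)
    · rintro ⟨x, hx⟩
      obtain ⟨y, hy⟩ := (hfg x).1 ((hWm x).1 hx)
      exact ⟨y, Subtype.ext hy⟩
  obtain ⟨e1, he1⟩ : ∃ e1 : A ≃ₗ[K] W, ∀ x, (e1 x : B) = f x :=
    ⟨LinearEquiv.ofBijective (f.codRestrict W hfW) hbij, fun x => rfl⟩
  have e2 : b.restrict he = e1.conj a := by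
    refine LinearMap.ext fun x => ?_
    obtain ⟨y, rfl⟩ := e1.surjective x
    rw [LinearEquiv.conj_apply_apply, LinearEquiv.symm_apply_apply]
    apply Subtype.ext
    rw [LinearMap.coe_restrict_apply, he1, he1, h1]
  subst hW
  have e3 : c = (g.quotKerEquivOfSurjective hg).conj ((LinearMap.ker g).mapQ (LinearMap.ker g) b he) := by
    refine LinearMap.ext fun x => ?_
    obtain ⟨y, rfl⟩ := hg x
    have e4 : g y = g.quotKerEquivOfSurjective hg (Submodule.Quotient.mk y) := rfl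
    rw [LinearEquiv.conj_apply_apply, e4, LinearEquiv.symm_apply_apply, Submodule.mapQ_apply, ← e4, ← h2]
    rfl
  rw [e2, LinearEquiv.charpoly_conj]
  conv_rhs => rw [e3, LinearEquiv.charpoly_conj]

end general

variable {k : Type u} {S : Type v} [Field k] [CommRing S] [Algebra k S] {h : S}
  {K : Type w} [Field K] [Algebra k K]

private theorem rep_fin {F : Fil k h} {D m₁ : ℕ} (hg : F.Grows D m₁) (R : RBas F D) {m : ℕ}
    {l : K ⊗[k] S} (hl : l ∈ F.LB K m) :
    Module.Finite K ((K ⊗[k] S) ⧸ Ideal.span {monic h m l}) ∧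
      Module.finrank K ((K ⊗[k] S) ⧸ Ideal.span {monic h m l}) = (m + 1) * D := by
  refine ⟨Module.Finite.of_basis (bas hg R hl), ?_⟩
  rw [Module.finrank_eq_card_basis (bas hg R hl), Fintype.card_prod, Fintype.card_fin, Fintype.card_fin]

private theorem rep_cp {F : Fil k h} {D m₁ : ℕ} (hg : F.Grows D m₁) (R : RBas F D) {m : ℕ}
    {l : K ⊗[k] S} (hl : l ∈ F.LB K m) (s : S) (_ : Module.Finite K ((K ⊗[k] S) ⧸ Ideal.span {monic h m l})) :
    (rep hg R hl s).charpoly = (Algebra.lmul K ((K ⊗[k] S) ⧸ Ideal.span {monic h m l})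
      (Ideal.Quotient.mk (Ideal.span {monic h m l}) ((1 : K) ⊗ₜ[k] s))).charpoly := by
  have h1 : rep hg R hl s = LinearMap.toMatrix (bas hg R hl) (bas hg R hl)
      (Algebra.lmul K ((K ⊗[k] S) ⧸ Ideal.span {monic h m l})
      (Ideal.Quotient.mk (Ideal.span {monic h m l}) ((1 : K) ⊗ₜ[k] s))) := rfl
  rw [h1, LinearMap.charpoly_toMatrix]

/-- The statement for a general ring. -/
private theorem cp_ring {M : Type*} [CommRing M] [Algebra K M] (G₁ G₂ G : M) (hG : G = G₁ * G₂)
    (f1 : Module.Finite K (M ⧸ Ideal.span {G₁})) (f2 : Module.Finite K (M ⧸ Ideal.span {G₂}))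
    (f3 : Module.Finite K (M ⧸ Ideal.span {G}))
    (hd : Module.finrank K (M ⧸ Ideal.span {G}) =
      Module.finrank K (M ⧸ Ideal.span {G₁}) + Module.finrank K (M ⧸ Ideal.span {G₂})) (x : M) :
    (Algebra.lmul K (M ⧸ Ideal.span {G}) (Ideal.Quotient.mk (Ideal.span {G}) x)).charpoly =
      (Algebra.lmul K (M ⧸ Ideal.span {G₁}) (Ideal.Quotient.mk (Ideal.span {G₁}) x)).charpoly *
        (Algebra.lmul K (M ⧸ Ideal.span {G₂}) (Ideal.Quotient.mk (Ideal.span {G₂}) x)).charpoly := by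
  have hle : Ideal.span {G} ≤ Ideal.span {G₂} := by
    rw [Ideal.span_singleton_le_span_singleton, hG]
    exact Dvd.intro_left G₁ rfl
  obtain ⟨g, hg⟩ : ∃ g : (M ⧸ Ideal.span {G}) →ₗ[K] (M ⧸ Ideal.span {G₂}),
      ∀ y, g (Ideal.Quotient.mk _ y) = Ideal.Quotient.mk _ y :=
    ⟨(Ideal.Quotient.factorₐ K hle).toLinearMap, fun y => rfl⟩
  have hcom : (Ideal.span {G₁} : Submodule M M) ≤ Submodule.comap (LinearMap.mulLeft M G₂) (Ideal.span {G}) := by
    intro y hy
    obtain ⟨z, rfl⟩ := Ideal.mem_span_singleton'.1 hy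
    rw [Submodule.mem_comap, LinearMap.mulLeft_apply]
    refine Ideal.mem_span_singleton'.2 ⟨z, ?_⟩
    rw [hG]
    ring
  obtain ⟨f, hf⟩ : ∃ f : (M ⧸ Ideal.span {G₁}) →ₗ[K] (M ⧸ Ideal.span {G}),
      ∀ y, f (Ideal.Quotient.mk _ y) = Ideal.Quotient.mk _ (G₂ * y) :=
    ⟨((Ideal.span {G₁} : Submodule M M).mapQ (Ideal.span {G}) (LinearMap.mulLeft M G₂) hcom).restrictScalars K,
      fun y => rfl⟩
  have hgs : Function.Surjective g := by
    intro y
    obtain ⟨z, rfl⟩ := Ideal.Quotient.mk_surjective y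
    exact ⟨Ideal.Quotient.mk _ z, hg z⟩
  have hfg : ∀ y, g y = 0 ↔ ∃ z, f z = y := by
    intro y
    constructor
    · intro hy
      obtain ⟨t, rfl⟩ := Ideal.Quotient.mk_surjective y
      rw [hg, Ideal.Quotient.eq_zero_iff_mem] at hy
      obtain ⟨z, hz⟩ := Ideal.mem_span_singleton'.1 hy
      refine ⟨Ideal.Quotient.mk _ z, ?_⟩
      rw [hf, ← hz, mul_comm]
    · rintro ⟨z, rfl⟩
      obtain ⟨t, rfl⟩ := Ideal.Quotient.mk_surjective z
      rw [hf, hg, Ideal.Quotient.eq_zero_iff_mem]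
      exact Ideal.mem_span_singleton'.2 ⟨t, mul_comm _ _⟩
  have hfi : Function.Injective f := by
    have h1 : LinearMap.range f = LinearMap.ker g := by
      ext y
      rw [LinearMap.mem_range, LinearMap.mem_ker, hfg]
    have h2 := f.finrank_range_add_finrank_ker
    have h3 := g.finrank_range_add_finrank_ker
    rw [LinearMap.range_eq_top.2 hgs, finrank_top] at h3
    rw [h1] at h2
    have h4 : Module.finrank K (LinearMap.ker f) = 0 := by omega
    rw [← LinearMap.ker_eq_bot]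
    exact Submodule.finrank_eq_zero.1 h4
  refine cp_exact f g hfi hgs hfg _ _ _ ?_ ?_
  · intro y
    obtain ⟨t, rfl⟩ := Ideal.Quotient.mk_surjective y
    rw [hf, Algebra.coe_lmul_eq_mul, Algebra.coe_lmul_eq_mul, LinearMap.mul_apply', LinearMap.mul_apply',
      ← map_mul, ← map_mul, hf]
    congr 1
    ring
  · intro y
    obtain ⟨t, rfl⟩ := Ideal.Quotient.mk_surjective y
    rw [hg, Algebra.coe_lmul_eq_mul, Algebra.coe_lmul_eq_mul, LinearMap.mul_apply', LinearMap.mul_apply',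
      ← map_mul, ← map_mul, hg]

theorem charpoly_rep_mul {F : Fil k h} {D m₁ : ℕ} (hg : F.Grows D m₁) (R : RBas F D) {m n : ℕ}
    {l l' l'' : K ⊗[k] S} (hl : l ∈ F.LB K m) (hl' : l' ∈ F.LB K n)
    (hl'' : l'' ∈ F.LB K (m + n + 1))
    (he : monic h (m + n + 1) l'' = monic h m l * monic h n l') (s : S) :
    (rep hg R hl'' s).charpoly = (rep hg R hl s).charpoly * (rep hg R hl' s).charpoly := by
  obtain ⟨f1, d1⟩ := rep_fin hg R hl
  obtain ⟨f2, d2⟩ := rep_fin hg R hl'
  obtain ⟨f3, d3⟩ := rep_fin hg R hl''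
  rw [rep_cp hg R hl s f1, rep_cp hg R hl' s f2, rep_cp hg R hl'' s f3]
  refine cp_ring _ _ _ he f1 f2 f3 ?_ _
  rw [d1, d2, d3]
  ring

end Pool.Agent.SPC
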