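import Pool.Agent.SPC.CBasD

/-!
# Generators give an adapted basis

The combinations of the generators over `k[h]` fill up every `L m`; a combination with leading terms of order `M + 1`
lying in `L M` has no leading terms (induction on `M`, dividing by `h`).
-/

noncomputable section

namespace Pool.Agent.SPC

open Polynomial

universe u v w

variable {k : Type u} {S : Type v} [Field k] [CommRing S] [Algebra k S] {h : S}

/-- the combinations of the generators -/
private def cbb_T {F : Fil k h} {ι : Type} [Fintype ι] (P : PBas F ι) : Submodule k S where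
  carrier := {s | ∃ p : ι → k[X], s = ∑ i, aeval h (p i) * P.b i}
  add_mem' := by
    rintro _ _ ⟨p, rfl⟩ ⟨q, rfl⟩
    refine ⟨fun i => p i + q i, ?_⟩
    rw [← Finset.sum_add_distrib]
    refine Finset.sum_congr rfl fun i _ => ?_
    rw [map_add, add_mul]
  zero_mem' := ⟨fun _ => 0, by simp⟩
  smul_mem' := by
    rintro c _ ⟨p, rfl⟩
    refine ⟨fun i => c • p i, ?_⟩
    rw [Finset.smul_sum]
    refine Finset.sum_congr rfl fun i _ => ?_
    rw [map_smul, smul_mul_assoc]

private theorem cbb_h {F : Fil k h} {ι : Type} [Fintype ι] (P : PBas F ι) {s : S} (hs : s ∈ cbb_T P) :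
    h * s ∈ cbb_T P := by
  obtain ⟨p, rfl⟩ := hs
  refine ⟨fun i => X * p i, ?_⟩
  rw [Finset.mul_sum]
  refine Finset.sum_congr rfl fun i _ => ?_
  rw [map_mul, aeval_X, mul_assoc]

private theorem cbb_b {F : Fil k h} {ι : Type} [Fintype ι] (P : PBas F ι) (j : ι) : P.b j ∈ cbb_T P := by
  classical
  refine ⟨fun i => if i = j then 1 else 0, ?_⟩
  rw [Finset.sum_eq_single j]
  · beta_reduce
    rw [if_pos rfl, map_one, one_mul]
  · intro i _ hij
    beta_reduce
    rw [if_neg hij, map_zero, zero_mul]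
  · intro hj
    exact absurd (Finset.mem_univ j) hj

private theorem cbb_sp {F : Fil k h} {ι : Type} [Fintype ι] (P : PBas F ι) (m : ℕ) :
    Submodule.span k {s | ∃ i, P.a i = m ∧ P.b i = s} ≤ cbb_T P := by
  rw [Submodule.span_le]
  rintro _ ⟨i, _, rfl⟩
  exact cbb_b P i

private theorem cbb_le {F : Fil k h} {ι : Type} [Fintype ι] (P : PBas F ι) (m : ℕ) : F.L m ≤ cbb_T P := by
  induction m with
  | zero =>
    refine (P.gen 0).trans (sup_le ?_ (cbb_sp P 0))
    show (⊥ : Submodule k S) ≤ _
    exact bot_le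
  | succ m ih =>
    refine (P.gen (m + 1)).trans (sup_le ?_ (cbb_sp P (m + 1)))
    show F.L m ⊔ (F.L m).map (LinearMap.mulLeft k h) ≤ _
    refine sup_le ih ?_
    rintro _ ⟨t, ht, rfl⟩
    exact cbb_h P (ih ht)

private theorem cbb_pow {F : Fil k h} {ι : Type} [Fintype ι] (P : PBas F ι) (i : ι) (e : ℕ) {m : ℕ}
    (hm : e + P.a i ≤ m) : h ^ e * P.b i ∈ F.L m :=
  F.mono hm (F.mul (F.h_pow_mem e) (P.mem i))

/-- the coefficients of the leading terms vanish -/
private theorem cbb_claim {F : Fil k h} {ι : Type} [Fintype ι] (P : PBas F ι) (M : ℕ) :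
    ∀ c : ι → k, (∀ i, M < P.a i → c i = 0) →
      (∀ N, M = N + 1 → ∑ i, c i • (h ^ (M - P.a i) * P.b i) ∈ F.L N) →
      (M = 0 → ∑ i, c i • (h ^ (M - P.a i) * P.b i) = 0) → c = 0 := by
  classical
  induction M with
  | zero =>
    intro c hc _ h0
    have h1 := h0 rfl
    refine P.ind 0 c (fun i hi => hc i (Nat.pos_of_ne_zero hi)) ?_
    have h2 : ∑ i, c i • P.b i = ∑ i, c i • (h ^ (0 - P.a i) * P.b i) := by
      refine Finset.sum_congr rfl fun i _ => ?_
      rw [Nat.zero_sub, pow_zero, one_mul]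
    rw [h2, h1]
    exact Submodule.zero_mem _
  | succ m ih =>
    intro c hc hN _
    have h1 := hN m rfl
    obtain ⟨c', hc'⟩ : ∃ c' : ι → k, ∀ i, c' i = if P.a i = m + 1 then c i else 0 := ⟨_, fun i => rfl⟩
    obtain ⟨c'', hc''⟩ : ∃ c'' : ι → k, ∀ i, c'' i = if P.a i ≤ m then c i else 0 := ⟨_, fun i => rfl⟩
    obtain ⟨y, hy⟩ : ∃ y : S, y = ∑ i, c'' i • (h ^ (m - P.a i) * P.b i) := ⟨_, rfl⟩
    have hyL : y ∈ F.L m := by
      rw [hy]
      refine Submodule.sum_mem _ fun i _ => ?_
      by_cases hi : P.a i ≤ m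
      · exact Submodule.smul_mem _ _ (cbb_pow P i _ (by omega))
      · rw [hc'', if_neg hi, zero_smul]
        exact Submodule.zero_mem _
    have hsum : ∑ i, c i • (h ^ (m + 1 - P.a i) * P.b i) = ∑ i, c' i • P.b i + h * y := by
      rw [hy, Finset.mul_sum, ← Finset.sum_add_distrib]
      refine Finset.sum_congr rfl fun i _ => ?_
      rw [hc', hc'']
      rcases lt_trichotomy (P.a i) (m + 1) with hi | hi | hi
      · rw [if_neg (by omega), if_pos (by omega), zero_smul, zero_add, mul_smul_comm, ← mul_assoc,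
          ← pow_succ', show m + 1 - P.a i = m - P.a i + 1 by omega]
      · rw [if_pos hi, if_neg (by omega), zero_smul, mul_zero, add_zero,
          show m + 1 - P.a i = 0 by omega, pow_zero, one_mul]
      · rw [if_neg (by omega), if_neg (by omega), hc i hi, zero_smul, zero_smul, zero_smul, mul_zero, add_zero]
    have h2 : c' = 0 := by
      refine P.ind (m + 1) c' (fun i hi => ?_) ?_
      · rw [hc', if_neg hi]
      · show _ ∈ F.L m ⊔ (F.L m).map (LinearMap.mulLeft k h)
        have h3 : ∑ i, c' i • P.b i = ∑ i, c i • (h ^ (m + 1 - P.a i) * P.b i) - h * y := by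
          rw [hsum, add_sub_cancel_right]
        rw [h3]
        exact Submodule.sub_mem _ (Submodule.mem_sup_left h1)
          (Submodule.mem_sup_right (Submodule.mem_map_of_mem (f := LinearMap.mulLeft k h) hyL))
    have h4 : h * y ∈ F.L m := by
      have h5 : h * y = ∑ i, c i • (h ^ (m + 1 - P.a i) * P.b i) := by
        rw [hsum, h2]
        simp
      rw [h5]
      exact h1
    have h6 : c'' = 0 := by
      refine ih c'' (fun i hi => ?_) ?_ ?_
      · rw [hc'', if_neg (by omega)]
      · intro N hN'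
        rw [← hy]
        refine F.div_h N y ?_
        rw [← hN']
        exact h4
      · intro hm0
        rw [← hy]
        refine F.div_h0 y ?_
        rw [← hm0]
        exact h4
    funext i
    show c i = 0
    rcases lt_trichotomy (P.a i) (m + 1) with hi | hi | hi
    · have h7 := congrFun h6 i
      rw [hc'', if_pos (by omega)] at h7
      exact h7
    · have h7 := congrFun h2 i
      rw [hc', if_pos hi] at h7
      exact h7
    · exact hc i hi

private theorem cbb_mem {F : Fil k h} {ι : Type} [Fintype ι] (P : PBas F ι) (p : ι → k[X]) (m : ℕ)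
    (hp : ∀ i e, m < e + P.a i → (p i).coeff e = 0) : ∑ i, aeval h (p i) * P.b i ∈ F.L m := by
  refine Submodule.sum_mem _ fun i _ => ?_
  rw [aeval_eq_sum_range, Finset.sum_mul]
  refine Submodule.sum_mem _ fun e _ => ?_
  rw [smul_mul_assoc]
  by_cases he : m < e + P.a i
  · rw [hp i e he, zero_smul]
    exact Submodule.zero_mem _
  · exact Submodule.smul_mem _ _ (cbb_pow P i e (by omega))

private theorem cbb_step {F : Fil k h} {ι : Type} [Fintype ι] (P : PBas F ι) (p : ι → k[X]) (m : ℕ)
    (hp : ∀ i e, m + 1 < e + P.a i → (p i).coeff e = 0) (hs : ∑ i, aeval h (p i) * P.b i ∈ F.L m) :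
    ∀ i e, m < e + P.a i → (p i).coeff e = 0 := by
  classical
  obtain ⟨c, hc⟩ : ∃ c : ι → k, ∀ i, c i = if P.a i ≤ m + 1 then (p i).coeff (m + 1 - P.a i) else 0 :=
    ⟨_, fun i => rfl⟩
  obtain ⟨r, hr⟩ : ∃ r : ι → k[X], ∀ i, r i = p i - monomial (m + 1 - P.a i) (c i) := ⟨_, fun i => rfl⟩
  have h1 : ∑ i, aeval h (r i) * P.b i ∈ F.L m := by
    refine cbb_mem P r m fun i e he => ?_
    rw [hr, coeff_sub, coeff_monomial]
    by_cases h2 : m + 1 < e + P.a i
    · rw [hp i e h2]
      by_cases h3 : P.a i ≤ m + 1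
      · rw [if_neg (by omega), sub_zero]
      · rw [hc, if_neg h3]
        simp
    · rw [if_pos (by omega), hc, if_pos (by omega), show m + 1 - P.a i = e by omega, sub_self]
  have h2 : ∑ i, c i • (h ^ (m + 1 - P.a i) * P.b i) =
      ∑ i, aeval h (p i) * P.b i - ∑ i, aeval h (r i) * P.b i := by
    rw [← Finset.sum_sub_distrib]
    refine Finset.sum_congr rfl fun i _ => ?_
    rw [hr, map_sub, aeval_monomial, ← Algebra.smul_def, ← sub_mul, sub_sub_cancel, smul_mul_assoc]
  have h3 : c = 0 := by
    refine cbb_claim P (m + 1) c (fun i hi => ?_) (fun N hN => ?_) (fun h0 => absurd h0 (Nat.succ_ne_zero m))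
    · rw [hc, if_neg (by omega)]
    · have hN' : N = m := by omega
      rw [hN', h2]
      exact Submodule.sub_mem _ hs h1
  intro i e he
  by_cases h4 : m + 1 < e + P.a i
  · exact hp i e h4
  · have h5 := congrFun h3 i
    rw [hc, if_pos (by omega), show m + 1 - P.a i = e by omega] at h5
    exact h5

private theorem cbb_iff {F : Fil k h} {ι : Type} [Fintype ι] (P : PBas F ι) (p : ι → k[X]) (m : ℕ) :
    (∀ i, p i = 0 ∨ (p i).natDegree + P.a i ≤ m) ↔ ∀ i e, m < e + P.a i → (p i).coeff e = 0 := by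
  constructor
  · intro h1 i e he
    rcases h1 i with h2 | h2
    · rw [h2, coeff_zero]
    · exact coeff_eq_zero_of_natDegree_lt (by omega)
  · intro h1 i
    by_cases h2 : p i = 0
    · exact Or.inl h2
    · right
      by_contra h3
      exact h2 (leadingCoeff_eq_zero.1 (h1 i _ (not_le.1 h3)))

theorem PBas.span {F : Fil k h} {ι : Type} [Fintype ι] (P : PBas F ι) (s : S) :
    ∃ p : ι → k[X], s = ∑ i, aeval h (p i) * P.b i := by
  obtain ⟨m, hm⟩ := F.exh s
  exact cbb_le P m hm

theorem PBas.mem_iff {F : Fil k h} {ι : Type} [Fintype ι] (P : PBas F ι) (p : ι → k[X]) (m : ℕ) :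
    ∑ i, aeval h (p i) * P.b i ∈ F.L m ↔ ∀ i, p i = 0 ∨ (p i).natDegree + P.a i ≤ m := by
  rw [cbb_iff P p m]
  constructor
  · intro hs
    have key : ∀ j : ℕ, (∀ i e, m + j < e + P.a i → (p i).coeff e = 0) →
        ∀ i e, m < e + P.a i → (p i).coeff e = 0 := by
      intro j
      induction j with
      | zero => exact fun h1 => h1
      | succ j ih =>
        intro h1
        exact ih (cbb_step P p (m + j) h1 (F.mono (Nat.le_add_right m j) hs))
    refine key (∑ i, ((p i).natDegree + P.a i)) fun i e he => ?_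
    refine coeff_eq_zero_of_natDegree_lt ?_
    have h1 : (p i).natDegree + P.a i ≤ ∑ i, ((p i).natDegree + P.a i) :=
      Finset.single_le_sum (f := fun i => (p i).natDegree + P.a i) (fun _ _ => Nat.zero_le _)
        (Finset.mem_univ i)
    omega
  · exact cbb_mem P p m

end Pool.Agent.SPC
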