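import Pool.Agent.SPC.CBasA
import Pool.Agent.SPC.CBasB

/-!
# A basis over `k[h]` adapted to the filtration

The dimension of `L m` is the sum of the numbers `m + 1 - a i`.
-/

noncomputable section

namespace Pool.Agent.SPC

open Polynomial TensorProduct

universe u v w

variable {k : Type u} {S : Type v} [Field k] [CommRing S] [Algebra k S] {h : S}

private theorem cbc_zero {F : Fil k h} {N : ℕ} (P : PBas F (Fin N)) (p : Fin N → k[X])
    (h0 : ∑ i, aeval h (p i) * P.b i = 0) (i : Fin N) : p i = 0 := by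
  have h1 : ∑ i, aeval h (X * p i) * P.b i = h * ∑ i, aeval h (p i) * P.b i := by
    rw [Finset.mul_sum]
    refine Finset.sum_congr rfl fun j _ => ?_
    rw [map_mul, aeval_X, mul_assoc]
  have h2 : ∑ i, aeval h (X * p i) * P.b i ∈ F.L 0 := by
    rw [h1, h0, mul_zero]
    exact Submodule.zero_mem _
  rcases (P.mem_iff (fun i => X * p i) 0).1 h2 i with h3 | h3
  · have h3' : X * p i = 0 := h3
    rcases mul_eq_zero.mp h3' with h4 | h4
    · exact absurd h4 X_ne_zero
    · exact h4
  · by_contra h4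
    have h5 : (X * p i).natDegree = (p i).natDegree + 1 := natDegree_X_mul h4
    have h3' : (X * p i).natDegree + P.a i ≤ 0 := h3
    omega

private def cbc_T {F : Fil k h} {N : ℕ} (P : PBas F (Fin N)) (m : ℕ) :
    (∀ i : Fin N, degreeLT k (m + 1 - P.a i)) →ₗ[k] S where
  toFun f := ∑ i, aeval h (f i : k[X]) * P.b i
  map_add' f g := by
    rw [← Finset.sum_add_distrib]
    refine Finset.sum_congr rfl fun i _ => ?_
    rw [Pi.add_apply, Submodule.coe_add, map_add, add_mul]
  map_smul' c f := by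
    rw [RingHom.id_apply, Finset.smul_sum]
    refine Finset.sum_congr rfl fun i _ => ?_
    rw [Pi.smul_apply, Submodule.coe_smul, map_smul, smul_mul_assoc]

private theorem cbc_inj {F : Fil k h} {N : ℕ} (P : PBas F (Fin N)) (m : ℕ) :
    Function.Injective (cbc_T P m) := by
  rw [injective_iff_map_eq_zero]
  intro f hf
  funext i
  apply Subtype.ext
  exact cbc_zero P (fun i => (f i : k[X])) hf i

private theorem cbc_range {F : Fil k h} {N : ℕ} (P : PBas F (Fin N)) (m : ℕ) :
    LinearMap.range (cbc_T P m) = F.L m := by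
  apply le_antisymm
  · rintro _ ⟨f, rfl⟩
    refine (P.mem_iff (fun i => (f i : k[X])) m).2 fun i => ?_
    by_cases h0 : (f i : k[X]) = 0
    · exact Or.inl h0
    · right
      have h1 : (f i : k[X]).degree < ((m + 1 - P.a i : ℕ) : WithBot ℕ) := mem_degreeLT.mp (f i).2
      have h2 : (f i : k[X]).natDegree < m + 1 - P.a i := (natDegree_lt_iff_degree_lt h0).mpr h1
      show (f i : k[X]).natDegree + P.a i ≤ m
      omega
  · intro s hs
    obtain ⟨p, hp⟩ := P.span s
    have h1 := (P.mem_iff p m).1 (by rw [← hp]; exact hs)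
    refine ⟨fun i => ⟨p i, ?_⟩, hp.symm⟩
    rw [mem_degreeLT]
    rcases h1 i with h2 | h2
    · rw [h2, degree_zero]
      exact WithBot.bot_lt_coe _
    · by_cases h0 : p i = 0
      · rw [h0, degree_zero]
        exact WithBot.bot_lt_coe _
      · rw [← natDegree_lt_iff_degree_lt h0]
        omega

private theorem cbc_dim {F : Fil k h} {N : ℕ} (P : PBas F (Fin N)) (m : ℕ) :
    Module.finrank k (F.L m) = ∑ i, (m + 1 - P.a i) := by
  have hd : ∀ n : ℕ, Module.finrank k (degreeLT k n) = n := by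
    intro n
    rw [(degreeLTEquiv k n).finrank_eq, Module.finrank_fin_fun]
  have hfin : ∀ n : ℕ, Module.Finite k (degreeLT k n) := fun n =>
    Module.Finite.equiv (degreeLTEquiv k n).symm
  have hfree : ∀ n : ℕ, Module.Free k (degreeLT k n) := fun n => inferInstance
  rw [← cbc_range P m, LinearMap.finrank_range_of_inj (cbc_inj P m), Module.finrank_pi_fintype]
  exact Finset.sum_congr rfl fun i _ => hd _

theorem PBas.card_eq {F : Fil k h} {D m₁ N : ℕ} (hg : F.Grows D m₁) (P : PBas F (Fin N)) :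
    N = D := by
  have h1 := hg (m₁ + ∑ i, P.a i) (Nat.le_add_right _ _)
  rw [cbc_dim P, cbc_dim P] at h1
  have h2 : ∑ i, (m₁ + ∑ i, P.a i + 1 + 1 - P.a i) = ∑ i, (m₁ + ∑ i, P.a i + 1 - P.a i) + N := by
    have h3 : ∑ i, (m₁ + ∑ i, P.a i + 1 + 1 - P.a i) =
        ∑ i : Fin N, ((m₁ + ∑ i, P.a i + 1 - P.a i) + 1) := by
      refine Finset.sum_congr rfl fun i _ => ?_
      have h4 : P.a i ≤ ∑ i, P.a i := Finset.single_le_sum (fun _ _ => Nat.zero_le _) (Finset.mem_univ i)
      omega
    rw [h3, Finset.sum_add_distrib]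
    simp
  omega

theorem exists_rbas (F : Fil k h) {D m₁ : ℕ} (hg : F.Grows D m₁) : Nonempty (RBas F D) := by
  obtain ⟨N, ⟨P⟩⟩ := exists_pbas F hg
  obtain rfl := P.card_eq hg
  exact ⟨⟨P.b, P.a, P.span, P.mem_iff⟩⟩

end Pool.Agent.SPC
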