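import Pool.Agent.SPC.CBasD

/-!
# Generators exist

Bases of complements of `U j` in `L j` for `j ≤ m₁ + 1`; for larger `j` we have `L j = U j`.
-/

noncomputable section

namespace Pool.Agent.SPC

open Polynomial

universe u v w

variable {k : Type u} {S : Type v} [Field k] [CommRing S] [Algebra k S] {h : S}

private theorem cba_compl (F : Fil k h) (j : ℕ) :
    ∃ W : Submodule k S, W ≤ F.L j ∧ F.L j ≤ F.U j ⊔ W ∧ Disjoint (F.U j) W := by
  have hU : F.U j ≤ F.L j := by
    cases j with
    | zero =>
      show (⊥ : Submodule k S) ≤ _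
      exact bot_le
    | succ m =>
      show F.L m ⊔ (F.L m).map (LinearMap.mulLeft k h) ≤ F.L (m + 1)
      refine sup_le (F.mono (Nat.le_succ m)) ?_
      rintro _ ⟨t, ht, rfl⟩
      have h1 := F.mul F.h_mem ht
      rw [Nat.add_comm] at h1
      exact h1
  obtain ⟨W, hW⟩ := Submodule.exists_isCompl (F.U j)
  refine ⟨W ⊓ F.L j, inf_le_right, ?_, ?_⟩
  · rw [← sup_inf_assoc_of_le W hU, hW.sup_eq_top, top_inf_eq]
  · exact hW.disjoint.mono_right inf_le_left

private theorem cba_tr {F : Fil k h} {ι κ : Type} [Fintype ι] [Fintype κ] (P : PBas F ι) (e : ι ≃ κ) :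
    Nonempty (PBas F κ) := by
  refine ⟨⟨fun x => P.b (e.symm x), fun x => P.a (e.symm x), fun x => P.mem _, fun m => ?_,
    fun m c hc hs => ?_⟩⟩
  · refine (P.gen m).trans (sup_le_sup_left (Submodule.span_mono ?_) _)
    rintro s ⟨i, hi, rfl⟩
    exact ⟨e i, by rw [Equiv.symm_apply_apply]; exact hi, by rw [Equiv.symm_apply_apply]⟩
  · have h1 : (fun i => c (e i)) = 0 := by
      refine P.ind m (fun i => c (e i)) (fun i hi => hc _ ?_) ?_
      · rw [Equiv.symm_apply_apply]
        exact hi
      · have h2 : ∑ i, c (e i) • P.b i = ∑ x, c x • P.b (e.symm x) := by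
          rw [← Equiv.sum_comp e (fun x => c x • P.b (e.symm x))]
          refine Finset.sum_congr rfl fun i _ => ?_
          rw [Equiv.symm_apply_apply]
        rw [h2]
        exact hs
    funext x
    have h3 := congrFun h1 (e.symm x)
    beta_reduce at h3
    rw [Equiv.apply_symm_apply] at h3
    exact h3

theorem exists_pbas (F : Fil k h) {D m₁ : ℕ} (hg : F.Grows D m₁) :
    ∃ N : ℕ, Nonempty (PBas F (Fin N)) := by
  classical
  choose W hWL hLW hdis using cba_compl F
  have hfin : ∀ j, Module.Finite k (W j) := by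
    intro j
    have := F.fin j
    exact Submodule.finiteDimensional_of_le (hWL j)
  obtain ⟨d, hd⟩ : ∃ d : ℕ → ℕ, ∀ j, Nonempty (Module.Basis (Fin (d j)) k (W j)) := by
    refine ⟨fun j => Module.finrank k (W j), fun j => ?_⟩
    have := hfin j
    exact ⟨Module.finBasis k (W j)⟩
  obtain ⟨β⟩ : Nonempty (∀ j, Module.Basis (Fin (d j)) k (W j)) := ⟨fun j => (hd j).some⟩
  obtain ⟨P⟩ : Nonempty (PBas F (Σ j : Fin (m₁ + 2), Fin (d j))) := by
    refine ⟨⟨fun x => (β x.1 x.2 : S), fun x => x.1, fun x => hWL _ (β x.1 x.2).2, fun m => ?_,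
      fun m c hc hs => ?_⟩⟩
    · by_cases hm : m < m₁ + 2
      · refine (hLW m).trans (sup_le_sup_left ?_ _)
        intro w hw
        have h1 := (β m).sum_repr ⟨w, hw⟩
        have h2 : w = ∑ i, ((β m).repr ⟨w, hw⟩ i) • (β m i : S) := by
          have h3 : ((∑ i, ((β m).repr ⟨w, hw⟩ i) • β m i : W m) : S) = w := congrArg Subtype.val h1
          rw [Submodule.coe_sum] at h3
          exact h3.symm
        rw [h2]
        refine Submodule.sum_mem _ fun i _ => Submodule.smul_mem _ _ (Submodule.subset_span ?_)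
        exact ⟨⟨⟨m, hm⟩, i⟩, rfl, rfl⟩
      · obtain ⟨m', rfl⟩ : ∃ m', m = m' + 1 := ⟨m - 1, by omega⟩
        refine le_sup_of_le_left ?_
        show F.L (m' + 1) ≤ F.L m' ⊔ (F.L m').map (LinearMap.mulLeft k h)
        intro s hs
        obtain ⟨t, ht, hst⟩ := F.exists_div hg (show m₁ < m' by omega) hs
        have h1 : s = (s - h * t) + h * t := by ring
        rw [h1]
        exact Submodule.add_mem _ (Submodule.mem_sup_left hst)
          (Submodule.mem_sup_right (Submodule.mem_map_of_mem (f := LinearMap.mulLeft k h) ht))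
    · by_cases hm : m < m₁ + 2
      · have h1 : ∑ x : (Σ j : Fin (m₁ + 2), Fin (d j)), c x • (β x.1 x.2 : S) =
            ∑ i, c ⟨⟨m, hm⟩, i⟩ • (β m i : S) := by
          rw [Fintype.sum_sigma, Finset.sum_eq_single (⟨m, hm⟩ : Fin (m₁ + 2))]
          · intro j _ hj
            refine Finset.sum_eq_zero fun i _ => ?_
            rw [hc ⟨j, i⟩ (fun h2 => hj (Fin.ext h2)), zero_smul]
          · intro h2
            exact absurd (Finset.mem_univ _) h2
        have h2 : ∑ i, c ⟨⟨m, hm⟩, i⟩ • (β m i : S) ∈ F.U m := by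
          rw [← h1]
          exact hs
        have h3 : ∑ i, c ⟨⟨m, hm⟩, i⟩ • (β m i : S) = 0 := by
          refine Submodule.disjoint_def.1 (hdis m) _ h2 ?_
          exact Submodule.sum_mem _ fun i _ => Submodule.smul_mem _ _ (β m i).2
        have h4 : ∑ i, c ⟨⟨m, hm⟩, i⟩ • β m i = 0 := by
          refine Subtype.ext ?_
          rw [Submodule.coe_zero, ← h3]
          simp
        have h5 := Fintype.linearIndependent_iff.1 (β m).linearIndependent _ h4
        funext x
        show c x = 0
        by_cases hx : (x.1 : ℕ) = m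
        · obtain ⟨⟨j, hj⟩, i⟩ := x
          have hx' : j = m := hx
          subst hx'
          exact h5 i
        · exact hc x hx
      · funext x
        refine hc x fun h1 => hm ?_
        rw [← h1]
        exact x.1.2
  exact ⟨_, cba_tr P (Fintype.equivFin _)⟩

end Pool.Agent.SPC
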