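import Pool.Agent.SPC.CGro

/-!
# Generators of the associated graded module over `k[h]`: definitions
-/

noncomputable section

namespace Pool.Agent.SPC

open Polynomial

universe u v w

variable {k : Type u} {S : Type v} [Field k] [CommRing S] [Algebra k S] {h : S}

/-- The part of `L m` that comes from smaller order: `L (m-1) + h L (m-1)`. -/
def Fil.U (F : Fil k h) : ℕ → Submodule k S
  | 0 => ⊥
  | m + 1 => F.L m ⊔ (F.L m).map (LinearMap.mulLeft k h)

/-- Elements `b i ∈ L (a i)` whose classes form bases of `L m / U m`. -/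
structure PBas (F : Fil k h) (ι : Type) [Fintype ι] where
  b : ι → S
  a : ι → ℕ
  mem : ∀ i, b i ∈ F.L (a i)
  gen : ∀ m, F.L m ≤ F.U m ⊔ Submodule.span k {s | ∃ i, a i = m ∧ b i = s}
  ind : ∀ (m : ℕ) (c : ι → k), (∀ i, a i ≠ m → c i = 0) → ∑ i, c i • b i ∈ F.U m → c = 0

end Pool.Agent.SPC
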