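import Pool.Agent.GSM.Reg

/-!
# The integral closure of `k[h]` is a Dedekind domain of finite type
-/

noncomputable section

namespace Pool.Agent.SPC

open Polynomial Pool.Agent.GSM

universe u v

variable {k : Type u} [Field k] [CharZero k] {L : Type v} [Field L] [Algebra k L]

/-- the integral closure as a ring -/
private def cdEquiv (k : Type u) [Field k] {L : Type v} [Field L] [Algebra k L] (h : L) :
    integralClosure (Algebra.adjoin k {h}) L ≃+* intCl k h where
  toFun s := ⟨s.1, s.2⟩
  invFun s := ⟨s.1, s.2⟩
  left_inv _ := rfl
  right_inv _ := rfl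
  map_mul' _ _ := rfl
  map_add' _ _ := rfl

open scoped IntermediateField.algebraAdjoinAdjoin in
theorem isDedekindDomain_intCl (h : L) (hh : Transcendental k h)
    (hfin : FiniteDimensional (IntermediateField.adjoin k {h}) L) :
    IsDedekindDomain (intCl k h) := by
  have e := Polynomial.algEquivOfTranscendental k h hh
  have h1 : IsPrincipalIdealRing (Algebra.adjoin k {h}) :=
    IsPrincipalIdealRing.of_surjective (e : k[X] →+* Algebra.adjoin k {h}) e.surjective
  have h2 : IsDedekindDomain (integralClosure (Algebra.adjoin k {h}) L) :=
    integralClosure.isDedekindDomain (Algebra.adjoin k {h}) (IntermediateField.adjoin k {h}) L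
  exact h2

open scoped IntermediateField.algebraAdjoinAdjoin in
theorem finiteType_intCl (h : L) (hh : Transcendental k h)
    (hfin : FiniteDimensional (IntermediateField.adjoin k {h}) L) :
    Algebra.FiniteType k (intCl k h) := by
  have e := Polynomial.algEquivOfTranscendental k h hh
  have h1 : IsPrincipalIdealRing (Algebra.adjoin k {h}) :=
    IsPrincipalIdealRing.of_surjective (e : k[X] →+* Algebra.adjoin k {h}) e.surjective
  have h3 : Module.Finite (Algebra.adjoin k {h}) (integralClosure (Algebra.adjoin k {h}) L) :=
    IsIntegralClosure.finite _ (IntermediateField.adjoin k {h}) L _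
  have h4 : Algebra.FiniteType k (Algebra.adjoin k {h}) :=
    Algebra.FiniteType.equiv inferInstance (Polynomial.algEquivOfTranscendental k h hh)
  have h5 : Algebra.FiniteType (Algebra.adjoin k {h}) (integralClosure (Algebra.adjoin k {h}) L) :=
    inferInstance
  have h6 : Algebra.FiniteType k (integralClosure (Algebra.adjoin k {h}) L) :=
    Algebra.FiniteType.trans h4 h5
  let f : integralClosure (Algebra.adjoin k {h}) L →ₐ[k] intCl k h :=
    { (cdEquiv k h : integralClosure (Algebra.adjoin k {h}) L →+* intCl k h) with
      commutes' := fun _ => rfl }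
  exact Algebra.FiniteType.of_surjective f (cdEquiv k h).surjective

end Pool.Agent.SPC
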