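import Pool.Agent.SPC.CFil

/-!
# Division with remainder by a monic element

`F.LB B n` is spanned by the `1 ⊗ h^e b_c` with `e + a c ≤ n`; induction on `j`.
-/

noncomputable section

namespace Pool.Agent.SPC

open Polynomial TensorProduct

universe u v w

variable {k : Type u} {S : Type v} [Field k] [CommRing S] [Algebra k S] {h : S}
  {B : Type w} [CommRing B] [Algebra k B]

theorem Fil.LB_mono (F : Fil k h) : Monotone (F.LB B) := by
  intro m n hmn
  exact Submodule.baseChange_mono B (F.mono hmn)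

theorem Fil.tmul_mem_LB (F : Fil k h) {m : ℕ} {s : S} (hs : s ∈ F.L m) (c : B) :
    c ⊗ₜ[k] s ∈ F.LB B m := by
  exact Submodule.tmul_mem_baseChange_of_mem c hs

theorem Fil.LB_mul (F : Fil k h) {m n : ℕ} {s t : B ⊗[k] S} (hs : s ∈ F.LB B m)
    (ht : t ∈ F.LB B n) : s * t ∈ F.LB B (m + n) := by
  have h1 : ∀ a ∈ F.L m, ∀ t ∈ F.LB B n, ((1 : B) ⊗ₜ[k] a) * t ∈ F.LB B (m + n) := by
    intro a ha
    have h2 : F.LB B n ≤ (F.LB B (m + n)).comap (LinearMap.mulLeft B ((1 : B) ⊗ₜ[k] a)) := by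
      unfold Fil.LB
      rw [Submodule.baseChange_eq_span B (F.L n), Submodule.span_le]
      rintro _ ⟨b, hb, rfl⟩
      show ((1 : B) ⊗ₜ[k] a) * ((1 : B) ⊗ₜ[k] b) ∈ (F.L (m + n)).baseChange B
      rw [Algebra.TensorProduct.tmul_mul_tmul]
      exact Submodule.tmul_mem_baseChange_of_mem _ (F.mul ha hb)
    exact fun t ht => h2 ht
  have h3 : F.LB B m ≤ (F.LB B (m + n)).comap (LinearMap.mulRight B t) := by
    rw [show F.LB B m = Submodule.span B ((F.L m).map (TensorProduct.mk k B S 1) : Set (B ⊗[k] S)) from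
      Submodule.baseChange_eq_span B (F.L m), Submodule.span_le]
    rintro _ ⟨a, ha, rfl⟩
    exact h1 a ha t ht
  exact h3 hs

theorem Fil.exists_mem_LB (F : Fil k h) (t : B ⊗[k] S) : ∃ m, t ∈ F.LB B m := by
  induction t using TensorProduct.induction_on with
  | zero => exact ⟨0, Submodule.zero_mem _⟩
  | tmul c s =>
    obtain ⟨m, hm⟩ := F.exh s
    exact ⟨m, F.tmul_mem_LB hm c⟩
  | add x y hx hy =>
    obtain ⟨m, hm⟩ := hx
    obtain ⟨n, hn⟩ := hy
    exact ⟨max m n, Submodule.add_mem _ (F.LB_mono (le_max_left m n) hm) (F.LB_mono (le_max_right m n) hn)⟩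

private theorem cdv_mem {F : Fil k h} {D : ℕ} (R : RBas F D) (e : ℕ) (c : Fin D) {n : ℕ}
    (hn : e + R.a c ≤ n) : h ^ e * R.b c ∈ F.L n := by
  have h1 := (R.mem_iff (fun i => if i = c then X ^ e else 0) n).2 (by
    intro i
    by_cases hi : i = c
    · right
      rw [if_pos hi, natDegree_X_pow, hi]
      exact hn
    · left
      exact if_neg hi)
  rw [Finset.sum_eq_single c] at h1
  · rw [if_pos rfl, map_pow, aeval_X] at h1
    exact h1
  · intro i _ hi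
    rw [if_neg hi, map_zero, zero_mul]
  · intro hc
    exact absurd (Finset.mem_univ c) hc

private theorem cdv_ind {F : Fil k h} {D : ℕ} (R : RBas F D) (N : Submodule B (B ⊗[k] S)) (n : ℕ)
    (hN : ∀ (e : ℕ) (c : Fin D), e + R.a c ≤ n → (1 : B) ⊗ₜ[k] (h ^ e * R.b c) ∈ N) : F.LB B n ≤ N := by
  rw [show F.LB B n = Submodule.span B ((F.L n).map (TensorProduct.mk k B S 1) : Set (B ⊗[k] S)) from
    Submodule.baseChange_eq_span B (F.L n), Submodule.span_le]
  rintro _ ⟨s, hs, rfl⟩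
  show (1 : B) ⊗ₜ[k] s ∈ N
  obtain ⟨p, hp⟩ := R.span s
  have h1 : ∀ i, p i = 0 ∨ (p i).natDegree + R.a i ≤ n := by
    rw [← R.mem_iff p n, ← hp]
    exact hs
  rw [hp, TensorProduct.tmul_sum]
  refine Submodule.sum_mem _ fun i _ => ?_
  rcases h1 i with h2 | h2
  · rw [h2, map_zero, zero_mul, TensorProduct.tmul_zero]
    exact Submodule.zero_mem _
  · rw [aeval_eq_sum_range, Finset.sum_mul, TensorProduct.tmul_sum]
    refine Submodule.sum_mem _ fun e he => ?_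
    rw [smul_mul_assoc, TensorProduct.tmul_smul]
    refine Submodule.smul_of_tower_mem N _ (hN e i ?_)
    have h3 := Finset.mem_range.1 he
    omega

/-- the elements which have a remainder -/
private def cdv_N {F : Fil k h} {D : ℕ} (R : RBas F D) (m : ℕ) (l : B ⊗[k] S) (j : ℕ) :
    Submodule B (B ⊗[k] S) where
  carrier := {t | ∃ (c : Fin (m + 1) × Fin D → B), ∃ s ∈ F.LB B j,
      t = ∑ x, c x • ((1 : B) ⊗ₜ[k] (h ^ (x.1 : ℕ) * R.b x.2)) + monic h m l * s}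
  add_mem' := by
    rintro _ _ ⟨c, s, hs, rfl⟩ ⟨c', s', hs', rfl⟩
    refine ⟨fun x => c x + c' x, s + s', Submodule.add_mem _ hs hs', ?_⟩
    rw [mul_add, add_add_add_comm, ← Finset.sum_add_distrib]
    congr 1
    refine Finset.sum_congr rfl fun x _ => ?_
    rw [add_smul]
  zero_mem' := ⟨fun _ => 0, 0, Submodule.zero_mem _, by simp⟩
  smul_mem' := by
    rintro a _ ⟨c, s, hs, rfl⟩
    refine ⟨fun x => a * c x, a • s, Submodule.smul_mem _ _ hs, ?_⟩
    rw [smul_add, Finset.smul_sum, mul_smul_comm]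
    congr 1
    refine Finset.sum_congr rfl fun x _ => ?_
    rw [mul_smul]

private theorem cdv_bas {F : Fil k h} {D : ℕ} (R : RBas F D) (m : ℕ) (l : B ⊗[k] S) (j : ℕ) (e : ℕ)
    (he : e ≤ m) (c : Fin D) : (1 : B) ⊗ₜ[k] (h ^ e * R.b c) ∈ cdv_N R m l j := by
  refine ⟨fun x => if x = (⟨e, Nat.lt_succ_of_le he⟩, c) then 1 else 0, 0, Submodule.zero_mem _, ?_⟩
  rw [mul_zero, add_zero, Finset.sum_eq_single (⟨e, Nat.lt_succ_of_le he⟩, c)]
  · beta_reduce
    rw [if_pos rfl, one_smul]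
  · intro x _ hx
    beta_reduce
    rw [if_neg hx, zero_smul]
  · intro hc
    exact absurd (Finset.mem_univ _) hc

private theorem cdv_one {F : Fil k h} {D : ℕ} (R : RBas F D) {m : ℕ} {l : B ⊗[k] S} (hl : l ∈ F.LB B m)
    (j : ℕ) (hj : F.LB B (m + j) ≤ cdv_N R m l j) (e : ℕ) (c : Fin D) (he : e + R.a c ≤ j + (m + 1)) :
    (1 : B) ⊗ₜ[k] (h ^ e * R.b c) ∈ cdv_N R m l j := by
  by_cases hem : e ≤ m
  · exact cdv_bas R m l j e hem c
  · obtain ⟨t, ht⟩ : ∃ t : S, t = h ^ (e - (m + 1)) * R.b c := ⟨_, rfl⟩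
    have htL : t ∈ F.L j := by
      rw [ht]
      exact cdv_mem R _ c (by omega)
    have h1 : h ^ e * R.b c = h ^ (m + 1) * t := by
      rw [ht, ← mul_assoc, ← pow_add, show m + 1 + (e - (m + 1)) = e by omega]
    have h2 : (1 : B) ⊗ₜ[k] (h ^ e * R.b c) =
        monic h m l * ((1 : B) ⊗ₜ[k] t) + l * ((1 : B) ⊗ₜ[k] t) := by
      have h3 : (1 : B) ⊗ₜ[k] (h ^ e * R.b c) = ((1 : B) ⊗ₜ[k] (h ^ (m + 1))) * ((1 : B) ⊗ₜ[k] t) := by
        rw [Algebra.TensorProduct.tmul_mul_tmul, one_mul, h1]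
      have h5 : ((1 : B) ⊗ₜ[k] (h ^ (m + 1))) = monic h m l + l := by
        unfold monic
        rw [sub_add_cancel, Algebra.TensorProduct.tmul_pow, one_pow]
      rw [h3, h5, add_mul]
    rw [h2]
    refine Submodule.add_mem _ ?_ (hj (F.LB_mul hl (F.tmul_mem_LB htL 1)))
    refine ⟨fun _ => 0, _, F.tmul_mem_LB htL 1, ?_⟩
    simp

private theorem cdv_le {F : Fil k h} {D : ℕ} (R : RBas F D) {m : ℕ} {l : B ⊗[k] S} (hl : l ∈ F.LB B m)
    (j : ℕ) : F.LB B (j + (m + 1)) ≤ cdv_N R m l j := by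
  induction j with
  | zero =>
    refine cdv_ind R _ _ fun e c he => cdv_one R hl 0 ?_ e c he
    refine cdv_ind R _ _ fun e c he => cdv_bas R m l 0 e (by omega) c
  | succ j ih =>
    refine cdv_ind R _ _ fun e c he => cdv_one R hl (j + 1) ?_ e c he
    rw [show m + (j + 1) = j + (m + 1) by omega]
    refine ih.trans ?_
    rintro _ ⟨c, s, hs, rfl⟩
    exact ⟨c, s, F.LB_mono (Nat.le_succ j) hs, rfl⟩

theorem exists_div' {F : Fil k h} {D : ℕ} (R : RBas F D) {m : ℕ} {l : B ⊗[k] S}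
    (hl : l ∈ F.LB B m) (j : ℕ) {t : B ⊗[k] S} (ht : t ∈ F.LB B (j + (m + 1))) :
    ∃ (c : Fin (m + 1) × Fin D → B), ∃ s ∈ F.LB B j,
      t = ∑ x, c x • ((1 : B) ⊗ₜ[k] (h ^ (x.1 : ℕ) * R.b x.2)) + monic h m l * s := by
  exact cdv_le R hl j ht

end Pool.Agent.SPC
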