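import Pool.Agent.GSM.Reg

/-!
# The integral closure of `k[1/h]` modulo `1/h`
-/

noncomputable section

namespace Pool.Agent.SPC

open Polynomial Pool.Agent.GSM

universe u v

variable {k : Type u} [Field k] [CharZero k] {L : Type v} [Field L] [Algebra k L]

theorem exists_gens (h : L) (hh : Transcendental k h)
    (hfin : FiniteDimensional (IntermediateField.adjoin k {h}) L) :
    ∃ (C : ℕ) (b : Fin C → L), ∀ x ∈ intCl k h⁻¹, ∃ (c : Fin C → k), ∃ x' ∈ intCl k h⁻¹,
      x = ∑ i, c i • b i + h⁻¹ * x' := by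
  have heq : IntermediateField.adjoin k {h⁻¹} = IntermediateField.adjoin k {h} := by
    refine le_antisymm ?_ ?_
    · rw [IntermediateField.adjoin_simple_le_iff]
      exact inv_mem (IntermediateField.mem_adjoin_simple_self k h)
    · rw [IntermediateField.adjoin_simple_le_iff]
      have h1 := inv_mem (IntermediateField.mem_adjoin_simple_self k h⁻¹)
      rwa [inv_inv] at h1
  have hh' : Transcendental k h⁻¹ := fun h1 => hh (IsAlgebraic.inv_iff.1 h1)
  have hfin' : FiniteDimensional (IntermediateField.adjoin k {h⁻¹}) L := by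
    rw [heq]
    exact hfin
  obtain ⟨g, hg, ⟨ρ⟩⟩ : ∃ g : intCl k h⁻¹, (g : L) = h⁻¹ ∧ Nonempty (RegRep k (intCl k h⁻¹) g) :=
    ⟨⟨h⁻¹, self_mem_intCl h⁻¹⟩, rfl, exists_regRep h⁻¹ hh' hfin'⟩
  obtain ⟨c, hc⟩ := ρ.one_b
  refine ⟨ρ.d + 1, fun i => (ρ.b i : L), fun x hx => ?_⟩
  obtain ⟨s, hs⟩ : ∃ s : intCl k h⁻¹, s = ⟨x, hx⟩ := ⟨_, rfl⟩
  obtain ⟨q, hq⟩ : ∃ q : Fin (ρ.d + 1) → k[X], q = fun i => ∑ j, c j * ρ.Λ s i j := ⟨_, rfl⟩
  have hmul := ρ.mul_b
  have h1 : s = ∑ i, aeval g (q i) * ρ.b i := by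
    calc s = s * 1 := (mul_one s).symm
      _ = s * ∑ j, aeval g (c j) * ρ.b j := by rw [← hc]
      _ = ∑ j, aeval g (c j) * (s * ρ.b j) := by
        rw [Finset.mul_sum]
        exact Finset.sum_congr rfl fun j _ => by ring
      _ = ∑ j, ∑ i, aeval g (c j * ρ.Λ s i j) * ρ.b i := by
        refine Finset.sum_congr rfl fun j _ => ?_
        rw [hmul, Finset.mul_sum]
        refine Finset.sum_congr rfl fun i _ => ?_
        rw [map_mul, mul_assoc]
      _ = ∑ i, aeval g (q i) * ρ.b i := by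
        rw [Finset.sum_comm]
        refine Finset.sum_congr rfl fun i _ => ?_
        rw [hq, map_sum, Finset.sum_mul]
  have h2 : ∀ i, aeval g (q i) = aeval g (divX (q i)) * g + algebraMap k _ ((q i).coeff 0) := by
    intro i
    conv_lhs => rw [← divX_mul_X_add (q i)]
    rw [map_add, map_mul, aeval_X, aeval_C]
  have h3 : s = ∑ i, (q i).coeff 0 • ρ.b i + g * ∑ i, aeval g (divX (q i)) * ρ.b i := by
    rw [Finset.mul_sum, ← Finset.sum_add_distrib]
    refine h1.trans (Finset.sum_congr rfl fun i _ => ?_)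
    rw [h2, Algebra.smul_def]
    ring
  refine ⟨fun i => (q i).coeff 0, ((∑ i, aeval g (divX (q i)) * ρ.b i : intCl k h⁻¹) : L),
    Subtype.coe_prop _, ?_⟩
  have h4 := congrArg (fun y : intCl k h⁻¹ => (y : L)) h3
  have h5 : (s : L) = x := by rw [hs]
  rw [← h5]
  refine h4.trans ?_
  push_cast
  rw [hg]

end Pool.Agent.SPC
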