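import Pool.Agent.GSM.Reg

/-!
# Elements integral over `k[h]` and over `k[1/h]` are constants
-/

noncomputable section

namespace Pool.Agent.SPC

open Polynomial Pool.Agent.GSM

universe u v

variable {k : Type u} [Field k] [IsAlgClosed k] {L : Type v} [Field L] [Algebra k L]

open scoped IntermediateField.algebraAdjoinAdjoin in
private theorem cexb_coeff {k : Type u} [Field k] {L : Type v} [Field L] [Algebra k L] (g : L)
    (hg : Transcendental k g) (K : IntermediateField k L) (hK : K = IntermediateField.adjoin k {g})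
    {x : L} (hx : x ∈ intCl k g) (i : ℕ) :
    (((minpoly K x).coeff i : K) : L) ∈ Algebra.adjoin k {g} := by
  subst hK
  have e := Polynomial.algEquivOfTranscendental k g hg
  haveI h1 : IsPrincipalIdealRing (Algebra.adjoin k {g}) :=
    IsPrincipalIdealRing.of_surjective (e : k[X] →+* Algebra.adjoin k {g}) e.surjective
  have hx' : IsIntegral (Algebra.adjoin k {g}) x := hx
  have h2 := minpoly.isIntegrallyClosed_eq_field_fractions' (IntermediateField.adjoin k {g}) hx'
  rw [h2, coeff_map]
  exact ((minpoly (Algebra.adjoin k {g}) x).coeff i).2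

private theorem cexb_const {k : Type u} [Field k] {L : Type v} [Field L] [Algebra k L] (h : L)
    (hh : Transcendental k h) {y : L} (hy : y ∈ Algebra.adjoin k {h})
    (hy' : y ∈ Algebra.adjoin k {h⁻¹}) : ∃ c : k, y = algebraMap k L c := by
  have h0 : h ≠ 0 := by
    rintro rfl
    exact hh (isAlgebraic_zero)
  rw [Algebra.adjoin_singleton_eq_range_aeval] at hy hy'
  obtain ⟨p, hp⟩ := hy
  obtain ⟨q, hq⟩ := hy'
  have hp' : aeval h p = y := hp
  have hq' : aeval h⁻¹ q = y := hq
  letI : Invertible (h⁻¹) := invertibleOfNonzero (inv_ne_zero h0)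
  have h1 := eval₂_reverse_mul_pow (algebraMap k L) (h⁻¹) q
  rw [invOf_eq_inv, inv_inv] at h1
  have h2 : aeval h (reverse q) * (h⁻¹) ^ q.natDegree = y := by
    rw [← hq']
    exact h1
  have h3 : aeval h (p * X ^ q.natDegree) = aeval h (reverse q) := by
    rw [map_mul, map_pow, aeval_X, hp', ← h2, mul_assoc, ← mul_pow, inv_mul_cancel₀ h0, one_pow,
      mul_one]
  have h4 : p * X ^ q.natDegree = reverse q := (transcendental_iff_injective.1 hh) h3
  by_cases hp0 : p = 0
  · refine ⟨0, ?_⟩
    rw [← hp', hp0, map_zero, map_zero]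
  · have h5 := congrArg natDegree h4
    rw [natDegree_mul_X_pow _ hp0] at h5
    have h6 := reverse_natDegree_le q
    have h7 : p.natDegree = 0 := by omega
    refine ⟨p.coeff 0, ?_⟩
    rw [← hp']
    conv_lhs => rw [eq_C_of_natDegree_eq_zero h7]
    rw [aeval_C]

theorem const_of_mem (h : L) (hh : Transcendental k h) {x : L} (hx : x ∈ intCl k h)
    (hx' : x ∈ intCl k h⁻¹) : ∃ c : k, x = algebraMap k L c := by
  have hh' : Transcendental k h⁻¹ := fun h1 => hh (by
    have h2 := h1.inv
    rwa [inv_inv] at h2)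
  have hK : IntermediateField.adjoin k {h} = IntermediateField.adjoin k {h⁻¹} := by
    apply le_antisymm
    · rw [IntermediateField.adjoin_simple_le_iff]
      have h1 := (IntermediateField.adjoin k {h⁻¹}).inv_mem
        (IntermediateField.mem_adjoin_simple_self k h⁻¹)
      rwa [inv_inv] at h1
    · rw [IntermediateField.adjoin_simple_le_iff]
      exact (IntermediateField.adjoin k {h}).inv_mem (IntermediateField.mem_adjoin_simple_self k h)
  obtain ⟨K, hKd⟩ : ∃ K, K = IntermediateField.adjoin k {h} := ⟨_, rfl⟩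
  have hc : ∀ i, ∃ c : k, (((minpoly K x).coeff i : K) : L) = algebraMap k L c := fun i =>
    cexb_const h hh (cexb_coeff h hh K hKd hx i) (cexb_coeff h⁻¹ hh' K (hKd.trans hK) hx' i)
  -- `x` is integral over `K`
  have hxK : IsIntegral K x := by
    have h1 : IsIntegral (Algebra.adjoin k {h}) x := hx
    have h2 : Algebra.adjoin k {h} ≤ K.toSubalgebra := by
      rw [hKd]
      exact IntermediateField.algebra_adjoin_le_adjoin k {h}
    obtain ⟨P, hP, hPx⟩ := h1
    refine ⟨P.map (Subalgebra.inclusion h2 : Algebra.adjoin k {h} →+* K.toSubalgebra), hP.map _, ?_⟩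
    rw [eval₂_map]
    exact hPx
  have hm := minpoly.monic hxK
  have hl : minpoly K x ∈ lifts (algebraMap k K) := by
    rw [lifts_iff_coeff_lifts]
    intro i
    obtain ⟨c, hc'⟩ := hc i
    refine ⟨c, ?_⟩
    apply Subtype.ext
    rw [hc']
    rfl
  obtain ⟨P, hP1, _, hP2⟩ := lifts_and_natDegree_eq_and_monic hl hm
  have hxk : IsIntegral k x := by
    refine ⟨P, hP2, ?_⟩
    have h1 := minpoly.aeval K x
    rw [← hP1, aeval_def, eval₂_map] at h1
    rw [← h1]
    rfl
  have h2 := IsAlgClosed.degree_eq_one_of_irreducible k (minpoly.irreducible hxk)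
  obtain ⟨c, hc⟩ := minpoly.mem_range_of_degree_eq_one k x h2
  exact ⟨c, hc.symm⟩

theorem inv_notMem (h : L) (hh : Transcendental k h) : h⁻¹ ∉ intCl k h := by
  intro h1
  obtain ⟨c, hc⟩ := const_of_mem h hh h1 (self_mem_intCl h⁻¹)
  apply hh
  have h2 : h = algebraMap k L c⁻¹ := by
    rw [map_inv₀, ← hc, inv_inv]
  rw [h2]
  exact isAlgebraic_algebraMap _

end Pool.Agent.SPC
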