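import Pool.Agent.GSM.Reg

/-!
# Elements integral over `k[h]` are integral over `k[1/h]` after dividing by a power of `h`

Clear the denominators in an equation of integral dependence of `x h⁻¹^m`, `m` large.
-/

noncomputable section

namespace Pool.Agent.SPC

open Polynomial Pool.Agent.GSM

universe u v

variable {k : Type u} [Field k] {L : Type v} [Field L] [Algebra k L]

private theorem cexc_adj {h : L} (h0 : h ≠ 0) {a : L} (ha : a ∈ Algebra.adjoin k {h}) :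
    ∃ m : ℕ, ∀ m' : ℕ, m ≤ m' → a * h⁻¹ ^ m' ∈ Algebra.adjoin k {h⁻¹} := by
  have hi : h⁻¹ ∈ Algebra.adjoin k {h⁻¹} := Algebra.self_mem_adjoin_singleton k h⁻¹
  induction ha using Algebra.adjoin_induction with
  | mem x hx =>
    rw [Set.mem_singleton_iff] at hx
    subst hx
    refine ⟨1, fun m' hm => ?_⟩
    obtain ⟨j, rfl⟩ := Nat.exists_eq_add_of_le hm
    rw [pow_add, pow_one, ← mul_assoc, mul_inv_cancel₀ h0, one_mul]
    exact Subalgebra.pow_mem _ hi j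
  | algebraMap r =>
    exact ⟨0, fun m' _ => Subalgebra.mul_mem _ (Subalgebra.algebraMap_mem _ r) (Subalgebra.pow_mem _ hi m')⟩
  | add x y _ _ hx hy =>
    obtain ⟨m, hm⟩ := hx
    obtain ⟨l, hl⟩ := hy
    refine ⟨max m l, fun m' hm' => ?_⟩
    rw [add_mul]
    exact Subalgebra.add_mem _ (hm m' (le_trans (le_max_left _ _) hm')) (hl m' (le_trans (le_max_right _ _) hm'))
  | mul x y _ _ hx hy =>
    obtain ⟨m, hm⟩ := hx
    obtain ⟨l, hl⟩ := hy
    refine ⟨m + l, fun m' hm' => ?_⟩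
    obtain ⟨j, rfl⟩ := Nat.exists_eq_add_of_le hm'
    have e : x * y * h⁻¹ ^ (m + l + j) = (x * h⁻¹ ^ m) * (y * h⁻¹ ^ (l + j)) := by
      rw [add_assoc, pow_add]
      ring
    rw [e]
    exact Subalgebra.mul_mem _ (hm m le_rfl) (hl _ (Nat.le_add_right _ _))

theorem exists_pow (h : L) (hh : Transcendental k h) {x : L} (hx : x ∈ intCl k h) :
    ∃ m : ℕ, x * h⁻¹ ^ m ∈ intCl k h⁻¹ := by
  have h0 : h ≠ 0 := by
    rintro rfl
    exact hh (isAlgebraic_zero)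
  obtain ⟨P, hP, hx0⟩ := (mem_intCl.1 hx : IsIntegral (Algebra.adjoin k {h}) x)
  set n := P.natDegree with hn
  have hch : ∀ i : ℕ, ∃ m : ℕ, ∀ m' : ℕ, m ≤ m' → (P.coeff i : L) * h⁻¹ ^ m' ∈ Algebra.adjoin k {h⁻¹} :=
    fun i => cexc_adj h0 (P.coeff i).2
  choose M hM using hch
  set m := (Finset.range n).sup M + 1 with hm
  have hb : ∀ i : Fin n, (P.coeff i : L) * h⁻¹ ^ (m * (n - i)) ∈ Algebra.adjoin k {h⁻¹} := by
    intro i
    refine hM i _ ?_
    have h1 : M i ≤ (Finset.range n).sup M := Finset.le_sup (f := M) (Finset.mem_range.2 i.2)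
    have h2 : 1 ≤ n - (i : ℕ) := by have := i.2; omega
    calc M i ≤ m := by omega
      _ = m * 1 := (mul_one _).symm
      _ ≤ m * (n - i) := Nat.mul_le_mul le_rfl h2
  refine ⟨m, ?_⟩
  rw [mem_intCl]
  set f : Fin n → Algebra.adjoin k {h⁻¹} := fun i => ⟨(P.coeff i : L) * h⁻¹ ^ (m * (n - i)), hb i⟩ with hf
  refine ⟨X ^ n + ∑ i : Fin n, C (f i) * X ^ (i : ℕ), monic_X_pow_add (degree_sum_fin_lt f), ?_⟩
  rw [eval₂_add, eval₂_X_pow, eval₂_finsetSum]
  have h1 : eval₂ (algebraMap (Algebra.adjoin k {h}) L) x P =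
      x ^ n + ∑ i : Fin n, (P.coeff i : L) * x ^ (i : ℕ) := by
    conv_lhs => rw [hP.as_sum]
    rw [eval₂_add, eval₂_X_pow, eval₂_finsetSum, ← hn, Finset.sum_range]
    congr 1
    refine Finset.sum_congr rfl fun i _ => ?_
    rw [eval₂_mul, eval₂_C, eval₂_X_pow]
    rfl
  rw [h1] at hx0
  have h2 : (x * h⁻¹ ^ m) ^ n + ∑ i : Fin n, eval₂ (algebraMap (Algebra.adjoin k {h⁻¹}) L) (x * h⁻¹ ^ m)
      (C (f i) * X ^ (i : ℕ)) = h⁻¹ ^ (m * n) * (x ^ n + ∑ i : Fin n, (P.coeff i : L) * x ^ (i : ℕ)) := by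
    rw [mul_add, Finset.mul_sum, mul_pow, ← pow_mul, mul_comm (x ^ n)]
    congr 1
    refine Finset.sum_congr rfl fun i _ => ?_
    rw [eval₂_mul, eval₂_C, eval₂_X_pow]
    have e1 : algebraMap (Algebra.adjoin k {h⁻¹}) L (f i) = (P.coeff i : L) * h⁻¹ ^ (m * (n - i)) := rfl
    have e2 : m * n = m * (n - i) + m * i := by
      rw [← mul_add, Nat.sub_add_cancel i.2.le]
    rw [e1, e2, pow_add h⁻¹ (m * (n - (i : ℕ))), mul_pow x, ← pow_mul h⁻¹ m (i : ℕ)]
    ring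
  rw [h2, hx0, mul_zero]

end Pool.Agent.SPC
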