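import Pool.Agent.SPC.CFil
import Pool.Agent.SPC.CExA
import Pool.Agent.SPC.CExB
import Pool.Agent.SPC.CExC

/-!
# The filtration by pole order exists

MODULE SPC-CEx. PLAN. `L m = {s : intCl k h | s * h⁻¹ ^ m ∈ intCl k h⁻¹}` (a `k`-subspace).
`mono`: multiply by `h⁻¹ ∈ intCl k h⁻¹`. `one`, `mul`, `h_mem` clear (`h * h⁻¹ = 1`). `div_h`:
`(h s) h⁻¹^(m+1) = s h⁻¹^m`. `div_h0`: `x = h s` lies in both integral closures, so it is a constant `c`
(`const_of_mem`); if `c ≠ 0` then `h⁻¹ = c⁻¹ s ∈ intCl k h`, excluded by `inv_notMem`; so `x = 0`.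
`exh`: `exists_pow`. Finite dimension and `bdd`: `L 0` is the line of constants (`const_of_mem`). For
`s ∈ L (m+1)` write `s h⁻¹^(m+1) = ∑ c_i b_i + h⁻¹ x'` (`exists_gens`). If two elements `s, s'` have the
same coefficients for some choice then `(s - s') h⁻¹^(m+1) ∈ h⁻¹ * intCl k h⁻¹`, so `s - s' ∈ L m`:
CLEANER: let `V = intCl k h⁻¹` and `V₁ = h⁻¹ V` (subspaces of `L`); `V / V₁` is spanned by the classes of
those `b_i`..., precisely `V ≤ span (b_i) ⊔ V₁`, so `finrank (V / V₁) ≤ C`; the map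
`L (m+1) → V / V₁`, `s ↦ [s h⁻¹^(m+1)]` has kernel `L m`, so `finrank L (m+1) ≤ finrank L m + C`.
-/

noncomputable section

namespace Pool.Agent.SPC

open Polynomial Pool.Agent.GSM

universe u v

variable {k : Type u} [Field k] [IsAlgClosed k] [CharZero k] {L : Type v} [Field L] [Algebra k L]

/-- the functions whose poles are at most those of `h ^ m` -/
private def LL (h : L) (m : ℕ) : Submodule k (intCl k h) :=
  (Subalgebra.toSubmodule (intCl k h⁻¹)).comap
    ((LinearMap.mulRight k (h⁻¹ ^ m)).comp (intCl k h).val.toLinearMap)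

omit [IsAlgClosed k] [CharZero k] in
private theorem mem_LL (h : L) (m : ℕ) (s : intCl k h) :
    s ∈ LL (k := k) h m ↔ (s : L) * h⁻¹ ^ m ∈ intCl k h⁻¹ := Iff.rfl

omit [IsAlgClosed k] [CharZero k] in
private theorem ne_zero_of_tr (h : L) (hh : Transcendental k h) : h ≠ 0 := by
  rintro rfl
  exact hh isAlgebraic_zero

/-- the multiples of `1 / h` -/
private def W1 (k : Type u) [Field k] {L : Type v} [Field L] [Algebra k L] (h : L) : Submodule k L :=
  (Subalgebra.toSubmodule (intCl k h⁻¹)).map (LinearMap.mulLeft k h⁻¹)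

omit [IsAlgClosed k] [CharZero k] in
private theorem mem_W1 (h : L) (hh : Transcendental k h) (m : ℕ) (s : L) :
    s * h⁻¹ ^ (m + 1) ∈ W1 k h ↔ s * h⁻¹ ^ m ∈ intCl k h⁻¹ := by
  have h0 := ne_zero_of_tr h hh
  constructor
  · rintro ⟨x, hx, hx2⟩
    have h1 : h⁻¹ * x = s * h⁻¹ ^ (m + 1) := hx2
    have h2 : x = s * h⁻¹ ^ m := by
      have h3 : h * (h⁻¹ * x) = h * (s * h⁻¹ ^ (m + 1)) := by rw [h1]
      rw [← mul_assoc, mul_inv_cancel₀ h0, one_mul] at h3
      rw [h3, pow_succ]
      field_simp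
    rw [← h2]
    exact hx
  · intro hx
    refine ⟨s * h⁻¹ ^ m, hx, ?_⟩
    show h⁻¹ * (s * h⁻¹ ^ m) = s * h⁻¹ ^ (m + 1)
    ring

/-- the leading part -/
private def ps (h : L) (m : ℕ) : intCl k h →ₗ[k] L ⧸ W1 k h :=
  (W1 k h).mkQ.comp ((LinearMap.mulRight k (h⁻¹ ^ m)).comp (intCl k h).val.toLinearMap)

omit [IsAlgClosed k] [CharZero k] in
private theorem ps_apply (h : L) (m : ℕ) (s : intCl k h) :
    ps (k := k) h m s = (W1 k h).mkQ ((s : L) * h⁻¹ ^ m) := rfl

omit [IsAlgClosed k] [CharZero k] in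
private theorem ps_eq_zero (h : L) (hh : Transcendental k h) (m : ℕ) (s : intCl k h)
    (hs : ps (k := k) h (m + 1) s = 0) : s ∈ LL (k := k) h m := by
  rw [ps_apply, Submodule.mkQ_apply, Submodule.Quotient.mk_eq_zero] at hs
  exact (mem_W1 h hh m s).1 hs

omit [IsAlgClosed k] in
private theorem exists_Q (h : L) (hh : Transcendental k h)
    (hfin : FiniteDimensional (IntermediateField.adjoin k {h}) L) :
    ∃ (C : ℕ) (Q : Submodule k (L ⧸ W1 k h)), Module.Finite k Q ∧ Module.finrank k Q ≤ C ∧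
      ∀ m : ℕ, (LL (k := k) h (m + 1)).map (ps (k := k) h (m + 1)) ≤ Q := by
  obtain ⟨C, b, hb⟩ := exists_gens h hh hfin
  have hfs : Module.Finite k (Submodule.span k (Set.range b)) :=
    Module.Finite.span_of_finite k (Set.finite_range b)
  refine ⟨C, (Submodule.span k (Set.range b)).map (W1 k h).mkQ, ?_, ?_, ?_⟩
  · infer_instance
  · refine (Submodule.finrank_map_le _ _).trans ?_
    have h1 := finrank_range_le_card (R := k) b
    rw [Fintype.card_fin] at h1
    exact h1
  · intro m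
    rintro _ ⟨s, hs, rfl⟩
    obtain ⟨c, x', hx', hx⟩ := hb _ ((mem_LL h (m + 1) s).1 hs)
    rw [ps_apply, hx]
    refine ⟨∑ i, c i • b i, Submodule.sum_mem _ fun i _ => Submodule.smul_mem _ _
      (Submodule.subset_span (Set.mem_range_self i)), ?_⟩
    rw [map_add, left_eq_add, Submodule.mkQ_apply, Submodule.Quotient.mk_eq_zero]
    exact ⟨x', hx', rfl⟩

omit [CharZero k] in
private theorem fin_zero (h : L) (hh : Transcendental k h) :
    (LL (k := k) h 0).FG := by
  refine ⟨{1}, le_antisymm ?_ ?_⟩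
  · rw [Submodule.span_le]
    intro x hx
    have hx1 : x = 1 := by simpa using hx
    rw [hx1]
    show (1 : intCl k h) ∈ LL (k := k) h 0
    rw [mem_LL]
    simp
  · intro s hs
    have h1 := (mem_LL h 0 s).1 hs
    rw [pow_zero, mul_one] at h1
    obtain ⟨c, hc⟩ := const_of_mem h hh s.2 h1
    rw [Finset.coe_singleton, Submodule.mem_span_singleton]
    refine ⟨c, Subtype.ext ?_⟩
    rw [hc, Algebra.algebraMap_eq_smul_one]
    rfl

private theorem fin_all (h : L) (hh : Transcendental k h)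
    (hfin : FiniteDimensional (IntermediateField.adjoin k {h}) L) (m : ℕ) :
    (LL (k := k) h m).FG := by
  obtain ⟨C, Q, hQ, -, hle⟩ := exists_Q h hh hfin
  induction m with
  | zero => exact fin_zero h hh
  | succ m ih =>
    have ih' : Module.Finite k (LL (k := k) h m) := Module.Finite.iff_fg.2 ih
    refine Submodule.fg_of_fg_map_of_fg_inf_ker (ps (k := k) h (m + 1)) ?_ ?_
    · have := Submodule.finiteDimensional_of_le (hle m)
      exact Module.Finite.iff_fg.1 this
    · have h1 : LL (k := k) h (m + 1) ⊓ LinearMap.ker (ps (k := k) h (m + 1)) ≤ LL (k := k) h m := by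
        rintro s ⟨-, hs⟩
        exact ps_eq_zero h hh m s hs
      have := Submodule.finiteDimensional_of_le h1
      exact Module.Finite.iff_fg.1 this

private theorem bdd_all (h : L) (hh : Transcendental k h)
    (hfin : FiniteDimensional (IntermediateField.adjoin k {h}) L) :
    ∃ C : ℕ, ∀ m, Module.finrank k (LL (k := k) h (m + 1)) ≤ Module.finrank k (LL (k := k) h m) + C := by
  obtain ⟨C, Q, hQ, hC, hle⟩ := exists_Q h hh hfin
  refine ⟨C, fun m => ?_⟩
  have f0 : Module.Finite k (LL (k := k) h m) := Module.Finite.iff_fg.2 (fin_all h hh hfin m)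
  have f1 : Module.Finite k (LL (k := k) h (m + 1)) :=
    Module.Finite.iff_fg.2 (fin_all h hh hfin (m + 1))
  have h1 := LinearMap.finrank_range_add_finrank_ker
    ((ps (k := k) h (m + 1)).domRestrict (LL (k := k) h (m + 1)))
  have h2 : Module.finrank k (LinearMap.range
      ((ps (k := k) h (m + 1)).domRestrict (LL (k := k) h (m + 1)))) ≤ C := by
    refine le_trans (Submodule.finrank_mono ?_) hC
    rintro _ ⟨s, rfl⟩
    exact hle m ⟨s, s.2, rfl⟩
  have h3 : Module.finrank k (LinearMap.ker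
      ((ps (k := k) h (m + 1)).domRestrict (LL (k := k) h (m + 1)))) ≤
      Module.finrank k (LL (k := k) h m) := by
    rw [(Submodule.equivMapOfInjective (LL (k := k) h (m + 1)).subtype Subtype.val_injective
      (LinearMap.ker ((ps (k := k) h (m + 1)).domRestrict (LL (k := k) h (m + 1))))).finrank_eq]
    refine Submodule.finrank_mono ?_
    rintro _ ⟨s, hs, rfl⟩
    exact ps_eq_zero h hh m s.1 hs
  omega

theorem exists_fil (h : L) (hh : Transcendental k h)
    (hfin : FiniteDimensional (IntermediateField.adjoin k {h}) L) :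
    Nonempty (Fil k (⟨h, self_mem_intCl h⟩ : intCl k h)) := by
  have h0 := ne_zero_of_tr h hh
  refine ⟨⟨LL (k := k) h, ?_, ?_, ?_, ?_, ?_, ?_, ?_, ?_, bdd_all h hh hfin⟩⟩
  · intro m
    exact Module.Finite.iff_fg.2 (fin_all h hh hfin m)
  · refine monotone_nat_of_le_succ fun m s hs => ?_
    rw [mem_LL] at hs ⊢
    have h1 := mul_mem hs (self_mem_intCl (k := k) h⁻¹)
    rw [mul_assoc, ← pow_succ] at h1
    exact h1
  · rw [mem_LL]
    simp
  · intro m n a b ha hb
    rw [mem_LL] at ha hb ⊢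
    have h1 := mul_mem ha hb
    have h2 : ((a * b : intCl k h) : L) * h⁻¹ ^ (m + n) = (a : L) * h⁻¹ ^ m * ((b : L) * h⁻¹ ^ n) := by
      rw [pow_add]
      show (a : L) * (b : L) * _ = _
      ring
    rw [h2]
    exact h1
  · rw [mem_LL, pow_one]
    show h * h⁻¹ ∈ intCl k h⁻¹
    rw [mul_inv_cancel₀ h0]
    exact one_mem _
  · intro m s hs
    rw [mem_LL] at hs ⊢
    have h1 : h * (s : L) * h⁻¹ ^ (m + 1) = (s : L) * h⁻¹ ^ m := by
      rw [pow_succ]
      field_simp
    have h2 : h * (s : L) * h⁻¹ ^ (m + 1) ∈ intCl k h⁻¹ := hs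
    rw [h1] at h2
    exact h2
  · intro s hs
    rw [mem_LL, pow_zero, mul_one] at hs
    obtain ⟨c, hc⟩ := const_of_mem h hh (Subtype.property _) hs
    have h1 : h * (s : L) = algebraMap k L c := hc
    by_cases hc0 : c = 0
    · rw [hc0, map_zero] at h1
      exact Subtype.ext ((mul_eq_zero.1 h1).resolve_left h0)
    · exfalso
      apply inv_notMem h hh
      have h2 : h⁻¹ = algebraMap k L c⁻¹ * (s : L) := by
        rw [map_inv₀, ← h1]
        have h3 : (s : L) ≠ 0 := by
          intro h4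
          rw [h4, mul_zero] at h1
          exact hc0 ((map_eq_zero (algebraMap k L)).1 h1.symm)
        field_simp
      rw [h2]
      exact mul_mem (Subalgebra.algebraMap_mem _ _) s.2
  · intro s
    obtain ⟨m, hm⟩ := exists_pow h hh s.2
    exact ⟨m, hm⟩

end Pool.Agent.SPC
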