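import Pool.Agent.SPC.CGro

/-!
# Riemann's inequality without Riemann-Roch (by a dimension count)
-/

noncomputable section

namespace Pool.Agent.SPC

open Polynomial TensorProduct

universe u v w

variable {k : Type u} {S : Type v} [Field k] [CommRing S] [Algebra k S] {h : S}

private theorem cfac_map {k : Type u} {S : Type v} [Field k] [CommRing S] [Algebra k S]
    {μ : S →ₗ[k] S} (hμ : Function.Injective μ) (P : Submodule k S) :
    Module.finrank k (P.map μ) = Module.finrank k P :=
  (Submodule.equivMapOfInjective μ hμ P).finrank_eq.symm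

private theorem cfac_inj [IsDomain S] {f : S} (hf : f ≠ 0) :
    Function.Injective (LinearMap.mulLeft k f) := by
  intro a b hab
  exact mul_left_cancel₀ hf hab

theorem Fil.sup_span_eq_top [IsDomain S] (F : Fil k h) {D m₁ : ℕ} (hg : F.Grows D m₁)
    {m j : ℕ} {f : S} (hf : f ∈ F.L m) (hf0 : f ≠ 0) (hj : m + m₁ ≤ j) :
    F.L j ⊔ (Ideal.span {f}).restrictScalars k = ⊤ := by
  have hh0 : h ≠ 0 := by
    intro h0
    have h2 : h * (1 : S) = 0 := by rw [mul_one, h0]
    have h3 : h * (1 : S) ∈ F.L 0 := by
      rw [h2]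
      exact Submodule.zero_mem _
    exact one_ne_zero (F.div_h0 1 h3)
  obtain ⟨μ, hμd⟩ : ∃ μ : S →ₗ[k] S, μ = LinearMap.mulLeft k f := ⟨_, rfl⟩
  obtain ⟨η, hηd⟩ : ∃ η : S →ₗ[k] S, η = LinearMap.mulLeft k h := ⟨_, rfl⟩
  have hμa : ∀ s, μ s = f * s := fun s => by rw [hμd]; rfl
  have hηa : ∀ s, η s = h * s := fun s => by rw [hηd]; rfl
  have hμ : Function.Injective μ := by rw [hμd]; exact cfac_inj hf0
  have hη : Function.Injective η := by rw [hηd]; exact cfac_inj hh0
  have hspan : (Ideal.span {f}).restrictScalars k = LinearMap.range μ := by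
    ext x
    rw [Submodule.restrictScalars_mem, Ideal.mem_span_singleton, LinearMap.mem_range]
    constructor
    · rintro ⟨s, rfl⟩
      exact ⟨s, hμa s⟩
    · rintro ⟨s, rfl⟩
      exact ⟨s, hμa s⟩
  have hfin : ∀ j, Module.Finite k (F.L j) := F.fin
  have hVW : ∀ j, ((F.L j).comap μ).map μ = LinearMap.range μ ⊓ F.L j := fun j =>
    Submodule.map_comap_eq μ (F.L j)
  have hWfin : ∀ j, Module.Finite k (LinearMap.range μ ⊓ F.L j : Submodule k S) := fun j =>
    Submodule.finiteDimensional_inf_right _ _
  have hVfin : ∀ j, Module.Finite k ((F.L j).comap μ) := by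
    intro j
    have h1 : Module.Finite k (((F.L j).comap μ).map μ) := by
      rw [hVW]
      exact hWfin j
    exact Module.Finite.equiv (Submodule.equivMapOfInjective μ hμ ((F.L j).comap μ)).symm
  have hfV : ∀ j, Module.finrank k ((F.L j).comap μ) =
      Module.finrank k (LinearMap.range μ ⊓ F.L j : Submodule k S) := by
    intro j
    rw [← hVW, cfac_map hμ]
  -- the growth of the colon spaces
  have step1 : ∀ j, m + m₁ ≤ j → Module.finrank k ((F.L j).comap μ) + D ≤
      Module.finrank k ((F.L (j + 1)).comap μ) := by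
    intro j hj
    obtain ⟨i, rfl⟩ : ∃ i, j = m + i := ⟨j - m, by omega⟩
    have hi : m₁ ≤ i := by omega
    have hA : ((F.L (m + i)).comap μ).map η ≤ (F.L (m + i + 1)).comap μ := by
      rintro _ ⟨s, hs, rfl⟩
      have hs' : μ s ∈ F.L (m + i) := hs
      rw [Submodule.mem_comap, hμa, hηa]
      rw [hμa] at hs'
      have h1 := F.mul F.h_mem hs'
      have h2 : f * (h * s) = h * (f * s) := by ring
      rw [h2, add_comm (m + i) 1]
      exact h1
    have hB : F.L (i + 1) ≤ (F.L (m + i + 1)).comap μ := by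
      intro s hs
      rw [Submodule.mem_comap, hμa]
      have h1 : f * s ∈ F.L (m + (i + 1)) := F.mul hf hs
      exact h1
    have hAB : ((F.L (m + i)).comap μ).map η ⊓ F.L (i + 1) = (F.L i).map η := by
      apply le_antisymm
      · rintro _ ⟨⟨s, hs, rfl⟩, hs2⟩
        have hs3 : η s ∈ F.L (i + 1) := hs2
        rw [hηa] at hs3
        exact ⟨s, F.div_h i s hs3, rfl⟩
      · rintro _ ⟨s, hs, rfl⟩
        have hs' : s ∈ F.L i := hs
        refine ⟨⟨s, ?_, rfl⟩, ?_⟩
        · show μ s ∈ F.L (m + i)
          rw [hμa]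
          exact F.mul hf hs'
        · show η s ∈ F.L (i + 1)
          rw [hηa, add_comm i 1]
          exact F.mul F.h_mem hs'
    have hAfin : Module.Finite k (((F.L (m + i)).comap μ).map η) :=
      Module.Finite.equiv (Submodule.equivMapOfInjective η hη ((F.L (m + i)).comap μ))
    have h1 := Submodule.finrank_sup_add_finrank_inf_eq (((F.L (m + i)).comap μ).map η) (F.L (i + 1))
    rw [hAB, cfac_map hη, cfac_map hη, hg i hi] at h1
    have h2 : Module.finrank k (((F.L (m + i)).comap μ).map η ⊔ F.L (i + 1) : Submodule k S) ≤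
        Module.finrank k ((F.L (m + i + 1)).comap μ) := Submodule.finrank_mono (sup_le hA hB)
    omega
  -- one step
  have step2 : ∀ j, m + m₁ ≤ j → F.L (j + 1) ≤ F.L j ⊔ LinearMap.range μ := by
    intro j hj
    have hmono : F.L j ≤ F.L (j + 1) := F.mono (Nat.le_succ j)
    have hinf : F.L j ⊓ (LinearMap.range μ ⊓ F.L (j + 1)) = LinearMap.range μ ⊓ F.L j := by
      apply le_antisymm
      · exact le_inf (inf_le_right.trans inf_le_left) inf_le_left
      · exact le_inf inf_le_right (le_inf inf_le_left (inf_le_right.trans hmono))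
    have h1 := Submodule.finrank_sup_add_finrank_inf_eq (F.L j)
      (LinearMap.range μ ⊓ F.L (j + 1) : Submodule k S)
    rw [hinf, ← hfV, ← hfV] at h1
    have h2 := step1 j hj
    have h3 := hg j (by omega)
    have h4 : F.L j ⊔ (LinearMap.range μ ⊓ F.L (j + 1)) = F.L (j + 1) := by
      refine Submodule.eq_of_le_of_finrank_le (sup_le hmono inf_le_right) ?_
      omega
    rw [← h4]
    exact sup_le_sup_left inf_le_left _
  have step3 : ∀ r, F.L (j + r) ≤ F.L j ⊔ LinearMap.range μ := by
    intro r
    induction r with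
    | zero => exact le_sup_left
    | succ r ih =>
      refine (step2 (j + r) (by omega)).trans (sup_le ih le_sup_right)
  rw [hspan, eq_top_iff]
  intro s _
  obtain ⟨n, hn⟩ := F.exh s
  exact step3 n (F.mono (Nat.le_add_left n j) hn)

end Pool.Agent.SPC
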