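import Mathlib

/-!
# Filtrations by pole order

`Fil k h`: the abstract properties of the spaces `L m` of functions whose poles are at most those
of `h ^ m`. `RBas F`: a basis of `S` over `k[h]` adapted to the filtration.
-/

noncomputable section

namespace Pool.Agent.SPC

open Polynomial TensorProduct

universe u v w

/-- A filtration of `S` by pole order. -/
structure Fil (k : Type u) {S : Type v} [Field k] [CommRing S] [Algebra k S] (h : S) where
  L : ℕ → Submodule k S
  fin : ∀ m, Module.Finite k (L m)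
  mono : Monotone L
  one : (1 : S) ∈ L 0
  mul : ∀ {m n : ℕ} {a b : S}, a ∈ L m → b ∈ L n → a * b ∈ L (m + n)
  h_mem : h ∈ L 1
  div_h : ∀ (m : ℕ) (s : S), h * s ∈ L (m + 1) → s ∈ L m
  div_h0 : ∀ s : S, h * s ∈ L 0 → s = 0
  exh : ∀ s : S, ∃ m, s ∈ L m
  bdd : ∃ C : ℕ, ∀ m, Module.finrank k (L (m + 1)) ≤ Module.finrank k (L m) + C

variable {k : Type u} {S : Type v} [Field k] [CommRing S] [Algebra k S] {h : S}

/-- From `m₁` on the dimension grows by `D` at each step. -/
def Fil.Grows (F : Fil k h) (D m₁ : ℕ) : Prop :=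
  ∀ m, m₁ ≤ m → Module.finrank k (F.L (m + 1)) = Module.finrank k (F.L m) + D

/-- A basis of `S` over `k[h]` adapted to the filtration. -/
structure RBas (F : Fil k h) (D : ℕ) where
  b : Fin D → S
  a : Fin D → ℕ
  span : ∀ s : S, ∃ p : Fin D → k[X], s = ∑ i, aeval h (p i) * b i
  mem_iff : ∀ (p : Fin D → k[X]) (m : ℕ),
    ∑ i, aeval h (p i) * b i ∈ F.L m ↔ ∀ i, p i = 0 ∨ (p i).natDegree + a i ≤ m

/-- The elements of pole order at most `m` over a `k`-algebra `B`. -/
def Fil.LB (F : Fil k h) (B : Type w) [CommRing B] [Algebra k B] (m : ℕ) :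
    Submodule B (B ⊗[k] S) :=
  (F.L m).baseChange B

/-- `h ^ (m + 1)` minus an element of order at most `m`. -/
def monic (h : S) {B : Type w} [CommRing B] [Algebra k B] (m : ℕ) (l : B ⊗[k] S) : B ⊗[k] S :=
  (1 : B) ⊗ₜ[k] h ^ (m + 1) - l

end Pool.Agent.SPC
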