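import Pool.Agent.SPC.CFil

/-!
# The dimension grows by a constant
-/

noncomputable section

namespace Pool.Agent.SPC

open Polynomial TensorProduct

universe u v w

variable {k : Type u} {S : Type v} [Field k] [CommRing S] [Algebra k S] {h : S}

theorem Fil.h_pow_mem (F : Fil k h) (m : ℕ) : h ^ m ∈ F.L m := by
  induction m with
  | zero => rw [pow_zero]; exact F.one
  | succ m ih => rw [pow_succ]; exact F.mul ih F.h_mem

private theorem hinj (F : Fil k h) : Function.Injective (LinearMap.mulLeft k h) := by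
  intro s t hst
  have h1 : h * (s - t) = 0 := by
    rw [mul_sub]
    exact sub_eq_zero.2 hst
  refine sub_eq_zero.1 (F.div_h0 _ ?_)
  rw [h1]
  exact zero_mem _

private theorem h_mul_mem (F : Fil k h) {m : ℕ} {s : S} (hs : s ∈ F.L m) : h * s ∈ F.L (m + 1) := by
  rw [mul_comm]
  exact F.mul hs F.h_mem

private theorem fin_map (F : Fil k h) (m : ℕ) :
    Module.finrank k ((F.L m).map (LinearMap.mulLeft k h)) = Module.finrank k (F.L m) :=
  (Submodule.equivMapOfInjective _ (hinj F) (F.L m)).symm.finrank_eq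

private theorem inf_map (F : Fil k h) (m : ℕ) :
    (F.L (m + 1)).map (LinearMap.mulLeft k h) ⊓ F.L (m + 1) =
      (F.L m).map (LinearMap.mulLeft k h) := by
  ext x
  constructor
  · rintro ⟨⟨s, hs, rfl⟩, hx⟩
    exact ⟨s, F.div_h m s hx, rfl⟩
  · rintro ⟨s, hs, rfl⟩
    exact ⟨⟨s, F.mono (Nat.le_succ m) hs, rfl⟩, h_mul_mem F hs⟩

private theorem sup_le (F : Fil k h) (m : ℕ) :
    (F.L (m + 1)).map (LinearMap.mulLeft k h) ⊔ F.L (m + 1) ≤ F.L (m + 2) := by
  refine _root_.sup_le ?_ (F.mono (Nat.le_succ _))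
  rintro x ⟨s, hs, rfl⟩
  exact h_mul_mem F hs

private theorem fin_sup (F : Fil k h) (m : ℕ) :
    Module.finrank k ((F.L (m + 1)).map (LinearMap.mulLeft k h) ⊔ F.L (m + 1) : Submodule k S) +
      Module.finrank k (F.L m) = Module.finrank k (F.L (m + 1)) + Module.finrank k (F.L (m + 1)) := by
  have := F.fin m
  have := F.fin (m + 1)
  have h1 := Submodule.finrank_sup_add_finrank_inf_eq
    ((F.L (m + 1)).map (LinearMap.mulLeft k h)) (F.L (m + 1))
  rw [inf_map, fin_map, fin_map] at h1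
  exact h1

private theorem fin_le (F : Fil k h) (m : ℕ) :
    Module.finrank k (F.L m) ≤ Module.finrank k (F.L (m + 1)) := by
  have := F.fin (m + 1)
  exact Submodule.finrank_mono (F.mono (Nat.le_succ m))

private theorem fin_conv (F : Fil k h) (m : ℕ) :
    Module.finrank k (F.L (m + 1)) + Module.finrank k (F.L (m + 1)) ≤
      Module.finrank k (F.L (m + 2)) + Module.finrank k (F.L m) := by
  have := F.fin (m + 2)
  have h1 := Submodule.finrank_mono (sup_le F m)
  have h2 := fin_sup F m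
  omega

private theorem h_pow_notMem [Nontrivial S] (F : Fil k h) (m : ℕ) : h ^ (m + 1) ∉ F.L m := by
  induction m with
  | zero =>
    intro h1
    refine one_ne_zero (F.div_h0 1 ?_)
    rw [mul_one]
    rwa [zero_add, pow_one] at h1
  | succ m ih =>
    intro h1
    rw [pow_succ'] at h1
    exact ih (F.div_h m _ h1)

theorem Fil.exists_grows [Nontrivial S] (F : Fil k h) : ∃ D m₁ : ℕ, 0 < D ∧ F.Grows D m₁ := by
  obtain ⟨C, hC⟩ := F.bdd
  obtain ⟨i, hi⟩ : ∃ i : ℕ → ℕ, ∀ m, i m = Module.finrank k (F.L (m + 1)) -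
    Module.finrank k (F.L m) := ⟨_, fun _ => rfl⟩
  have hle := fin_le F
  have hmono : Monotone i := by
    refine monotone_nat_of_le_succ fun m => ?_
    have h1 := fin_conv F m
    have h2 := hle m
    have h3 := hle (m + 1)
    rw [hi, hi]
    rw [show m + 2 = m + 1 + 1 from rfl] at h1
    omega
  have hbdd : BddAbove (Set.range i) := by
    refine ⟨C, ?_⟩
    rintro _ ⟨m, rfl⟩
    have := hC m
    rw [hi]
    omega
  obtain ⟨m₁, hm₁⟩ := Nat.sSup_mem (Set.range_nonempty i) hbdd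
  have hconst : ∀ m, m₁ ≤ m → i m = i m₁ := fun m hm =>
    le_antisymm (by rw [hm₁]; exact le_csSup hbdd ⟨m, rfl⟩) (hmono hm)
  have hG : F.Grows (i m₁) m₁ := by
    intro m hm
    have h1 := hconst m hm
    rw [hi m] at h1
    have h2 := hle m
    omega
  refine ⟨i m₁, m₁, ?_, hG⟩
  rw [Nat.pos_iff_ne_zero]
  intro h0
  have h1 := hG m₁ le_rfl
  rw [h0, add_zero] at h1
  have := F.fin (m₁ + 1)
  have h2 : F.L m₁ = F.L (m₁ + 1) :=
    Submodule.eq_of_le_of_finrank_eq (F.mono (Nat.le_succ m₁)) h1.symm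
  refine h_pow_notMem F m₁ ?_
  rw [h2]
  exact F.h_pow_mem (m₁ + 1)

theorem Fil.grows_add (F : Fil k h) {D m₁ : ℕ} (hg : F.Grows D m₁) {m : ℕ} (hm : m₁ ≤ m) (r : ℕ) :
    Module.finrank k (F.L (m + r)) = Module.finrank k (F.L m) + D * r := by
  induction r with
  | zero => simp
  | succ r ih =>
    rw [← add_assoc, hg (m + r) (by omega), ih]
    ring

theorem Fil.lt_finrank [Nontrivial S] (F : Fil k h) {D m₁ : ℕ} (hg : F.Grows D m₁) (r : ℕ) :
    D * r < Module.finrank k (F.L (m₁ + r)) := by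
  rw [F.grows_add hg le_rfl r]
  have := F.fin m₁
  have h1 : 0 < Module.finrank k (F.L m₁) := by
    rw [Module.finrank_pos_iff_exists_ne_zero]
    refine ⟨⟨1, F.mono (Nat.zero_le m₁) F.one⟩, fun h0 => one_ne_zero (α := S) ?_⟩
    exact congrArg Subtype.val h0
  omega

/-- In large degrees every element is `h` times something, modulo smaller order. -/
theorem Fil.exists_div (F : Fil k h) {D m₁ : ℕ} (hg : F.Grows D m₁) {m : ℕ} (hm : m₁ < m)
    {s : S} (hs : s ∈ F.L (m + 1)) : ∃ t ∈ F.L m, s - h * t ∈ F.L m := by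
  obtain ⟨n, rfl⟩ : ∃ n, m = n + 1 := ⟨m - 1, by omega⟩
  have h1 := fin_sup F n
  have h2 := hg n (by omega)
  have h3 := hg (n + 1) (by omega)
  have := F.fin (n + 2)
  have h4 : (F.L (n + 1)).map (LinearMap.mulLeft k h) ⊔ F.L (n + 1) = F.L (n + 2) := by
    refine Submodule.eq_of_le_of_finrank_eq (sup_le F n) ?_
    have h5 : n + 1 + 1 = n + 2 := rfl
    rw [h5] at h3
    omega
  rw [show n + 1 + 1 = n + 2 from rfl, ← h4, Submodule.mem_sup] at hs
  obtain ⟨_, ⟨t, ht, rfl⟩, b, hb, hab⟩ := hs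
  refine ⟨t, ht, ?_⟩
  have h5 : s - h * t = b := by
    rw [← hab]
    show h * t + b - h * t = b
    ring
  rw [h5]
  exact hb

end Pool.Agent.SPC
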