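import Pool.Agent.SPC.CFac

/-!
# Interpolation with bounded poles
-/

noncomputable section

namespace Pool.Agent.SPC

open Polynomial TensorProduct

universe u v w

variable {k : Type u} {S : Type v} [Field k] [CommRing S] [Algebra k S] {h : S}

theorem Fil.sup_ideal_eq_top [IsDomain S] (F : Fil k h) {D m₁ : ℕ} (hg : F.Grows D m₁)
    {r n j : ℕ} (hn : n ≤ D * r) (hj : m₁ + r + m₁ ≤ j) (a : Ideal S) (hfin : Module.Finite k (S ⧸ a))
    (ha : Module.finrank k (S ⧸ a) ≤ n) : F.L j ⊔ a.restrictScalars k = ⊤ := by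
  have h1 := F.lt_finrank hg r
  have hL : Module.Finite k (F.L (m₁ + r)) := F.fin _
  obtain ⟨φ, hφ⟩ : ∃ φ : F.L (m₁ + r) →ₗ[k] S ⧸ a,
      φ = (Ideal.Quotient.mkₐ k a).toLinearMap.comp (F.L (m₁ + r)).subtype := ⟨_, rfl⟩
  have h2 : LinearMap.ker φ ≠ ⊥ := LinearMap.ker_ne_bot_of_finrank_lt (by omega)
  obtain ⟨x, hx, hx0⟩ := Submodule.exists_mem_ne_zero_of_ne_bot h2
  have h3 : (x : S) ∈ a := by
    have h4 : φ x = 0 := hx
    rw [hφ] at h4
    exact Ideal.Quotient.eq_zero_iff_mem.1 h4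
  have h5 : (x : S) ≠ 0 := fun h0 => hx0 (Subtype.ext h0)
  have h6 := F.sup_span_eq_top hg x.2 h5 hj
  rw [eq_top_iff, ← h6]
  refine sup_le_sup_left ?_ _
  intro y hy
  rw [Submodule.restrictScalars_mem] at hy ⊢
  exact (Ideal.span_singleton_le_iff_mem a).2 h3 hy

end Pool.Agent.SPC
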