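import Pool.Agent.SPC.CMainB

/-!
# The relation between divisors on a curve

For `n` different points `x_1, ..., x_n` of the curve with values in `B` there are a divisor over
`B[X]` (the representation `ρ`) and an effective divisor `E` of degree `< n` with
`ρ_0 + E + j (h = 0) = ρ_1 + (x_1 + ... + x_n)`.
-/

noncomputable section

namespace Pool.Agent.SPC

open Polynomial TensorProduct

universe u v w w'

variable {k : Type u} {S : Type v} [Field k] [CommRing S] [Algebra k S] {h : S}

/-- The characteristic polynomials of the value at `c` of a family of matrices over `B[X]`, over a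
field `K`. -/
def cpAt (B : Type w) [CommRing B] [Algebra k B] (K : Type w) [Field K] [Algebra B K] {ι : Type}
    [Fintype ι] [DecidableEq ι] (ρ : S →ₐ[k] Matrix ι ι B[X]) (c : B) (s : S) : K[X] :=
  (((ρ s).map (at_ (k := k) B c)).charpoly).map (algebraMap B K)

theorem curve_relation [IsAlgClosed k] [CharZero k] [IsDedekindDomain S] (F : Fil k h) :
    ∃ (n D m j : ℕ) (Λ : S →ₐ[k] Matrix (Fin 1 × Fin D) (Fin 1 × Fin D) k),
      0 < n ∧ Λ h = 0 ∧
      ∀ (B : Type w) [CommRing B] [IsDomain B] [Algebra k B] [Algebra.FiniteType k B]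
        (x : Fin n → (S →ₐ[k] B)), Function.Injective x →
      ∃ ρ : S →ₐ[k] Matrix (Fin (m + 1) × Fin D) (Fin (m + 1) × Fin D) B[X],
      ∀ (K : Type w) [Field K] [IsAlgClosed K] [Algebra k K] [Algebra B K] [IsScalarTower k B K],
        Function.Injective (algebraMap B K) →
      ∃ E : Multiset (S →ₐ[k] K), E.card < n ∧
        ∀ s, cpAt B K ρ 0 s * cp E s * ((Λ s).charpoly.map (algebraMap k K)) ^ j =
          cpAt B K ρ 1 s * ∏ i, (X - C (algebraMap B K (x i s))) := by
  classical
  obtain ⟨D, m₁, hD, hg⟩ := F.exists_grows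
  obtain ⟨R⟩ := exists_rbas F hg
  have hk0 : (0 : k) ⊗ₜ[k] (1 : S) ∈ F.LB k 0 := const_mem_LB F 0
  -- parameters
  set j : ℕ := 2 * m₁ + 1 with hj
  set r : ℕ := j * D with hr
  have hr0 : 0 < r := Nat.mul_pos (by omega) hD
  set m : ℕ := m₁ + r + m₁ with hm
  have hmr : m + 1 = r + j := by omega
  refine ⟨D * r, D, m, j, rep hg R hk0, Nat.mul_pos hD hr0, ?_, ?_⟩
  · rw [rep_h]; simp
  intro B _ _ _ _ x hx
  -- the monic element
  obtain ⟨l, hl, hlx⟩ := exists_monic (F := F) R (m := m) x (fun y => by
    obtain ⟨h1, h2⟩ := finrank_quot_prod_le y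
    exact F.sup_ideal_eq_top hg (le_refl _) (le_refl _) _ h1 h2)
  -- the polynomial `u`
  set ch : B[X] := (rep hg R hl h).charpoly with hch
  have hchm : ch.Monic := Matrix.charpoly_monic _
  have hchd : ch.natDegree = (m + 1) * D := by
    rw [hch, Matrix.charpoly_natDegree_eq_dim, Fintype.card_prod, Fintype.card_fin, Fintype.card_fin]
  set q : B[X] := ∏ i, (X - C (x i h)) with hq
  have hqm : q.Monic := monic_prod_of_monic _ _ fun i _ => monic_X_sub_C _
  have hqd : q.natDegree = D * r := by
    rw [hq, natDegree_prod_of_monic _ _ (fun i _ => monic_X_sub_C _)]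
    simp
  have hle : D * r ≤ (m + 1) * D := by
    rw [hmr, Nat.mul_comm]
    exact Nat.mul_le_mul_right D (Nat.le_add_right r j)
  have hsub : (m + 1) * D - D * r = r := by
    rw [hmr, Nat.add_mul, Nat.mul_comm D r]
    omega
  set u : B[X] := ch /ₘ q with hu
  have hqle : q.degree ≤ ch.degree := by
    rw [degree_eq_natDegree hqm.ne_zero, degree_eq_natDegree hchm.ne_zero, hqd, hchd]
    exact_mod_cast hle
  have hum : u.Monic := by
    rw [Monic, hu, leadingCoeff_divByMonic_of_monic hqm hqle, hchm.leadingCoeff]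
  have hud : u.natDegree = r := by
    rw [hu, natDegree_divByMonic _ hqm, hchd, hqd, hsub]
  set u' : B[X] := u * X ^ j with hu'
  have hu'm : u'.Monic := hum.mul (monic_X_pow j)
  have hu'd : u'.natDegree = m + 1 := by
    rw [hu', hum.natDegree_mul (monic_X_pow j), hud, natDegree_X_pow, hmr]
  obtain ⟨l', hl', hll'⟩ := exists_monic_pol (k := k) (S := S) (h := h) F hu'm hu'd
  refine ⟨rep hg R (mix_mem hl hl'), ?_⟩
  intro K _ _ _ _ _ hinj
  set φ : B →ₐ[k] K := IsScalarTower.toAlgHom k B K with hφ
  have hφa : (φ : B →+* K) = algebraMap B K := rfl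
  -- characteristic polynomials of representations over `K`
  have hA : ∀ {m' : ℕ} {l₀ : K ⊗[k] S} (h₀ : l₀ ∈ F.LB K m'), ∃ A : Multiset (S →ₐ[k] K),
      A.card = (m' + 1) * D ∧ ∀ s, (rep hg R h₀ s).charpoly = cp A s := by
    intro m' l₀ h₀
    obtain ⟨χ, hχ⟩ := exists_chars (rep hg R h₀)
    refine ⟨Finset.univ.val.map χ, by simp, fun s => ?_⟩
    rw [hχ, cp, Multiset.map_map]
    rfl
  have hroot : ∀ {m' : ℕ} {l₀ : K ⊗[k] S} (h₀ : l₀ ∈ F.LB K m') (A : Multiset (S →ₐ[k] K))
      (hAs : ∀ s, (rep hg R h₀ s).charpoly = cp A s) (ψ : S →ₐ[k] K)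
      (hψ : ev (AlgHom.id k K) ψ (monic h m' l₀) = 0), ψ ∈ A := by
    intro m' l₀ h₀ A hAs ψ hψ
    apply exists_eq_of_root
    intro s
    rw [← hAs]
    exact root_of_ev hg R h₀ ψ hψ s
  -- the divisor of `F`
  have hlK : bc S φ l ∈ F.LB K m := bc_mem φ hl
  obtain ⟨A₀, hA₀c, hA₀⟩ := hA hlK
  have hx' : Function.Injective fun i => φ.comp (x i) := by
    intro i i' hii
    apply hx
    ext s
    have := congrArg (fun ψ : S →ₐ[k] K => ψ s) hii
    exact hinj this
  have hxA : ∀ i, φ.comp (x i) ∈ A₀ := by
    intro i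
    apply hroot hlK A₀ hA₀
    rw [← bc_monic, ev_bc, hlx i, map_zero]
  have hTA := image_le_of_forall_mem hx' hxA
  set T : Multiset (S →ₐ[k] K) := Finset.univ.val.map fun i => φ.comp (x i) with hT
  obtain ⟨W, hW⟩ := Multiset.le_iff_exists_add.1 hTA
  have hTs : ∀ s, cp T s = ∏ i, (X - C (algebraMap B K (x i s))) := by
    intro s
    rw [hT, cp, Multiset.map_map]
    rfl
  have hTc : T.card = D * r := by rw [hT]; simp
  have hWc : W.card = r := by
    have h1 := congrArg Multiset.card hW
    rw [Multiset.card_add, hA₀c, hTc] at h1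
    omega
  -- `u` over `K`
  have hchK : ch.map (algebraMap B K) = cp A₀ h := by
    rw [hch, ← Matrix.charpoly_map, ← hA₀ h]
    congr 1
    exact rep_map hg R φ hl hlK h
  have hqK : q.map (algebraMap B K) = cp T h := by
    rw [hTs, hq, Polynomial.map_prod]
    simp
  have huK : u.map (algebraMap B K) = cp W h := by
    rw [hu, Polynomial.map_divByMonic _ hqm, hchK, hqK, hW, cp_add]
    have : (cp T h).Monic := by rw [← hqK]; exact hqm.map _
    exact mul_divByMonic_cancel_left _ this
  -- the divisor of `u h^j`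
  have hl'K : bc S φ l' ∈ F.LB K m := bc_mem φ hl'
  set cs : List K := (W.map fun χ => χ h).toList ++ List.replicate j 0 with hcs
  have hcsl : cs.length = m + 1 := by
    rw [hcs, List.length_append, Multiset.length_toList, Multiset.card_map, List.length_replicate,
      hWc, hmr]
  have hcse : monic h m (bc S φ l') =
      (cs.map fun c => (1 : K) ⊗ₜ[k] h - c ⊗ₜ[k] (1 : S)).prod := by
    rw [← bc_monic, hll', bc_pol, hφa, hu', Polynomial.map_mul, huK, Polynomial.map_pow,
      Polynomial.map_X]
    have h1 : (cp W h * X ^ j : K[X]) = (cs.map fun c => X - C c).prod := by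
      rw [hcs, List.map_append, List.prod_append, List.map_replicate, List.prod_replicate, map_zero,
        sub_zero]
      congr 1
      rw [cp, ← Multiset.prod_toList]
      rw [← Multiset.prod_coe, ← Multiset.prod_coe]
      congr 1
      rw [← Multiset.map_coe, Multiset.coe_toList, Multiset.coe_toList, Multiset.map_map]
      rfl
    rw [h1, pol, map_list_prod, List.map_map]
    congr 1
    apply List.map_congr_left
    intro c _
    exact pol_X_sub_C c
  have hprod := charpoly_rep_prod hg R hl'K cs hcsl hcse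
  -- characters of the fibres
  choose A hAc hAs using fun c : K => hA (const_mem_LB F c)
  have hAW : ∀ χ ∈ W, χ ∈ A (χ h) := by
    intro χ _
    exact hroot (const_mem_LB F (χ h)) (A (χ h)) (hAs (χ h)) χ (ev_const χ)
  obtain ⟨E, hEc, hE⟩ := exists_comp W A (D := D) (fun c => by rw [hAc]; omega) hAW
  refine ⟨E, ?_, fun s => ?_⟩
  · rw [hEc, hWc, Nat.mul_comm D r]
    exact Nat.mul_lt_mul_of_pos_left (by omega) hr0
  · have h0 : cpAt B K (rep hg R (mix_mem hl hl')) 0 s = cp T s * cp W s := by
      rw [cpAt]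
      have e1 : bc S (at_ (k := k) B 0) (mix l l') ∈ F.LB B m := by rw [mix_zero]; exact hl
      rw [rep_map hg R (at_ (k := k) B 0) (mix_mem hl hl') e1 s]
      have e2 : rep hg R e1 s = rep hg R hl s := by
        congr 1
        congr 1
        exact mix_zero l l'
      rw [e2, ← Matrix.charpoly_map]
      have e3 := rep_map hg R φ hl hlK s
      rw [show (rep hg R hl s).map (algebraMap B K) = rep hg R hlK s from e3, hA₀, hW, cp_add]
    have h1 : cpAt B K (rep hg R (mix_mem hl hl')) 1 s =
        cp W s * cp E s * ((rep hg R hk0 s).charpoly.map (algebraMap k K)) ^ j := by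
      rw [cpAt]
      have e1 : bc S (at_ (k := k) B 1) (mix l l') ∈ F.LB B m := by rw [mix_one]; exact hl'
      rw [rep_map hg R (at_ (k := k) B 1) (mix_mem hl hl') e1 s]
      have e2 : rep hg R e1 s = rep hg R hl' s := by
        congr 1
        congr 1
        exact mix_one l l'
      rw [e2, ← Matrix.charpoly_map]
      have e3 := rep_map hg R φ hl' hl'K s
      rw [show (rep hg R hl' s).map (algebraMap B K) = rep hg R hl'K s from e3, hprod s, hcs,
        List.map_append, List.prod_append, List.map_replicate, List.prod_replicate, hE s]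
      congr 1
      · rw [← Multiset.prod_coe, ← Multiset.map_coe, Multiset.coe_toList, Multiset.map_map]
        congr 1
        apply Multiset.map_congr rfl
        intro χ _
        exact hAs (χ h) s
      · congr 1
        rw [← Matrix.charpoly_map]
        have e4 : bc S (Algebra.ofId k K) ((0 : k) ⊗ₜ[k] (1 : S)) ∈ F.LB K 0 :=
          bc_mem _ hk0
        have e5 := rep_map hg R (Algebra.ofId k K) hk0 e4 s
        rw [show (rep hg R hk0 s).map (algebraMap k K) = rep hg R e4 s from e5]
        congr 2
        congr 1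
        simp [bc]
    rw [h0, h1, hTs s]
    ring

end Pool.Agent.SPC
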