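import Pool.Agent.SPC.CNakB

/-!
# A monic element vanishing at `n` given points

MODULE SPC-CNak. PLAN. Let `Q = (B ⊗ S) / pts x`, a finite `B`-module (`pts_finite`), `N ⊆ Q` the image of
`F.LB B m`. CLAIM `N = ⊤`; then `1 ⊗ h^(m+1) = l + i` with `l ∈ F.LB B m`, `i ∈ pts x`, and `pts_le`
finishes. Nakayama: if `N ≠ ⊤`, the finite nonzero module `Q / N` has a maximal ideal `𝔪` of `B` with
`𝔪 (Q / N) ≠ Q / N` (take `𝔪 ⊇ annihilator`, `Submodule.exists_sub_one_mem_and_smul_eq_zero_of_fg_of_le_smul`).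
`B / 𝔪` is finite over `k` (Nullstellensatz `finite_of_finite_type_of_isJacobsonRing`, `B` is of finite
type), so `B / 𝔪 = k` (algebraically closed) and there is `β : B →ₐ[k] k` with kernel `𝔪`. For `t : B ⊗ S`:
`red β t = s + s'` with `s ∈ F.L m`, `s' ∈ ∏ ker (β ∘ x_i)` (`hsur` for `y i = β.comp (x i)`); lift both
(`exists_LB_lift`, `exists_pts_lift`): `t - t₁ - t₂ ∈ ker (red β)`, so by `ker_red` it is in `𝔪 (B ⊗ S)`.
Hence `N + 𝔪 Q = Q`, a contradiction.
-/

noncomputable section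

namespace Pool.Agent.SPC

open Polynomial TensorProduct

universe u v w w'

variable {k : Type u} {S : Type v} [Field k] [CommRing S] [Algebra k S] {h : S}
  {B : Type w} [CommRing B] [Algebra k B]

private theorem exists_max_of_finite {K : Type*} [AddCommGroup K] [Module B K]
    [Module.Finite B K] [Nontrivial K] :
    ∃ 𝔪 : Ideal B, 𝔪.IsMaximal ∧ ¬ ((⊤ : Submodule B K) ≤ 𝔪 • (⊤ : Submodule B K)) := by
  have hne : Module.annihilator B K ≠ ⊤ := by
    intro htop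
    obtain ⟨z, hz⟩ := exists_ne (0 : K)
    apply hz
    have h1 : (1 : B) ∈ Module.annihilator B K := by rw [htop]; trivial
    have := Module.mem_annihilator.1 h1 z
    simpa using this
  obtain ⟨𝔪, hm, hle⟩ := Ideal.exists_le_maximal _ hne
  refine ⟨𝔪, hm, fun hin => ?_⟩
  obtain ⟨r, hr, hr0⟩ := Submodule.exists_sub_one_mem_and_smul_eq_zero_of_fg_of_le_smul 𝔪
    (⊤ : Submodule B K) Module.Finite.fg_top hin
  have hr1 : r ∈ 𝔪 := hle (Module.mem_annihilator.2 fun z => hr0 z trivial)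
  apply hm.ne_top
  rw [Ideal.eq_top_iff_one]
  have : (1 : B) = r - (r - 1) := by ring
  rw [this]
  exact 𝔪.sub_mem hr1 hr

private theorem exists_point [IsAlgClosed k] [Algebra.FiniteType k B] (𝔪 : Ideal B)
    (hm : 𝔪.IsMaximal) : ∃ β : B →ₐ[k] k, RingHom.ker β = 𝔪 := by
  letI : Field (B ⧸ 𝔪) := Ideal.Quotient.field 𝔪
  haveI : Algebra.FiniteType k (B ⧸ 𝔪) :=
    Algebra.FiniteType.of_surjective (Ideal.Quotient.mkₐ k 𝔪) (Ideal.Quotient.mkₐ_surjective k 𝔪)
  haveI : Module.Finite k (B ⧸ 𝔪) := finite_of_finite_type_of_isJacobsonRing k (B ⧸ 𝔪)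
  haveI : Algebra.IsIntegral k (B ⧸ 𝔪) := Algebra.IsIntegral.of_finite k (B ⧸ 𝔪)
  have hb : Function.Bijective (Algebra.ofId k (B ⧸ 𝔪)) :=
    IsAlgClosed.algebraMap_bijective_of_isIntegral (k := k) (K := B ⧸ 𝔪)
  let e : k ≃ₐ[k] (B ⧸ 𝔪) := AlgEquiv.ofBijective (Algebra.ofId k (B ⧸ 𝔪)) hb
  refine ⟨(e.symm : (B ⧸ 𝔪) →ₐ[k] k).comp (Ideal.Quotient.mkₐ k 𝔪), ?_⟩
  ext b
  rw [RingHom.mem_ker]
  constructor
  · intro h0
    have h1 : e.symm (Ideal.Quotient.mk 𝔪 b) = 0 := h0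
    have h2 : Ideal.Quotient.mk 𝔪 b = 0 := by
      have := congrArg e h1
      simpa using this
    exact Ideal.Quotient.eq_zero_iff_mem.1 h2
  · intro h0
    have h2 : Ideal.Quotient.mk 𝔪 b = 0 := Ideal.Quotient.eq_zero_iff_mem.2 h0
    change e.symm (Ideal.Quotient.mk 𝔪 b) = 0
    rw [h2]
    exact map_zero e.symm

theorem exists_monic [IsAlgClosed k] [Algebra.FiniteType k B] {F : Fil k h} {D : ℕ}
    (R : RBas F D) {n m : ℕ} (x : Fin n → (S →ₐ[k] B))
    (hsur : ∀ y : Fin n → (S →ₐ[k] k),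
      F.L m ⊔ (∏ i, RingHom.ker (y i)).restrictScalars k = ⊤) :
    ∃ l ∈ F.LB B m, ∀ i, ev (AlgHom.id k B) (x i) (monic h m l) = 0 := by
  have hfin : Module.Finite B ((B ⊗[k] S) ⧸ pts x) := pts_finite R x
  have htop : F.LB B m ⊔ (pts x).restrictScalars B = ⊤ := by
    by_contra hne
    set N : Submodule B (B ⊗[k] S) := F.LB B m ⊔ (pts x).restrictScalars B with hN
    have hle : (pts x).restrictScalars B ≤ N := le_sup_right
    haveI : Module.Finite B ((B ⊗[k] S) ⧸ N) := by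
      haveI : Module.Finite B ((B ⊗[k] S) ⧸ (pts x).restrictScalars B) := hfin
      exact Module.Finite.of_surjective (Submodule.factor hle) (Submodule.factor_surjective hle)
    haveI : Nontrivial ((B ⊗[k] S) ⧸ N) := Submodule.Quotient.nontrivial_iff.2 hne
    obtain ⟨𝔪, hm, hnot⟩ := exists_max_of_finite (B := B) (K := (B ⊗[k] S) ⧸ N)
    obtain ⟨β, hβ⟩ := exists_point (k := k) 𝔪 hm
    apply hnot
    intro z _
    obtain ⟨t, rfl⟩ := Submodule.Quotient.mk_surjective N z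
    have hs : red S β t ∈ F.L m ⊔ (∏ i, RingHom.ker (β.comp (x i))).restrictScalars k := by
      rw [hsur (fun i => β.comp (x i))]
      trivial
    obtain ⟨s, hs1, s', hs2, hss⟩ := Submodule.mem_sup.1 hs
    obtain ⟨t₁, ht₁, hr1⟩ := exists_LB_lift F β hs1
    obtain ⟨t₂, ht₂, hr2⟩ := exists_pts_lift x β (s := s') hs2
    have hk := ker_red β (t - t₁ - t₂)
    have hz : red S β (t - t₁ - t₂) = 0 := by
      rw [map_sub, map_sub, hr1, hr2, ← hss]
      ring
    rw [hz, TensorProduct.tmul_zero, sub_zero, hβ] at hk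
    have h1 : (Submodule.Quotient.mk t : (B ⊗[k] S) ⧸ N)
        = Submodule.Quotient.mk (t - t₁ - t₂) := by
      rw [Submodule.Quotient.eq]
      have : t - (t - t₁ - t₂) = t₁ + t₂ := by abel
      rw [this]
      exact N.add_mem (le_sup_left (a := F.LB B m) ht₁) (hle ht₂)
    rw [h1]
    have h2 : N.mkQ (t - t₁ - t₂) ∈ Submodule.map N.mkQ (𝔪 • (⊤ : Submodule B (B ⊗[k] S))) :=
      Submodule.mem_map_of_mem hk
    rw [Submodule.map_smul''] at h2
    exact (Submodule.smul_mono (le_refl 𝔪) le_top) h2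
  have h1 : (1 : B) ⊗ₜ[k] h ^ (m + 1) ∈ F.LB B m ⊔ (pts x).restrictScalars B := by
    rw [htop]; trivial
  obtain ⟨l, hl, i0, hi0, hli⟩ := Submodule.mem_sup.1 h1
  refine ⟨l, hl, fun i => ?_⟩
  have h2 : monic h m l = i0 := by
    unfold monic
    rw [← hli]
    abel
  rw [h2]
  exact pts_le x i hi0

end Pool.Agent.SPC
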