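import Mathlib

/-!
# Multisets of characters are determined by the characteristic polynomials
-/

noncomputable section

namespace Pool.Agent.SPC

open Polynomial

universe u v w

variable {k : Type u} {S : Type v} {K : Type w} [Field k] [CommRing S] [Algebra k S]
  [Field K] [Algebra k K]

/-- The characteristic polynomial of `s` on the sum of the characters in `A`. -/
def cp (A : Multiset (S →ₐ[k] K)) (s : S) : K[X] := (A.map fun χ => X - C (χ s)).prod

theorem cp_add (A B : Multiset (S →ₐ[k] K)) (s : S) : cp (A + B) s = cp A s * cp B s := by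
  simp only [cp, Multiset.map_add, Multiset.prod_add]

theorem cp_nsmul (n : ℕ) (A : Multiset (S →ₐ[k] K)) (s : S) : cp (n • A) s = cp A s ^ n := by
  simp only [cp, Multiset.map_nsmul, Multiset.prod_nsmul]

/-- The subspace where two characters agree. -/
private def agr (χ ψ : S →ₐ[k] K) : Submodule k S := LinearMap.eqLocus χ.toLinearMap ψ.toLinearMap

private theorem mem_agr {χ ψ : S →ₐ[k] K} {s : S} : s ∈ agr χ ψ ↔ χ s = ψ s := Iff.rfl

private theorem eq_of_agr {χ ψ : S →ₐ[k] K} (h : agr χ ψ = ⊤) : χ = ψ :=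
  AlgHom.ext fun s => by
    have h1 : s ∈ agr χ ψ := by rw [h]; exact Submodule.mem_top
    exact mem_agr.1 h1

private theorem cp_roots (A : Multiset (S →ₐ[k] K)) (s : S) :
    (cp A s).roots = A.map fun χ => χ s := by
  have h1 : cp A s = ((A.map fun χ => χ s).map fun a => X - C a).prod := by
    rw [cp, Multiset.map_map]
    rfl
  rw [h1, Polynomial.roots_multiset_prod_X_sub_C]

theorem exists_eq_of_root [Infinite k] (A : Multiset (S →ₐ[k] K)) (ψ : S →ₐ[k] K)
    (hψ : ∀ s, (cp A s).IsRoot (ψ s)) : ψ ∈ A := by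
  classical
  have h1 : ∀ s, ∃ χ ∈ A, χ s = ψ s := by
    intro s
    have h2 : cp A s ≠ 0 := by
      rw [cp]
      intro h0
      obtain ⟨χ, _, h3⟩ := Multiset.mem_map.1 (Multiset.prod_eq_zero_iff.1 h0)
      exact Polynomial.X_sub_C_ne_zero _ h3
    have h3 : ψ s ∈ (cp A s).roots := (Polynomial.mem_roots h2).2 (hψ s)
    rw [cp_roots] at h3
    obtain ⟨χ, h4, h5⟩ := Multiset.mem_map.1 h3
    exact ⟨χ, h4, h5⟩
  have h2 : ⋃ χ : {χ // χ ∈ A.toFinset}, (agr χ.1 ψ : Set S) = Set.univ := by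
    rw [Set.eq_univ_iff_forall]
    intro s
    obtain ⟨χ, h3, h4⟩ := h1 s
    exact Set.mem_iUnion.2 ⟨⟨χ, Multiset.mem_toFinset.2 h3⟩, h4⟩
  obtain ⟨⟨χ, hχ⟩, h3⟩ := Subspace.exists_eq_top_of_iUnion_eq_univ h2
  rw [← eq_of_agr h3]
  exact Multiset.mem_toFinset.1 hχ

theorem cp_inj [Infinite k] {A B : Multiset (S →ₐ[k] K)} (hAB : ∀ s, cp A s = cp B s) :
    A = B := by
  classical
  obtain ⟨s, hs⟩ : ∃ s : S, ∀ χ ∈ A + B, ∀ χ' ∈ A + B, χ s = χ' s → χ = χ' := by
    by_contra hcon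
    push Not at hcon
    have h2 : ⋃ q : {q : {χ // χ ∈ (A + B).toFinset} × {χ // χ ∈ (A + B).toFinset} //
        q.1.1 ≠ q.2.1}, (agr q.1.1.1 q.1.2.1 : Set S) = Set.univ := by
      rw [Set.eq_univ_iff_forall]
      intro s
      obtain ⟨χ, h3, χ', h4, h5, h6⟩ := hcon s
      exact Set.mem_iUnion.2 ⟨⟨(⟨χ, Multiset.mem_toFinset.2 h3⟩, ⟨χ', Multiset.mem_toFinset.2 h4⟩),
        h6⟩, h5⟩
    obtain ⟨⟨q, hq⟩, h3⟩ := Subspace.exists_eq_top_of_iUnion_eq_univ h2
    exact hq (eq_of_agr h3)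
  have h1 : A.map (fun χ => χ s) = B.map (fun χ => χ s) := by
    rw [← cp_roots, ← cp_roots, hAB]
  have h2 : ∀ D : Multiset (S →ₐ[k] K), D ≤ A + B → ∀ χ ∈ A + B,
      (D.map (fun χ => χ s)).count (χ s) = D.count χ := by
    intro D hD χ hχ
    rw [Multiset.count_map, Multiset.count_eq_card_filter_eq]
    congr 1
    refine Multiset.filter_congr fun χ' hχ' => ?_
    constructor
    · intro h
      exact hs χ hχ χ' (Multiset.mem_of_le hD hχ') h
    · intro h
      rw [h]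
  refine Multiset.ext.2 fun χ => ?_
  by_cases hχ : χ ∈ A + B
  · rw [← h2 A (Multiset.le_add_right _ _) χ hχ, ← h2 B (Multiset.le_add_left _ _) χ hχ, h1]
  · rw [Multiset.mem_add, not_or] at hχ
    rw [Multiset.count_eq_zero_of_notMem hχ.1, Multiset.count_eq_zero_of_notMem hχ.2]

theorem image_le_of_forall_mem {n : ℕ} {x : Fin n → (S →ₐ[k] K)} (hx : Function.Injective x)
    {A : Multiset (S →ₐ[k] K)} (hA : ∀ i, x i ∈ A) :
    (Finset.univ : Finset (Fin n)).val.map x ≤ A := by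
  rw [Multiset.le_iff_subset (Multiset.Nodup.map hx Finset.univ.nodup)]
  intro χ hχ
  obtain ⟨i, _, rfl⟩ := Multiset.mem_map.1 hχ
  exact hA i

end Pool.Agent.SPC
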