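import Mathlib

/-!
# The codimension of a product of `n` maximal ideals of a Dedekind domain
-/

noncomputable section

namespace Pool.Agent.SPC

universe u v

private theorem cprd_step {k : Type u} {S : Type v} [Field k] [CommRing S] [IsDedekindDomain S]
    [Algebra k S] (I : Ideal S) (y : S →ₐ[k] k) :
    ∃ a ∈ I, ∀ x ∈ I, ∃ c : k, x - c • a ∈ I * RingHom.ker y := by
  by_cases h : I ≤ I * RingHom.ker y
  · exact ⟨0, I.zero_mem, fun x hx => ⟨0, by simpa using h hx⟩⟩
  obtain ⟨a, haI, ha⟩ := Set.not_subset.1 h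
  have haI : a ∈ I := haI
  have ha : a ∉ I * RingHom.ker y := ha
  have hI : I ≠ 0 := by
    rintro rfl
    have h0 : a = 0 := by simpa using haI
    exact ha (by rw [h0]; exact Ideal.zero_mem _)
  have hy : Function.Surjective y := fun c => ⟨algebraMap k S c, y.commutes c⟩
  have hmax : (RingHom.ker y).IsMaximal := RingHom.ker_isMaximal_of_surjective y hy
  obtain ⟨J', hJ'⟩ : I ∣ Ideal.span {a} ⊔ I * RingHom.ker y :=
    Ideal.dvd_iff_le.2 (sup_le ((Ideal.span_singleton_le_iff_mem _).2 haI) Ideal.mul_le_left)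
  have h1 : RingHom.ker y ≤ J' := by
    rw [← Ideal.dvd_iff_le, ← mul_dvd_mul_iff_left hI, ← hJ', Ideal.dvd_iff_le]
    exact le_sup_right
  have h2 : J' = ⊤ := by
    by_contra hne
    have h3 : RingHom.ker y = J' := hmax.eq_of_le hne h1
    apply ha
    rw [h3, ← hJ']
    exact Ideal.mem_sup_left (Ideal.mem_span_singleton_self a)
  rw [h2, Ideal.mul_top] at hJ'
  refine ⟨a, haI, fun x hx => ?_⟩
  rw [← hJ'] at hx
  obtain ⟨u, hu, z, hz, rfl⟩ := Submodule.mem_sup.1 hx
  obtain ⟨s, rfl⟩ := Ideal.mem_span_singleton'.1 hu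
  refine ⟨y s, ?_⟩
  have h4 : s * a + z - y s • a = a * (s - algebraMap k S (y s)) + z := by
    rw [Algebra.smul_def]
    ring
  rw [h4]
  refine Ideal.add_mem _ (Ideal.mul_mem_mul haI ?_) hz
  rw [RingHom.mem_ker, map_sub, y.commutes]
  simp

theorem finrank_quot_prod_le {k : Type u} {S : Type v} [Field k] [CommRing S] [IsDedekindDomain S]
    [Algebra k S] {n : ℕ} (y : Fin n → (S →ₐ[k] k)) :
    Module.Finite k (S ⧸ ∏ i, RingHom.ker (y i)) ∧
      Module.finrank k (S ⧸ ∏ i, RingHom.ker (y i)) ≤ n := by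
  induction n with
  | zero =>
    have : Subsingleton (S ⧸ ∏ i, RingHom.ker (y i)) := by
      rw [Ideal.Quotient.subsingleton_iff]
      simp
    exact ⟨inferInstance, by rw [Module.finrank_zero_of_subsingleton]⟩
  | succ n ih =>
    obtain ⟨h1, h2⟩ := ih (fun i => y i.castSucc)
    obtain ⟨I, hI⟩ : ∃ I, I = ∏ i : Fin n, RingHom.ker (y i.castSucc) := ⟨_, rfl⟩
    obtain ⟨M, hM⟩ : ∃ M, M = I * RingHom.ker (y (Fin.last n)) := ⟨_, rfl⟩
    have hprod : ∏ i : Fin (n + 1), RingHom.ker (y i) = M := by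
      rw [Fin.prod_univ_castSucc, hM, hI]
    rw [← hI] at h1 h2
    rw [hprod]
    obtain ⟨a, haI, ha⟩ := cprd_step I (y (Fin.last n))
    rw [← hM] at ha
    have hMI : M ≤ I := by rw [hM]; exact Ideal.mul_le_left
    let φ : (S ⧸ M) →ₐ[k] (S ⧸ I) := Ideal.Quotient.factorₐ k hMI
    have hφ : Function.Surjective φ.toLinearMap := Ideal.Quotient.factor_surjective hMI
    obtain ⟨σ, hσ⟩ := φ.toLinearMap.exists_rightInverse_of_surjective (LinearMap.range_eq_top.2 hφ)
    let ψ : ((S ⧸ I) × k) →ₗ[k] (S ⧸ M) :=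
      σ.coprod (LinearMap.toSpanSingleton k (S ⧸ M) (Ideal.Quotient.mk M a))
    have hψ : Function.Surjective ψ := by
      intro v
      obtain ⟨x, rfl⟩ := Ideal.Quotient.mk_surjective v
      obtain ⟨x', hx'⟩ := Ideal.Quotient.mk_surjective (σ (Ideal.Quotient.mk I x))
      have h3 : φ (Ideal.Quotient.mk M x') = Ideal.Quotient.mk I x := by
        rw [hx']
        exact LinearMap.congr_fun hσ (Ideal.Quotient.mk I x)
      have h4 : x - x' ∈ I := by
        have h5 : Ideal.Quotient.mk I x' = Ideal.Quotient.mk I x := h3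
        exact (Ideal.Quotient.mk_eq_mk_iff_sub_mem x x').1 h5.symm
      obtain ⟨c, hc⟩ := ha _ h4
      refine ⟨(Ideal.Quotient.mk I x, c), ?_⟩
      have h6 : Ideal.Quotient.mk M (x - x') = Ideal.Quotient.mk M (c • a) :=
        (Ideal.Quotient.mk_eq_mk_iff_sub_mem _ _).2 hc
      show σ (Ideal.Quotient.mk I x) + c • Ideal.Quotient.mk M a = Ideal.Quotient.mk M x
      rw [← hx']
      have h7 : c • Ideal.Quotient.mk M a = Ideal.Quotient.mk M (c • a) := rfl
      rw [h7, ← h6, map_sub]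
      ring
    have : Module.Finite k (S ⧸ I) := h1
    have h8 : Module.Finite k (S ⧸ M) := Module.Finite.of_surjective ψ hψ
    refine ⟨h8, ?_⟩
    calc Module.finrank k (S ⧸ M) ≤ Module.finrank k ((S ⧸ I) × k) :=
          LinearMap.finrank_le_finrank_of_surjective hψ
      _ = Module.finrank k (S ⧸ I) + 1 := by rw [Module.finrank_prod, Module.finrank_self]
      _ ≤ n + 1 := by omega

end Pool.Agent.SPC
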