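import Pool.Agent.SPC.CPol
import Pool.Agent.SPC.CNak
import Pool.Agent.SPC.CIdl
import Pool.Agent.SPC.CPrd
import Pool.Agent.SPC.CBas
import Pool.Agent.SPC.CChr
import Pool.Agent.SPC.COcc

/-!
# The relation between divisors: preparations
-/

noncomputable section

namespace Pool.Agent.SPC

open Polynomial TensorProduct

universe u v w w'

variable {k : Type u} {S : Type v} [Field k] [CommRing S] [Algebra k S] {h : S}
  {B : Type w} [CommRing B] [Algebra k B]

/-- The value at `X = c`. -/
def at_ (B : Type w) [CommRing B] [Algebra k B] (c : B) : B[X] →ₐ[k] B :=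
  ((aeval c : B[X] →ₐ[B] B)).restrictScalars k

/-- The inclusion of the constants. -/
def cst (k : Type u) [Field k] (B : Type w) [CommRing B] [Algebra k B] : B →ₐ[k] B[X] :=
  (Algebra.ofId B B[X]).restrictScalars k

theorem at_cst (c : B) : (at_ (k := k) B c).comp (cst k B) = AlgHom.id k B := by
  ext b
  simp [at_, cst, Algebra.ofId_apply]

/-- Combination of two elements of `B ⊗ S`: `(1 - X) l + X l'`. -/
def mix (l l' : B ⊗[k] S) : B[X] ⊗[k] S :=
  (1 - X : B[X]) • bc S (cst k B) l + (X : B[X]) • bc S (cst k B) l'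

theorem mix_mem {F : Fil k h} {m : ℕ} {l l' : B ⊗[k] S} (hl : l ∈ F.LB B m) (hl' : l' ∈ F.LB B m) :
    mix l l' ∈ F.LB B[X] m :=
  Submodule.add_mem _ (Submodule.smul_mem _ _ (bc_mem _ hl)) (Submodule.smul_mem _ _ (bc_mem _ hl'))

theorem bc_smul {B' : Type w'} [CommRing B'] [Algebra k B'] (φ : B →ₐ[k] B') (b : B)
    (l : B ⊗[k] S) : bc S φ (b • l) = φ b • bc S φ l := by
  induction l using TensorProduct.induction_on with
  | zero => simp
  | tmul x y => simp [bc, TensorProduct.smul_tmul']
  | add x y hx hy => rw [smul_add, map_add, hx, hy, map_add, smul_add]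

theorem bc_comp {B' : Type w'} [CommRing B'] [Algebra k B'] {B'' : Type*} [CommRing B'']
    [Algebra k B''] (φ : B →ₐ[k] B') (ψ : B' →ₐ[k] B'') (l : B ⊗[k] S) :
    bc S ψ (bc S φ l) = bc S (ψ.comp φ) l := by
  induction l using TensorProduct.induction_on with
  | zero => simp
  | tmul x y => simp [bc]
  | add x y hx hy => rw [map_add, map_add, map_add, hx, hy]

theorem bc_id (l : B ⊗[k] S) : bc S (AlgHom.id k B) l = l := by
  induction l using TensorProduct.induction_on with
  | zero => simp
  | tmul x y => simp [bc]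
  | add x y hx hy => rw [map_add, hx, hy]

theorem mix_zero (l l' : B ⊗[k] S) : bc S (at_ (k := k) B 0) (mix l l') = l := by
  rw [mix, map_add, bc_smul, bc_smul, bc_comp, bc_comp, at_cst, bc_id, bc_id]
  simp [at_]

theorem mix_one (l l' : B ⊗[k] S) : bc S (at_ (k := k) B 1) (mix l l') = l' := by
  rw [mix, map_add, bc_smul, bc_smul, bc_comp, bc_comp, at_cst, bc_id, bc_id]
  simp [at_]

end Pool.Agent.SPC
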