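import Pool.Agent.SPC.CMainA

/-!
# Polynomials in `h` as monic elements; products of multisets of characters
-/

noncomputable section

namespace Pool.Agent.SPC

open Polynomial TensorProduct

universe u v w w'

variable {k : Type u} {S : Type v} [Field k] [CommRing S] [Algebra k S] {h : S}
  {B : Type w} [CommRing B] [Algebra k B]

/-- The polynomial `u` in `h`. -/
def pol (h : S) (u : B[X]) : B ⊗[k] S := aeval ((1 : B) ⊗ₜ[k] h) u

theorem pol_X_pow (m : ℕ) : pol h (X ^ m : B[X]) = ((1 : B) ⊗ₜ[k] (h ^ m) : B ⊗[k] S) := by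
  rw [pol, map_pow, aeval_X, Algebra.TensorProduct.tmul_pow, one_pow]

theorem pol_X_sub_C (c : B) :
    pol h (X - C c : B[X]) = ((1 : B) ⊗ₜ[k] h - c ⊗ₜ[k] (1 : S) : B ⊗[k] S) := by
  rw [pol, map_sub, aeval_X, aeval_C]
  rfl

theorem pol_mul (u v : B[X]) : (pol h (u * v) : B ⊗[k] S) = pol h u * pol h v := by
  rw [pol, map_mul]
  rfl

theorem pol_mem (F : Fil k h) {m : ℕ} {u : B[X]} (hu : u.natDegree ≤ m) : pol h u ∈ F.LB B m := by
  rw [pol, aeval_eq_sum_range]
  refine Submodule.sum_mem _ fun i hi => ?_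
  rw [Algebra.TensorProduct.tmul_pow, one_pow]
  refine Submodule.smul_mem _ _ ?_
  refine F.LB_mono ?_ (F.tmul_mem_LB (F.h_pow_mem i) 1)
  have := Finset.mem_range.1 hi
  omega

theorem exists_monic_pol (F : Fil k h) {m : ℕ} {u : B[X]} (hu : u.Monic)
    (hd : u.natDegree = m + 1) : ∃ l ∈ F.LB B m, monic h m l = pol h u := by
  refine ⟨(1 : B) ⊗ₜ[k] h ^ (m + 1) - pol h u, ?_, by rw [monic]; abel⟩
  have h1 : ((1 : B) ⊗ₜ[k] h ^ (m + 1) : B ⊗[k] S) - pol h u = pol h (X ^ (m + 1) - u) := by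
    rw [pol, pol, map_sub, map_pow, aeval_X]
  rw [h1]
  apply pol_mem
  by_cases h0 : X ^ (m + 1) - u = 0
  · rw [h0]; simp
  · rcases subsingleton_or_nontrivial B with hB | hB
    · rw [Subsingleton.elim (X ^ (m + 1) - u) 0]; simp
    have h2 : (X ^ (m + 1) - u).degree < (X ^ (m + 1) : B[X]).degree := by
      apply degree_sub_lt_left
      · rw [degree_X_pow, degree_eq_natDegree hu.ne_zero, hd]
      · exact (monic_X_pow _).ne_zero
      · rw [(monic_X_pow _).leadingCoeff, hu.leadingCoeff]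
    rw [degree_X_pow, degree_eq_natDegree h0] at h2
    have h3 : (X ^ (m + 1) - u).natDegree < m + 1 := by exact_mod_cast h2
    omega

theorem bc_pol {B' : Type w'} [CommRing B'] [Algebra k B'] (φ : B →ₐ[k] B') (u : B[X]) :
    bc S φ (pol h u) = pol h (u.map (φ : B →+* B')) := by
  induction u using Polynomial.induction_on' with
  | add p q hp hq =>
    have e1 : pol h (p + q) = (pol h p + pol h q : B ⊗[k] S) := by rw [pol, map_add]; rfl
    have e2 : pol h ((p + q).map (φ : B →+* B')) =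
        (pol h (p.map (φ : B →+* B')) + pol h (q.map (φ : B →+* B')) : B' ⊗[k] S) := by
      rw [Polynomial.map_add, pol, map_add]; rfl
    rw [e1, map_add, hp, hq, e2]
  | monomial i b =>
    rw [pol, pol, map_monomial, aeval_monomial, aeval_monomial, map_mul, map_pow]
    have e1 : bc S φ (algebraMap B (B ⊗[k] S) b) = algebraMap B' (B' ⊗[k] S) (φ b) := by
      show bc S φ (b ⊗ₜ[k] (1 : S)) = φ b ⊗ₜ[k] (1 : S)
      simp [bc]
    have e2 : bc S φ ((1 : B) ⊗ₜ[k] h) = (1 : B') ⊗ₜ[k] h := by simp [bc]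
    rw [e1, e2]
    rfl

section

variable {K : Type w} [Field K] [Algebra k K]

theorem cp_zero (s : S) : cp (0 : Multiset (S →ₐ[k] K)) s = 1 := by simp [cp]

theorem cp_cons (χ : S →ₐ[k] K) (A : Multiset (S →ₐ[k] K)) (s : S) :
    cp (χ ::ₘ A) s = (X - C (χ s)) * cp A s := by simp [cp]

/-- From each `A (χ h)`, `χ ∈ W`, one can take away `χ`. -/
theorem exists_comp (W : Multiset (S →ₐ[k] K)) (A : K → Multiset (S →ₐ[k] K)) {D : ℕ}
    (hD : ∀ c, (A c).card = D) (hA : ∀ χ ∈ W, χ ∈ A (χ h)) :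
    ∃ E : Multiset (S →ₐ[k] K), E.card = W.card * (D - 1) ∧
      ∀ s, cp W s * cp E s = (W.map fun χ => cp (A (χ h)) s).prod := by
  classical
  induction W using Multiset.induction_on with
  | empty => exact ⟨0, by simp, fun s => by simp [cp_zero]⟩
  | cons χ W ih =>
    obtain ⟨E, hE, hE'⟩ := ih (fun ψ hψ => hA ψ (Multiset.mem_cons_of_mem hψ))
    have hχ := hA χ (Multiset.mem_cons_self χ W)
    refine ⟨(A (χ h)).erase χ + E, ?_, fun s => ?_⟩
    · rw [Multiset.card_add, Multiset.card_erase_of_mem hχ, hD, hE, Multiset.card_cons, Nat.pred_eq_sub_one]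
      ring
    · rw [cp_cons, cp_add, Multiset.map_cons, Multiset.prod_cons, ← hE' s]
      have h1 : cp (A (χ h)) s = (X - C (χ s)) * cp ((A (χ h)).erase χ) s := by
        rw [← cp_cons, Multiset.cons_erase hχ]
      rw [h1]
      ring

end

end Pool.Agent.SPC
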