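import Pool.Agent.SPC.CDiv

/-!
# The ideal of `n` points of `Spec S` with values in `B`: finiteness of the quotient

MODULE SPC-CNakA. PLAN. `ev φ x : B ⊗ S → B'` is `b ⊗ s ↦ φ b * x s`. `pts x = ∏ i, ker (ev id (x i))`.
* `one_tmul_sub_mem`: `ev id (x i) (1 ⊗ s - x_i(s) ⊗ 1) = 0`.
* `pts_finite`: `P = ∏ i, (1 ⊗ h - x_i(h) ⊗ 1) ∈ pts x` (`Ideal.prod_mem_prod`). If `n = 0` then
  `pts x = ⊤`. If `n = n' + 1` then `P = monic h n' l₀` with `l₀ ∈ F.LB B n'` (induction: a product of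
  `r` such factors is `1 ⊗ h^r` plus an element of `F.LB B (r-1)`, or is `1` for `r = 0`; `LB_mul`,
  `tmul_mem_LB`, `LB_mono`, `F.h_mem`, `F.one`). By `exists_div'` and `exists_mem_LB` (with `LB_mono`)
  every element of `B ⊗ S` is congruent modulo `P` to a combination of the finitely many
  `1 ⊗ h^e b_c`, so `(B ⊗ S) / pts x` is a finite `B`-module (`Module.Finite.of_surjective` or a finite
  spanning set).
-/

noncomputable section

namespace Pool.Agent.SPC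

open Polynomial TensorProduct

universe u v w w'

variable {k : Type u} {S : Type v} [Field k] [CommRing S] [Algebra k S] {h : S}
  {B : Type w} [CommRing B] [Algebra k B]

/-- `b ⊗ s ↦ φ b * x s`. -/
def ev {B' : Type w'} [CommRing B'] [Algebra k B'] (φ : B →ₐ[k] B') (x : S →ₐ[k] B') :
    B ⊗[k] S →ₐ[k] B' :=
  Algebra.TensorProduct.productMap φ x

@[simp] theorem ev_tmul {B' : Type w'} [CommRing B'] [Algebra k B'] (φ : B →ₐ[k] B')
    (x : S →ₐ[k] B') (b : B) (s : S) : ev φ x (b ⊗ₜ[k] s) = φ b * x s :=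
  Algebra.TensorProduct.productMap_apply_tmul φ x b s

/-- The ideal of the divisor `x_1 + ... + x_n`. -/
def pts {n : ℕ} (x : Fin n → (S →ₐ[k] B)) : Ideal (B ⊗[k] S) :=
  ∏ i, RingHom.ker (ev (AlgHom.id k B) (x i))

theorem one_tmul_sub_mem (x : S →ₐ[k] B) (s : S) :
    (1 : B) ⊗ₜ[k] s - x s ⊗ₜ[k] (1 : S) ∈ RingHom.ker (ev (AlgHom.id k B) x) := by
  rw [RingHom.mem_ker, map_sub, ev_tmul, ev_tmul, map_one, map_one, one_mul, mul_one]
  exact sub_self _

theorem pts_le {n : ℕ} (x : Fin n → (S →ₐ[k] B)) (i : Fin n) :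
    pts x ≤ RingHom.ker (ev (AlgHom.id k B) (x i)) := by
  exact Ideal.prod_le_inf.trans (Finset.inf_le (Finset.mem_univ i))

private theorem pow_mem (F : Fil k h) (m : ℕ) : h ^ m ∈ F.L m := by
  induction m with
  | zero =>
    rw [pow_zero]
    exact F.one
  | succ m ih =>
    rw [pow_succ]
    exact F.mul ih F.h_mem

private theorem prod_eq (F : Fil k h) (n : ℕ) (c : Fin (n + 1) → B) :
    ∃ l ∈ F.LB B n, ∏ i, ((1 : B) ⊗ₜ[k] h - c i ⊗ₜ[k] (1 : S)) = monic h n l := by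
  induction n with
  | zero =>
    refine ⟨c 0 ⊗ₜ[k] (1 : S), F.tmul_mem_LB F.one _, ?_⟩
    unfold monic
    have h1 : ((1 : B) ⊗ₜ[k] h : B ⊗[k] S) ^ (0 + 1) = (1 : B) ⊗ₜ[k] h := by rw [zero_add, pow_one]
    rw [Fin.prod_univ_succ, Fin.prod_univ_zero, mul_one, h1]
  | succ n ih =>
    obtain ⟨l, hl, h1⟩ := ih fun i => c i.castSucc
    have h2 : l * ((1 : B) ⊗ₜ[k] h) ∈ F.LB B (n + 1) := F.LB_mul hl (F.tmul_mem_LB F.h_mem _)
    have h3 : c (Fin.last _) ⊗ₜ[k] (h ^ (n + 1)) ∈ F.LB B (n + 1) := F.tmul_mem_LB (pow_mem F _) _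
    have h40 : l * (c (Fin.last _) ⊗ₜ[k] (1 : S)) ∈ F.LB B (n + 0) :=
      F.LB_mul hl (F.tmul_mem_LB F.one _)
    have h41 : F.LB B (n + 0) ≤ F.LB B (n + 1) := F.LB_mono (Nat.le_succ n)
    have h4 : l * (c (Fin.last _) ⊗ₜ[k] (1 : S)) ∈ F.LB B (n + 1) := h41 h40
    have h7 := (F.LB B (n + 1)).sub_mem ((F.LB B (n + 1)).add_mem h2 h3) h4
    refine ⟨l * ((1 : B) ⊗ₜ[k] h) + c (Fin.last _) ⊗ₜ[k] (h ^ (n + 1)) -
      l * (c (Fin.last _) ⊗ₜ[k] (1 : S)), h7, ?_⟩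
    rw [Fin.prod_univ_castSucc, h1]
    have h6 : (c (Fin.last _) ⊗ₜ[k] (h ^ (n + 1)) : B ⊗[k] S) =
        ((1 : B) ⊗ₜ[k] h) ^ (n + 1) * (c (Fin.last _) ⊗ₜ[k] (1 : S)) := by
      rw [Algebra.TensorProduct.tmul_pow, one_pow, Algebra.TensorProduct.tmul_mul_tmul, one_mul, mul_one]
    unfold monic
    rw [h6, pow_succ ((1 : B) ⊗ₜ[k] h : B ⊗[k] S) (n + 1)]
    ring

theorem pts_finite {F : Fil k h} {D : ℕ} (R : RBas F D) {n : ℕ} (x : Fin n → (S →ₐ[k] B)) :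
    Module.Finite B ((B ⊗[k] S) ⧸ pts x) := by
  cases n with
  | zero =>
    have h1 : pts x = ⊤ := by
      unfold pts
      rw [Finset.univ_eq_empty, Finset.prod_empty, Ideal.one_eq_top]
    have h2 : Subsingleton ((B ⊗[k] S) ⧸ pts x) := by
      rw [h1]
      exact Ideal.Quotient.subsingleton_iff.2 rfl
    infer_instance
  | succ n =>
    obtain ⟨l, hl, h1⟩ := prod_eq F n fun i => x i h
    have h2 : monic h n l ∈ pts x := by
      rw [← h1]
      exact Ideal.prod_mem_prod fun i _ => one_tmul_sub_mem (x i) h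
    classical
    refine ⟨⟨(Finset.univ : Finset (Fin (n + 1) × Fin D)).image fun y =>
      Ideal.Quotient.mkₐ B (pts x) ((1 : B) ⊗ₜ[k] (h ^ (y.1 : ℕ) * R.b y.2)), ?_⟩⟩
    rw [eq_top_iff]
    rintro q -
    obtain ⟨t, rfl⟩ := Ideal.Quotient.mkₐ_surjective B (pts x) q
    obtain ⟨m, hm⟩ := F.exists_mem_LB t
    obtain ⟨c, s, -, hs⟩ := exists_div' R hl m (F.LB_mono (Nat.le_add_right m (n + 1)) hm)
    have h3 : Ideal.Quotient.mkₐ B (pts x) (monic h n l * s) = 0 := by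
      rw [Ideal.Quotient.mkₐ_eq_mk, Ideal.Quotient.eq_zero_iff_mem]
      exact Ideal.mul_mem_right _ _ h2
    rw [hs, map_add, h3, add_zero, map_sum]
    refine Submodule.sum_mem _ fun y _ => ?_
    rw [map_smul]
    refine Submodule.smul_mem _ _ (Submodule.subset_span ?_)
    rw [Finset.mem_coe]
    exact Finset.mem_image_of_mem _ (Finset.mem_univ y)

end Pool.Agent.SPC
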