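import Pool.Agent.SPC.CNakA

/-!
# The ideal of `n` points over a closed point of `Spec B`

MODULE SPC-CNakB. PLAN. `β : B →ₐ[k] k`, `θ = red β : B ⊗ S → S`, `b ⊗ s ↦ β b • s`, a surjective ring
homomorphism (`θ (1 ⊗ s) = s`).
* `ker_red`: for `t = ∑ b_j ⊗ s_j`: `t - 1 ⊗ θ t = ∑ (b_j - β(b_j)) • (1 ⊗ s_j)`, so
  `t ∈ (ker β) • ⊤ + 1 ⊗ θ t` (induction on `t`).
* `exists_pts_lift`: for `s ∈ ∏ ker (β ∘ x_i)` there is `t ∈ pts x` with `θ t = s`: the map `θ` maps
  `ker (ev id (x i))` ONTO `ker (β ∘ x_i)` (`s` is the image of `1 ⊗ s - x_i(s) ⊗ 1`), so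
  `Ideal.map θ (ker (ev id (x i))) = ker (β ∘ x_i)`, `Ideal.map` commutes with finite products
  (`Ideal.map_prod` or induction with `Ideal.map_mul`), and for a surjective `θ` every element of
  `Ideal.map θ I` is an image (`Ideal.mem_map_iff_of_surjective`).
* `exists_LB_lift`: `1 ⊗ s`.
-/

noncomputable section

namespace Pool.Agent.SPC

open Polynomial TensorProduct

universe u v w w'

variable {k : Type u} {S : Type v} [Field k] [CommRing S] [Algebra k S] {h : S}
  {B : Type w} [CommRing B] [Algebra k B]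

/-- `b ⊗ s ↦ β b • s`. -/
def red (S : Type v) [CommRing S] [Algebra k S] (β : B →ₐ[k] k) : B ⊗[k] S →ₐ[k] S :=
  Algebra.TensorProduct.productMap ((Algebra.ofId k S).comp β) (AlgHom.id k S)

private theorem red_tmul (β : B →ₐ[k] k) (b : B) (s : S) : red S β (b ⊗ₜ[k] s) = β b • s := by
  unfold red
  rw [Algebra.TensorProduct.productMap_apply_tmul]
  rw [AlgHom.comp_apply, Algebra.ofId_apply, AlgHom.id_apply, Algebra.smul_def]

private theorem red_one (β : B →ₐ[k] k) (s : S) : red S β ((1 : B) ⊗ₜ[k] s) = s := by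
  rw [red_tmul, map_one, one_smul]

private theorem red_surj (β : B →ₐ[k] k) : Function.Surjective (red S β) := fun s => ⟨_, red_one β s⟩

theorem ker_red (β : B →ₐ[k] k) (t : B ⊗[k] S) :
    t - (1 : B) ⊗ₜ[k] red S β t ∈ (RingHom.ker β) • (⊤ : Submodule B (B ⊗[k] S)) := by
  induction t using TensorProduct.induction_on with
  | zero =>
    rw [map_zero, TensorProduct.tmul_zero, sub_zero]
    exact Submodule.zero_mem _
  | tmul b s =>
    have h1 : b ⊗ₜ[k] s - (1 : B) ⊗ₜ[k] red S β (b ⊗ₜ[k] s) =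
        (b - algebraMap k B (β b)) • ((1 : B) ⊗ₜ[k] s) := by
      rw [red_tmul, TensorProduct.tmul_smul, TensorProduct.smul_tmul', TensorProduct.smul_tmul',
        smul_eq_mul, mul_one, TensorProduct.sub_tmul, Algebra.smul_def, mul_one]
    rw [h1]
    refine Submodule.smul_mem_smul ?_ Submodule.mem_top
    rw [RingHom.mem_ker, map_sub, AlgHom.commutes, Algebra.algebraMap_self, RingHom.id_apply, sub_self]
  | add t u ht hu =>
    have h1 : t + u - (1 : B) ⊗ₜ[k] red S β (t + u) =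
        (t - (1 : B) ⊗ₜ[k] red S β t) + (u - (1 : B) ⊗ₜ[k] red S β u) := by
      rw [map_add, TensorProduct.tmul_add]
      abel
    rw [h1]
    exact Submodule.add_mem _ ht hu

private theorem ker_le_map (β : B →ₐ[k] k) (x : S →ₐ[k] B) :
    RingHom.ker (β.comp x) ≤ Ideal.map (red S β) (RingHom.ker (ev (AlgHom.id k B) x)) := by
  intro s hs
  have h1 : red S β ((1 : B) ⊗ₜ[k] s - x s ⊗ₜ[k] (1 : S)) = s := by
    have h2 : β (x s) = 0 := hs
    rw [map_sub, red_one, red_tmul, h2, zero_smul, sub_zero]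
  rw [← h1]
  exact Ideal.mem_map_of_mem _ (one_tmul_sub_mem x s)

theorem exists_pts_lift {n : ℕ} (x : Fin n → (S →ₐ[k] B)) (β : B →ₐ[k] k) {s : S}
    (hs : s ∈ ∏ i, RingHom.ker (β.comp (x i))) : ∃ t ∈ pts x, red S β t = s := by
  have key : ∀ T : Finset (Fin n), ∏ i ∈ T, RingHom.ker (β.comp (x i)) ≤
      Ideal.map (red S β) (∏ i ∈ T, RingHom.ker (ev (AlgHom.id k B) (x i))) := by
    classical
    intro T
    induction T using Finset.induction_on with
    | empty =>
      rw [Finset.prod_empty, Finset.prod_empty, Ideal.one_eq_top, Ideal.one_eq_top, Ideal.map_top]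
    | insert a T ha ih =>
      rw [Finset.prod_insert ha, Finset.prod_insert ha, Ideal.map_mul]
      exact Ideal.mul_mono (ker_le_map β (x a)) ih
  exact (Ideal.mem_map_iff_of_surjective (red S β) (red_surj β)).1 (key Finset.univ hs)

theorem exists_LB_lift (F : Fil k h) {m : ℕ} (β : B →ₐ[k] k) {s : S} (hs : s ∈ F.L m) :
    ∃ t ∈ F.LB B m, red S β t = s := by
  exact ⟨_, F.tmul_mem_LB hs 1, red_one β s⟩

end Pool.Agent.SPC
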