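import Pool.Agent.SPC.CRep
import Pool.Agent.SPC.CNak

/-!
# The zeros of a monic element give roots of the characteristic polynomials

MODULE SPC-CRoot. PLAN. `root_of_ev`: `ev id x : B ⊗ S → B` kills the ideal generated by
`monic h m l`, so it induces a `B`-algebra homomorphism `ψ : Q → B`, `Q = (B ⊗ S) / (monic)`, with
`ψ [1 ⊗ s] = x s`. By Cayley-Hamilton for the multiplication by `q = [1 ⊗ s]` on the free module `Q`
(`Matrix.aeval_self_charpoly` for `rep s = leftMulMatrix q`, and `leftMulMatrix` is an injective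
algebra homomorphism, `Algebra.leftMulMatrix_injective`) `aeval q (charpoly (rep s)) = 0`; apply
`ψ`. `ev_const`: compute `ev` on `1 ⊗ h - c ⊗ 1`.
-/

noncomputable section

namespace Pool.Agent.SPC

open Polynomial TensorProduct

universe u v w w'

variable {k : Type u} {S : Type v} [Field k] [CommRing S] [Algebra k S] {h : S}
  {B : Type w} [CommRing B] [Algebra k B]

theorem root_of_ev {F : Fil k h} {D m₁ : ℕ} (hg : F.Grows D m₁) (R : RBas F D) {m : ℕ}
    {l : B ⊗[k] S} (hl : l ∈ F.LB B m) (x : S →ₐ[k] B)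
    (hx : ev (AlgHom.id k B) x (monic h m l) = 0) (s : S) :
    (rep hg R hl s).charpoly.IsRoot (x s) := by
  have hlift : ∀ a ∈ Ideal.span {monic h m l},
      ((ev (AlgHom.id k B) x : B ⊗[k] S →ₐ[k] B) : B ⊗[k] S →+* B) a = 0 := by
    intro a ha
    obtain ⟨b, rfl⟩ := Ideal.mem_span_singleton'.1 ha
    rw [map_mul]
    have h1 : ((ev (AlgHom.id k B) x : B ⊗[k] S →ₐ[k] B) : B ⊗[k] S →+* B) (monic h m l) = 0 := hx
    rw [h1, mul_zero]
  obtain ⟨ψ, hψ⟩ : ∃ ψ : ((B ⊗[k] S) ⧸ Ideal.span {monic h m l}) →+* B,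
      ∀ t, ψ (Ideal.Quotient.mk _ t) = ev (AlgHom.id k B) x t :=
    ⟨Ideal.Quotient.lift _ _ hlift, fun t => rfl⟩
  obtain ⟨q, hq⟩ : ∃ q : (B ⊗[k] S) ⧸ Ideal.span {monic h m l},
      q = Ideal.Quotient.mk _ ((1 : B) ⊗ₜ[k] s) := ⟨_, rfl⟩
  have hrep : rep hg R hl s = Algebra.leftMulMatrix (bas hg R hl) q := by
    rw [hq]
    rfl
  have hch : aeval q (rep hg R hl s).charpoly = 0 := by
    apply Algebra.leftMulMatrix_injective (bas hg R hl)
    rw [map_zero, ← Polynomial.aeval_algHom_apply, hrep]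
    exact Matrix.aeval_self_charpoly _
  have h1 : ψ (aeval q (rep hg R hl s).charpoly) = 0 := by rw [hch, map_zero]
  rw [Polynomial.aeval_def, Polynomial.hom_eval₂] at h1
  have h2 : ψ.comp (algebraMap B ((B ⊗[k] S) ⧸ Ideal.span {monic h m l})) = RingHom.id B := by
    ext b
    have h3 : algebraMap B ((B ⊗[k] S) ⧸ Ideal.span {monic h m l}) b =
        Ideal.Quotient.mk _ (b ⊗ₜ[k] (1 : S)) := rfl
    rw [RingHom.comp_apply, h3, hψ, ev_tmul, map_one, mul_one]
    rfl
  have h4 : ψ q = x s := by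
    rw [hq, hψ, ev_tmul, map_one, one_mul]
  rw [h2, h4] at h1
  exact h1

theorem ev_bc {B' : Type w'} [CommRing B'] [Algebra k B'] (φ : B →ₐ[k] B') (x : S →ₐ[k] B)
    (t : B ⊗[k] S) :
    ev (AlgHom.id k B') (φ.comp x) (bc S φ t) = φ (ev (AlgHom.id k B) x t) := by
  induction t using TensorProduct.induction_on with
  | zero => simp only [map_zero]
  | tmul b s =>
    have h1 : bc S φ (b ⊗ₜ[k] s) = φ b ⊗ₜ[k] s := Algebra.TensorProduct.map_tmul _ _ _ _
    rw [h1, ev_tmul, ev_tmul, map_mul]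
    rfl
  | add a b ha hb => simp only [map_add, ha, hb]

theorem ev_const (x : S →ₐ[k] B) :
    ev (AlgHom.id k B) x (monic h 0 ((x h) ⊗ₜ[k] (1 : S))) = 0 := by
  unfold monic
  rw [map_sub, map_pow, ev_tmul, ev_tmul, map_one, map_one, one_mul, mul_one, zero_add, pow_one]
  exact sub_self _

theorem const_mem_LB (F : Fil k h) (c : B) : c ⊗ₜ[k] (1 : S) ∈ F.LB B 0 :=
  Submodule.tmul_mem_baseChange_of_mem c F.one

theorem bc_monic {B' : Type w'} [CommRing B'] [Algebra k B'] (φ : B →ₐ[k] B') (m : ℕ)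
    (l : B ⊗[k] S) : bc S φ (monic h m l) = monic h m (bc S φ l) := by
  unfold monic
  have h1 : bc S φ ((1 : B) ⊗ₜ[k] h) = φ 1 ⊗ₜ[k] h :=
    Algebra.TensorProduct.map_tmul _ _ _ _
  rw [map_sub, map_pow, h1, map_one]

end Pool.Agent.SPC
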