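import Pool.Agent.SPC.CAdd
import Pool.Agent.SPC.CRoot

/-!
# Characteristic polynomials for a monic polynomial in `h`

MODULE SPC-CPol. PLAN. Induction on the list. For `c₀ :: c₁ :: cs`: put
`l₂ = 1 ⊗ h^(length) - ∏ (1 ⊗ h - c ⊗ 1)` over `c₁ :: cs`; it lies in the right `LB` (the product of
`r` factors `1 ⊗ h - c ⊗ 1` is `1 ⊗ h^r` plus an element of `LB (r - 1)`: separate induction with
`LB_mul`, `tmul_mem_LB`, `LB_mono`, `h_pow_mem`); `charpoly_rep_mul` with `m = 0`. Beware of the types:
the numbers `m + n + 1` and `cs.length` agree only propositionally; state the induction for all `m` with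
`cs.length = m + 1` and `subst`/`obtain rfl`. For a list with one element, `monic h 0 l = 1 ⊗ h - c ⊗ 1`
forces `l = c ⊗ 1`.
-/

noncomputable section

namespace Pool.Agent.SPC

open Polynomial TensorProduct

universe u v w

variable {k : Type u} {S : Type v} [Field k] [CommRing S] [Algebra k S] {h : S}
  {K : Type w} [Field K] [Algebra k K]

private theorem prod_mem (F : Fil k h) : ∀ (cs : List K) (r : ℕ), cs.length = r + 1 →
    ((1 : K) ⊗ₜ[k] h) ^ (r + 1) -
      (cs.map fun c => (1 : K) ⊗ₜ[k] h - c ⊗ₜ[k] (1 : S)).prod ∈ F.LB K r := by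
  intro cs
  induction cs with
  | nil =>
    intro r hr
    simp at hr
  | cons c cs ih =>
    intro r hr
    rw [List.length_cons, Nat.add_right_cancel_iff] at hr
    rw [List.map_cons, List.prod_cons]
    rcases r with _ | r
    · have h0 : cs = [] := List.eq_nil_of_length_eq_zero hr
      subst h0
      rw [List.map_nil, List.prod_nil, mul_one, zero_add, pow_one, sub_sub_cancel]
      exact F.tmul_mem_LB F.one c
    · have h1 := ih r hr
      generalize (cs.map fun c => (1 : K) ⊗ₜ[k] h - c ⊗ₜ[k] (1 : S)).prod = P at h1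
      obtain ⟨q, hq⟩ : ∃ q, q = ((1 : K) ⊗ₜ[k] h) ^ (r + 1) - P := ⟨_, rfl⟩
      rw [← hq] at h1
      have hP : P = ((1 : K) ⊗ₜ[k] h) ^ (r + 1) - q := by rw [hq]; ring
      have e : ((1 : K) ⊗ₜ[k] h) ^ (r + 1 + 1) - ((1 : K) ⊗ₜ[k] h - c ⊗ₜ[k] (1 : S)) * P =
          ((1 : K) ⊗ₜ[k] h) * q + (c ⊗ₜ[k] (1 : S)) * ((1 : K) ⊗ₜ[k] h) ^ (r + 1) -
            (c ⊗ₜ[k] (1 : S)) * q := by
        rw [hP]
        ring
      rw [e]
      have h2 : ((1 : K) ⊗ₜ[k] h) * q ∈ F.LB K (r + 1) := by
        have := F.LB_mul (F.tmul_mem_LB F.h_mem (1 : K)) h1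
        rwa [add_comm 1 r] at this
      have h3 : (c ⊗ₜ[k] (1 : S)) * ((1 : K) ⊗ₜ[k] h) ^ (r + 1) ∈ F.LB K (r + 1) := by
        rw [Algebra.TensorProduct.tmul_pow, Algebra.TensorProduct.tmul_mul_tmul, one_mul]
        exact F.tmul_mem_LB (F.h_pow_mem (r + 1)) _
      have h4 : (c ⊗ₜ[k] (1 : S)) * q ∈ F.LB K (r + 1) := by
        have := F.LB_mul (F.tmul_mem_LB F.one c) h1
        rw [zero_add] at this
        exact F.LB_mono (Nat.le_succ r) this
      exact sub_mem (add_mem h2 h3) h4

theorem charpoly_rep_prod {F : Fil k h} {D m₁ : ℕ} (hg : F.Grows D m₁) (R : RBas F D) {m : ℕ}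
    {l : K ⊗[k] S} (hl : l ∈ F.LB K m) (cs : List K) (hcs : cs.length = m + 1)
    (he : monic h m l = (cs.map fun c => (1 : K) ⊗ₜ[k] h - c ⊗ₜ[k] (1 : S)).prod) (s : S) :
    (rep hg R hl s).charpoly =
      (cs.map fun c => (rep hg R (const_mem_LB F c) s).charpoly).prod := by
  induction cs generalizing m l with
  | nil => simp at hcs
  | cons c cs ih =>
    rw [List.length_cons, Nat.add_right_cancel_iff] at hcs
    rcases cs with _ | ⟨c', cs⟩
    · rw [List.length_nil] at hcs
      subst hcs
      rw [List.map_cons, List.prod_cons, List.map_nil, List.prod_nil, mul_one] at he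
      have h1 : l = c ⊗ₜ[k] (1 : S) := by
        unfold monic at he
        rw [zero_add, pow_one] at he
        exact sub_right_injective he
      subst h1
      rw [List.map_cons, List.prod_cons, List.map_nil, List.prod_nil, mul_one]
    · have hm : m = 0 + cs.length + 1 := by
        rw [List.length_cons] at hcs
        omega
      subst hm
      have h2 : ((1 : K) ⊗ₜ[k] h) ^ (cs.length + 1) -
          ((c' :: cs).map fun c => (1 : K) ⊗ₜ[k] h - c ⊗ₜ[k] (1 : S)).prod ∈
            F.LB K cs.length := prod_mem F (c' :: cs) cs.length (by rw [List.length_cons])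
      have h3 : monic h cs.length (((1 : K) ⊗ₜ[k] h) ^ (cs.length + 1) -
          ((c' :: cs).map fun c => (1 : K) ⊗ₜ[k] h - c ⊗ₜ[k] (1 : S)).prod) =
          ((c' :: cs).map fun c => (1 : K) ⊗ₜ[k] h - c ⊗ₜ[k] (1 : S)).prod := by
        unfold monic
        rw [sub_sub_cancel]
      have h4 := ih h2 (by rw [List.length_cons]) h3
      have h5 := charpoly_rep_mul hg R (const_mem_LB F c) h2 hl (by
        rw [he, h3, List.map_cons, List.prod_cons]
        congr 1
        unfold monic
        rw [zero_add, pow_one]) s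
      rw [h5, h4, List.map_cons (f := fun c => (rep hg R (const_mem_LB F c) s).charpoly)
        (a := c) (l := c' :: cs), List.prod_cons]

end Pool.Agent.SPC
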