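import Pool.Agent.SPC.CDiv
import Pool.Agent.SPC.CGro

/-!
# The quotient by a monic element is free

MODULE SPC-CQuo. PLAN. Spanning is `exists_div'` (with `exists_mem_LB`). Independence: suppose
`∑ c x • (1 ⊗ h^x.1 b x.2) = monic h m l * s`. Take `j ≥ m₁` with `s ∈ F.LB B j` and
`a c ≤ j` for all `c`. The `B`-linear map
`Φ : (Fin (m+1) × Fin D → B) × F.LB B j → F.LB B (j + (m+1))`,
`(c, s) ↦ ∑ c x • (1 ⊗ h^x.1 b x.2) + monic h m l * s` is well defined (`tmul_mem_LB`, `LB_mul`) and
surjective (`exists_div'`); source and target are free of ranks `(m+1) D + finrank L j` and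
`finrank L (j + (m+1))` (`F.LB B j ≃ B ⊗[k] L j`, `k` is a field), which are equal by `Grows`
(`grows_add`). A surjective linear map between free modules of the same finite rank over a
commutative ring is injective (compose with an isomorphism and use
`OrzechProperty.injective_of_surjective_endomorphism` or `Module.End` version
`LinearMap.injective_of_surjective` for finite modules). Apply to `(c, -s) ↦ 0`.
-/

noncomputable section

namespace Pool.Agent.SPC

open Polynomial TensorProduct

universe u v w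

variable {k : Type u} {S : Type v} [Field k] [CommRing S] [Algebra k S] {h : S}
  {B : Type w} [CommRing B] [Algebra k B]

private theorem cquo_b_mem {F : Fil k h} {D : ℕ} (R : RBas F D) (c : Fin D) : R.b c ∈ F.L (R.a c) := by
  classical
  have h1 := (R.mem_iff (fun i => if i = c then 1 else 0) (R.a c)).mpr (by
    intro i
    by_cases hi : i = c
    · right
      simp [hi]
    · left
      simp [hi])
  have h2 : ∑ i, aeval h ((fun i => if i = c then (1 : k[X]) else 0) i) * R.b i = R.b c := by
    rw [Finset.sum_eq_single c]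
    · simp
    · intro b _ hb
      simp [hb]
    · intro hc
      exact absurd (Finset.mem_univ c) hc
  rwa [h2] at h1

private theorem cquo_equiv (F : Fil k h) (m : ℕ) :
    Nonempty (F.LB B m ≃ₗ[B] (Fin (Module.finrank k (F.L m)) → B)) := by
  have := F.fin m
  let b := Module.finBasis k (F.L m)
  let b' := Algebra.TensorProduct.basis B b
  exact ⟨(Submodule.toBaseChange.toLinearEquiv B (F.L m)).symm.trans b'.equivFun⟩

private theorem cquo_inj {M N : Type*} [AddCommGroup M] [Module B M] [AddCommGroup N] [Module B N] (e : N ≃ₗ[B] M)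
    {q : ℕ} (e' : N ≃ₗ[B] (Fin q → B)) (Φ : M →ₗ[B] N) (hΦ : Function.Surjective Φ) : Function.Injective Φ := by
  have : Module.Finite B N := Module.Finite.equiv e'.symm
  have h1 : Function.Surjective (Φ.comp e.toLinearMap) := by
    intro y
    obtain ⟨x, hx⟩ := hΦ y
    exact ⟨e.symm x, by simp [hx]⟩
  have h2 := OrzechProperty.injective_of_surjective_endomorphism _ h1
  intro x y hxy
  have h3 : Φ.comp e.toLinearMap (e.symm x) = Φ.comp e.toLinearMap (e.symm y) := by simp [hxy]
  exact e.symm.injective (h2 h3)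

theorem exists_bas {F : Fil k h} {D m₁ : ℕ} (hg : F.Grows D m₁) (R : RBas F D) {m : ℕ}
    {l : B ⊗[k] S} (hl : l ∈ F.LB B m) :
    ∃ e : Module.Basis (Fin (m + 1) × Fin D) B ((B ⊗[k] S) ⧸ Ideal.span {monic h m l}),
      ∀ x, e x = Ideal.Quotient.mk (Ideal.span {monic h m l})
        ((1 : B) ⊗ₜ[k] (h ^ (x.1 : ℕ) * R.b x.2)) := by
  classical
  set v : Fin (m + 1) × Fin D → B ⊗[k] S := fun x => (1 : B) ⊗ₜ[k] (h ^ (x.1 : ℕ) * R.b x.2) with hv
  set M := monic h m l with hM
  have hMm : M ∈ F.LB B (m + 1) := by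
    rw [hM]
    unfold monic
    rw [Algebra.TensorProduct.tmul_pow, one_pow]
    exact Submodule.sub_mem _ (F.tmul_mem_LB (F.h_pow_mem _) (1 : B)) (F.LB_mono (Nat.le_succ m) hl)
  have hvm : ∀ x, v x ∈ F.LB B ((x.1 : ℕ) + R.a x.2) := fun x =>
    F.tmul_mem_LB (F.mul (F.h_pow_mem _) (cquo_b_mem R x.2)) 1
  have hli : LinearIndependent B (fun x => Ideal.Quotient.mk (Ideal.span {M}) (v x)) := by
    rw [Fintype.linearIndependent_iff]
    intro c hc
    have h1 : Ideal.Quotient.mk (Ideal.span {M}) (∑ x, c x • v x) = 0 := by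
      rw [map_sum, ← hc]
      refine Finset.sum_congr rfl fun x _ => ?_
      rfl
    rw [Ideal.Quotient.eq_zero_iff_mem, Ideal.mem_span_singleton] at h1
    obtain ⟨s, hs⟩ := h1
    obtain ⟨j₀, hj₀⟩ := F.exists_mem_LB s
    set j := j₀ + m₁ + ∑ i, R.a i with hj
    have hsj : s ∈ F.LB B j := F.LB_mono (by omega) hj₀
    have haj : ∀ i, R.a i ≤ j := fun i => by
      have := Finset.single_le_sum (f := R.a) (fun _ _ => Nat.zero_le _) (Finset.mem_univ i)
      omega
    have hvj : ∀ x, v x ∈ F.LB B (j + (m + 1)) := fun x => F.LB_mono (by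
      have h2 := haj x.2
      have h3 := x.1.2
      omega) (hvm x)
    let Φ₁ : (Fin (m + 1) × Fin D → B) →ₗ[B] F.LB B (j + (m + 1)) :=
      Fintype.linearCombination B (fun x => (⟨v x, hvj x⟩ : F.LB B (j + (m + 1))))
    let Φ₂ : F.LB B j →ₗ[B] F.LB B (j + (m + 1)) :=
      LinearMap.codRestrict _ ((LinearMap.mulLeft B M).comp (F.LB B j).subtype) (by
        intro y
        have := F.LB_mul hMm y.2
        rw [add_comm (m + 1) j] at this
        exact this)
    let Φ := Φ₁.coprod Φ₂
    have hΦ1 : ∀ (d : Fin (m + 1) × Fin D → B) (y : F.LB B j), ((Φ (d, y) : F.LB B (j + (m + 1))) : B ⊗[k] S) =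
        ∑ x, d x • v x + M * y := by
      intro d y
      simp only [Φ, LinearMap.coprod_apply, Submodule.coe_add]
      congr 1
      simp only [Φ₁, Fintype.linearCombination_apply]
      rw [Submodule.coe_sum]
      rfl
    have hsurj : Function.Surjective Φ := by
      intro t
      obtain ⟨d, y, hy, h2⟩ := exists_div' R hl j t.2
      refine ⟨(d, ⟨y, hy⟩), ?_⟩
      apply Subtype.ext
      rw [hΦ1]
      exact h2.symm
    obtain ⟨e1⟩ := cquo_equiv (B := B) F j
    obtain ⟨e2⟩ := cquo_equiv (B := B) F (j + (m + 1))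
    have hcard : Module.finrank k (F.L (j + (m + 1))) = (m + 1) * D + Module.finrank k (F.L j) := by
      rw [F.grows_add hg (by omega) (m + 1)]
      ring
    let eι : (Fin (m + 1) × Fin D) ⊕ Fin (Module.finrank k (F.L j)) ≃ Fin (Module.finrank k (F.L (j + (m + 1)))) :=
      Fintype.equivOfCardEq (by simp [hcard])
    let E : F.LB B (j + (m + 1)) ≃ₗ[B] (Fin (m + 1) × Fin D → B) × F.LB B j :=
      e2.trans ((LinearEquiv.funCongrLeft B B eι).trans
        ((LinearEquiv.sumArrowLequivProdArrow _ _ B B).trans (LinearEquiv.prodCongr (LinearEquiv.refl B _) e1.symm)))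
    have hinj := cquo_inj E e2 Φ hsurj
    have h0 : Φ (c, -⟨s, hsj⟩) = 0 := by
      apply Subtype.ext
      rw [hΦ1, hs]
      simp
    have h1 := hinj (h0.trans (map_zero Φ).symm)
    intro x
    have := congrArg Prod.fst h1
    exact congrFun this x
  have hsp : ⊤ ≤ Submodule.span B (Set.range fun x => Ideal.Quotient.mk (Ideal.span {M}) (v x)) := by
    intro q _
    obtain ⟨t, rfl⟩ := Ideal.Quotient.mk_surjective q
    obtain ⟨j, hj⟩ := F.exists_mem_LB t
    obtain ⟨d, y, _, h2⟩ := exists_div' R hl j (F.LB_mono (by omega) hj)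
    have h3 : Ideal.Quotient.mk (Ideal.span {M}) t = ∑ x, d x • Ideal.Quotient.mk (Ideal.span {M}) (v x) := by
      rw [h2, map_add, map_sum]
      have h4 : Ideal.Quotient.mk (Ideal.span {M}) (monic h m l * y) = 0 := by
        rw [Ideal.Quotient.eq_zero_iff_mem, Ideal.mem_span_singleton]
        exact ⟨y, rfl⟩
      rw [h4, add_zero]
      refine Finset.sum_congr rfl fun x _ => ?_
      rfl
    rw [h3]
    exact Submodule.sum_mem _ fun x _ => Submodule.smul_mem _ _ (Submodule.subset_span ⟨x, rfl⟩)
  refine ⟨Module.Basis.mk hli hsp, fun x => ?_⟩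
  rw [Module.Basis.mk_apply]

end Pool.Agent.SPC
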