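import Pool.Agent.SPC.CQuo

/-!
# The representation of `S` on the quotient by a monic element
-/

noncomputable section

namespace Pool.Agent.SPC

open Polynomial TensorProduct

universe u v w w'

variable {k : Type u} {S : Type v} [Field k] [CommRing S] [Algebra k S] {h : S}
  {B : Type w} [CommRing B] [Algebra k B]

section

variable {F : Fil k h} {D m₁ : ℕ} (hg : F.Grows D m₁) (R : RBas F D) {m : ℕ}
  {l : B ⊗[k] S} (hl : l ∈ F.LB B m)

/-- The basis `h^e b_c`, `e ≤ m`, of the quotient. -/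
def bas : Module.Basis (Fin (m + 1) × Fin D) B ((B ⊗[k] S) ⧸ Ideal.span {monic h m l}) :=
  (exists_bas hg R hl).choose

theorem bas_apply (x : Fin (m + 1) × Fin D) : bas hg R hl x =
    Ideal.Quotient.mk (Ideal.span {monic h m l}) ((1 : B) ⊗ₜ[k] (h ^ (x.1 : ℕ) * R.b x.2)) :=
  (exists_bas hg R hl).choose_spec x

/-- The matrices of the multiplication by the elements of `S`. -/
def rep : S →ₐ[k] Matrix (Fin (m + 1) × Fin D) (Fin (m + 1) × Fin D) B :=
  ((Algebra.leftMulMatrix (bas hg R hl)).restrictScalars k).comp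
    (((Ideal.Quotient.mkₐ B (Ideal.span {monic h m l})).restrictScalars k).comp
      (Algebra.TensorProduct.includeRight : S →ₐ[k] B ⊗[k] S))

private theorem crep_apply (s : S) (r c : Fin (m + 1) × Fin D) : rep hg R hl s r c =
    (bas hg R hl).repr (Ideal.Quotient.mk (Ideal.span {monic h m l})
      ((1 : B) ⊗ₜ[k] (s * (h ^ (c.1 : ℕ) * R.b c.2)))) r := by
  have h1 : rep hg R hl s = Algebra.leftMulMatrix (bas hg R hl)
      (Ideal.Quotient.mk (Ideal.span {monic h m l}) ((1 : B) ⊗ₜ[k] s)) := rfl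
  rw [h1, Algebra.leftMulMatrix_eq_repr_mul, bas_apply, ← map_mul, Algebra.TensorProduct.tmul_mul_tmul,
    one_mul]

private theorem crep_sum (M : Fin (m + 1) × Fin D → B) :
    Ideal.Quotient.mk (Ideal.span {monic h m l})
      (∑ r, M r • ((1 : B) ⊗ₜ[k] (h ^ (r.1 : ℕ) * R.b r.2))) = ∑ r, M r • bas hg R hl r := by
  rw [map_sum]
  refine Finset.sum_congr rfl fun r _ => ?_
  rw [bas_apply]
  exact (Ideal.Quotient.mkₐ B (Ideal.span {monic h m l})).toLinearMap.map_smul (M r) _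

theorem rep_spec (s : S) (c : Fin (m + 1) × Fin D) :
    (1 : B) ⊗ₜ[k] (s * (h ^ (c.1 : ℕ) * R.b c.2)) -
      ∑ r, rep hg R hl s r c • ((1 : B) ⊗ₜ[k] (h ^ (r.1 : ℕ) * R.b r.2)) ∈
        Ideal.span {monic h m l} := by
  rw [← Ideal.Quotient.eq, crep_sum hg R hl]
  refine ((bas hg R hl).sum_repr _).symm.trans ?_
  refine Finset.sum_congr rfl fun r _ => ?_
  rw [crep_apply]

theorem rep_unique (s : S) (c : Fin (m + 1) × Fin D) (M : Fin (m + 1) × Fin D → B)
    (hM : (1 : B) ⊗ₜ[k] (s * (h ^ (c.1 : ℕ) * R.b c.2)) -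
      ∑ r, M r • ((1 : B) ⊗ₜ[k] (h ^ (r.1 : ℕ) * R.b r.2)) ∈ Ideal.span {monic h m l}) :
    ∀ r, M r = rep hg R hl s r c := by
  intro r
  rw [← Ideal.Quotient.eq, crep_sum hg R hl] at hM
  rw [crep_apply, hM, Module.Basis.repr_sum_self]

end

variable {F : Fil k h} {D m₁ : ℕ} (hg : F.Grows D m₁) (R : RBas F D) {m : ℕ}

/-- Base change along `φ : B → B'`. -/
def bc (S : Type v) [CommRing S] [Algebra k S] {B : Type w} [CommRing B] [Algebra k B]
    {B' : Type w'} [CommRing B'] [Algebra k B'] (φ : B →ₐ[k] B') : B ⊗[k] S →ₐ[k] B' ⊗[k] S :=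
  Algebra.TensorProduct.map φ (AlgHom.id k S)

private theorem bc_tmul {B' : Type w'} [CommRing B'] [Algebra k B'] (φ : B →ₐ[k] B') (b : B) (s : S) :
    bc S φ (b ⊗ₜ[k] s) = φ b ⊗ₜ[k] s := by
  rfl

private theorem bc_smul {B' : Type w'} [CommRing B'] [Algebra k B'] (φ : B →ₐ[k] B') (b : B) (t : B ⊗[k] S) :
    bc S φ (b • t) = φ b • bc S φ t := by
  induction t using TensorProduct.induction_on with
  | zero => simp
  | tmul x y =>
    rw [TensorProduct.smul_tmul', bc_tmul, bc_tmul, TensorProduct.smul_tmul', smul_eq_mul, smul_eq_mul, map_mul]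
  | add x y hx hy => rw [smul_add, map_add, hx, hy, map_add, smul_add]

theorem bc_mem {B' : Type w'} [CommRing B'] [Algebra k B'] (φ : B →ₐ[k] B') {l : B ⊗[k] S}
    (hl : l ∈ F.LB B m) : bc S φ l ∈ F.LB B' m := by
  unfold Fil.LB at hl ⊢
  rw [Submodule.baseChange_eq_span] at hl
  induction hl using Submodule.span_induction with
  | mem x hx =>
    obtain ⟨y, hy, rfl⟩ := hx
    rw [TensorProduct.mk_apply, bc_tmul, map_one]
    exact Submodule.tmul_mem_baseChange_of_mem _ hy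
  | zero => rw [map_zero]; exact Submodule.zero_mem _
  | add x y _ _ hx hy => rw [map_add]; exact Submodule.add_mem _ hx hy
  | smul a x _ hx => rw [bc_smul]; exact Submodule.smul_mem _ _ hx

theorem rep_map {B' : Type w'} [CommRing B'] [Algebra k B'] (φ : B →ₐ[k] B') {l : B ⊗[k] S}
    (hl : l ∈ F.LB B m) (hl' : bc S φ l ∈ F.LB B' m) (s : S) :
    (rep hg R hl s).map φ = rep hg R hl' s := by
  ext r c
  rw [Matrix.map_apply]
  refine rep_unique hg R hl' s c (fun r => φ (rep hg R hl s r c)) ?_ r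
  have h1 := rep_spec hg R hl s c
  rw [Ideal.mem_span_singleton] at h1 ⊢
  have h2 := map_dvd (bc S φ) h1
  have h3 : bc S φ (monic h m l) = monic h m (bc S φ l) := by
    unfold monic
    rw [map_sub, map_pow, bc_tmul, map_one]
  rw [h3, map_sub, map_sum, bc_tmul, map_one] at h2
  have h4 : ∀ r : Fin (m + 1) × Fin D, bc S φ (rep hg R hl s r c • ((1 : B) ⊗ₜ[k] (h ^ (r.1 : ℕ) * R.b r.2))) =
      φ (rep hg R hl s r c) • ((1 : B') ⊗ₜ[k] (h ^ (r.1 : ℕ) * R.b r.2)) := by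
    intro r
    rw [bc_smul, bc_tmul, map_one]
  rw [Finset.sum_congr rfl fun r _ => h4 r] at h2
  exact h2

theorem rep_h (c : B) (hl : c ⊗ₜ[k] (1 : S) ∈ F.LB B 0) :
    rep hg R hl h = Matrix.scalar _ c := by
  ext r x
  symm
  refine rep_unique hg R hl h x (fun r => Matrix.scalar _ c r x) ?_ r
  have h1 : ∑ r : Fin (0 + 1) × Fin D, (Matrix.scalar (Fin (0 + 1) × Fin D) c r x) •
      ((1 : B) ⊗ₜ[k] (h ^ (r.1 : ℕ) * R.b r.2)) = c • ((1 : B) ⊗ₜ[k] (h ^ (x.1 : ℕ) * R.b x.2)) := by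
    rw [Finset.sum_eq_single x]
    · rw [Matrix.scalar_apply, Matrix.diagonal_apply_eq]
    · intro b _ hb
      rw [Matrix.scalar_apply, Matrix.diagonal_apply_ne _ hb, zero_smul]
    · intro hx
      exact absurd (Finset.mem_univ x) hx
  rw [h1, Ideal.mem_span_singleton]
  refine ⟨(1 : B) ⊗ₜ[k] (h ^ (x.1 : ℕ) * R.b x.2), ?_⟩
  have h2 : monic h 0 (c ⊗ₜ[k] (1 : S)) = (1 : B) ⊗ₜ[k] h - c ⊗ₜ[k] (1 : S) := by
    unfold monic
    rw [zero_add, pow_one]
  rw [h2, sub_mul, Algebra.TensorProduct.tmul_mul_tmul, Algebra.TensorProduct.tmul_mul_tmul, one_mul,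
    mul_one, one_mul, TensorProduct.smul_tmul', smul_eq_mul, mul_one]

end Pool.Agent.SPC
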