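import Pool.Agent.GSM.Curve

/-!
# Curves with a function that has a single zero

`Crv k L`: an element `h` of a function field `L` of one variable over `k` such that the ring `S` of
all elements integral over `k[h]` has exactly one `k`-point `P` with `h(P) = 0`.
`exists_crv`: every affine curve `C` with function field `L` and a point `q₀` of `C` come from such data:
`C ≤ S` and `P` restricts to `q₀`.
-/

noncomputable section

namespace Pool.Agent.SPC

open Polynomial Pool.Agent.GSM

universe u v w

/-- A function field of one variable with a function `h` that has a single zero `P` on the smooth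
curve with coordinate ring `intCl k h` (the elements integral over `k[h]`). -/
structure Crv (k : Type u) [Field k] (L : Type v) [Field L] [Algebra k L] where
  h : L
  tr : Transcendental k h
  fin : FiniteDimensional (IntermediateField.adjoin k {h}) L
  P : intCl k h →ₐ[k] k
  P_h : P ⟨h, self_mem_intCl h⟩ = 0
  uniq : ∀ χ : intCl k h →ₐ[k] k, χ ⟨h, self_mem_intCl h⟩ = 0 → χ = P

/-- There is a point where `h` vanishes. -/
theorem exists_zero {k : Type u} [Field k] [IsAlgClosed k] {L : Type v} [Field L] [Algebra k L]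
    (h : L) (htr : Transcendental k h) :
    ∃ P : intCl k h →ₐ[k] k, P ⟨h, self_mem_intCl h⟩ = 0 := by
  let H : intCl k h := ⟨h, self_mem_intCl h⟩
  let f : k[X] →ₐ[k] intCl k h := aeval H
  have hf : ∀ p : k[X], ((f p : intCl k h) : L) = aeval h p := fun p =>
    (Polynomial.aeval_algHom_apply (intCl k h).val H p).symm
  have hinj : Function.Injective f := by
    intro p q hpq
    apply transcendental_iff_injective.1 htr
    rw [← hf, ← hf, hpq]
  let _ : Algebra k[X] (intCl k h) := f.toRingHom.toAlgebra
  have hint : Algebra.IsIntegral k[X] (intCl k h) := by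
    refine ⟨fun y => ?_⟩
    obtain ⟨Q, hQ, he⟩ := mem_intCl.1 y.2
    let e := AlgEquiv.ofInjective (aeval h : k[X] →ₐ[k] L) (transcendental_iff_injective.1 htr)
    let φ : Algebra.adjoin k {h} →+* k[X] :=
      (e.symm.toAlgHom.comp
        (Subalgebra.inclusion (le_of_eq (Algebra.adjoin_singleton_eq_range_aeval k h)))).toRingHom
    refine ⟨Q.map φ, hQ.map φ, ?_⟩
    apply Subtype.val_injective
    have h1 : (((eval₂ (algebraMap k[X] (intCl k h)) y (Q.map φ) : intCl k h)) : L) =
        eval₂ ((intCl k h).val.toRingHom.comp (algebraMap k[X] (intCl k h))) (y : L) (Q.map φ) :=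
      Polynomial.hom_eval₂ _ _ (intCl k h).val.toRingHom _
    rw [h1, eval₂_map]
    have hcomp : ((intCl k h).val.toRingHom.comp (algebraMap k[X] (intCl k h))).comp φ =
        algebraMap (Algebra.adjoin k {h}) L := by
      apply RingHom.ext
      intro a
      have h2 : (intCl k h).val.toRingHom.comp (algebraMap k[X] (intCl k h)) (φ a) =
          aeval h (φ a) := hf (φ a)
      refine Eq.trans h2 ?_
      have h3 := e.apply_symm_apply
        (Subalgebra.inclusion (le_of_eq (Algebra.adjoin_singleton_eq_range_aeval k h)) a)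
      exact congrArg Subtype.val h3
    rw [hcomp]
    exact he
  let e0 : k[X] →ₐ[k] k := aeval 0
  have hmax : (RingHom.ker e0.toRingHom).IsMaximal := by
    apply RingHom.ker_isMaximal_of_surjective
    intro r
    exact ⟨algebraMap k k[X] r, e0.commutes r⟩
  have hker : RingHom.ker (algebraMap k[X] (intCl k h)) ≤ RingHom.ker e0.toRingHom := by
    intro c hc
    have h1 : f c = f 0 := by
      rw [map_zero]
      exact hc
    rw [hinj h1]
    exact Ideal.zero_mem _
  obtain ⟨M, hM, hMc⟩ := Ideal.exists_ideal_over_maximal_of_isIntegral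
    (S := intCl k h) (RingHom.ker e0.toRingHom) hker
  have hHM : H ∈ M := by
    have h1 : (X : k[X]) ∈ M.comap (algebraMap k[X] (intCl k h)) := by
      rw [hMc]
      show aeval (0 : k) X = 0
      rw [aeval_X]
    have h2 : algebraMap k[X] (intCl k h) X = H := aeval_X H
    rw [← h2]
    exact h1
  let _ : Field (intCl k h ⧸ M) := Ideal.Quotient.field M
  have hcomp : ((Ideal.Quotient.mkₐ k M).comp f) = (Algebra.ofId k (intCl k h ⧸ M)).comp e0 := by
    apply Polynomial.algHom_ext
    rw [AlgHom.comp_apply, AlgHom.comp_apply]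
    have h1 : f X = H := aeval_X H
    have h2 : e0 X = 0 := aeval_X 0
    rw [h1, h2, map_zero]
    exact Ideal.Quotient.eq_zero_iff_mem.2 hHM
  have hint2 : Algebra.IsIntegral k (intCl k h ⧸ M) := by
    refine ⟨fun y => ?_⟩
    obtain ⟨s, rfl⟩ := Ideal.Quotient.mk_surjective y
    obtain ⟨Q, hQ, he⟩ := hint.isIntegral s
    refine ⟨Q.map e0.toRingHom, hQ.map _, ?_⟩
    rw [eval₂_map]
    have h1 : (algebraMap k (intCl k h ⧸ M)).comp e0.toRingHom =
        (Ideal.Quotient.mk M).comp (algebraMap k[X] (intCl k h)) := by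
      apply RingHom.ext
      intro p
      exact (DFunLike.congr_fun hcomp p).symm
    rw [h1, ← Polynomial.hom_eval₂, he, map_zero]
  have hbij : Function.Bijective (algebraMap k (intCl k h ⧸ M)) :=
    IsAlgClosed.algebraMap_bijective_of_isIntegral
  let e : k ≃ₐ[k] (intCl k h ⧸ M) := AlgEquiv.ofBijective (Algebra.ofId k _) hbij
  refine ⟨(e.symm : (intCl k h ⧸ M) →ₐ[k] k).comp (Ideal.Quotient.mkₐ k M), ?_⟩
  have h1 : (Ideal.Quotient.mkₐ k M) H = 0 := Ideal.Quotient.eq_zero_iff_mem.2 hHM
  show e.symm ((Ideal.Quotient.mkₐ k M) H) = 0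
  rw [h1, map_zero]

/-- A maximal ideal of a Dedekind domain: every fraction or its inverse is regular there. -/
theorem exists_num {O : Type v} [CommRing O] [IsDedekindDomain O] (𝔮 : Ideal O)
    [h𝔮 : 𝔮.IsPrime] (h0 : 𝔮 ≠ ⊥) (a b : O) :
    ∃ u v : O, v ∉ 𝔮 ∧ (a * u = b * v ∨ b * u = a * v) := by
  have hD : IsDiscreteValuationRing (Localization.AtPrime 𝔮) :=
    IsLocalization.AtPrime.isDiscreteValuationRing_of_dedekind_domain O h0 _
  have hinj : Function.Injective (algebraMap O (Localization.AtPrime 𝔮)) :=
    IsLocalization.injective _ 𝔮.primeCompl_le_nonZeroDivisors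
  obtain ⟨c, hc⟩ := ValuationRing.cond (algebraMap O (Localization.AtPrime 𝔮) a)
    (algebraMap O (Localization.AtPrime 𝔮) b)
  obtain ⟨u, v, rfl⟩ := IsLocalization.exists_mk'_eq 𝔮.primeCompl c
  refine ⟨u, v, v.2, ?_⟩
  have hs := IsLocalization.mk'_spec' (Localization.AtPrime 𝔮) u v
  rcases hc with hc | hc
  · left
    apply hinj
    rw [map_mul, map_mul, ← hc, ← hs]
    ring
  · right
    apply hinj
    rw [map_mul, map_mul, ← hc, ← hs]
    ring

private lemma fd_of_gens {k : Type u} {L : Type v} {K : Type w} [Field k] [Field L] [Algebra k L]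
    [Field K] [Algebra k K] [Algebra K L] [IsScalarTower k K L]
    (C : Subalgebra k L) (F : Finset L) (hF : Algebra.adjoin k (F : Set L) = C)
    (hgen : IntermediateField.adjoin k (C : Set L) = ⊤)
    (hint : ∀ c ∈ C, IsIntegral K c) : FiniteDimensional K L := by
  have hsub : ∀ x ∈ (F : Set L), IsIntegral K x := fun x hx =>
    hint x (hF ▸ Algebra.subset_adjoin hx)
  have h1 : FiniteDimensional K (IntermediateField.adjoin K (F : Set L)) :=
    IntermediateField.finiteDimensional_adjoin hsub
  have h2 : IntermediateField.adjoin K (F : Set L) = ⊤ := by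
    rw [eq_top_iff]
    intro x _
    have hle : C ≤ ((IntermediateField.adjoin K (F : Set L)).restrictScalars k).toSubalgebra := by
      rw [← hF]
      apply Algebra.adjoin_le
      intro y hy
      exact IntermediateField.subset_adjoin K (F : Set L) hy
    have h3 : IntermediateField.adjoin k (C : Set L) ≤
        (IntermediateField.adjoin K (F : Set L)).restrictScalars k :=
      IntermediateField.adjoin_le_iff.2 (fun y hy => hle hy)
    rw [hgen] at h3
    exact h3 (IntermediateField.mem_top (x := x))
  rw [h2] at h1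
  exact (IntermediateField.topEquiv (F := K) (E := L)).toLinearEquiv.finiteDimensional

open scoped IntermediateField.algebraAdjoinAdjoin in
private lemma int_of_adjoin {k : Type u} {L : Type v} [Field k] [Field L] [Algebra k L] {z c : L}
    (h : IsIntegral (Algebra.adjoin k {z}) c) : IsIntegral (IntermediateField.adjoin k {z}) c :=
  h.tower_top

/-- `intCl k h` is integrally closed -/
private lemma int_trans {k : Type u} {L : Type v} [Field k] [Field L] [Algebra k L] {h c : L}
    {A : Subalgebra k L} (hA : A ≤ intCl k h) (hc : IsIntegral A c) : c ∈ intCl k h := by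
  rw [mem_intCl]
  have h1 : IsIntegral (integralClosure (Algebra.adjoin k {h}) L) c := by
    obtain ⟨p, hp, he⟩ := hc
    let f : A →+* integralClosure (Algebra.adjoin k {h}) L :=
      { toFun := fun a => ⟨a.1, hA a.2⟩
        map_one' := rfl
        map_mul' := fun _ _ => rfl
        map_zero' := rfl
        map_add' := fun _ _ => rfl }
    refine ⟨p.map f, hp.map f, ?_⟩
    rw [eval₂_map]
    exact he
  exact isIntegral_trans c h1

private theorem lying_over {k : Type u} [Field k]
    {L : Type v} [Field L] [Algebra k L] [Algebra k[X] L] [IsScalarTower k k[X] L]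
    (C : Subalgebra k L) (hC : ∀ c ∈ C, IsIntegral k[X] c)
    (hXC : algebraMap k[X] L X ∈ C) (q₀ : C →ₐ[k] k) :
    ∃ 𝔮 : Ideal (integralClosure k[X] L), 𝔮.IsMaximal ∧
      ∀ c : C, q₀ c = 0 → (⟨c.1, hC c.1 c.2⟩ : integralClosure k[X] L) ∈ 𝔮 := by
  let ι : C →+* integralClosure k[X] L :=
    { toFun := fun c => ⟨c.1, hC c.1 c.2⟩
      map_one' := rfl
      map_mul' := fun _ _ => rfl
      map_zero' := rfl
      map_add' := fun _ _ => rfl }
  let _ : Algebra C (integralClosure k[X] L) := ι.toAlgebra
  let jj : k[X] →+* C := (aeval (⟨algebraMap k[X] L X, hXC⟩ : C) : k[X] →ₐ[k] C).toRingHom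
  have hj : ι.comp jj = algebraMap k[X] (integralClosure k[X] L) := by
    apply RingHom.ext
    intro r
    apply Subtype.ext
    have h1 : (C.val.comp (aeval (⟨algebraMap k[X] L X, hXC⟩ : C) : k[X] →ₐ[k] C)) =
        IsScalarTower.toAlgHom k k[X] L := by
      apply Polynomial.algHom_ext
      simp
    exact congrArg (fun f : k[X] →ₐ[k] L => f r) h1
  have hint : Algebra.IsIntegral C (integralClosure k[X] L) := by
    refine ⟨fun y => ?_⟩
    obtain ⟨P, hP, he⟩ := Algebra.IsIntegral.isIntegral (R := k[X]) y
    refine ⟨P.map jj, hP.map jj, ?_⟩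
    rw [eval₂_map]
    have h2 : (algebraMap C (integralClosure k[X] L)).comp jj =
        algebraMap k[X] (integralClosure k[X] L) := hj
    rw [h2]
    exact he
  have hmax : (RingHom.ker q₀.toRingHom).IsMaximal := by
    apply RingHom.ker_isMaximal_of_surjective
    intro r
    exact ⟨algebraMap k C r, q₀.commutes r⟩
  have hker : RingHom.ker (algebraMap C (integralClosure k[X] L)) ≤
      RingHom.ker q₀.toRingHom := by
    intro c hc
    have h1 : ι c = 0 := hc
    have h2 : (c : L) = 0 := congrArg Subtype.val h1
    have h3 : c = 0 := Subtype.ext h2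
    rw [h3]
    exact Ideal.zero_mem _
  obtain ⟨Q, hQ, hQc⟩ := Ideal.exists_ideal_over_maximal_of_isIntegral
    (S := integralClosure k[X] L) (RingHom.ker q₀.toRingHom) hker
  refine ⟨Q, hQ, fun c hc => ?_⟩
  have h1 : c ∈ Q.comap (algebraMap C (integralClosure k[X] L)) := by
    rw [hQc]
    exact hc
  exact h1

private theorem core {k : Type u} [Field k] [IsAlgClosed k] [CharZero k]
    {L : Type v} [Field L] [Algebra k L] [Algebra k[X] L] [IsScalarTower k k[X] L]
    [Algebra (RatFunc k) L] [IsScalarTower k (RatFunc k) L] [IsScalarTower k[X] (RatFunc k) L]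
    (C : Subalgebra k L) (F : Finset L) (hF : Algebra.adjoin k (F : Set L) = C)
    (hgen : IntermediateField.adjoin k (C : Set L) = ⊤) (hC : ∀ c ∈ C, IsIntegral k[X] c)
    (hXC : algebraMap k[X] L X ∈ C) (q₀ : C →ₐ[k] k) :
    ∃ (D : Crv k L) (hle : C ≤ intCl k D.h), ∀ c : C, D.P (Subalgebra.inclusion hle c) = q₀ c := by
  classical
  have hfd : FiniteDimensional (RatFunc k) L :=
    fd_of_gens C F hF hgen (fun c hc => (hC c hc).tower_top)
  let ι : C →ₐ[k] integralClosure k[X] L :=
    { toFun := fun c => ⟨c.1, hC c.1 c.2⟩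
      map_one' := rfl
      map_mul' := fun _ _ => rfl
      map_zero' := rfl
      map_add' := fun _ _ => rfl
      commutes' := fun r => by
        apply Subtype.ext
        rfl }
  obtain ⟨𝔮, hq, hqc⟩ : ∃ 𝔮 : Ideal (integralClosure k[X] L), 𝔮.IsMaximal ∧
      ∀ c : C, q₀ c = 0 → ι c ∈ 𝔮 := lying_over C hC hXC q₀
  obtain ⟨g, hg, ⟨n, hn⟩, ht⟩ := riemann 𝔮 hq
  have hg0 : g ≠ 0 := by
    rintro rfl; exact hg isIntegral_zero
  set h : L := g⁻¹ with hh
  set t : L := algebraMap (RatFunc k) L RatFunc.X with htdef
  have htX : algebraMap k[X] L X = t := by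
    rw [htdef, IsScalarTower.algebraMap_apply k[X] (RatFunc k) L, RatFunc.algebraMap_X]
  have htmem : t ∈ intCl k h := ht
  -- everything integral over `k[X]` is in `intCl k h`
  have hOS : ∀ x : L, IsIntegral k[X] x → x ∈ intCl k h := by
    intro x hx
    have hle : Algebra.adjoin k {t} ≤ intCl k h := by
      apply Algebra.adjoin_le
      intro y hy
      rw [Set.mem_singleton_iff] at hy
      rw [hy]; exact htmem
    apply int_trans hle
    obtain ⟨P, hP, he⟩ := hx
    have hval : ∀ r : k[X], aeval t r = algebraMap k[X] L r := by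
      intro r
      have : (aeval t : k[X] →ₐ[k] L) = IsScalarTower.toAlgHom k k[X] L := by
        apply Polynomial.algHom_ext
        simp [htX]
      rw [this]; rfl
    let f : k[X] →+* Algebra.adjoin k {t} :=
      ((aeval t : k[X] →ₐ[k] L).codRestrict (Algebra.adjoin k {t})
        (fun r => aeval_mem_adjoin_singleton k t)).toRingHom
    refine ⟨P.map f, hP.map f, ?_⟩
    rw [eval₂_map]
    have hcomp : (algebraMap (Algebra.adjoin k {t}) L).comp f = algebraMap k[X] L :=
      RingHom.ext (fun r => hval r)
    rw [hcomp, he]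
  have hCS : C ≤ intCl k h := fun c hc => hOS c (hC c hc)
  -- `h` is transcendental
  have htr : Transcendental k h := by
    intro halg
    have hint : IsIntegral k h := halg.isIntegral
    have h1 : Algebra.IsIntegral k (Algebra.adjoin k {h}) :=
      ⟨fun x => by
        have hx : (x : L) ∈ integralClosure k L :=
          (Algebra.adjoin_le (by
            intro y hy
            rw [Set.mem_singleton_iff] at hy
            rw [hy]; exact hint) : Algebra.adjoin k {h} ≤ integralClosure k L) x.2
        have hx' : IsIntegral k (x : L) := hx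
        exact (isIntegral_algHom_iff (Algebra.adjoin k {h}).val Subtype.val_injective).1 hx'⟩
    obtain ⟨a, ha⟩ := (IsAlgClosed.algebraMap_bijective_of_isIntegral (k := k)
      (K := Algebra.adjoin k {h})).2 ⟨h, Algebra.self_mem_adjoin_singleton k h⟩
    have ha' : algebraMap k L a = h := congrArg Subtype.val ha
    apply hg
    have hga : g = algebraMap k L a⁻¹ := by
      rw [map_inv₀, ha', hh, inv_inv]
    rw [hga, IsScalarTower.algebraMap_apply k k[X] L]
    exact isIntegral_algebraMap
  have hfin : FiniteDimensional (IntermediateField.adjoin k {h}) L :=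
    fd_of_gens C F hF hgen (fun c hc => int_of_adjoin (hCS hc))
  have hker : ∀ (χ : intCl k h →ₐ[k] k), χ ⟨h, self_mem_intCl h⟩ = 0 →
      ∀ (s : integralClosure k[X] L) (hs : s ∈ 𝔮), χ ⟨(s : L), hOS s s.2⟩ = 0 := by
    intro χ hχ s hs
    have h1 := hn s hs
    have h2 : (⟨(s : L), hOS s s.2⟩ : intCl k h) ^ n =
        ⟨(s : L) ^ n * g, hOS _ h1⟩ * ⟨h, self_mem_intCl h⟩ := by
      apply Subtype.ext
      show (s : L) ^ n = (s : L) ^ n * g * h
      rw [hh, mul_assoc, mul_inv_cancel₀ hg0, mul_one]
    have h3 : χ ⟨(s : L), hOS s s.2⟩ ^ n = 0 := by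
      rw [← map_pow, h2, map_mul, hχ, mul_zero]
    rcases Nat.eq_zero_or_pos n with rfl | hpos
    · rw [pow_zero] at h3; exact absurd h3 one_ne_zero
    · exact (pow_eq_zero_iff hpos.ne').1 h3
  let j : integralClosure k[X] L →ₐ[k] intCl k h :=
    { toFun := fun s => ⟨(s : L), hOS s s.2⟩
      map_one' := rfl
      map_mul' := fun _ _ => rfl
      map_zero' := rfl
      map_add' := fun _ _ => rfl
      commutes' := fun r => by
        apply Subtype.ext
        rfl }
  have hker2 : ∀ (χ : intCl k h →ₐ[k] k), χ ⟨h, self_mem_intCl h⟩ = 0 →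
      ∀ s : integralClosure k[X] L, χ (j s) = 0 ↔ s ∈ 𝔮 := by
    intro χ hχ s
    refine ⟨fun hs => ?_, fun hs => hker χ hχ s hs⟩
    have h1 : 𝔮 = RingHom.ker (χ.comp j).toRingHom :=
      hq.eq_of_le (RingHom.ker_ne_top _) (fun t ht => hker χ hχ t ht)
    rw [h1]
    exact hs
  have huniq : ∀ (χ χ' : intCl k h →ₐ[k] k), χ ⟨h, self_mem_intCl h⟩ = 0 →
      χ' ⟨h, self_mem_intCl h⟩ = 0 → χ = χ' := by
    intro χ χ' hχ hχ'
    have hO : ∀ s : integralClosure k[X] L, χ' (j s) = χ (j s) := by
      intro s
      have h1 : χ (j (s - algebraMap k _ (χ (j s)))) = 0 := by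
        rw [map_sub, map_sub, AlgHom.commutes, AlgHom.commutes, Algebra.algebraMap_self_apply,
          sub_self]
      have h2 := (hker2 χ' hχ' _).2 ((hker2 χ hχ _).1 h1)
      rw [map_sub, map_sub, AlgHom.commutes, AlgHom.commutes, Algebra.algebraMap_self_apply,
        sub_eq_zero] at h2
      exact h2
    have hcz : CharZero (RatFunc k) :=
      charZero_of_injective_algebraMap (algebraMap k (RatFunc k)).injective
    have hded : IsDedekindDomain (integralClosure k[X] L) :=
      integralClosure.isDedekindDomain k[X] (RatFunc k) L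
    have hfr : IsFractionRing (integralClosure k[X] L) L :=
      integralClosure.isFractionRing_of_finite_extension (RatFunc k) L
    have hq0 : 𝔮 ≠ ⊥ := by
      intro h0
      have h1 : χ (j (algebraMap k[X] (integralClosure k[X] L) X -
          algebraMap k _ (χ (j (algebraMap k[X] (integralClosure k[X] L) X))))) = 0 := by
        rw [map_sub, map_sub, AlgHom.commutes, AlgHom.commutes, Algebra.algebraMap_self_apply,
          sub_self]
      have h2 := (hker2 χ hχ _).1 h1
      rw [h0, Ideal.mem_bot, sub_eq_zero] at h2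
      have h3 : t = algebraMap k L (χ (j (algebraMap k[X] (integralClosure k[X] L) X))) := by
        rw [← htX]
        exact congrArg (fun x : integralClosure k[X] L => (x : L)) h2
      have h4 : algebraMap (RatFunc k) L RatFunc.X = algebraMap (RatFunc k) L
          (algebraMap k[X] (RatFunc k)
            (Polynomial.C (χ (j (algebraMap k[X] (integralClosure k[X] L) X))))) := by
        rw [← IsScalarTower.algebraMap_apply k[X] (RatFunc k) L]
        exact h3.trans (IsScalarTower.algebraMap_apply k k[X] L _)
      have h5 := (algebraMap (RatFunc k) L).injective h4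
      rw [← RatFunc.algebraMap_X] at h5
      have h6 := IsFractionRing.injective k[X] (RatFunc k) h5
      exact Polynomial.X_ne_C _ h6
    have hqp : 𝔮.IsPrime := hq.isPrime
    refine AlgHom.ext fun s => ?_
    obtain ⟨a, b, hb, hab⟩ := IsFractionRing.div_surjective (A := integralClosure k[X] L) (s : L)
    have hb0 : (b : L) ≠ 0 := by
      intro h0
      have h1 : b = 0 := Subtype.ext h0
      exact nonZeroDivisors.ne_zero hb h1
    have hsb : (s : L) * (b : L) = (a : L) := by
      rw [← hab]
      exact div_mul_cancel₀ _ hb0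
    obtain ⟨u, v, hv, huv⟩ := exists_num 𝔮 hq0 a b
    rcases huv with huv | huv
    · -- `a * u = b * v`, so `s * u = v`
      have h1 : s * j u = j v := by
        apply Subtype.ext
        show (s : L) * (u : L) = (v : L)
        have h2 : (a : L) * (u : L) = (b : L) * (v : L) := congrArg Subtype.val huv
        rw [← hsb] at h2
        apply mul_left_cancel₀ hb0
        rw [← h2]
        ring
      have h2 : ∀ ψ : intCl k h →ₐ[k] k, ψ ⟨h, self_mem_intCl h⟩ = 0 → ψ (j v) ≠ 0 :=
        fun ψ hψ h3 => hv ((hker2 ψ hψ _).1 h3)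
      have h3 : χ s * χ (j u) = χ (j v) := by rw [← map_mul, h1]
      have h4 : χ' s * χ' (j u) = χ' (j v) := by rw [← map_mul, h1]
      have h5 : χ (j u) ≠ 0 := by
        intro h6
        rw [h6, mul_zero] at h3
        exact h2 χ hχ h3.symm
      rw [hO, hO, ← h3] at h4
      exact (mul_right_cancel₀ h5 h4).symm
    · -- `b * u = a * v`, so `s * v = u`
      have h1 : s * j v = j u := by
        apply Subtype.ext
        show (s : L) * (v : L) = (u : L)
        have h2 : (b : L) * (u : L) = (a : L) * (v : L) := congrArg Subtype.val huv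
        rw [← hsb] at h2
        apply mul_left_cancel₀ hb0
        rw [h2]
        ring
      have h5 : χ (j v) ≠ 0 := fun h3 => hv ((hker2 χ hχ _).1 h3)
      have h3 : χ s * χ (j v) = χ (j u) := by rw [← map_mul, h1]
      have h4 : χ' s * χ' (j v) = χ' (j u) := by rw [← map_mul, h1]
      rw [hO, hO, ← h3] at h4
      exact (mul_right_cancel₀ h5 h4).symm
  obtain ⟨P, hP⟩ := exists_zero h htr
  refine ⟨⟨h, htr, hfin, P, hP, fun χ hχ => huniq χ P hχ hP⟩, hCS, fun x => ?_⟩
  have hmem : ι x - algebraMap k (integralClosure k[X] L) (q₀ x) ∈ 𝔮 := by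
    have h1 := hqc (x - algebraMap k C (q₀ x)) (by
      rw [map_sub, AlgHom.commutes, Algebra.algebraMap_self_apply, sub_self])
    rw [map_sub, AlgHom.commutes] at h1
    exact h1
  have h1 := hker P hP _ hmem
  have h2 : (⟨((ι x - algebraMap k (integralClosure k[X] L) (q₀ x) : integralClosure k[X] L) : L),
      hOS _ (ι x - algebraMap k (integralClosure k[X] L) (q₀ x)).2⟩ : intCl k h) =
      Subalgebra.inclusion hCS x - algebraMap k (intCl k h) (q₀ x) := by
    apply Subtype.ext
    rfl
  rw [h2, map_sub, AlgHom.commutes, sub_eq_zero] at h1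
  exact h1

open scoped IntermediateField.algebraAdjoinAdjoin in
private lemma fd_of_gens_set {k : Type u} {L : Type v} [Field k] [Field L] [Algebra k L]
    (C : Subalgebra k L) (F : Finset L) (hF : Algebra.adjoin k (F : Set L) = C)
    (hgen : IntermediateField.adjoin k (C : Set L) = ⊤) {s : ℕ} (x : Fin s → L)
    (hint : ∀ c ∈ C, IsIntegral (Algebra.adjoin k (Set.range x)) c) :
    FiniteDimensional (IntermediateField.adjoin k (Set.range x)) L :=
  fd_of_gens C F hF hgen (fun c hc => (hint c hc).tower_top)

open scoped IntermediateField.algebraAdjoinAdjoin in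
private lemma alg_adjoin {k : Type u} {L : Type v} [Field k] [Field L] [Algebra k L]
    {s : ℕ} (x : Fin s → L)
    (hfd : FiniteDimensional (IntermediateField.adjoin k (Set.range x)) L) :
    Algebra.IsAlgebraic (Algebra.adjoin k (Set.range x)) L := by
  have h1 : Algebra.IsAlgebraic (IntermediateField.adjoin k (Set.range x)) L :=
    Algebra.IsAlgebraic.of_finite _ _
  exact (IsFractionRing.comap_isAlgebraic_iff (A := Algebra.adjoin k (Set.range x))
    (K := IntermediateField.adjoin k (Set.range x)) (C := L)).2 h1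

private theorem core_of_t {k : Type u} [Field k] [IsAlgClosed k] [CharZero k]
    {L : Type v} [Field L] [Algebra k L]
    (C : Subalgebra k L) (F : Finset L) (hF : Algebra.adjoin k (F : Set L) = C)
    (hgen : IntermediateField.adjoin k (C : Set L) = ⊤) (t : L) (ht : Transcendental k t)
    (hC : ∀ c ∈ C, IsIntegral (Algebra.adjoin k {t}) c) (htC : t ∈ C) (q₀ : C →ₐ[k] k) :
    ∃ (D : Crv k L) (hle : C ≤ intCl k D.h), ∀ c : C, D.P (Subalgebra.inclusion hle c) = q₀ c := by
  let _ : Algebra k[X] L := (aeval t : k[X] →ₐ[k] L).toRingHom.toAlgebra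
  have : IsScalarTower k k[X] L := IsScalarTower.of_algebraMap_eq (fun r => by
    show algebraMap k L r = aeval t (algebraMap k k[X] r)
    rw [AlgHom.commutes])
  have hinj : Function.Injective (aeval t : k[X] →ₐ[k] L) :=
    transcendental_iff_injective.1 ht
  have hinj' : Function.Injective (aeval t : k[X] →ₐ[k] L).toRingHom := hinj
  have hle : (nonZeroDivisors k[X]) ≤
      (nonZeroDivisors L).comap (aeval t : k[X] →ₐ[k] L).toRingHom :=
    nonZeroDivisors_le_comap_nonZeroDivisors_of_injective _ hinj'
  let _ : Algebra (RatFunc k) L :=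
    (RatFunc.liftRingHom (aeval t : k[X] →ₐ[k] L).toRingHom hle).toAlgebra
  have : IsScalarTower k[X] (RatFunc k) L := IsScalarTower.of_algebraMap_eq (fun r => by
    show aeval t r = RatFunc.liftRingHom (aeval t : k[X] →ₐ[k] L).toRingHom hle
      (algebraMap k[X] (RatFunc k) r)
    rw [RatFunc.liftRingHom_algebraMap]
    rfl)
  have : IsScalarTower k (RatFunc k) L := IsScalarTower.of_algebraMap_eq (fun r => by
    rw [IsScalarTower.algebraMap_apply k k[X] (RatFunc k), ← IsScalarTower.algebraMap_apply k[X]
      (RatFunc k) L, ← IsScalarTower.algebraMap_apply k k[X] L])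
  refine core C F hF hgen ?_ ?_ q₀
  swap
  · have h1 : algebraMap k[X] L X = t := aeval_X t
    rw [h1]
    exact htC
  intro c hc
  obtain ⟨P, hP, he⟩ := hC c hc
  -- integrality over the image
  have hint : IsIntegral (Algebra.adjoin k {t}) c := ⟨P, hP, he⟩
  let φ : Algebra.adjoin k {t} →+* k[X] := by
    exact ((AlgEquiv.ofInjective (aeval t : k[X] →ₐ[k] L) hinj).symm.toAlgHom.comp
      (Subalgebra.inclusion (le_of_eq (Algebra.adjoin_singleton_eq_range_aeval k t)))).toRingHom
  refine ⟨P.map φ, hP.map φ, ?_⟩
  rw [eval₂_map]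
  have hcomp : (algebraMap k[X] L).comp φ = algebraMap (Algebra.adjoin k {t}) L := by
    apply RingHom.ext
    intro a
    show aeval t ((AlgEquiv.ofInjective (aeval t : k[X] →ₐ[k] L) hinj).symm
      (Subalgebra.inclusion (le_of_eq (Algebra.adjoin_singleton_eq_range_aeval k t)) a)) = (a : L)
    have h1 := (AlgEquiv.ofInjective (aeval t : k[X] →ₐ[k] L) hinj).apply_symm_apply
      (Subalgebra.inclusion (le_of_eq (Algebra.adjoin_singleton_eq_range_aeval k t)) a)
    exact congrArg Subtype.val h1
  rw [hcomp]
  exact he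

/-- Every affine curve and a point of it come from a function with a single zero. -/
theorem exists_crv {k : Type u} [Field k] [IsAlgClosed k] [CharZero k]
    {L : Type v} [Field L] [Algebra k L] (C : Subalgebra k L) (hC : C.FG)
    (hgen : IntermediateField.adjoin k (C : Set L) = ⊤) (htr : Algebra.trdeg k L = 1)
    (q₀ : C →ₐ[k] k) :
    ∃ (D : Crv k L) (hle : C ≤ intCl k D.h), ∀ c : C, D.P (Subalgebra.inclusion hle c) = q₀ c := by
  classical
  obtain ⟨F, hF⟩ := hC
  have hft : Algebra.FiniteType k C := (Subalgebra.fg_iff_finiteType C).1 ⟨F, hF⟩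
  obtain ⟨s, f, hinj, hfint⟩ := exists_integral_inj_algHom_of_fg k C
  set x : Fin s → L := fun i => (f (MvPolynomial.X i) : L) with hx
  have hxind : AlgebraicIndependent k x := by
    have h1 : (MvPolynomial.aeval x : MvPolynomial (Fin s) k →ₐ[k] L) = C.val.comp f := by
      apply MvPolynomial.algHom_ext
      intro i
      simp [hx]
    rw [algebraicIndependent_iff_injective_aeval, h1]
    exact Subtype.val_injective.comp hinj
  -- elements of `C` are integral over the adjoined algebra
  have hcint : ∀ c ∈ C, IsIntegral (Algebra.adjoin k (Set.range x)) c := by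
    intro c hc
    obtain ⟨P, hP, he⟩ := hfint ⟨c, hc⟩
    have hmem : ∀ p : MvPolynomial (Fin s) k, ((f p : C) : L) ∈ Algebra.adjoin k (Set.range x) := by
      intro p
      have h1 : ((f p : C) : L) = MvPolynomial.aeval x p := by
        have h1 : (MvPolynomial.aeval x : MvPolynomial (Fin s) k →ₐ[k] L) = C.val.comp f := by
          apply MvPolynomial.algHom_ext
          intro i
          simp [hx]
        rw [h1]; rfl
      rw [h1, Algebra.adjoin_range_eq_range_aeval]
      exact ⟨p, rfl⟩
    let φ : MvPolynomial (Fin s) k →+* Algebra.adjoin k (Set.range x) :=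
      (((C.val.comp f).codRestrict (Algebra.adjoin k (Set.range x)) hmem)).toRingHom
    refine ⟨P.map φ, hP.map φ, ?_⟩
    rw [eval₂_map]
    have hcomp : (algebraMap (Algebra.adjoin k (Set.range x)) L).comp φ =
        (algebraMap C L).comp f.toRingHom := RingHom.ext (fun p => rfl)
    rw [hcomp]
    have h2 := congrArg (algebraMap C L) he
    rw [hom_eval₂, map_zero] at h2
    exact h2
  have hfd := fd_of_gens_set C F hF hgen x hcint
  have halg : Algebra.IsAlgebraic (Algebra.adjoin k (Set.range x)) L := alg_adjoin x hfd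
  have hbasis : IsTranscendenceBasis k x :=
    hxind.isTranscendenceBasis_iff_isAlgebraic.2 halg
  have hs : s = 1 := by
    have h1 := hbasis.lift_cardinalMk_eq_trdeg
    rw [htr, Cardinal.mk_fin] at h1
    simpa using h1
  subst hs
  set t : L := x 0 with htdef
  have hrange : Set.range x = {t} := by
    ext y
    rw [Set.mem_range, Set.mem_singleton_iff]
    constructor
    · rintro ⟨i, rfl⟩; rw [Subsingleton.elim i 0]
    · rintro rfl; exact ⟨0, rfl⟩
  have ht : Transcendental k t := algebraicIndependent_unique_type_iff.1 hxind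
  rw [hrange] at hcint
  exact core_of_t C F hF hgen t ht hcint (f (MvPolynomial.X 0)).2 q₀

end Pool.Agent.SPC
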