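import Pool.Agent.SPC.CMain
import Pool.Agent.SPC.CEx
import Pool.Agent.SPC.CDed
import Pool.Agent.SPC.Crv

/-!
# The relation between divisors on a curve, in terms of traces
-/

noncomputable section

namespace Pool.Agent.SPC

open Polynomial TensorProduct Pool.Agent.GSM

universe u v w

/-- The sum of the values of the characters in `E`. -/
def trE {k : Type u} {S : Type v} {K : Type w} [Field k] [CommRing S] [Algebra k S] [Field K]
    [Algebra k K] (E : Multiset (S →ₐ[k] K)) (s : S) : K := (E.map fun χ => χ s).sum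

section

variable {k : Type u} {S : Type v} {K : Type w} [Field k] [CommRing S] [Algebra k S] [Field K]
  [Algebra k K]

theorem cp_monic (E : Multiset (S →ₐ[k] K)) (s : S) : (cp E s).Monic :=
  monic_multiset_prod_of_monic _ _ fun _ _ => monic_X_sub_C _

theorem cp_next (E : Multiset (S →ₐ[k] K)) (s : S) : (cp E s).nextCoeff = -trE E s := by
  have h1 := multiset_prod_X_sub_C_nextCoeff (E.map fun χ => χ s)
  rw [Multiset.map_map] at h1
  exact h1

theorem trace_fiber [IsAlgClosed k] {h : S} {P : S →ₐ[k] k} (hP : ∀ χ : S →ₐ[k] k, χ h = 0 → χ = P)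
    {ι : Type} [Fintype ι] [DecidableEq ι] (Λ : S →ₐ[k] Matrix ι ι k) (hΛ : Λ h = 0) (s : S) :
    (Λ s).trace = Fintype.card ι * P s := by
  obtain ⟨χ, hχ⟩ := exists_chars Λ
  have h1 : ∀ i, χ i = P := by
    intro i
    apply hP
    have h2 := hχ h
    rw [hΛ, Matrix.charpoly_zero] at h2
    have h3 : (∏ i, (X - C (χ i h))).eval (χ i h) = 0 := by
      rw [eval_prod]
      exact Finset.prod_eq_zero (Finset.mem_univ i) (by simp)
    rw [← h2, eval_pow, eval_X] at h3
    exact eq_zero_of_pow_eq_zero h3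
  have h2 := congrArg nextCoeff (hχ s)
  rw [prod_X_sub_C_nextCoeff] at h2
  rw [Matrix.trace_eq_neg_charpoly_nextCoeff, h2, neg_neg]
  simp [h1]

end

/-- For `n` different points `x i` of the curve with values in a finitely generated domain `B` there
are a family `ρ` of divisors over `B[X]` and a divisor `E` of degree `< n` with
`ρ(0) + E + m P = ρ(1) + ∑ x i`, as traces of functions. -/
theorem curve_traces {k : Type u} [Field k] [IsAlgClosed k] [CharZero k] {L : Type v} [Field L]
    [Algebra k L] (D : Crv k L) :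
    ∃ n m N : ℕ, 0 < n ∧
      ∀ (B : Type w) [CommRing B] [IsDomain B] [Algebra k B] [Algebra.FiniteType k B]
        (x : Fin n → (intCl k D.h →ₐ[k] B)), Function.Injective x →
      ∃ ρ : intCl k D.h →ₐ[k] Matrix (Fin N) (Fin N) B[X],
      ∀ (K : Type w) [Field K] [IsAlgClosed K] [Algebra k K] [Algebra B K] [IsScalarTower k B K],
        Function.Injective (algebraMap B K) →
      ∃ E : Multiset (intCl k D.h →ₐ[k] K), E.card < n ∧
        (∀ χ ∈ E, ∀ s, IsIntegral B (χ s)) ∧
        ∀ s, algebraMap B K ((ρ s).trace.eval 0) + trE E s + m * algebraMap k K (D.P s) =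
          algebraMap B K ((ρ s).trace.eval 1) + ∑ i, algebraMap B K (x i s) := by
  classical
  obtain ⟨F⟩ := exists_fil D.h D.tr D.fin
  have := isDedekindDomain_intCl D.h D.tr D.fin
  obtain ⟨n, d, m, j, Λ, hn, hΛ, hmain⟩ := curve_relation.{u, v, w} F
  refine ⟨n, j * d, (m + 1) * d, hn, ?_⟩
  intro B _ _ _ _ x hx
  obtain ⟨ρ, hρ⟩ := hmain B x hx
  refine ⟨((Matrix.reindexAlgEquiv B[X] B[X] finProdFinEquiv).toAlgHom.restrictScalars k).comp ρ, ?_⟩
  intro K _ _ _ _ _ hinj
  obtain ⟨E, hE, hrel⟩ := hρ K hinj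
  have hmon : ∀ (c : B) (s : intCl k D.h), (cpAt B K ρ c s).Monic := fun c s =>
    (Matrix.charpoly_monic _).map _
  have hpm : ∀ s : intCl k D.h, (∏ i, (X - C (algebraMap B K (x i s)))).Monic := fun s =>
    monic_prod_of_monic _ _ fun i _ => monic_X_sub_C _
  refine ⟨E, hE, ?_, fun s => ?_⟩
  · intro χ hχ s
    have h1 : (cpAt B K ρ 1 s * ∏ i, (X - C (algebraMap B K (x i s)))).IsRoot (χ s) := by
      rw [← hrel s]
      have h2 : (cp E s).IsRoot (χ s) := by
        rw [IsRoot, cp, eval_multiset_prod, Multiset.prod_eq_zero_iff, Multiset.map_map]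
        exact Multiset.mem_map.2 ⟨χ, hχ, by simp⟩
      rw [IsRoot, eval_mul, eval_mul, h2, mul_zero, zero_mul]
    refine ⟨(((ρ s).map (at_ (k := k) B 1)).charpoly) * ∏ i, (X - C (x i s)), ?_, ?_⟩
    · exact (Matrix.charpoly_monic _).mul (monic_prod_of_monic _ _ fun i _ => monic_X_sub_C _)
    · rw [← eval_map, Polynomial.map_mul, Polynomial.map_prod]
      simp only [Polynomial.map_sub, Polynomial.map_X, Polynomial.map_C]
      exact h1
  · have h1 := congrArg nextCoeff (hrel s)
    have hΛm : (((Λ s).charpoly.map (algebraMap k K)) ^ j).Monic :=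
      ((Matrix.charpoly_monic _).map _).pow j
    rw [Monic.nextCoeff_mul ((hmon 0 s).mul (cp_monic E s)) hΛm,
      Monic.nextCoeff_mul (hmon 0 s) (cp_monic E s), Monic.nextCoeff_mul (hmon 1 s) (hpm s),
      Monic.nextCoeff_pow ((Matrix.charpoly_monic _).map _), cp_next, prod_X_sub_C_nextCoeff] at h1
    have h2 : ∀ c : B, (cpAt B K ρ c s).nextCoeff = -algebraMap B K ((ρ s).trace.eval c) := by
      intro c
      rw [cpAt, nextCoeff_map hinj]
      have h3 := Matrix.trace_eq_neg_charpoly_nextCoeff ((ρ s).map (at_ (k := k) B c))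
      have h4 : ((ρ s).map (at_ (k := k) B c)).trace = (ρ s).trace.eval c := by
        rw [Matrix.trace, Matrix.trace, eval_finsetSum]
        rfl
      rw [← h4, h3, map_neg, neg_neg]
    have h5 : ((Λ s).charpoly.map (algebraMap k K)).nextCoeff =
        -(d * algebraMap k K (D.P s)) := by
      rw [nextCoeff_map (algebraMap k K).injective]
      have h6 := trace_fiber (h := (⟨D.h, self_mem_intCl D.h⟩ : intCl k D.h)) D.uniq Λ hΛ s
      rw [Matrix.trace_eq_neg_charpoly_nextCoeff] at h6
      have h7 : (Λ s).charpoly.nextCoeff = -((Fintype.card (Fin 1 × Fin d) : k) * D.P s) := by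
        rw [← h6, neg_neg]
      rw [h7]
      simp
    rw [h2, h2, h5] at h1
    have h8 : ∀ c : B, (((Matrix.reindexAlgEquiv B[X] B[X] finProdFinEquiv).toAlgHom.restrictScalars
        k).comp ρ s).trace.eval c = (ρ s).trace.eval c := by
      intro c
      congr 1
      show ((ρ s).submatrix _ _).trace = _
      rw [Matrix.trace, Matrix.trace]
      exact Fintype.sum_equiv finProdFinEquiv.symm _ _ fun i => rfl
    rw [h8, h8]
    push_cast
    rw [nsmul_eq_mul] at h1
    linear_combination -h1

end Pool.Agent.SPC
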