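import Pool.Agent.SPC.UPts

/-!
# Classes: elements of the algebra itself

Nilpotence for even closed elements `x` of `A K`: `x = y + v` with `y` from the algebraically closed
subfield and a power of `v` exact; if the nilpotence theorem holds over `K` then every even closed
element of augmentation zero has an exact power.
-/

noncomputable section

namespace Pool.Agent.SPC

universe u v

open SDG

namespace PT

variable {A : Type u} [Ring A] [Algebra ℚ A] [SDG A]

/-- An element of `A` as an element of the twisted complex `A`. -/
def elt (a : A) : PT A := ⟨TC.one A, fun _ => a⟩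

theorem elt_even {a : A} (h : par a = a) : (elt a).Even := fun _ => by
  change par a = sgn false • a
  rw [h, sgn_false, one_smul]

theorem elt_closed {a : A} (h : d a = 0) : (elt a).Closed := by
  funext i
  change d a + ∑ l : Unit, par a * 0 = 0
  rw [h]
  simp

theorem elt_exact_zero : (elt (0 : A)).Exact := ⟨0, by
  funext i
  change d (0 : A) + ∑ l : Unit, par (0 : A) * 0 = 0
  simp⟩

theorem elt_map {A' : Type v} [Ring A'] [Algebra ℚ A'] [SDG A'] (φ : SHom A A') (a : A) :
    (elt a).map φ = elt (φ a) := by
  refine ext' ?_ ?_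
  · funext x y
    exact map_zero φ
  · rfl

/-- The tautological representation of the unit. -/
def eltRep (A : Type u) [Ring A] [Algebra ℚ A] [SDG A] : Rep (TC.one A) (SHom.id A) where
  w _ := 1
  par_w _ := IsPar.one
  d_w i := by
    change d (1 : A) = ∑ l : Unit, (0 : A) * 1
    rw [d_one]
    simp

theorem elt_tn {a : A} (h : (elt a).TN) : ∃ n b, d b = a ^ n := by
  obtain ⟨n, hn⟩ := tn_iff.1 h
  obtain ⟨v, hv⟩ := ev_exact hn (eltRep A)
  refine ⟨n, v, ?_⟩
  rw [hv]
  congr 1
  change ∑ i : Unit, a * 1 = a
  simp

end PT

open PT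

/-- Modulo nilpotent classes every even class comes from an algebraically closed subfield. -/
theorem DGF.class_split (A : DGF.{u}) {k : Type u} [Field k] [IsAlgClosed k] [CharZero k]
    {K : Type u} [Field K] [CharZero K] [Algebra k K] (x : A.obj K) (hx : par x = x)
    (hd : d x = 0) : ∃ y : A.obj k, par y = y ∧ d y = 0 ∧ ∃ n b,
      d b = (x - A.map (algebraMap k K) y) ^ n := by
  obtain ⟨F, hF⟩ := A.cont x
  let R : Subalgebra k K := Algebra.adjoin k (F : Set K)
  have hfg : Algebra.FiniteType k R := (Subalgebra.fg_iff_finiteType R).1 ⟨F, rfl⟩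
  have hR : HasRat R := HasRat.of_algebra k R
  have hj : Function.Injective (R.val : R →+* K) := Subtype.val_injective
  obtain ⟨b, hb⟩ := hF R (R.val : R →+* K) hj (by
    intro c hc
    exact ⟨⟨c, Algebra.subset_adjoin hc⟩, rfl⟩)
  have hbp : par b = b := A.inj _ hj (by rw [(A.map _).map_par, hb, hx])
  have hbd : d b = 0 := A.inj _ hj (by rw [(A.map _).map_d, hb, hd, map_zero])
  obtain ⟨p⟩ := exists_pt k R
  let y : A.obj k := A.map (p : R →+* k) b
  have hyp : par y = y := by
    change par (A.map (p : R →+* k) b) = A.map (p : R →+* k) b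
    rw [← (A.map _).map_par, hbp]
  have hyd : d y = 0 := by
    change d (A.map (p : R →+* k) b) = 0
    rw [← (A.map _).map_d, hbd, map_zero]
  let z : A.obj R := b - A.map (algebraMap k R) y
  have hzp : par z = z := by
    change par (b - A.map (algebraMap k R) y) = b - A.map (algebraMap k R) y
    rw [map_sub, hbp, ← (A.map _).map_par, hyp]
  have hzd : d z = 0 := by
    change d (b - A.map (algebraMap k R) y) = 0
    rw [map_sub, hbd, ← (A.map _).map_d, hyd, map_zero, sub_zero]
  have h0 : A.map (p : R →+* k) z = 0 := by
    change A.map (p : R →+* k) (b - A.map (algebraMap k R) y) = 0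
    rw [map_sub, ← A.map_comp_apply]
    have h1 : (p : R →+* k).comp (algebraMap k R) = RingHom.id k := by
      ext c
      exact p.commutes c
    rw [h1, A.map_id]
    exact sub_self _
  have h2 := (A.tn_points ((Algebra.ofId k K).comp p) R.val (elt z) (elt_even hzp)
    (elt_closed hzd)).1 (by
      have h3 : A.bc (((Algebra.ofId k K).comp p : R →ₐ[k] K) : R →+* K) (elt z) = elt 0 := by
        change (elt z).map _ = elt 0
        rw [elt_map]
        congr 1
        have h4 : (((Algebra.ofId k K).comp p : R →ₐ[k] K) : R →+* K) =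
            (algebraMap k K).comp (p : R →+* k) := rfl
        rw [h4, A.map_comp_apply, h0, map_zero]
      rw [h3]
      exact tn_iff.2 ⟨1, pow_one_exact (elt_even (map_zero _)) elt_exact_zero⟩)
  have h5 : A.bc ((R.val : R →ₐ[k] K) : R →+* K) (elt z) =
      elt (x - A.map (algebraMap k K) y) := by
    change (elt z).map _ = _
    rw [elt_map]
    congr 1
    change A.map (R.val : R →+* K) (b - A.map (algebraMap k R) y) = _
    rw [map_sub, hb, ← A.map_comp_apply]
    rfl
  rw [h5] at h2
  obtain ⟨n, c, hc⟩ := elt_tn h2
  exact ⟨y, hyp, hyd, n, c, hc⟩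

/-- Under the nilpotence theorem even classes of augmentation zero are nilpotent. -/
theorem DGF.class_nilpotent (A : DGF.{u}) {K : Type u} [Field K] [CharZero K] (hK : A.NT K)
    (x : A.obj K) (hx : par x = x) (hd : d x = 0) (he : A.eps K x = 0) : ∃ n b, d b = x ^ n := by
  refine elt_tn (hK (elt x) (elt_even hx) (elt_closed hd) ?_)
  rw [elt_map, he]
  exact elt_exact_zero

end Pool.Agent.SPC
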