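import Pool.Agent.SPC.Lift

/-!
# Closure properties of cycles and laws

MODULE SPC-Comb.
-/

set_option autoImplicit false

noncomputable section

namespace Pool.Agent.SPC

universe u v w w'

private theorem comb_lin {X : Type u} {Y : Type v} [AddCommGroup X] [Module ℚ X] [AddCommGroup Y] [Module ℚ Y]
    {F : Set X} {F' : Set Y} (L : X →ₗ[ℚ] Y) (h : ∀ f ∈ F, L f ∈ Submodule.span ℚ F') {x : X}
    (hx : x ∈ Submodule.span ℚ F) : L x ∈ Submodule.span ℚ F' :=
  (Submodule.map_span_le L F (Submodule.span ℚ F')).2 h ⟨x, hx, rfl⟩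

private theorem incl_smul' {R : Type w} [CommRing R] {B : Type u} [CommRing B] [IsDomain B] [Algebra R B]
    (r : R) (b : B) : incl B (r • b) = r • incl B b := by
  rw [Algebra.smul_def, Algebra.smul_def, map_mul, algebraMap_Bp]

section

variable {B : Type u} [CommRing B] [IsDomain B] [Algebra ℚ B]

private theorem comb_add {M : Type v} {F : Set (M → Bp B)} {τ τ' : M → B} (h : Comb F τ) (h' : Comb F τ') :
    Comb F (fun a => τ a + τ' a) := by
  unfold Comb
  have h1 : (fun a => incl B (τ a + τ' a)) = (fun a => incl B (τ a)) + fun a => incl B (τ' a) :=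
    funext fun a => map_add _ _ _
  rw [h1]
  exact Submodule.add_mem _ h h'

private theorem comb_smul {M : Type v} {F : Set (M → Bp B)} (c : ℚ) {τ : M → B} (h : Comb F τ) :
    Comb F (fun a => c • τ a) := by
  unfold Comb
  have h1 : (fun a => incl B (c • τ a)) = c • fun a => incl B (τ a) :=
    funext fun a => incl_smul' c (τ a)
  rw [h1]
  exact Submodule.smul_mem _ c h

private theorem comb_zero {M : Type v} {F : Set (M → Bp B)} : Comb F (fun _ => (0 : B)) := by
  unfold Comb
  have h1 : (fun _ : M => incl B (0 : B)) = 0 := funext fun a => map_zero _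
  rw [h1]
  exact Submodule.zero_mem _

theorem IsExp.add {τ τ' : (ℕ →₀ ℤ) → B} (h : IsExp τ) (h' : IsExp τ') : IsExp (τ + τ') := by
  exact comb_add h h'

theorem IsExp.one : IsExp (1 : (ℕ →₀ ℤ) → B) := by
  refine Submodule.subset_span ⟨1, fun a => ?_⟩
  show incl B 1 = 1
  exact map_one _

theorem IsExp.mul {τ τ' : (ℕ →₀ ℤ) → B} (h : IsExp τ) (h' : IsExp τ') : IsExp (τ * τ') := by
  have h1 : (fun a => incl B ((τ * τ') a)) = (fun a => incl B (τ a)) * fun a => incl B (τ' a) :=
    funext fun a => map_mul _ _ _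
  show (fun a => incl B ((τ * τ') a)) ∈ Submodule.span ℚ (chars B)
  rw [h1]
  have h2 := Submodule.mul_mem_mul h h'
  rw [Submodule.span_mul_span] at h2
  refine Submodule.span_mono ?_ h2
  rintro _ ⟨f, ⟨φ, hφ⟩, g, ⟨ψ, hψ⟩, rfl⟩
  refine ⟨φ * ψ, fun a => ?_⟩
  show f a * g a = φ _ * ψ _
  rw [hφ, hψ]

theorem IsExp.smul (c : ℚ) {τ : (ℕ →₀ ℤ) → B} (h : IsExp τ) : IsExp (c • τ) := by
  exact comb_smul c h

/-- Change of exponents by a group homomorphism. -/
theorem IsExp.pos {τ : (ℕ →₀ ℤ) → B} (h : IsExp τ) (p : (ℕ →₀ ℤ) →+ (ℕ →₀ ℤ)) :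
    IsExp (fun a => τ (p a)) := by
  refine comb_lin (LinearMap.funLeft ℚ (Bp B) p) ?_ h
  rintro f ⟨φ, hφ⟩
  refine Submodule.subset_span ⟨φ.comp (AddMonoidHom.toMultiplicative p), fun a => ?_⟩
  exact hφ (p a)

end

section

variable {R : Type w} [CommRing R] {S : Type v} [CommRing S] [Algebra R S] {B : Type u}
  [CommRing B] [IsDomain B] [Algebra ℚ B] [Algebra R B]

theorem IsTr.zero : IsTr R (fun _ : S => (0 : B)) := by
  exact comb_zero

theorem IsTr.add {t t' : S → B} (h : IsTr R t) (h' : IsTr R t') :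
    IsTr R (fun s => t s + t' s) := by
  exact comb_add h h'

theorem IsTr.smul (c : ℚ) {t : S → B} (h : IsTr R t) : IsTr R (fun s => c • t s) := by
  exact comb_smul c h

theorem IsTr.sub {t t' : S → B} (h : IsTr R t) (h' : IsTr R t') :
    IsTr R (fun s => t s - t' s) := by
  have h1 := h.add (h'.smul (-1))
  have h2 : (fun s => t s - t' s) = fun s => t s + (-1 : ℚ) • t' s :=
    funext fun s => by rw [neg_one_smul, sub_eq_add_neg]
  rw [h2]
  exact h1

theorem IsTr.sum {ι : Type w'} (s : Finset ι) {t : ι → S → B} (h : ∀ i ∈ s, IsTr R (t i)) :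
    IsTr R (fun x => ∑ i ∈ s, t i x) := by
  classical
  induction s using Finset.induction_on with
  | empty =>
    simp only [Finset.sum_empty]
    exact IsTr.zero
  | insert a s ha ih =>
    simp only [Finset.sum_insert ha]
    exact (h a (Finset.mem_insert_self a s)).add (ih fun i hi => h i (Finset.mem_insert_of_mem hi))

private def inclA (R : Type w) [CommRing R] (B : Type u) [CommRing B] [IsDomain B] [Algebra R B] :
    B →ₐ[R] Bp B where
  toRingHom := incl B
  commutes' _ := rfl

theorem isTr_hom (f : S →ₐ[R] B) : IsTr R (f : S → B) := by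
  exact Submodule.subset_span ⟨(inclA R B).comp f, fun s => rfl⟩

theorem isTr_ringHom [Algebra ℚ S] (f : S →+* B) : IsTr ℚ (f : S → B) := by
  exact isTr_hom f.toRatAlgHom

/-- A sum of homomorphisms to the absolute integral closure, with values in `B`. -/
theorem isTr_of_sum {ι : Type w'} (E : Finset ι) (χ : ι → (S →ₐ[R] Bp B)) (t : S → B)
    (h : ∀ s, incl B (t s) = ∑ i ∈ E, χ i s) : IsTr R t := by
  have h1 : (fun s => incl B (t s)) = ∑ i ∈ E, fun s => χ i s := by
    funext s
    rw [h s, Finset.sum_apply]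
  show (fun s => incl B (t s)) ∈ Submodule.span ℚ (homs R S B)
  rw [h1]
  exact Submodule.sum_mem _ fun i _ => Submodule.subset_span ⟨χ i, fun s => rfl⟩

theorem IsTr.map_add {t : S → B} (h : IsTr R t) (x y : S) : t (x + y) = t x + t y := by
  apply incl_injective B
  rw [_root_.map_add]
  have key : ∀ f ∈ Submodule.span ℚ (homs R S B), f (x + y) = f x + f y := by
    intro f hf
    induction hf using Submodule.span_induction with
    | mem f hf =>
      obtain ⟨χ, hχ⟩ := hf
      rw [hχ, hχ, hχ, _root_.map_add]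
    | zero =>
      show (0 : Bp B) = 0 + 0
      rw [add_zero]
    | add f g _ _ hf hg =>
      show f (x + y) + g (x + y) = (f x + g x) + (f y + g y)
      rw [hf, hg]
      ring
    | smul c f _ hf =>
      show c • f (x + y) = c • f x + c • f y
      rw [hf, smul_add]
  exact key _ h

theorem IsTr.map_smul {t : S → B} (h : IsTr R t) (r : R) (x : S) : t (r • x) = r • t x := by
  apply incl_injective B
  rw [incl_smul']
  have key : ∀ f ∈ Submodule.span ℚ (homs R S B), f (r • x) = r • f x := by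
    intro f hf
    induction hf using Submodule.span_induction with
    | mem f hf =>
      obtain ⟨χ, hχ⟩ := hf
      rw [hχ, hχ, _root_.map_smul]
    | zero =>
      show (0 : Bp B) = r • 0
      rw [smul_zero]
    | add f g _ _ hf hg =>
      show f (r • x) + g (r • x) = r • (f x + g x)
      rw [hf, hg, smul_add]
    | smul c f _ hf =>
      show c • f (r • x) = r • (c • f x)
      rw [hf, Algebra.smul_def, Algebra.smul_def, Algebra.smul_def, Algebra.smul_def, mul_left_comm]
  exact key _ h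

theorem IsTr.map_smulQ [Algebra ℚ S] {t : S → B} (h : IsTr R t) (c : ℚ) (x : S) :
    t (c • x) = c • t x := by
  exact map_rat_smul (AddMonoidHom.mk' t h.map_add) c x

/-- A law of `R`-algebras is a law of `ℚ`-algebras. -/
theorem IsTr.toQ [Algebra ℚ S] {t : S → B} (h : IsTr R t) : IsTr ℚ t := by
  refine Submodule.span_mono ?_ h
  rintro f ⟨χ, hχ⟩
  exact ⟨(χ : S →+* Bp B).toRatAlgHom, hχ⟩

/-- Composition with a homomorphism into the source. -/
theorem IsTr.comp_hom {S' : Type w'} [CommRing S'] [Algebra R S'] {t : S → B} (h : IsTr R t)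
    (f : S' →ₐ[R] S) : IsTr R (fun s => t (f s)) := by
  refine comb_lin (LinearMap.funLeft ℚ (Bp B) f) ?_ h
  rintro g ⟨χ, hχ⟩
  exact Submodule.subset_span ⟨χ.comp f, fun s => hχ (f s)⟩

/-- Laws compose. -/
theorem IsTr.comp {B' : Type w'} [CommRing B'] [IsDomain B'] [Algebra ℚ B'] [Algebra R B']
    {t' : B → B'} (h' : IsTr R t') {t : S → B} (h : IsTr R t) : IsTr R (fun s => t' (t s)) := by
  refine comb_lin (LinearMap.funLeft ℚ (Bp B') t) ?_ h'
  rintro g ⟨χ', hχ'⟩
  have h1 : LinearMap.funLeft ℚ (Bp B') t g =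
      (LinearMap.compLeft ((liftAlg χ' : Bp B →+* Bp B').toRatAlgHom.toLinearMap) S) (fun s => incl B (t s)) := by
    funext s
    show g (t s) = liftAlg χ' (incl B (t s))
    rw [liftAlg_incl, hχ']
  rw [h1]
  refine comb_lin _ ?_ h
  rintro f ⟨χ, hχ⟩
  refine Submodule.subset_span ⟨(liftAlg χ').comp χ, fun s => ?_⟩
  show liftAlg χ' (f s) = liftAlg χ' (χ s)
  rw [hχ]

/-- Laws act on cycles. -/
theorem IsTr.exp {B' : Type w'} [CommRing B'] [IsDomain B'] [Algebra ℚ B']
    {t : B → B'} (h : IsTr ℚ t) {τ : (ℕ →₀ ℤ) → B} (hτ : IsExp τ) :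
    IsExp (fun a => t (τ a)) := by
  refine comb_lin (LinearMap.funLeft ℚ (Bp B') τ) ?_ h
  rintro g ⟨χ, hχ⟩
  have h1 : LinearMap.funLeft ℚ (Bp B') τ g =
      (LinearMap.compLeft ((liftAlg χ : Bp B →+* Bp B').toRatAlgHom.toLinearMap) (ℕ →₀ ℤ))
        (fun a => incl B (τ a)) := by
    funext a
    show g (τ a) = liftAlg χ (incl B (τ a))
    rw [liftAlg_incl, hχ]
  rw [h1]
  refine comb_lin _ ?_ hτ
  rintro f ⟨φ, hφ⟩
  refine Submodule.subset_span ⟨(liftAlg χ : Bp B →* Bp B').comp φ, fun a => ?_⟩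
  show liftAlg χ (f a) = liftAlg χ (φ _)
  rw [hφ]

end

end Pool.Agent.SPC
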