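import Pool.Agent.SPC.SpecT

/-!
# Conservativity

If the nilpotence theorem holds over `K`, a twisted complex over `A K` which is acyclic modulo the
augmentation ideal is contractible. So every twisted complex is contractible or generates
everything.
-/

noncomputable section

namespace Pool.Agent.SPC

universe u v

open SDG

namespace TC

variable {A : Type u} {A' : Type v} [Ring A] [Algebra ℚ A] [SDG A] [Ring A'] [Algebra ℚ A']
  [SDG A']

/-- The identity of `M` is homotopic to zero. -/
def Contractible (M : TC A) : Prop :=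
  ∃ h : M.I → M.I → A, (∀ i j, IsPar (!(M.odd i ^^ M.odd j)) (h i j)) ∧
    ∀ i l, (if i = l then 1 else 0) =
      d (h i l) + ∑ j, par (h i j) * M.D j l + ∑ j, par (M.D i j) * h j l

/-- The coevaluation in `dual M ⊗ M`. -/
def cve (M : TC A) : (M.dual.tmul M).I → A := fun x => if x.1 = x.2 then 1 else 0

theorem dual_D_eq (M : TC A) (i j : M.I) :
    M.dual.D i j = -(sgn (M.odd j) • parP A (M.odd j) (M.D j i)) := by
  rw [dual_D, (M.par_D j i).parP, smul_smul, ← neg_smul]
  congr 1
  cases M.odd i <;> cases M.odd j <;> simp [dsg, sgn]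

theorem even_cve (M : TC A) : (M.dual.tmul M).Even M.cve := by
  intro x
  change IsPar (M.odd x.1 ^^ M.odd x.2) (if x.1 = x.2 then (1 : A) else 0)
  split_ifs with h
  · rw [h, Bool.xor_self]
    exact IsPar.one
  · exact IsPar.zero _

/-- The matrix of `dual M ⊗ M`. -/
def eD (M : TC A) (x y : M.I × M.I) : A :=
  (if x.2 = y.2 then -(sgn (M.odd y.1) • parP A (M.odd y.1) (M.D y.1 x.1)) else 0) +
    (if x.1 = y.1 then sgn (M.odd x.1) • parP A (M.odd x.1) (M.D x.2 y.2) else 0)

theorem eD_eq (M : TC A) (x y : M.I × M.I) : (M.dual.tmul M).D x y = M.eD x y := by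
  unfold eD
  rw [← dual_D_eq]
  rfl

private theorem sum_dual (M : TC A) (f : M.I × M.I → A) (g : M.I → M.I → A)
    (h : ∀ i j, f (i, j) = g i j) : ∑ x : M.I × M.I, f x = ∑ i, ∑ j, g i j := by
  rw [Fintype.sum_prod_type]
  exact Finset.sum_congr rfl fun i _ => Finset.sum_congr rfl fun j _ => h i j

theorem dif_E (M : TC A) (f : M.I × M.I → A) (i l : M.I) :
    (M.dual.tmul M).dif f (i, l) = d (f (i, l)) +
      ∑ a, par (f (a, l)) * -(sgn (M.odd i) • parP A (M.odd i) (M.D i a)) +
      ∑ b, par (f (i, b)) * (sgn (M.odd i) • parP A (M.odd i) (M.D b l)) := by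
  rw [dif_apply, add_assoc]
  congr 1
  have h1 : ∑ x : M.I × M.I, par (f x) * (M.dual.tmul M).D x (i, l) =
      ∑ x : M.I × M.I, par (f x) * M.eD x (i, l) :=
    Finset.sum_congr rfl fun x _ => congrArg (fun z => par (f x) * z) (M.eD_eq x (i, l))
  refine h1.trans ?_
  rw [sum_dual M _ (fun a b =>
    (if b = l then par (f (a, b)) * -(sgn (M.odd i) • parP A (M.odd i) (M.D i a)) else 0) +
    (if a = i then par (f (a, b)) * (sgn (M.odd a) • parP A (M.odd a) (M.D b l)) else 0))]
  · simp only [Finset.sum_add_distrib]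
    congr 1
    · refine Finset.sum_congr rfl fun a _ => ?_
      rw [Finset.sum_ite_eq' Finset.univ l, if_pos (Finset.mem_univ l)]
    · rw [Finset.sum_comm]
      refine Finset.sum_congr rfl fun b _ => ?_
      rw [Finset.sum_ite_eq' Finset.univ i, if_pos (Finset.mem_univ i)]
  · intro a b
    unfold eD
    rw [mul_add]
    congr 1
    · split_ifs
      · rfl
      · exact mul_zero _
    · split_ifs
      · rfl
      · exact mul_zero _

theorem dif_cve (M : TC A) : (M.dual.tmul M).dif M.cve = 0 := by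
  funext x
  obtain ⟨i, l⟩ : M.I × M.I := x
  have h0 : d (if i = l then (1 : A) else 0) = 0 := by
    split_ifs
    · exact d_one
    · exact map_zero _
  have h1 : (M.dual.tmul M).dif M.cve (i, l) = d (if i = l then (1 : A) else 0) +
      ∑ a, par (if a = l then (1 : A) else 0) * -(sgn (M.odd i) • parP A (M.odd i) (M.D i a)) +
      ∑ b, par (if i = b then (1 : A) else 0) *
        (sgn (M.odd i) • parP A (M.odd i) (M.D b l)) := M.dif_E M.cve i l
  refine h1.trans ?_
  rw [h0, zero_add]
  have h2 : ∑ a, par (if a = l then (1 : A) else 0) *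
      -(sgn (M.odd i) • parP A (M.odd i) (M.D i a)) =
      -(sgn (M.odd i) • parP A (M.odd i) (M.D i l)) := by
    rw [Finset.sum_eq_single l]
    · rw [if_pos rfl, map_one, one_mul]
    · intro a _ ha
      rw [if_neg ha, map_zero, zero_mul]
    · intro h
      exact absurd (Finset.mem_univ l) h
  have h3 : ∑ b, par (if i = b then (1 : A) else 0) *
      (sgn (M.odd i) • parP A (M.odd i) (M.D b l)) =
      sgn (M.odd i) • parP A (M.odd i) (M.D i l) := by
    rw [Finset.sum_eq_single i]
    · rw [if_pos rfl, map_one, one_mul]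
    · intro b _ hb
      rw [if_neg (Ne.symm hb), map_zero, zero_mul]
    · intro h
      exact absurd (Finset.mem_univ i) h
  rw [h2, h3, neg_add_cancel]
  rfl

/-- Contraction of the neighbours `M ⊗ dual M` in `E ⊗ (E ⊗ P)`, `E = dual M ⊗ M`. -/
def ctr (M P : TC A) (g : (M.I × M.I) × ((M.I × M.I) × P.I) → A) :
    (M.I × M.I) × P.I → A := fun x => ∑ j : M.I, g ((x.1.1, j), ((j, x.1.2), x.2))

/-- The matrix of `E ⊗ P`. -/
def e1 (M P : TC A) (x y : (M.I × M.I) × P.I) : A :=
  (if x.2 = y.2 then M.eD x.1 y.1 else 0) +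
    (if x.1 = y.1 then sgn (M.odd x.1.1 ^^ M.odd x.1.2) •
      parP A (M.odd x.1.1 ^^ M.odd x.1.2) (P.D x.2 y.2) else 0)

/-- The matrix of `E ⊗ (E ⊗ P)`. -/
def e2 (M P : TC A) (x y : (M.I × M.I) × ((M.I × M.I) × P.I)) : A :=
  (if x.2 = y.2 then M.eD x.1 y.1 else 0) +
    (if x.1 = y.1 then sgn (M.odd x.1.1 ^^ M.odd x.1.2) •
      parP A (M.odd x.1.1 ^^ M.odd x.1.2) (e1 M P x.2 y.2) else 0)

theorem e1_eq (M P : TC A) (x y : (M.I × M.I) × P.I) :
    ((M.dual.tmul M).tmul P).D x y = e1 M P x y := by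
  unfold e1
  rw [← eD_eq]
  rfl

theorem e2_eq (M P : TC A) (x y : (M.I × M.I) × ((M.I × M.I) × P.I)) :
    ((M.dual.tmul M).tmul ((M.dual.tmul M).tmul P)).D x y = e2 M P x y := by
  unfold e2
  rw [← eD_eq, ← e1_eq]
  rfl

private theorem sgp (s t r : Bool) (a : A) : sgn (s ^^ t) • sgn (t ^^ r) • parP A (s ^^ t)
    (parP A (t ^^ r) a) = sgn (s ^^ r) • parP A (s ^^ r) a := by
  rw [parP_parP, smul_smul]
  cases s <;> cases t <;> cases r <;> simp [sgn]

private theorem sgp' (s t : Bool) (a : A) : sgn (s ^^ t) • sgn t • parP A (s ^^ t)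
    (parP A t a) = sgn s • parP A s a := by
  rw [parP_parP, smul_smul]
  cases s <;> cases t <;> simp [sgn]

theorem e2_sum (M P : TC A) (i j k l i' l' : M.I) (p p' : P.I) :
    ∑ q : M.I, e2 M P ((i, j), ((k, l), p)) ((i', q), ((q, l'), p')) =
      if j = k then e1 M P ((i, l), p) ((i', l'), p') else 0 := by
  have h1 : ∀ q : M.I, e2 M P ((i, j), ((k, l), p)) ((i', q), ((q, l'), p')) =
      (if k = q then (if l = l' ∧ p = p' then M.eD (i, j) (i', k) else 0) else 0) +
      (if j = q then (if i = i' then sgn (M.odd i ^^ M.odd j) •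
        parP A (M.odd i ^^ M.odd j) (e1 M P ((k, l), p) ((j, l'), p')) else 0) else 0) := by
    intro q
    unfold e2
    congr 1
    · by_cases hk : k = q
      · subst hk
        by_cases hl : l = l' <;> by_cases hp : p = p' <;> simp [hl, hp]
      · simp [hk]
    · by_cases hj : j = q
      · subst hj
        by_cases hi : i = i' <;> simp [hi]
      · simp [hj]
  rw [Finset.sum_congr rfl fun q _ => h1 q, Finset.sum_add_distrib, Finset.sum_ite_eq,
    Finset.sum_ite_eq, if_pos (Finset.mem_univ _), if_pos (Finset.mem_univ _)]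
  unfold e1 eD
  by_cases hj : j = k
  · by_cases hi : i = i' <;> by_cases hl : l = l' <;>
      by_cases hp : p = p' <;> simp [hi, hj, hl, hp, sgp, sgp', Prod.ext_iff]
    abel
  · have hj' : ¬ k = j := Ne.symm hj
    by_cases hi : i = i' <;> by_cases hl : l = l' <;>
      by_cases hp : p = p' <;> simp [hi, hj, hj', hl, hp, sgp']

/-- The contraction is a map of twisted complexes. -/
theorem ctr_dif (M P : TC A) (g : (M.I × M.I) × ((M.I × M.I) × P.I) → A) :
    ((M.dual.tmul M).tmul P).dif (ctr M P g) =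
      ctr M P (((M.dual.tmul M).tmul ((M.dual.tmul M).tmul P)).dif g) := by
  funext y
  obtain ⟨⟨i', l'⟩, p'⟩ : (M.I × M.I) × P.I := y
  have h1 : ((M.dual.tmul M).tmul P).dif (ctr M P g) ((i', l'), p') =
      d (ctr M P g ((i', l'), p')) +
        ∑ x : (M.I × M.I) × P.I, par (ctr M P g x) * e1 M P x ((i', l'), p') := by
    rw [dif_apply]
    congr 1
    exact Finset.sum_congr rfl fun x _ =>
      congrArg (fun z => par (ctr M P g x) * z) (e1_eq M P x ((i', l'), p'))
  have h2 : ∀ q : M.I, ((M.dual.tmul M).tmul ((M.dual.tmul M).tmul P)).dif g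
      ((i', q), ((q, l'), p')) = d (g ((i', q), ((q, l'), p'))) +
        ∑ z : (M.I × M.I) × ((M.I × M.I) × P.I), par (g z) *
          e2 M P z ((i', q), ((q, l'), p')) := by
    intro q
    rw [dif_apply]
    congr 1
    exact Finset.sum_congr rfl fun x _ =>
      congrArg (fun z => par (g x) * z) (e2_eq M P x ((i', q), ((q, l'), p')))
  refine h1.trans ?_
  have h3 : ctr M P (((M.dual.tmul M).tmul ((M.dual.tmul M).tmul P)).dif g) ((i', l'), p') =
      ∑ q : M.I, (d (g ((i', q), ((q, l'), p'))) +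
        ∑ z : (M.I × M.I) × ((M.I × M.I) × P.I), par (g z) *
          e2 M P z ((i', q), ((q, l'), p'))) := Finset.sum_congr rfl fun q _ => h2 q
  refine Eq.trans ?_ h3.symm
  rw [Finset.sum_add_distrib]
  congr 1
  · exact map_sum d _ _
  · rw [Finset.sum_comm]
    simp only [← Finset.mul_sum]
    have h4 : ∀ z : (M.I × M.I) × ((M.I × M.I) × P.I),
        par (g z) * ∑ q : M.I, e2 M P z ((i', q), ((q, l'), p')) =
        if z.1.2 = z.2.1.1 then par (g z) * e1 M P ((z.1.1, z.2.1.2), z.2.2) ((i', l'), p')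
          else 0 := by
      rintro ⟨⟨i, j⟩, ⟨k, l⟩, p⟩
      rw [e2_sum]
      split_ifs
      · rfl
      · exact mul_zero _
    rw [Finset.sum_congr rfl fun z _ => h4 z]
    simp only [Fintype.sum_prod_type]
    unfold ctr
    simp only [map_sum, Finset.sum_mul]
    refine Finset.sum_congr rfl fun i _ => ?_
    have h5 : ∀ j k : M.I, (∑ l : M.I, ∑ p : P.I, if j = k then par (g ((i, j), (k, l), p)) *
        e1 M P ((i, l), p) ((i', l'), p') else 0) = if j = k then
          ∑ l : M.I, ∑ p : P.I, par (g ((i, j), (k, l), p)) *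
            e1 M P ((i, l), p) ((i', l'), p') else 0 := by
      intro j k
      split_ifs
      · rfl
      · simp
    simp only [h5, Finset.sum_ite_eq, Finset.mem_univ, if_true]
    have h6 : ∀ l : M.I, (∑ p : P.I, ∑ j : M.I, par (g ((i, j), (j, l), p)) *
        e1 M P ((i, l), p) ((i', l'), p')) = ∑ j : M.I, ∑ p : P.I,
          par (g ((i, j), (j, l), p)) * e1 M P ((i, l), p) ((i', l'), p') :=
      fun l => Finset.sum_comm
    exact (Finset.sum_congr rfl fun l _ => h6 l).trans Finset.sum_comm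

/-- A product with the coevaluation. -/
def cvt (M P : TC A) (x : P.I → A) : (M.I × M.I) × P.I → A :=
  fun z => (if z.1.1 = z.1.2 then 1 else 0) * parP A (M.odd z.1.1 ^^ M.odd z.1.2) (x z.2)

theorem cvt_eq (M P : TC A) (x : P.I → A) : tE (M.dual.tmul M) P M.cve x = cvt M P x := rfl

theorem ctr_cvt (M P : TC A) (x : P.I → A) :
    ctr M P (cvt M ((M.dual.tmul M).tmul P) (cvt M P x)) = cvt M P x := by
  funext y
  obtain ⟨⟨i, l⟩, p⟩ := y
  unfold ctr cvt
  rw [Finset.sum_eq_single i]
  · simp
  · intro j _ hj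
    simp [Ne.symm hj]
  · intro h
    exact absurd (Finset.mem_univ i) h

/-- If a power of the coevaluation is a boundary, then so is the coevaluation. -/
theorem exact_cve_of_tn {M : TC A} (h : (M.dual.tmul M).TN M.cve) :
    (M.dual.tmul M).Exact M.cve := by
  have h1 : ∀ n, ((M.dual.tmul M).pow n).Exact ((M.dual.tmul M).powE M.cve n) →
      ((M.dual.tmul M).pow 1).Exact ((M.dual.tmul M).powE M.cve 1) := by
    intro n
    induction n with
    | zero =>
      rintro ⟨y, hy⟩
      refine ⟨tE (M.dual.tmul M) _ M.cve y, ?_⟩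
      have h2 := tmul_dif (M.dual.tmul M) ((M.dual.tmul M).pow 0) M.cve y
      rw [dif_cve, tE_zero_left, zero_add, even_iff.1 M.even_cve, hy] at h2
      exact h2
    | succ n ih =>
      cases n with
      | zero => exact fun h => h
      | succ n =>
        rintro ⟨y, hy⟩
        refine ih ⟨ctr M ((M.dual.tmul M).pow n) y, ?_⟩
        refine (ctr_dif M ((M.dual.tmul M).pow n) y).trans ?_
        have h2 : ctr M ((M.dual.tmul M).pow n)
            (((M.dual.tmul M).tmul ((M.dual.tmul M).tmul ((M.dual.tmul M).pow n))).dif y) =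
            ctr M ((M.dual.tmul M).pow n) (cvt M ((M.dual.tmul M).tmul ((M.dual.tmul M).pow n))
              (cvt M ((M.dual.tmul M).pow n) ((M.dual.tmul M).powE M.cve n))) :=
          congrArg (ctr M ((M.dual.tmul M).pow n)) hy
        exact h2.trans (ctr_cvt M _ _)
  obtain ⟨n, hn⟩ := h
  obtain ⟨y, hy⟩ := h1 n hn
  refine ⟨fun x => y (x, ()), ?_⟩
  funext x
  have h2 := congrFun hy (x, ())
  have h3 : (M.dual.tmul M).powE M.cve 1 (x, ()) = M.cve x := by
    change M.cve x * parP A _ 1 = M.cve x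
    rw [map_one, mul_one]
  rw [h3] at h2
  rw [← h2]
  change d (y (x, ())) + ∑ z, par (y (z, ())) * (M.dual.tmul M).D z x =
    d (y (x, ())) + ∑ z : (M.dual.tmul M).I × Unit, par (y z) *
      tD (M.dual.tmul M) (one A) z (x, ())
  rw [Fintype.sum_prod_type]
  congr 1
  refine Finset.sum_congr rfl fun z _ => ?_
  have h4 : tD (M.dual.tmul M) (one A) (z, ()) (x, ()) = (M.dual.tmul M).D z x := by
    unfold tD
    have h5 : (one A).D () () = 0 := rfl
    rw [if_pos rfl, h5, map_zero, smul_zero, ite_self, add_zero]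
  have h6 : ∀ f : Unit → A, ∑ y : Unit, f y = f () := fun f => Fintype.sum_unique f
  rw [h6]
  exact congrArg (fun w => par (y (z, ())) * w) h4.symm

/-- A primitive of the coevaluation is a contraction. -/
theorem contractible_of_exact {M : TC A} (h : (M.dual.tmul M).Exact M.cve) :
    M.Contractible := by
  obtain ⟨g, hg⟩ := h
  obtain ⟨g', hg'⟩ : ∃ g' : (M.dual.tmul M).I → A,
    g' = (2⁻¹ : ℚ) • (g - (M.dual.tmul M).pr g) := ⟨_, rfl⟩
  have hpg : (M.dual.tmul M).pr g' = -g' := by
    rw [hg', map_smul, map_sub, TC.pr_pr, ← smul_neg, neg_sub]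
  have hdg : (M.dual.tmul M).dif g' = M.cve := by
    rw [hg', map_smul, map_sub, TC.dif_pr, hg, even_iff.1 M.even_cve, sub_neg_eq_add,
      ← two_smul ℚ, smul_smul, inv_mul_cancel₀ (by norm_num : (2 : ℚ) ≠ 0), one_smul]
  obtain ⟨f, hf⟩ : ∃ f : M.I → M.I → A, ∀ i j, f i j = g' (i, j) := ⟨_, fun _ _ => rfl⟩
  have hpar : ∀ i j, IsPar (!(M.odd i ^^ M.odd j)) (f i j) := by
    intro i j
    have h1 : sgn (M.odd i ^^ M.odd j) • par (f i j) = -f i j := by
      rw [hf]
      exact congrFun hpg (i, j)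
    have h2 : par (f i j) = sgn (M.odd i ^^ M.odd j) • -f i j := by
      rw [← h1, sgn_smul_smul]
    unfold IsPar
    rw [h2, sgn_not, smul_neg, neg_smul]
  refine ⟨fun i j => sgn (M.odd i) • parP A (M.odd i) (f i j), fun i j =>
    ((hpar i j).apply_parP _).smul _, fun i l => ?_⟩
  have h3 : d (f i l) + ∑ a, par (f a l) * -(sgn (M.odd i) • parP A (M.odd i) (M.D i a)) +
      ∑ b, par (f i b) * (sgn (M.odd i) • parP A (M.odd i) (M.D b l)) =
      if i = l then 1 else 0 := by
    have h4 := congrFun hdg (i, l)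
    have h5 := M.dif_E g' i l
    rw [hf]
    refine Eq.trans ?_ (h5.symm.trans h4)
    congr 1
    · congr 1
      exact Finset.sum_congr rfl fun a _ => by rw [hf]; rfl
    · exact Finset.sum_congr rfl fun b _ => by rw [hf]; rfl
  have h6 := congrArg (parP A (M.odd i)) h3
  rw [map_add, map_add, map_sum, map_sum, apply_ite (parP A (M.odd i)), map_one, map_zero] at h6
  rw [← h6]
  have e1 : d (sgn (M.odd i) • parP A (M.odd i) (f i l)) = parP A (M.odd i) (d (f i l)) := by
    rw [map_smul, d_parP, sgn_smul_smul]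
  have e2 : ∀ b, par (sgn (M.odd i) • parP A (M.odd i) (f i b)) * M.D b l =
      parP A (M.odd i) (par (f i b) * (sgn (M.odd i) • parP A (M.odd i) (M.D b l))) := by
    intro b
    rw [map_mul, map_smul, map_smul, parP_self, smul_mul_assoc, mul_smul_comm, parP_par, par_parP]
  have e3 : ∀ a, par (M.D i a) * (sgn (M.odd a) • parP A (M.odd a) (f a l)) =
      parP A (M.odd i) (par (f a l) * -(sgn (M.odd i) • parP A (M.odd i) (M.D i a))) := by
    intro a
    have h7 : par (M.D i a) = sgn (!(M.odd i ^^ M.odd a)) • M.D i a := M.par_D i a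
    rw [map_mul, map_neg, map_smul, parP_self, h7, parP_par, mul_neg, mul_smul_comm,
      mul_smul_comm, smul_mul_assoc, smul_smul, (M.par_D i a).mul_comm' (parP A (!M.odd i) (f a l)),
      parP_parP, ← neg_smul]
    have h8 : (!(M.odd i ^^ M.odd a) ^^ !M.odd i) = M.odd a := by
      cases M.odd i <;> cases M.odd a <;> rfl
    rw [h8]
    congr 1
    cases M.odd i <;> cases M.odd a <;> simp [sgn]
  rw [e1, Finset.sum_congr rfl fun b _ => e2 b, Finset.sum_congr rfl fun a _ => e3 a]
  abel

/-- Base change of the coevaluation. -/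
theorem map_cve (φ : SHom A A') (M : TC A) :
    (PT.map φ ⟨M.dual.tmul M, M.cve⟩ : PT A') = ⟨(M.map φ).dual.tmul (M.map φ), (M.map φ).cve⟩ := by
  refine PT.ext' (A := A') (I := M.I × M.I) (odd := (M.dual.tmul M).odd) (rk := (M.dual.tmul M).rk)
    (D := fun x y => φ ((M.dual.tmul M).D x y)) (D' := ((M.map φ).dual.tmul (M.map φ)).D)
    (p := ((M.dual.tmul M).map φ).par_D)
    (p' := ((M.map φ).dual.tmul (M.map φ)).par_D) (t := ((M.dual.tmul M).map φ).tri)
    (t' := ((M.map φ).dual.tmul (M.map φ)).tri) (q := ((M.dual.tmul M).map φ).flat)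
    (q' := ((M.map φ).dual.tmul (M.map φ)).flat) (f := mapE φ (M.dual.tmul M) M.cve)
    (f' := (M.map φ).cve) ?_ ?_
  · funext x y
    change φ (tD M.dual M x y) = tD (M.map φ).dual (M.map φ) x y
    unfold tD
    rw [map_add]
    congr 1
    · rw [apply_ite φ, map_zero, dual_D, map_smul]
      rfl
    · rw [apply_ite φ, map_zero, map_smul, φ.map_parP]
      rfl
  · funext x
    change φ (if x.1 = x.2 then 1 else 0) = if x.1 = x.2 then 1 else 0
    rw [apply_ite φ, map_one, map_zero]

/-- A contraction of an acyclic linear map with square zero. -/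
theorem exists_contraction {V : Type*} [AddCommGroup V] [Module ℚ V] (L : V →ₗ[ℚ] V)
    (hL : ∀ v, L (L v) = 0) (h : ∀ v, L v = 0 → ∃ g, L g = v) :
    ∃ ψ : V →ₗ[ℚ] V, ∀ v, L (ψ v) + ψ (L v) = v := by
  obtain ⟨s, hs⟩ := L.rangeRestrict.exists_rightInverse_of_surjective
    (LinearMap.range_rangeRestrict L)
  have hs' : ∀ y : LinearMap.range L, L (s y) = y := fun y =>
    congrArg Subtype.val (LinearMap.congr_fun hs y)
  obtain ⟨T, hT⟩ : ∃ T : V →ₗ[ℚ] V, ∀ v, T v = v - s (L.rangeRestrict v) :=
    ⟨LinearMap.id - s.comp L.rangeRestrict, fun _ => rfl⟩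
  have hmem : ∀ v, T v ∈ LinearMap.range L := by
    intro v
    obtain ⟨g, hg⟩ := h (T v) (by
      rw [hT, map_sub, hs', sub_eq_zero]
      rfl)
    exact ⟨g, hg⟩
  refine ⟨s.comp (LinearMap.codRestrict (LinearMap.range L) T hmem), fun v => ?_⟩
  have h1 : L (s (LinearMap.codRestrict (LinearMap.range L) T hmem v)) =
      v - s (L.rangeRestrict v) := (hs' _).trans (hT v)
  have h2 : LinearMap.codRestrict (LinearMap.range L) T hmem (L v) = L.rangeRestrict v := by
    apply Subtype.ext
    change T (L v) = L v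
    have h3 : L.rangeRestrict (L v) = 0 := Subtype.ext (hL v)
    rw [hT, h3, map_zero, sub_zero]
  change L (s (LinearMap.codRestrict (LinearMap.range L) T hmem v)) + s (LinearMap.codRestrict
      (LinearMap.range L) T hmem (L v)) = v
  rw [h1, h2, sub_add_cancel]

/-- An acyclic complex over `ℚ` is contractible. -/
theorem exact_cve_rat {M : TC ℚ} (h : ∀ m, M.dif m = 0 → M.Exact m) :
    (M.dual.tmul M).Exact M.cve := by
  obtain ⟨ψ, hψ⟩ := exists_contraction M.dif (fun v => M.dif_dif v) h
  obtain ⟨p, hp⟩ : ∃ p : M.I → M.I → ℚ, ∀ i j, p i j = ψ (Pi.single i 1) j :=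
    ⟨_, fun _ _ => rfl⟩
  have hdif : ∀ (v : M.I → ℚ) (l : M.I), M.dif v l = ∑ b, v b * M.D b l := by
    intro v l
    rw [dif_apply]
    exact zero_add _
  have hψv : ∀ (v : M.I → ℚ) (l : M.I), ψ v l = ∑ a, v a * p a l := by
    intro v l
    conv_lhs => rw [← Finset.univ_sum_single v]
    rw [map_sum, Finset.sum_apply]
    refine Finset.sum_congr rfl fun a _ => ?_
    rw [hp, ← smul_eq_mul, ← Pi.smul_apply, ← map_smul, ← Pi.single_smul, smul_eq_mul, mul_one]
  have h1 : ∀ i l, ∑ b, p i b * M.D b l + ∑ a, M.D i a * p a l = if i = l then 1 else 0 := by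
    intro i l
    have h2 := congrFun (hψ (Pi.single i 1)) l
    rw [Pi.add_apply, hdif, hψv] at h2
    have h3 : ∀ a, M.dif (Pi.single i 1) a = M.D i a := by
      intro a
      rw [hdif, Finset.sum_eq_single i]
      · rw [Pi.single_eq_same, one_mul]
      · intro b _ hb
        rw [Pi.single_eq_of_ne hb, zero_mul]
      · intro hi
        exact absurd (Finset.mem_univ i) hi
    simp only [h3, ← hp] at h2
    rw [h2, Pi.single_apply]
    exact if_congr eq_comm rfl rfl
  obtain ⟨g, hg⟩ : ∃ g : M.I × M.I → ℚ, ∀ i j, g (i, j) = sgn (M.odd i) * p i j :=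
    ⟨fun x => sgn (M.odd x.1) * p x.1 x.2, fun _ _ => rfl⟩
  refine ⟨g, ?_⟩
  funext x
  obtain ⟨i, l⟩ : M.I × M.I := x
  refine (M.dif_E g i l).trans ?_
  change (0 : ℚ) + ∑ a, g (a, l) * -(sgn (M.odd i) * parP ℚ (M.odd i) (M.D i a)) +
    ∑ b, g (i, b) * (sgn (M.odd i) * parP ℚ (M.odd i) (M.D b l)) = if i = l then 1 else 0
  rw [← h1, zero_add, add_comm]
  have hP : ∀ (s : Bool) (a : ℚ), parP ℚ s a = a := by
    intro s a
    cases s <;> rfl
  congr 1
  · refine Finset.sum_congr rfl fun b _ => ?_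
    rw [hg, hP]
    have h2 := sgn_mul_self (M.odd i)
    linear_combination (p i b * M.D b l) * h2
  · refine Finset.sum_congr rfl fun a _ => ?_
    rw [hg, hP]
    have h2 : M.D i a = sgn (!(M.odd i ^^ M.odd a)) * M.D i a := M.par_D i a
    cases hi : M.odd i <;> cases ha : M.odd a <;> rw [hi, ha] at h2
    · have h3 : M.D i a = 0 := by
        simp [sgn] at h2
        linarith
      rw [h3]
      simp
    · simp [sgn]
      ring
    · simp [sgn]
      ring
    · have h3 : M.D i a = 0 := by
        simp [sgn] at h2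
        linarith
      rw [h3]
      simp

theorem Contractible.map (φ : SHom A A') {M : TC A} (h : M.Contractible) :
    (M.map φ).Contractible := by
  obtain ⟨f, hf, hf'⟩ := h
  refine ⟨fun i j => φ (f i j), fun i j => φ.isPar (hf i j), fun i l => ?_⟩
  have h1 := congrArg φ (hf' i l)
  rw [apply_ite φ, map_one, map_zero, map_add, map_add, map_sum, map_sum] at h1
  refine h1.trans ?_
  congr 1
  · congr 1
    · exact φ.map_d _
    · refine Finset.sum_congr rfl fun j _ => ?_
      rw [map_mul, φ.map_par]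
      rfl
  · refine Finset.sum_congr rfl fun j _ => ?_
    rw [map_mul, φ.map_par]
    rfl

/-- Every closed element of a contractible twisted complex is a boundary. -/
theorem Contractible.exact {M : TC A} (h : M.Contractible) {f : M.I → A} (hf : M.dif f = 0) :
    M.Exact f := by
  obtain ⟨h, _, hh⟩ := h
  refine ⟨fun l => ∑ i, par (f i) * h i l, ?_⟩
  funext l
  have h1 : ∀ i, d (f i) = -∑ a, par (f a) * M.D a i := by
    intro i
    have h2 := congrFun hf i
    rw [dif_apply] at h2
    exact eq_neg_of_add_eq_zero_left h2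
  rw [dif_apply]
  have e1 : d (∑ i, par (f i) * h i l) =
      ∑ a, f a * d (h a l) + ∑ a, f a * ∑ i, par (M.D a i) * h i l := by
    rw [map_sum]
    have e2 : ∀ i, d (par (f i) * h i l) = f i * d (h i l) +
        ∑ a, f a * (par (M.D a i) * h i l) := by
      intro i
      rw [d_mul, d_par, h1, par_par, map_neg, neg_neg, map_sum, Finset.sum_mul, add_comm]
      congr 1
      refine Finset.sum_congr rfl fun a _ => ?_
      rw [map_mul, par_par, mul_assoc]
    rw [Finset.sum_congr rfl fun i _ => e2 i, Finset.sum_add_distrib]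
    congr 1
    rw [Finset.sum_comm]
    exact Finset.sum_congr rfl fun a _ => (Finset.mul_sum _ _ _).symm
  have e3 : ∑ j, par (∑ i, par (f i) * h i j) * M.D j l =
      ∑ a, f a * ∑ j, par (h a j) * M.D j l := by
    have e4 : ∀ j, par (∑ i, par (f i) * h i j) * M.D j l =
        ∑ a, f a * (par (h a j) * M.D j l) := by
      intro j
      rw [map_sum, Finset.sum_mul]
      refine Finset.sum_congr rfl fun a _ => ?_
      rw [map_mul, par_par, mul_assoc]
    rw [Finset.sum_congr rfl fun j _ => e4 j, Finset.sum_comm]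
    exact Finset.sum_congr rfl fun a _ => (Finset.mul_sum _ _ _).symm
  refine (congrArg₂ (fun x y => x + y) e1 e3).trans ?_
  rw [← Finset.sum_add_distrib, ← Finset.sum_add_distrib]
  have e5 : ∀ a, f a * d (h a l) + f a * ∑ i, par (M.D a i) * h i l +
      f a * ∑ j, par (h a j) * M.D j l = f a * (if a = l then 1 else 0) := by
    intro a
    rw [hh a l, mul_add, mul_add]
    abel
  rw [Finset.sum_congr rfl fun a _ => e5 a]
  simp

end TC

/-- If the nilpotence theorem holds over `K`, the augmentation is conservative. -/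
theorem DGF.contractible_of_nt (A : DGF.{u}) {K : Type u} [Field K] [CharZero K] (hK : A.NT K)
    (M : TC (A.obj K)) (hM : ∀ m, (M.map (A.eps K)).dif m = 0 → (M.map (A.eps K)).Exact m) :
    M.Contractible := by
  refine TC.contractible_of_exact (TC.exact_cve_of_tn ?_)
  refine hK ⟨M.dual.tmul M, M.cve⟩ M.even_cve M.dif_cve ?_
  rw [TC.map_cve]
  exact TC.exact_cve_rat hM

theorem DGF.contractible_iff (A : DGF.{u}) {K : Type u} [Field K] [CharZero K] (hK : A.NT K)
    (M : TC (A.obj K)) : M.Contractible ↔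
      ∀ m, (M.map (A.eps K)).dif m = 0 → (M.map (A.eps K)).Exact m :=
  ⟨fun h _ hm => (h.map (A.eps K)).exact hm, A.contractible_of_nt hK M⟩

/-- Every twisted complex is contractible or generates everything. -/
theorem DGF.dichotomy (A : DGF.{u}) {K : Type u} [Field K] [CharZero K] (hK : A.NT K)
    (M : TC (A.obj K)) : M.Contractible ∨ ∀ X, TC.Thick M X := by
  by_cases hM : ∀ m, (M.map (A.eps K)).dif m = 0 → (M.map (A.eps K)).Exact m
  · exact Or.inl (A.contractible_of_nt hK M hM)
  · refine Or.inr (A.thick_of_nt hK M ?_)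
    by_contra h
    exact hM fun m hm => by_contra fun hm' => h ⟨m, hm, hm'⟩

end Pool.Agent.SPC
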