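import Pool.Agent.SPC.ContG

/-!
# Continuity for families

A family over a field `K` has only finitely many components up to permutation of the parameters and
positions; by continuity for cycles it is defined over every subring which contains finitely many
given elements.
-/

set_option autoImplicit false

noncomputable section

namespace Pool.Agent.SPC

universe u v w

private theorem ct_cu_inj {a b : ℕ} (h : cu a = cu b) : a = b :=
  Sum.inl_injective (toLex.injective h)

private theorem ct_po_inj {a b : ℕ} (h : po a = po b) : a = b :=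
  Sum.inr_injective (toLex.injective h)

private theorem ct_ne (a b : ℕ) : cu a ≠ po b := fun h => Sum.inl_ne_inr (toLex.injective h)

/-- The standard set with `m` parameters and `n` positions. -/
private def ctStd (m n : ℕ) : Finset (ℕ ⊕ₗ ℕ) := (Finset.range m).image cu ∪ (Finset.range n).image po

private theorem ct_mem_cu (m n k : ℕ) : cu k ∈ ctStd m n ↔ k < m := by
  unfold ctStd
  rw [Finset.mem_union, Finset.mem_image, Finset.mem_image]
  constructor
  · rintro (⟨a, ha, h⟩ | ⟨a, ha, h⟩)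
    · rw [← ct_cu_inj h]
      exact Finset.mem_range.1 ha
    · exact absurd h.symm (ct_ne k a)
  · intro h
    exact Or.inl ⟨k, Finset.mem_range.2 h, rfl⟩

private theorem ct_mem_po (m n k : ℕ) : po k ∈ ctStd m n ↔ k < n := by
  unfold ctStd
  rw [Finset.mem_union, Finset.mem_image, Finset.mem_image]
  constructor
  · rintro (⟨a, ha, h⟩ | ⟨a, ha, h⟩)
    · exact absurd h (ct_ne a k)
    · rw [← ct_po_inj h]
      exact Finset.mem_range.1 ha
  · intro h
    exact Or.inr ⟨k, Finset.mem_range.2 h, rfl⟩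

/-- Finite subsets of `ℕ` are images of initial segments under permutations. -/
private theorem ct_perm (P : Finset ℕ) : ∃ π : Equiv.Perm ℕ, ∀ k, π.symm k < P.card ↔ k ∈ P := by
  classical
  obtain ⟨e⟩ : Nonempty ({k : ℕ // k < P.card} ≃ {k : ℕ // k ∈ P}) := by
    refine ⟨Equiv.trans ?_ P.equivFin.symm⟩
    exact ⟨fun k => ⟨k.1, k.2⟩, fun k => ⟨k.1, k.2⟩, fun _ => rfl, fun _ => rfl⟩
  have i1 : Infinite {k : ℕ // ¬ k < P.card} := by
    have h : {k : ℕ | ¬ k < P.card}.Infinite := by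
      have h1 : ({k : ℕ | k < P.card} : Set ℕ).Finite := Set.finite_lt_nat _
      exact h1.infinite_compl
    exact h.to_subtype
  have i2 : Infinite {k : ℕ // ¬ k ∈ P} := by
    have h : {k : ℕ | ¬ k ∈ P}.Infinite := by
      have h1 : ({k : ℕ | k ∈ P} : Set ℕ).Finite := P.finite_toSet
      exact h1.infinite_compl
    exact h.to_subtype
  obtain ⟨f⟩ : Nonempty ({k : ℕ // ¬ k < P.card} ≃ {k : ℕ // ¬ k ∈ P}) := nonempty_equiv_of_countable
  refine ⟨Equiv.subtypeCongr e f, fun k => ?_⟩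
  by_cases hk : k ∈ P
  · have h1 : (Equiv.subtypeCongr e f).symm k = (e.symm ⟨k, hk⟩).1 := by
      rw [Equiv.symm_apply_eq]
      have h2 := (e.symm ⟨k, hk⟩).2
      unfold Equiv.subtypeCongr
      simp [Equiv.sumCompl_symm_apply_of_pos, h2]
    rw [h1]
    exact iff_of_true (e.symm ⟨k, hk⟩).2 hk
  · have h1 : (Equiv.subtypeCongr e f).symm k = (f.symm ⟨k, hk⟩).1 := by
      rw [Equiv.symm_apply_eq]
      have h2 := (f.symm ⟨k, hk⟩).2
      unfold Equiv.subtypeCongr
      simp [Equiv.sumCompl_symm_apply_of_neg, h2]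
    rw [h1]
    exact iff_of_false (f.symm ⟨k, hk⟩).2 hk

/-- Every finite set is the image of a standard set. -/
private theorem ct_std (U : Finset (ℕ ⊕ₗ ℕ)) : ∃ (m n : ℕ) (π ρ : Equiv.Perm ℕ),
    m ≤ U.card ∧ n ≤ U.card ∧ (ctStd m n).map (reIdx π ρ).toEmbedding = U := by
  classical
  obtain ⟨P, hP⟩ : ∃ P : Finset ℕ, ∀ k, k ∈ P ↔ cu k ∈ U :=
    ⟨U.preimage cu (fun _ _ _ _ h => ct_cu_inj h), fun k => Finset.mem_preimage⟩
  obtain ⟨Q, hQ⟩ : ∃ Q : Finset ℕ, ∀ k, k ∈ Q ↔ po k ∈ U :=
    ⟨U.preimage po (fun _ _ _ _ h => ct_po_inj h), fun k => Finset.mem_preimage⟩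
  obtain ⟨π, hπ⟩ := ct_perm P
  obtain ⟨ρ, hρ⟩ := ct_perm Q
  refine ⟨P.card, Q.card, π, ρ, ?_, ?_, ?_⟩
  · refine Finset.card_le_card_of_injOn cu (fun k hk => (hP k).1 hk) (fun _ _ _ _ h => ct_cu_inj h)
  · refine Finset.card_le_card_of_injOn po (fun k hk => (hQ k).1 hk) (fun _ _ _ _ h => ct_po_inj h)
  · ext u
    rw [Finset.mem_map_equiv]
    obtain ⟨k, rfl⟩ | ⟨k, rfl⟩ : (∃ k, u = cu k) ∨ ∃ k, u = po k := by
      obtain ⟨w, hw⟩ : ∃ w : ℕ ⊕ ℕ, toLex w = u := ⟨ofLex u, rfl⟩
      rcases w with k | k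
      · exact Or.inl ⟨k, hw.symm⟩
      · exact Or.inr ⟨k, hw.symm⟩
    · have h1 : (reIdx π ρ).symm (cu k) = cu (π.symm k) := rfl
      rw [h1, ct_mem_cu, hπ, hP]
    · have h1 : (reIdx π ρ).symm (po k) = po (ρ.symm k) := rfl
      rw [h1, ct_mem_po, hρ, hQ]

section

variable {B : Type v} [CommRing B] [IsDomain B] [Algebra ℚ B] {B' : Type w} [CommRing B']
  [IsDomain B'] [Algebra ℚ B']

private theorem ct_sub (f : B →+* B') (v : ℕ → ℕ ⊕ Bool) (x : GT B) :
    GT.map f (CubeAlg.sub v x) = CubeAlg.sub v (GT.map f x) := GT.ext fun _ => map_subHom f v _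

private theorem ct_pos (f : B →+* B') (p : ℕ → Option ℕ) (x : GT B) :
    GT.map f (CubeAlg.pos p x) = CubeAlg.pos p (GT.map f x) := rfl

private theorem ct_re (f : B →+* B') (π ρ : Equiv.Perm ℕ) (x : GT B) :
    GT.map f (reCoef (GT B) π ρ x) = reCoef (GT B') π ρ (GT.map f x) := by
  unfold reCoef
  rw [AlgHom.comp_apply, AlgHom.comp_apply, ct_sub, ct_pos]

private theorem ct_inj (f : B →+* B') (hf : Function.Injective f) :
    Function.Injective (GT.map f : GT B →ₐ[ℚ] GT B') := by
  intro x y h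
  refine GT.ext fun a => MvPolynomial.map_injective f hf ?_
  exact congrArg (fun z : GT B' => z.val a) h

end

/-- Families are defined over subrings which contain finitely many elements. -/
theorem MA.cont {K : Type u} [Field K] [Algebra ℚ K] (a : MA K) :
    ∃ F : Finset K, ∀ (B : Type v) [CommRing B] [IsDomain B] [Algebra ℚ B] (j : B →+* K),
      Function.Injective j → (∀ c ∈ F, c ∈ j.range) → ∃ b : MA B, MA.map j b = a := by
  classical
  obtain ⟨N, hN⟩ := a.isFam.bdd
  have h0 : ∀ m n : ℕ, ∃ F : Finset K, ∀ (B : Type v) [CommRing B] [IsDomain B] [Algebra ℚ B]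
      (j : B →+* K), Function.Injective j → (∀ c ∈ F, c ∈ j.range) →
        ∃ y : GT B, GT.map j y = a.comp (ctStd m n) := by
    intro m n
    refine GT.cont (a.comp (ctStd m n)) (Finset.range n) fun s hs => ?_
    refine a.isFam.posn (ctStd m n) s fun h => hs ?_
    exact Finset.mem_range.2 ((ct_mem_po m n s).1 h)
  choose F hF using h0
  refine ⟨(Finset.range (N + 1)).biUnion fun m => (Finset.range (N + 1)).biUnion fun n => F m n, ?_⟩
  intro B _ _ _ j hj hc
  have hj' := ct_inj j hj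
  have h1 : ∀ U, ∃ y : GT B, GT.map j y = a.comp U := by
    intro U
    by_cases hU : N < U.card
    · exact ⟨0, by rw [map_zero, hN U hU]⟩
    · obtain ⟨m, n, π, ρ, hm, hn, h2⟩ := ct_std U
      obtain ⟨y, hy⟩ := hF m n B j hj fun c hcF => hc c (by
        rw [Finset.mem_biUnion]
        refine ⟨m, Finset.mem_range.2 (by omega), ?_⟩
        rw [Finset.mem_biUnion]
        exact ⟨n, Finset.mem_range.2 (by omega), hcF⟩)
      refine ⟨sgE (reIdx π ρ) (ctStd m n) • reCoef (GT B) π ρ y, ?_⟩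
      have h3 := congrFun (a.isFam.sym π ρ) ((ctStd m n).map (reIdx π ρ).toEmbedding)
      rw [Ext.permF_apply_map, h2] at h3
      rw [map_zsmul, ct_re, hy]
      exact h3
  choose b hb using h1
  have h2 : IsFam b := by
    refine ⟨⟨N, fun U hU => hj' ?_⟩, fun U n hn => hj' ?_, fun U n hn => hj' ?_, fun U s hs => hj' ?_,
      fun U s hs => hj' ?_, fun π ρ => ?_⟩
    · rw [hb, hN U hU, map_zero]
    · rw [ct_sub, hb]
      exact a.isFam.cube U n hn
    · rw [ct_sub, hb, map_zero]
      exact a.isFam.face U n hn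
    · rw [ct_pos, hb]
      exact a.isFam.posn U s hs
    · rw [ct_pos, hb, map_zero]
      exact a.isFam.kill U s hs
    · funext U
      refine hj' ?_
      have h3 := congrFun (a.isFam.sym π ρ) U
      rw [hb, ← h3]
      show GT.map j (sgE (reIdx π ρ) (U.map (reIdx π ρ).symm.toEmbedding) •
        reCoef (GT B) π ρ (b (U.map (reIdx π ρ).symm.toEmbedding))) =
          sgE (reIdx π ρ) (U.map (reIdx π ρ).symm.toEmbedding) •
            reCoef (GT K) π ρ (a.comp (U.map (reIdx π ρ).symm.toEmbedding))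
      rw [map_zsmul, ct_re, hb]
  exact ⟨MA.mk b h2, MA.ext fun U => hb U⟩

end Pool.Agent.SPC
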