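import Pool.Agent.SPC.Lift

/-!
# Descent of integral elements and characters

MODULE SPC-ContA.  PLAN.  `lift_injective`: a nonzero ideal of the domain `Bp B`, integral over `B`,
meets `B` in a nonzero ideal (`Ideal.comap_ne_bot_of_integral_mem`-like lemmas; or: a
nonzero `y` has a monic polynomial with nonzero constant coefficient, which is in the ideal).
`mem_range_lift`: let `p` be the monic polynomial over `B`; it splits over `Om B`, its roots are
integral over `B` so it is a product of linear factors over `Bp B`; map this by `lift`: `y` is a root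
of `∏ (X - lift r i)` in the domain `Bp B'`, so `y = lift r i`.
-/

set_option autoImplicit false

noncomputable section

namespace Pool.Agent.SPC

universe u v w

open Polynomial

variable {B : Type u} {B' : Type v} [CommRing B] [IsDomain B] [CommRing B'] [IsDomain B']

theorem lift_injective (f : B →+* B') (hf : Function.Injective f) :
    Function.Injective (lift ((incl B').comp f)) := by
  rw [injective_iff_map_eq_zero]
  intro y hy
  by_contra hne
  obtain ⟨p, hp, h⟩ := incl_isIntegral B y
  obtain ⟨i, h1, h2⟩ := Ideal.exists_coeff_ne_zero_mem_comap_of_root_mem (f := incl B)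
    (I := RingHom.ker (lift ((incl B').comp f))) hne (by rw [RingHom.mem_ker]; exact hy)
    hp.ne_zero h
  rw [Ideal.mem_comap, RingHom.mem_ker, lift_incl] at h2
  apply h1
  apply hf
  apply incl_injective (B := B')
  rw [map_zero, map_zero]
  exact h2

private theorem roots_lift (p : B[X]) (hp : p.Monic) :
    ∃ t : Multiset (Bp B), p.map (incl B) = (t.map (fun x => X - C x)).prod := by
  have hs := (IsAlgClosed.splits (p.map (algebraMap B (Om B)))).eq_prod_roots_of_monic
    (hp.map (algebraMap B (Om B)))
  have hint : ∀ r ∈ (p.map (algebraMap B (Om B))).roots, ∃ x : Bp B, bval B x = r := by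
    intro r hr
    refine exists_bval B ⟨p, hp, ?_⟩
    have h1 := (mem_roots'.1 hr).2
    rw [IsRoot.def, eval_map] at h1
    exact h1
  choose! g hg using hint
  refine ⟨(p.map (algebraMap B (Om B))).roots.map g, ?_⟩
  apply Polynomial.map_injective (bval B) (bval_injective B)
  rw [Polynomial.map_map, Polynomial.map_multiset_prod, Multiset.map_map, Multiset.map_map]
  have e : (bval B).comp (incl B) = algebraMap B (Om B) := RingHom.ext fun b => bval_incl B b
  rw [e]
  refine hs.trans ?_
  congr 1
  refine Multiset.map_congr rfl fun r hr => ?_
  simp only [Function.comp_apply, Polynomial.map_sub, Polynomial.map_X, Polynomial.map_C]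
  rw [hg r hr]

/-- MODULE SPC-ContA -/
theorem mem_range_lift (f : B →+* B') (p : B[X]) (hp : p.Monic) (y : Bp B')
    (hy : p.eval₂ ((incl B').comp f) y = 0) : ∃ x : Bp B, lift ((incl B').comp f) x = y := by
  obtain ⟨t, ht⟩ := roots_lift p hp
  have h1 : p.map ((incl B').comp f) =
      (t.map (fun x => X - C (lift ((incl B').comp f) x))).prod := by
    rw [← lift_comp ((incl B').comp f), ← Polynomial.map_map, ht, Polynomial.map_multiset_prod,
      Multiset.map_map]
    congr 1
    refine Multiset.map_congr rfl fun x _ => ?_
    simp only [Function.comp_apply, Polynomial.map_sub, Polynomial.map_X, Polynomial.map_C]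
    rw [lift_comp]
  rw [← eval_map, h1, eval_multiset_prod, Multiset.map_map, Multiset.prod_eq_zero_iff] at hy
  obtain ⟨x, _, hx⟩ := Multiset.mem_map.1 hy
  simp only [Function.comp_apply, eval_sub, eval_X, eval_C] at hx
  exact ⟨x, (sub_eq_zero.1 hx).symm⟩

end Pool.Agent.SPC
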