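import Mathlib

/-!
# Values of a combination of characters lie in a subring if finitely many do

MODULE SPC-ContB.  If `τ` satisfies monic linear recursions of order `N` over the subring `R` in all
directions `s ∈ S` and their opposites, then it has values in `R` as soon as its values on the
cube `0 ≤ a s < N` are in `R` (induction on the finset of the directions already treated).
-/

set_option autoImplicit false

noncomputable section

namespace Pool.Agent.SPC

universe u v w

open Polynomial

/-- A one-dimensional recursion upwards. -/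
private theorem up {E : Type u} [CommRing E] (R : Subring E) (f : ℤ → E) (N : ℕ) (P : ℕ → E)
    (hP : ∀ i, P i ∈ R)
    (h1 : ∀ a : ℤ, f (a + N) = ∑ i ∈ Finset.range N, P i * f (a + (i : ℤ)))
    (b : ℤ) (hb : ∀ i : ℕ, i < N → f (b + i) ∈ R) : ∀ n : ℕ, f (b + n) ∈ R := by
  intro n
  induction n using Nat.strong_induction_on with
  | _ n ih =>
    rcases Nat.lt_or_ge n N with h | h
    · exact hb n h
    · obtain ⟨m, rfl⟩ := Nat.exists_eq_add_of_le h
      have e : b + ((N + m : ℕ) : ℤ) = (b + (m : ℤ)) + N := by push_cast; ring
      rw [e, h1]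
      refine Subring.sum_mem _ fun i hi => Subring.mul_mem _ (hP i) ?_
      have hi' := Finset.mem_range.1 hi
      have e2 : b + (m : ℤ) + (i : ℤ) = b + ((m + i : ℕ) : ℤ) := by push_cast; ring
      rw [e2]
      exact ih (m + i) (by omega)

/-- A one-dimensional recursion in both directions. -/
private theorem line {E : Type u} [CommRing E] (R : Subring E) (f : ℤ → E) (N : ℕ) (P Q : ℕ → E)
    (hP : ∀ i, P i ∈ R) (hQ : ∀ i, Q i ∈ R)
    (h1 : ∀ a : ℤ, f (a + N) = ∑ i ∈ Finset.range N, P i * f (a + (i : ℤ)))
    (h2 : ∀ a : ℤ, f (a - N) = ∑ i ∈ Finset.range N, Q i * f (a - (i : ℤ)))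
    (hb : ∀ i : ℤ, 0 ≤ i → i < N → f i ∈ R) (n : ℤ) : f n ∈ R := by
  rcases le_or_gt 0 n with h | h
  · have h3 := up R f N P hP h1 0 (fun i hi => by
      rw [zero_add]
      exact hb i (by positivity) (by exact_mod_cast hi)) n.toNat
    rw [zero_add, Int.toNat_of_nonneg h] at h3
    exact h3
  · have h3 := up R (fun a => f (-a)) N Q hQ (fun a => by
      show f (-(a + N)) = ∑ i ∈ Finset.range N, Q i * f (-(a + (i : ℤ)))
      have e : -(a + (N : ℤ)) = -a - N := by ring
      rw [e, h2]
      refine Finset.sum_congr rfl fun i _ => ?_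
      have e : -(a + (i : ℤ)) = -a - i := by ring
      rw [e]) (-(N : ℤ) + 1) (fun i hi => by
      show f (-(-(N : ℤ) + 1 + i)) ∈ R
      have hi' : (i : ℤ) < N := by exact_mod_cast hi
      exact hb _ (by omega) (by omega)) (-n + N - 1).toNat
    have h4 : (0 : ℤ) ≤ -n + N - 1 := by omega
    rw [Int.toNat_of_nonneg h4] at h3
    have e : -(-(N : ℤ) + 1 + (-n + N - 1)) = n := by ring
    rw [e] at h3
    exact h3

/-- MODULE SPC-ContB.  `τ` satisfies a monic linear recursion over `R` in each of the directions
`s ∈ S` and in each of the opposite directions and does not depend on the other coordinates. -/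
theorem mem_of_recursion {E : Type u} [CommRing E] (R : Subring E) (τ : (ℕ →₀ ℤ) → E)
    (S : Finset ℕ) (hS : ∀ (a b : ℕ →₀ ℤ), (∀ s ∈ S, a s = b s) → τ a = τ b) (N : ℕ)
    (P Q : ℕ → ℕ → E) (hP : ∀ s ∈ S, ∀ i, P s i ∈ R) (hQ : ∀ s ∈ S, ∀ i, Q s i ∈ R)
    (h1 : ∀ s ∈ S, ∀ a, τ (a + Finsupp.single s (N : ℤ)) =
      ∑ i ∈ Finset.range N, P s i * τ (a + Finsupp.single s (i : ℤ)))
    (h2 : ∀ s ∈ S, ∀ a, τ (a - Finsupp.single s (N : ℤ)) =
      ∑ i ∈ Finset.range N, Q s i * τ (a - Finsupp.single s (i : ℤ)))
    (hb : ∀ a : ℕ →₀ ℤ, (∀ s ∈ S, 0 ≤ a s ∧ a s < N) → (∀ s, s ∉ S → a s = 0) → τ a ∈ R)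
    (a : ℕ →₀ ℤ) : τ a ∈ R := by
  -- the statement with the directions in `T` free
  have key : ∀ T : Finset ℕ, T ⊆ S → ∀ a : ℕ →₀ ℤ, (∀ s ∈ S, s ∉ T → 0 ≤ a s ∧ a s < N) →
      (∀ s, s ∉ S → a s = 0) → τ a ∈ R := by
    intro T
    induction T using Finset.induction_on with
    | empty =>
      intro _ a h3 h4
      exact hb a (fun s hs => h3 s hs (Finset.notMem_empty s)) h4
    | insert t T ht ih =>
      intro hT a h3 h4
      have htS : t ∈ S := hT (Finset.mem_insert_self t T)
      have hTS : T ⊆ S := fun x hx => hT (Finset.mem_insert_of_mem hx)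
      have hl := line R (fun n => τ (a + Finsupp.single t (n - a t))) N (P t) (Q t) (hP t htS)
        (hQ t htS) (by
          intro b
          show τ (a + Finsupp.single t (b + N - a t)) =
            ∑ i ∈ Finset.range N, P t i * τ (a + Finsupp.single t (b + (i : ℤ) - a t))
          have e : a + Finsupp.single t (b + (N : ℤ) - a t) =
              (a + Finsupp.single t (b - a t)) + Finsupp.single t (N : ℤ) := by
            rw [add_assoc, ← Finsupp.single_add]
            congr 2
            ring
          rw [e, h1 t htS]
          refine Finset.sum_congr rfl fun i _ => ?_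
          have e : a + Finsupp.single t (b + (i : ℤ) - a t) =
              (a + Finsupp.single t (b - a t)) + Finsupp.single t (i : ℤ) := by
            rw [add_assoc, ← Finsupp.single_add]
            congr 2
            ring
          rw [e]) (by
          intro b
          show τ (a + Finsupp.single t (b - N - a t)) =
            ∑ i ∈ Finset.range N, Q t i * τ (a + Finsupp.single t (b - (i : ℤ) - a t))
          have e : a + Finsupp.single t (b - (N : ℤ) - a t) =
              (a + Finsupp.single t (b - a t)) - Finsupp.single t (N : ℤ) := by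
            rw [add_sub_assoc, ← Finsupp.single_sub]
            congr 2
            ring
          rw [e, h2 t htS]
          refine Finset.sum_congr rfl fun i _ => ?_
          have e : a + Finsupp.single t (b - (i : ℤ) - a t) =
              (a + Finsupp.single t (b - a t)) - Finsupp.single t (i : ℤ) := by
            rw [add_sub_assoc, ← Finsupp.single_sub]
            congr 2
            ring
          rw [e]) (by
          intro i hi1 hi2
          show τ (a + Finsupp.single t (i - a t)) ∈ R
          refine ih hTS _ (fun s hs hsT => ?_) (fun s hs => ?_)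
          · by_cases hst : s = t
            · subst hst
              rw [Finsupp.add_apply, Finsupp.single_eq_same]
              constructor <;> omega
            · rw [Finsupp.add_apply, Finsupp.single_apply, if_neg (fun e => hst e.symm), add_zero]
              exact h3 s hs (fun hh => (Finset.mem_insert.1 hh).elim hst hsT)
          · have hst : s ≠ t := fun e => hs (e ▸ htS)
            rw [Finsupp.add_apply, Finsupp.single_apply, if_neg (fun e => hst e.symm), add_zero]
            exact h4 s hs) (a t)
      have hl' : τ (a + Finsupp.single t (a t - a t)) ∈ R := hl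
      rw [sub_self, Finsupp.single_zero, add_zero] at hl'
      exact hl'
  have h := key S (Finset.Subset.refl S) (a.filter (fun s => s ∈ S)) (fun s hs hs' => absurd hs hs')
    (fun s hs => by rw [Finsupp.filter_apply, if_neg hs])
  rw [hS a (a.filter (fun s => s ∈ S)) (fun s hs => by rw [Finsupp.filter_apply, if_pos hs])]
  exact h

end Pool.Agent.SPC
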