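import Pool.Agent.SPC.ContA
import Pool.Agent.SPC.ContB
import Pool.Agent.SPC.Alg

/-!
# Continuity for cycles

MODULE SPC-ContG.  PLAN.  Write `incl ∘ x.val = ∑ φ ∈ Φ, c φ • φ` with a finite set `Φ` of different
characters and `c φ ≠ 0`.  (1) By linear independence of characters
(`linearIndependent_monoidHom`) and the invariance under `posL (killP s)`, `φ (e_s) = 1` for all
`φ ∈ Φ`, `s ∉ S`.  (2) For `s ∈ S` the elements `φ (e_s)`, `φ (- e_s)` of `Bp (T K)` are integral over
`T K` (`incl_isIntegral`); multiply the monic polynomials for all `φ ∈ Φ` (and by powers of the variable)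
to get monic polynomials `P s`, `Q s` of the same degree `N` for all `s`.  `F`: all coefficients (in
`K`) of all coefficients (in `T K`) of all the individual monic polynomials, and all coefficients of the
`x.val a` for `a` in the box of `mem_of_recursion`.  (3) If `F` is in the range of `j`, all those
polynomials come from `T B`: `MvPolynomial.mem_range_map_iff_coeffs_subset`-like lemma; by
`mem_of_recursion` with `R = (tMap j).range` all `x.val a` are in the range of `tMap j`; choose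
`τ : (ℕ →₀ ℤ) → T B` with `tMap j (τ a) = x.val a`.  (4) `θ = lift (incl ∘ tMap j) : Bp (T B) → Bp (T K)`
is injective (`lift_injective`), by `mem_range_lift` all `φ (± e_s)` and so all
`φ a` are in its range: `φ = θ ∘ φ'` for a character `φ'`; then `θ (incl (τ a)) = incl (x.val a) =
θ (∑ c φ • φ' a)`, so `τ` is a cycle (`IsExp`).
-/

set_option autoImplicit false

noncomputable section

namespace Pool.Agent.SPC

universe u v w

/-- The group of exponents, multiplicatively. -/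
private abbrev EM : Type := Multiplicative (ℕ →₀ ℤ)

private theorem cg_rep {A : Type u} [CommRing A] [IsDomain A] [Algebra ℚ A] {τ : (ℕ →₀ ℤ) → A}
    (h : IsExp τ) : ∃ c : (EM →* Bp A) →₀ ℚ, ∀ a : ℕ →₀ ℤ,
      incl A (τ a) = ∑ φ ∈ c.support, c φ • φ (Multiplicative.ofAdd a) := by
  have h1 : (chars A) = Set.range
      (fun φ : EM →* Bp A => fun a : ℕ →₀ ℤ => φ (Multiplicative.ofAdd a)) := by
    ext f
    constructor
    · rintro ⟨φ, hφ⟩
      exact ⟨φ, (funext hφ).symm⟩
    · rintro ⟨φ, rfl⟩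
      exact ⟨φ, fun _ => rfl⟩
  unfold IsExp Comb at h
  rw [h1, Finsupp.mem_span_range_iff_exists_finsupp] at h
  obtain ⟨c, hc⟩ := h
  refine ⟨c, fun a => ?_⟩
  have h2 := congrFun hc a
  rw [← h2, Finsupp.sum, Finset.sum_apply]
  rfl

private theorem cg_isExp {A : Type u} [CommRing A] [IsDomain A] [Algebra ℚ A] {τ : (ℕ →₀ ℤ) → A}
    {ι : Type w} (Φ : Finset ι) (c : ι → ℚ) (ψ : ι → (EM →* Bp A))
    (h : ∀ a : ℕ →₀ ℤ, incl A (τ a) = ∑ i ∈ Φ, c i • ψ i (Multiplicative.ofAdd a)) :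
    IsExp τ := by
  have h1 : (fun a => incl A (τ a)) = ∑ i ∈ Φ, c i •
      (fun a : ℕ →₀ ℤ => ψ i (Multiplicative.ofAdd a)) := by
    funext a
    rw [h a, Finset.sum_apply]
    rfl
  show (fun a => incl A (τ a)) ∈ Submodule.span ℚ (chars A)
  rw [h1]
  refine Submodule.sum_mem _ fun i _ => Submodule.smul_mem _ _ (Submodule.subset_span ?_)
  exact ⟨ψ i, fun _ => rfl⟩

/-- Values of a character on a submonoid. -/
private theorem cg_mem {Z : Type u} [CommRing Z] (φ : EM →* Z) (M' : Submonoid Z)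
    (a : ℕ →₀ ℤ) (h : ∀ s ∈ a.support,
      φ (Multiplicative.ofAdd (Finsupp.single s (1 : ℤ))) ∈ M' ∧
      φ (Multiplicative.ofAdd (Finsupp.single s (-1 : ℤ))) ∈ M') :
    φ (Multiplicative.ofAdd a) ∈ M' := by
  have hsingle : ∀ s ∈ a.support, ∀ n : ℤ,
      φ (Multiplicative.ofAdd (Finsupp.single s n)) ∈ M' := by
    intro s hs n
    obtain ⟨h1, h2⟩ := h s hs
    obtain ⟨k, rfl | rfl⟩ := n.eq_nat_or_neg
    · have e : Finsupp.single s ((k : ℕ) : ℤ) = k • Finsupp.single s (1 : ℤ) := by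
        rw [Finsupp.smul_single, nsmul_eq_mul, mul_one]
      rw [e, ofAdd_nsmul, map_pow]
      exact M'.pow_mem h1 k
    · have e : Finsupp.single s (-((k : ℕ) : ℤ)) = k • Finsupp.single s (-1 : ℤ) := by
        rw [Finsupp.smul_single, nsmul_eq_mul, mul_neg, mul_one]
      rw [e, ofAdd_nsmul, map_pow]
      exact M'.pow_mem h2 k
  have e : a = ∑ s ∈ a.support, Finsupp.single s (a s) := by
    conv_lhs => rw [← Finsupp.sum_single a]
    rfl
  have e2 : φ (Multiplicative.ofAdd a) =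
      ∏ s ∈ a.support, φ (Multiplicative.ofAdd (Finsupp.single s (a s))) := by
    conv_lhs => rw [e]
    rw [ofAdd_sum, map_prod]
  rw [e2]
  exact Submonoid.prod_mem M' fun s hs => hsingle s hs _

private theorem cg_eval {A : Type u} {Z : Type v} [CommRing A] [CommRing Z] (ι : A →+* Z)
    (p : Polynomial A) (hp : p.Monic) {N : ℕ} (hN : p.natDegree = N) (z : Z)
    (hz : p.eval₂ ι z = 0) : z ^ N = ∑ i ∈ Finset.range N, ι (-p.coeff i) * z ^ i := by
  rw [Polynomial.eval₂_eq_sum_range, hN, Finset.sum_range_succ] at hz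
  have h1 : p.coeff N = 1 := by
    rw [← hN]
    exact hp
  rw [h1, map_one, one_mul] at hz
  have h2 : ∑ i ∈ Finset.range N, ι (-p.coeff i) * z ^ i =
      -∑ i ∈ Finset.range N, ι (p.coeff i) * z ^ i := by
    rw [← Finset.sum_neg_distrib]
    refine Finset.sum_congr rfl fun i _ => ?_
    rw [map_neg, neg_mul]
  rw [h2]
  exact eq_neg_of_add_eq_zero_right hz

/-- Recursion in the direction `v`. -/
private theorem cg_rec {A : Type u} [CommRing A] [IsDomain A] [Algebra ℚ A] {τ : (ℕ →₀ ℤ) → A}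
    (c : (EM →* Bp A) →₀ ℚ)
    (hc : ∀ a : ℕ →₀ ℤ, incl A (τ a) = ∑ φ ∈ c.support, c φ • φ (Multiplicative.ofAdd a))
    (p : Polynomial A) (hp : p.Monic) {N : ℕ} (hN : p.natDegree = N) (v : ℕ →₀ ℤ)
    (hz : ∀ φ ∈ c.support, p.eval₂ (incl A) (φ (Multiplicative.ofAdd v)) = 0) (a : ℕ →₀ ℤ) :
    τ (a + N • v) = ∑ i ∈ Finset.range N, (-p.coeff i) * τ (a + i • v) := by
  apply incl_injective A
  have key : ∀ (φ : EM →* Bp A) (i : ℕ), φ (Multiplicative.ofAdd (a + i • v)) =
      φ (Multiplicative.ofAdd a) * φ (Multiplicative.ofAdd v) ^ i := by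
    intro φ i
    rw [ofAdd_add, ofAdd_nsmul, map_mul, map_pow]
  rw [hc, map_sum]
  have h1 : ∀ i ∈ Finset.range N, incl A ((-p.coeff i) * τ (a + i • v)) =
      ∑ φ ∈ c.support, c φ • (φ (Multiplicative.ofAdd a) *
        (incl A (-p.coeff i) * φ (Multiplicative.ofAdd v) ^ i)) := by
    intro i _
    rw [map_mul, hc, Finset.mul_sum]
    refine Finset.sum_congr rfl fun φ _ => ?_
    rw [key, Algebra.smul_def, Algebra.smul_def]
    ring
  rw [Finset.sum_congr rfl h1, Finset.sum_comm]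
  refine Finset.sum_congr rfl fun φ hφ => ?_
  rw [key, cg_eval (incl A) p hp hN _ (hz φ hφ), ← Finset.smul_sum, ← Finset.mul_sum]

/-- The characters of the combination are trivial in the directions which can be killed. -/
private theorem cg_triv {A : Type u} [CommRing A] [IsDomain A] [Algebra ℚ A] {τ : (ℕ →₀ ℤ) → A}
    (c : (EM →* Bp A) →₀ ℚ)
    (hc : ∀ a : ℕ →₀ ℤ, incl A (τ a) = ∑ φ ∈ c.support, c φ • φ (Multiplicative.ofAdd a))
    (s : ℕ) (hs : ∀ a, τ (posL (killP s) a) = τ a) (φ : EM →* Bp A) (hφ : φ ∈ c.support) :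
    φ (Multiplicative.ofAdd (Finsupp.single s (1 : ℤ))) = 1 := by
  have hinv : ∀ a, τ (a + Finsupp.single s 1) = τ a := by
    intro a
    rw [← hs (a + Finsupp.single s 1), map_add, posL_single]
    have : (killP s s).elim (0 : ℕ →₀ ℤ) (fun t => Finsupp.single t (1 : ℤ)) = 0 := by
      simp [killP]
    rw [this, add_zero, hs]
  have h1 : ∑ ψ ∈ c.support, (algebraMap ℚ (Bp A) (c ψ) *
      (ψ (Multiplicative.ofAdd (Finsupp.single s (1 : ℤ))) - 1)) • (ψ : EM → Bp A) = 0 := by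
    funext b
    have h2 := congrArg (incl A) (hinv (Multiplicative.toAdd b))
    rw [hc, hc, ← sub_eq_zero, ← Finset.sum_sub_distrib] at h2
    rw [Finset.sum_apply, Pi.zero_apply, ← h2]
    refine Finset.sum_congr rfl fun ψ _ => ?_
    rw [Pi.smul_apply, smul_eq_mul, ofAdd_add, map_mul, Algebra.smul_def, Algebra.smul_def,
      ofAdd_toAdd]
    ring
  have h3 := linearIndependent_iff'.1 (linearIndependent_monoidHom EM (Bp A)) c.support _ h1 φ hφ
  have h4 : algebraMap ℚ (Bp A) (c φ) ≠ 0 := by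
    intro h5
    rw [← map_zero (algebraMap ℚ (Bp A))] at h5
    exact (Finsupp.mem_support_iff.1 hφ) ((algebraMap ℚ (Bp A)).injective h5)
  exact sub_eq_zero.1 ((mul_eq_zero.1 h3).resolve_left h4)

private theorem cg_neg {Z : Type u} [CommRing Z] (φ : EM →* Z) (s : ℕ)
    (h : φ (Multiplicative.ofAdd (Finsupp.single s (1 : ℤ))) = 1) :
    φ (Multiplicative.ofAdd (Finsupp.single s (-1 : ℤ))) = 1 := by
  have h1 : φ (Multiplicative.ofAdd (Finsupp.single s (1 : ℤ) + Finsupp.single s (-1 : ℤ))) = 1 := by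
    rw [← Finsupp.single_add, add_neg_cancel, Finsupp.single_zero, ofAdd_zero, map_one]
  rw [ofAdd_add, map_mul, h, one_mul] at h1
  exact h1

private theorem cg_indep {Z : Type u} [CommRing Z] (φ : EM →* Z) (S : Finset ℕ)
    (h : ∀ s, s ∉ S → φ (Multiplicative.ofAdd (Finsupp.single s (1 : ℤ))) = 1)
    (a b : ℕ →₀ ℤ) (hab : ∀ s ∈ S, a s = b s) :
    φ (Multiplicative.ofAdd a) = φ (Multiplicative.ofAdd b) := by
  have h1 : φ (Multiplicative.ofAdd (a - b)) ∈ (⊥ : Submonoid Z) := by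
    refine cg_mem φ ⊥ (a - b) fun s hs => ?_
    have hsS : s ∉ S := by
      intro hs'
      rw [Finsupp.mem_support_iff, Finsupp.sub_apply, hab s hs', sub_self] at hs
      exact hs rfl
    exact ⟨Submonoid.mem_bot.2 (h s hsS), Submonoid.mem_bot.2 (cg_neg φ s (h s hsS))⟩
  rw [Submonoid.mem_bot] at h1
  have h2 : a = (a - b) + b := by abel
  rw [h2, ofAdd_add, map_mul, h1, one_mul]

/-- MODULE SPC-ContG -/
theorem GT.cont {K : Type u} [Field K] [Algebra ℚ K] (x : GT K) (S : Finset ℕ)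
    (hS : ∀ s, s ∉ S → GT.pos (killP s) x = x) :
    ∃ F : Finset K, ∀ (B : Type v) [CommRing B] [IsDomain B] [Algebra ℚ B] (j : B →+* K),
      Function.Injective j → (∀ c ∈ F, c ∈ j.range) → ∃ y : GT B, GT.map j y = x := by
  classical
  obtain ⟨c, hc⟩ := cg_rep x.isExp
  -- the directions
  obtain ⟨dir, hdir⟩ : ∃ dir : ℕ → Bool → (ℕ →₀ ℤ), ∀ s ε, dir s ε =
      Finsupp.single s (if ε then 1 else -1 : ℤ) := ⟨_, fun _ _ => rfl⟩
  have hdt : ∀ s, dir s true = Finsupp.single s (1 : ℤ) := fun s => by rw [hdir]; rfl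
  have hdf : ∀ s, dir s false = Finsupp.single s (-1 : ℤ) := fun s => by rw [hdir]; rfl
  -- individual monic polynomials
  have hint : ∀ (φ : EM →* Bp (T K)) (v : ℕ →₀ ℤ), ∃ p : Polynomial (T K), p.Monic ∧
      p.eval₂ (incl (T K)) (φ (Multiplicative.ofAdd v)) = 0 :=
    fun φ v => incl_isIntegral (T K) _
  choose pp hpp1 hpp2 using hint
  obtain ⟨pr, hpr⟩ : ∃ pr : (ℕ →₀ ℤ) → Polynomial (T K), ∀ v, pr v = ∏ φ ∈ c.support, pp φ v :=
    ⟨_, fun _ => rfl⟩
  have hpr1 : ∀ v, (pr v).Monic := fun v => by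
    rw [hpr]
    exact Polynomial.monic_prod_of_monic _ _ fun φ _ => hpp1 φ v
  have hpr2 : ∀ v, ∀ φ ∈ c.support, (pr v).eval₂ (incl (T K)) (φ (Multiplicative.ofAdd v)) = 0 := by
    intro v φ hφ
    rw [hpr, Polynomial.eval₂_finset_prod]
    exact Finset.prod_eq_zero hφ (hpp2 φ v)
  obtain ⟨N, hN⟩ : ∃ N : ℕ, ∀ s ∈ S, ∀ ε, (pr (dir s ε)).natDegree ≤ N := by
    refine ⟨(S ×ˢ (Finset.univ : Finset Bool)).sup fun z => (pr (dir z.1 z.2)).natDegree,
      fun s hs ε => ?_⟩
    have hmem : (s, ε) ∈ S ×ˢ (Finset.univ : Finset Bool) :=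
      Finset.mem_product.2 ⟨hs, Finset.mem_univ _⟩
    exact Finset.le_sup (f := fun z : ℕ × Bool => (pr (dir z.1 z.2)).natDegree) hmem
  obtain ⟨P, hP⟩ : ∃ P : ℕ → Bool → Polynomial (T K), ∀ s ε, P s ε =
      pr (dir s ε) * Polynomial.X ^ (N - (pr (dir s ε)).natDegree) := ⟨_, fun _ _ => rfl⟩
  have hP1 : ∀ s ε, (P s ε).Monic := fun s ε => by
    rw [hP]
    exact (hpr1 _).mul (Polynomial.monic_X_pow _)
  have hP2 : ∀ s ∈ S, ∀ ε, (P s ε).natDegree = N := by
    intro s hs ε
    rw [hP, (hpr1 _).natDegree_mul (Polynomial.monic_X_pow _), Polynomial.natDegree_X_pow]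
    have := hN s hs ε
    omega
  have hP3 : ∀ s ε, ∀ φ ∈ c.support,
      (P s ε).eval₂ (incl (T K)) (φ (Multiplicative.ofAdd (dir s ε))) = 0 := by
    intro s ε φ hφ
    rw [hP, Polynomial.eval₂_mul, hpr2 _ φ hφ, zero_mul]
  -- the finite set
  obtain ⟨E₀, hE₀⟩ : ∃ E₀ : Finset (T K),
      (∀ s ∈ S, ∀ ε, (P s ε).coeffs ⊆ E₀) ∧
      (∀ s ∈ S, ∀ ε, ∀ φ ∈ c.support, (pp φ (dir s ε)).coeffs ⊆ E₀) ∧
      (∀ a ∈ S.finsupp (fun _ => Finset.Ico (0 : ℤ) N), x.val a ∈ E₀) := by
    refine ⟨((S ×ˢ (Finset.univ : Finset Bool)).biUnion fun z => (P z.1 z.2).coeffs) ∪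
      (((S ×ˢ (Finset.univ : Finset Bool)) ×ˢ c.support).biUnion fun z =>
        (pp z.2 (dir z.1.1 z.1.2)).coeffs) ∪
      (S.finsupp (fun _ => Finset.Ico (0 : ℤ) N)).image x.val, ?_, ?_, ?_⟩
    · intro s hs ε q hq
      refine Finset.mem_union_left _ (Finset.mem_union_left _ ?_)
      exact Finset.mem_biUnion.2 ⟨(s, ε), Finset.mem_product.2 ⟨hs, Finset.mem_univ _⟩, hq⟩
    · intro s hs ε φ hφ q hq
      refine Finset.mem_union_left _ (Finset.mem_union_right _ ?_)
      exact Finset.mem_biUnion.2 ⟨((s, ε), φ), Finset.mem_product.2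
        ⟨Finset.mem_product.2 ⟨hs, Finset.mem_univ _⟩, hφ⟩, hq⟩
    · intro a ha
      exact Finset.mem_union_right _ (Finset.mem_image_of_mem _ ha)
  obtain ⟨hE1, hE2, hE3⟩ := hE₀
  refine ⟨E₀.biUnion fun q => MvPolynomial.coeffs q, ?_⟩
  intro B _ _ _ j hj hF
  have hE : ∀ q ∈ E₀, q ∈ (tMap j).range := by
    intro q hq
    have h0 : q ∈ Set.range (MvPolynomial.map (σ := _) j) := by
      rw [MvPolynomial.mem_range_map_iff_coeffs_subset]
      intro k hk
      exact hF k (Finset.mem_biUnion.2 ⟨q, hq, hk⟩)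
    exact h0
  have hcoef : ∀ (p : Polynomial (T K)), p.coeffs ⊆ E₀ → ∀ i, p.coeff i ∈ (tMap j).range := by
    intro p hp i
    by_cases h0 : p.coeff i = 0
    · rw [h0]
      exact Subring.zero_mem _
    · exact hE _ (hp (Polynomial.coeff_mem_coeffs h0))
  have htriv : ∀ φ ∈ c.support, ∀ s, s ∉ S →
      φ (Multiplicative.ofAdd (Finsupp.single s (1 : ℤ))) = 1 := by
    intro φ hφ s hs
    refine cg_triv c hc s (fun a => ?_) φ hφ
    rw [← GT.val_pos, hS s hs]
  have hval : ∀ a, x.val a ∈ (tMap j).range := by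
    refine mem_of_recursion (tMap j).range x.val S ?_ N
      (fun s i => -(P s true).coeff i) (fun s i => -(P s false).coeff i) ?_ ?_ ?_ ?_ ?_
    · intro a b hab
      apply incl_injective (T K)
      rw [hc, hc]
      refine Finset.sum_congr rfl fun φ hφ => ?_
      rw [cg_indep φ S (htriv φ hφ) a b hab]
    · intro s hs i
      exact Subring.neg_mem _ (hcoef _ (hE1 s hs true) i)
    · intro s hs i
      exact Subring.neg_mem _ (hcoef _ (hE1 s hs false) i)
    · intro s hs a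
      have h1 := cg_rec c hc (P s true) (hP1 s true) (hP2 s hs true) (dir s true)
        (hP3 s true) a
      have h2 : ∀ i : ℕ, a + i • dir s true = a + Finsupp.single s (i : ℤ) := by
        intro i
        rw [hdt, Finsupp.smul_single, nsmul_eq_mul, mul_one]
      rw [h2 N] at h1
      rw [h1]
      exact Finset.sum_congr rfl fun i _ => by rw [h2 i]
    · intro s hs a
      have h1 := cg_rec c hc (P s false) (hP1 s false) (hP2 s hs false) (dir s false)
        (hP3 s false) a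
      have h2 : ∀ i : ℕ, a + i • dir s false = a - Finsupp.single s (i : ℤ) := by
        intro i
        rw [hdf, Finsupp.smul_single, nsmul_eq_mul, mul_neg, mul_one, Finsupp.single_neg,
          ← sub_eq_add_neg]
      rw [h2 N] at h1
      rw [h1]
      exact Finset.sum_congr rfl fun i _ => by rw [h2 i]
    · intro a ha1 ha2
      refine hE _ (hE3 a ?_)
      rw [Finset.mem_finsupp_iff]
      refine ⟨fun s hs => ?_, fun s hs => Finset.mem_Ico.2 (ha1 s hs)⟩
      by_contra hcon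
      exact (Finsupp.mem_support_iff.1 hs) (ha2 s hcon)
  choose τ hτ using hval
  have hTj : Function.Injective (tMap j) := MvPolynomial.map_injective j hj
  have hθi := lift_injective (tMap j) hTj
  obtain ⟨θ, hθ⟩ : ∃ θ : Bp (T B) →+* Bp (T K), θ = lift ((incl (T K)).comp (tMap j)) :=
    ⟨_, rfl⟩
  rw [← hθ] at hθi
  have hθincl : ∀ b, θ (incl (T B) b) = incl (T K) (tMap j b) := by
    intro b
    rw [hθ, lift_incl]
    rfl
  have hdirmem : ∀ φ ∈ c.support, ∀ s ∈ S, ∀ ε,
      φ (Multiplicative.ofAdd (dir s ε)) ∈ θ.range := by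
    intro φ hφ s hs ε
    obtain ⟨q, hq1, -, hq3⟩ := Polynomial.lifts_and_natDegree_eq_and_monic
      ((Polynomial.lifts_iff_coeff_lifts (f := tMap j) (pp φ (dir s ε))).2 fun i => by
        obtain ⟨z, hz⟩ := hcoef _ (hE2 s hs ε φ hφ) i
        exact ⟨z, hz⟩) (hpp1 φ (dir s ε))
    have h1 : q.eval₂ ((incl (T K)).comp (tMap j)) (φ (Multiplicative.ofAdd (dir s ε))) = 0 := by
      rw [← Polynomial.eval₂_map, hq1]
      exact hpp2 φ (dir s ε)
    obtain ⟨z, hz⟩ := mem_range_lift (tMap j) q hq3 _ h1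
    exact ⟨z, by rw [hθ]; exact hz⟩
  have hmem : ∀ φ ∈ c.support, ∀ a : ℕ →₀ ℤ, φ (Multiplicative.ofAdd a) ∈ θ.range := by
    intro φ hφ a
    refine cg_mem φ θ.range.toSubmonoid a fun s _ => ?_
    by_cases hs : s ∈ S
    · have h1 := hdirmem φ hφ s hs true
      have h2 := hdirmem φ hφ s hs false
      rw [hdt] at h1
      rw [hdf] at h2
      exact ⟨h1, h2⟩
    · have h1 := htriv φ hφ s hs
      have h2 := cg_neg φ s h1
      rw [h1, h2]
      exact ⟨Subring.one_mem _, Subring.one_mem _⟩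
  have hchar : ∀ φ : EM →* Bp (T K), ∃ ψ : EM →* Bp (T B), φ ∈ c.support →
      ∀ a : ℕ →₀ ℤ, θ (ψ (Multiplicative.ofAdd a)) = φ (Multiplicative.ofAdd a) := by
    intro φ
    by_cases hφ : φ ∈ c.support
    · have h1 := hmem φ hφ
      choose g hg using h1
      refine ⟨{ toFun := fun m => g (Multiplicative.toAdd m), map_one' := ?_, map_mul' := ?_ },
        fun _ a => hg a⟩
      · apply hθi
        rw [hg, map_one θ]
        exact map_one φ
      · intro m n
        apply hθi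
        rw [map_mul θ, hg, hg, hg]
        exact map_mul φ m n
    · exact ⟨1, fun h => absurd h hφ⟩
  choose ψ hψ using hchar
  have hexp : IsExp τ := by
    refine cg_isExp c.support (fun φ => c φ) ψ fun a => ?_
    apply hθi
    rw [hθincl, hτ, hc, map_sum]
    refine Finset.sum_congr rfl fun φ hφ => ?_
    rw [Algebra.smul_def, Algebra.smul_def, map_mul, hψ φ hφ a]
    congr 1
    exact congrArg (fun g : ℚ →+* Bp (T K) => g (c φ))
      (Subsingleton.elim (algebraMap ℚ (Bp (T K))) (θ.comp (algebraMap ℚ (Bp (T B)))))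
  refine ⟨GT.mk τ hexp, GT.ext fun a => ?_⟩
  rw [GT.val_map, GT.val_mk]
  exact hτ a

end Pool.Agent.SPC
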