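import Mathlib

/-!
# The coordinate ring of a power of the affine scheme `Spec S`

`Cr k C S J`: the ring of the functions of `J` points of `Spec S` with coefficients in `C`
(the tensor product over `k` of `C` and of `J` copies of `S`), by generators and relations.
-/

set_option autoImplicit false

noncomputable section

namespace Pool.Agent.SPC

universe u v w

open MvPolynomial

section

variable (k : Type u) [Field k] (C : Type u) [CommRing C] [Algebra k C] (S : Type u) [CommRing S]
  [Algebra k S] (J : Type)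

/-- The relations of the coordinate ring. -/
def crRel : Set (MvPolynomial (J × S) C) :=
  {p | (∃ j s s', p = X (j, s + s') - (X (j, s) + X (j, s'))) ∨
    (∃ j s s', p = X (j, s * s') - X (j, s) * X (j, s')) ∨
    (∃ j c, p = X (j, algebraMap k S c) - MvPolynomial.C (algebraMap k C c))}

/-- The coordinate ring of `J` points of `Spec S`, with coefficients in `C`. -/
def Cr : Type u := MvPolynomial (J × S) C ⧸ Ideal.span (crRel k C S J)

instance : CommRing (Cr k C S J) :=
  inferInstanceAs (CommRing (MvPolynomial (J × S) C ⧸ Ideal.span (crRel k C S J)))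

instance {R : Type w} [CommRing R] [Algebra R C] : Algebra R (Cr k C S J) :=
  inferInstanceAs (Algebra R (MvPolynomial (J × S) C ⧸ Ideal.span (crRel k C S J)))

instance {R R' : Type w} [CommRing R] [CommRing R'] [Algebra R R'] [Algebra R C] [Algebra R' C]
    [IsScalarTower R R' C] : IsScalarTower R R' (Cr k C S J) :=
  inferInstanceAs (IsScalarTower R R' (MvPolynomial (J × S) C ⧸ Ideal.span (crRel k C S J)))

instance : IsScalarTower k C (Cr k C S J) :=
  inferInstanceAs (IsScalarTower k C (MvPolynomial (J × S) C ⧸ Ideal.span (crRel k C S J)))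

end

namespace Cr

variable {k : Type u} [Field k] {C : Type u} [CommRing C] [Algebra k C] {S : Type u} [CommRing S]
  [Algebra k S] {J J' J'' : Type}

/-- The constants. -/
def cst : C →ₐ[k] Cr k C S J := IsScalarTower.toAlgHom k C (Cr k C S J)

/-- The `j`-th point. -/
def x (j : J) : S →ₐ[k] Cr k C S J where
  toFun s := Ideal.Quotient.mk _ (X (j, s))
  map_one' := by
    have h : (X (j, algebraMap k S 1) : MvPolynomial (J × S) C) -
        MvPolynomial.C (algebraMap k C 1) ∈ Ideal.span (crRel k C S J) :=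
      Ideal.subset_span (Or.inr (Or.inr ⟨j, 1, rfl⟩))
    have h1 := Ideal.Quotient.eq.2 h
    rw [map_one, map_one, map_one] at h1
    rw [h1]; exact map_one _
  map_mul' s s' := by
    have h : (X (j, s * s') : MvPolynomial (J × S) C) - X (j, s) * X (j, s') ∈
        Ideal.span (crRel k C S J) := Ideal.subset_span (Or.inr (Or.inl ⟨j, s, s', rfl⟩))
    have h1 := Ideal.Quotient.eq.2 h
    rw [h1]; exact map_mul _ _ _
  map_zero' := by
    have h : (X (j, algebraMap k S 0) : MvPolynomial (J × S) C) -
        MvPolynomial.C (algebraMap k C 0) ∈ Ideal.span (crRel k C S J) :=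
      Ideal.subset_span (Or.inr (Or.inr ⟨j, 0, rfl⟩))
    have h1 := Ideal.Quotient.eq.2 h
    rw [map_zero, map_zero, map_zero] at h1
    rw [h1]; exact map_zero _
  map_add' s s' := by
    have h : (X (j, s + s') : MvPolynomial (J × S) C) - (X (j, s) + X (j, s')) ∈
        Ideal.span (crRel k C S J) := Ideal.subset_span (Or.inl ⟨j, s, s', rfl⟩)
    have h1 := Ideal.Quotient.eq.2 h
    rw [h1]; exact map_add _ _ _
  commutes' c := by
    have h : (X (j, algebraMap k S c) : MvPolynomial (J × S) C) -
        MvPolynomial.C (algebraMap k C c) ∈ Ideal.span (crRel k C S J) :=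
      Ideal.subset_span (Or.inr (Or.inr ⟨j, c, rfl⟩))
    exact Ideal.Quotient.eq.2 h

variable {E : Type v} [CommRing E] [Algebra k E]

omit [Algebra k E] in
/-- Two homomorphisms which agree on the constants and on the points are equal. -/
theorem hom_ext {f g : Cr k C S J →+* E} (h1 : ∀ c : C, f (cst (k := k) c) = g (cst (k := k) c))
    (h2 : ∀ (j : J) (s : S), f (x j s) = g (x j s)) (b : Cr k C S J) : f b = g b := by
  have h : f.comp (Ideal.Quotient.mk (Ideal.span (crRel k C S J))) =
      g.comp (Ideal.Quotient.mk (Ideal.span (crRel k C S J))) :=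
    MvPolynomial.ringHom_ext (fun c => h1 c) (fun q => h2 q.1 q.2)
  obtain ⟨p, rfl⟩ := Ideal.Quotient.mk_surjective b
  exact congrArg (fun φ : MvPolynomial (J × S) C →+* E => φ p) h

/-- The universal property. -/
def lift (f : C →ₐ[k] E) (y : J → (S →ₐ[k] E)) : Cr k C S J →ₐ[k] E where
  toRingHom := Ideal.Quotient.lift (Ideal.span (crRel k C S J))
    (eval₂Hom (f : C →+* E) fun q => y q.1 q.2) (by
      intro a ha
      rw [← RingHom.mem_ker]
      revert ha a
      change Ideal.span (crRel k C S J) ≤ _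
      rw [Ideal.span_le]
      rintro p (⟨j, s, s', rfl⟩ | ⟨j, s, s', rfl⟩ | ⟨j, c, rfl⟩)
      · simp [RingHom.mem_ker]
      · simp [RingHom.mem_ker]
      · simp [RingHom.mem_ker])
  commutes' c := by
    have h : algebraMap k (Cr k C S J) c = Ideal.Quotient.mk _ (MvPolynomial.C (algebraMap k C c)) :=
      rfl
    rw [h]
    change eval₂Hom (f : C →+* E) (fun q : J × S => y q.1 q.2) (MvPolynomial.C (algebraMap k C c)) = _
    simp

theorem lift_cst (f : C →ₐ[k] E) (y : J → (S →ₐ[k] E)) (c : C) :
    lift f y (cst (k := k) c) = f c := by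
  change eval₂Hom (f : C →+* E) (fun q : J × S => y q.1 q.2) (MvPolynomial.C c) = _
  simp

theorem lift_x (f : C →ₐ[k] E) (y : J → (S →ₐ[k] E)) (j : J) (s : S) :
    lift f y (x j s) = y j s := by
  change eval₂Hom (f : C →+* E) (fun q : J × S => y q.1 q.2) (X (j, s)) = _
  simp

/-- The point given by a variable or a constant point. -/
def pt : J ⊕ (S →ₐ[k] C) → (S →ₐ[k] Cr k C S J)
  | Sum.inl j => x j
  | Sum.inr p => (cst (k := k)).comp p

/-- Substitution of variables by variables or constant points. -/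
def sub (v : J → J' ⊕ (S →ₐ[k] C)) : Cr k C S J →ₐ[k] Cr k C S J' :=
  lift cst fun j => pt (v j)

theorem sub_cst (v : J → J' ⊕ (S →ₐ[k] C)) (c : C) :
    sub v (cst (k := k) c) = cst (k := k) c := lift_cst _ _ c

theorem sub_x (v : J → J' ⊕ (S →ₐ[k] C)) (j : J) (s : S) : sub v (x j s) = pt (v j) s :=
  lift_x _ _ j s

theorem sub_pt (v : J → J' ⊕ (S →ₐ[k] C)) (q : J ⊕ (S →ₐ[k] C)) (s : S) :
    sub v (pt q s) = pt (Sum.elim v Sum.inr q) s := by
  cases q with
  | inl j => exact sub_x v j s
  | inr p => exact sub_cst v (p s)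

theorem sub_sub (v : J → J' ⊕ (S →ₐ[k] C)) (w : J' → J'' ⊕ (S →ₐ[k] C)) (b : Cr k C S J) :
    sub w (sub v b) = sub (fun j => Sum.elim w Sum.inr (v j)) b := by
  refine hom_ext (f := (sub w).toRingHom.comp (sub v).toRingHom)
    (g := (sub (fun j => Sum.elim w Sum.inr (v j))).toRingHom) (fun c => ?_) (fun j s => ?_) b
  · change sub w (sub v (cst (k := k) c)) = sub _ (cst (k := k) c)
    rw [sub_cst, sub_cst, sub_cst]
  · change sub w (sub v (x j s)) = sub _ (x j s)
    rw [sub_x, sub_pt, sub_x]

theorem sub_id (b : Cr k C S J) : sub (Sum.inl : J → J ⊕ (S →ₐ[k] C)) b = b := by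
  refine hom_ext (f := (sub (Sum.inl : J → J ⊕ (S →ₐ[k] C))).toRingHom)
    (g := RingHom.id _) (fun c => ?_) (fun j s => ?_) b
  · exact sub_cst _ c
  · exact sub_x _ j s

/-- Evaluation at constant points. -/
def ev (p : J → (S →ₐ[k] C)) : Cr k C S J →ₐ[k] C := lift (AlgHom.id k C) p

theorem ev_cst (p : J → (S →ₐ[k] C)) (c : C) : ev p (cst (k := k) c) = c := lift_cst _ _ c

theorem ev_x (p : J → (S →ₐ[k] C)) (j : J) (s : S) : ev p (x j s) = p j s := lift_x _ _ j s

theorem ev_sub (v : J → J' ⊕ (S →ₐ[k] C)) (p : J' → (S →ₐ[k] C)) (b : Cr k C S J) :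
    ev p (sub v b) = ev (fun j => Sum.elim p id (v j)) b := by
  refine hom_ext (f := (ev p).toRingHom.comp (sub v).toRingHom)
    (g := (ev fun j => Sum.elim p id (v j)).toRingHom) (fun c => ?_) (fun j s => ?_) b
  · change ev p (sub v (cst (k := k) c)) = ev _ (cst (k := k) c)
    rw [sub_cst, ev_cst, ev_cst]
  · change ev p (sub v (x j s)) = ev _ (x j s)
    rw [sub_x, ev_x]
    cases v j with
    | inl j' => exact ev_x p j' s
    | inr q => exact ev_cst p (q s)

end Cr

end Pool.Agent.SPC
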