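import Pool.Agent.SPC.Cr

/-!
# The coordinate ring of finitely many points is a domain

MODULE SPC-CrA.  PLAN.  `isDomain_tensor'`: see `Pool/Agent/Helper19/BS/Alg.lean` (points of the
affine variety `S` over the algebraically closed field `k` are dense: copy and generalise to
universe `u` and to a domain `L` instead of a field): choose a basis `b` of `L` over `k`; nonzero
`f, g ∈ S ⊗ L` have nonzero coordinates `f_i, g_j ∈ S`; a `k`-point `y` of `S` with
`y (f_i g_j) ≠ 0` (Nullstellensatz) gives `(y ⊗ id) f ≠ 0`, `(y ⊗ id) g ≠ 0` in the domain `L`.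
`crOption_injective`: the composition of `toTensor` with
`Algebra.TensorProduct.lift (x none) (sub (inl ∘ some))` is the identity (`hom_ext`).
`isDomain_cr_fintype`: `Fintype.induction_empty_option`; for an equivalence `J ≃ J'` the maps
`sub (inl ∘ e)` are inverse to each other (`sub_sub`, `sub_id`); for the empty type `Cr` is
isomorphic to `C` (`ev` of the empty family is injective: `cst (ev b) = b` by `hom_ext`).
-/

set_option autoImplicit false

noncomputable section

namespace Pool.Agent.SPC

universe u v w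

open TensorProduct

private theorem densePts (k A : Type u) [Field k] [IsAlgClosed k] [CommRing A] [IsDomain A]
    [Algebra k A] [Algebra.FiniteType k A] : ∀ a : A, a ≠ 0 → ∃ y : A →ₐ[k] k, y a ≠ 0 := by
  intro a ha
  have hJ : IsJacobsonRing A := isJacobsonRing_of_finiteType (A := k) (B := A)
  have h1 : (⊥ : Ideal A).jacobson = ⊥ := by
    have := (isJacobsonRing_iff_prime_eq.1 hJ) (⊥ : Ideal A) Ideal.isPrime_bot
    exact this
  have h2' : ∃ M : Ideal A, M.IsMaximal ∧ a ∉ M := by
    by_contra hcon
    push Not at hcon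
    apply ha
    have : a ∈ (⊥ : Ideal A).jacobson := by
      rw [Ideal.jacobson, Ideal.mem_sInf]
      intro J hJ'
      exact hcon J hJ'.2
    rw [h1] at this
    simpa using this
  obtain ⟨M, hM, haM⟩ := h2'
  let _ : Field (A ⧸ M) := Ideal.Quotient.field M
  have hft : Algebra.FiniteType k (A ⧸ M) := inferInstance
  have hfin : Module.Finite k (A ⧸ M) := finite_of_finite_type_of_isJacobsonRing k (A ⧸ M)
  have hint : Algebra.IsIntegral k (A ⧸ M) := inferInstance
  have hbij : Function.Bijective (algebraMap k (A ⧸ M)) :=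
    IsAlgClosed.algebraMap_bijective_of_isIntegral
  let e : k ≃ₐ[k] (A ⧸ M) := AlgEquiv.ofBijective (Algebra.ofId k (A ⧸ M)) hbij
  refine ⟨(e.symm : (A ⧸ M) →ₐ[k] k).comp (Ideal.Quotient.mkₐ k M), ?_⟩
  intro h
  apply haM
  have h3 : e.symm (Ideal.Quotient.mk M a) = 0 := h
  rw [map_eq_zero_iff _ e.symm.injective] at h3
  exact Ideal.Quotient.eq_zero_iff_mem.1 h3

section Tensor

variable {k A L : Type u} [Field k] [CommRing A] [Algebra k A] [CommRing L] [Algebra k L]

/-- Evaluation `A ⊗ L → L` at a `k`-point of `A`. -/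
private def evPt (y : A →ₐ[k] k) : A ⊗[k] L →ₐ[k] L :=
  Algebra.TensorProduct.lift ((Algebra.ofId k L).comp y) (AlgHom.id k L) (fun _ _ => Commute.all _ _)

private theorem evPt_tmul (y : A →ₐ[k] k) (a : A) (l : L) :
    evPt y (a ⊗ₜ[k] l) = algebraMap k L (y a) * l := by
  simp [evPt, Algebra.ofId_apply]

private theorem evPt_eq_sum (y : A →ₐ[k] k) {ι : Type u} (b : Module.Basis ι k L) (s : A ⊗[k] L) :
    evPt y s = ((Algebra.TensorProduct.basis A b).repr s).sum fun i a => y a • b i := by
  classical
  conv_lhs => rw [← (Algebra.TensorProduct.basis A b).linearCombination_repr s]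
  rw [Finsupp.linearCombination_apply, Finsupp.sum, map_sum]
  refine Finset.sum_congr rfl fun i _ => ?_
  rw [Algebra.TensorProduct.basis_apply, TensorProduct.smul_tmul', smul_eq_mul, mul_one,
    evPt_tmul]
  exact (Algebra.smul_def _ _).symm

private theorem evPt_ne_zero (y : A →ₐ[k] k) {ι : Type u} (b : Module.Basis ι k L) (s : A ⊗[k] L) (i : ι)
    (hi : y ((Algebra.TensorProduct.basis A b).repr s i) ≠ 0) : evPt y s ≠ 0 := by
  classical
  intro h
  apply hi
  rw [evPt_eq_sum y b s] at h
  have hb := b.linearIndependent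
  rw [linearIndependent_iff'] at hb
  have h3 := hb _ _ h
  by_cases hmem : i ∈ ((Algebra.TensorProduct.basis A b).repr s).support
  · exact h3 i hmem
  · rw [Finsupp.notMem_support_iff.1 hmem, map_zero]

private theorem exists_evPt_ne (h : ∀ a : A, a ≠ 0 → ∃ y : A →ₐ[k] k, y a ≠ 0) [IsDomain A] {f g : A ⊗[k] L}
    (hf : f ≠ 0) (hg : g ≠ 0) : ∃ y : A →ₐ[k] k, evPt y f ≠ 0 ∧ evPt y g ≠ 0 := by
  classical
  let b := Module.Basis.ofVectorSpace k L
  let B := Algebra.TensorProduct.basis A b
  have hf' : B.repr f ≠ 0 := fun h0 => hf (B.repr.map_eq_zero_iff.1 h0)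
  have hg' : B.repr g ≠ 0 := fun h0 => hg (B.repr.map_eq_zero_iff.1 h0)
  obtain ⟨i, hi⟩ := Finsupp.ne_iff.1 hf'
  obtain ⟨j, hj⟩ := Finsupp.ne_iff.1 hg'
  obtain ⟨y, hy⟩ := h (B.repr f i * B.repr g j) (mul_ne_zero hi hj)
  rw [map_mul] at hy
  exact ⟨y, evPt_ne_zero y b f i (left_ne_zero_of_mul hy),
    evPt_ne_zero y b g j (right_ne_zero_of_mul hy)⟩

end Tensor

theorem isDomain_tensor' {k : Type u} [Field k] [IsAlgClosed k] {S : Type u} [CommRing S]
    [IsDomain S] [Algebra k S] [Algebra.FiniteType k S] {L : Type u} [CommRing L] [IsDomain L]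
    [Algebra k L] : IsDomain (S ⊗[k] L) := by
  have hnt : Nontrivial (S ⊗[k] L) := inferInstance
  have hnz : NoZeroDivisors (S ⊗[k] L) := ⟨by
    intro f g hfg
    by_contra hcon
    push Not at hcon
    obtain ⟨y, h1, h2⟩ := exists_evPt_ne (densePts k S) hcon.1 hcon.2
    have h3 : evPt y (f * g) = 0 := by rw [hfg, map_zero]
    rw [map_mul] at h3
    rcases mul_eq_zero.1 h3 with h4 | h4
    · exact h1 h4
    · exact h2 h4⟩
  exact NoZeroDivisors.to_isDomain _

namespace Cr

variable {k : Type u} [Field k] {C : Type u} [CommRing C] [Algebra k C] {S : Type u} [CommRing S]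
  [Algebra k S]

/-- Separate one variable. -/
def toTensor (J : Type) : Cr k C S (Option J) →ₐ[k] S ⊗[k] Cr k C S J :=
  lift ((Algebra.TensorProduct.includeRight : Cr k C S J →ₐ[k] S ⊗[k] Cr k C S J).comp cst)
    fun j => match j with
      | none => Algebra.TensorProduct.includeLeft
      | some j => (Algebra.TensorProduct.includeRight : Cr k C S J →ₐ[k] S ⊗[k] Cr k C S J).comp
          (x j)

theorem toTensor_injective (J : Type) :
    Function.Injective (toTensor (k := k) (C := C) (S := S) J) := by
  obtain ⟨bk, hb1, hb2⟩ : ∃ bk : S ⊗[k] Cr k C S J →ₐ[k] Cr k C S (Option J),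
      (∀ s : S, bk (s ⊗ₜ 1) = x none s) ∧
      ∀ b : Cr k C S J, bk (1 ⊗ₜ b) = sub (fun j => Sum.inl (some j)) b := by
    refine ⟨Algebra.TensorProduct.lift (x none) (sub (fun j => Sum.inl (some j)))
      (fun _ _ => Commute.all _ _), fun s => ?_, fun b => ?_⟩
    · rw [Algebra.TensorProduct.lift_tmul, map_one, mul_one]
    · rw [Algebra.TensorProduct.lift_tmul, map_one, one_mul]
  have key : ∀ b : Cr k C S (Option J), bk (toTensor J b) = b := by
    intro b
    refine hom_ext (f := bk.toRingHom.comp (toTensor J).toRingHom) (g := RingHom.id _)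
      (fun c => ?_) (fun j s => ?_) b
    · change bk (toTensor J (cst (k := k) c)) = cst (k := k) c
      have h1 : toTensor (k := k) (C := C) (S := S) J (cst (k := k) c) = 1 ⊗ₜ cst (k := k) c := lift_cst _ _ c
      rw [h1, hb2, sub_cst]
    · change bk (toTensor J (x j s)) = x j s
      cases j with
      | none =>
        have h1 : toTensor (k := k) (C := C) (S := S) J (x none s) = s ⊗ₜ 1 := lift_x _ _ none s
        rw [h1, hb1]
      | some j =>
        have h1 : toTensor (k := k) (C := C) (S := S) J (x (some j) s) = 1 ⊗ₜ x j s := lift_x _ _ (some j) s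
        rw [h1, hb2, sub_x]
        rfl
  intro a b hab
  rw [← key a, ← key b, hab]

theorem isDomain_cr_fintype [IsAlgClosed k] [IsDomain C] [IsDomain S] [Algebra.FiniteType k S]
    (J : Type) [Finite J] : IsDomain (Cr k C S J) := by
  refine Finite.induction_empty_option (P := fun J : Type => IsDomain (Cr k C S J)) ?_ ?_ ?_ J
  · intro α β e h
    have h1 : ∀ b : Cr k C S β, sub (fun j => Sum.inl (e j)) (sub (fun j => Sum.inl (e.symm j)) b) = b := by
      intro b
      rw [sub_sub]
      have h2 : (fun j => Sum.elim (fun j => (Sum.inl (e j) : β ⊕ (S →ₐ[k] C))) Sum.inr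
          ((Sum.inl (e.symm j) : α ⊕ (S →ₐ[k] C)))) = Sum.inl := by
        funext j
        rw [Sum.elim_inl, Equiv.apply_symm_apply]
      rw [h2]
      exact sub_id b
    have hinj : Function.Injective (sub (fun j => Sum.inl (e.symm j)) : Cr k C S β →ₐ[k] Cr k C S α) := by
      intro a b hab
      rw [← h1 a, ← h1 b, hab]
    exact Function.Injective.isDomain (sub (fun j => Sum.inl (e.symm j)) : Cr k C S β →ₐ[k] Cr k C S α).toRingHom hinj
  · have h1 : ∀ b : Cr k C S PEmpty, cst (k := k) (ev (fun j : PEmpty => j.elim) b) = b := by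
      intro b
      refine hom_ext (f := (cst (k := k)).toRingHom.comp (ev (fun j : PEmpty => j.elim)).toRingHom)
        (g := RingHom.id _) (fun c => ?_) (fun j s => ?_) b
      · change cst (k := k) (ev _ (cst (k := k) c)) = cst (k := k) c
        rw [ev_cst]
      · exact j.elim
    have hinj : Function.Injective (ev (fun j : PEmpty => j.elim) : Cr k C S PEmpty →ₐ[k] C) := by
      intro a b hab
      rw [← h1 a, ← h1 b, hab]
    exact Function.Injective.isDomain (ev (fun j : PEmpty => j.elim) : Cr k C S PEmpty →ₐ[k] C).toRingHom hinj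
  · intro α _ h
    have h1 : IsDomain (S ⊗[k] Cr k C S α) := isDomain_tensor'
    exact Function.Injective.isDomain (toTensor (k := k) (C := C) (S := S) α).toRingHom (toTensor_injective α)

end Cr

end Pool.Agent.SPC
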