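import Pool.Agent.SPC.CrA

/-!
# The coordinate ring of any number of points is a domain

MODULE SPC-CrB.  PLAN.  `exists_finite`: every element comes from finitely many variables (induction
on the polynomial representing it: `Ideal.Quotient.mk_surjective`, `MvPolynomial.induction_on`, or the
subalgebra of the elements with this property contains the constants and the `x j s`;
`Subtype.val : F → J` for a finset `F` of `J`; enlarge `F` by composing with inclusions, `sub_sub`).
`sub_val_injective`: a left inverse is `sub` of the map sending the variables of `F` to themselves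
and the others to a `k`-point of `S` (with values in `C`), which exists by the Nullstellensatz.
`isDomain_cr`: if `f g = 0` take a common finite `F` and use `isDomain_cr_fintype`.
`ev_injective`: for a finite set of variables `Cr` is a domain...
-/

set_option autoImplicit false

noncomputable section

namespace Pool.Agent.SPC

universe u v w

namespace Cr

variable {k : Type u} [Field k] {C : Type u} [CommRing C] [Algebra k C] {S : Type u} [CommRing S]
  [Algebra k S]

/-- The quotient map. -/
private def mkC (J : Type) : MvPolynomial (J × S) C →+* Cr k C S J :=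
  Ideal.Quotient.mk (Ideal.span (crRel k C S J))

private theorem mkC_surj (J : Type) : Function.Surjective (mkC (k := k) (C := C) (S := S) J) :=
  Ideal.Quotient.mk_surjective

private theorem mkC_C (J : Type) (c : C) : mkC (k := k) (C := C) (S := S) J (MvPolynomial.C c) = cst (k := k) c := rfl

private theorem mkC_X (J : Type) (j : J) (s : S) : mkC (k := k) (C := C) (S := S) J (MvPolynomial.X (j, s)) = x j s := rfl

theorem exists_finite {J : Type} (b : Cr k C S J) : ∃ F : Finset J, ∃ b' : Cr k C S F,
    sub (fun j : F => Sum.inl (j : J)) b' = b := by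
  classical
  obtain ⟨p, rfl⟩ := mkC_surj J b
  obtain ⟨s, q, hq⟩ := MvPolynomial.exists_finset_rename p
  obtain ⟨F, hF⟩ : ∃ F : Finset J, ∀ z ∈ s, z.1 ∈ F := ⟨s.image Prod.fst, fun z hz => Finset.mem_image_of_mem _ hz⟩
  obtain ⟨g, hg1, hg2⟩ : ∃ g : MvPolynomial {z // z ∈ s} C →+* Cr k C S F,
      (∀ c, g (MvPolynomial.C c) = cst (k := k) c) ∧
      ∀ z, g (MvPolynomial.X z) = x (⟨z.1.1, hF z.1 z.2⟩ : F) z.1.2 := by
    refine ⟨MvPolynomial.eval₂Hom ((cst (k := k) : C →ₐ[k] Cr k C S F).toRingHom)
      (fun z : {z // z ∈ s} => x (⟨z.1.1, hF z.1 z.2⟩ : F) z.1.2), fun c => ?_, fun z => ?_⟩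
    · rw [MvPolynomial.eval₂Hom_C]
      rfl
    · rw [MvPolynomial.eval₂Hom_X']
  refine ⟨F, g q, ?_⟩
  have h : (sub (fun j : F => (Sum.inl (j : J) : J ⊕ (S →ₐ[k] C))) : Cr k C S F →ₐ[k] Cr k C S J).toRingHom.comp g =
      (mkC J).comp (MvPolynomial.rename (Subtype.val : {z // z ∈ s} → J × S) :
        MvPolynomial {z // z ∈ s} C →ₐ[C] MvPolynomial (J × S) C).toRingHom := by
    apply MvPolynomial.ringHom_ext
    · intro c
      change sub (fun j : F => (Sum.inl (j : J) : J ⊕ (S →ₐ[k] C))) (g (MvPolynomial.C c)) =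
        mkC J (MvPolynomial.rename Subtype.val (MvPolynomial.C c))
      rw [hg1, MvPolynomial.rename_C, mkC_C]
      exact sub_cst _ c
    · intro z
      change sub (fun j : F => (Sum.inl (j : J) : J ⊕ (S →ₐ[k] C))) (g (MvPolynomial.X z)) =
        mkC J (MvPolynomial.rename Subtype.val (MvPolynomial.X z))
      rw [hg2, MvPolynomial.rename_X]
      exact sub_x _ _ _
  have h3 := congrArg (fun φ : MvPolynomial {z // z ∈ s} C →+* Cr k C S J => φ q) h
  rw [hq]
  exact h3

private theorem sub_incl {J : Type} {F F' : Finset J} (h : F ⊆ F') (b : Cr k C S F) :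
    sub (fun j : F' => Sum.inl (j : J)) (sub (fun j : F => Sum.inl (⟨j, h j.2⟩ : F')) b) =
      sub (fun j : F => Sum.inl (j : J)) b := by
  rw [sub_sub]
  rfl

theorem sub_val_injective {J : Type} (F : Finset J) (p : S →ₐ[k] k) :
    Function.Injective (sub (k := k) (C := C) (S := S) (fun j : F => Sum.inl (j : J))) := by
  classical
  have key : ∀ b : Cr k C S F, sub (fun j : J => if h : j ∈ F then (Sum.inl (⟨j, h⟩ : F) : F ⊕ (S →ₐ[k] C))
      else Sum.inr ((Algebra.ofId k C).comp p)) (sub (fun j : F => Sum.inl (j : J)) b) = b := by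
    intro b
    rw [sub_sub]
    have h2 : (fun j : F => Sum.elim (fun j : J => if h : j ∈ F then (Sum.inl (⟨j, h⟩ : F) : F ⊕ (S →ₐ[k] C))
      else Sum.inr ((Algebra.ofId k C).comp p)) Sum.inr ((Sum.inl (j : J) : J ⊕ (S →ₐ[k] C)))) = Sum.inl := by
      funext j
      rw [Sum.elim_inl, dif_pos j.2]
    rw [h2]
    exact sub_id b
  intro a b hab
  rw [← key a, ← key b, hab]

private theorem exists_pt (k A : Type u) [Field k] [IsAlgClosed k] [CommRing A] [IsDomain A]
    [Algebra k A] [Algebra.FiniteType k A] : Nonempty (A →ₐ[k] k) := by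
  obtain ⟨M, hM⟩ := Ideal.exists_maximal A
  let _ : Field (A ⧸ M) := Ideal.Quotient.field M
  have hft : Algebra.FiniteType k (A ⧸ M) := inferInstance
  have hfin : Module.Finite k (A ⧸ M) := finite_of_finite_type_of_isJacobsonRing k (A ⧸ M)
  have hint : Algebra.IsIntegral k (A ⧸ M) := inferInstance
  have hbij : Function.Bijective (algebraMap k (A ⧸ M)) :=
    IsAlgClosed.algebraMap_bijective_of_isIntegral
  let e : k ≃ₐ[k] (A ⧸ M) := AlgEquiv.ofBijective (Algebra.ofId k (A ⧸ M)) hbij
  exact ⟨(e.symm : (A ⧸ M) →ₐ[k] k).comp (Ideal.Quotient.mkₐ k M)⟩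

/-- MODULE SPC-CrB -/
theorem isDomain_cr [IsAlgClosed k] [IsDomain C] [IsDomain S] [Algebra.FiniteType k S]
    (J : Type) : IsDomain (Cr k C S J) := by
  classical
  obtain ⟨p⟩ := exists_pt k S
  have hnt : Nontrivial (Cr k C S J) :=
    (ev (fun _ : J => (Algebra.ofId k C).comp p) : Cr k C S J →ₐ[k] C).toRingHom.domain_nontrivial
  have hnz : NoZeroDivisors (Cr k C S J) := ⟨by
    intro f g hfg
    obtain ⟨F, f', rfl⟩ := exists_finite f
    obtain ⟨G, g', rfl⟩ := exists_finite g
    rw [← sub_incl (Finset.subset_union_left : F ⊆ F ∪ G) f', ← sub_incl (Finset.subset_union_right : G ⊆ F ∪ G) g',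
      ← map_mul] at hfg
    have hd : IsDomain (Cr k C S ↥(F ∪ G)) := isDomain_cr_fintype _
    have h0 := sub_val_injective (C := C) (F ∪ G) p (hfg.trans (map_zero _).symm)
    rcases mul_eq_zero.1 h0 with h1 | h1
    · left
      rw [← sub_incl (Finset.subset_union_left : F ⊆ F ∪ G) f', h1, map_zero]
    · right
      rw [← sub_incl (Finset.subset_union_right : G ⊆ F ∪ G) g', h1, map_zero]⟩
  exact NoZeroDivisors.to_isDomain _

end Cr

end Pool.Agent.SPC
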