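import Pool.Agent.SPC.Dgf

/-!
# Coordinate rings of products of copies of a scheme

`Crd k S Om B T`: `B` is the coordinate ring of `Spec Om × (Spec S)^T` over `k`: a homomorphism
`c : Om → B`, coordinates `x t : S → B`, every element of `B` is a sum of products
`c w * ∏ t, x t (s t)`, and homomorphisms out of `B` are given by their values on `Om` and on the
coordinates. `IsNull`: the operator is a homotopy.
-/

noncomputable section

namespace Pool.Agent.SPC

universe u v w

open SDG

/-- `B` is the coordinate ring of `Spec Om × (Spec S)^T`. -/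
structure Crd (k S Om B : Type u) [Field k] [CommRing S] [Algebra k S] [CommRing Om]
    [Algebra k Om] [CommRing B] [Algebra k B] (T : Type) [Fintype T] where
  c : Om →ₐ[k] B
  x : T → (S →ₐ[k] B)
  x_inj : Function.Injective x
  span : ∀ b : B, b ∈ AddSubmonoid.closure {b : B | ∃ (w : Om) (s : T → S), b = c w * ∏ t, x t (s t)}
  lift : ∀ {C : Type u} [CommRing C] [Algebra k C], (Om →ₐ[k] C) → (T → (S →ₐ[k] C)) → (B →ₐ[k] C)
  lift_c : ∀ {C : Type u} [CommRing C] [Algebra k C] (g : Om →ₐ[k] C) (y : T → (S →ₐ[k] C)),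
    (lift g y).comp c = g
  lift_x : ∀ {C : Type u} [CommRing C] [Algebra k C] (g : Om →ₐ[k] C) (y : T → (S →ₐ[k] C)) (t : T),
    (lift g y).comp (x t) = y t

namespace Crd

variable {k S Om B : Type u} [Field k] [CommRing S] [Algebra k S] [CommRing Om] [Algebra k Om]
  [CommRing B] [Algebra k B] {T : Type} [Fintype T] (X : Crd k S Om B T)

@[simp] theorem lift_c_apply {C : Type u} [CommRing C] [Algebra k C] (g : Om →ₐ[k] C)
    (y : T → (S →ₐ[k] C)) (w : Om) : X.lift g y (X.c w) = g w :=
  congrArg (fun f : Om →ₐ[k] C => f w) (X.lift_c g y)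

@[simp] theorem lift_x_apply {C : Type u} [CommRing C] [Algebra k C] (g : Om →ₐ[k] C)
    (y : T → (S →ₐ[k] C)) (t : T) (s : S) : X.lift g y (X.x t s) = y t s :=
  congrArg (fun f : S →ₐ[k] C => f s) (X.lift_x g y t)

/-- Additive maps that agree on the products are equal. -/
theorem induct {p : B → Prop} (h0 : p 0) (hadd : ∀ a b, p a → p b → p (a + b))
    (hmul : ∀ (w : Om) (s : T → S), p (X.c w * ∏ t, X.x t (s t))) (b : B) : p b := by
  induction X.span b using AddSubmonoid.closure_induction with
  | mem b hb =>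
    obtain ⟨w, s, rfl⟩ := hb
    exact hmul w s
  | zero => exact h0
  | add a b _ _ ha hb => exact hadd a b ha hb

/-- Homomorphisms out of `B` are determined by their restrictions. -/
theorem hom_ext {C : Type v} [CommRing C] {f g : B →+* C} (hc : ∀ w, f (X.c w) = g (X.c w))
    (hx : ∀ t s, f (X.x t s) = g (X.x t s)) : f = g := by
  apply RingHom.ext
  refine X.induct (p := fun b => f b = g b) (by rw [map_zero, map_zero]) ?_ ?_
  · intro a b ha hb
    rw [map_add, map_add, ha, hb]
  · intro w s
    rw [map_mul, map_mul, map_prod, map_prod, hc]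
    simp only [hx]

/-- The endomorphism of `B` over `Om` with new coordinates `y`. -/
def sub (y : T → (S →ₐ[k] B)) : B →ₐ[k] B := X.lift X.c y

@[simp] theorem sub_c (y : T → (S →ₐ[k] B)) (w : Om) : X.sub y (X.c w) = X.c w :=
  X.lift_c_apply _ _ _

@[simp] theorem sub_x (y : T → (S →ₐ[k] B)) (t : T) (s : S) : X.sub y (X.x t s) = y t s :=
  X.lift_x_apply _ _ _ _

/-- The coordinate `t` replaced by the `k`-point `P`. -/
def setPt [DecidableEq T] (P : S →ₐ[k] k) (t : T) : B →ₐ[k] B :=
  X.sub (Function.update X.x t ((Algebra.ofId k B).comp P))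

/-- Permutation of the coordinates `f i`. -/
def permF [DecidableEq T] {n : ℕ} (f : Fin n ↪ T) (σ : Equiv.Perm (Fin n)) : B →ₐ[k] B :=
  X.sub fun t => X.x ((σ.viaFintypeEmbedding f) t)

end Crd

/-- The operator `Q` is homotopic to zero, over the constants `c : Om → B`. -/
def IsNull (A : DGF.{u}) {Om B : Type u} [CommRing Om] [IsDomain Om] [HasRat Om] [CommRing B]
    [IsDomain B] [HasRat B] (c : Om →+* B) (Q : A.obj B →ₗ[ℚ] A.obj B) : Prop :=
  ∃ H : A.obj B →ₗ[ℚ] A.obj B, (∀ a, Q a = d (H a) + H (d a)) ∧ (∀ a, H (par a) = -par (H a)) ∧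
    ∀ a b, H (a * A.map c b) = H a * A.map c b

end Pool.Agent.SPC
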