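import Pool.Agent.SPC.RelTo
import Pool.Agent.SPC.Crv
import Pool.Agent.GSM.Big
import Pool.Agent.SPC.Rat

/-!
# Functorial predicates on domains

`PF` is an abstract functorial family of objects over domains with a predicate `T` that is stable
under base change, continuous, satisfies descent for finite extensions of fields and is transported
from one point of a curve to every other point. For such a predicate, `T` holds at one point
of a finitely generated domain over an algebraically closed field of characteristic zero if and only if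
it holds at every other point (`PF.points`), and if `T` holds for all objects of a class over
`k` then it holds for all objects of the class over every extension of `k` (`PF.all`).
-/

noncomputable section

namespace Pool.Agent.SPC

open Pool.Agent.GSM

universe u w

/-- A functorial family of objects over domains with a predicate. -/
structure PF where
  /-- the objects over `R` -/
  Obj : ∀ (R : Type u) [CommRing R] [IsDomain R] [HasRat R], Type w
  /-- base change -/
  map : ∀ {R R' : Type u} [CommRing R] [IsDomain R] [HasRat R] [CommRing R'] [IsDomain R'] [HasRat R'],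
    (R →+* R') → Obj R → Obj R'
  map_map : ∀ {R R' R'' : Type u} [CommRing R] [IsDomain R] [HasRat R] [CommRing R'] [IsDomain R'] [HasRat R']
    [CommRing R''] [IsDomain R''] [HasRat R''] (g : R →+* R') (g' : R' →+* R'') (x : Obj R),
    map g' (map g x) = map (g'.comp g) x
  map_id : ∀ {R : Type u} [CommRing R] [IsDomain R] [HasRat R] (x : Obj R), map (RingHom.id R) x = x
  /-- the predicate -/
  T : ∀ {R : Type u} [CommRing R] [IsDomain R] [HasRat R], Obj R → Prop
  T_map : ∀ {R R' : Type u} [CommRing R] [IsDomain R] [HasRat R] [CommRing R'] [IsDomain R'] [HasRat R']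
    (g : R →+* R') (x : Obj R), T x → T (map g x)
  cont : ∀ {R Ω : Type u} [CommRing R] [IsDomain R] [HasRat R] [Field Ω] [CharZero Ω] (i : R →+* Ω)
    (_ : Function.Injective i) (x : Obj R), T (map i x) →
    ∃ F : Set Ω, F.Finite ∧ ∀ {B : Type u} [CommRing B] [IsDomain B] [HasRat B] (g : R →+* B) (j : B →+* Ω),
      Function.Injective j → j.comp g = i → (∀ y ∈ F, ∃ b, j b = y) → T (map g x)
  contObj : ∀ {Ω : Type u} [Field Ω] [CharZero Ω] (x : Obj Ω),
    ∃ F : Set Ω, F.Finite ∧ ∀ {B : Type u} [CommRing B] [IsDomain B] [HasRat B] (j : B →+* Ω),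
      Function.Injective j → (∀ y ∈ F, ∃ b, j b = y) → ∃ y : Obj B, map j y = x
  fin : ∀ {K K' : Type u} [Field K] [Field K'] [CharZero K'] [CharZero K] [Algebra K K']
    [FiniteDimensional K K'] (x : Obj K), T (map (algebraMap K K') x) → T x
  transport : ∀ {k : Type u} [Field k] [IsAlgClosed k] [CharZero k] {L : Type u} [Field L]
    [Algebra k L] (D : Crv k L) (x : intCl k D.h →ₐ[k] k) {Ω : Type u} [Field Ω] [CharZero Ω]
    [IsAlgClosed Ω] [Algebra k Ω] (η : intCl k D.h →ₐ[k] Ω) (y : Obj (intCl k D.h)),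
    T (map (x : intCl k D.h →+* k) y) → T (map (η : intCl k D.h →+* Ω) y)

/-- A nontrivial finitely generated algebra over an algebraically closed field has a point. -/
theorem exists_pt (K : Type u) [Field K] [IsAlgClosed K] (A : Type w) [CommRing A]
    [Nontrivial A] [Algebra K A] [Algebra.FiniteType K A] : Nonempty (A →ₐ[K] K) := by
  obtain ⟨m, hm⟩ := Ideal.exists_maximal A
  let _ : Field (A ⧸ m) := Ideal.Quotient.field m
  have h1 : Algebra.FiniteType K (A ⧸ m) :=
    Algebra.FiniteType.of_surjective (Ideal.Quotient.mkₐ K m) (Ideal.Quotient.mkₐ_surjective K m)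
  have h2 : Module.Finite K (A ⧸ m) := finite_of_finite_type_of_isJacobsonRing K (A ⧸ m)
  have hbij : Function.Bijective (algebraMap K (A ⧸ m)) :=
    IsAlgClosed.algebraMap_bijective_of_isIntegral
  let e : K ≃ₐ[K] (A ⧸ m) := AlgEquiv.ofBijective (Algebra.ofId K _) hbij
  exact ⟨(e.symm : (A ⧸ m) →ₐ[K] K).comp (Ideal.Quotient.mkₐ K m)⟩

/-- The coordinate ring of a curve with a function `h` is finitely generated. -/
theorem fg_intCl {k : Type u} [Field k] [CharZero k] {L : Type w} [Field L] [Algebra k L]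
    (h : L) (hh : Transcendental k h)
    (hfin : FiniteDimensional (IntermediateField.adjoin k {h}) L) :
    ∃ F : Set (intCl k h), F.Finite ∧ Algebra.adjoin k F = ⊤ := by
  obtain ⟨r⟩ := exists_regRep h hh hfin
  refine ⟨insert ⟨h, self_mem_intCl h⟩ (Set.range r.b), (Set.finite_range _).insert _, ?_⟩
  rw [eq_top_iff]
  intro s _
  obtain ⟨c, hc⟩ := r.one_b
  have hh : (⟨h, self_mem_intCl h⟩ : intCl k h) ∈
      Algebra.adjoin k (insert ⟨h, self_mem_intCl h⟩ (Set.range r.b)) :=
    Algebra.subset_adjoin (Set.mem_insert _ _)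
  have hev : ∀ p : Polynomial k, Polynomial.aeval (⟨h, self_mem_intCl h⟩ : intCl k h) p ∈
      Algebra.adjoin k (insert ⟨h, self_mem_intCl h⟩ (Set.range r.b)) := by
    intro p
    have h1 := Polynomial.aeval_mem_adjoin_singleton k (⟨h, self_mem_intCl h⟩ : intCl k h) (p := p)
    exact Algebra.adjoin_mono (Set.singleton_subset_iff.2 (Set.mem_insert _ _)) h1
  have h1 : s = ∑ j, Polynomial.aeval (⟨h, self_mem_intCl h⟩ : intCl k h) (c j) *
      ∑ i, Polynomial.aeval (⟨h, self_mem_intCl h⟩ : intCl k h) (r.Λ s i j) * r.b i := by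
    calc s = s * 1 := (mul_one s).symm
      _ = s * ∑ j, Polynomial.aeval (⟨h, self_mem_intCl h⟩ : intCl k h) (c j) * r.b j := by
          rw [← hc]
      _ = _ := by
          rw [Finset.mul_sum]
          refine Finset.sum_congr rfl fun j _ => ?_
          rw [← r.mul_b s j]
          ring
  rw [h1]
  refine Subalgebra.sum_mem _ fun j _ => Subalgebra.mul_mem _ (hev _) ?_
  refine Subalgebra.sum_mem _ fun i _ => Subalgebra.mul_mem _ (hev _) ?_
  exact Algebra.subset_adjoin (Set.mem_insert_of_mem _ ⟨i, rfl⟩)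

namespace PF

variable (Φ : PF.{u, w})

/-- Spreading out: if `T` holds after an injective map to a field then it holds at some point. -/
theorem spread {k : Type u} [Field k] [IsAlgClosed k] [CharZero k] {R : Type u} [CommRing R]
    [IsDomain R] [HasRat R] [Algebra k R] (hR : ∃ F : Set R, F.Finite ∧ Algebra.adjoin k F = ⊤)
    {Ω : Type u} [Field Ω] [CharZero Ω] [Algebra k Ω] (i : R →ₐ[k] Ω) (hi : Function.Injective i)
    (x : Φ.Obj R) (hx : Φ.T (Φ.map (i : R →+* Ω) x)) :
    ∃ s : R →ₐ[k] k, Φ.T (Φ.map (s : R →+* k) x) := by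
  obtain ⟨G, hG, hGR⟩ := hR
  have hc : CharZero Ω := charZero_of_injective_algebraMap (algebraMap k Ω).injective
  obtain ⟨F, hF, h⟩ := Φ.cont (i : R →+* Ω) hi x hx
  let B : Subalgebra k Ω := Algebra.adjoin k (F ∪ i '' G)
  have hB : Algebra.FiniteType k B := by
    rw [← Subalgebra.fg_iff_finiteType]
    exact Subalgebra.fg_def.2 ⟨F ∪ i '' G, hF.union (hG.image _), rfl⟩
  have hiB : ∀ r : R, i r ∈ B := by
    intro r
    have h1 : i.range ≤ B := by
      rw [← Algebra.map_top, ← hGR, AlgHom.map_adjoin]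
      exact Algebra.adjoin_mono Set.subset_union_right
    exact h1 ⟨r, rfl⟩
  let g : R →ₐ[k] B := i.codRestrict B hiB
  have h1 : Φ.T (Φ.map (g : R →+* B) x) := by
    refine h (g : R →+* B) (B.val : B →+* Ω) Subtype.val_injective ?_ ?_
    · rfl
    · intro y hy
      exact ⟨⟨y, Algebra.subset_adjoin (Or.inl hy)⟩, rfl⟩
  obtain ⟨s⟩ := exists_pt k B
  refine ⟨s.comp g, ?_⟩
  have h2 := Φ.T_map (s : B →+* k) _ h1
  rw [Φ.map_map] at h2
  exact h2

/-- Descent from an extension of an algebraically closed field. -/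
theorem of_isAlgClosed {K : Type u} [Field K] [CharZero K] [IsAlgClosed K] {Ω : Type u} [Field Ω] [CharZero Ω]
    [Algebra K Ω] (x : Φ.Obj K) (hx : Φ.T (Φ.map (algebraMap K Ω) x)) : Φ.T x := by
  obtain ⟨s, hs⟩ := Φ.spread (k := K) (R := K) ⟨∅, Set.finite_empty, by
    rw [Algebra.adjoin_empty, eq_top_iff]
    intro r _
    exact (⊥ : Subalgebra K K).algebraMap_mem r⟩ (Algebra.ofId K Ω) (algebraMap K Ω).injective x hx
  have h1 : (s : K →+* K) = RingHom.id K := by
    ext c
    exact s.commutes c
  rw [h1, Φ.map_id] at hs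
  exact hs

/-- Descent from an algebraic extension. -/
theorem of_algebraic {K : Type u} [Field K] [CharZero K] {Ω : Type u} [Field Ω] [CharZero Ω]
    [Algebra K Ω] [Algebra.IsAlgebraic K Ω] (x : Φ.Obj K)
    (hx : Φ.T (Φ.map (algebraMap K Ω) x)) : Φ.T x := by
  have hc : CharZero Ω := charZero_of_injective_algebraMap (algebraMap K Ω).injective
  obtain ⟨F, hF, h⟩ := Φ.cont (algebraMap K Ω) (algebraMap K Ω).injective x hx
  have hfin : FiniteDimensional K (IntermediateField.adjoin K F) := by
    have : Finite F := hF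
    exact IntermediateField.finiteDimensional_adjoin
      (fun y _ => Algebra.IsIntegral.isIntegral y)
  apply Φ.fin (K' := IntermediateField.adjoin K F) x
  refine h (algebraMap K (IntermediateField.adjoin K F))
    (algebraMap (IntermediateField.adjoin K F) Ω) (RingHom.injective _) ?_ ?_
  · exact (IsScalarTower.algebraMap_eq K (IntermediateField.adjoin K F) Ω).symm
  · intro y hy
    exact ⟨⟨y, IntermediateField.subset_adjoin K F hy⟩, rfl⟩

/-- `T` does not change under extensions of fields. -/
theorem ext_iff {K : Type u} [Field K] [CharZero K] {K' : Type u} [Field K'] [CharZero K'] (i : K →+* K')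
    (x : Φ.Obj K) : Φ.T (Φ.map i x) ↔ Φ.T x := by
  refine ⟨fun hx => ?_, Φ.T_map i x⟩
  let _ : Algebra K K' := i.toAlgebra
  let Ω := AlgebraicClosure K'
  let K₁ : IntermediateField K Ω := algebraicClosure K Ω
  have hK₁ : IsAlgClosed K₁ := IsAlgClosure.isAlgClosed K
  have hK₁c : CharZero K₁ := charZero_of_injective_algebraMap (algebraMap K K₁).injective
  have h1 : Φ.T (Φ.map (algebraMap K Ω) x) := by
    have h2 := Φ.T_map (algebraMap K' Ω) _ hx
    rw [Φ.map_map] at h2
    exact h2
  have h3 : algebraMap K Ω = (algebraMap K₁ Ω).comp (algebraMap K K₁) :=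
    IsScalarTower.algebraMap_eq K K₁ Ω
  rw [h3, ← Φ.map_map] at h1
  have h4 := Φ.of_isAlgClosed _ h1
  exact Φ.of_algebraic x h4

/-- Any two points of a curve. -/
theorem curve {k : Type u} [Field k] [IsAlgClosed k] [CharZero k]
    {L : Type u} [Field L] [Algebra k L] (C : Subalgebra k L) (hC : C.FG)
    (hgen : IntermediateField.adjoin k (C : Set L) = ⊤) (htr : Algebra.trdeg k L = 1)
    (q₀ : C →ₐ[k] k) {Ω : Type u} [Field Ω] [CharZero Ω] [IsAlgClosed Ω] [Algebra k Ω] (f : L →ₐ[k] Ω)
    (y : Φ.Obj C) :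
    Φ.T (Φ.map ((f : L →+* Ω).comp (C.val : C →+* L)) y) ↔
      Φ.T (Φ.map ((algebraMap k Ω).comp (q₀ : C →+* k)) y) := by
  obtain ⟨D, hle, hP⟩ := exists_crv C hC hgen htr q₀
  let inc : C →ₐ[k] intCl k D.h := Subalgebra.inclusion hle
  let η : intCl k D.h →ₐ[k] Ω := f.comp (intCl k D.h).val
  have e1 : ((f : L →+* Ω).comp (C.val : C →+* L)) =
      (η : intCl k D.h →+* Ω).comp (inc : C →+* intCl k D.h) := rfl
  have e2 : (q₀ : C →+* k) = (D.P : intCl k D.h →+* k).comp (inc : C →+* intCl k D.h) := by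
    ext c
    exact (hP c).symm
  rw [← Φ.map_map (q₀ : C →+* k) (algebraMap k Ω), Φ.ext_iff, e1, e2, ← Φ.map_map, ← Φ.map_map]
  constructor
  · intro h
    obtain ⟨s, hs⟩ := Φ.spread (k := k) (fg_intCl D.h D.tr D.fin) η
      (f.injective.comp Subtype.val_injective) _ h
    exact Φ.transport D s D.P _ hs
  · intro h
    exact Φ.transport D D.P η _ h

/-- The relation on points. -/
def Rel {R K : Type u} [CommRing R] [IsDomain R] [HasRat R] [Field K] [CharZero K] (p q : R →+* K) : Prop :=
  ∀ x : Φ.Obj R, Φ.T (Φ.map p x) ↔ Φ.T (Φ.map q x)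

theorem curveRel {R K : Type u} [CommRing R] [IsDomain R] [HasRat R] [Field K] [CharZero K] [IsAlgClosed K] :
    CurveRel (Φ.Rel (R := R) (K := K)) where
  refl _ _ := Iff.rfl
  symm _ _ h x := (h x).symm
  trans _ _ _ h h' x := (h x).trans (h' x)
  step := by
    intro k₁ _ _ _ L _ _ C hC hgen htr q _ f g x
    rw [← Φ.map_map g ((f : L →+* K).comp (C.val : C →+* L)),
      ← Φ.map_map g ((algebraMap k₁ K).comp (q : C →+* k₁))]
    exact Φ.curve C hC hgen htr q f _

/-- `T` at one point of a finitely generated domain is equivalent to `T` at any other point. -/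
theorem points {k : Type u} [Field k] [IsAlgClosed k] [CharZero k] {R : Type u} [CommRing R]
    [IsDomain R] [HasRat R] [Algebra k R] [Algebra.FiniteType k R] {K : Type u} [Field K] [CharZero K] [Algebra k K]
    (p q : R →ₐ[k] K) (x : Φ.Obj R) :
    Φ.T (Φ.map (p : R →+* K) x) ↔ Φ.T (Φ.map (q : R →+* K) x) := by
  obtain ⟨a, ha⟩ := exists_const_point p
  obtain ⟨b, hb⟩ := exists_const_point q
  obtain ⟨Ω, _, _, _, _, _, η, hη⟩ := exists_big (k := k) (K := K) (R := R)
  have hΩc : CharZero Ω := charZero_of_injective_algebraMap (algebraMap K Ω).injective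
  have hker : RingHom.ker η = ⊥ := (RingHom.injective_iff_ker_eq_bot η).1 hη
  have hkp : RingHom.ker ((IsScalarTower.toAlgHom k K Ω).comp p) ≤ RingHom.ker a := by
    intro r hr
    refine ha ?_
    rw [RingHom.mem_ker] at hr ⊢
    exact (algebraMap K Ω).injective (by rw [map_zero]; exact hr)
  have hkq : RingHom.ker ((IsScalarTower.toAlgHom k K Ω).comp q) ≤ RingHom.ker b := by
    intro r hr
    refine hb ?_
    rw [RingHom.mem_ker] at hr ⊢
    exact (algebraMap K Ω).injective (by rw [map_zero]; exact hr)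
  have hrel := Φ.curveRel (R := R) (K := Ω)
  have h1 := exists_rel_to ((IsScalarTower.toAlgHom k K Ω).comp p) a hkp hrel
  have h2 := exists_rel_to η a (hker ▸ bot_le) hrel
  have h3 := exists_rel_to η b (hker ▸ bot_le) hrel
  have h4 := exists_rel_to ((IsScalarTower.toAlgHom k K Ω).comp q) b hkq hrel
  have h5 := ((h1 x).trans (h2 x).symm).trans ((h3 x).trans (h4 x).symm)
  have e1 : (((IsScalarTower.toAlgHom k K Ω).comp p : R →ₐ[k] Ω) : R →+* Ω) =
      (algebraMap K Ω).comp (p : R →+* K) := rfl
  have e2 : (((IsScalarTower.toAlgHom k K Ω).comp q : R →ₐ[k] Ω) : R →+* Ω) =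
      (algebraMap K Ω).comp (q : R →+* K) := rfl
  rw [e1, e2, ← Φ.map_map, ← Φ.map_map, Φ.ext_iff, Φ.ext_iff] at h5
  exact h5

/-- If `T` holds for all objects over `k` in a class `P` (stable under base change, reflected by
injective maps) then it holds for all objects over `K` in the class. -/
theorem all {k : Type u} [Field k] [IsAlgClosed k] [CharZero k] {K : Type u} [Field K] [CharZero K]
    [Algebra k K] (P : ∀ {R : Type u} [CommRing R] [IsDomain R] [HasRat R], Φ.Obj R → Prop)
    (hmap : ∀ {R R' : Type u} [CommRing R] [IsDomain R] [HasRat R] [CommRing R'] [IsDomain R'] [HasRat R']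
      (g : R →+* R') (x : Φ.Obj R), P x → P (Φ.map g x))
    (hinj : ∀ {R R' : Type u} [CommRing R] [IsDomain R] [HasRat R] [CommRing R'] [IsDomain R'] [HasRat R']
      (g : R →+* R') (_ : Function.Injective g) (x : Φ.Obj R), P (Φ.map g x) → P x)
    (hk : ∀ x : Φ.Obj k, P x → Φ.T x) (x : Φ.Obj K) (hx : P x) : Φ.T x := by
  obtain ⟨F, hF, h⟩ := Φ.contObj x
  let R : Subalgebra k K := Algebra.adjoin k F
  have hR : Algebra.FiniteType k R := by
    rw [← Subalgebra.fg_iff_finiteType]
    exact Subalgebra.fg_def.2 ⟨F, hF, rfl⟩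
  obtain ⟨y, hy⟩ := h (R.val : R →+* K) Subtype.val_injective
    (fun a ha => ⟨⟨a, Algebra.subset_adjoin ha⟩, rfl⟩)
  obtain ⟨s⟩ := exists_pt k R
  have h1 : P y := hinj (R.val : R →+* K) Subtype.val_injective y (by rw [hy]; exact hx)
  have h2 : Φ.T (Φ.map (s : R →+* k) y) := hk _ (hmap _ _ h1)
  have h3 := Φ.T_map (algebraMap k K) _ h2
  rw [Φ.map_map] at h3
  have h4 := Φ.points (k := k) R.val ((Algebra.ofId k K).comp s) y
  rw [← hy]
  exact h4.2 h3

end PF

end Pool.Agent.SPC
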