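import Pool.Agent.SPC.Crd
import Pool.Agent.SPC.Crv
import Pool.Agent.SPC.Pts
import Pool.Agent.SPC.CrA

/-!
# The coordinate ring of finitely many points of a curve

`crdCr`: the ring `Cr k Om S T` is the coordinate ring of `Spec Om × (Spec S)^T` in the sense of
`Crd`. For the curve of `D : Crv k L` it is a domain of characteristic zero.
-/

noncomputable section

namespace Pool.Agent.SPC

open Pool.Agent.GSM

universe u v w

theorem adjoin_sub_algebraMap {k : Type u} [Field k] {L : Type v} [Field L] [Algebra k L] (h : L)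
    (c : k) : Algebra.adjoin k {h - algebraMap k L c} = Algebra.adjoin k {h} := by
  have h1 : h ∈ Algebra.adjoin k {h} := Algebra.subset_adjoin (Set.mem_singleton h)
  have h2 : h - algebraMap k L c ∈ Algebra.adjoin k {h - algebraMap k L c} :=
    Algebra.subset_adjoin (Set.mem_singleton _)
  apply le_antisymm
  · refine Algebra.adjoin_le fun y hy => ?_
    rw [Set.mem_singleton_iff.1 hy]
    exact sub_mem h1 (Subalgebra.algebraMap_mem _ c)
  · refine Algebra.adjoin_le fun y hy => ?_
    rw [Set.mem_singleton_iff.1 hy]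
    have h3 := add_mem h2 (Subalgebra.algebraMap_mem (Algebra.adjoin k {h - algebraMap k L c}) c)
    rwa [sub_add_cancel] at h3

private theorem intCl_congr {k : Type u} [Field k] {L : Type v} [Field L] [Algebra k L]
    (A B : Subalgebra k L) (h : A = B) (x : L) : IsIntegral A x ↔ IsIntegral B x := by
  subst h
  exact Iff.rfl

theorem intCl_sub {k : Type u} [Field k] {L : Type v} [Field L] [Algebra k L] (h : L)
    (c : k) : intCl k (h - algebraMap k L c) = intCl k h := by
  ext x
  exact intCl_congr _ _ (adjoin_sub_algebraMap h c) x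

/-- The function `h` takes every value. -/
theorem exists_value {k : Type u} [Field k] [IsAlgClosed k] {L : Type v} [Field L] [Algebra k L]
    (h : L) (htr : Transcendental k h) (c : k) :
    ∃ P : intCl k h →ₐ[k] k, P ⟨h, self_mem_intCl h⟩ = c := by
  have h1 : Transcendental k (h - algebraMap k L c) := by
    intro h2
    apply htr
    have h3 := h2.add (isAlgebraic_algebraMap (R := k) (A := L) c)
    rwa [sub_add_cancel] at h3
  obtain ⟨P, hP⟩ := exists_zero (h - algebraMap k L c) h1
  refine ⟨P.comp (Subalgebra.inclusion (le_of_eq (intCl_sub h c).symm)), ?_⟩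
  have h2 : Subalgebra.inclusion (le_of_eq (intCl_sub h c).symm) ⟨h, self_mem_intCl h⟩ =
      ⟨h - algebraMap k L c, self_mem_intCl _⟩ + algebraMap k (intCl k (h - algebraMap k L c)) c := by
    apply Subtype.ext
    show h = (h - algebraMap k L c) + algebraMap k L c
    ring
  rw [AlgHom.comp_apply, h2, map_add, hP, AlgHom.commutes, zero_add]
  rfl

/-- There are two different points. -/
theorem exists_two {k : Type u} [Field k] [IsAlgClosed k] {L : Type v} [Field L] [Algebra k L]
    (h : L) (htr : Transcendental k h) :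
    ∃ (P Q : intCl k h →ₐ[k] k) (s : intCl k h), P s ≠ Q s := by
  obtain ⟨P, hP⟩ := exists_value h htr 0
  obtain ⟨Q, hQ⟩ := exists_value h htr 1
  refine ⟨P, Q, ⟨h, self_mem_intCl h⟩, ?_⟩
  rw [hP, hQ]
  exact zero_ne_one

section

variable {k S Om : Type u} [Field k] [CommRing S] [Algebra k S] [CommRing Om] [Algebra k Om]
  {T : Type} [Fintype T]

theorem crd_span (b : Cr k Om S T) : b ∈ AddSubmonoid.closure
    {b : Cr k Om S T | ∃ (w : Om) (s : T → S), b = Cr.cst (k := k) w * ∏ t, Cr.x t (s t)} := by
  classical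
  obtain ⟨M, hM⟩ : ∃ M : AddSubmonoid (Cr k Om S T), M = AddSubmonoid.closure
    {b : Cr k Om S T | ∃ (w : Om) (s : T → S), b = Cr.cst (k := k) w * ∏ t, Cr.x t (s t)} := ⟨_, rfl⟩
  have hgen : ∀ (w : Om) (s : T → S), Cr.cst (k := k) w * ∏ t, Cr.x t (s t) ∈ M := by
    intro w s
    rw [hM]
    exact AddSubmonoid.subset_closure ⟨w, s, rfl⟩
  have key : ∀ (t₀ : T) (s₀ : S), ∀ b ∈ M, b * Cr.x t₀ s₀ ∈ M := by
    intro t₀ s₀ b hb
    rw [hM] at hb
    induction hb using AddSubmonoid.closure_induction with
    | mem b hb =>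
      obtain ⟨w, s, hb⟩ := hb
      have h2 : Cr.cst (k := k) w * ∏ t, Cr.x t (Function.update s t₀ (s t₀ * s₀) t) =
          (Cr.cst (k := k) w * ∏ t, Cr.x t (s t)) * (Cr.x t₀ s₀ : Cr k Om S T) := by
        rw [mul_assoc]
        congr 1
        rw [← Finset.mul_prod_erase _ _ (Finset.mem_univ t₀),
          ← Finset.mul_prod_erase _ (fun t => Cr.x t (s t)) (Finset.mem_univ t₀),
          Function.update_self, map_mul]
        have h3 : ∏ x ∈ Finset.univ.erase t₀, (Cr.x x (Function.update s t₀ (s t₀ * s₀) x) :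
            Cr k Om S T) = ∏ x ∈ Finset.univ.erase t₀, Cr.x x (s x) := by
          refine Finset.prod_congr rfl fun t ht => ?_
          rw [Function.update_of_ne (Finset.ne_of_mem_erase ht)]
        rw [h3]
        ring
      have h4 := hgen w (Function.update s t₀ (s t₀ * s₀))
      rw [h2, ← hb] at h4
      exact h4
    | zero =>
      rw [zero_mul]
      exact M.zero_mem
    | add a b _ _ ha hb =>
      rw [add_mul]
      exact M.add_mem ha hb
  rw [← hM]
  obtain ⟨p, rfl⟩ := Ideal.Quotient.mk_surjective b
  induction p using MvPolynomial.induction_on with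
  | C a =>
    have h1 := hgen a (fun _ => 1)
    simp only [map_one, Finset.prod_const_one, mul_one] at h1
    exact h1
  | add p q hp hq =>
    rw [map_add]
    exact M.add_mem hp hq
  | mul_X p i hp =>
    obtain ⟨t₀, s₀⟩ := i
    rw [map_mul]
    exact key t₀ s₀ _ hp

/-- The coordinate ring by generators and relations. -/
def crdCr [Nontrivial Om] (h2 : ∃ (P Q : S →ₐ[k] k) (s : S), P s ≠ Q s) :
    Crd k S Om (Cr k Om S T) T where
  c := Cr.cst
  x := Cr.x
  x_inj := by
    classical
    obtain ⟨P, Q, s, hs⟩ := h2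
    intro t t' h
    by_contra hne
    have h1 := congrArg (fun f : S →ₐ[k] Cr k Om S T => Cr.ev
      (fun u => if u = t then (Algebra.ofId k Om).comp P else (Algebra.ofId k Om).comp Q) (f s)) h
    simp only [Cr.ev_x] at h1
    rw [if_pos trivial, if_neg (fun h3 => hne h3.symm)] at h1
    exact hs ((algebraMap k Om).injective h1)
  span := crd_span
  lift g y := Cr.lift g y
  lift_c g y := AlgHom.ext fun w => Cr.lift_cst g y w
  lift_x g y t := AlgHom.ext fun s => Cr.lift_x g y t s

end

section

variable {k : Type u} [Field k] [CharZero k] {L : Type u} [Field L] [Algebra k L]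
  (D : Crv k L)

theorem finiteType_crv : Algebra.FiniteType k (intCl k D.h) := by
  obtain ⟨F, hF, hFt⟩ := fg_intCl D.h D.tr D.fin
  exact ⟨⟨hF.toFinset, by rw [hF.coe_toFinset]; exact hFt⟩⟩

/-- The coordinate ring of `T` points of the curve, over `Om`. -/
def crdCrv [IsAlgClosed k] (Om : Type u) [CommRing Om] [Nontrivial Om] [Algebra k Om] (T : Type) [Fintype T] :
    Crd k (intCl k D.h) Om (Cr k Om (intCl k D.h) T) T :=
  crdCr (exists_two D.h D.tr)

theorem isDomain_crCrv [IsAlgClosed k] (Om : Type u) [CommRing Om] [IsDomain Om] [Algebra k Om] (T : Type)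
    [Finite T] : IsDomain (Cr k Om (intCl k D.h) T) := by
  have := finiteType_crv D
  exact Cr.isDomain_cr_fintype T

theorem hasRat_crCrv (Om : Type u) [CommRing Om] [Algebra k Om] (T : Type) :
    HasRat (Cr k Om (intCl k D.h) T) := HasRat.of_algebra k _

end

end Pool.Agent.SPC
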