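import Mathlib

/-!
# Supercommutative differential rings

`SDG A`: a `ℚ`-algebra with a parity involution `par` and a differential `d` (odd derivation of
square zero), even elements are central and odd elements anticommute.
-/

noncomputable section

namespace Pool.Agent.SPC

universe u v w

/-- A supercommutative differential ring over `ℚ`: `par` is the parity automorphism
(`par a = a` for even, `par a = -a` for odd elements). -/
class SDG (A : Type u) [Ring A] [Algebra ℚ A] where
  par : A →ₐ[ℚ] A
  d : A →ₗ[ℚ] A
  par_par : ∀ a, par (par a) = a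
  d_par : ∀ a, d (par a) = -par (d a)
  d_d : ∀ a, d (d a) = 0
  d_mul : ∀ a b, d (a * b) = d a * b + par a * d b
  comm : ∀ a b, par a = a → a * b = b * a
  anti : ∀ a b, par a = -a → par b = -b → a * b = -(b * a)

/-- The sign of a parity. -/
def sgn (s : Bool) : ℚ := if s then -1 else 1

@[simp] theorem sgn_true : sgn true = -1 := rfl

@[simp] theorem sgn_false : sgn false = 1 := rfl

theorem sgn_xor (s t : Bool) : sgn (s ^^ t) = sgn s * sgn t := by
  cases s <;> cases t <;> simp [sgn]

theorem sgn_not (s : Bool) : sgn (!s) = -sgn s := by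
  cases s <;> simp [sgn]

theorem sgn_mul_self (s : Bool) : sgn s * sgn s = 1 := by
  cases s <;> simp [sgn]

theorem sgn_smul_smul {A : Type u} [Ring A] [Algebra ℚ A] (s : Bool) (a : A) :
    sgn s • sgn s • a = a := by
  rw [smul_smul, sgn_mul_self, one_smul]

namespace SDG

variable {A : Type u} [Ring A] [Algebra ℚ A] [SDG A]

theorem d_one : d (1 : A) = 0 := by
  have h := d_mul (1 : A) 1
  simp only [mul_one, one_mul, map_one] at h
  exact left_eq_add.1 h

/-- The `s`-th power of the parity automorphism. -/
def parP (A : Type u) [Ring A] [Algebra ℚ A] [SDG A] (s : Bool) : A →ₐ[ℚ] A :=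
  if s then par else AlgHom.id ℚ A

@[simp] theorem parP_true (a : A) : parP A true a = par a := rfl

@[simp] theorem parP_false (a : A) : parP A false a = a := rfl

theorem parP_parP (s t : Bool) (a : A) : parP A s (parP A t a) = parP A (s ^^ t) a := by
  cases s <;> cases t <;> simp [par_par]

theorem parP_self (s : Bool) (a : A) : parP A s (parP A s a) = a := by
  cases s <;> simp [par_par]

theorem par_parP (s : Bool) (a : A) : par (parP A s a) = parP A (!s) a := by
  cases s <;> simp [par_par]

theorem parP_par (s : Bool) (a : A) : parP A s (par a) = parP A (!s) a := by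
  cases s <;> simp [par_par]

theorem d_parP (s : Bool) (a : A) : d (parP A s a) = sgn s • parP A s (d a) := by
  cases s <;> simp [d_par]

/-- `a` is homogeneous of parity `s`. -/
def IsPar (s : Bool) (a : A) : Prop := par a = sgn s • a

theorem isPar_iff {s : Bool} {a : A} : IsPar s a ↔ par a = sgn s • a := Iff.rfl

theorem IsPar.parP {s : Bool} {a : A} (h : IsPar s a) (t : Bool) :
    SDG.parP A t a = (if t then sgn s else 1) • a := by
  cases t
  · simp
  · exact h

theorem IsPar.mul {s t : Bool} {a b : A} (ha : IsPar s a) (hb : IsPar t b) :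
    IsPar (s ^^ t) (a * b) := by
  unfold IsPar at *
  rw [map_mul, ha, hb, smul_mul_smul_comm, sgn_xor]

theorem IsPar.one : IsPar false (1 : A) := by
  unfold IsPar
  rw [map_one, sgn_false, one_smul]

theorem IsPar.add {s : Bool} {a b : A} (ha : IsPar s a) (hb : IsPar s b) : IsPar s (a + b) := by
  unfold IsPar at *
  rw [map_add, ha, hb, smul_add]

theorem IsPar.zero (s : Bool) : IsPar s (0 : A) := by
  unfold IsPar
  rw [map_zero, smul_zero]

theorem IsPar.smul {s : Bool} {a : A} (ha : IsPar s a) (c : ℚ) : IsPar s (c • a) := by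
  unfold IsPar at *
  rw [map_smul, ha, smul_comm]

theorem IsPar.sum {s : Bool} {ι : Type*} (t : Finset ι) {f : ι → A} (h : ∀ i ∈ t, IsPar s (f i)) :
    IsPar s (∑ i ∈ t, f i) := by
  classical
  induction t using Finset.induction_on with
  | empty => rw [Finset.sum_empty]; exact IsPar.zero s
  | insert i t hi ih =>
    rw [Finset.sum_insert hi]
    exact (h i (Finset.mem_insert_self i t)).add
      (ih fun j hj => h j (Finset.mem_insert_of_mem hj))

theorem IsPar.apply_parP {s : Bool} {a : A} (ha : IsPar s a) (t : Bool) :
    IsPar s (SDG.parP A t a) := by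
  cases t
  · exact ha
  · have h1 : SDG.parP A true a = sgn s • a := ha
    rw [h1]
    exact ha.smul _

theorem IsPar.d {s : Bool} {a : A} (ha : IsPar s a) : IsPar (!s) (SDG.d a) := by
  unfold IsPar at *
  have h := d_par a
  rw [ha, map_smul] at h
  rw [sgn_not, neg_smul, h, neg_neg]

/-- Homogeneous elements commute up to the parity automorphism with everything. -/
theorem IsPar.mul_comm {s : Bool} {a : A} (h : IsPar s a) (b : A) :
    a * b = SDG.parP A s b * a := by
  cases s
  · have h1 : par a = a := by
      have h2 : par a = sgn false • a := h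
      rw [h2, sgn_false, one_smul]
    exact comm a b h1
  · have h1 : par a = -a := by
      have h2 : par a = sgn true • a := h
      rw [h2, sgn_true, neg_one_smul]
    obtain ⟨x, hx⟩ : ∃ x : A, x = (2⁻¹ : ℚ) • (b + par b) := ⟨_, rfl⟩
    obtain ⟨y, hy⟩ : ∃ y : A, y = (2⁻¹ : ℚ) • (b - par b) := ⟨_, rfl⟩
    have hb : b = x + y := by
      rw [hx, hy, ← smul_add]
      have : b + par b + (b - par b) = (2 : ℚ) • b := by
        rw [two_smul]; abel
      rw [this, smul_smul, inv_mul_cancel₀ (by norm_num : (2 : ℚ) ≠ 0), one_smul]
    have hpx : par x = x := by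
      rw [hx, map_smul, map_add, par_par, add_comm (par b)]
    have hpy : par y = -y := by
      rw [hy, map_smul, map_sub, par_par, ← smul_neg, neg_sub]
    have h3 : SDG.parP A true b = x - y := by
      change par b = _
      rw [hb, map_add, hpx, hpy, sub_eq_add_neg]
    rw [h3, hb, mul_add, sub_mul, ← comm x a hpx, anti a y h1 hpy, sub_eq_add_neg]

theorem IsPar.mul_comm' {s : Bool} {a : A} (h : IsPar s a) (b : A) :
    b * a = a * SDG.parP A s b := by
  rw [h.mul_comm, parP_self]

end SDG

open SDG

/-- Algebra homomorphisms compatible with parity and differential. -/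
structure SHom (A : Type u) (A' : Type v) [Ring A] [Algebra ℚ A] [SDG A] [Ring A'] [Algebra ℚ A']
    [SDG A'] extends A →ₐ[ℚ] A' where
  map_par' : ∀ a, toFun (par a) = par (toFun a)
  map_d' : ∀ a, toFun (d a) = d (toFun a)

namespace SHom

variable {A : Type u} {A' : Type v} {A'' : Type w} [Ring A] [Algebra ℚ A] [SDG A] [Ring A']
  [Algebra ℚ A'] [SDG A'] [Ring A''] [Algebra ℚ A''] [SDG A'']

instance : FunLike (SHom A A') A A' where
  coe f := f.toFun
  coe_injective f g h := by
    cases f; cases g
    congr 1
    exact DFunLike.coe_injective h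

instance : AlgHomClass (SHom A A') ℚ A A' where
  map_mul f := f.toAlgHom.map_mul
  map_one f := f.toAlgHom.map_one
  map_add f := f.toAlgHom.map_add
  map_zero f := f.toAlgHom.map_zero
  commutes f := f.toAlgHom.commutes

theorem map_par (f : SHom A A') (a : A) : f (par a) = par (f a) := f.map_par' a

theorem map_d (f : SHom A A') (a : A) : f (d a) = d (f a) := f.map_d' a

theorem map_parP (f : SHom A A') (s : Bool) (a : A) : f (parP A s a) = parP A' s (f a) := by
  cases s
  · rfl
  · exact f.map_par a

theorem isPar (f : SHom A A') {s : Bool} {a : A} (h : IsPar s a) : IsPar s (f a) := by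
  unfold IsPar at *
  rw [← f.map_par, h, map_smul]

@[ext] theorem ext {f g : SHom A A'} (h : ∀ a, f a = g a) : f = g := DFunLike.ext f g h

/-- identity -/
def id (A : Type u) [Ring A] [Algebra ℚ A] [SDG A] : SHom A A where
  toAlgHom := AlgHom.id ℚ A
  map_par' _ := rfl
  map_d' _ := rfl

/-- composition -/
def comp (g : SHom A' A'') (f : SHom A A') : SHom A A'' where
  toAlgHom := g.toAlgHom.comp f.toAlgHom
  map_par' a := by
    change g (f (par a)) = par (g (f a))
    rw [f.map_par, g.map_par]
  map_d' a := by
    change g (f (d a)) = d (g (f a))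
    rw [f.map_d, g.map_d]

@[simp] theorem id_apply (a : A) : SHom.id A a = a := rfl

@[simp] theorem comp_apply (g : SHom A' A'') (f : SHom A A') (a : A) : g.comp f a = g (f a) := rfl

end SHom

end Pool.Agent.SPC
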