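import Pool.Agent.SPC.ExtC
import Pool.Agent.SPC.Sdg

/-!
# Cube algebras; families

A cube algebra is a commutative `ℚ`-algebra on which one can substitute the parameters
`t_0, t_1, ...` by each other or by the constants `0`, `1`, and change positions.  `IsFam x`: `x` is
an equivariant family of normalised cubes.
-/

set_option autoImplicit false

noncomputable section

namespace Pool.Agent.SPC

universe u v w

/-- A commutative algebra with substitution of parameters and change of positions. -/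
class CubeAlg (X : Type u) [CommRing X] [Algebra ℚ X] where
  sub : (ℕ → ℕ ⊕ Bool) → (X →ₐ[ℚ] X)
  pos : (ℕ → Option ℕ) → (X →ₐ[ℚ] X)
  sub_id : ∀ x, sub Sum.inl x = x
  sub_sub : ∀ v w x, sub v (sub w x) = sub (fun n => Sum.elim v Sum.inr (w n)) x
  pos_id : ∀ x, pos some x = x
  pos_pos : ∀ p q x, pos p (pos q x) = pos (fun s => (p s).bind q) x
  sub_pos : ∀ v p x, sub v (pos p x) = pos p (sub v x)

/-- Put the `n`-th parameter equal to `0` (`false`) or `1` (`true`). -/
def setT (n : ℕ) (b : Bool) : ℕ → ℕ ⊕ Bool := fun m => if m = n then Sum.inr b else Sum.inl m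

/-- Replace the coordinate in position `s` by `1`. -/
def killP (s : ℕ) : ℕ → Option ℕ := fun t => if t = s then none else some t

/-- The basis vector of the `n`-th parameter. -/
def cu (n : ℕ) : ℕ ⊕ₗ ℕ := toLex (Sum.inl n)

/-- The basis vector of the position `s`. -/
def po (s : ℕ) : ℕ ⊕ₗ ℕ := toLex (Sum.inr s)

/-- Permutation of the basis vectors. -/
def reIdx (π ρ : Equiv.Perm ℕ) : ℕ ⊕ₗ ℕ ≃ ℕ ⊕ₗ ℕ :=
  (ofLex : ℕ ⊕ₗ ℕ ≃ ℕ ⊕ ℕ).trans ((Equiv.sumCongr π ρ).trans (toLex : ℕ ⊕ ℕ ≃ ℕ ⊕ₗ ℕ))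

variable {X : Type u} [CommRing X] [Algebra ℚ X] [CubeAlg X]

/-- Permutation of parameters and positions of the coefficients. -/
def reCoef (X : Type u) [CommRing X] [Algebra ℚ X] [CubeAlg X] (π ρ : Equiv.Perm ℕ) :
    X →ₐ[ℚ] X :=
  (CubeAlg.sub fun n => Sum.inl (π n)).comp (CubeAlg.pos fun s => some (ρ.symm s))

/-- Equivariant families of normalised cubes: `x U` is a cube in the parameters `n`, `cu n ∈ U`, and
a cycle in the positions `s`, `po s ∈ U`; it vanishes if one of these parameters is put equal to `1`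
or one of these coordinates is replaced by `1`; a permutation of the parameters and positions acts
by its sign. -/
structure IsFam (x : Ext (ℕ ⊕ₗ ℕ) X) : Prop where
  bdd : ∃ N, ∀ U, N < U.card → x U = 0
  cube : ∀ U n, cu n ∉ U → CubeAlg.sub (setT n false) (x U) = x U
  face : ∀ U n, cu n ∈ U → CubeAlg.sub (setT n true) (x U) = 0
  posn : ∀ U s, po s ∉ U → CubeAlg.pos (killP s) (x U) = x U
  kill : ∀ U s, po s ∈ U → CubeAlg.pos (killP s) (x U) = 0
  sym : ∀ π ρ : Equiv.Perm ℕ, Ext.permF (reIdx π ρ) (Ext.mapL (reCoef X π ρ).toLinearMap x) = x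

/-- A number larger than all parameters of `U`. -/
def fresh (U : Finset (ℕ ⊕ₗ ℕ)) : ℕ := (U.sup fun u => Sum.elim id (fun _ => 0) (ofLex u)) + 1

theorem fresh_notMem (U : Finset (ℕ ⊕ₗ ℕ)) : cu (fresh U) ∉ U := by
  intro h
  have h1 := Finset.le_sup (f := fun u : ℕ ⊕ₗ ℕ => Sum.elim id (fun _ => 0) (ofLex u)) h
  have h2 : Sum.elim id (fun _ : ℕ => 0) (ofLex (cu (fresh U))) = fresh U := rfl
  rw [h2, fresh] at h1
  omega

/-- The differential: put a new parameter equal to `0`. -/
def dF (x : Ext (ℕ ⊕ₗ ℕ) X) : Ext (ℕ ⊕ₗ ℕ) X :=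
  fun U => CubeAlg.sub (setT (fresh U) false) (Ext.contr (cu (fresh U)) x U)

end Pool.Agent.SPC
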