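import Pool.Agent.SPC.Dgf

/-!
# Duals, cones of functionals, the cone of the evaluation

`M.dual`: the dual twisted complex. `E.cone r`: the twisted complex with basis `w₀` (`none`) and
`σ e` (`some e`), where `r` is a map `E → A`: `d w₀ = 0`, `d (σ e) = r e w₀ - σ (d e)`. `M.evc`: the
cone of the evaluation `M ⊗ dual M → A`. If `M` is a complex over `ℚ` which is not acyclic, then
`w₀` is a boundary in `M.evc`.
-/

noncomputable section

namespace Pool.Agent.SPC

universe u v w

open SDG

namespace TC

variable {A : Type u} {A' : Type v} [Ring A] [Algebra ℚ A] [SDG A] [Ring A'] [Algebra ℚ A']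
  [SDG A']

/-- The signs of the differential of the dual. -/
def dsg (s t : Bool) : ℚ := if t && !s then 1 else -1

private theorem dual_sign (oi oj ol : Bool) {a b : A} (ha : IsPar (!(oj ^^ ol)) a)
    (hb : IsPar (!(ol ^^ oi)) b) :
    par (dsg oi ol • b) * (dsg ol oj • a) = dsg oi oj • (par a * b) := by
  have ha' : par a = sgn (!(oj ^^ ol)) • a := ha
  have hb' : par b = sgn (!(ol ^^ oi)) • b := hb
  rw [map_smul, hb', smul_mul_assoc, smul_mul_assoc, mul_smul_comm, hb.mul_comm a, ha.parP, ha',
    smul_mul_assoc, smul_mul_assoc, smul_smul, smul_smul, smul_smul, smul_smul]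
  congr 1
  cases oi <;> cases oj <;> cases ol <;> simp [dsg, sgn]

/-- The dual twisted complex. -/
def dual (M : TC A) : TC A where
  I := M.I
  odd := M.odd
  rk i := Finset.univ.sup M.rk - M.rk i
  D i j := dsg (M.odd i) (M.odd j) • M.D j i
  par_D i j := by
    have h := (M.par_D j i).smul (dsg (M.odd i) (M.odd j))
    rw [Bool.xor_comm (M.odd j)] at h
    exact h
  tri i j h := by
    have h1 : M.rk j ≤ M.rk i := by
      have h2 : M.rk i ≤ Finset.univ.sup M.rk := Finset.le_sup (Finset.mem_univ i)
      have h3 : M.rk j ≤ Finset.univ.sup M.rk := Finset.le_sup (Finset.mem_univ j)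
      omega
    rw [M.tri j i h1, smul_zero]
  flat i j := by
    have h1 : ∀ l, par (dsg (M.odd i) (M.odd l) • M.D l i) *
        (dsg (M.odd l) (M.odd j) • M.D j l) =
        dsg (M.odd i) (M.odd j) • (par (M.D j l) * M.D l i) := fun l =>
      dual_sign _ _ _ (M.par_D j l) (M.par_D l i)
    simp only [h1]
    rw [map_smul, ← Finset.smul_sum, ← smul_add, M.flat, smul_zero]

theorem dual_D (M : TC A) (i j : M.I) : M.dual.D i j = dsg (M.odd i) (M.odd j) • M.D j i := rfl

theorem dual_odd (M : TC A) (i : M.I) : M.dual.odd i = M.odd i := rfl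

/-- The evaluation `M ⊗ dual M → A`. -/
def evr (M : TC A) : Rep (M.tmul M.dual) (SHom.id A) where
  w x := if x.1 = x.2 then 1 else 0
  par_w x := by
    change IsPar (M.odd x.1 ^^ M.odd x.2) (if x.1 = x.2 then (1 : A) else 0)
    split_ifs with h
    · rw [h, Bool.xor_self]
      exact IsPar.one
    · exact IsPar.zero _
  d_w x := by
    obtain ⟨i, j'⟩ := x
    obtain ⟨j, hj⟩ : ∃ j : M.I, j = j' := ⟨j', rfl⟩
    subst hj
    have h0 : d (if i = j then (1 : A) else 0) = 0 := by
      split_ifs
      · exact d_one
      · exact map_zero _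
    refine h0.trans ?_
    change (0 : A) = ∑ l : M.I × M.I, TC.tD M M.dual (i, j) l * (if l.1 = l.2 then 1 else 0)
    rw [Fintype.sum_prod_type]
    change (0 : A) = ∑ i' : M.I, ∑ j' : M.I, TC.tD M M.dual (i, j) (i', j') *
        (if i' = j' then (1 : A) else 0)
    have h1 : ∀ i' : M.I, ∑ j' : M.I, TC.tD M M.dual (i, j) (i', j') *
        (if i' = j' then (1 : A) else 0) = (if j = i' then M.D i i' else 0) +
          (if i = i' then -M.D i j else 0) := by
      intro i'
      rw [Finset.sum_eq_single i']
      · rw [if_pos rfl, mul_one]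
        unfold tD
        congr 1
        by_cases h : i = i'
        · subst h
          rw [if_pos rfl, if_pos rfl, dual_D, map_smul, (M.par_D i j).parP, smul_smul, smul_smul,
            ← neg_one_smul ℚ (M.D i j)]
          congr 1
          change sgn (M.odd i) * dsg (M.odd j) (M.odd i) * (if M.odd i = true then
            sgn !(M.odd i ^^ M.odd j) else 1) = -1
          cases M.odd i <;> cases M.odd j <;> simp [dsg, sgn]
        · rw [if_neg h, if_neg h]
      · intro j' _ hj
        rw [if_neg (Ne.symm hj), mul_zero]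
      · intro h
        exact absurd (Finset.mem_univ _) h
    rw [Finset.sum_congr rfl fun i' _ => h1 i', Finset.sum_add_distrib, Finset.sum_ite_eq,
      Finset.sum_ite_eq, if_pos (Finset.mem_univ _), if_pos (Finset.mem_univ _), add_neg_cancel]

theorem evr_w (M : TC A) (x : M.I × M.I) : M.evr.w x = if x.1 = x.2 then 1 else 0 := rfl

/-- The cone of a functional, with basis `w₀` (`none`) and `σ e` (`some e`). -/
def cone (E : TC A) (r : Rep E (SHom.id A)) : TC A where
  I := Option E.I
  odd x := x.elim false fun e => !E.odd e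
  rk x := x.elim 0 fun e => E.rk e + 1
  D x y := x.elim 0 fun e => y.elim (r.w e) fun e' => -par (E.D e e')
  par_D x y := by
    cases x with
    | none => exact IsPar.zero _
    | some e =>
      cases y with
      | none =>
        have h := r.par_w e
        change IsPar (!((!E.odd e) ^^ false)) (r.w e)
        rw [Bool.xor_false, Bool.not_not]
        exact h
      | some e' =>
        change IsPar (!((!E.odd e) ^^ (!E.odd e'))) (-par (E.D e e'))
        have h := ((E.par_D e e').apply_parP true).smul (-1)
        rw [neg_one_smul] at h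
        have h1 : (!((!E.odd e) ^^ (!E.odd e'))) = !(E.odd e ^^ E.odd e') := by
          cases E.odd e <;> cases E.odd e' <;> rfl
        rw [h1]
        exact h
  tri x y h := by
    cases x with
    | none => rfl
    | some e =>
      cases y with
      | none => exact absurd h (Nat.not_succ_le_zero _)
      | some e' =>
        change -par (E.D e e') = 0
        rw [E.tri e e' (Nat.succ_le_succ_iff.1 h), map_zero, neg_zero]
  flat x y := by
    rw [Fintype.sum_option]
    cases x with
    | none =>
      change d (0 : A) + (par 0 * (none : Option E.I).elim 0 _ + ∑ l, par 0 * _) = 0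
      rw [map_zero, map_zero, zero_mul, zero_add, zero_add]
      exact Finset.sum_eq_zero fun _ _ => zero_mul _
    | some e =>
      cases y with
      | none =>
        change d (r.w e) + (par (r.w e) * 0 + ∑ l, par (-par (E.D e l)) * r.w l) = 0
        have h : d (r.w e) = ∑ l, E.D e l * r.w l := r.d_w e
        rw [h, mul_zero, zero_add, ← Finset.sum_add_distrib]
        refine Finset.sum_eq_zero fun l _ => ?_
        rw [map_neg, par_par, neg_mul, add_neg_cancel]
      | some e' =>
        change d (-par (E.D e e')) + (par (r.w e) * 0 + ∑ l, par (-par (E.D e l)) *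
          -par (E.D l e')) = 0
        rw [mul_zero, zero_add]
        have h := congrArg par (E.flat e e')
        rw [map_add, map_sum, map_zero] at h
        rw [← h, map_neg, d_par, neg_neg]
        congr 1
        refine Finset.sum_congr rfl fun l _ => ?_
        rw [map_neg, par_par, map_mul, par_par, neg_mul_neg]

/-- The cone of the evaluation `M ⊗ dual M → A`. -/
def evc (M : TC A) : TC A := (M.tmul M.dual).cone M.evr

theorem evc_D_none (M : TC A) (y : M.evc.I) : M.evc.D none y = 0 := rfl

theorem evc_D_some_none (M : TC A) (x : M.I × M.I) :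
    M.evc.D (some x) none = if x.1 = x.2 then 1 else 0 := rfl

theorem evc_D_some_some (M : TC A) (x y : M.I × M.I) :
    M.evc.D (some x) (some y) = -par ((M.tmul M.dual).D x y) := rfl

theorem evc_odd_none (M : TC A) : M.evc.odd none = false := rfl

theorem evc_odd_some (M : TC A) (x : M.I × M.I) :
    M.evc.odd (some x) = !(M.tmul M.dual).odd x := rfl

/-- The basis element `w₀`. -/
def evo (M : TC A) : M.evc.I → A := fun x => x.elim 1 fun _ => 0

theorem even_evo (M : TC A) : M.evc.Even M.evo := by
  intro x
  match x with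
  | none => exact IsPar.one
  | some x => exact IsPar.zero _

theorem dif_evo (M : TC A) : M.evc.dif M.evo = 0 := by
  funext y
  rw [dif_apply]
  have h0 : d (M.evo y) = 0 := by
    match y with
    | none => exact d_one
    | some x => exact map_zero _
  have h1 : ∀ x : M.evc.I, par (M.evo x) * M.evc.D x y = 0 := by
    intro x
    match x with
    | none => exact mul_zero _
    | some x =>
      change par (0 : A) * _ = 0
      rw [map_zero, zero_mul]
  rw [h0, zero_add, Finset.sum_eq_zero fun x _ => h1 x]
  rfl

/-- Base change. -/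
theorem map_evc (φ : SHom A A') (M : TC A) :
    (PT.map φ ⟨M.evc, M.evo⟩ : PT A') = ⟨(M.map φ).evc, (M.map φ).evo⟩ := by
  refine PT.ext' (A := A') (I := Option (M.I × M.I)) (odd := M.evc.odd) (rk := M.evc.rk)
    (D := fun x y => φ (M.evc.D x y)) (D' := (M.map φ).evc.D) (p := (M.evc.map φ).par_D)
    (p' := (M.map φ).evc.par_D) (t := (M.evc.map φ).tri) (t' := (M.map φ).evc.tri)
    (q := (M.evc.map φ).flat) (q' := (M.map φ).evc.flat) (f := mapE φ M.evc M.evo)
    (f' := (M.map φ).evo) ?_ ?_
  · funext x y
    match x, y with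
    | none, _ => exact map_zero φ
    | some x, none =>
      change φ (if x.1 = x.2 then 1 else 0) = if x.1 = x.2 then 1 else 0
      rw [apply_ite φ, map_one, map_zero]
    | some x, some y =>
      change φ (-par (tD M M.dual x y)) = -par (tD (M.map φ) (M.map φ).dual x y)
      rw [map_neg, φ.map_par]
      congr 2
      unfold tD
      rw [map_add]
      congr 1
      · rw [apply_ite φ, map_zero]
        rfl
      · rw [apply_ite φ, map_zero, map_smul, φ.map_parP, dual_D, map_smul]
        rfl
  · funext x
    match x with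
    | none => exact map_one φ
    | some x => exact map_zero φ

/-- A complex over `ℚ` which is not acyclic: the evaluation is split. -/
theorem exact_evo {M : TC ℚ} {m : M.I → ℚ} (hm : M.dif m = 0) (hm' : ¬ M.Exact m) :
    M.evc.Exact M.evo := by
  have hr : m ∉ LinearMap.range M.dif := fun ⟨g, hg⟩ => hm' ⟨g, hg⟩
  obtain ⟨f, hf, hf'⟩ := Submodule.exists_dual_map_eq_bot_of_notMem hr inferInstance
  have hf0 : ∀ g, f (M.dif g) = 0 := by
    intro g
    have h1 : f (M.dif g) ∈ Submodule.map f (LinearMap.range M.dif) := ⟨_, ⟨g, rfl⟩, rfl⟩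
    rw [hf'] at h1
    exact h1
  have hsum : ∀ g : M.I → ℚ, f g = ∑ i, g i * f (Pi.single i 1) := by
    intro g
    conv_lhs => rw [← Finset.univ_sum_single g]
    rw [map_sum]
    refine Finset.sum_congr rfl fun i _ => ?_
    rw [← smul_eq_mul, ← map_smul, ← Pi.single_smul, smul_eq_mul, mul_one]
  obtain ⟨mu, hmu⟩ : ∃ mu : M.dual.I → ℚ, ∀ i : M.I, mu i = (f m)⁻¹ * f (Pi.single i 1) :=
    ⟨_, fun _ => rfl⟩
  have h1 : ∑ i, m i * mu i = 1 := by
    have h2 : ∑ i, m i * mu i = (f m)⁻¹ * ∑ i, m i * f (Pi.single i 1) := by
      rw [Finset.mul_sum]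
      refine Finset.sum_congr rfl fun i _ => ?_
      rw [hmu]
      ring
    rw [h2, ← hsum, inv_mul_cancel₀ hf]
  have h2 : M.dual.dif mu = 0 := by
    funext j
    rw [dif_apply]
    have h3 : ∀ j : M.I, ∑ i : M.I, mu i * M.D j i = 0 := by
      intro j
      have h4 := hf0 (Pi.single j 1)
      rw [hsum] at h4
      have h5 : ∀ i, M.dif (Pi.single j 1) i = M.D j i := by
        intro i
        rw [dif_apply]
        change (0 : ℚ) + ∑ l : M.I, (Pi.single (M := fun _ => ℚ) j 1 l) * M.D l i = M.D j i
        rw [zero_add, Finset.sum_eq_single j]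
        · rw [Pi.single_eq_same, one_mul]
        · intro l _ hl
          rw [Pi.single_eq_of_ne hl, zero_mul]
        · intro h
          exact absurd (Finset.mem_univ j) h
      simp only [h5] at h4
      have h6 : ∑ i : M.I, mu i * M.D j i = (f m)⁻¹ * ∑ i, M.D j i * f (Pi.single i 1) := by
        rw [Finset.mul_sum]
        refine Finset.sum_congr rfl fun i _ => ?_
        rw [hmu]
        ring
      rw [h6, h4, mul_zero]
    have h7 : ∀ i : M.I, mu i * (dsg (M.odd i) (M.odd j) • M.D j i) =
        -sgn (M.odd j) * (mu i * M.D j i) := by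
      intro i
      rw [smul_eq_mul]
      have h8 : M.D j i = sgn (!(M.odd j ^^ M.odd i)) • M.D j i := M.par_D j i
      rw [smul_eq_mul] at h8
      revert h8
      cases M.odd i <;> cases M.odd j <;> intro h8 <;> simp only [dsg, sgn] at h8 ⊢
      · have h9 : M.D j i = 0 := by
          simp at h8
          linarith
        rw [h9]
        simp
      · simp
      · simp
      · have h9 : M.D j i = 0 := by
          simp at h8
          linarith
        rw [h9]
        simp
    change (0 : ℚ) + ∑ i : M.I, mu i * (dsg (M.odd i) (M.odd j) • M.D j i) = 0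
    rw [zero_add, Finset.sum_congr rfl fun i _ => h7 i, ← Finset.mul_sum, h3, mul_zero]
  have h10 : (M.tmul M.dual).dif (tE M M.dual m mu) = 0 := tmul_closed hm h2
  refine ⟨fun x => x.elim 0 fun x => tE M M.dual m mu x, ?_⟩
  funext y
  rw [dif_apply]
  change (0 : ℚ) + ∑ x : Option (M.I × M.I), (x.elim 0 fun x => tE M M.dual m mu x) *
    M.evc.D x y = M.evo y
  rw [zero_add, Fintype.sum_option]
  cases y with
  | none =>
    change (0 : ℚ) * 0 + ∑ x : M.I × M.I, tE M M.dual m mu x * (if x.1 = x.2 then 1 else 0) = 1
    rw [mul_zero, zero_add, Fintype.sum_prod_type]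
    refine Eq.trans ?_ h1
    refine Finset.sum_congr rfl fun i _ => ?_
    rw [Finset.sum_eq_single i]
    · rw [if_pos rfl]
      unfold tE
      have h11 : parP ℚ (M.odd i) (mu i) = mu i := by
        cases M.odd i <;> rfl
      change m i * parP ℚ (M.odd i) (mu i) * 1 = m i * mu i
      rw [h11, mul_one]
    · intro j _ hj
      rw [if_neg (Ne.symm hj), mul_zero]
    · intro h
      exact absurd (Finset.mem_univ i) h
  | some y =>
    change (0 : ℚ) * 0 + ∑ x : M.I × M.I, tE M M.dual m mu x * (-((M.tmul M.dual).D x y)) = 0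
    have h11 := congrFun h10 y
    rw [dif_apply] at h11
    change (0 : ℚ) + ∑ x : M.I × M.I, tE M M.dual m mu x * (M.tmul M.dual).D x y = 0 at h11
    rw [mul_zero, zero_add]
    rw [zero_add] at h11
    simp only [mul_neg, Finset.sum_neg_distrib]
    rw [h11, neg_zero]

end TC

/-- If the nilpotence theorem holds over `K` and `M` is not acyclic modulo the augmentation ideal,
then `w₀` is tensor nilpotent in the cone of the evaluation `M ⊗ dual M → A`. -/
theorem DGF.tn_evo (A : DGF.{u}) {K : Type u} [Field K] [CharZero K] (hK : ∀ P : PT (A.obj K),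
    P.Even → P.Closed → (P.map (A.eps K)).Exact → P.TN) (M : TC (A.obj K)) {m : M.I → ℚ}
    (hm : (M.map (A.eps K)).dif m = 0) (hm' : ¬ (M.map (A.eps K)).Exact m) :
    M.evc.TN M.evo := by
  refine hK ⟨M.evc, M.evo⟩ M.even_evo M.dif_evo ?_
  rw [TC.map_evc]
  exact TC.exact_evo hm hm'

end Pool.Agent.SPC
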