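import Pool.Agent.SPC.Alg

/-!
# The augmentation

MODULE SPC-Eps.  PLAN.  `comp_const`: by `IsFam.posn` the function `(x.comp U).val` is invariant
under `posL (killP s)` for all `s`, so (kill the positions in the finite support of `a`) it is
constant, with value `v`; `incl v` times the trivial character is a rational combination of
characters with values in the domain `Bp (T B)`; characters are linearly independent
(`linearIndependent_monoidHom`), so `incl v` is the coefficient of the trivial character:
rational.  `comp_eq_zero`: if `cu n ∈ U` put `t_n = 1` (`IsFam.face`): the constant is `0`.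
`epsF`: the constant of `x.comp ∅` (unique: `T B` is nontrivial).  Multiplication:
`Ext.mul_apply` for `U = ∅`.  `eps_d`: `dF_eq`/the definition of `dF` at `∅` and `comp_eq_zero` for
`{cu n}`.  `eps_par`: `Ext.par_apply` at `∅`.
-/

set_option autoImplicit false

noncomputable section

namespace Pool.Agent.SPC

universe u v w

open MvPolynomial SDG

namespace MA

variable {B : Type u} [CommRing B] [IsDomain B] [Algebra ℚ B] {B' : Type v} [CommRing B']
  [IsDomain B'] [Algebra ℚ B']

private theorem killP_erase (s : ℕ) (a : ℕ →₀ ℤ) : posL (killP s) a = a.erase s := by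
  induction a using Finsupp.induction_linear with
  | zero => rw [map_zero, Finsupp.erase_zero]
  | add f g hf hg => rw [map_add, hf, hg, Finsupp.erase_add]
  | single t n =>
    rw [posL_single]
    by_cases h : t = s
    · subst h
      rw [Finsupp.erase_single]
      have e : killP t t = none := if_pos rfl
      rw [e]
      rfl
    · rw [Finsupp.erase_single_ne (Ne.symm h)]
      have e : killP s t = some t := if_neg h
      rw [e]
      rfl

private theorem const_of_erase {Y : Type w} (f : (ℕ →₀ ℤ) → Y)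
    (h : ∀ s a, f (a.erase s) = f a) (a : ℕ →₀ ℤ) : f a = f 0 := by
  obtain ⟨n, hn⟩ : ∃ n, a.support.card = n := ⟨_, rfl⟩
  induction n generalizing a with
  | zero =>
    rw [Finset.card_eq_zero, Finsupp.support_eq_empty] at hn
    rw [hn]
  | succ n ih =>
    have h1 : a.support.Nonempty := by
      rw [← Finset.card_pos, hn]
      exact Nat.succ_pos n
    obtain ⟨s, hs⟩ := h1
    rw [← h s a]
    apply ih
    rw [Finsupp.support_erase, Finset.card_erase_of_mem hs, hn]
    rfl

/-- A constant cycle is rational. -/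
private theorem const_rat {A : Type u} [CommRing A] [IsDomain A] [Algebra ℚ A] (v : A)
    (h : IsExp (fun _ : ℕ →₀ ℤ => v)) : ∃ c : ℚ, v = algebraMap ℚ A c := by
  classical
  have h0 : chars A = Set.range (fun (φ : Multiplicative (ℕ →₀ ℤ) →* Bp A) (a : ℕ →₀ ℤ) =>
      φ (Multiplicative.ofAdd a)) := by
    ext f
    constructor
    · rintro ⟨φ, hφ⟩
      exact ⟨φ, funext fun a => (hφ a).symm⟩
    · rintro ⟨φ, hφ⟩
      exact ⟨φ, fun a => (congrFun hφ a).symm⟩
  have h1 : (fun _ : ℕ →₀ ℤ => incl A v) ∈ Submodule.span ℚ (chars A) := h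
  rw [h0, Finsupp.mem_span_range_iff_exists_finsupp] at h1
  obtain ⟨c, hc⟩ := h1
  refine ⟨c 1, incl_injective A ?_⟩
  have hL := linearIndependent_monoidHom (Multiplicative (ℕ →₀ ℤ)) (Bp A)
  have h2 : Finsupp.linearCombination (Bp A)
      (fun φ : Multiplicative (ℕ →₀ ℤ) →* Bp A => (φ : Multiplicative (ℕ →₀ ℤ) → Bp A))
      (c.mapRange (algebraMap ℚ (Bp A)) (map_zero _)) =
      Finsupp.linearCombination (Bp A)
      (fun φ : Multiplicative (ℕ →₀ ℤ) →* Bp A => (φ : Multiplicative (ℕ →₀ ℤ) → Bp A))
      (Finsupp.single 1 (incl A v)) := by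
    rw [Finsupp.linearCombination_single, Finsupp.linearCombination_apply,
      Finsupp.sum_mapRange_index (by intro φ; exact zero_smul _ _)]
    funext x
    have h3 := congrFun hc (Multiplicative.toAdd x)
    rw [Finsupp.sum, Finset.sum_apply] at h3 ⊢
    rw [Pi.smul_apply, MonoidHom.one_apply, smul_eq_mul, mul_one]
    refine Eq.trans ?_ h3
    refine Finset.sum_congr rfl fun φ _ => ?_
    rw [Pi.smul_apply, Pi.smul_apply, smul_eq_mul, Algebra.smul_def]
    rfl
  have h3 := congrArg (fun f => f 1) (hL h2)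
  simp only [Finsupp.mapRange_apply, Finsupp.single_eq_same] at h3
  rw [← h3, algebraMap_Bp]

private theorem map_rat {A : Type u} [CommRing A] [Algebra ℚ A] {A' : Type v} [CommRing A']
    [Algebra ℚ A'] (f : A →+* A') (c : ℚ) : f (algebraMap ℚ A c) = algebraMap ℚ A' c :=
  congrArg (fun g : ℚ →+* A' => g c)
    (Subsingleton.elim (f.comp (algebraMap ℚ A)) (algebraMap ℚ A'))

theorem comp_const (x : MA B) {U : Finset (ℕ ⊕ₗ ℕ)} (hU : ∀ s, po s ∉ U) :
    ∃ c : ℚ, ∀ a, (x.comp U).val a = algebraMap ℚ (T B) c := by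
  have h1 : ∀ a, (x.comp U).val a = (x.comp U).val 0 := by
    refine const_of_erase _ fun s a => ?_
    have h2 := x.isFam.posn U s (hU s)
    have h3 := congrArg (fun y : GT B => y.val a) h2
    change (x.comp U).val (posL (killP s) a) = (x.comp U).val a at h3
    rw [killP_erase] at h3
    exact h3
  have h2 : IsExp (fun _ : ℕ →₀ ℤ => (x.comp U).val 0) := by
    have h3 := (x.comp U).isExp
    have e : (x.comp U).val = fun _ : ℕ →₀ ℤ => (x.comp U).val 0 := funext h1
    rw [e] at h3
    exact h3
  obtain ⟨c, hc⟩ := const_rat _ h2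
  exact ⟨c, fun a => (h1 a).trans hc⟩

theorem comp_eq_zero (x : MA B) {U : Finset (ℕ ⊕ₗ ℕ)} (hU : ∀ s, po s ∉ U) (h : U ≠ ∅) :
    x.comp U = 0 := by
  obtain ⟨u, hu⟩ := Finset.nonempty_iff_ne_empty.2 h
  obtain ⟨c, hc⟩ := comp_const x hU
  obtain ⟨n, hn⟩ : ∃ n, cu n ∈ U := by
    rcases hv : ofLex u with n | s
    · refine ⟨n, ?_⟩
      have e : cu n = u := by
        rw [cu, ← hv]
        rfl
      rw [e]
      exact hu
    · exfalso
      apply hU s
      have e : po s = u := by
        rw [po, ← hv]
        rfl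
      rw [e]
      exact hu
  have h1 := x.isFam.face U n hn
  refine GT.ext fun a => ?_
  have h2 := congrArg (fun y : GT B => y.val a) h1
  change subHom B (setT n true) ((x.comp U).val a) = 0 at h2
  rw [hc, map_rat (subHom B (setT n true) : T B →+* T B)] at h2
  rw [hc, h2]
  rfl

/-- The value of the component of weight zero and dimension zero. -/
def epsF (x : MA B) : ℚ := (comp_const x (U := ∅) fun s => Finset.notMem_empty _).choose

theorem epsF_spec (x : MA B) (a : ℕ →₀ ℤ) :
    (x.comp ∅).val a = algebraMap ℚ (T B) (epsF x) :=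
  (comp_const x (U := ∅) fun s => Finset.notMem_empty _).choose_spec a

/-- The augmentation. -/
def eps (B : Type u) [CommRing B] [IsDomain B] [Algebra ℚ B] : MA B →ₐ[ℚ] ℚ where
  toFun := epsF
  map_one' := by
    apply FaithfulSMul.algebraMap_injective ℚ (T B)
    rw [← epsF_spec 1 0, map_one]
    rfl
  map_mul' x y := by
    apply FaithfulSMul.algebraMap_injective ℚ (T B)
    rw [← epsF_spec (x * y) 0, map_mul, ← epsF_spec x 0, ← epsF_spec y 0]
    have h : (x * y).comp ∅ = x.comp ∅ * y.comp ∅ := by
      have h1 : (x * y).comp ∅ = ∑ V ∈ (∅ : Finset (ℕ ⊕ₗ ℕ)).powerset,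
          sg V (∅ \ V) • (x.comp V * y.comp (∅ \ V)) := rfl
      rw [h1, Finset.powerset_empty, Finset.sum_singleton, Finset.sdiff_self]
      have e : sg (∅ : Finset (ℕ ⊕ₗ ℕ)) ∅ = 1 := by
        unfold sg invs
        simp
      rw [e, one_smul]
    rw [h, GT.val_mul]
  map_zero' := by
    apply FaithfulSMul.algebraMap_injective ℚ (T B)
    rw [← epsF_spec 0 0, map_zero]
    rfl
  map_add' x y := by
    apply FaithfulSMul.algebraMap_injective ℚ (T B)
    rw [← epsF_spec (x + y) 0, map_add, ← epsF_spec x 0, ← epsF_spec y 0]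
    rfl
  commutes' c := by
    apply FaithfulSMul.algebraMap_injective ℚ (T B)
    rw [← epsF_spec _ 0, Algebra.algebraMap_eq_smul_one]
    have h : ((c • (1 : MA B)).comp ∅).val 0 = c • (1 : T B) := rfl
    rw [h, ← Algebra.algebraMap_eq_smul_one]
    rfl

theorem eps_par (x : MA B) : eps B (par x) = eps B x := by
  apply FaithfulSMul.algebraMap_injective ℚ (T B)
  change algebraMap ℚ (T B) (epsF (par x)) = algebraMap ℚ (T B) (epsF x)
  rw [← epsF_spec (par x) 0, ← epsF_spec x 0]
  have h : (par x).comp ∅ = (-1 : ℤ) ^ (∅ : Finset (ℕ ⊕ₗ ℕ)).card • x.comp ∅ := rfl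
  rw [h, Finset.card_empty, pow_zero, one_smul]

theorem eps_d (x : MA B) : eps B (d x) = 0 := by
  apply FaithfulSMul.algebraMap_injective ℚ (T B)
  change algebraMap ℚ (T B) (epsF (d x)) = _
  rw [← epsF_spec (d x) 0, map_zero]
  have h : (d x).comp ∅ = CubeAlg.sub (setT (fresh ∅) false)
      (Ext.contr (cu (fresh ∅)) x.comp ∅) := rfl
  have h1 : (Ext.contr (cu (fresh ∅)) x.comp) ∅ = 0 := by
    unfold Ext.contr
    rw [if_neg (Finset.notMem_empty _)]
    refine (congrArg (fun z => sg _ _ • z) (comp_eq_zero x ?_ ?_)).trans (smul_zero _)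
    · intro s hs
      rw [Finset.mem_insert] at hs
      rcases hs with hs | hs
      · have h3 : Sum.inr s = (Sum.inl (fresh ∅) : ℕ ⊕ ℕ) := hs
        cases h3
      · exact absurd hs (Finset.notMem_empty _)
    · exact Finset.insert_ne_empty _ _
  rw [h, h1, map_zero]
  rfl

theorem eps_map (f : B →+* B') (x : MA B) : eps B' (map f x) = eps B x := by
  apply FaithfulSMul.algebraMap_injective ℚ (T B')
  change algebraMap ℚ (T B') (epsF (map f x)) = algebraMap ℚ (T B') (epsF x)
  rw [← epsF_spec (map f x) 0, comp_map, GT.val_map, epsF_spec x 0, map_rat]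

end MA

end Pool.Agent.SPC
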