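import Mathlib

/-!
# The exterior convolution ring

`Ext I X`: functions from finite subsets of a linearly ordered set `I` to a commutative
`ℚ`-algebra `X`, thought of as formal sums `∑_U x_U e_U`, with the product of the exterior algebra:
`(x y)_U = ∑_(V ⊆ U) ± x_V y_(U \ V)`, the sign being the sign of the shuffle.

MODULES SPC-ExtA (ring), SPC-ExtB (parity, contraction, supercommutativity), SPC-ExtC (permutations).
-/

set_option autoImplicit false

noncomputable section

namespace Pool.Agent.SPC

universe u v w

variable {I : Type u} [LinearOrder I]

/-- Number of pairs `(v, w) ∈ V × W` with `w < v`. -/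
def invs (V W : Finset I) : ℕ := ((V ×ˢ W).filter fun q => q.2 < q.1).card

/-- Sign of the shuffle of `V` and `W`. -/
def sg (V W : Finset I) : ℤ := (-1) ^ invs V W

/-- Functions on the finite subsets of `I`. -/
def Ext (I : Type u) (X : Type v) : Type (max u v) := Finset I → X

namespace Ext

variable {X : Type v} [CommRing X] [Algebra ℚ X]

instance : AddCommGroup (Ext I X) := inferInstanceAs (AddCommGroup (Finset I → X))

instance : Module ℚ (Ext I X) := inferInstanceAs (Module ℚ (Finset I → X))

instance : Mul (Ext I X) where
  mul x y := fun U => ∑ V ∈ U.powerset, sg V (U \ V) • (x V * y (U \ V))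

instance : One (Ext I X) where
  one := fun U => if U = ∅ then 1 else 0

theorem mul_apply (x y : Ext I X) (U : Finset I) :
    (x * y) U = ∑ V ∈ U.powerset, sg V (U \ V) • (x V * y (U \ V)) := rfl

theorem one_apply (U : Finset I) : (1 : Ext I X) U = if U = ∅ then 1 else 0 := rfl

end Ext

end Pool.Agent.SPC
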