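import Pool.Agent.SPC.Ext

/-!
# Ring axioms

MODULE SPC-ExtA: `invs` is additive in both arguments; associativity by the ordered decompositions in three parts.
-/

set_option autoImplicit false

noncomputable section

namespace Pool.Agent.SPC

universe u v w

variable {I : Type u} [LinearOrder I]

theorem invs_union_left {U V : Finset I} (W : Finset I) (h : Disjoint U V) :
    invs (U ∪ V) W = invs U W + invs V W := by
  unfold invs
  rw [Finset.union_product, Finset.filter_union, Finset.card_union_of_disjoint]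
  rw [Finset.disjoint_left]
  intro q hq hq'
  rw [Finset.mem_filter, Finset.mem_product] at hq hq'
  exact Finset.disjoint_left.1 h hq.1.1 hq'.1.1

theorem invs_union_right (U : Finset I) {V W : Finset I} (h : Disjoint V W) :
    invs U (V ∪ W) = invs U V + invs U W := by
  unfold invs
  rw [Finset.product_union, Finset.filter_union, Finset.card_union_of_disjoint]
  rw [Finset.disjoint_left]
  intro q hq hq'
  rw [Finset.mem_filter, Finset.mem_product] at hq hq'
  exact Finset.disjoint_left.1 h hq.1.2 hq'.1.2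

/-- For disjoint sets every pair is an inversion in exactly one of the two orders. -/
theorem invs_add_invs {U V : Finset I} (h : Disjoint U V) :
    invs U V + invs V U = U.card * V.card := by
  have h1 : invs V U = ((U ×ˢ V).filter fun q => ¬ q.2 < q.1).card := by
    unfold invs
    refine Finset.card_bij' (fun q _ => (q.2, q.1)) (fun q _ => (q.2, q.1)) ?_ ?_ ?_ ?_
    · intro q hq
      rw [Finset.mem_filter, Finset.mem_product] at hq ⊢
      exact ⟨⟨hq.1.2, hq.1.1⟩, not_lt.2 hq.2.le⟩
    · intro q hq
      rw [Finset.mem_filter, Finset.mem_product] at hq ⊢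
      refine ⟨⟨hq.1.2, hq.1.1⟩, lt_of_le_of_ne (not_lt.1 hq.2) ?_⟩
      intro h2
      have h3 : q.1 = q.2 := h2
      have h4 := hq.1.2
      rw [← h3] at h4
      exact Finset.disjoint_left.1 h hq.1.1 h4
    · intro q _
      rfl
    · intro q _
      rfl
  rw [h1, ← Finset.card_product]
  unfold invs
  exact Finset.card_filter_add_card_filter_not _

private theorem sg_eq (U V : Finset I) : sg U V = (-1) ^ invs U V := rfl

theorem sg_cocycle {U V W : Finset I} (h1 : Disjoint U V) (h2 : Disjoint U W)
    (h3 : Disjoint V W) : sg (U ∪ V) W * sg U V = sg U (V ∪ W) * sg V W := by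
  have _ := h2
  rw [sg_eq, sg_eq, sg_eq, sg_eq, invs_union_left W h1, invs_union_right U h3, ← pow_add, ← pow_add]
  congr 1
  omega

private theorem sg_empty_left (U : Finset I) : sg ∅ U = 1 := by
  unfold sg invs
  simp

private theorem sg_empty_right (U : Finset I) : sg U ∅ = 1 := by
  unfold sg invs
  simp

namespace Ext

variable {X : Type v} [CommRing X] [Algebra ℚ X]

omit [Algebra ℚ X] in
private theorem assoc_term {A B C : Finset I} (hAB : Disjoint A B) (hAC : Disjoint A C) (hBC : Disjoint B C)
    (x y z : X) : sg (A ∪ B) C • ((sg A B • (x * y)) * z) = sg A (B ∪ C) • (x * (sg B C • (y * z))) := by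
  have h := sg_cocycle hAB hAC hBC
  rw [smul_mul_assoc, mul_smul_comm, smul_smul, smul_smul, h, mul_assoc]

theorem ext_mul_assoc (x y z : Ext I X) : x * y * z = x * (y * z) := by
  funext U
  rw [mul_apply, mul_apply]
  have hl : ∀ V ∈ U.powerset, sg V (U \ V) • ((x * y) V * z (U \ V)) =
      ∑ A ∈ V.powerset, sg V (U \ V) • ((sg A (V \ A) • (x A * y (V \ A))) * z (U \ V)) := by
    intro V _
    rw [mul_apply, Finset.sum_mul, Finset.smul_sum]
  have hr : ∀ A ∈ U.powerset, sg A (U \ A) • (x A * (y * z) (U \ A)) =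
      ∑ B ∈ (U \ A).powerset, sg A (U \ A) • (x A * (sg B ((U \ A) \ B) • (y B * z ((U \ A) \ B)))) := by
    intro A _
    rw [mul_apply, Finset.mul_sum, Finset.smul_sum]
  rw [Finset.sum_congr rfl hl, Finset.sum_congr rfl hr, Finset.sum_sigma', Finset.sum_sigma']
  refine Finset.sum_bij' (fun p _ => (⟨p.2, p.1 \ p.2⟩ : Σ _ : Finset I, Finset I))
    (fun p _ => (⟨p.1 ∪ p.2, p.1⟩ : Σ _ : Finset I, Finset I)) ?_ ?_ ?_ ?_ ?_
  · rintro ⟨V, A⟩ hp
    rw [Finset.mem_sigma, Finset.mem_powerset, Finset.mem_powerset] at hp ⊢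
    exact ⟨hp.2.trans hp.1, Finset.sdiff_subset_sdiff hp.1 (Finset.Subset.refl _)⟩
  · rintro ⟨A, B⟩ hp
    rw [Finset.mem_sigma, Finset.mem_powerset, Finset.mem_powerset] at hp ⊢
    exact ⟨Finset.union_subset hp.1 (hp.2.trans Finset.sdiff_subset), Finset.subset_union_left⟩
  · rintro ⟨V, A⟩ hp
    rw [Finset.mem_sigma, Finset.mem_powerset, Finset.mem_powerset] at hp
    have h1 : A ∪ V \ A = V := Finset.union_sdiff_of_subset hp.2
    show (⟨A ∪ V \ A, A⟩ : Σ _ : Finset I, Finset I) = ⟨V, A⟩
    rw [h1]
  · rintro ⟨A, B⟩ hp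
    rw [Finset.mem_sigma, Finset.mem_powerset, Finset.mem_powerset] at hp
    have hd : Disjoint A B := Finset.disjoint_left.2 fun i hi hi' => (Finset.mem_sdiff.1 (hp.2 hi')).2 hi
    have h1 : (A ∪ B) \ A = B := Finset.union_sdiff_cancel_left hd
    show (⟨A, (A ∪ B) \ A⟩ : Σ _ : Finset I, Finset I) = ⟨A, B⟩
    rw [h1]
  · rintro ⟨V, A⟩ hp
    rw [Finset.mem_sigma, Finset.mem_powerset, Finset.mem_powerset] at hp
    obtain ⟨hV, hA⟩ := hp
    change V ⊆ U at hV
    change A ⊆ V at hA
    have hAB : Disjoint A (V \ A) := Finset.disjoint_sdiff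
    have hVC : Disjoint V (U \ V) := Finset.disjoint_sdiff
    have hAC : Disjoint A (U \ V) := Finset.disjoint_of_subset_left hA hVC
    have hBC : Disjoint (V \ A) (U \ V) := Finset.disjoint_of_subset_left Finset.sdiff_subset hVC
    have h1 : A ∪ V \ A = V := Finset.union_sdiff_of_subset hA
    have h2 : (U \ A) \ (V \ A) = U \ V := by
      ext i
      simp only [Finset.mem_sdiff]
      constructor
      · rintro ⟨⟨h3, h4⟩, h5⟩
        exact ⟨h3, fun h6 => h5 ⟨h6, h4⟩⟩
      · rintro ⟨h3, h4⟩
        exact ⟨⟨h3, fun h5 => h4 (hA h5)⟩, fun h5 => h4 h5.1⟩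
    have h3 : (V \ A) ∪ (U \ V) = U \ A := by
      ext i
      simp only [Finset.mem_union, Finset.mem_sdiff]
      constructor
      · rintro (⟨h4, h5⟩ | ⟨h4, h5⟩)
        · exact ⟨hV h4, h5⟩
        · exact ⟨h4, fun h6 => h5 (hA h6)⟩
      · rintro ⟨h4, h5⟩
        by_cases h6 : i ∈ V
        · exact Or.inl ⟨h6, h5⟩
        · exact Or.inr ⟨h4, h6⟩
    have h4 := assoc_term hAB hAC hBC (x A) (y (V \ A)) (z (U \ V))
    rw [h1, h3] at h4
    show sg V (U \ V) • ((sg A (V \ A) • (x A * y (V \ A))) * z (U \ V)) =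
      sg A (U \ A) • (x A * (sg (V \ A) ((U \ A) \ (V \ A)) • (y (V \ A) * z ((U \ A) \ (V \ A)))))
    rw [h2]
    exact h4

theorem ext_one_mul (x : Ext I X) : 1 * x = x := by
  funext U
  rw [mul_apply, Finset.sum_eq_single ∅]
  · rw [one_apply, if_pos rfl, Finset.sdiff_empty, sg_empty_left, one_smul, one_mul]
  · intro V _ hV
    rw [one_apply, if_neg hV, zero_mul, smul_zero]
  · intro h
    exact absurd (Finset.empty_mem_powerset U) h

theorem ext_mul_one (x : Ext I X) : x * 1 = x := by
  funext U
  rw [mul_apply, Finset.sum_eq_single U]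
  · rw [one_apply, Finset.sdiff_self, if_pos rfl, sg_empty_right, one_smul, mul_one]
  · intro V hV hVU
    have h1 : U \ V ≠ ∅ := by
      intro h2
      exact hVU (Finset.Subset.antisymm (Finset.mem_powerset.1 hV) (Finset.sdiff_eq_empty_iff_subset.1 h2))
    rw [one_apply, if_neg h1, mul_zero, smul_zero]
  · intro h
    exact absurd (Finset.mem_powerset_self U) h

theorem ext_left_distrib (x y z : Ext I X) : x * (y + z) = x * y + x * z := by
  funext U
  show (x * (y + z)) U = (x * y) U + (x * z) U
  rw [mul_apply, mul_apply, mul_apply, ← Finset.sum_add_distrib]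
  refine Finset.sum_congr rfl fun V _ => ?_
  rw [← smul_add, ← mul_add]
  rfl

theorem ext_right_distrib (x y z : Ext I X) : (x + y) * z = x * z + y * z := by
  funext U
  show ((x + y) * z) U = (x * z) U + (y * z) U
  rw [mul_apply, mul_apply, mul_apply, ← Finset.sum_add_distrib]
  refine Finset.sum_congr rfl fun V _ => ?_
  rw [← smul_add, ← add_mul]
  rfl

instance : Ring (Ext I X) :=
  { (inferInstance : AddCommGroup (Ext I X)), (inferInstance : Mul (Ext I X)),
    (inferInstance : One (Ext I X)) with
    left_distrib := ext_left_distrib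
    right_distrib := ext_right_distrib
    zero_mul := fun a => by
      have h := ext_right_distrib (0 : Ext I X) 0 a
      rw [add_zero] at h
      exact left_eq_add.1 h
    mul_zero := fun a => by
      have h := ext_left_distrib a (0 : Ext I X) 0
      rw [add_zero] at h
      exact left_eq_add.1 h
    mul_assoc := ext_mul_assoc
    one_mul := ext_one_mul
    mul_one := ext_mul_one }

theorem ext_smul_mul (c : ℚ) (x y : Ext I X) : c • x * y = c • (x * y) := by
  funext U
  show (c • x * y) U = c • (x * y) U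
  rw [mul_apply, mul_apply, Finset.smul_sum]
  refine Finset.sum_congr rfl fun V _ => ?_
  show sg V (U \ V) • ((c • x V) * y (U \ V)) = _
  rw [smul_mul_assoc, smul_comm]

theorem ext_mul_smul (c : ℚ) (x y : Ext I X) : x * c • y = c • (x * y) := by
  funext U
  show (x * c • y) U = c • (x * y) U
  rw [mul_apply, mul_apply, Finset.smul_sum]
  refine Finset.sum_congr rfl fun V _ => ?_
  show sg V (U \ V) • (x V * (c • y (U \ V))) = _
  rw [mul_smul_comm, smul_comm]

instance : Algebra ℚ (Ext I X) :=
  Algebra.ofModule (fun c x y => ext_smul_mul c x y) (fun c x y => ext_mul_smul c x y)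

end Ext

end Pool.Agent.SPC
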