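import Pool.Agent.SPC.ExtA

/-!
# Parity, contraction, supercommutativity

Termwise in the sum over the subsets `V ⊆ U`.
-/

set_option autoImplicit false

noncomputable section

namespace Pool.Agent.SPC

universe u v w

variable {I : Type u} [LinearOrder I]

private theorem xb_sq (V W : Finset I) : sg V W * sg V W = 1 := by
  unfold sg
  rw [← mul_pow]
  norm_num

private theorem xb_left {U V : Finset I} (W : Finset I) (h : Disjoint U V) :
    sg (U ∪ V) W = sg U W * sg V W := by
  unfold sg
  rw [invs_union_left W h, pow_add]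

private theorem xb_right (U : Finset I) {V W : Finset I} (h : Disjoint V W) :
    sg U (V ∪ W) = sg U V * sg U W := by
  unfold sg
  rw [invs_union_right U h, pow_add]

private theorem xb_comm {U V : Finset I} (h : Disjoint U V) :
    sg U V * sg V U = (-1) ^ (U.card * V.card) := by
  unfold sg
  rw [← pow_add, invs_add_invs h]

private theorem xb_two {X : Type v} [CommRing X] [Algebra ℚ X] {a : X} (h : a = -a) : a = 0 := by
  have h1 : (2 : ℚ) • a = 0 := by
    rw [two_smul]
    nth_rewrite 1 [h]
    exact neg_add_cancel a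
  calc a = (1 / 2 : ℚ) • ((2 : ℚ) • a) := by
        rw [smul_smul]
        norm_num
    _ = 0 := by rw [h1, smul_zero]

namespace Ext

variable {X : Type v} [CommRing X] [Algebra ℚ X]

theorem add_apply (x y : Ext I X) (U : Finset I) : (x + y) U = x U + y U := rfl

theorem smul_apply (c : ℚ) (x : Ext I X) (U : Finset I) : (c • x) U = c • x U := rfl

theorem neg_apply (x : Ext I X) (U : Finset I) : (-x) U = -x U := rfl

/-- The parity automorphism. -/
def parF (x : Ext I X) : Ext I X := fun U => (-1 : ℤ) ^ U.card • x U

theorem parF_mul (x y : Ext I X) : parF (x * y) = parF x * parF y := by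
  funext U
  show (-1 : ℤ) ^ U.card • (x * y) U = _
  rw [mul_apply, mul_apply, Finset.smul_sum]
  refine Finset.sum_congr rfl fun V hV => ?_
  have h1 : U.card = V.card + (U \ V).card := by
    have := Finset.card_sdiff_add_card_eq_card (Finset.mem_powerset.1 hV)
    omega
  show _ = sg V (U \ V) • (((-1 : ℤ) ^ V.card • x V) * ((-1 : ℤ) ^ (U \ V).card • y (U \ V)))
  rw [smul_mul_smul_comm, ← pow_add, ← h1, smul_comm]

/-- The parity automorphism. -/
def par : Ext I X →ₐ[ℚ] Ext I X where
  toFun := parF
  map_one' := by
    funext U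
    show (-1 : ℤ) ^ U.card • (1 : Ext I X) U = (1 : Ext I X) U
    rw [one_apply]
    by_cases h : U = ∅
    · rw [h, Finset.card_empty, pow_zero, one_smul]
    · rw [if_neg h, smul_zero]
  map_mul' := parF_mul
  map_zero' := by
    funext U
    show (-1 : ℤ) ^ U.card • (0 : X) = 0
    rw [smul_zero]
  map_add' x y := by
    funext U
    show (-1 : ℤ) ^ U.card • (x U + y U) = (-1 : ℤ) ^ U.card • x U + (-1 : ℤ) ^ U.card • y U
    rw [smul_add]
  commutes' c := by
    rw [Algebra.algebraMap_eq_smul_one]
    funext U
    show (-1 : ℤ) ^ U.card • (c • (1 : Ext I X) U) = c • (1 : Ext I X) U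
    rw [one_apply]
    by_cases h : U = ∅
    · rw [h, Finset.card_empty, pow_zero, one_smul]
    · rw [if_neg h, smul_zero, smul_zero]

theorem par_apply (x : Ext I X) (U : Finset I) : par x U = (-1 : ℤ) ^ U.card • x U := rfl

theorem par_par (x : Ext I X) : par (par x) = x := by
  funext U
  rw [par_apply, par_apply, smul_smul, ← mul_pow]
  norm_num

/-- Contraction with the `i`-th basis vector. -/
def contr (i : I) (x : Ext I X) : Ext I X :=
  fun U => if i ∈ U then 0 else sg {i} U • x (insert i U)

theorem contr_mul (i : I) (x y : Ext I X) :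
    contr i (x * y) = contr i x * y + par x * contr i y := by
  funext U
  show contr i (x * y) U = (contr i x * y) U + (par x * contr i y) U
  rw [mul_apply, mul_apply]
  by_cases hi : i ∈ U
  · -- both sides vanish
    have h0 : contr i (x * y) U = 0 := if_pos hi
    have hU : U = insert i (U.erase i) := (Finset.insert_erase hi).symm
    obtain ⟨U₀, hU₀⟩ : ∃ U₀, U₀ = U.erase i := ⟨_, rfl⟩
    have hi₀ : i ∉ U₀ := by
      rw [hU₀]
      exact Finset.notMem_erase i U
    rw [← hU₀] at hU
    rw [h0, hU, Finset.sum_powerset_insert hi₀, Finset.sum_powerset_insert hi₀]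
    have h1 : ∑ V ∈ U₀.powerset, sg (insert i V) (insert i U₀ \ insert i V) •
        (contr i x (insert i V) * y (insert i U₀ \ insert i V)) = 0 := by
      refine Finset.sum_eq_zero fun V _ => ?_
      have h2 : contr i x (insert i V) = 0 := if_pos (Finset.mem_insert_self i V)
      rw [h2, zero_mul, smul_zero]
    have h3 : ∑ V ∈ U₀.powerset, sg V (insert i U₀ \ V) • (par x V * contr i y (insert i U₀ \ V)) = 0 := by
      refine Finset.sum_eq_zero fun V hV => ?_
      have h4 : i ∈ insert i U₀ \ V := by
        rw [Finset.mem_sdiff]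
        exact ⟨Finset.mem_insert_self i U₀, fun h => hi₀ (Finset.mem_powerset.1 hV h)⟩
      have h2 : contr i y (insert i U₀ \ V) = 0 := if_pos h4
      rw [h2, mul_zero, smul_zero]
    rw [h1, h3, add_zero, zero_add, ← Finset.sum_add_distrib]
    refine (Finset.sum_eq_zero fun V hV => ?_).symm
    have hV' := Finset.mem_powerset.1 hV
    have hiV : i ∉ V := fun h => hi₀ (hV' h)
    have e1 : insert i U₀ \ V = insert i (U₀ \ V) := Finset.insert_sdiff_of_notMem _ hiV
    have e2 : insert i U₀ \ insert i V = U₀ \ V := by
      ext a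
      simp only [Finset.mem_sdiff, Finset.mem_insert]
      constructor
      · rintro ⟨h1 | h1, h2⟩
        · exact absurd (Or.inl h1) h2
        · exact ⟨h1, fun h => h2 (Or.inr h)⟩
      · rintro ⟨h1, h2⟩
        refine ⟨Or.inr h1, ?_⟩
        rintro (h | h)
        · rw [h] at h1
          exact hi₀ h1
        · exact h2 h
    obtain ⟨W, hW⟩ : ∃ W, W = U₀ \ V := ⟨_, rfl⟩
    have hiW : i ∉ W := by
      rw [hW, Finset.mem_sdiff]
      exact fun h => hi₀ h.1
    have dVW : Disjoint V W := by
      rw [hW]
      exact Finset.disjoint_sdiff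
    have c1 : contr i x V = sg {i} V • x (insert i V) := if_neg hiV
    have c2 : contr i y W = sg {i} W • y (insert i W) := if_neg hiW
    rw [e1, e2, ← hW, c1, c2, par_apply, smul_mul_assoc, smul_mul_smul_comm, smul_smul, smul_smul, ← add_smul]
    have d1 : sg V (insert i W) = sg V {i} * sg V W := by
      rw [Finset.insert_eq, xb_right V (Finset.disjoint_singleton_left.2 hiW)]
    have d2 : sg (insert i V) W = sg {i} W * sg V W := by
      rw [Finset.insert_eq, xb_left W (Finset.disjoint_singleton_left.2 hiV)]
    have d3 := xb_comm (Finset.disjoint_singleton_left.2 hiV)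
    rw [Finset.card_singleton, one_mul] at d3
    have d4 := xb_sq {i} W
    have key : sg V (insert i W) * sg {i} V + sg (insert i V) W * ((-1) ^ (insert i V).card * sg {i} W) = 0 := by
      rw [d1, d2, Finset.card_insert_of_notMem hiV, pow_succ, ← d3]
      linear_combination (-(sg V W * (sg {i} V * sg V {i}))) * d4
    rw [key, zero_smul]
  · have h0 : contr i (x * y) U = sg {i} U • (x * y) (insert i U) := if_neg hi
    rw [h0, mul_apply, Finset.sum_powerset_insert hi, smul_add, add_comm, Finset.smul_sum, Finset.smul_sum]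
    have key : ∀ V ∈ U.powerset, i ∉ V ∧ i ∉ U \ V ∧ Disjoint V (U \ V) ∧ V ∪ U \ V = U ∧
        insert i U \ V = insert i (U \ V) ∧ insert i U \ insert i V = U \ V := by
      intro V hV
      have hV' := Finset.mem_powerset.1 hV
      have hiV : i ∉ V := fun h => hi (hV' h)
      refine ⟨hiV, fun h => hi (Finset.mem_sdiff.1 h).1, Finset.disjoint_sdiff, Finset.union_sdiff_of_subset hV',
        Finset.insert_sdiff_of_notMem _ hiV, ?_⟩
      ext a
      simp only [Finset.mem_sdiff, Finset.mem_insert]
      constructor
      · rintro ⟨h1 | h1, h2⟩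
        · exact absurd (Or.inl h1) h2
        · exact ⟨h1, fun h => h2 (Or.inr h)⟩
      · rintro ⟨h1, h2⟩
        refine ⟨Or.inr h1, ?_⟩
        rintro (h | h)
        · rw [h] at h1
          exact hi h1
        · exact h2 h
    congr 1
    · refine Finset.sum_congr rfl fun V hV => ?_
      obtain ⟨hiV, hiW, dVW, hU, e1, e2⟩ := key V hV
      rw [e2]
      obtain ⟨W, hW⟩ : ∃ W, W = U \ V := ⟨_, rfl⟩
      rw [← hW] at hiW dVW hU ⊢
      have c1 : contr i x V = sg {i} V • x (insert i V) := if_neg hiV
      rw [c1, smul_mul_assoc, smul_smul, smul_smul]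
      have d2 : sg (insert i V) W = sg {i} W * sg V W := by
        rw [Finset.insert_eq, xb_left W (Finset.disjoint_singleton_left.2 hiV)]
      have d1 : sg {i} U = sg {i} V * sg {i} W := by
        rw [← hU, xb_right {i} dVW]
      have d4 := xb_sq {i} W
      congr 1
      rw [d1, d2]
      linear_combination (sg {i} V * sg V W) * d4
    · refine Finset.sum_congr rfl fun V hV => ?_
      obtain ⟨hiV, hiW, dVW, hU, e1, e2⟩ := key V hV
      rw [e1]
      obtain ⟨W, hW⟩ : ∃ W, W = U \ V := ⟨_, rfl⟩
      rw [← hW] at hiW dVW hU ⊢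
      have c2 : contr i y W = sg {i} W • y (insert i W) := if_neg hiW
      rw [c2, par_apply, smul_mul_smul_comm, smul_smul, smul_smul]
      have d1 : sg {i} U = sg {i} V * sg {i} W := by
        rw [← hU, xb_right {i} dVW]
      have d2 : sg V (insert i W) = sg V {i} * sg V W := by
        rw [Finset.insert_eq, xb_right V (Finset.disjoint_singleton_left.2 hiW)]
      have d3 := xb_comm (Finset.disjoint_singleton_left.2 hiV)
      rw [Finset.card_singleton, one_mul] at d3
      congr 1
      rw [d1, d2, ← d3]
      ring

theorem mul_comm_even (x y : Ext I X) (hx : par x = x) : x * y = y * x := by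
  funext U
  rw [mul_apply, mul_apply]
  refine Finset.sum_nbij' (fun V => U \ V) (fun V => U \ V) ?_ ?_ ?_ ?_ ?_
  · exact fun V _ => Finset.mem_powerset.2 Finset.sdiff_subset
  · exact fun V _ => Finset.mem_powerset.2 Finset.sdiff_subset
  · exact fun V hV => Finset.sdiff_sdiff_eq_self (Finset.mem_powerset.1 hV)
  · exact fun V hV => Finset.sdiff_sdiff_eq_self (Finset.mem_powerset.1 hV)
  · intro V hV
    rw [Finset.sdiff_sdiff_eq_self (Finset.mem_powerset.1 hV), mul_comm (y (U \ V))]
    have h1 := congrFun hx V
    rw [par_apply] at h1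
    rcases Nat.even_or_odd V.card with h2 | h2
    · have h3 := xb_comm (Finset.disjoint_sdiff (s := V) (t := U))
      rw [(h2.mul_right _).neg_one_pow] at h3
      have h4 := xb_sq (U \ V) V
      have h5 : sg V (U \ V) = sg (U \ V) V := by
        linear_combination (sg (U \ V) V) * h3 - (sg V (U \ V)) * h4
      rw [h5]
    · rw [h2.neg_one_pow, neg_smul, one_smul] at h1
      rw [xb_two h1.symm, zero_mul, smul_zero, smul_zero]

theorem mul_comm_odd (x y : Ext I X) (hx : par x = -x) (hy : par y = -y) :
    x * y = -(y * x) := by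
  funext U
  rw [neg_apply, mul_apply, mul_apply, ← Finset.sum_neg_distrib]
  refine Finset.sum_nbij' (fun V => U \ V) (fun V => U \ V) ?_ ?_ ?_ ?_ ?_
  · exact fun V _ => Finset.mem_powerset.2 Finset.sdiff_subset
  · exact fun V _ => Finset.mem_powerset.2 Finset.sdiff_subset
  · exact fun V hV => Finset.sdiff_sdiff_eq_self (Finset.mem_powerset.1 hV)
  · exact fun V hV => Finset.sdiff_sdiff_eq_self (Finset.mem_powerset.1 hV)
  · intro V hV
    rw [Finset.sdiff_sdiff_eq_self (Finset.mem_powerset.1 hV), mul_comm (y (U \ V))]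
    have h1 := congrFun hx V
    rw [par_apply, neg_apply] at h1
    have h1' := congrFun hy (U \ V)
    rw [par_apply, neg_apply] at h1'
    rcases Nat.even_or_odd V.card with h2 | h2
    · rw [h2.neg_one_pow, one_smul] at h1
      rw [xb_two h1, zero_mul, smul_zero, smul_zero, neg_zero]
    · rcases Nat.even_or_odd (U \ V).card with h6 | h6
      · rw [h6.neg_one_pow, one_smul] at h1'
        rw [xb_two h1', mul_zero, smul_zero, smul_zero, neg_zero]
      · have h3 := xb_comm (Finset.disjoint_sdiff (s := V) (t := U))
        rw [(h2.mul h6).neg_one_pow] at h3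
        have h4 := xb_sq (U \ V) V
        have h5 : sg V (U \ V) = -sg (U \ V) V := by
          linear_combination (sg (U \ V) V) * h3 - (sg V (U \ V)) * h4
        rw [h5, neg_smul]

end Ext

end Pool.Agent.SPC
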