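import Pool.Agent.SPC.ExtB

/-!
# Permutations of the basis

`sgE e V` is the sign of the reordering of `V` by `e`; the signs are products over pairs.
-/

set_option autoImplicit false

noncomputable section

namespace Pool.Agent.SPC

universe u v w

variable {I : Type u} [LinearOrder I]

/-- Number of inversions of `e` on `V`. -/
def invsE (e : I ≃ I) (V : Finset I) : ℕ :=
  ((V ×ˢ V).filter fun q => q.1 < q.2 ∧ e q.2 < e q.1).card

/-- Sign of the reordering of `V` by `e`. -/
def sgE (e : I ≃ I) (V : Finset I) : ℤ := (-1) ^ invsE e V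

private theorem xc_pow {α : Type u} (A : Finset α) (p : α → Prop) [DecidablePred p] :
    (-1 : ℤ) ^ (A.filter p).card = ∏ a ∈ A, if p a then (-1 : ℤ) else 1 := by
  rw [Finset.prod_ite, Finset.prod_const, Finset.prod_const_one, mul_one]

/-- the sign of a pair -/
private def xcs (e : I ≃ I) (p q : I) : ℤ := if p < q ∧ e q < e p then -1 else 1

private theorem xc_sgE (e : I ≃ I) (V : Finset I) : sgE e V = ∏ p ∈ V, ∏ q ∈ V, xcs e p q := by
  unfold sgE invsE
  rw [xc_pow, Finset.prod_product]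
  rfl

private theorem xc_sg (V W : Finset I) : sg V W = ∏ p ∈ V, ∏ q ∈ W, (if q < p then (-1 : ℤ) else 1) := by
  unfold sg invs
  rw [xc_pow, Finset.prod_product]

private theorem xc_pt (e : I ≃ I) {p q : I} (h : p ≠ q) :
    xcs e p q * xcs e q p * (if q < p then (-1 : ℤ) else 1) = if e q < e p then -1 else 1 := by
  have he : e p ≠ e q := fun h' => h (e.injective h')
  unfold xcs
  rcases lt_or_gt_of_ne h with h1 | h1 <;> rcases lt_or_gt_of_ne he with h2 | h2 <;>
    simp [h1, h2, not_lt.2 h1.le, not_lt.2 h2.le]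

private theorem xc_self (e : I ≃ I) (p : I) : xcs e p p = 1 := by
  unfold xcs
  exact if_neg fun h => lt_irrefl _ h.1

private theorem xc_pt2 (e f : I ≃ I) {p q : I} (h : p ≠ q) :
    xcs (e.trans f) p q * xcs (e.trans f) q p =
      xcs f (e p) (e q) * xcs e p q * (xcs f (e q) (e p) * xcs e q p) := by
  have he : e p ≠ e q := fun h' => h (e.injective h')
  have hf : f (e p) ≠ f (e q) := fun h' => he (f.injective h')
  unfold xcs
  rcases lt_or_gt_of_ne h with h1 | h1 <;> rcases lt_or_gt_of_ne he with h2 | h2 <;>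
    rcases lt_or_gt_of_ne hf with h3 | h3 <;>
    simp [h1, h2, h3, not_lt.2 h1.le, not_lt.2 h2.le, not_lt.2 h3.le]

private theorem xc_sym (V : Finset I) (g k : I → I → ℤ) (h0 : ∀ p, g p p = k p p)
    (h1 : ∀ p q, p ≠ q → g p q * g q p = k p q * k q p) :
    ∏ p ∈ V, ∏ q ∈ V, g p q = ∏ p ∈ V, ∏ q ∈ V, k p q := by
  induction V using Finset.induction_on with
  | empty => rfl
  | insert a V ha ih =>
    have key : ∀ g : I → I → ℤ, ∏ p ∈ insert a V, ∏ q ∈ insert a V, g p q =
        g a a * (∏ q ∈ V, g a q * g q a) * ∏ p ∈ V, ∏ q ∈ V, g p q := by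
      intro g
      rw [Finset.prod_insert ha, Finset.prod_insert ha]
      have h2 : ∏ p ∈ V, ∏ q ∈ insert a V, g p q = (∏ p ∈ V, g p a) * ∏ p ∈ V, ∏ q ∈ V, g p q := by
        rw [← Finset.prod_mul_distrib]
        exact Finset.prod_congr rfl fun p _ => Finset.prod_insert ha
      rw [h2, Finset.prod_mul_distrib]
      ring
    rw [key, key, ih, h0, Finset.prod_congr rfl fun q hq => h1 a q (fun h => ha (h ▸ hq))]

private theorem xc_sq (V W : Finset I) : sg V W * sg V W = 1 := by
  unfold sg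
  rw [← mul_pow]
  norm_num

private theorem xc_mm (e : I ≃ I) (U : Finset I) : (U.map e.symm.toEmbedding).map e.toEmbedding = U := by
  ext a
  simp

private theorem xc_mm' (e : I ≃ I) (U : Finset I) : (U.map e.toEmbedding).map e.symm.toEmbedding = U := by
  ext a
  simp

private theorem xc_sd (e : I ≃ I) (U V : Finset I) :
    (U \ V).map e.toEmbedding = U.map e.toEmbedding \ V.map e.toEmbedding := by
  ext a
  simp

theorem sgE_union (e : I ≃ I) {V W : Finset I} (h : Disjoint V W) :
    sgE e (V ∪ W) * sg V W = sgE e V * sgE e W * sg (V.map e.toEmbedding) (W.map e.toEmbedding) := by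
  have h1 : ∏ p ∈ V ∪ W, ∏ q ∈ V ∪ W, xcs e p q = (∏ p ∈ V, ∏ q ∈ V, xcs e p q) *
      (∏ p ∈ W, ∏ q ∈ W, xcs e p q) * ∏ p ∈ V, ∏ q ∈ W, xcs e p q * xcs e q p := by
    have h2 : ∀ p, ∏ q ∈ V ∪ W, xcs e p q = (∏ q ∈ V, xcs e p q) * ∏ q ∈ W, xcs e p q :=
      fun p => Finset.prod_union h
    have h3 : ∏ p ∈ V, ∏ q ∈ W, xcs e q p = ∏ p ∈ W, ∏ q ∈ V, xcs e p q := Finset.prod_comm
    simp only [Finset.prod_union h, Finset.prod_mul_distrib]
    rw [h3]
    ring
  have h4 : sg (V.map e.toEmbedding) (W.map e.toEmbedding) =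
      ∏ p ∈ V, ∏ q ∈ W, (if e q < e p then (-1 : ℤ) else 1) := by
    rw [xc_sg, Finset.prod_map]
    refine Finset.prod_congr rfl fun p _ => ?_
    rw [Finset.prod_map]
    rfl
  rw [xc_sgE, xc_sgE, xc_sgE, h4, h1, xc_sg, mul_assoc, ← Finset.prod_mul_distrib]
  congr 1
  refine Finset.prod_congr rfl fun p hp => ?_
  rw [← Finset.prod_mul_distrib]
  refine Finset.prod_congr rfl fun q hq => ?_
  refine xc_pt e fun hpq => ?_
  rw [hpq] at hp
  exact Finset.disjoint_left.1 h hp hq

theorem sgE_trans (e f : I ≃ I) (V : Finset I) :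
    sgE (e.trans f) V = sgE f (V.map e.toEmbedding) * sgE e V := by
  have h1 : sgE f (V.map e.toEmbedding) = ∏ p ∈ V, ∏ q ∈ V, xcs f (e p) (e q) := by
    rw [xc_sgE, Finset.prod_map]
    refine Finset.prod_congr rfl fun p _ => ?_
    rw [Finset.prod_map]
    rfl
  have h2 : (∏ p ∈ V, ∏ q ∈ V, xcs f (e p) (e q)) * ∏ p ∈ V, ∏ q ∈ V, xcs e p q =
      ∏ p ∈ V, ∏ q ∈ V, xcs f (e p) (e q) * xcs e p q := by
    simp only [Finset.prod_mul_distrib]
  rw [h1, xc_sgE, xc_sgE, h2]
  refine xc_sym V _ _ (fun p => ?_) (fun p q hpq => xc_pt2 e f hpq)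
  rw [xc_self, xc_self, xc_self, one_mul]

namespace Ext

variable {X : Type v} [CommRing X] [Algebra ℚ X] {Y : Type w} [CommRing Y] [Algebra ℚ Y]

/-- Apply a linear map to the coefficients. -/
def mapL (a : X →ₗ[ℚ] Y) : Ext I X →ₗ[ℚ] Ext I Y where
  toFun x := fun U => a (x U)
  map_add' x y := by
    funext U
    exact map_add a _ _
  map_smul' c x := by
    funext U
    exact map_smul a _ _

theorem mapL_apply (a : X →ₗ[ℚ] Y) (x : Ext I X) (U : Finset I) : mapL a x U = a (x U) := rfl

theorem mapL_mul (a : X →ₐ[ℚ] Y) (x y : Ext I X) :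
    mapL a.toLinearMap (x * y) = mapL a.toLinearMap x * mapL a.toLinearMap y := by
  funext U
  show a ((x * y) U) = _
  rw [mul_apply, mul_apply, map_sum]
  refine Finset.sum_congr rfl fun V _ => ?_
  rw [map_zsmul, map_mul]
  rfl

theorem mapL_one (a : X →ₐ[ℚ] Y) : mapL a.toLinearMap (1 : Ext I X) = 1 := by
  funext U
  show a ((1 : Ext I X) U) = _
  rw [one_apply, one_apply]
  by_cases h : U = ∅
  · rw [if_pos h, if_pos h, map_one]
  · rw [if_neg h, if_neg h, map_zero]

/-- Permute the basis vectors by `e`. -/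
def permF (e : I ≃ I) (x : Ext I X) : Ext I X :=
  fun U => sgE e (U.map e.symm.toEmbedding) • x (U.map e.symm.toEmbedding)

theorem permF_apply_map (e : I ≃ I) (x : Ext I X) (U : Finset I) :
    permF e x (U.map e.toEmbedding) = sgE e U • x U := by
  unfold permF
  rw [xc_mm']

theorem permF_mul (e : I ≃ I) (x y : Ext I X) : permF e (x * y) = permF e x * permF e y := by
  funext U
  obtain ⟨U', rfl⟩ : ∃ U', U = Finset.map e.toEmbedding U' := ⟨U.map e.symm.toEmbedding, (xc_mm e U).symm⟩
  have h1 : (permF e x * permF e y) (U'.map e.toEmbedding) = ∑ V ∈ U'.powerset,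
      sg (V.map e.toEmbedding) ((U' \ V).map e.toEmbedding) •
        (permF e x (V.map e.toEmbedding) * permF e y ((U' \ V).map e.toEmbedding)) := by
    rw [mul_apply]
    refine (Finset.sum_nbij (fun V => V.map e.toEmbedding) ?_ ?_ ?_ ?_).symm
    · intro V hV
      rw [Finset.mem_powerset] at hV ⊢
      exact Finset.map_subset_map.2 hV
    · intro V _ V' _ hVV
      exact Finset.map_injective _ hVV
    · intro V hV
      rw [Finset.mem_coe, Finset.mem_powerset] at hV
      refine ⟨V.map e.symm.toEmbedding, ?_, xc_mm e V⟩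
      rw [Finset.mem_coe, Finset.mem_powerset, ← xc_mm' e U']
      exact Finset.map_subset_map.2 hV
    · intro V _
      rw [xc_sd]
  rw [permF_apply_map, h1, mul_apply, Finset.smul_sum]
  refine Finset.sum_congr rfl fun V hV => ?_
  rw [permF_apply_map, permF_apply_map, smul_mul_smul_comm, smul_smul, smul_smul]
  have h2 := sgE_union e (V := V) (W := U' \ V) Finset.disjoint_sdiff
  rw [Finset.union_sdiff_of_subset (Finset.mem_powerset.1 hV)] at h2
  rw [h2, mul_comm (sgE e V * sgE e (U' \ V))]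

theorem permF_one (e : I ≃ I) : permF e (1 : Ext I X) = 1 := by
  funext U
  obtain ⟨U', rfl⟩ : ∃ U', U = Finset.map e.toEmbedding U' := ⟨U.map e.symm.toEmbedding, (xc_mm e U).symm⟩
  rw [permF_apply_map, one_apply, one_apply]
  by_cases h : U' = ∅
  · rw [h, Finset.map_empty, if_pos rfl]
    have h1 : sgE e (∅ : Finset I) = 1 := by
      rw [xc_sgE]
      rfl
    rw [h1, one_smul]
  · rw [if_neg h, if_neg (fun h' => h (Finset.map_eq_empty.1 h')), smul_zero]

theorem permF_trans (e f : I ≃ I) (x : Ext I X) : permF (e.trans f) x = permF f (permF e x) := by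
  funext U
  obtain ⟨U', rfl⟩ : ∃ U', U = Finset.map f.toEmbedding U' := ⟨U.map f.symm.toEmbedding, (xc_mm f U).symm⟩
  obtain ⟨U'', rfl⟩ : ∃ U'', U' = Finset.map e.toEmbedding U'' := ⟨U'.map e.symm.toEmbedding, (xc_mm e U').symm⟩
  rw [permF_apply_map, permF_apply_map, smul_smul, ← sgE_trans]
  have h1 : (U''.map e.toEmbedding).map f.toEmbedding = U''.map (e.trans f).toEmbedding := by
    rw [Finset.map_map]
    rfl
  rw [h1, permF_apply_map]

theorem contr_permF (e : I ≃ I) (i : I) (x : Ext I X) :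
    contr (e i) (permF e x) = permF e (contr i x) := by
  funext U
  obtain ⟨U', rfl⟩ : ∃ U', U = Finset.map e.toEmbedding U' := ⟨U.map e.symm.toEmbedding, (xc_mm e U).symm⟩
  rw [permF_apply_map]
  unfold contr
  by_cases h : i ∈ U'
  · rw [if_pos h, if_pos (by rw [Finset.mem_map_equiv, Equiv.symm_apply_apply]; exact h), smul_zero]
  · rw [if_neg h, if_neg (by rw [Finset.mem_map_equiv, Equiv.symm_apply_apply]; exact h)]
    have h1 : insert (e i) (U'.map e.toEmbedding) = (insert i U').map e.toEmbedding := by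
      rw [Finset.map_insert]
      rfl
    have h2 : ({e i} : Finset I) = ({i} : Finset I).map e.toEmbedding := by
      rw [Finset.map_singleton]
      rfl
    rw [h1, permF_apply_map, smul_smul, smul_smul, h2]
    have h3 := sgE_union e (V := {i}) (W := U') (Finset.disjoint_singleton_left.2 h)
    have h4 : sgE e ({i} : Finset I) = 1 := by
      rw [xc_sgE, Finset.prod_singleton, Finset.prod_singleton, xc_self]
    rw [h4, one_mul, ← Finset.insert_eq] at h3
    have h5 := xc_sq {i} U'
    have h6 := xc_sq (({i} : Finset I).map e.toEmbedding) (U'.map e.toEmbedding)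
    congr 1
    obtain ⟨a, ha⟩ : ∃ a, a = sg (({i} : Finset I).map e.toEmbedding) (U'.map e.toEmbedding) := ⟨_, rfl⟩
    obtain ⟨b, hb⟩ : ∃ b, b = sg {i} U' := ⟨_, rfl⟩
    obtain ⟨c, hc⟩ : ∃ c, c = sgE e (insert i U') := ⟨_, rfl⟩
    obtain ⟨d, hd⟩ : ∃ d, d = sgE e U' := ⟨_, rfl⟩
    rw [← ha] at h3 h6 ⊢
    rw [← hb] at h3 h5 ⊢
    rw [← hc] at h3 ⊢
    rw [← hd] at h3 ⊢
    calc a * c = a * (c * (b * b)) := by rw [h5, mul_one]
      _ = a * b * (c * b) := by ring
      _ = a * b * (d * a) := by rw [h3]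
      _ = d * b * (a * a) := by ring
      _ = d * b := by rw [h6, mul_one]

end Ext

end Pool.Agent.SPC
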