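import Pool.Agent.SPC.Cube

/-!
# Families form a subring
-/

set_option autoImplicit false

noncomputable section

namespace Pool.Agent.SPC

universe u v w

section gen

variable {I : Type w} [LinearOrder I] {X : Type u} [CommRing X] [Algebra ℚ X]

private theorem fa_perm_add (e : I ≃ I) (x y : Ext I X) :
    Ext.permF e (x + y) = Ext.permF e x + Ext.permF e y := by
  funext U
  exact smul_add _ _ _

private theorem fa_perm_smul (e : I ≃ I) (c : ℚ) (x : Ext I X) :
    Ext.permF e (c • x) = c • Ext.permF e x := by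
  funext U
  exact smul_comm _ _ _

private theorem fa_perm_par (e : I ≃ I) (a : X →ₗ[ℚ] X) (x : Ext I X) :
    Ext.permF e (Ext.mapL a (Ext.par x)) = Ext.par (Ext.permF e (Ext.mapL a x)) := by
  funext U
  rw [Ext.par_apply]
  show sgE e (U.map e.symm.toEmbedding) • a (Ext.par x (U.map e.symm.toEmbedding)) =
    (-1 : ℤ) ^ U.card • (sgE e (U.map e.symm.toEmbedding) • a (x (U.map e.symm.toEmbedding)))
  rw [Ext.par_apply, map_zsmul, Finset.card_map, smul_comm]

private theorem fa_mul (a : X →ₐ[ℚ] X) (x y : Ext I X) (U : Finset I) :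
    a ((x * y) U) = ∑ V ∈ U.powerset, sg V (U \ V) • (a (x V) * a (y (U \ V))) := by
  rw [Ext.mul_apply, map_sum]
  refine Finset.sum_congr rfl fun V _ => ?_
  rw [map_zsmul, map_mul]

private theorem fa_mul_fix (a : X →ₐ[ℚ] X) (i : I) {x y : Ext I X} (hx : ∀ U, i ∉ U → a (x U) = x U)
    (hy : ∀ U, i ∉ U → a (y U) = y U) (U : Finset I) (hi : i ∉ U) : a ((x * y) U) = (x * y) U := by
  rw [fa_mul, Ext.mul_apply]
  refine Finset.sum_congr rfl fun V hV => ?_
  rw [hx V (fun h => hi (Finset.mem_powerset.1 hV h)), hy _ (fun h => hi (Finset.mem_sdiff.1 h).1)]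

private theorem fa_mul_zero (a : X →ₐ[ℚ] X) (i : I) {x y : Ext I X} (hx : ∀ U, i ∈ U → a (x U) = 0)
    (hy : ∀ U, i ∈ U → a (y U) = 0) (U : Finset I) (hi : i ∈ U) : a ((x * y) U) = 0 := by
  rw [fa_mul]
  refine Finset.sum_eq_zero fun V _ => ?_
  by_cases h : i ∈ V
  · rw [hx V h, zero_mul, smul_zero]
  · rw [hy _ (Finset.mem_sdiff.2 ⟨hi, h⟩), mul_zero, smul_zero]

private theorem fa_mul_bdd {x y : Ext I X} {N M : ℕ} (hN : ∀ U, N < U.card → x U = 0)
    (hM : ∀ U, M < U.card → y U = 0) (U : Finset I) (hU : N + M < U.card) : (x * y) U = 0 := by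
  rw [Ext.mul_apply]
  refine Finset.sum_eq_zero fun V hV => ?_
  have h1 := Finset.card_sdiff_add_card_eq_card (Finset.mem_powerset.1 hV)
  by_cases h : N < V.card
  · rw [hN V h, zero_mul, smul_zero]
  · rw [hM (U \ V) (by omega), mul_zero, smul_zero]

private theorem fa_add_apply (x y : Ext I X) (U : Finset I) : (x + y) U = x U + y U := rfl

private theorem fa_smul_apply (c : ℚ) (x : Ext I X) (U : Finset I) : (c • x) U = c • x U := rfl

private theorem fa_one (a : X →ₐ[ℚ] X) (U : Finset I) :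
    a ((1 : Ext I X) U) = (1 : Ext I X) U := by
  rw [Ext.one_apply]
  by_cases h : U = ∅
  · rw [if_pos h, map_one]
  · rw [if_neg h, map_zero]

private theorem fa_one_zero {i : I} {U : Finset I} (h : i ∈ U) : (1 : Ext I X) U = 0 := by
  rw [Ext.one_apply, if_neg]
  rintro rfl
  exact absurd h (Finset.notMem_empty _)

end gen

variable {X : Type u} [CommRing X] [Algebra ℚ X] [CubeAlg X]

theorem IsFam.add {x y : Ext (ℕ ⊕ₗ ℕ) X} (hx : IsFam x) (hy : IsFam y) : IsFam (x + y) := by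
  refine ⟨?_, ?_, ?_, ?_, ?_, ?_⟩
  · obtain ⟨N, hN⟩ := hx.bdd
    obtain ⟨M, hM⟩ := hy.bdd
    refine ⟨max N M, fun U hU => ?_⟩
    rw [fa_add_apply, hN U (lt_of_le_of_lt (le_max_left _ _) hU), hM U (lt_of_le_of_lt (le_max_right _ _) hU),
      add_zero]
  · intro U n h
    rw [fa_add_apply, map_add, hx.cube U n h, hy.cube U n h]
  · intro U n h
    rw [fa_add_apply, map_add, hx.face U n h, hy.face U n h, add_zero]
  · intro U s h
    rw [fa_add_apply, map_add, hx.posn U s h, hy.posn U s h]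
  · intro U s h
    rw [fa_add_apply, map_add, hx.kill U s h, hy.kill U s h, add_zero]
  · intro π ρ
    rw [map_add, fa_perm_add, hx.sym, hy.sym]

theorem IsFam.smul (c : ℚ) {x : Ext (ℕ ⊕ₗ ℕ) X} (hx : IsFam x) : IsFam (c • x) := by
  refine ⟨?_, ?_, ?_, ?_, ?_, ?_⟩
  · obtain ⟨N, hN⟩ := hx.bdd
    exact ⟨N, fun U hU => by rw [fa_smul_apply, hN U hU, smul_zero]⟩
  · intro U n h
    rw [fa_smul_apply, map_smul, hx.cube U n h]
  · intro U n h
    rw [fa_smul_apply, map_smul, hx.face U n h, smul_zero]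
  · intro U s h
    rw [fa_smul_apply, map_smul, hx.posn U s h]
  · intro U s h
    rw [fa_smul_apply, map_smul, hx.kill U s h, smul_zero]
  · intro π ρ
    rw [map_smul, fa_perm_smul, hx.sym]

theorem IsFam.one : IsFam (1 : Ext (ℕ ⊕ₗ ℕ) X) := by
  refine ⟨⟨0, fun U hU => ?_⟩, ?_, ?_, ?_, ?_, ?_⟩
  · obtain ⟨i, hi⟩ := Finset.card_pos.1 hU
    exact fa_one_zero hi
  · intro U n _
    exact fa_one _ U
  · intro U n h
    rw [fa_one_zero h, map_zero]
  · intro U s _
    exact fa_one _ U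
  · intro U s h
    rw [fa_one_zero h, map_zero]
  · intro π ρ
    rw [Ext.mapL_one, Ext.permF_one]

theorem IsFam.mul {x y : Ext (ℕ ⊕ₗ ℕ) X} (hx : IsFam x) (hy : IsFam y) : IsFam (x * y) := by
  refine ⟨?_, ?_, ?_, ?_, ?_, ?_⟩
  · obtain ⟨N, hN⟩ := hx.bdd
    obtain ⟨M, hM⟩ := hy.bdd
    exact ⟨N + M, fun U hU => fa_mul_bdd hN hM U hU⟩
  · intro U n h
    exact fa_mul_fix _ (cu n) (fun U h => hx.cube U n h) (fun U h => hy.cube U n h) U h
  · intro U n h
    exact fa_mul_zero _ (cu n) (fun U h => hx.face U n h) (fun U h => hy.face U n h) U h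
  · intro U s h
    exact fa_mul_fix _ (po s) (fun U h => hx.posn U s h) (fun U h => hy.posn U s h) U h
  · intro U s h
    exact fa_mul_zero _ (po s) (fun U h => hx.kill U s h) (fun U h => hy.kill U s h) U h
  · intro π ρ
    rw [Ext.mapL_mul, Ext.permF_mul, hx.sym, hy.sym]

theorem IsFam.par {x : Ext (ℕ ⊕ₗ ℕ) X} (hx : IsFam x) : IsFam (Ext.par x) := by
  refine ⟨?_, ?_, ?_, ?_, ?_, ?_⟩
  · obtain ⟨N, hN⟩ := hx.bdd
    exact ⟨N, fun U hU => by rw [Ext.par_apply, hN U hU, smul_zero]⟩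
  · intro U n h
    rw [Ext.par_apply, map_zsmul, hx.cube U n h]
  · intro U n h
    rw [Ext.par_apply, map_zsmul, hx.face U n h, smul_zero]
  · intro U s h
    rw [Ext.par_apply, map_zsmul, hx.posn U s h]
  · intro U s h
    rw [Ext.par_apply, map_zsmul, hx.kill U s h, smul_zero]
  · intro π ρ
    rw [fa_perm_par, hx.sym]

/-- The algebra of families. -/
def Fam (X : Type u) [CommRing X] [Algebra ℚ X] [CubeAlg X] :
    Subalgebra ℚ (Ext (ℕ ⊕ₗ ℕ) X) where
  carrier := {x | IsFam x}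
  mul_mem' := IsFam.mul
  add_mem' := IsFam.add
  algebraMap_mem' c := by
    have h : algebraMap ℚ (Ext (ℕ ⊕ₗ ℕ) X) c = c • (1 : Ext (ℕ ⊕ₗ ℕ) X) :=
      Algebra.algebraMap_eq_smul_one c
    rw [Set.mem_setOf_eq, h]
    exact IsFam.one.smul c

theorem mem_Fam {x : Ext (ℕ ⊕ₗ ℕ) X} : x ∈ Fam X ↔ IsFam x := Iff.rfl

end Pool.Agent.SPC
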