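import Pool.Agent.SPC.FamA

/-!
# The differential

`dF` can be computed with any new parameter (`dF_eq`); it is an odd derivation of square zero on
families.
-/

set_option autoImplicit false

noncomputable section

namespace Pool.Agent.SPC

universe u v w

variable {X : Type u} [CommRing X] [Algebra ℚ X] [CubeAlg X]

private theorem sub_fun {v w : ℕ → ℕ ⊕ Bool} (h : ∀ k, v k = w k) (z : X) :
    CubeAlg.sub v z = CubeAlg.sub w z := by
  rw [funext h]

private theorem sub_comm' {n m : ℕ} (h : n ≠ m) (b c : Bool) (z : X) :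
    CubeAlg.sub (setT n b) (CubeAlg.sub (setT m c) z) =
      CubeAlg.sub (setT m c) (CubeAlg.sub (setT n b) z) := by
  rw [CubeAlg.sub_sub, CubeAlg.sub_sub]
  refine sub_fun (fun k => ?_) z
  by_cases h1 : k = m
  · subst h1
    have h2 : ¬ k = n := fun h3 => h h3.symm
    simp [setT, h2]
  · by_cases h2 : k = n
    · subst h2
      simp [setT, h1]
    · simp [setT, h1, h2]

private theorem cu_inj {n m : ℕ} (h : cu n = cu m) : n = m := by
  have h1 : (Sum.inl n : ℕ ⊕ ℕ) = Sum.inl m := toLex.injective h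
  exact Sum.inl_injective h1

private theorem cu_ne_po (n s : ℕ) : po s ≠ cu n := by
  intro h
  have h1 : (Sum.inr s : ℕ ⊕ ℕ) = Sum.inl n := toLex.injective h
  exact Sum.inr_ne_inl h1

private theorem cases_idx (u : ℕ ⊕ₗ ℕ) : (∃ k, u = cu k) ∨ ∃ s, u = po s := by
  rcases h : ofLex u with k | s
  · exact Or.inl ⟨k, ofLex.injective h⟩
  · exact Or.inr ⟨s, ofLex.injective h⟩

private theorem contr_of {I : Type v} [LinearOrder I] {i : I} {U : Finset I} (h : i ∉ U) (x : Ext I X) :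
    Ext.contr i x U = sg {i} U • x (insert i U) := if_neg h

private theorem notMem_sdiff' {I : Type v} [LinearOrder I] {i : I} {U V : Finset I} (h : i ∉ U) :
    i ∉ U \ V := fun h' => h (Finset.mem_sdiff.1 h').1

private theorem notMem_ins {I : Type v} [LinearOrder I] {i j : I} {U : Finset I} (h : i ∉ U) (hij : i ≠ j) :
    i ∉ insert j U := fun h' => (Finset.mem_insert.1 h').elim hij h

private theorem card_ins' {I : Type v} [LinearOrder I] {i : I} {U : Finset I} (h : i ∉ U) :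
    (insert i U).card = U.card + 1 := Finset.card_insert_of_notMem h

private theorem mem_ins' {I : Type v} [LinearOrder I] {i j : I} {U : Finset I} (h : i ∈ U) :
    i ∈ insert j U := Finset.mem_insert_of_mem h

private theorem contr_mapL (a : X →ₗ[ℚ] X) (i : ℕ ⊕ₗ ℕ) (x : Ext (ℕ ⊕ₗ ℕ) X) (U : Finset (ℕ ⊕ₗ ℕ)) :
    Ext.contr i (Ext.mapL a x) U = a (Ext.contr i x U) := by
  by_cases h : i ∈ U
  · have h1 : Ext.contr i (Ext.mapL a x) U = 0 := if_pos h
    have h2 : Ext.contr i x U = 0 := if_pos h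
    rw [h1, h2, map_zero]
  · rw [contr_of h, contr_of h, map_zsmul]
    rfl

private theorem contr_sym {x : Ext (ℕ ⊕ₗ ℕ) X} (hx : IsFam x) (π ρ : Equiv.Perm ℕ) (i : ℕ ⊕ₗ ℕ)
    (U : Finset (ℕ ⊕ₗ ℕ)) : Ext.contr (reIdx π ρ i) x (U.map (reIdx π ρ).toEmbedding) =
      sgE (reIdx π ρ) U • reCoef X π ρ (Ext.contr i x U) := by
  have h : Ext.contr (reIdx π ρ i) (Ext.permF (reIdx π ρ) (Ext.mapL (reCoef X π ρ).toLinearMap x))
      (U.map (reIdx π ρ).toEmbedding) = sgE (reIdx π ρ) U • reCoef X π ρ (Ext.contr i x U) := by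
    rw [Ext.contr_permF, Ext.permF_apply_map, contr_mapL]
    rfl
  rw [hx.sym π ρ] at h
  exact h

private theorem reIdx_cu (π ρ : Equiv.Perm ℕ) (n : ℕ) : reIdx π ρ (cu n) = cu (π n) := rfl

private theorem reIdx_po (π ρ : Equiv.Perm ℕ) (n : ℕ) : reIdx π ρ (po n) = po (ρ n) := rfl

private theorem contr_cube {x : Ext (ℕ ⊕ₗ ℕ) X} (hx : IsFam x) {U : Finset (ℕ ⊕ₗ ℕ)} {n m : ℕ}
    (hn : cu n ∉ U) (hm : cu m ∉ U) (hnm : m ≠ n) :
    CubeAlg.sub (setT m false) (Ext.contr (cu n) x U) = Ext.contr (cu n) x U := by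
  rw [contr_of hn, map_zsmul, hx.cube _ _ (notMem_ins hm fun h => hnm (cu_inj h))]

private theorem dF_aux {x : Ext (ℕ ⊕ₗ ℕ) X} (hx : IsFam x) {U : Finset (ℕ ⊕ₗ ℕ)} {n m : ℕ}
    (hn : cu n ∉ U) (hm : cu m ∉ U) (hnm : m ≠ n) :
    CubeAlg.sub (setT m false) (Ext.contr (cu m) x U) =
      CubeAlg.sub (setT n false) (Ext.contr (cu n) x U) := by
  have hfix : ∀ u ∈ U, reIdx (Equiv.swap n m) 1 u = u := by
    intro u hu
    rcases cases_idx u with ⟨k, rfl⟩ | ⟨s, rfl⟩
    · rw [reIdx_cu, Equiv.swap_apply_of_ne_of_ne]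
      · rintro rfl
        exact hn hu
      · rintro rfl
        exact hm hu
    · rw [reIdx_po]
      rfl
  have hmap : U.map (reIdx (Equiv.swap n m) 1).toEmbedding = U := by
    ext u
    rw [Finset.mem_map]
    constructor
    · rintro ⟨v, hv, rfl⟩
      have h1 : (reIdx (Equiv.swap n m) 1).toEmbedding v = v := hfix v hv
      rw [h1]
      exact hv
    · intro hu
      exact ⟨u, hu, hfix u hu⟩
  have hsg : sgE (reIdx (Equiv.swap n m) 1) U = 1 := by
    have h0 : invsE (reIdx (Equiv.swap n m) 1) U = 0 := by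
      unfold invsE
      rw [Finset.card_eq_zero, Finset.filter_eq_empty_iff]
      rintro ⟨p, q⟩ hpq ⟨h1, h2⟩
      obtain ⟨hp, hq⟩ := Finset.mem_product.1 hpq
      have e1 := hfix p hp
      have e2 := hfix q hq
      have h2' : reIdx (Equiv.swap n m) 1 q < reIdx (Equiv.swap n m) 1 p := h2
      rw [e1, e2] at h2'
      exact lt_asymm h1 h2'
    unfold sgE
    rw [h0, pow_zero]
  have h := contr_sym hx (Equiv.swap n m) 1 (cu n) U
  rw [hmap, hsg, one_smul, reIdx_cu, Equiv.swap_apply_left] at h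
  have hc := contr_cube hx hn hm hnm
  rw [h]
  have h1 : reCoef X (Equiv.swap n m) 1 (Ext.contr (cu n) x U) =
      CubeAlg.sub (fun k => Sum.inl (Equiv.swap n m k)) (Ext.contr (cu n) x U) := by
    have h2 : reCoef X (Equiv.swap n m) 1 (Ext.contr (cu n) x U) =
      CubeAlg.sub (fun k => Sum.inl (Equiv.swap n m k))
        (CubeAlg.pos some (Ext.contr (cu n) x U)) := rfl
    rw [h2, CubeAlg.pos_id]
  rw [h1]
  generalize Ext.contr (cu n) x U = c at hc ⊢
  rw [← hc, CubeAlg.sub_sub, CubeAlg.sub_sub, CubeAlg.sub_sub]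
  refine sub_fun (fun k => ?_) c
  by_cases h2 : k = m
  · subst h2
    simp [setT]
  · by_cases h3 : k = n
    · subst h3
      simp [setT, h2]
    · have h4 : Equiv.swap n m k = k := Equiv.swap_apply_of_ne_of_ne h3 h2
      simp [setT, h2, h3, h4]

theorem dF_eq {x : Ext (ℕ ⊕ₗ ℕ) X} (hx : IsFam x) {U : Finset (ℕ ⊕ₗ ℕ)} {n : ℕ}
    (hn : cu n ∉ U) : dF x U = CubeAlg.sub (setT n false) (Ext.contr (cu n) x U) := by
  by_cases h : fresh U = n
  · unfold dF
    rw [h]
  · exact dF_aux hx hn (fresh_notMem U) h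

/-- a parameter different from `n`, not in `U` -/
private theorem exists_new (U : Finset (ℕ ⊕ₗ ℕ)) (n : ℕ) : ∃ m, cu m ∉ U ∧ m ≠ n := by
  refine ⟨fresh (insert (cu n) U), fun h => ?_, ?_⟩
  · exact fresh_notMem (insert (cu n) U) (Finset.mem_insert_of_mem h)
  · intro h
    have h1 := fresh_notMem (insert (cu n) U)
    rw [h] at h1
    exact h1 (Finset.mem_insert_self _ _)

private theorem reCoef_sub (π ρ : Equiv.Perm ℕ) (m : ℕ) (c : X) :
    CubeAlg.sub (setT (π m) false) (reCoef X π ρ c) =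
      reCoef X π ρ (CubeAlg.sub (setT m false) c) := by
  have h1 : ∀ z : X, reCoef X π ρ z = CubeAlg.sub (fun k => Sum.inl (π k))
      (CubeAlg.pos (fun s => some (ρ.symm s)) z) := fun z => rfl
  rw [h1, h1, ← CubeAlg.sub_pos, CubeAlg.sub_sub, CubeAlg.sub_sub]
  refine sub_fun (fun k => ?_) _
  by_cases h2 : k = m
  · subst h2
    simp [setT]
  · have h3 : π k ≠ π m := fun h => h2 (π.injective h)
    simp [setT, h2, h3]

theorem IsFam.dF {x : Ext (ℕ ⊕ₗ ℕ) X} (hx : IsFam x) : IsFam (dF x) := by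
  refine ⟨?_, ?_, ?_, ?_, ?_, ?_⟩
  · obtain ⟨N, hN⟩ := hx.bdd
    refine ⟨N, fun U hU => ?_⟩
    have hf := fresh_notMem U
    have h1 := card_ins' hf
    rw [dF_eq hx hf, contr_of hf, hN _ (by omega), smul_zero, map_zero]
  · intro U n hn
    obtain ⟨m, hm, hmn⟩ := exists_new U n
    rw [dF_eq hx hm, sub_comm' (Ne.symm hmn), contr_cube hx hm hn (Ne.symm hmn)]
  · intro U n hn
    have hf := fresh_notMem U
    have hne : n ≠ fresh U := by
      intro h
      rw [h] at hn
      exact hf hn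
    rw [dF_eq hx hf, sub_comm' hne, contr_of hf, map_zsmul, hx.face _ _ (mem_ins' hn),
      smul_zero, map_zero]
  · intro U s hs
    have hf := fresh_notMem U
    have h1 := notMem_ins hs (cu_ne_po (fresh U) s)
    rw [dF_eq hx hf, ← CubeAlg.sub_pos, contr_of hf, map_zsmul, hx.posn _ _ h1]
  · intro U s hs
    have hf := fresh_notMem U
    rw [dF_eq hx hf, ← CubeAlg.sub_pos, contr_of hf, map_zsmul, hx.kill _ _ (mem_ins' hs),
      smul_zero, map_zero]
  · intro π ρ
    funext U'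
    obtain ⟨U, rfl⟩ : ∃ U : Finset (ℕ ⊕ₗ ℕ), U' = U.map (reIdx π ρ).toEmbedding := by
      refine ⟨U'.map (reIdx π ρ).symm.toEmbedding, ?_⟩
      ext u
      rw [Finset.mem_map_equiv, Finset.mem_map_equiv]
      simp
    have hf := fresh_notMem U
    have hf' : cu (π (fresh U)) ∉ U.map (reIdx π ρ).toEmbedding := by
      rw [← reIdx_cu π ρ]
      intro h
      obtain ⟨v, hv, hv'⟩ := Finset.mem_map.1 h
      have h1 : v = cu (fresh U) := (reIdx π ρ).injective hv'
      rw [h1] at hv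
      exact hf hv
    rw [Ext.permF_apply_map, dF_eq hx hf', ← reIdx_cu π ρ, contr_sym hx, map_zsmul, reCoef_sub,
      Ext.mapL_apply, dF_eq hx hf]
    rfl

theorem dF_mul {x y : Ext (ℕ ⊕ₗ ℕ) X} (hx : IsFam x) (hy : IsFam y) :
    dF (x * y) = dF x * y + Ext.par x * dF y := by
  funext U
  have hf := fresh_notMem U
  have h1 : dF (x * y) U = CubeAlg.sub (setT (fresh U) false)
      (Ext.contr (cu (fresh U)) (x * y) U) := rfl
  rw [h1, Ext.contr_mul, Ext.add_apply, Ext.add_apply, map_add, Ext.mul_apply, Ext.mul_apply,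
    Ext.mul_apply, Ext.mul_apply, map_sum, map_sum]
  congr 1
  · refine Finset.sum_congr rfl fun V hV => ?_
    have hVU := Finset.mem_powerset.1 hV
    have h2 : cu (fresh U) ∉ V := fun h => hf (hVU h)
    have h3 := notMem_sdiff' (V := V) hf
    rw [map_zsmul, map_mul, hy.cube _ _ h3, dF_eq hx h2]
  · refine Finset.sum_congr rfl fun V hV => ?_
    have hVU := Finset.mem_powerset.1 hV
    have h2 : cu (fresh U) ∉ V := fun h => hf (hVU h)
    have h3 := notMem_sdiff' (V := V) hf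
    rw [map_zsmul, map_mul, Ext.par_apply, map_zsmul, hx.cube _ _ h2, dF_eq hy h3]

theorem dF_par (x : Ext (ℕ ⊕ₗ ℕ) X) : dF (Ext.par x) = -Ext.par (dF x) := by
  funext U
  have hf := fresh_notMem U
  have h1 : ∀ z : Ext (ℕ ⊕ₗ ℕ) X, dF z U = CubeAlg.sub (setT (fresh U) false)
      (Ext.contr (cu (fresh U)) z U) := fun z => rfl
  rw [Ext.neg_apply, Ext.par_apply (dF x) U, h1, h1, contr_of hf, contr_of hf, Ext.par_apply, card_ins' hf,
    map_zsmul, map_zsmul, map_zsmul, pow_succ, mul_neg_one, neg_smul, smul_neg, smul_comm]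

private theorem sg_insert {I : Type v} [LinearOrder I] {i j : I} {U : Finset I} (hj : j ∉ U) :
    sg {i} (insert j U) = sg {i} {j} * sg {i} U := by
  have h1 : insert j U = {j} ∪ U := Finset.insert_eq j U
  have h2 : Disjoint ({j} : Finset I) U := Finset.disjoint_singleton_left.2 hj
  unfold sg
  rw [h1, invs_union_right {i} h2, pow_add]

private theorem sg_swap {I : Type v} [LinearOrder I] {i j : I} (h : i ≠ j) : sg {j} {i} = -sg {i} {j} := by
  have h2 : Disjoint ({i} : Finset I) {j} := Finset.disjoint_singleton.2 h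
  have h3 := invs_add_invs h2
  rw [Finset.card_singleton, Finset.card_singleton, one_mul] at h3
  have h4 : (invs {i} {j} = 0 ∧ invs {j} {i} = 1) ∨ (invs {i} {j} = 1 ∧ invs {j} {i} = 0) := by
    omega
  unfold sg
  rcases h4 with ⟨a, b⟩ | ⟨a, b⟩
  · rw [a, b]; norm_num
  · rw [a, b]; norm_num

theorem dF_dF {x : Ext (ℕ ⊕ₗ ℕ) X} (hx : IsFam x) : dF (dF x) = 0 := by
  have hd := IsFam.dF hx
  funext U
  show dF (dF x) U = 0
  have hf := fresh_notMem U
  obtain ⟨m, hm, hmn⟩ := exists_new U (fresh U)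
  generalize fresh U = n at hf hmn
  have key : ∀ n m : ℕ, cu n ∉ U → cu m ∉ U → m ≠ n → dF (dF x) U =
      sg {cu n} U • CubeAlg.sub (setT n false) (CubeAlg.sub (setT m false)
        (Ext.contr (cu m) x (insert (cu n) U))) := by
    intro n m hn hm hmn
    have h1 := notMem_ins hm fun h => hmn (cu_inj h)
    rw [dF_eq hd hn, contr_of hn, dF_eq hx h1, map_zsmul]
    rfl
  have h1 := notMem_ins hm fun h => hmn (cu_inj h)
  have h2 := notMem_ins hf fun h => hmn (cu_inj h).symm
  have k1 := key n m hf hm hmn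
  have k2 := key m n hm hf (Ne.symm hmn)
  have e1 : Ext.contr (cu m) x (insert (cu n) U) =
      (sg {cu m} {cu n} * sg {cu m} U) • x (insert (cu m) (insert (cu n) U)) := by
    have h3 := contr_of h1 x
    rw [sg_insert hf] at h3
    exact h3
  have e2 : Ext.contr (cu n) x (insert (cu m) U) =
      (-sg {cu m} {cu n} * sg {cu n} U) • x (insert (cu m) (insert (cu n) U)) := by
    have h3 := contr_of h2 x
    rw [sg_insert hm, sg_swap (i := cu m) (j := cu n) (fun h => hmn (cu_inj h)), Finset.insert_comm] at h3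
    exact h3
  rw [e1, map_zsmul, map_zsmul, smul_smul] at k1
  rw [e2, map_zsmul, map_zsmul, smul_smul, sub_comm' hmn] at k2
  have k3 : (sg {cu m} U * (-sg {cu m} {cu n} * sg {cu n} U) : ℤ) =
      -(sg {cu n} U * (sg {cu m} {cu n} * sg {cu m} U)) := by ring
  rw [k3, neg_smul, ← k1] at k2
  have k4 : (2 : ℚ) • dF (dF x) U = 0 := by
    rw [two_smul]
    nth_rewrite 1 [k2]
    exact neg_add_cancel _
  exact (smul_eq_zero.1 k4).resolve_left two_ne_zero

private theorem dF_app (z : Ext (ℕ ⊕ₗ ℕ) X) (U : Finset (ℕ ⊕ₗ ℕ)) :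
    dF z U = CubeAlg.sub (setT (fresh U) false) (Ext.contr (cu (fresh U)) z U) := rfl

theorem dF_add (x y : Ext (ℕ ⊕ₗ ℕ) X) : dF (x + y) = dF x + dF y := by
  funext U
  have hf := fresh_notMem U
  rw [Ext.add_apply, dF_app, dF_app, dF_app, contr_of hf, contr_of hf, contr_of hf, Ext.add_apply,
    smul_add, map_add]

theorem dF_smul (c : ℚ) (x : Ext (ℕ ⊕ₗ ℕ) X) : dF (c • x) = c • dF x := by
  funext U
  have hf := fresh_notMem U
  rw [Ext.smul_apply, dF_app, dF_app, contr_of hf, contr_of hf, Ext.smul_apply, smul_comm, map_smul]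

instance : SDG (Fam X) where
  par := (Ext.par.comp (Fam X).val).codRestrict (Fam X) fun x => IsFam.par x.2
  d :=
    { toFun := fun x => ⟨dF x.1, IsFam.dF x.2⟩
      map_add' := fun x y => Subtype.ext (dF_add _ _)
      map_smul' := fun c x => Subtype.ext (dF_smul _ _) }
  par_par x := Subtype.ext (Ext.par_par _)
  d_par x := Subtype.ext (dF_par _)
  d_d x := Subtype.ext (dF_dF x.2)
  d_mul x y := Subtype.ext (dF_mul x.2 y.2)
  comm x y h := Subtype.ext (Ext.mul_comm_even _ _ (congrArg Subtype.val h))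
  anti x y h h' := Subtype.ext (Ext.mul_comm_odd _ _ (congrArg Subtype.val h)
    (congrArg Subtype.val h'))

theorem coe_par (x : Fam X) : ((SDG.par x : Fam X) : Ext (ℕ ⊕ₗ ℕ) X) = Ext.par x.1 := rfl

theorem coe_d (x : Fam X) : ((SDG.d x : Fam X) : Ext (ℕ ⊕ₗ ℕ) X) = dF x.1 := rfl

end Pool.Agent.SPC
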