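import Pool.Agent.SPC.Alg

/-!
# Transfer for finite extensions of fields

MODULE SPC-Fin.  PLAN.  The law `x ↦ (1 / [K' : K]) Tr(x)`: the trace is the sum of the
`K`-embeddings of `K'` in the algebraic closure `Om K` (`trace_eq_sum_embeddings`, separable since
`K` has characteristic zero: it is a `ℚ`-algebra), the values are in `Bp K` (integral over `K`;
or simply all elements of `Om K` are integral over `K`: `bval K` is bijective).  `IsTr ℚ`:
`isTr_of_sum` with `R = K`, then `IsTr.smul`, `IsTr.toQ`.  The projection formula:
`MA.act_mul_left` with `j = algebraMap K K'`, `j' = id`, `MA.map_id`.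
-/

set_option autoImplicit false

noncomputable section

namespace Pool.Agent.SPC

universe u v w

open SDG

section

variable {K : Type u} {K' : Type v} [Field K] [Field K'] [Algebra K K'] [FiniteDimensional K K']

private theorem emb_int (σ : K' →ₐ[K] Om K) (x : K') : σ x ∈ integralClosure K (Om K) := by
  have h : IsIntegral K x := Algebra.IsIntegral.isIntegral x
  exact h.map σ

/-- The embeddings have values in the absolute integral closure. -/
private def emb (σ : K' →ₐ[K] Om K) : K' →ₐ[K] Bp K where
  toRingHom := (σ.codRestrict (integralClosure K (Om K)) (emb_int σ)).toRingHom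
  commutes' r := by
    apply bval_injective K
    rw [algebraMap_Bp]
    change σ (algebraMap K K' r) = algebraMap K (Om K) r
    exact σ.commutes r

private theorem bval_emb (σ : K' →ₐ[K] Om K) (x : K') : bval K (emb σ x) = σ x := rfl

private theorem tr_sum [Algebra ℚ K] (x : K') :
    incl K (Algebra.trace K K' x) = ∑ σ : K' →ₐ[K] Om K, emb σ x := by
  have : CharZero K := algebraRat.charZero K
  apply bval_injective K
  rw [map_sum]
  simp only [bval_emb]
  exact trace_eq_sum_embeddings (K := K) (L := K') (Om K) (x := x)

private theorem isTr_trace [Algebra ℚ K] :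
    IsTr K (fun x : K' => Algebra.trace K K' x) :=
  isTr_of_sum Finset.univ (fun σ : K' →ₐ[K] Om K => emb σ) _ tr_sum

end

/-- MODULE SPC-Fin -/
theorem MA.exists_transfer {K K' : Type u} [Field K] [Field K'] [Algebra ℚ K] [Algebra ℚ K']
    [Algebra K K'] [FiniteDimensional K K'] :
    ∃ t : MA K' →ₗ[ℚ] MA K, (∀ x, t (d x) = d (t x)) ∧ (∀ x, t (par x) = par (t x)) ∧
      (∀ a b, t (MA.map (algebraMap K K') a * b) = a * t b) ∧ t 1 = 1 := by
  have : CharZero K := algebraRat.charZero K
  obtain ⟨c, hc⟩ : ∃ c : ℚ, c = (Module.finrank K K' : ℚ)⁻¹ := ⟨_, rfl⟩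
  have hn : (Module.finrank K K' : K) ≠ 0 := by
    rw [Nat.cast_ne_zero]
    exact Module.finrank_pos.ne'
  have h : IsTr ℚ (fun x : K' => c • Algebra.trace K K' x) := (isTr_trace.smul c).toQ
  refine ⟨MA.act _ h, fun x => MA.act_d _ h x, fun x => MA.act_par _ h x, fun a b => ?_, ?_⟩
  · have h1 := MA.act_mul_left (D := K) _ h (algebraMap K K') (RingHom.id K) (fun x z => by
      have e : x * algebraMap K K' z = z • x := by rw [Algebra.smul_def, mul_comm]
      show c • Algebra.trace K K' (x * algebraMap K K' z) = (c • Algebra.trace K K' x) * z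
      rw [e, map_smul, smul_eq_mul, smul_mul_assoc, mul_comm z]) b a
    rw [h1, MA.map_id]
  · refine MA.act_one _ h ?_
    show c • Algebra.trace K K' 1 = 1
    have h2 : Algebra.trace K K' 1 = (Module.finrank K K' : K) := by
      have h3 := Algebra.trace_algebraMap (R := K) (S := K') (1 : K)
      rw [map_one, nsmul_one] at h3
      exact h3
    rw [h2, hc, Algebra.smul_def, map_inv₀, map_natCast, inv_mul_cancel₀ hn]

end Pool.Agent.SPC
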