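import Pool.Agent.SPC.Crd

/-!
# Change of the base point

MODULE SPC-HBase. PLAN. Write `Lp i = A.map (X.setPt P (f i))`, `Lx i = A.map (X.setPt x₀ (f i))`,
`Lσ = A.map (X.permF f σ)`. By `Crd.hom_ext` and `A.map_comp_apply`:
* `Lx i (Lp i b) = Lp i b` (`setPt x₀ t ∘ setPt P t = setPt P t`), `Lp i (Lp i b) = Lp i b`; for `i ≠ j`
  the operators with index `i` and `j` commute (any points).
* `Lσ (Lp i b) = Lp (σ i) (Lσ b)`, the same for `Lx`.
For a list `l` of indices let `Rp l` be the composition of the `1 - Lp i`, `i ∈ l`, and `Rx l` of the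
`1 - Lx i` (recursion: `R [] = id`, `R (i :: l) = (1 - L i) ∘ R l`). By induction on `l`:
(1) `i ∈ l → Lp i (Rp l a) = 0`; (2) `i ∈ l → Rx l (Lp i b) = 0` (if `i ∉ l'` commute `Lp i` with
`Rx l'`, then `(1 - Lx i) Lp i = 0`); (3) `Rp l a - a` is a sum of elements `Lp i b`, `i ∈ l`;
(4) `Rx l a = a` if all `Lx i a = 0`; (5) `Rp l`, `Rx l` commute with `d`, `par` and the right
multiplication by `A.map X.c b` (`setPt` fixes `X.c w`).
Let `l = List.finRange n`, `H' = Rx l ∘ H ∘ Rp l`. If all `Lx i a = 0`, put `a' = Rp l a`; by (1) the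
hypothesis applies: `d (H a') + H (d a') = ∑ Lσ a'`, so `d (H' a) + H' (d a) = Rx l (∑ Lσ a')`. By (3)
`∑ Lσ a' = ∑ Lσ a + ` (sum of elements `Lσ (Lp i b) = Lp (σ i) (Lσ b)`, killed by `Rx l`, (2)), and
`Lx i (∑ Lσ a) = ∑ Lσ (Lx (σ⁻¹ i) a) = 0`, so `Rx l (∑ Lσ a) = ∑ Lσ a` by (4).
-/

noncomputable section

namespace Pool.Agent.SPC

universe u v w

open SDG

variable {k S Om B : Type u} [Field k] [CommRing S] [Algebra k S] [CommRing Om] [IsDomain Om]
  [HasRat Om] [Algebra k Om] [CommRing B] [IsDomain B] [HasRat B] [Algebra k B] {T : Type}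
  [Fintype T] [DecidableEq T]

section rel

omit [IsDomain Om] [HasRat Om] [IsDomain B] [HasRat B]

variable (X : Crd k S Om B T) (P Q : S →ₐ[k] k)

private theorem setPt_c (t : T) (w : Om) : X.setPt P t (X.c w) = X.c w := by
  rw [Crd.setPt, Crd.sub_c]

private theorem setPt_x_self (t : T) (s : S) : X.setPt P t (X.x t s) = algebraMap k B (P s) := by
  rw [Crd.setPt, Crd.sub_x, Function.update_self]
  rfl

private theorem setPt_x_ne {t t' : T} (h : t' ≠ t) (s : S) : X.setPt P t (X.x t' s) = X.x t' s := by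
  rw [Crd.setPt, Crd.sub_x, Function.update_of_ne h]

private theorem permF_x {n : ℕ} (f : Fin n ↪ T) (σ : Equiv.Perm (Fin n)) (i : Fin n) (s : S) :
    X.permF f σ (X.x (f i) s) = X.x (f (σ i)) s := by
  rw [Crd.permF, Crd.sub_x, Equiv.Perm.viaFintypeEmbedding_apply_image]

private theorem permF_x_not {n : ℕ} (f : Fin n ↪ T) (σ : Equiv.Perm (Fin n)) {t : T} (ht : t ∉ Set.range f)
    (s : S) : X.permF f σ (X.x t s) = X.x t s := by
  rw [Crd.permF, Crd.sub_x, Equiv.Perm.viaFintypeEmbedding_apply_notMem_range _ _ ht]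

private theorem permF_c {n : ℕ} (f : Fin n ↪ T) (σ : Equiv.Perm (Fin n)) (w : Om) :
    X.permF f σ (X.c w) = X.c w := by
  rw [Crd.permF, Crd.sub_c]

private theorem rel_same (t : T) :
    (X.setPt Q t : B →+* B).comp (X.setPt P t : B →+* B) = (X.setPt P t : B →+* B) := by
  refine X.hom_ext (fun w => ?_) (fun t' s => ?_)
  · change X.setPt Q t (X.setPt P t (X.c w)) = X.setPt P t (X.c w)
    rw [setPt_c, setPt_c]
  · change X.setPt Q t (X.setPt P t (X.x t' s)) = X.setPt P t (X.x t' s)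
    by_cases h : t' = t
    · subst h
      rw [setPt_x_self]
      exact (X.setPt Q t').commutes _
    · rw [setPt_x_ne X P h, setPt_x_ne X Q h]

private theorem rel_comm {t t' : T} (h : t ≠ t') :
    (X.setPt Q t : B →+* B).comp (X.setPt P t' : B →+* B) =
      (X.setPt P t' : B →+* B).comp (X.setPt Q t : B →+* B) := by
  refine X.hom_ext (fun w => ?_) (fun r s => ?_)
  · change X.setPt Q t (X.setPt P t' (X.c w)) = X.setPt P t' (X.setPt Q t (X.c w))
    rw [setPt_c, setPt_c, setPt_c]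
  · change X.setPt Q t (X.setPt P t' (X.x r s)) = X.setPt P t' (X.setPt Q t (X.x r s))
    by_cases h1 : r = t
    · subst h1
      rw [setPt_x_ne X P h, setPt_x_self]
      exact ((X.setPt P t').commutes _).symm
    · rw [setPt_x_ne X Q h1]
      by_cases h2 : r = t'
      · subst h2
        rw [setPt_x_self]
        exact (X.setPt Q t).commutes _
      · rw [setPt_x_ne X P h2, setPt_x_ne X Q h1]

private theorem rel_perm {n : ℕ} (f : Fin n ↪ T) (σ : Equiv.Perm (Fin n)) (i : Fin n) :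
    (X.permF f σ : B →+* B).comp (X.setPt P (f i) : B →+* B) =
      (X.setPt P (f (σ i)) : B →+* B).comp (X.permF f σ : B →+* B) := by
  refine X.hom_ext (fun w => ?_) (fun r s => ?_)
  · change X.permF f σ (X.setPt P (f i) (X.c w)) = X.setPt P (f (σ i)) (X.permF f σ (X.c w))
    rw [setPt_c, permF_c, setPt_c]
  · change X.permF f σ (X.setPt P (f i) (X.x r s)) = X.setPt P (f (σ i)) (X.permF f σ (X.x r s))
    by_cases h1 : r ∈ Set.range f
    · obtain ⟨j, rfl⟩ := h1
      rw [permF_x]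
      by_cases h2 : j = i
      · subst h2
        rw [setPt_x_self, setPt_x_self]
        exact (X.permF f σ).commutes _
      · rw [setPt_x_ne X P (fun h => h2 (f.injective h)), permF_x,
          setPt_x_ne X P (fun h => h2 (σ.injective (f.injective h)))]
    · rw [permF_x_not X f σ h1, setPt_x_ne X P (fun h => h1 ⟨i, h.symm⟩), permF_x_not X f σ h1,
        setPt_x_ne X P (fun h => h1 ⟨σ i, h.symm⟩)]

private theorem rel_c (t : T) : (X.setPt P t : B →+* B).comp (X.c : Om →+* B) = (X.c : Om →+* B) :=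
  RingHom.ext fun w => setPt_c X P t w

end rel

section abs

variable {V : Type u} [AddCommGroup V] [Module ℚ V] {n : ℕ}

/-- Composition of the `1 - L i`. -/
private def RR (L : Fin n → V →ₗ[ℚ] V) : List (Fin n) → V →ₗ[ℚ] V
  | [] => LinearMap.id
  | i :: l => (LinearMap.id - L i) ∘ₗ RR L l

private theorem RR_nil (L : Fin n → V →ₗ[ℚ] V) (a : V) : RR L [] a = a := rfl

private theorem RR_cons (L : Fin n → V →ₗ[ℚ] V) (i : Fin n) (l : List (Fin n)) (a : V) :
    RR L (i :: l) a = RR L l a - L i (RR L l a) := rfl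

private theorem RR_one {L : Fin n → V →ₗ[ℚ] V} (hs : ∀ i a, L i (L i a) = L i a)
    (hc : ∀ i j, i ≠ j → ∀ a, L i (L j a) = L j (L i a)) {i : Fin n} {l : List (Fin n)} (h : i ∈ l) (a : V) :
    L i (RR L l a) = 0 := by
  induction l with
  | nil => exact absurd h List.not_mem_nil
  | cons j l ih =>
    rw [RR_cons, map_sub]
    by_cases hij : i = j
    · subst hij
      rw [hs, sub_self]
    · have h1 : i ∈ l := (List.mem_cons.1 h).resolve_left hij
      rw [hc i j hij, ih h1, map_zero, sub_zero]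

private theorem RR_comm {L : Fin n → V →ₗ[ℚ] V} (M : V →ₗ[ℚ] V) {l : List (Fin n)}
    (h : ∀ j ∈ l, ∀ a, L j (M a) = M (L j a)) (a : V) : RR L l (M a) = M (RR L l a) := by
  induction l with
  | nil => rfl
  | cons j l ih =>
    rw [RR_cons, RR_cons, ih (fun i hi => h i (List.mem_cons_of_mem _ hi)), map_sub,
      h j List.mem_cons_self]

private theorem RR_two {L M : Fin n → V →ₗ[ℚ] V} (hs : ∀ i a, L i (M i a) = M i a)
    (hc : ∀ i j, i ≠ j → ∀ a, L i (M j a) = M j (L i a)) {i : Fin n} {l : List (Fin n)} (h : i ∈ l) (a : V) :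
    RR L l (M i a) = 0 := by
  induction l with
  | nil => exact absurd h List.not_mem_nil
  | cons j l ih =>
    rw [RR_cons]
    by_cases h1 : i ∈ l
    · rw [ih h1, map_zero, sub_zero]
    · have h2 : i = j := (List.mem_cons.1 h).resolve_right h1
      subst h2
      rw [RR_comm (M i) (fun j hj b => hc j i (fun h3 => h1 (h3 ▸ hj)) b), hs, sub_self]

private theorem RR_three (L : Fin n → V →ₗ[ℚ] V) (l : List (Fin n)) (a : V) :
    RR L l a - a ∈ Submodule.span ℚ {v : V | ∃ i b, v = L i b} := by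
  induction l with
  | nil =>
    rw [RR_nil, sub_self]
    exact Submodule.zero_mem _
  | cons j l ih =>
    have h1 : RR L (j :: l) a - a = (RR L l a - a) - L j (RR L l a) := by
      rw [RR_cons]
      abel
    rw [h1]
    exact Submodule.sub_mem _ ih (Submodule.subset_span ⟨j, _, rfl⟩)

private theorem RR_four {L : Fin n → V →ₗ[ℚ] V} (l : List (Fin n)) {a : V} (h : ∀ i, L i a = 0) :
    RR L l a = a := by
  induction l with
  | nil => rfl
  | cons j l ih => rw [RR_cons, ih, h, sub_zero]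

private theorem RR_fun {L : Fin n → V →ₗ[ℚ] V} (φ : V → V) (hφ : ∀ a b, φ (a - b) = φ a - φ b)
    (h : ∀ i a, L i (φ a) = φ (L i a)) (l : List (Fin n)) (a : V) : RR L l (φ a) = φ (RR L l a) := by
  induction l with
  | nil => rfl
  | cons j l ih => rw [RR_cons, RR_cons, ih, hφ, h]

end abs

/-- The symmetriser of `n` coordinates is a homotopy on the elements that vanish when one of the
coordinates is `P`. -/
def SymNull (A : DGF.{u}) (X : Crd k S Om B T) {n : ℕ} (f : Fin n ↪ T) (P : S →ₐ[k] k) : Prop :=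
  ∃ H : A.obj B →ₗ[ℚ] A.obj B, (∀ a, H (par a) = -par (H a)) ∧
    (∀ a b, H (a * A.map (X.c : Om →+* B) b) = H a * A.map (X.c : Om →+* B) b) ∧
    ∀ a, (∀ i, A.map (X.setPt P (f i) : B →+* B) a = 0) →
      d (H a) + H (d a) = ∑ σ : Equiv.Perm (Fin n), A.map (X.permF f σ : B →+* B) a

theorem SymNull.base {A : DGF.{u}} {X : Crd k S Om B T} {n : ℕ} {f : Fin n ↪ T} {P : S →ₐ[k] k}
    (h : SymNull A X f P) (x₀ : S →ₐ[k] k) : SymNull A X f x₀ := by
  obtain ⟨H, hH1, hH2, hH3⟩ := h
  obtain ⟨L, hL⟩ : ∃ L : (B →+* B) → (A.obj B →ₗ[ℚ] A.obj B), ∀ g a, L g a = A.map g a :=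
    ⟨fun g => (A.map g).toAlgHom.toLinearMap, fun g a => rfl⟩
  have hLd : ∀ g a, L g (d a) = d (L g a) := fun g a => by rw [hL, hL, SHom.map_d]
  have hLp : ∀ g a, L g (par a) = par (L g a) := fun g a => by rw [hL, hL, SHom.map_par]
  have hLm : ∀ g a b, L g (a * b) = L g a * L g b := fun g a b => by rw [hL, hL, hL, map_mul]
  have hLc : ∀ g g' a, L g (L g' a) = L (g.comp g') a := fun g g' a => by rw [hL, hL, hL, A.map_comp_apply]
  have hm : ∀ (Q : S →ₐ[k] k) (t : T) (b : A.obj Om),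
      L (X.setPt Q t : B →+* B) (A.map (X.c : Om →+* B) b) = A.map (X.c : Om →+* B) b := by
    intro Q t b
    rw [hL, ← A.map_comp_apply, rel_c]
  simp only [← hL] at hH3
  obtain ⟨Lp, hLp'⟩ : ∃ Lp : Fin n → (A.obj B →ₗ[ℚ] A.obj B), ∀ i, Lp i = L (X.setPt P (f i) : B →+* B) :=
    ⟨_, fun i => rfl⟩
  obtain ⟨Lx, hLx'⟩ : ∃ Lx : Fin n → (A.obj B →ₗ[ℚ] A.obj B), ∀ i, Lx i = L (X.setPt x₀ (f i) : B →+* B) :=
    ⟨_, fun i => rfl⟩
  have hl : ∀ i, i ∈ List.finRange n := List.mem_finRange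
  have hne : ∀ {i j : Fin n}, i ≠ j → f i ≠ f j := fun hij he => hij (f.injective he)
  -- relations
  have r1 : ∀ i a, Lp i (Lp i a) = Lp i a := fun i a => by rw [hLp', hLc, rel_same]
  have r2 : ∀ i j, i ≠ j → ∀ a, Lp i (Lp j a) = Lp j (Lp i a) := fun i j hij a => by
    rw [hLp', hLp', hLc, hLc, rel_comm X P P (hne hij)]
  have r3 : ∀ i a, Lx i (Lp i a) = Lp i a := fun i a => by rw [hLp', hLx', hLc, rel_same]
  have r4 : ∀ i j, i ≠ j → ∀ a, Lx i (Lp j a) = Lp j (Lx i a) := fun i j hij a => by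
    rw [hLp', hLx', hLc, hLc, rel_comm X P x₀ (hne hij)]
  have r5 : ∀ (σ : Equiv.Perm (Fin n)) i a, L (X.permF f σ : B →+* B) (Lp i a) =
      Lp (σ i) (L (X.permF f σ : B →+* B) a) := fun σ i a => by
    rw [hLp', hLp', hLc, hLc, rel_perm]
  have r6 : ∀ (σ : Equiv.Perm (Fin n)) i a, L (X.permF f σ : B →+* B) (Lx i a) =
      Lx (σ i) (L (X.permF f σ : B →+* B) a) := fun σ i a => by
    rw [hLx', hLx', hLc, hLc, rel_perm]
  have dp : ∀ l a, RR Lp l (d a) = d (RR Lp l a) := fun l a =>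
    RR_fun (fun a => d a) (fun a b => map_sub _ _ _) (fun i a => by rw [hLp', hLd]) l a
  have dx : ∀ l a, RR Lx l (d a) = d (RR Lx l a) := fun l a =>
    RR_fun (fun a => d a) (fun a b => map_sub _ _ _) (fun i a => by rw [hLx', hLd]) l a
  have pp : ∀ l a, RR Lp l (par a) = par (RR Lp l a) := fun l a =>
    RR_fun (fun a => par a) (fun a b => map_sub _ _ _) (fun i a => by rw [hLp', hLp]) l a
  have px : ∀ l a, RR Lx l (par a) = par (RR Lx l a) := fun l a =>
    RR_fun (fun a => par a) (fun a b => map_sub _ _ _) (fun i a => by rw [hLx', hLp]) l a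
  have mp : ∀ l a b, RR Lp l (a * A.map (X.c : Om →+* B) b) = RR Lp l a * A.map (X.c : Om →+* B) b := fun l a b =>
    RR_fun (fun a => a * A.map (X.c : Om →+* B) b) (fun a b => sub_mul _ _ _)
      (fun i a => by rw [hLp', hLm, hm]) l a
  have mx : ∀ l a b, RR Lx l (a * A.map (X.c : Om →+* B) b) = RR Lx l a * A.map (X.c : Om →+* B) b := fun l a b =>
    RR_fun (fun a => a * A.map (X.c : Om →+* B) b) (fun a b => sub_mul _ _ _)
      (fun i a => by rw [hLx', hLm, hm]) l a
  refine ⟨RR Lx (List.finRange n) ∘ₗ H ∘ₗ RR Lp (List.finRange n), fun a => ?_, fun a b => ?_, fun a ha => ?_⟩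
  · simp only [LinearMap.comp_apply]
    rw [pp, hH1, map_neg, px]
  · simp only [LinearMap.comp_apply]
    rw [mp, hH2, mx]
  · simp only [LinearMap.comp_apply]
    have ha' : ∀ i, Lx i a = 0 := fun i => by rw [hLx', hL]; exact ha i
    have h1 := hH3 (RR Lp (List.finRange n) a) (fun i => by
      have := RR_one r1 r2 (hl i) a
      rw [hLp'] at this
      exact this)
    have h2 := congrArg (RR Lx (List.finRange n)) h1
    rw [map_add, dx, ← dp, map_sum] at h2
    rw [h2]
    refine Finset.sum_congr rfl fun σ _ => ?_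
    have h3 := RR_three Lp (List.finRange n) a
    have h4 : ∀ v ∈ Submodule.span ℚ {v : A.obj B | ∃ i b, v = Lp i b},
        RR Lx (List.finRange n) (L (X.permF f σ : B →+* B) v) = 0 := by
      intro v hv
      induction hv using Submodule.span_induction with
      | mem v hv =>
        obtain ⟨i, b, rfl⟩ := hv
        rw [r5]
        exact RR_two r3 r4 (hl _) _
      | zero => rw [map_zero, map_zero]
      | add v w _ _ hv hw => rw [map_add, map_add, hv, hw, add_zero]
      | smul c v _ hv => rw [map_smul, map_smul, hv, smul_zero]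
    have h5 := h4 _ h3
    rw [map_sub, map_sub, sub_eq_zero] at h5
    rw [h5, ← hL]
    refine RR_four _ fun i => ?_
    have h6 := r6 σ (σ.symm i) a
    rw [Equiv.apply_symm_apply, ha', map_zero] at h6
    exact h6.symm

end Pool.Agent.SPC
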