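import Mathlib

/-!
# SPC, part P: ideals of group algebras of symmetric groups (definitions)

`pe σ`: the permutation `σ` in the group algebra. `via f ρ`: extension of the permutation `ρ` by the identity along the embedding `f`; `push f`: the same on
group algebras. `symm e n`: the plain (`e = false`) or signed (`e = true`) symmetriser. `J e n X`: the ideal generated by the symmetrisers of `n` points.
`blk e m i`: the symmetriser of `m` blocks of size `i`.
-/

noncomputable section

namespace Pool.Agent.SPC

open Equiv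

/-- The group algebra of the group of permutations. -/
abbrev QS (X : Type) : Type := MonoidAlgebra ℚ (Perm X)

/-- A permutation as an element of the group algebra. -/
def pe {X : Type} (σ : Perm X) : QS X := MonoidAlgebra.of ℚ (Perm X) σ

/-- Extension by the identity along an embedding. -/
abbrev via {X Y : Type} (f : X ↪ Y) : Perm X →* Perm Y := Perm.viaEmbeddingHom f

/-- Extension by the identity on group algebras. -/
def push {X Y : Type} (f : X ↪ Y) : QS X →ₐ[ℚ] QS Y := MonoidAlgebra.mapDomainAlgHom ℚ ℚ (via f)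

/-- The trivial character or the sign. -/
def chr (e : Bool) {n : ℕ} (ρ : Perm (Fin n)) : ℚ := if e then ((Perm.sign ρ : ℤ) : ℚ) else 1

/-- The plain or signed symmetriser. -/
def symm (e : Bool) (n : ℕ) : QS (Fin n) := ∑ ρ : Perm (Fin n), chr e ρ • pe ρ

/-- The ideal generated by the symmetrisers of `n` points. -/
def J (e : Bool) (n : ℕ) (X : Type) : Submodule ℚ (QS X) :=
  Submodule.span ℚ {x | ∃ (σ : Perm X) (f : Fin n ↪ X), x = pe σ * push f (symm e n)}

/-- The symmetriser of `m` blocks of size `i`. -/
def blk (e : Bool) (m i : ℕ) : QS (Fin m × Fin i) :=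
  ∑ τ : Perm (Fin m), chr e τ • pe (Equiv.prodCongr τ (Equiv.refl (Fin i)))

/-- No decreasing subsequence of length `a`. -/
def Good (a : ℕ) {m : ℕ} (σ : Perm (Fin m)) : Prop :=
  ¬ ∃ p : Fin a → Fin m, StrictMono p ∧ ∀ i j, i < j → σ (p j) < σ (p i)

/-- Lexicographic order of permutations. -/
def LexLT {m : ℕ} (σ τ : Perm (Fin m)) : Prop := ∃ i, (∀ j < i, σ j = τ j) ∧ σ i < τ i

/-- All signed (`e = true`) or plain sums of `x` over `a` points vanish. -/
def Rel (e : Bool) (a : ℕ) {m : ℕ} (x : Perm (Fin m) → ℚ) : Prop :=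
  ∀ (σ : Perm (Fin m)) (f : Fin a ↪ Fin m), ∑ ρ : Perm (Fin a), chr e ρ * x (σ * via f ρ) = 0

/-- The function `τ ↦ 1` if `w ∘ τ = w'`, `0` otherwise. -/
def Fw {m d : ℕ} (w w' : Fin m → Fin d) (τ : Perm (Fin m)) : ℚ :=
  open Classical in if ∀ i, w (τ i) = w' i then 1 else 0

end Pool.Agent.SPC
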