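import Pool.Agent.SPC.TC
import Pool.Agent.SPC.PDefs

/-!
# SPC, part K: families of cochains on products of a curve (definitions)

Labels of points are pairs `(b, r)`, `b : Fin n` a block and `r : Fin l` a position in the block. A
substitution replaces each label by a label, or by the base point (`false`) or the end point (`true`).
`Env`: a supercommutative differential ring `C` (cochains on the `n * l`-th power of the
curve) with substitutions, values `e p a` of `a : Cs` at the points, constants `cst : C₀ → C` and the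
evaluation `Ev` of all points at the end point.

A family `Ψ : (Fin n → ℕ) → (N.I → C)` assigns to each type `i` (block `b` has the `i b + 1` points
`(b, 0), …, (b, i b)`) an element of the twisted complex `N` with coefficients in `C`. `E.V N` are
the families which are reduced (zero if a point of the type is replaced by the base point,
independent of the other points) and zero on types with a block of length `≥ l`. `E.del` merges two
neighbouring points of a block or puts its last point at the end point, `E.act σ` permutes the blocks.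
-/

noncomputable section

namespace Pool.Agent.SPC

universe u

open SDG Equiv

/-- Labels. -/
abbrev Lb (n l : ℕ) : Type := Fin n × Fin l

/-- Substitutions: a label, the base point (`inr false`) or the end point (`inr true`). -/
abbrev Sb (n l : ℕ) : Type := Lb n l → Lb n l ⊕ Bool

/-- First `z`, then `y`. -/
def Sb.comp {n l : ℕ} (y z : Sb n l) : Sb n l := fun t => Sum.elim y Sum.inr (z t)

/-- Replace the label `t` by the base point. -/
def kill {n l : ℕ} (t : Lb n l) : Sb n l := fun s => if s = t then Sum.inr false else Sum.inl s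

/-- Permutation of the blocks. -/
def pm {n l : ℕ} (σ : Perm (Fin n)) : Sb n l := fun t => Sum.inl (σ t.1, t.2)

/-- Permutation of the points of the blocks `β a` in the positions `0, …, m`. -/
def bp {n l q : ℕ} (β : Fin q ↪ Fin n) (m : ℕ) (τ : Perm (Fin q)) : Sb n l :=
  fun t => if (t.2 : ℕ) ≤ m then Sum.inl (via β τ t.1, t.2) else Sum.inl t

/-- In the block `b` with the points `0, …, m + 1`: merge the points `j` and `j + 1` (`j ≤ m`), or put
the point `m + 1` at the end point (`j = m + 1`). -/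
def dl {n l : ℕ} (b : Fin n) (j m : ℕ) : Sb n l := fun t =>
  if t.1 = b then
    if j ≤ m then
      if (t.2 : ℕ) ≤ j then Sum.inl t
      else Sum.inl (t.1, ⟨(t.2 : ℕ) - 1, lt_of_le_of_lt (Nat.sub_le _ _) t.2.isLt⟩)
    else if (t.2 : ℕ) = m + 1 then Sum.inr true else Sum.inl t
  else Sum.inl t

/-- One more point in the block `b`. -/
def inc {n : ℕ} (i : Fin n → ℕ) (b : Fin n) : Fin n → ℕ := Function.update i b (i b + 1)

/-- The sign of a position in the sequence of blocks. -/
def bs {n : ℕ} (i : Fin n → ℕ) (b : Fin n) : ℚ := ∏ c ∈ Finset.univ.filter fun c => c < b, (-1) ^ i c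

/-- The sign of a permutation of blocks of degrees `i (σ c)`. -/
def kp {n : ℕ} (σ : Perm (Fin n)) (i : Fin n → ℕ) : ℚ :=
  ∏ p ∈ (Finset.univ : Finset (Fin n × Fin n)).filter (fun p => p.1 < p.2 ∧ σ p.2 < σ p.1),
    (-1) ^ (i (σ p.1) * i (σ p.2))

/-- Cochains on powers of a curve. -/
structure Env (n l : ℕ) (Cs C₀ C : Type u) [Ring Cs] [Algebra ℚ Cs] [SDG Cs] [Ring C₀]
    [Algebra ℚ C₀] [SDG C₀] [Ring C] [Algebra ℚ C] [SDG C] where
  L : Sb n l → SHom C C
  L_L : ∀ y z c, L y (L z c) = L (y.comp z) c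
  L_id : ∀ c, L Sum.inl c = c
  e : Lb n l ⊕ Bool → SHom Cs C
  L_e : ∀ y p a, L y (e p a) = e (Sum.elim y Sum.inr p) a
  cst : SHom C₀ C
  L_cst : ∀ y a, L y (cst a) = cst a
  val : Bool → SHom Cs C₀
  e_val : ∀ b a, e (Sum.inr b) a = cst (val b a)
  Ev : SHom C C₀
  Ev_cst : ∀ a, Ev (cst a) = a
  Ev_e : ∀ t a, Ev (e (Sum.inl t) a) = val true a
  Ev_L : ∀ y, (∀ t, y t ≠ Sum.inr false) → ∀ c, Ev (L y c) = Ev c

namespace Env

variable {n l : ℕ} {Cs C₀ C : Type u} [Ring Cs] [Algebra ℚ Cs] [SDG Cs] [Ring C₀]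
    [Algebra ℚ C₀] [SDG C₀] [Ring C] [Algebra ℚ C] [SDG C] (E : Env n l Cs C₀ C)

/-- `c` is reduced in the points `(b, r)`, `r ≤ i b`, and independent of the other points. -/
def Red (i : Fin n → ℕ) (c : C) : Prop :=
  (∀ t : Lb n l, (t.2 : ℕ) ≤ i t.1 → E.L (kill t) c = 0) ∧
    ∀ t : Lb n l, i t.1 < (t.2 : ℕ) → E.L (kill t) c = c

/-- The (signed) symmetriser of the blocks `β a` with `m + 1` points is homotopic to zero. -/
def Null (m q : ℕ) (β : Fin q ↪ Fin n) : Prop :=
  ∃ H : C →ₗ[ℚ] C, (∀ a, H (par a) = -par (H a)) ∧ (∀ a b, H (a * E.cst b) = H a * E.cst b) ∧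
    ∀ c, (∀ t : Lb n l, t.1 ∈ Set.range β → (t.2 : ℕ) ≤ m → E.L (kill t) c = 0) →
      d (H c) + H (d c) = ∑ τ : Perm (Fin q), chr (decide (m % 2 = 1)) τ • E.L (bp β m τ) c

/-- Families with coefficients in `C`. -/
abbrev Fam (_ : Env n l Cs C₀ C) (N : TC C₀) : Type u := (Fin n → ℕ) → N.I → C

/-- Substitution in an element of `N`. -/
def Lv (N : TC C₀) (y : Sb n l) : (N.I → C) →ₗ[ℚ] (N.I → C) where
  toFun f a := E.L y (f a)
  map_add' f g := by
    funext a
    exact map_add _ _ _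
  map_smul' c f := by
    funext a
    exact map_smul (E.L y) c (f a)

theorem Lv_apply (N : TC C₀) (y : Sb n l) (f : N.I → C) (a : N.I) :
    E.Lv N y f a = E.L y (f a) := rfl

/-- The differential of `N` with coefficients in `C`. -/
def dN (N : TC C₀) : (N.I → C) →ₗ[ℚ] (N.I → C) := (N.map E.cst).dif

theorem dN_apply (N : TC C₀) (f : N.I → C) (a : N.I) :
    E.dN N f a = d (f a) + ∑ b, par (f b) * E.cst (N.D b a) := rfl

/-- The differential on families. -/
def dif (N : TC C₀) : E.Fam N →ₗ[ℚ] E.Fam N where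
  toFun Ψ i := E.dN N (Ψ i)
  map_add' Ψ Ψ' := by
    funext i
    exact map_add _ _ _
  map_smul' c Ψ := by
    funext i
    exact map_smul (E.dN N) c (Ψ i)

theorem dif_apply (N : TC C₀) (Ψ : E.Fam N) (i : Fin n → ℕ) : E.dif N Ψ i = E.dN N (Ψ i) := rfl

/-- The face operator on families. -/
def del (N : TC C₀) : E.Fam N →ₗ[ℚ] E.Fam N where
  toFun Ψ i := ∑ b, bs i b • ∑ j ∈ Finset.range (i b + 2),
    ((-1 : ℚ) ^ (i b + 1 + j)) • E.Lv N (dl b j (i b)) (Ψ (inc i b))
  map_add' Ψ Ψ' := by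
    funext i
    simp only [Pi.add_apply, map_add, smul_add, Finset.sum_add_distrib]
  map_smul' c Ψ := by
    funext i
    simp only [Pi.smul_apply, map_smul, RingHom.id_apply, Finset.smul_sum, smul_comm c]

theorem del_apply (N : TC C₀) (Ψ : E.Fam N) (i : Fin n → ℕ) :
    E.del N Ψ i = ∑ b, bs i b • ∑ j ∈ Finset.range (i b + 2),
      ((-1 : ℚ) ^ (i b + 1 + j)) • E.Lv N (dl b j (i b)) (Ψ (inc i b)) := rfl

/-- Permutation of the blocks (not of the coefficients in `N`). -/
def act (N : TC C₀) (σ : Perm (Fin n)) : E.Fam N →ₗ[ℚ] E.Fam N where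
  toFun Ψ i := kp σ i • E.Lv N (pm σ) (Ψ (i ∘ σ))
  map_add' Ψ Ψ' := by
    funext i
    simp only [Pi.add_apply, map_add, smul_add]
  map_smul' c Ψ := by
    funext i
    simp only [Pi.smul_apply, map_smul, RingHom.id_apply, smul_comm c]

theorem act_apply (N : TC C₀) (σ : Perm (Fin n)) (Ψ : E.Fam N) (i : Fin n → ℕ) :
    E.act N σ Ψ i = kp σ i • E.Lv N (pm σ) (Ψ (i ∘ σ)) := rfl

/-- Reduced families, zero on types with a block of length at least `l`. -/
def V (N : TC C₀) : Submodule ℚ (E.Fam N) where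
  carrier := {Ψ | (∀ i, (∃ b, l ≤ i b) → Ψ i = 0) ∧ ∀ i a, E.Red i (Ψ i a)}
  zero_mem' := by
    refine ⟨fun _ _ => rfl, fun i a => ⟨fun t _ => ?_, fun t _ => ?_⟩⟩
    · exact map_zero _
    · exact map_zero _
  add_mem' := by
    rintro Ψ Ψ' ⟨h1, h2⟩ ⟨h3, h4⟩
    refine ⟨fun i hi => ?_, fun i a => ⟨fun t ht => ?_, fun t ht => ?_⟩⟩
    · rw [Pi.add_apply, h1 i hi, h3 i hi, add_zero]
    · rw [Pi.add_apply, Pi.add_apply, map_add, (h2 i a).1 t ht, (h4 i a).1 t ht, add_zero]
    · rw [Pi.add_apply, Pi.add_apply, map_add, (h2 i a).2 t ht, (h4 i a).2 t ht]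
  smul_mem' := by
    rintro c Ψ ⟨h1, h2⟩
    refine ⟨fun i hi => ?_, fun i a => ⟨fun t ht => ?_, fun t ht => ?_⟩⟩
    · rw [Pi.smul_apply, h1 i hi, smul_zero]
    · rw [Pi.smul_apply, Pi.smul_apply, map_smul, (h2 i a).1 t ht, smul_zero]
    · rw [Pi.smul_apply, Pi.smul_apply, map_smul, (h2 i a).2 t ht]

theorem mem_V (N : TC C₀) (Ψ : E.Fam N) : Ψ ∈ E.V N ↔
    (∀ i, (∃ b, l ≤ i b) → Ψ i = 0) ∧ ∀ i a, E.Red i (Ψ i a) := Iff.rfl

/-- Invariant families. -/
def Inv (N : TC C₀) (Ψ : E.Fam N) : Prop := ∀ σ, E.act N σ Ψ = Ψ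

end Env

end Pool.Agent.SPC
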