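import Pool.Agent.SPC.PBlk

/-!
# Plethysm: the ideal of the plain symmetriser contains the symmetrisers of many blocks, signed if the size of the blocks is even
-/

noncomputable section

namespace Pool.Agent.SPC

open Equiv

theorem plethysm (n i : ℕ) : ∃ m₀ : ℕ, ∀ m, m₀ ≤ m →
    blk (decide (i % 2 = 1)) m (i + 1) ∈ J false n (Fin m × Fin (i + 1)) := by
  induction i with
  | zero => exact ⟨n, fun m hm => blk_mono hm (blk_one false n)⟩
  | succ i ih =>
    obtain ⟨m₀, hm₀⟩ := ih
    obtain ⟨a, ha1, ha2, ha3⟩ : ∃ a : ℕ, 1 ≤ a ∧ n ≤ a ∧ m₀ ≤ a := ⟨1 + n + m₀, by omega, by omega, by omega⟩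
    refine ⟨(a - 1) * (a - 1) + 1, fun m hm => blk_succ ha1 ha2 (by omega) ?_⟩
    have h1 : (!decide ((i + 1) % 2 = 1)) = decide (i % 2 = 1) := by
      rcases Nat.mod_two_eq_zero_or_one i with h | h
      · have h2 : (i + 1) % 2 = 1 := by omega
        simp [h, h2]
      · have h2 : (i + 1) % 2 = 0 := by omega
        simp [h, h2]
    rw [h1]
    exact hm₀ a ha3

end Pool.Agent.SPC
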