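import Pool.Agent.SPC.HBase
import Pool.Agent.SPC.PMain
import Pool.Agent.SPC.KDef

/-!
# The symmetriser of many blocks of points of a curve is a homotopy
-/

noncomputable section

namespace Pool.Agent.SPC

universe u v w

open SDG Equiv

variable {k S Om B : Type u} [Field k] [CommRing S] [Algebra k S] [CommRing Om] [IsDomain Om]
  [HasRat Om] [Algebra k Om] [CommRing B] [IsDomain B] [HasRat B] [Algebra k B]

section

variable {T : Type} [Fintype T] [DecidableEq T]

/-- The action of a permutation of the coordinates. -/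
def Crd.pAct (A : DGF.{u}) (X : Crd k S Om B T) (σ : Perm T) : SHom (A.obj B) (A.obj B) :=
  A.map (X.sub fun t => X.x (σ t) : B →+* B)

theorem Crd.pAct_mul (A : DGF.{u}) (X : Crd k S Om B T) (σ τ : Perm T) (a : A.obj B) :
    X.pAct A (σ * τ) a = X.pAct A σ (X.pAct A τ a) := by
  rw [Crd.pAct, Crd.pAct, Crd.pAct, ← A.map_comp_apply]
  congr 2
  apply X.hom_ext
  · intro w
    simp
  · intro t s
    simp

theorem Crd.pAct_one (A : DGF.{u}) (X : Crd k S Om B T) (a : A.obj B) : X.pAct A 1 a = a := by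
  have h : (X.sub fun t => X.x ((1 : Perm T) t) : B →+* B) = RingHom.id B := by
    apply X.hom_ext
    · intro w
      simp
    · intro t s
      simp
  rw [Crd.pAct, h, A.map_id]
  rfl

theorem Crd.pAct_via (A : DGF.{u}) (X : Crd k S Om B T) {n : ℕ} (f : Fin n ↪ T)
    (σ : Perm (Fin n)) (a : A.obj B) : A.map (X.permF f σ : B →+* B) a = X.pAct A (via f σ) a := by
  have h : (fun t => X.x ((σ.viaFintypeEmbedding f) t)) = fun t => X.x (via f σ t) := by
    funext t
    congr 1
    by_cases ht : t ∈ Set.range f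
    · obtain ⟨i, rfl⟩ := ht
      rw [via_apply]
      exact Equiv.Perm.viaFintypeEmbedding_apply_image _ _ _
    · rw [via_apply_of_notMem f σ t ht]
      exact Equiv.Perm.viaFintypeEmbedding_apply_notMem_range _ _ ht
  rw [Crd.pAct, Crd.permF, h]

theorem Crd.pAct_cst (A : DGF.{u}) (X : Crd k S Om B T) (σ : Perm T) (b : A.obj Om) :
    X.pAct A σ (A.map (X.c : Om →+* B) b) = A.map (X.c : Om →+* B) b := by
  rw [Crd.pAct, ← A.map_comp_apply]
  congr 2
  apply RingHom.ext
  intro w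
  exact X.sub_c _ w

/-- The action of permutations of some coordinates. -/
def Crd.act (A : DGF.{u}) (X : Crd k S Om B T) {Y : Type} (g : Y ↪ T) :
    QS Y →ₐ[ℚ] Module.End ℚ (A.obj B) :=
  MonoidAlgebra.lift ℚ (Module.End ℚ (A.obj B)) (Perm Y)
    { toFun := fun σ => (X.pAct A (via g σ)).toAlgHom.toLinearMap
      map_one' := by
        apply LinearMap.ext
        intro a
        show X.pAct A (via g 1) a = a
        rw [map_one, X.pAct_one]
      map_mul' := by
        intro σ τ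
        apply LinearMap.ext
        intro a
        show X.pAct A (via g (σ * τ)) a = X.pAct A (via g σ) (X.pAct A (via g τ) a)
        rw [map_mul, X.pAct_mul] }

theorem Crd.act_pe (A : DGF.{u}) (X : Crd k S Om B T) {Y : Type} (g : Y ↪ T) (σ : Perm Y)
    (a : A.obj B) : X.act A g (pe σ) a = X.pAct A (via g σ) a := by
  rw [Crd.act, pe, MonoidAlgebra.lift_of]
  rfl

/-- An element of the ideal generated by the symmetrisers acts as a homotopy. -/
theorem null_of_mem_J (A : DGF.{u}) (X : Crd k S Om B T) {n₀ : ℕ} {x₀ : S →ₐ[k] k}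
    (hsym : ∀ f : Fin n₀ ↪ T, SymNull A X f x₀) {Y : Type} (g : Y ↪ T)
    {y : QS Y} (hy : y ∈ J false n₀ Y) :
    ∃ H : A.obj B →ₗ[ℚ] A.obj B, (∀ a, H (par a) = -par (H a)) ∧
      (∀ a b, H (a * A.map (X.c : Om →+* B) b) = H a * A.map (X.c : Om →+* B) b) ∧
      ∀ a, (∀ p, A.map (X.setPt x₀ (g p) : B →+* B) a = 0) →
        d (H a) + H (d a) = X.act A g y a := by
  induction hy using Submodule.span_induction with
  | mem y hy =>
    obtain ⟨σ, f, rfl⟩ := hy
    obtain ⟨H, h1, h2, h3⟩ := hsym (f.trans g)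
    refine ⟨(X.pAct A (via g σ)).toAlgHom.toLinearMap.comp H, ?_, ?_, ?_⟩
    · intro a
      show X.pAct A (via g σ) (H (par a)) = -par (X.pAct A (via g σ) (H a))
      rw [h1, map_neg, SHom.map_par]
    · intro a b
      show X.pAct A (via g σ) (H (a * A.map (X.c : Om →+* B) b)) =
        X.pAct A (via g σ) (H a) * A.map (X.c : Om →+* B) b
      rw [h2, map_mul, X.pAct_cst]
    · intro a ha
      show d (X.pAct A (via g σ) (H a)) + X.pAct A (via g σ) (H (d a)) = _
      rw [← SHom.map_d, ← map_add, h3 a fun i => ha (f i), map_sum, map_mul, symm, map_sum, map_sum]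
      rw [Module.End.mul_apply, LinearMap.sum_apply, X.act_pe, map_sum]
      refine Finset.sum_congr rfl fun ρ _ => ?_
      have h4 : chr false ρ = 1 := rfl
      rw [h4, one_smul, push_pe, X.act_pe, X.pAct_via, via_via]
  | zero =>
    refine ⟨0, by simp, by simp, fun a _ => ?_⟩
    simp
  | add y z _ _ hy hz =>
    obtain ⟨H, h1, h2, h3⟩ := hy
    obtain ⟨H', h1', h2', h3'⟩ := hz
    refine ⟨H + H', ?_, ?_, ?_⟩
    · intro a
      rw [LinearMap.add_apply, LinearMap.add_apply, h1, h1', map_add, neg_add]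
    · intro a b
      rw [LinearMap.add_apply, LinearMap.add_apply, h2, h2', add_mul]
    · intro a ha
      rw [LinearMap.add_apply, LinearMap.add_apply, map_add, map_add, LinearMap.add_apply,
        ← h3 a ha, ← h3' a ha]
      abel
  | smul r y _ hy =>
    obtain ⟨H, h1, h2, h3⟩ := hy
    refine ⟨r • H, ?_, ?_, ?_⟩
    · intro a
      rw [LinearMap.smul_apply, LinearMap.smul_apply, h1, map_smul, smul_neg]
    · intro a b
      rw [LinearMap.smul_apply, LinearMap.smul_apply, h2, smul_mul_assoc]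
    · intro a ha
      rw [LinearMap.smul_apply, LinearMap.smul_apply, map_smul, ← smul_add, h3 a ha, map_smul,
        LinearMap.smul_apply]

end

/-- The points `(β a, r)`, `r ≤ m`. -/
def blkEmb {n l q : ℕ} (β : Fin q ↪ Fin n) (m : ℕ) (hm : m < l) :
    Fin q × Fin (m + 1) ↪ Lb n l where
  toFun p := (β p.1, Fin.castLE hm p.2)
  inj' := by
    intro p p' h
    have h1 := congrArg Prod.fst h
    have h2 := congrArg Prod.snd h
    exact Prod.ext (β.injective h1) (Fin.castLE_injective hm h2)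

/-- The coordinate `t` after the permutation `τ` of the blocks `β a`. -/
def blkPt {n l q : ℕ} (β : Fin q ↪ Fin n) (m : ℕ) (τ : Perm (Fin q)) (t : Lb n l) : Lb n l :=
  if (t.2 : ℕ) ≤ m then (via β τ t.1, t.2) else t

theorem via_blkEmb {n l q : ℕ} (β : Fin q ↪ Fin n) (m : ℕ) (hm : m < l) (τ : Perm (Fin q))
    (t : Lb n l) :
    via (blkEmb β m hm) (Equiv.prodCongr τ (Equiv.refl (Fin (m + 1)))) t = blkPt β m τ t := by
  classical
  by_cases ht : t ∈ Set.range (blkEmb β m hm)
  · obtain ⟨p, rfl⟩ := ht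
    rw [via_apply]
    have h1 : ((blkEmb β m hm p).2 : ℕ) ≤ m := Nat.lt_succ_iff.1 p.2.isLt
    rw [blkPt, if_pos h1]
    show (β (τ p.1), Fin.castLE hm p.2) = (via β τ (β p.1), Fin.castLE hm p.2)
    rw [via_apply]
  · rw [via_apply_of_notMem _ _ _ ht, blkPt]
    split_ifs with h
    · have h2 : t.1 ∉ Set.range β := by
        rintro ⟨a, ha⟩
        exact ht ⟨(a, ⟨t.2, Nat.lt_succ_iff.2 h⟩), Prod.ext ha rfl⟩
      rw [via_apply_of_notMem _ _ _ h2]
    · rfl

/-- Many blocks: the (signed) symmetriser is a homotopy. -/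
theorem exists_blk_null (n₀ m : ℕ) : ∃ q₀ : ℕ, ∀ (q : ℕ), q₀ ≤ q →
    ∀ {k S Om B : Type u} [Field k] [CommRing S] [Algebra k S] [CommRing Om] [IsDomain Om]
      [HasRat Om] [Algebra k Om] [CommRing B] [IsDomain B] [HasRat B] [Algebra k B] {n l : ℕ}
      (A : DGF.{u}) (X : Crd k S Om B (Lb n l)) (x₀ : S →ₐ[k] k),
      (∀ f : Fin n₀ ↪ Lb n l, SymNull A X f x₀) → m < l → ∀ β : Fin q ↪ Fin n,
      ∃ H : A.obj B →ₗ[ℚ] A.obj B, (∀ a, H (par a) = -par (H a)) ∧
        (∀ a b, H (a * A.map (X.c : Om →+* B) b) = H a * A.map (X.c : Om →+* B) b) ∧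
        ∀ a, (∀ t : Lb n l, t.1 ∈ Set.range β → (t.2 : ℕ) ≤ m →
            A.map (X.setPt x₀ t : B →+* B) a = 0) →
          d (H a) + H (d a) = ∑ τ : Perm (Fin q), chr (decide (m % 2 = 1)) τ •
            A.map (X.sub fun t => X.x (blkPt β m τ t) : B →+* B) a := by
  obtain ⟨q₀, hq₀⟩ := plethysm n₀ m
  refine ⟨q₀, ?_⟩
  intro q hq k S Om B _ _ _ _ _ _ _ _ _ _ _ n l A X x₀ hsym hm β
  obtain ⟨H, h1, h2, h3⟩ := null_of_mem_J A X hsym (blkEmb β m hm) (hq₀ q hq)
  refine ⟨H, h1, h2, fun a ha => ?_⟩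
  rw [h3 a fun p => ha _ ⟨p.1, rfl⟩ (Nat.lt_succ_iff.1 p.2.isLt), blk, map_sum,
    LinearMap.sum_apply]
  refine Finset.sum_congr rfl fun τ _ => ?_
  rw [map_smul, LinearMap.smul_apply, X.act_pe, Crd.pAct]
  simp only [via_blkEmb]

end Pool.Agent.SPC
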