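import Pool.Agent.SPC.Crd

/-!
# The operator of a finite correspondence
-/

noncomputable section

namespace Pool.Agent.SPC

universe u v w

open SDG

theorem DGF.exists_op (A : DGF.{u}) {B B' K' : Type u} [CommRing B] [IsDomain B] [HasRat B]
    [CommRing B'] [IsDomain B'] [HasRat B'] [Field K'] [IsAlgClosed K'] [CharZero K']
    (j : B' →+* K') (hj : Function.Injective j) {ι : Type} [Fintype ι] (c : ι → ℚ)
    (chi : ι → (B →+* K')) (h : IsTrace j c chi) :
    ∃ Q : A.obj B →ₗ[ℚ] A.obj B', (∀ a, A.map j (Q a) = ∑ i, c i • A.map (chi i) a) ∧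
      (∀ a, Q (par a) = par (Q a)) ∧ (∀ a, Q (d a) = d (Q a)) ∧
      ∀ {C : Type u} [CommRing C] [IsDomain C] [HasRat C] (g : C →+* B) (g' : C →+* B')
        (_ : ∀ i, (chi i).comp g = j.comp g') (a : A.obj B) (b : A.obj C),
        Q (a * A.map g b) = Q a * A.map g' b := by
  have hinj := A.inj j hj
  choose q hq using A.trace j hj c chi h
  refine ⟨⟨⟨q, ?_⟩, ?_⟩, hq, ?_, ?_, ?_⟩
  · intro a b
    apply hinj
    rw [map_add, hq, hq, hq, ← Finset.sum_add_distrib]
    exact Finset.sum_congr rfl fun i _ => by rw [map_add, smul_add]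
  · intro r a
    apply hinj
    show A.map j (q (r • a)) = A.map j (r • q a)
    rw [map_smul, hq, hq, Finset.smul_sum]
    exact Finset.sum_congr rfl fun i _ => by rw [map_smul, smul_comm]
  · intro a
    apply hinj
    show A.map j (q (par a)) = A.map j (par (q a))
    rw [(A.map j).map_par, hq, hq, map_sum]
    exact Finset.sum_congr rfl fun i _ => by rw [map_smul, (A.map (chi i)).map_par]
  · intro a
    apply hinj
    show A.map j (q (d a)) = A.map j (d (q a))
    rw [(A.map j).map_d, hq, hq, map_sum]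
    exact Finset.sum_congr rfl fun i _ => by rw [map_smul, (A.map (chi i)).map_d]
  · intro C _ _ _ g g' hg a b
    apply hinj
    show A.map j (q (a * A.map g b)) = A.map j (q a * A.map g' b)
    rw [map_mul, hq, hq, Finset.sum_mul]
    refine Finset.sum_congr rfl fun i _ => ?_
    rw [map_mul, smul_mul_assoc, ← A.map_comp_apply, ← A.map_comp_apply, hg i]

/-- A homomorphism to an algebraically closed field extends along an integral extension. -/
theorem exists_extend {B : Type u} {C : Type v} {K : Type w} [CommRing B] [CommRing C] [IsDomain C]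
    (j : B →+* C) (hj : Function.Injective j) (hint : j.IsIntegral) [Field K] [IsAlgClosed K]
    (θ : B →+* K) : ∃ θ' : C →+* K, θ'.comp j = θ := by
  let _ : Algebra B C := j.toAlgebra
  have hI : Algebra.IsIntegral B C := ⟨hint⟩
  have hp : (RingHom.ker θ).IsPrime := RingHom.ker_isPrime θ
  obtain ⟨Q, hQ, hQp⟩ := Ideal.exists_ideal_over_prime_of_isIntegral_of_isDomain (S := C)
    (RingHom.ker θ) (by
      rw [show RingHom.ker (algebraMap B C) = ⊥ from (RingHom.injective_iff_ker_eq_bot j).1 hj]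
      exact bot_le)
  have hQp' : Q.comap j = RingHom.ker θ := hQp
  let f : (B ⧸ RingHom.ker θ) →+* (C ⧸ Q) := Ideal.quotientMap Q j hQp'.ge
  have hf : Function.Injective f := Ideal.quotientMap_injective' hQp'.le
  let g : (B ⧸ RingHom.ker θ) →+* K := RingHom.kerLift θ
  have hg : Function.Injective g := RingHom.kerLift_injective θ
  let _ : Algebra (B ⧸ RingHom.ker θ) (C ⧸ Q) := f.toAlgebra
  let _ : Algebra (B ⧸ RingHom.ker θ) K := g.toAlgebra
  have i1 : FaithfulSMul (B ⧸ RingHom.ker θ) (C ⧸ Q) :=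
    (faithfulSMul_iff_algebraMap_injective _ _).2 hf
  have i2 : FaithfulSMul (B ⧸ RingHom.ker θ) K :=
    (faithfulSMul_iff_algebraMap_injective _ _).2 hg
  have i3 : Algebra.IsIntegral (B ⧸ RingHom.ker θ) (C ⧸ Q) := by
    refine ⟨fun y => ?_⟩
    obtain ⟨y, rfl⟩ := Ideal.Quotient.mk_surjective y
    obtain ⟨P, hP, he⟩ := hint y
    refine ⟨P.map (Ideal.Quotient.mk (RingHom.ker θ)), hP.map _, ?_⟩
    rw [Polynomial.eval₂_map]
    have h1 : (algebraMap (B ⧸ RingHom.ker θ) (C ⧸ Q)).comp (Ideal.Quotient.mk (RingHom.ker θ)) =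
        (Ideal.Quotient.mk Q).comp j := by
      apply RingHom.ext
      intro b
      exact Ideal.quotientMap_mk (I := Q) (f := j) (H := hQp'.ge)
    rw [h1, ← Polynomial.hom_eval₂, he, map_zero]
  have i4 : Algebra.IsAlgebraic (B ⧸ RingHom.ker θ) (C ⧸ Q) :=
    ⟨fun y => (i3.isIntegral y).isAlgebraic⟩
  let L : (C ⧸ Q) →ₐ[B ⧸ RingHom.ker θ] K := IsAlgClosed.lift
  refine ⟨(L : (C ⧸ Q) →+* K).comp (Ideal.Quotient.mk Q), ?_⟩
  apply RingHom.ext
  intro b
  have h1 : Ideal.Quotient.mk Q (j b) =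
      algebraMap (B ⧸ RingHom.ker θ) (C ⧸ Q) (Ideal.Quotient.mk (RingHom.ker θ) b) :=
    (Ideal.quotientMap_mk (I := Q) (f := j) (H := hQp'.ge)).symm
  show L (Ideal.Quotient.mk Q (j b)) = θ b
  rw [h1, L.commutes]
  exact RingHom.kerLift_mk θ b

end Pool.Agent.SPC
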