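import Pool.Agent.SPC.HFro

/-!
# The difference of the elementary symmetric operators of two homotopic divisors

If `t - t' = y(0) - y(1) + u` then `fro t n - fro t' n = V(0) - V(1) + U`, where `V` and `U` are given
by a recursion; they are combinations of tuples of homomorphisms.
-/

noncomputable section

namespace Pool.Agent.SPC

open Polynomial

universe u v w

section

variable {S : Type u} [CommMonoid S] {R : Type v} [CommRing R]

/-- The homotopy. -/
def hV (t t' : S → R) (y : S → R[X]) : (n : ℕ) → (Fin n → S) → R[X]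
  | 0, _ => 0
  | n + 1, s => y (s 0) * C (fro t n (Fin.tail s)) + C (t' (s 0)) * hV t t' y n (Fin.tail s) -
      ∑ i : Fin n, hV t t' y n (Function.update (Fin.tail s) i (Fin.tail s i * s 0))

/-- The part concentrated at the base point. -/
def hU (t t' u : S → R) : (n : ℕ) → (Fin n → S) → R
  | 0, _ => 0
  | n + 1, s => u (s 0) * fro t n (Fin.tail s) + t' (s 0) * hU t t' u n (Fin.tail s) -
      ∑ i : Fin n, hU t t' u n (Function.update (Fin.tail s) i (Fin.tail s i * s 0))

theorem fro_sub_fro {t t' u : S → R} {y : S → R[X]}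
    (h : ∀ x, t x - t' x = (y x).eval 0 - (y x).eval 1 + u x) (n : ℕ) (s : Fin n → S) :
    fro t n s - fro t' n s =
      (hV t t' y n s).eval 0 - (hV t t' y n s).eval 1 + hU t t' u n s := by
  induction n with
  | zero => simp [fro_zero, hV, hU]
  | succ n ih =>
    have h1 : ∑ i : Fin n, fro t n (Function.update (Fin.tail s) i (Fin.tail s i * s 0)) -
        ∑ i : Fin n, fro t' n (Function.update (Fin.tail s) i (Fin.tail s i * s 0)) =
        ∑ i : Fin n, (hV t t' y n (Function.update (Fin.tail s) i (Fin.tail s i * s 0))).eval 0 -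
        ∑ i : Fin n, (hV t t' y n (Function.update (Fin.tail s) i (Fin.tail s i * s 0))).eval 1 +
        ∑ i : Fin n, hU t t' u n (Function.update (Fin.tail s) i (Fin.tail s i * s 0)) := by
      rw [← Finset.sum_sub_distrib, ← Finset.sum_sub_distrib, ← Finset.sum_add_distrib]
      exact Finset.sum_congr rfl fun i _ => ih _
    have h2 := h (s 0)
    have h3 := ih (Fin.tail s)
    simp only [fro_succ, hV, hU, eval_sub, eval_add, eval_mul, eval_C, eval_finsetSum]
    linear_combination (fro t n (Fin.tail s)) * h2 + t' (s 0) * h3 - h1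

end

section

variable {k : Type u} {S : Type v} {K : Type w} [CommRing k] [CommRing S] [Algebra k S]
  [Field K] [Algebra k K] [Algebra ℚ K]

/-- The product of the values of a tuple of homomorphisms. -/
def tup {n : ℕ} (z : Fin n → (S →ₐ[k] K)) (s : Fin n → S) : K := ∏ i, z i (s i)

/-- Combinations of the tuples in `Z`. -/
def Tup {n : ℕ} (Z : Set (Fin n → (S →ₐ[k] K))) : Submodule ℚ ((Fin n → S) → K) :=
  Submodule.span ℚ (tup '' Z)

variable {Z : ∀ n, Set (Fin n → (S →ₐ[k] K))}

theorem Tup.cons_mul {n : ℕ} {A : Set (S →ₐ[k] K)}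
    (hZ : ∀ z ∈ Z n, ∀ a ∈ A, (Fin.cons a z : Fin (n + 1) → (S →ₐ[k] K)) ∈ Z (n + 1)) {y : S → K}
    (hy : y ∈ Submodule.span ℚ ((fun (χ : S →ₐ[k] K) (x : S) => χ x) '' A)) {F : (Fin n → S) → K}
    (hF : F ∈ Tup (Z n)) : (fun s : Fin (n + 1) → S => y (s 0) * F (Fin.tail s)) ∈ Tup (Z (n + 1)) := by
  induction hy using Submodule.span_induction with
  | mem y hy =>
    obtain ⟨χ, hχ, rfl⟩ := hy
    induction hF using Submodule.span_induction with
    | mem F hF =>
      obtain ⟨z, hz, rfl⟩ := hF
      refine Submodule.subset_span ⟨_, hZ z hz χ hχ, ?_⟩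
      funext s
      rw [tup, Fin.prod_univ_succ]
      rfl
    | zero =>
      have : (fun s : Fin (n + 1) → S => χ (s 0) * (0 : (Fin n → S) → K) (Fin.tail s)) = 0 := by
        funext s
        simp
      rw [this]
      exact Submodule.zero_mem _
    | add F G _ _ hF hG =>
      have : (fun s : Fin (n + 1) → S => χ (s 0) * (F + G) (Fin.tail s)) =
          (fun s => χ (s 0) * F (Fin.tail s)) + fun s => χ (s 0) * G (Fin.tail s) := by
        funext s
        simp [mul_add]
      rw [this]
      exact Submodule.add_mem _ hF hG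
    | smul c F _ hF =>
      have : (fun s : Fin (n + 1) → S => χ (s 0) * (c • F) (Fin.tail s)) =
          c • (fun s => χ (s 0) * F (Fin.tail s)) := by
        funext s
        simp
      rw [this]
      exact Submodule.smul_mem _ _ hF
  | zero =>
    have : (fun s : Fin (n + 1) → S => (0 : S → K) (s 0) * F (Fin.tail s)) = 0 := by
      funext s
      simp
    rw [this]
    exact Submodule.zero_mem _
  | add y y' _ _ hy hy' =>
    have : (fun s : Fin (n + 1) → S => (y + y') (s 0) * F (Fin.tail s)) =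
        (fun s => y (s 0) * F (Fin.tail s)) + fun s => y' (s 0) * F (Fin.tail s) := by
      funext s
      simp [add_mul]
    rw [this]
    exact Submodule.add_mem _ hy hy'
  | smul c y _ hy =>
    have : (fun s : Fin (n + 1) → S => (c • y) (s 0) * F (Fin.tail s)) =
        c • (fun s => y (s 0) * F (Fin.tail s)) := by
      funext s
      simp
    rw [this]
    exact Submodule.smul_mem _ _ hy

theorem Tup.upd {n : ℕ} (i : Fin n)
    (hZ : ∀ z ∈ Z n, (Fin.cons (z i) z : Fin (n + 1) → (S →ₐ[k] K)) ∈ Z (n + 1)) {F : (Fin n → S) → K} (hF : F ∈ Tup (Z n)) :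
    (fun s : Fin (n + 1) → S => F (Function.update (Fin.tail s) i (Fin.tail s i * s 0))) ∈
      Tup (Z (n + 1)) := by
  induction hF using Submodule.span_induction with
  | mem F hF =>
    obtain ⟨z, hz, rfl⟩ := hF
    refine Submodule.subset_span ⟨_, hZ z hz, ?_⟩
    funext s
    rw [tup, Fin.prod_univ_succ, tup]
    rw [← Finset.mul_prod_erase _ _ (Finset.mem_univ i),
      ← Finset.mul_prod_erase (s := Finset.univ) (a := i)
        (f := fun j => z j (Function.update (Fin.tail s) i (Fin.tail s i * s 0) j))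
        (h := Finset.mem_univ i)]
    rw [Function.update_self, map_mul]
    have h4 : ∏ j ∈ Finset.univ.erase i, z j (Function.update (Fin.tail s) i
        (Fin.tail s i * s 0) j) = ∏ j ∈ Finset.univ.erase i, z j (Fin.tail s j) := by
      refine Finset.prod_congr rfl fun j hj => ?_
      rw [Function.update_of_ne (Finset.ne_of_mem_erase hj)]
    rw [h4]
    simp only [Fin.cons_zero, Fin.cons_succ, Fin.tail]
    ring
  | zero => exact Submodule.zero_mem _
  | add F G _ _ hF hG => exact Submodule.add_mem _ hF hG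
  | smul c F _ hF => exact Submodule.smul_mem _ c hF

theorem Tup.fro {A : Set (S →ₐ[k] K)} {t : S → K}
    (ht : t ∈ Submodule.span ℚ ((fun (χ : S →ₐ[k] K) (x : S) => χ x) '' A)) (n : ℕ) :
    SPC.fro t n ∈ Tup {z : Fin n → (S →ₐ[k] K) | ∀ i, z i ∈ A} := by
  induction n with
  | zero =>
    refine Submodule.subset_span ⟨fun i => i.elim0, fun i => i.elim0, ?_⟩
    funext s
    rw [tup, fro_zero]
    simp
  | succ n ih =>
    have h1 := Tup.cons_mul (Z := fun n => {z : Fin n → (S →ₐ[k] K) | ∀ i, z i ∈ A}) (A := A)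
      (n := n) (fun z hz a ha => by
        refine Fin.cases ?_ ?_
        · simpa using ha
        · intro i
          simpa using hz i) ht ih
    have h2 : ∀ i : Fin n, (fun s : Fin (n + 1) → S =>
        SPC.fro t n (Function.update (Fin.tail s) i (Fin.tail s i * s 0))) ∈
        Tup {z : Fin (n + 1) → (S →ₐ[k] K) | ∀ i, z i ∈ A} := fun i =>
      Tup.upd (Z := fun n => {z : Fin n → (S →ₐ[k] K) | ∀ i, z i ∈ A}) i
        (fun z hz => by
          refine Fin.cases ?_ ?_
          · simpa using hz i
          · intro i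
            simpa using hz i) ih
    have h3 : SPC.fro t (n + 1) = (fun s : Fin (n + 1) → S => t (s 0) * SPC.fro t n (Fin.tail s)) -
        ∑ i : Fin n, fun s : Fin (n + 1) → S =>
          SPC.fro t n (Function.update (Fin.tail s) i (Fin.tail s i * s 0)) := by
      funext s
      rw [fro_succ, Pi.sub_apply, Finset.sum_apply]
    rw [h3]
    exact Submodule.sub_mem _ h1 (Submodule.sum_mem _ fun i _ => h2 i)

/-- The homotopy `V` over a field `K ⊇ R[X]` is a combination of tuples. -/
theorem Tup.hV {R : Type*} [CommRing R] (j : R[X] →+* K) {A : Set (S →ₐ[k] K)} {t t' : S → R}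
    {y : S → R[X]}
    (ht : (fun x => j (C (t x))) ∈ Submodule.span ℚ ((fun (χ : S →ₐ[k] K) (x : S) => χ x) '' A))
    (ht' : (fun x => j (C (t' x))) ∈ Submodule.span ℚ ((fun (χ : S →ₐ[k] K) (x : S) => χ x) '' A))
    (hy : (fun x => j (y x)) ∈ Submodule.span ℚ ((fun (χ : S →ₐ[k] K) (x : S) => χ x) '' A))
    (n : ℕ) : (fun s => j (SPC.hV t t' y n s)) ∈ Tup {z : Fin n → (S →ₐ[k] K) | ∀ i, z i ∈ A} := by
  induction n with
  | zero =>
    have : (fun s : Fin 0 → S => j (SPC.hV t t' y 0 s)) = 0 := by
      funext s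
      simp [SPC.hV]
    rw [this]
    exact Submodule.zero_mem _
  | succ n ih =>
    have hc : ∀ z ∈ {z : Fin n → (S →ₐ[k] K) | ∀ i, z i ∈ A}, ∀ a ∈ A,
        (Fin.cons a z : Fin (n + 1) → (S →ₐ[k] K)) ∈
          {z : Fin (n + 1) → (S →ₐ[k] K) | ∀ i, z i ∈ A} := fun z hz a ha => by
      refine Fin.cases ?_ ?_
      · simpa using ha
      · intro i
        simpa using hz i
    have hf : (fun s => j (C (SPC.fro t n s))) ∈ Tup {z : Fin n → (S →ₐ[k] K) | ∀ i, z i ∈ A} := by
      have h0 : (fun s => j (C (SPC.fro t n s))) = SPC.fro (fun x => j (C (t x))) n := by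
        funext s
        exact map_fro (j.comp C) t n s
      rw [h0]
      exact Tup.fro ht n
    have h1 := Tup.cons_mul (Z := fun n => {z : Fin n → (S →ₐ[k] K) | ∀ i, z i ∈ A}) hc hy hf
    have h2 := Tup.cons_mul (Z := fun n => {z : Fin n → (S →ₐ[k] K) | ∀ i, z i ∈ A}) hc ht' ih
    have h3 : ∀ i : Fin n, (fun s : Fin (n + 1) → S =>
        j (SPC.hV t t' y n (Function.update (Fin.tail s) i (Fin.tail s i * s 0)))) ∈
        Tup {z : Fin (n + 1) → (S →ₐ[k] K) | ∀ i, z i ∈ A} := fun i =>
      Tup.upd (Z := fun n => {z : Fin n → (S →ₐ[k] K) | ∀ i, z i ∈ A}) i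
        (fun z hz => hc z hz _ (hz i)) ih
    have h4 : (fun s => j (SPC.hV t t' y (n + 1) s)) =
        (fun s : Fin (n + 1) → S => j (y (s 0)) * j (C (SPC.fro t n (Fin.tail s)))) +
        (fun s : Fin (n + 1) → S => j (C (t' (s 0))) * j (SPC.hV t t' y n (Fin.tail s))) -
        ∑ i : Fin n, fun s : Fin (n + 1) → S =>
          j (SPC.hV t t' y n (Function.update (Fin.tail s) i (Fin.tail s i * s 0))) := by
      funext s
      rw [Pi.sub_apply, Pi.add_apply, Finset.sum_apply, SPC.hV, map_sub, map_add, map_mul, map_mul,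
        map_sum]
    rw [h4]
    exact Submodule.sub_mem _ (Submodule.add_mem _ h1 h2) (Submodule.sum_mem _ fun i _ => h3 i)

/-- The part `U` is a combination of tuples that contain the base point. -/
theorem Tup.hU {R : Type*} [CommRing R] (j : R →+* K) {t t' u : S → R} {P : S →ₐ[k] K} (c : ℚ)
    (ht : (fun x => j (t x)) ∈
      Submodule.span ℚ ((fun (χ : S →ₐ[k] K) (x : S) => χ x) '' Set.univ))
    (ht' : (fun x => j (t' x)) ∈
      Submodule.span ℚ ((fun (χ : S →ₐ[k] K) (x : S) => χ x) '' Set.univ))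
    (hu : ∀ x, j (u x) = c • P x) (n : ℕ) :
    (fun s => j (SPC.hU t t' u n s)) ∈ Tup {z : Fin n → (S →ₐ[k] K) | ∃ i, z i = P} := by
  induction n with
  | zero =>
    have : (fun s : Fin 0 → S => j (SPC.hU t t' u 0 s)) = 0 := by
      funext s
      simp [SPC.hU]
    rw [this]
    exact Submodule.zero_mem _
  | succ n ih =>
    have hc : ∀ z ∈ {z : Fin n → (S →ₐ[k] K) | ∃ i, z i = P}, ∀ a ∈ (Set.univ : Set (S →ₐ[k] K)),
        (Fin.cons a z : Fin (n + 1) → (S →ₐ[k] K)) ∈
          {z : Fin (n + 1) → (S →ₐ[k] K) | ∃ i, z i = P} := by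
      rintro z ⟨i, hi⟩ a _
      exact ⟨i.succ, by simpa using hi⟩
    have hf : (fun s => j (SPC.fro t n s)) ∈ Tup {z : Fin n → (S →ₐ[k] K) | ∀ i, z i ∈ Set.univ} := by
      have h0 : (fun s => j (SPC.fro t n s)) = SPC.fro (fun x => j (t x)) n := by
        funext s
        exact map_fro j t n s
      rw [h0]
      exact Tup.fro ht n
    have hu' : (fun x => j (u x)) ∈
        Submodule.span ℚ ((fun (χ : S →ₐ[k] K) (x : S) => χ x) '' {P}) := by
      have h0 : (fun x => j (u x)) = c • fun x => P x := by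
        funext x
        exact hu x
      rw [h0]
      exact Submodule.smul_mem _ _ (Submodule.subset_span ⟨P, rfl, rfl⟩)
    -- first term
    have h1 : (fun s : Fin (n + 1) → S => j (u (s 0)) * j (SPC.fro t n (Fin.tail s))) ∈
        Tup {z : Fin (n + 1) → (S →ₐ[k] K) | ∃ i, z i = P} := by
      have h5 := Tup.cons_mul (k := k) (n := n) (A := {P})
        (Z := fun n' => if n' = n then {z : Fin n' → (S →ₐ[k] K) | ∀ i, z i ∈ Set.univ} else
          {z : Fin n' → (S →ₐ[k] K) | ∃ i, z i = P})
        (F := fun s => j (SPC.fro t n s)) (y := fun x => j (u x)) ?_ hu' ?_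
      · simpa using h5
      · intro z _ a ha
        simp only [Nat.add_eq_left, one_ne_zero, if_false]
        exact ⟨0, by simpa using ha⟩
      · simpa using hf
    have h2 := Tup.cons_mul (Z := fun n => {z : Fin n → (S →ₐ[k] K) | ∃ i, z i = P}) hc ht' ih
    have h3 : ∀ i : Fin n, (fun s : Fin (n + 1) → S =>
        j (SPC.hU t t' u n (Function.update (Fin.tail s) i (Fin.tail s i * s 0)))) ∈
        Tup {z : Fin (n + 1) → (S →ₐ[k] K) | ∃ i, z i = P} := fun i =>
      Tup.upd (Z := fun n => {z : Fin n → (S →ₐ[k] K) | ∃ i, z i = P}) i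
        (fun z hz => hc z hz _ (Set.mem_univ _)) ih
    have h4 : (fun s => j (SPC.hU t t' u (n + 1) s)) =
        (fun s : Fin (n + 1) → S => j (u (s 0)) * j (SPC.fro t n (Fin.tail s))) +
        (fun s : Fin (n + 1) → S => j (t' (s 0)) * j (SPC.hU t t' u n (Fin.tail s))) -
        ∑ i : Fin n, fun s : Fin (n + 1) → S =>
          j (SPC.hU t t' u n (Function.update (Fin.tail s) i (Fin.tail s i * s 0))) := by
      funext s
      rw [Pi.sub_apply, Pi.add_apply, Finset.sum_apply, SPC.hU, map_sub, map_add, map_mul, map_mul,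
        map_sum]
    rw [h4]
    exact Submodule.sub_mem _ (Submodule.add_mem _ h1 h2) (Submodule.sum_mem _ fun i _ => h3 i)

end

end Pool.Agent.SPC
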