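import Mathlib

/-!
# The recursion for the elementary symmetric operators

`fro t n s`: for `t = ∑ a, χ a` (a sum of multiplicative maps) this is the sum over all injective
`f : Fin n → ι` of the products `∏ i, χ (f i) (s i)`.
-/

noncomputable section

namespace Pool.Agent.SPC

universe u v w

variable {S : Type u} [CommMonoid S] {R : Type v} [CommRing R]

/-- `fro t (n+1) s = t (s 0) * fro t n (tail s) - ∑ i, fro t n (tail s with tail s i replaced by
tail s i * s 0)`. -/
def fro (t : S → R) : (n : ℕ) → (Fin n → S) → R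
  | 0, _ => 1
  | n + 1, s => t (s 0) * fro t n (Fin.tail s) -
      ∑ i : Fin n, fro t n (Function.update (Fin.tail s) i (Fin.tail s i * s 0))

theorem fro_zero (t : S → R) (s : Fin 0 → S) : fro t 0 s = 1 := rfl

theorem fro_succ (t : S → R) (n : ℕ) (s : Fin (n + 1) → S) : fro t (n + 1) s =
    t (s 0) * fro t n (Fin.tail s) -
      ∑ i : Fin n, fro t n (Function.update (Fin.tail s) i (Fin.tail s i * s 0)) := rfl

/-- The sum over the injective maps. -/
def injSum {ι : Type*} [Fintype ι] [DecidableEq ι] (χ : ι → S → R) (n : ℕ) (s : Fin n → S) : R :=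
  ∑ f : Fin n ↪ ι, ∏ i, χ (f i) (s i)

theorem injSum_succ {ι : Type*} [Fintype ι] [DecidableEq ι] (χ : ι → (S →* R)) (n : ℕ)
    (s : Fin (n + 1) → S) : injSum (fun a => χ a) (n + 1) s =
      (∑ a, χ a (s 0)) * injSum (fun a => χ a) n (Fin.tail s) -
      ∑ i : Fin n, injSum (fun a => χ a) n
        (Function.update (Fin.tail s) i (Fin.tail s i * s 0)) := by
  classical
  have h1 : injSum (fun a => χ a) (n + 1) s = ∑ e : Fin n ↪ ι,
      ∑ a : {a // a ∉ Set.range e}, χ a (s 0) * ∏ i, χ (e i) (Fin.tail s i) := by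
    rw [injSum, ← Fintype.sum_sigma']
    refine Fintype.sum_equiv (Equiv.embeddingFinSucc n ι) _ _ fun e => ?_
    rw [Fin.prod_univ_succ]
    rfl
  have h2 : ∀ e : Fin n ↪ ι, ∑ a : {a // a ∉ Set.range e}, χ a (s 0) =
      (∑ a, χ a (s 0)) - ∑ i, χ (e i) (s 0) := by
    intro e
    rw [eq_sub_iff_add_eq]
    have h3 : ∑ i, χ (e i) (s 0) = ∑ a : {a // a ∈ Set.range e}, χ a (s 0) := by
      refine Fintype.sum_equiv (Equiv.ofInjective e e.injective) _ _ fun i => ?_
      rfl
    rw [h3, add_comm]
    refine Eq.trans ?_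
      (Fintype.sum_subtype_add_sum_subtype (fun a => a ∈ Set.range e) (fun a => χ a (s 0)))
    exact congrArg₂ (fun x y : R => x + y)
      (Finset.sum_congr (Finset.ext fun x => by simp) fun _ _ => rfl)
      (Finset.sum_congr (Finset.ext fun x => by simp) fun _ _ => rfl)
  rw [h1]
  simp only [← Finset.sum_mul, h2, sub_mul, Finset.sum_sub_distrib]
  congr 1
  · rw [injSum, Finset.mul_sum]
  · simp only [Finset.sum_mul]
    rw [Finset.sum_comm]
    refine Finset.sum_congr rfl fun i _ => ?_
    rw [injSum]
    refine Finset.sum_congr rfl fun e _ => ?_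
    rw [← Finset.mul_prod_erase _ _ (Finset.mem_univ i),
      ← Finset.mul_prod_erase (s := Finset.univ) (a := i)
        (f := fun j => χ (e j) (Function.update (Fin.tail s) i (Fin.tail s i * s 0) j))
        (h := Finset.mem_univ i)]
    rw [Function.update_self, map_mul]
    have h4 : ∏ j ∈ Finset.univ.erase i, χ (e j) (Function.update (Fin.tail s) i
        (Fin.tail s i * s 0) j) = ∏ j ∈ Finset.univ.erase i, χ (e j) (Fin.tail s j) := by
      refine Finset.prod_congr rfl fun j hj => ?_
      rw [Function.update_of_ne (Finset.ne_of_mem_erase hj)]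
    rw [h4]
    ring

theorem fro_eq_injSum {ι : Type*} [Fintype ι] [DecidableEq ι] (χ : ι → (S →* R)) (n : ℕ)
    (s : Fin n → S) : fro (fun x => ∑ a, χ a x) n s = injSum (fun a => χ a) n s := by
  induction n with
  | zero =>
    rw [fro_zero, injSum]
    simp
  | succ n ih =>
    rw [fro_succ, injSum_succ, ih]
    congr 1
    exact Finset.sum_congr rfl fun i _ => ih _

/-- With fewer than `n` characters the result is zero. -/
theorem fro_eq_zero {ι : Type*} [Fintype ι] [DecidableEq ι] (χ : ι → (S →* R)) {n : ℕ}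
    (hn : Fintype.card ι < n) (s : Fin n → S) : fro (fun x => ∑ a, χ a x) n s = 0 := by
  rw [fro_eq_injSum, injSum]
  have : IsEmpty (Fin n ↪ ι) := by
    refine ⟨fun f => ?_⟩
    have := Fintype.card_le_of_embedding f
    rw [Fintype.card_fin] at this
    omega
  exact Finset.sum_of_isEmpty _

/-- With `n` characters the result is the sum over the permutations. -/
theorem fro_eq_sum_perm {n : ℕ} (χ : Fin n → (S →* R)) (s : Fin n → S) :
    fro (fun x => ∑ a, χ a x) n s = ∑ σ : Equiv.Perm (Fin n), ∏ i, χ (σ i) (s i) := by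
  rw [fro_eq_injSum, injSum]
  refine Fintype.sum_equiv (Equiv.embeddingEquivOfFinite (Fin n)) _ _ fun f => ?_
  refine Finset.prod_congr rfl fun i _ => ?_
  congr 2

/-- Ring homomorphisms commute with the recursion. -/
theorem map_fro {R' : Type w} [CommRing R'] (g : R →+* R') (t : S → R) (n : ℕ) (s : Fin n → S) :
    g (fro t n s) = fro (fun x => g (t x)) n s := by
  induction n with
  | zero => rw [fro_zero, fro_zero, map_one]
  | succ n ih =>
    rw [fro_succ, fro_succ, map_sub, map_mul, map_sum, ih]
    congr 1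
    exact Finset.sum_congr rfl fun i _ => ih _

end Pool.Agent.SPC
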