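import Pool.Agent.SPC.Crd
import Pool.Agent.SPC.HDif

/-!
# Inserting a tuple of points in some of the coordinates

MODULE SPC-HIns. PLAN. `X.ins f g z : B → K` is `g` on `Om` and on the coordinates outside the range
of `f`, and `z i` on the coordinate `f i` (`Function.extend`; use
`Function.Injective.extend_apply` and `Function.extend_apply'`). `rest X f w s` is the part of the
product `c w * ∏ t, x t (s t)` outside the range of `f`.
* `prod_eq`: `∏ t, φ t = (∏ t with t ∉ range f, φ t) * ∏ i, φ (f i)` (split the product over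
  `univ` by `t ∈ Set.range f`: `Finset.prod_filter_mul_prod_filter_not`, and
  `filter (· ∈ range f) univ = univ.map f`, `Finset.prod_map`).
* `ins_prod`, `ins_apply_*`: `map_mul`, `map_prod`, `lift_c_apply`, `lift_x_apply`.
* `permF_prod`: `Equiv.Perm.viaFintypeEmbedding_apply_image` (`f i ↦ f (σ i)`) and
  `Equiv.Perm.viaFintypeEmbedding_apply_notMem_range`.
* `ins_setPt`: `Crd.hom_ext`: on the coordinate `f i` both sides are the point `P`, on the others both
  are equal by `Function.update_of_ne`; note `Algebra.ofId k B` composed with a `k`-algebra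
  homomorphism is `Algebra.ofId k K`.
-/

noncomputable section

namespace Pool.Agent.SPC

universe u v w

open SDG

namespace Crd

variable {k S Om B : Type u} [Field k] [CommRing S] [Algebra k S] [CommRing Om] [Algebra k Om]
  [CommRing B] [Algebra k B] {T : Type} [Fintype T] [DecidableEq T] (X : Crd k S Om B T)
  {K : Type u} [Field K] [Algebra k K] {n : ℕ}

/-- The points `z i` at the coordinates `f i`, all the rest by `g`. -/
def ins (f : Fin n ↪ T) (g : B →ₐ[k] K) (z : Fin n → (S →ₐ[k] K)) : B →ₐ[k] K :=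
  X.lift (g.comp X.c) (Function.extend f z fun t => g.comp (X.x t))

/-- The part of a product outside the range of `f`. -/
def rest (f : Fin n ↪ T) (w : Om) (s : T → S) : B :=
  X.c w * ∏ t ∈ Finset.univ.filter (fun t => t ∉ Set.range f), X.x t (s t)

omit [Field K] [Algebra k K] in
theorem prod_eq (f : Fin n ↪ T) {M : Type*} [CommMonoid M] (φ : T → M) :
    ∏ t, φ t = (∏ t ∈ Finset.univ.filter (fun t => t ∉ Set.range f), φ t) * ∏ i, φ (f i) := by
  rw [← Finset.prod_filter_mul_prod_filter_not Finset.univ (fun t => t ∉ Set.range f)]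
  congr 1
  have h : Finset.univ.filter (fun t => ¬ t ∉ Set.range f) = Finset.univ.map f := by
    ext t
    rw [Finset.mem_filter, Finset.mem_map, not_not]
    constructor
    · rintro ⟨-, i, hi⟩
      exact ⟨i, Finset.mem_univ _, hi⟩
    · rintro ⟨i, -, hi⟩
      exact ⟨Finset.mem_univ _, i, hi⟩
  rw [h, Finset.prod_map]

theorem mul_prod_eq (f : Fin n ↪ T) (w : Om) (s : T → S) :
    X.c w * ∏ t, X.x t (s t) = X.rest f w s * ∏ i, X.x (f i) (s (f i)) := by
  rw [prod_eq f, rest, mul_assoc]

theorem ins_c (f : Fin n ↪ T) (g : B →ₐ[k] K) (z : Fin n → (S →ₐ[k] K)) (w : Om) :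
    X.ins f g z (X.c w) = g (X.c w) := by
  rw [ins, lift_c_apply]
  rfl

private theorem ins_xf (f : Fin n ↪ T) (g : B →ₐ[k] K) (z : Fin n → (S →ₐ[k] K)) (i : Fin n) (s : S) :
    X.ins f g z (X.x (f i) s) = z i s := by
  rw [ins, lift_x_apply, f.injective.extend_apply]

private theorem ins_xn (f : Fin n ↪ T) (g : B →ₐ[k] K) (z : Fin n → (S →ₐ[k] K)) {t : T}
    (ht : t ∉ Set.range f) (s : S) : X.ins f g z (X.x t s) = g (X.x t s) := by
  rw [ins, lift_x_apply, Function.extend_apply' _ _ _ (fun h => ht h)]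
  rfl

private theorem ins_rest (f : Fin n ↪ T) (g : B →ₐ[k] K) (z : Fin n → (S →ₐ[k] K)) (w : Om) (s : T → S) :
    X.ins f g z (X.rest f w s) = g (X.rest f w s) := by
  rw [rest, map_mul, map_mul, map_prod, map_prod, ins_c]
  congr 1
  refine Finset.prod_congr rfl fun t ht => ?_
  exact ins_xn X f g z (Finset.mem_filter.1 ht).2 _

theorem ins_prod (f : Fin n ↪ T) (g : B →ₐ[k] K) (z : Fin n → (S →ₐ[k] K)) (w : Om) (s : T → S) :
    X.ins f g z (X.c w * ∏ t, X.x t (s t)) = g (X.rest f w s) * tup z (fun i => s (f i)) := by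
  rw [mul_prod_eq X f, map_mul, ins_rest, map_prod, tup]
  congr 1
  exact Finset.prod_congr rfl fun i _ => ins_xf X f g z i _

theorem permF_prod (f : Fin n ↪ T) (σ : Equiv.Perm (Fin n)) (w : Om) (s : T → S) :
    X.permF f σ (X.c w * ∏ t, X.x t (s t)) =
      X.rest f w s * ∏ i, X.x (f (σ i)) (s (f i)) := by
  rw [mul_prod_eq X f, map_mul, permF, rest, map_mul, sub_c, map_prod, map_prod]
  congr 1
  · congr 1
    refine Finset.prod_congr rfl fun t ht => ?_
    rw [sub_x, Equiv.Perm.viaFintypeEmbedding_apply_notMem_range _ _ (Finset.mem_filter.1 ht).2]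
  · refine Finset.prod_congr rfl fun i _ => ?_
    rw [sub_x, Equiv.Perm.viaFintypeEmbedding_apply_image]

theorem ins_setPt (f : Fin n ↪ T) (g : B →ₐ[k] K) (z : Fin n → (S →ₐ[k] K)) (P : S →ₐ[k] k)
    (i : Fin n) (hi : z i = (Algebra.ofId k K).comp P) :
    (X.ins f g z).comp (X.setPt P (f i)) = X.ins f g z := by
  have key : ((X.ins f g z).comp (X.setPt P (f i)) : B →+* K) = (X.ins f g z : B →+* K) := by
    refine X.hom_ext (fun w => ?_) (fun t s => ?_)
    · change X.ins f g z (X.setPt P (f i) (X.c w)) = X.ins f g z (X.c w)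
      rw [setPt, sub_c]
    · change X.ins f g z (X.setPt P (f i) (X.x t s)) = X.ins f g z (X.x t s)
      rw [setPt, sub_x]
      by_cases ht : t = f i
      · subst ht
        rw [Function.update_self, ins_xf, hi]
        change X.ins f g z (algebraMap k B (P s)) = algebraMap k K (P s)
        exact (X.ins f g z).commutes _
      · rw [Function.update_of_ne ht]
  exact AlgHom.ext fun b => congrArg (fun φ : B →+* K => φ b) key

/-- Integrality of the values. -/
theorem ins_isIntegral {B' : Type u} [CommRing B'] (j : B' →+* K) (f : Fin n ↪ T) (g : B →ₐ[k] K)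
    (z : Fin n → (S →ₐ[k] K)) (hg : ∀ b, j.IsIntegralElem (g b))
    (hz : ∀ i s, j.IsIntegralElem (z i s)) (b : B) : j.IsIntegralElem (X.ins f g z b) := by
  refine X.induct (p := fun b => j.IsIntegralElem (X.ins f g z b)) ?_ ?_ ?_ b
  · rw [map_zero]
    exact j.isIntegralElem_zero
  · intro a b ha hb
    rw [map_add]
    exact RingHom.IsIntegralElem.add j ha hb
  · intro w s
    rw [ins_prod]
    refine RingHom.IsIntegralElem.mul j (hg _) ?_
    rw [tup]
    refine Finset.prod_induction _ (fun y => j.IsIntegralElem y) (fun a b ha hb => RingHom.IsIntegralElem.mul j ha hb)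
      j.isIntegralElem_one (fun i _ => hz i _)

/-- A trace function given by a combination of tuples. -/
theorem sum_ins {ι : Type} [Fintype ι] (f : Fin n ↪ T) (g : B →ₐ[k] K) [CharZero K] (c : ι → ℚ)
    (z : ι → Fin n → (S →ₐ[k] K)) (w : Om) (s : T → S) :
    ∑ a, c a • X.ins f g (z a) (X.c w * ∏ t, X.x t (s t)) =
      g (X.rest f w s) * ∑ a, c a • tup (z a) (fun i => s (f i)) := by
  rw [Finset.mul_sum]
  refine Finset.sum_congr rfl fun a _ => ?_
  rw [ins_prod, mul_smul_comm]

end Crd

/-- A combination of tuples is a finite sum. -/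
theorem Tup.exists_fin {k : Type u} {S : Type v} {K : Type w} [CommRing k] [CommRing S]
    [Algebra k S] [Field K] [Algebra k K] [Algebra ℚ K] {n : ℕ} {Z : Set (Fin n → (S →ₐ[k] K))}
    {F : (Fin n → S) → K} (hF : F ∈ Tup Z) :
    ∃ (N : ℕ) (c : Fin N → ℚ) (z : Fin N → Fin n → (S →ₐ[k] K)), (∀ a, z a ∈ Z) ∧
      ∀ s, F s = ∑ a, c a • tup (z a) s := by
  obtain ⟨N, c, g, h⟩ := (Submodule.mem_span_set' (R := ℚ)).1 hF
  choose z hz hz' using fun a => (g a).2
  refine ⟨N, c, z, hz, fun s => ?_⟩
  rw [← h, Finset.sum_apply]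
  refine Finset.sum_congr rfl fun a _ => ?_
  rw [Pi.smul_apply, hz']

end Pool.Agent.SPC
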