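import Pool.Agent.SPC.HRel
import Pool.Agent.SPC.HDif

/-!
# The symmetriser as the difference of the values of a family of correspondences
-/

noncomputable section

namespace Pool.Agent.SPC

open Polynomial TensorProduct Pool.Agent.GSM

universe u v w

section

variable {k : Type u} {S : Type v} {K : Type w} [Field k] [CommRing S] [Algebra k S] [Field K]
  [CharZero K] [Algebra k K]

/-- Combinations of homomorphisms in `A`. -/
def HS (A : Set (S →ₐ[k] K)) : Submodule ℚ (S → K) :=
  Submodule.span ℚ ((fun (χ : S →ₐ[k] K) (x : S) => χ x) '' A)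

theorem sum_mem_HS {A : Set (S →ₐ[k] K)} {ι : Type*} [Fintype ι] (χ : ι → (S →ₐ[k] K))
    (h : ∀ i, χ i ∈ A) : (fun x => ∑ i, χ i x) ∈ HS A := by
  have h1 : (fun x => ∑ i, χ i x) = ∑ i, fun x => χ i x := by
    funext x
    rw [Finset.sum_apply]
  rw [h1]
  exact Submodule.sum_mem _ fun i _ => Submodule.subset_span ⟨χ i, h i, rfl⟩

theorem trE_mem_HS {A : Set (S →ₐ[k] K)} (E : Multiset (S →ₐ[k] K)) (h : ∀ χ ∈ E, χ ∈ A) :
    (fun x => trE E x) ∈ HS A := by
  induction E using Multiset.induction_on with
  | empty =>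
    have h1 : (fun x => trE (0 : Multiset (S →ₐ[k] K)) x) = 0 := by
      funext x
      simp [trE]
    rw [h1]
    exact Submodule.zero_mem _
  | cons χ E ih =>
    have h1 : (fun x => trE (χ ::ₘ E) x) = (fun x => χ x) + fun x => trE E x := by
      funext x
      simp [trE]
    rw [h1]
    exact Submodule.add_mem _ (Submodule.subset_span ⟨χ, h χ (Multiset.mem_cons_self χ E), rfl⟩)
      (ih fun ψ hψ => h ψ (Multiset.mem_cons_of_mem hψ))

theorem trace_mem_HS [IsAlgClosed K] {B : Type*} [CommRing B] [Algebra k B] {N : ℕ}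
    (ρ : S →ₐ[k] Matrix (Fin N) (Fin N) B) (j : B →ₐ[k] K) :
    (fun x => j (ρ x).trace) ∈ HS {χ : S →ₐ[k] K | ∀ s, (j : B →+* K).IsIntegralElem (χ s)} := by
  obtain ⟨χ, hχ⟩ := exists_chars ((AlgHom.mapMatrix j).comp ρ)
  have h1 : ∀ s, ((AlgHom.mapMatrix j).comp ρ) s = (ρ s).map (j : B →+* K) := fun s => rfl
  have h2 : (fun x => j (ρ x).trace) = fun x => ∑ i, χ i x := by
    funext x
    have h3 := congrArg nextCoeff (hχ x)
    rw [prod_X_sub_C_nextCoeff] at h3
    have h4 := Matrix.trace_eq_neg_charpoly_nextCoeff (((AlgHom.mapMatrix j).comp ρ) x)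
    rw [h3, neg_neg] at h4
    rw [← h4, h1, Matrix.trace, Matrix.trace, map_sum]
    rfl
  rw [h2]
  refine sum_mem_HS χ fun i s => ?_
  refine ⟨(ρ s).charpoly, Matrix.charpoly_monic _, ?_⟩
  rw [← eval_map, ← Matrix.charpoly_map, ← h1, hχ, eval_prod]
  exact Finset.prod_eq_zero (Finset.mem_univ i) (by simp)

theorem fro_trE_eq_zero (E : Multiset (S →ₐ[k] K)) {n : ℕ} (hE : E.card < n) (s : Fin n → S) :
    fro (fun x => trE E x) n s = 0 := by
  have h1 : ∀ x, trE E x = ∑ i : Fin E.toList.length, (E.toList.get i : S →ₐ[k] K) x := by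
    intro x
    have h2 : trE E x = (E.toList.map fun χ => χ x).sum := by
      rw [trE, ← Multiset.sum_coe, ← Multiset.map_coe, Multiset.coe_toList]
    rw [h2]
    exact (Fin.sum_univ_fun_getElem E.toList (fun χ => χ x)).symm
  have h3 := fro_eq_zero (fun i : Fin E.toList.length => ((E.toList.get i : S →ₐ[k] K) : S →* K))
    (n := n) (by rw [Fintype.card_fin, Multiset.length_toList]; exact hE) s
  have h4 : (fun x => trE E x) =
      fun x => ∑ i : Fin E.toList.length, ((E.toList.get i : S →ₐ[k] K) : S →* K) x := funext h1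
  rw [h4]
  exact h3

end

/-- The symmetriser of `n` points is the difference of the values at `0` and `1` of a finite
correspondence over `B[X]`, up to tuples that contain the base point. -/
theorem exists_key {k : Type u} [Field k] [IsAlgClosed k] [CharZero k] {L : Type v} [Field L]
    [Algebra k L] (D : Crv k L) :
    ∃ n : ℕ, 0 < n ∧
      ∀ (B : Type w) [CommRing B] [IsDomain B] [Algebra k B]
        (x : Fin n → (intCl k D.h →ₐ[k] B)), Function.Injective x →
      ∃ (V : (Fin n → intCl k D.h) → B[X]) (U : (Fin n → intCl k D.h) → B),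
        (∀ s, ∑ σ : Equiv.Perm (Fin n), ∏ i, x (σ i) (s i) =
          (V s).eval 0 - (V s).eval 1 + U s) ∧
        (∀ (K : Type w) [Field K] [IsAlgClosed K] [CharZero K] [Algebra k K] (j : B[X] →ₐ[k] K),
          Function.Injective j → (fun s => j (V s)) ∈
            Tup {z : Fin n → (intCl k D.h →ₐ[k] K) |
              ∀ i s, (j : B[X] →+* K).IsIntegralElem (z i s)}) ∧
        ∀ (K : Type w) [Field K] [IsAlgClosed K] [CharZero K] [Algebra k K] (j : B →ₐ[k] K),
          Function.Injective j → (fun s => j (U s)) ∈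
            Tup {z : Fin n → (intCl k D.h →ₐ[k] K) | ∃ i, z i = (Algebra.ofId k K).comp D.P} := by
  obtain ⟨n, m, N, hn, hmain⟩ := exists_relB.{u, v, w} D
  refine ⟨n, hn, ?_⟩
  intro B _ _ _ x hx
  obtain ⟨ρ, t', hrel, hK⟩ := hmain B x hx
  let t : intCl k D.h → B := fun s => ∑ i, x i s
  let y : intCl k D.h → B[X] := fun s => (ρ s).trace
  let u : intCl k D.h → B := fun s => m * algebraMap k B (D.P s)
  have hdiff := fro_sub_fro (t := t) (t' := t') (u := u) (y := y) hrel n
  -- the correspondence of fewer than `n` points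
  have hzero : ∀ s, fro t' n s = 0 := by
    intro s
    let K := AlgebraicClosure (FractionRing B)
    let j : B →ₐ[k] K := IsScalarTower.toAlgHom k B K
    have hj : Function.Injective j := by
      intro a b h
      have h1 : algebraMap B K a = algebraMap B K b := h
      rw [IsScalarTower.algebraMap_apply B (FractionRing B) K,
        IsScalarTower.algebraMap_apply B (FractionRing B) K] at h1
      exact IsFractionRing.injective B (FractionRing B)
        ((algebraMap (FractionRing B) K).injective h1)
    have hc : CharZero K := charZero_of_injective_algebraMap (algebraMap k K).injective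
    obtain ⟨E, hE, -, hE'⟩ := hK K j hj
    apply hj
    have h1 := map_fro (j : B →+* K) t' n s
    have h2 : (fun z => (j : B →+* K) (t' z)) = fun z => trE E z := funext hE'
    rw [h2, fro_trE_eq_zero E hE s] at h1
    rw [map_zero]
    exact h1
  refine ⟨hV t t' y n, hU t t' u n, ?_, ?_, ?_⟩
  · intro s
    rw [← hdiff s, hzero, sub_zero]
    exact (fro_eq_sum_perm (fun i => (x i : intCl k D.h →* B)) s).symm
  · intro K _ _ _ _ j hj
    let jC : B →ₐ[k] K := j.comp ((Algebra.ofId B B[X]).restrictScalars k)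
    have hjC : Function.Injective jC := hj.comp C_injective
    have hval : ∀ b : B, (j : B[X] →+* K).IsIntegralElem (jC b) := fun b =>
      ⟨X - C (C b), monic_X_sub_C _, by
        rw [eval₂_sub, eval₂_X, eval₂_C]
        exact sub_self _⟩
    have hint : ∀ z : K, (jC : B →+* K).IsIntegralElem z → (j : B[X] →+* K).IsIntegralElem z := by
      rintro z ⟨p, hp, he⟩
      refine ⟨p.map C, hp.map C, ?_⟩
      rw [eval₂_map]
      exact he
    let A : Set (intCl k D.h →ₐ[k] K) := {χ | ∀ s, (j : B[X] →+* K).IsIntegralElem (χ s)}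
    have hset : {z : Fin n → (intCl k D.h →ₐ[k] K) |
        ∀ i s, (j : B[X] →+* K).IsIntegralElem (z i s)} = {z | ∀ i, z i ∈ A} := rfl
    rw [hset]
    refine Tup.hV (j : B[X] →+* K) (A := A) ?_ ?_ ?_ n
    · have h1 : (fun z => (j : B[X] →+* K) (C (t z))) =
          fun z => ∑ i, (jC.comp (x i)) z := by
        funext z
        simp only [t, map_sum]
        rfl
      rw [h1]
      exact sum_mem_HS (fun i => jC.comp (x i)) fun i s => hval _
    · obtain ⟨E, -, hE, hE'⟩ := hK K jC hjC
      have h1 : (fun z => (j : B[X] →+* K) (C (t' z))) = fun z => trE E z := funext hE'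
      rw [h1]
      exact trE_mem_HS E fun χ hχ s => hint _ (hE χ hχ s)
    · exact trace_mem_HS ρ j
  · intro K _ _ _ _ j hj
    refine Tup.hU (j : B →+* K) (P := (Algebra.ofId k K).comp D.P) (m : ℚ) ?_ ?_ ?_ n
    · have h1 : (fun z => (j : B →+* K) (t z)) = fun z => ∑ i, (j.comp (x i)) z := by
        funext z
        simp only [t, map_sum]
        rfl
      rw [h1]
      exact sum_mem_HS (fun i => j.comp (x i)) fun i => Set.mem_univ _
    · obtain ⟨E, -, -, hE'⟩ := hK K j hj
      have h1 : (fun z => (j : B →+* K) (t' z)) = fun z => trE E z := funext hE'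
      rw [h1]
      exact trE_mem_HS E fun χ _ => Set.mem_univ _
    · intro z
      simp only [u]
      rw [map_mul, map_natCast, Rat.smul_def, Rat.cast_natCast]
      congr 1
      exact j.commutes _

end Pool.Agent.SPC
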