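import Pool.Agent.SPC.CTr

/-!
# The relation between divisors with values in an arbitrary domain
-/

noncomputable section

namespace Pool.Agent.SPC

open Polynomial TensorProduct Pool.Agent.GSM

universe u v w

theorem exists_relB {k : Type u} [Field k] [IsAlgClosed k] [CharZero k] {L : Type v} [Field L]
    [Algebra k L] (D : Crv k L) :
    ∃ n m N : ℕ, 0 < n ∧
      ∀ (B : Type w) [CommRing B] [IsDomain B] [Algebra k B]
        (x : Fin n → (intCl k D.h →ₐ[k] B)), Function.Injective x →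
      ∃ (ρ : intCl k D.h →ₐ[k] Matrix (Fin N) (Fin N) B[X]) (t' : intCl k D.h → B),
        (∀ s, ∑ i, x i s - t' s =
          (ρ s).trace.eval 0 - (ρ s).trace.eval 1 + m * algebraMap k B (D.P s)) ∧
        ∀ (K : Type w) [Field K] [IsAlgClosed K] [Algebra k K] (j : B →ₐ[k] K),
          Function.Injective j →
        ∃ E : Multiset (intCl k D.h →ₐ[k] K), E.card < n ∧
          (∀ χ ∈ E, ∀ s, (j : B →+* K).IsIntegralElem (χ s)) ∧
          ∀ s, j (t' s) = trE E s := by
  classical
  obtain ⟨n, m, N, hn, hmain⟩ := curve_traces.{u, v, w} D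
  refine ⟨n, m, N, hn, ?_⟩
  intro B _ _ _ x hx
  obtain ⟨G, hG⟩ := (finiteType_intCl D.h D.tr D.fin).out
  let B₀ : Subalgebra k B := Algebra.adjoin k (⋃ i, x i '' (G : Set (intCl k D.h)))
  have hfin : (⋃ i, x i '' (G : Set (intCl k D.h))).Finite :=
    Set.finite_iUnion fun i => (Finset.finite_toSet G).image _
  have hft : Algebra.FiniteType k B₀ := by
    refine (Subalgebra.fg_iff_finiteType B₀).1 ⟨hfin.toFinset, ?_⟩
    rw [Set.Finite.coe_toFinset]
  have hmem : ∀ i s, x i s ∈ B₀ := by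
    intro i s
    have h1 : s ∈ Algebra.adjoin k (G : Set (intCl k D.h)) := by rw [hG]; trivial
    have h2 : x i s ∈ (Algebra.adjoin k (G : Set (intCl k D.h))).map (x i) := ⟨s, h1, rfl⟩
    rw [AlgHom.map_adjoin] at h2
    exact Algebra.adjoin_mono (Set.subset_iUnion (fun i => x i '' (G : Set (intCl k D.h))) i) h2
  let x₀ : Fin n → (intCl k D.h →ₐ[k] B₀) := fun i => (x i).codRestrict B₀ (hmem i)
  have hx₀ : Function.Injective x₀ := by
    intro i i' h
    apply hx
    ext s
    exact congrArg (fun f : intCl k D.h →ₐ[k] B₀ => ((f s : B₀) : B)) h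
  obtain ⟨ρ₀, hρ₀⟩ := hmain B₀ x₀ hx₀
  let ρ : intCl k D.h →ₐ[k] Matrix (Fin N) (Fin N) B[X] :=
    (AlgHom.mapMatrix (Polynomial.mapAlgHom B₀.val)).comp ρ₀
  let t₀ : intCl k D.h → B₀ := fun s => ∑ i, x₀ i s -
    ((ρ₀ s).trace.eval 0 - (ρ₀ s).trace.eval 1 + m * algebraMap k B₀ (D.P s))
  have htr : ∀ (s) (c : B₀), (ρ s).trace.eval (c : B) = (((ρ₀ s).trace.eval c : B₀) : B) := by
    intro s c
    have h1 : (ρ s).trace = (ρ₀ s).trace.map (B₀.val : B₀ →+* B) := by
      rw [Matrix.trace, Matrix.trace, Polynomial.map_sum]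
      rfl
    rw [h1]
    exact Polynomial.eval_map_apply (f := (B₀.val : B₀ →+* B)) (x := c) (p := (ρ₀ s).trace)
  refine ⟨ρ, fun s => (t₀ s : B), ?_, ?_⟩
  · intro s
    have h0 := htr s 0
    have h1 := htr s 1
    rw [ZeroMemClass.coe_zero] at h0
    rw [OneMemClass.coe_one] at h1
    rw [h0, h1]
    simp only [t₀, x₀]
    push_cast
    simp
  · intro K _ _ _ j hj
    let _ : Algebra B₀ K := (j.comp B₀.val).toRingHom.toAlgebra
    have : IsScalarTower k B₀ K := IsScalarTower.of_algebraMap_eq fun c => by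
      show algebraMap k K c = j (B₀.val (algebraMap k B₀ c))
      rw [AlgHom.commutes, AlgHom.commutes]
    have hinj : Function.Injective (algebraMap B₀ K) :=
      hj.comp Subtype.val_injective
    obtain ⟨E, hE, hint, hrel⟩ := hρ₀ K hinj
    refine ⟨E, hE, ?_, ?_⟩
    · intro χ hχ s
      obtain ⟨p, hp, hp'⟩ := hint χ hχ s
      refine ⟨p.map (B₀.val : B₀ →+* B), hp.map _, ?_⟩
      rw [eval₂_map]
      exact hp'
    · intro s
      have h1 := hrel s
      have h2 : j (t₀ s : B) = algebraMap B₀ K (t₀ s) := rfl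
      rw [h2]
      simp only [t₀, map_sub, map_add, map_sum, map_mul, map_natCast]
      rw [← IsScalarTower.algebraMap_apply k B₀ K]
      linear_combination -h1

end Pool.Agent.SPC
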