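import Pool.Agent.SPC.HCor

/-!
# Specialisation of finite correspondences; independence of characters
-/

noncomputable section

namespace Pool.Agent.SPC

universe u v w

open SDG

section

variable {B B' K' B'' K'' : Type u} [CommRing B] [IsDomain B] [HasRat B] [CommRing B'] [IsDomain B']
  [HasRat B'] [Field K'] [CharZero K'] [CommRing B''] [IsDomain B''] [HasRat B''] [Field K'']
  [IsAlgClosed K''] [CharZero K'']

theorem DGF.exists_spec (A : DGF.{u}) (j : B' →+* K') (hj : Function.Injective j) {ι : Type}
    [Fintype ι] (c : ι → ℚ) (chi : ι → (B →+* K')) (hint : ∀ i b, j.IsIntegralElem (chi i b))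
    (θ₀ : B' →+* K'') : ∃ chi' : ι → (B →+* K''),
      (∀ b b', j b' = ∑ i, c i • chi i b → θ₀ b' = ∑ i, c i • chi' i b) ∧
      ∀ (a : A.obj B) (a' : A.obj B'), A.map j a' = ∑ i, c i • A.map (chi i) a →
        A.map θ₀ a' = ∑ i, c i • A.map (chi' i) a := by
  let _ : Algebra B' K' := j.toAlgebra
  let jp : B' →+* integralClosure B' K' := algebraMap B' (integralClosure B' K')
  let v : integralClosure B' K' →+* K' := (integralClosure B' K').val.toRingHom
  have hv : Function.Injective v := Subtype.val_injective
  have hvj : v.comp jp = j := rfl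
  have hjp : Function.Injective jp := by
    intro x y h
    exact hj (congrArg v h)
  have hjint : jp.IsIntegral := by
    intro y
    obtain ⟨P, hP, he⟩ := y.2
    refine ⟨P, hP, hv ?_⟩
    rw [Polynomial.hom_eval₂, map_zero]
    exact he
  obtain ⟨θ, hθ⟩ := exists_extend jp hjp hjint θ₀
  have hr : HasRat (integralClosure B' K') := HasRat.of_hom jp
  let _ : Algebra ℚ (integralClosure B' K') := ratAlgebra _
  let cp : ι → (B →+* integralClosure B' K') := fun i =>
    (chi i).codRestrict (integralClosure B' K').toSubring (fun b => hint i b)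
  have hcp : ∀ i, v.comp (cp i) = chi i := fun i => rfl
  refine ⟨fun i => θ.comp (cp i), ?_, ?_⟩
  · intro b b' h
    have h1 : jp b' = ∑ i, c i • cp i b := by
      apply hv
      rw [map_sum]
      refine h.trans ?_
      exact Finset.sum_congr rfl fun i _ => (map_rat_smul v (c i) (cp i b)).symm
    have h2 := congrArg θ h1
    rw [map_sum] at h2
    have h3 : θ (jp b') = θ₀ b' := congrArg (fun f : B' →+* K'' => f b') hθ
    rw [← h3, h2]
    exact Finset.sum_congr rfl fun i _ => map_rat_smul θ (c i) (cp i b)
  · intro a a' h
    have h1 : A.map jp a' = ∑ i, c i • A.map (cp i) a := by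
      apply A.inj v hv
      rw [map_sum, ← A.map_comp_apply]
      refine h.trans ?_
      exact Finset.sum_congr rfl fun i _ => by rw [map_smul, ← A.map_comp_apply, hcp]
    have h2 := congrArg (A.map θ) h1
    rw [map_sum, ← A.map_comp_apply, hθ] at h2
    rw [h2]
    exact Finset.sum_congr rfl fun i _ => by rw [map_smul, ← A.map_comp_apply]

/-- Rational combinations of homomorphisms with the same values act in the same way. -/
theorem DGF.sum_eq_zero_of_trace (A : DGF.{u}) {ι : Type} [Fintype ι] (c : ι → ℚ)
    (chi : ι → (B →+* K')) (h : ∀ b, ∑ i, c i • chi i b = 0) (a : A.obj B) :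
    ∑ i, c i • A.map (chi i) a = 0 := by
  classical
  -- group equal homomorphisms
  have hmon : LinearIndependent K' (fun f : B →* K' => (f : B → K')) := linearIndependent_monoidHom B K'
  have hlin : LinearIndependent K' (fun f : B →+* K' => (f : B → K')) := by
    have h1 := hmon.comp (fun f : B →+* K' => (f : B →* K')) (by
      intro f g hfg
      apply RingHom.ext
      intro b
      exact congrArg (fun f : B →* K' => f b) hfg)
    exact h1
  -- the coefficient of each homomorphism vanishes
  have hz : ∀ f : B →+* K', ∑ i ∈ Finset.univ.filter (fun i => chi i = f), c i = 0 := by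
    intro f
    let s : Finset (B →+* K') := Finset.univ.image chi
    by_cases hf : f ∈ s
    · have h2 : ∑ g ∈ s, ((∑ i ∈ Finset.univ.filter (fun i => chi i = g), c i : ℚ) : K') •
          (fun b => g b) = (0 : B → K') := by
        funext b
        rw [Finset.sum_apply, Pi.zero_apply, ← h b]
        rw [← Finset.sum_fiberwise_of_maps_to (s := Finset.univ) (t := s) (g := chi)
          (fun i _ => Finset.mem_image_of_mem _ (Finset.mem_univ i))]
        refine Finset.sum_congr rfl fun g _ => ?_
        rw [Pi.smul_apply, smul_eq_mul, Rat.cast_sum, Finset.sum_mul]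
        refine Finset.sum_congr rfl fun i hi => ?_
        rw [(Finset.mem_filter.1 hi).2, Rat.smul_def]
      have h3 := linearIndependent_iff'.1 hlin s _ h2 f hf
      exact_mod_cast h3
    · rw [Finset.filter_eq_empty_iff.2, Finset.sum_empty]
      intro i _ hi
      exact hf (hi ▸ Finset.mem_image_of_mem _ (Finset.mem_univ i))
  rw [← Finset.sum_fiberwise_of_maps_to (s := Finset.univ) (t := Finset.univ.image chi) (g := chi)
    (fun i _ => Finset.mem_image_of_mem _ (Finset.mem_univ i))]
  refine Finset.sum_eq_zero fun g _ => ?_
  have h4 : ∑ i ∈ Finset.univ.filter (fun i => chi i = g), c i • A.map (chi i) a =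
      ∑ i ∈ Finset.univ.filter (fun i => chi i = g), c i • A.map g a := by
    refine Finset.sum_congr rfl fun i hi => ?_
    rw [(Finset.mem_filter.1 hi).2]
  rw [h4, ← Finset.sum_smul, hz, zero_smul]

end

end Pool.Agent.SPC
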