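import Pool.Agent.SPC.HKey
import Pool.Agent.SPC.HIns
import Pool.Agent.SPC.HBase
import Pool.Agent.SPC.HSpec

/-!
# The symmetriser of many points of a curve is a homotopy
-/

noncomputable section

namespace Pool.Agent.SPC

open Polynomial TensorProduct Pool.Agent.GSM SDG

universe u v w

/-- The inclusion of a domain in the algebraic closure of its field of fractions. -/
def jOm (k : Type u) [Field k] (B : Type u) [CommRing B] [IsDomain B] [Algebra k B] :
    B →ₐ[k] AlgebraicClosure (FractionRing B) :=
  IsScalarTower.toAlgHom k B _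

theorem jOm_injective (k : Type u) [Field k] (B : Type u) [CommRing B] [IsDomain B] [Algebra k B] :
    Function.Injective (jOm k B) := by
  intro a b h
  have h1 : algebraMap B (AlgebraicClosure (FractionRing B)) a =
    algebraMap B (AlgebraicClosure (FractionRing B)) b := h
  rw [IsScalarTower.algebraMap_apply B (FractionRing B) (AlgebraicClosure (FractionRing B)),
    IsScalarTower.algebraMap_apply B (FractionRing B) (AlgebraicClosure (FractionRing B))] at h1
  exact IsFractionRing.injective B (FractionRing B)
    ((algebraMap (FractionRing B) (AlgebraicClosure (FractionRing B))).injective h1)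

section

variable {k S Om B : Type u} [Field k] [CharZero k] [CommRing S] [Algebra k S] [CommRing Om]
  [IsDomain Om] [HasRat Om] [Algebra k Om] [CommRing B] [IsDomain B] [HasRat B] [Algebra k B]
  {T : Type} [Fintype T] [DecidableEq T]

/-- The homotopy given by `V`. -/
theorem symNull_of_key (A : DGF.{u}) (X : Crd k S Om B T) {n : ℕ} (f : Fin n ↪ T) (P : S →ₐ[k] k)
    (V : (Fin n → S) → B[X]) (U : (Fin n → S) → B)
    (hVU : ∀ s, ∑ σ : Equiv.Perm (Fin n), ∏ i, X.x (f (σ i)) (s i) =
      (V s).eval 0 - (V s).eval 1 + U s)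
    (hV : ∀ (K : Type u) [Field K] [IsAlgClosed K] [CharZero K] [Algebra k K] (j : B[X] →ₐ[k] K),
      Function.Injective j → (fun s => j (V s)) ∈
        Tup {z : Fin n → (S →ₐ[k] K) | ∀ i s, (j : B[X] →+* K).IsIntegralElem (z i s)})
    (hU : ∀ (K : Type u) [Field K] [IsAlgClosed K] [CharZero K] [Algebra k K] (j : B →ₐ[k] K),
      Function.Injective j → (fun s => j (U s)) ∈
        Tup {z : Fin n → (S →ₐ[k] K) | ∃ i, z i = (Algebra.ofId k K).comp P}) :
    SymNull A X f P := by
  classical
  let K' := AlgebraicClosure (FractionRing B[X])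
  let K := AlgebraicClosure (FractionRing B)
  have hc' : CharZero K' := charZero_of_injective_algebraMap (algebraMap k K').injective
  have hc : CharZero K := charZero_of_injective_algebraMap (algebraMap k K).injective
  let j' : B[X] →ₐ[k] K' := jOm k B[X]
  have hj' : Function.Injective j' := jOm_injective k B[X]
  let j : B →ₐ[k] K := jOm k B
  have hj : Function.Injective j := jOm_injective k B
  let cC : B →ₐ[k] B[X] := (Algebra.ofId B B[X]).restrictScalars k
  -- the correspondence over `B[X]`
  obtain ⟨N, c, z, hz, hVz⟩ := Tup.exists_fin (hV K' j' hj')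
  let chi : Fin N → (B →ₐ[k] K') := fun a => X.ins f (j'.comp cC) (z a)
  have hint : ∀ a b, (j' : B[X] →+* K').IsIntegralElem (chi a b) := by
    intro a b
    refine X.ins_isIntegral (j' : B[X] →+* K') f (j'.comp cC) (z a) ?_ (hz a) b
    intro b
    exact ⟨Polynomial.X - C (C b), monic_X_sub_C _, by
      rw [eval₂_sub, eval₂_X, eval₂_C]
      exact sub_self _⟩
  have hval : ∀ w s, (j' : B[X] →+* K') (C (X.rest f w s) * V (fun i => s (f i))) =
      ∑ a, c a • (chi a : B →+* K') (X.c w * ∏ t, X.x t (s t)) := by
    intro w s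
    have h1 := X.sum_ins f (j'.comp cC) c z w s
    have h2 := hVz (fun i => s (f i))
    rw [map_mul]
    refine Eq.trans ?_ h1.symm
    rw [← h2]
    rfl
  have htr : IsTrace (j' : B[X] →+* K') c (fun a => (chi a : B →+* K')) := by
    refine ⟨hint, ?_⟩
    refine X.induct ⟨0, ?_⟩ ?_ ?_
    · simp
    · rintro a b ⟨a', ha'⟩ ⟨b', hb'⟩
      refine ⟨a' + b', ?_⟩
      rw [map_add, ha', hb', ← Finset.sum_add_distrib]
      exact Finset.sum_congr rfl fun i _ => by rw [map_add, smul_add]
    · intro w s
      exact ⟨_, hval w s⟩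
  obtain ⟨Q, hQ, hQp, hQd, hQm⟩ := A.exists_op (j' : B[X] →+* K') hj' c _ htr
  -- the homotopy
  refine ⟨(A.htp B).comp Q, ?_, ?_, ?_⟩
  · intro a
    rw [LinearMap.comp_apply, LinearMap.comp_apply, hQp, A.htp_par]
  · intro a b
    rw [LinearMap.comp_apply, LinearMap.comp_apply]
    have h1 := hQm (X.c : Om →+* B) ((C : B →+* B[X]).comp (X.c : Om →+* B)) (by
      intro a
      apply RingHom.ext
      intro w
      exact X.ins_c f (j'.comp cC) (z a) w) a b
    rw [h1, A.map_comp_apply, A.htp_mul]
  · intro a ha
    rw [LinearMap.comp_apply, LinearMap.comp_apply, hQd, A.htp_d]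
    -- compare over `K`
    apply A.inj (j : B →+* K) hj
    obtain ⟨chi0, h0, h0'⟩ := A.exists_spec (j' : B[X] →+* K') hj' c (fun a => (chi a : B →+* K'))
      hint ((j : B →+* K).comp (evalRingHom 0))
    obtain ⟨chi1, h1, h1'⟩ := A.exists_spec (j' : B[X] →+* K') hj' c (fun a => (chi a : B →+* K'))
      hint ((j : B →+* K).comp (evalRingHom 1))
    obtain ⟨M, e, y, hy, hUy⟩ := Tup.exists_fin (hU K j hj)
    let psi : Fin M → (B →ₐ[k] K) := fun b => X.ins f j (y b)
    have hpsi : ∀ b, A.map (psi b : B →+* K) a = 0 := by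
      intro b
      obtain ⟨i, hi⟩ := hy b
      have h2 := X.ins_setPt f j (y b) P i hi
      have h3 : (psi b : B →+* K) = (psi b : B →+* K).comp (X.setPt P (f i) : B →+* B) := by
        apply RingHom.ext
        intro c
        exact (congrArg (fun g : B →ₐ[k] K => g c) h2).symm
      rw [h3, A.map_comp_apply, ha i, map_zero]
    -- all homomorphisms together
    have hall := A.sum_eq_zero_of_trace (K' := K) (B := B)
      (ι := (Fin N ⊕ Fin N) ⊕ (Fin M ⊕ Equiv.Perm (Fin n)))
      (Sum.elim (Sum.elim c (fun a => -c a)) (Sum.elim e (fun _ => -1)))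
      (Sum.elim (Sum.elim chi0 chi1) (Sum.elim (fun b => (psi b : B →+* K))
        (fun σ => (j : B →+* K).comp (X.permF f σ : B →+* B)))) (by
        refine X.induct ?_ ?_ ?_
        · simp
        · intro a b ha hb
          have h5 : ∀ (g : (Fin N ⊕ Fin N) ⊕ (Fin M ⊕ Equiv.Perm (Fin n)) → (B →+* K))
              (r : (Fin N ⊕ Fin N) ⊕ (Fin M ⊕ Equiv.Perm (Fin n)) → ℚ),
              ∑ i, r i • g i (a + b) = ∑ i, r i • g i a + ∑ i, r i • g i b := by
            intro g r
            rw [← Finset.sum_add_distrib]
            exact Finset.sum_congr rfl fun i _ => by rw [map_add, smul_add]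
          rw [h5, ha, hb, add_zero]
        · intro w s
          simp only [Fintype.sum_sum_type, Sum.elim_inl, Sum.elim_inr, neg_smul, one_smul,
            Finset.sum_neg_distrib]
          rw [← h0 _ _ (hval w s), ← h1 _ _ (hval w s)]
          have h6 : ∑ b, e b • (psi b : B →+* K) (X.c w * ∏ t, X.x t (s t)) =
              j (X.rest f w s) * j (U fun i => s (f i)) := by
            have h7 := X.sum_ins f j e y w s
            have h8 := hUy (fun i => s (f i))
            rw [h8]
            exact h7
          have h9 : ∑ σ : Equiv.Perm (Fin n), ((j : B →+* K).comp (X.permF f σ : B →+* B))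
              (X.c w * ∏ t, X.x t (s t)) = j (X.rest f w s *
                ∑ σ : Equiv.Perm (Fin n), ∏ i, X.x (f (σ i)) (s (f i))) := by
            rw [Finset.mul_sum, map_sum]
            refine Finset.sum_congr rfl fun σ _ => ?_
            exact congrArg j (X.permF_prod f σ w s)
          rw [h6, h9, hVU]
          simp only [RingHom.comp_apply, coe_evalRingHom, eval_mul, eval_C]
          have h10 : ∀ b : B, (j : B →+* K) b = j b := fun b => rfl
          rw [h10, h10, ← map_mul]
          simp only [map_mul, map_add, map_sub]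
          ring) a
    simp only [Fintype.sum_sum_type, Sum.elim_inl, Sum.elim_inr, neg_smul, one_smul,
      Finset.sum_neg_distrib] at hall
    have h11 : ∑ b, e b • A.map (psi b : B →+* K) a = 0 :=
      Finset.sum_eq_zero fun b _ => by rw [hpsi b, smul_zero]
    rw [← h0' a (Q a) (hQ a), ← h1' a (Q a) (hQ a), h11, A.map_comp_apply, A.map_comp_apply] at hall
    rw [map_sub, map_sum]
    have h12 : ∑ σ : Equiv.Perm (Fin n), A.map (j : B →+* K) (A.map (X.permF f σ : B →+* B) a) =
        ∑ σ : Equiv.Perm (Fin n), A.map ((j : B →+* K).comp (X.permF f σ : B →+* B)) a :=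
      Finset.sum_congr rfl fun σ _ => (A.map_comp_apply _ _ _).symm
    rw [h12]
    have h13 : ∀ p q r : A.obj K, p + -q + (0 + -r) = 0 → p - q = r := by
      intro p q r h
      rw [zero_add, ← sub_eq_add_neg, ← sub_eq_add_neg, sub_eq_zero] at h
      exact h
    exact h13 _ _ _ hall

end

/-- For a curve over an algebraically closed field there is `n > 0` such that the symmetriser of any
`n` coordinates is a homotopy on the elements that vanish when one of them is the base point. -/
theorem sym_null {k : Type u} [Field k] [IsAlgClosed k] [CharZero k] {L : Type u} [Field L]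
    [Algebra k L] (D : Crv k L) :
    ∃ n : ℕ, 0 < n ∧ ∀ (A : DGF.{u}) (Om B : Type u) [CommRing Om] [IsDomain Om] [HasRat Om]
      [Algebra k Om] [CommRing B] [IsDomain B] [HasRat B] [Algebra k B] (T : Type) [Fintype T]
      [DecidableEq T] (X : Crd k (intCl k D.h) Om B T) (f : Fin n ↪ T)
      (x₀ : intCl k D.h →ₐ[k] k), SymNull A X f x₀ := by
  obtain ⟨n, hn, hkey⟩ := exists_key.{u, u, u} D
  refine ⟨n, hn, ?_⟩
  intro A Om B _ _ _ _ _ _ _ _ T _ _ X f x₀
  obtain ⟨V, U, h1, h2, h3⟩ := hkey B (fun i => X.x (f i)) (X.x_inj.comp f.injective)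
  exact (symNull_of_key A X f D.P V U h1 h2 h3).base x₀

end Pool.Agent.SPC
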