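import Pool.Agent.SPC.Trans
import Pool.Agent.SPC.Pts

/-!
# Tensor nilpotence at the points of a domain

The functorial predicate `tensor nilpotent` on pairs (twisted complex, even closed element) and the
conclusions of the chain of points for it.
-/

noncomputable section

namespace Pool.Agent.SPC

open SDG Pool.Agent.GSM

universe u

namespace DGF

/-- Transport holds from every point of a curve to every other point. -/
def Transport (A : DGF.{u}) : Prop :=
  ∀ {k : Type u} [Field k] [IsAlgClosed k] [CharZero k] {L : Type u} [Field L]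
    [Algebra k L] (D : Crv k L) (x : intCl k D.h →ₐ[k] k) {Om : Type u} [Field Om]
    [CharZero Om] [IsAlgClosed Om] [Algebra k Om] (eta : intCl k D.h →ₐ[k] Om),
    A.Transports (x : intCl k D.h →+* k) (eta : intCl k D.h →+* Om)

variable (A : DGF.{u})

theorem bc_id {B : Type u} [CommRing B] [IsDomain B] [HasRat B] (P : PT (A.obj B)) :
    A.bc (RingHom.id B) P = P := by
  unfold bc
  rw [A.map_id]
  rfl

/-- The functorial predicate. -/
def toPF (h : A.Transport) : PF.{u, max u 1} where
  Obj R := {P : PT (A.obj R) // P.Even ∧ P.Closed}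
  map g P := ⟨A.bc g P.1, PT.Even.map _ P.2.1, PT.Closed.map _ P.2.2⟩
  map_map g g' P := Subtype.ext (A.bc_comp g' g P.1).symm
  map_id P := Subtype.ext (A.bc_id P.1)
  T P := P.1.TN
  T_map g P hP := PT.TN.map _ hP
  cont i _ P hP := by
    obtain ⟨F, hF⟩ := A.tn_cont i P.1 hP
    exact ⟨F, F.finite_toSet, fun g j hj hji hFj => hF _ g j hj hji fun y hy => hFj y hy⟩
  contObj P := by
    obtain ⟨F, hF⟩ := A.obj_cont P.1
    refine ⟨F, F.finite_toSet, fun {B} _ _ _ j hj hFj => ?_⟩
    obtain ⟨Q, hQ⟩ := hF B j hj fun y hy => hFj y hy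
    have h1 : (A.bc j Q).Even := by rw [hQ]; exact P.2.1
    have h2 : (A.bc j Q).Closed := by rw [hQ]; exact P.2.2
    exact ⟨⟨Q, A.even_of_inj j hj h1, A.closed_of_inj j hj h2⟩, Subtype.ext hQ⟩
  fin P hP := A.tn_fin hP
  transport D x _ _ _ _ _ eta P hP := A.tn_of_transports (h D x eta) P.2.1 P.2.2 hP

/-- Tensor nilpotence does not depend on the point. -/
theorem points (h : A.Transport) {k : Type u} [Field k] [IsAlgClosed k] [CharZero k] {R : Type u}
    [CommRing R] [IsDomain R] [HasRat R] [Algebra k R] [Algebra.FiniteType k R] {K : Type u} [Field K] [CharZero K]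
    [Algebra k K] (p q : R →ₐ[k] K) (P : PT (A.obj R)) (hP : P.Even) (hP' : P.Closed) :
    (A.bc (p : R →+* K) P).TN ↔ (A.bc (q : R →+* K) P).TN :=
  (A.toPF h).points p q ⟨P, hP, hP'⟩

/-- The nilpotence theorem over a field: an even closed element of a finite twisted complex
whose image under the augmentation is a boundary is tensor nilpotent. -/
def NT (K : Type u) [Field K] [CharZero K] : Prop :=
  ∀ P : PT (A.obj K), P.Even → P.Closed → (P.map (A.eps K)).Exact → P.TN

theorem map_eps {B B' : Type u} [CommRing B] [IsDomain B] [HasRat B] [CommRing B'] [IsDomain B'] [HasRat B']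
    (f : B →+* B') (P : PT (A.obj B)) : (A.bc f P).map (A.eps B') = P.map (A.eps B) := by
  have h1 : (A.eps B').comp (A.map f) = A.eps B := SHom.ext fun a => A.eps_map f a
  unfold bc
  rw [PT.map_map, h1]

theorem nt_of_nt (h : A.Transport) {k : Type u} [Field k] [IsAlgClosed k] [CharZero k]
    {K : Type u} [Field K] [CharZero K] [Algebra k K] (hk : A.NT k) : A.NT K := by
  intro P hP hP' hPe
  refine (A.toPF h).all (k := k) (K := K)
    (fun {R} _ _ _ (x : (A.toPF h).Obj R) => ((x : {P : PT (A.obj R) // P.Even ∧ P.Closed}).1.map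
      (A.eps R)).Exact) ?_ ?_ ?_ ⟨P, hP, hP'⟩ hPe
  · intro R R' _ _ _ _ _ _ g x hx
    change ((A.bc g x.1).map (A.eps R')).Exact
    rw [A.map_eps]
    exact hx
  · intro R R' _ _ _ _ _ _ g _ x hx
    change ((A.bc g x.1).map (A.eps R')).Exact at hx
    rw [A.map_eps] at hx
    exact hx
  · intro x hx
    exact hk x.1 x.2.1 x.2.2 hx

end DGF

end Pool.Agent.SPC
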