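import Pool.Agent.SPC.PDefs

/-!
# Extension of permutations along embeddings
-/

noncomputable section

namespace Pool.Agent.SPC

open Equiv

variable {X Y Z : Type}

theorem pe_mul (σ τ : Perm X) : pe (σ * τ) = pe σ * pe τ := by
  exact map_mul (MonoidAlgebra.of ℚ (Perm X)) σ τ

theorem pe_one : (pe 1 : QS X) = 1 := by
  exact map_one (MonoidAlgebra.of ℚ (Perm X))

theorem push_pe (f : X ↪ Y) (σ : Perm X) : push f (pe σ) = pe (via f σ) := by
  simp only [push, pe, MonoidAlgebra.of_apply]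
  exact MonoidAlgebra.mapDomain_single

theorem via_apply (f : X ↪ Y) (ρ : Perm X) (x : X) : via f ρ (f x) = f (ρ x) := by
  rw [via, Perm.viaEmbeddingHom_apply]
  exact Perm.viaEmbedding_apply ρ f x

theorem via_apply_of_notMem (f : X ↪ Y) (ρ : Perm X) (y : Y) (hy : y ∉ Set.range f) : via f ρ y = y := by
  rw [via, Perm.viaEmbeddingHom_apply]
  exact Perm.viaEmbedding_apply_of_notMem ρ f y hy

theorem via_via (g : Y ↪ Z) (f : X ↪ Y) (ρ : Perm X) : via g (via f ρ) = via (f.trans g) ρ := by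
  ext z
  by_cases hz : z ∈ Set.range (f.trans g)
  · obtain ⟨x, rfl⟩ := hz
    rw [via_apply (f.trans g) ρ x]
    change via g (via f ρ) (g (f x)) = g (f (ρ x))
    rw [via_apply g (via f ρ) (f x), via_apply f ρ x]
  · rw [via_apply_of_notMem (f.trans g) ρ z hz]
    by_cases hy : z ∈ Set.range g
    · obtain ⟨y, rfl⟩ := hy
      rw [via_apply g (via f ρ) y, via_apply_of_notMem f ρ y]
      rintro ⟨x, rfl⟩
      exact hz ⟨x, rfl⟩
    · exact via_apply_of_notMem g _ z hy

theorem via_conj (f : X ↪ Y) (σ : Perm Y) (ρ : Perm X) : via (f.trans σ.toEmbedding) ρ = σ * via f ρ * σ⁻¹ := by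
  ext y
  rw [Perm.mul_apply, Perm.mul_apply]
  by_cases hy : y ∈ Set.range (f.trans σ.toEmbedding)
  · obtain ⟨x, rfl⟩ := hy
    rw [via_apply (f.trans σ.toEmbedding) ρ x]
    change σ (f (ρ x)) = σ (via f ρ (σ⁻¹ (σ (f x))))
    have h1 : σ⁻¹ (σ (f x)) = f x := σ.symm_apply_apply (f x)
    rw [h1, via_apply f ρ x]
  · have h1 : σ (σ⁻¹ y) = y := σ.apply_symm_apply y
    rw [via_apply_of_notMem _ ρ y hy, via_apply_of_notMem f ρ (σ⁻¹ y), h1]
    rintro ⟨x, hx⟩
    apply hy
    refine ⟨x, ?_⟩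
    change σ (f x) = y
    rw [hx, h1]

theorem chr_one (e : Bool) (n : ℕ) : chr e (1 : Perm (Fin n)) = 1 := by
  cases e <;> simp [chr]

theorem chr_mul (e : Bool) {n : ℕ} (σ τ : Perm (Fin n)) : chr e (σ * τ) = chr e σ * chr e τ := by
  cases e <;> simp [chr]

theorem chr_mul_self (e : Bool) {n : ℕ} (σ : Perm (Fin n)) : chr e σ * chr e σ = 1 := by
  cases e
  · simp [chr]
  · rcases Int.units_eq_one_or (Perm.sign σ) with h | h <;> simp [chr, h]

theorem chr_inv (e : Bool) {n : ℕ} (σ : Perm (Fin n)) : chr e σ⁻¹ = chr e σ := by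
  cases e <;> simp [chr]

theorem chr_not (e : Bool) {n : ℕ} (σ : Perm (Fin n)) : chr true σ * chr e σ = chr (!e) σ := by
  cases e
  · simp [chr]
  · rcases Int.units_eq_one_or (Perm.sign σ) with h | h <;> simp [chr, h]

theorem chr_via (e : Bool) {n n' : ℕ} (f : Fin n ↪ Fin n') (ρ : Perm (Fin n)) : chr e (via f ρ) = chr e ρ := by
  classical
  have h : via f ρ = ρ.viaFintypeEmbedding f := by
    ext y
    by_cases hy : y ∈ Set.range f
    · obtain ⟨x, rfl⟩ := hy
      rw [via_apply f ρ x, Perm.viaFintypeEmbedding_apply_image]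
    · rw [via_apply_of_notMem f ρ y hy, Perm.viaFintypeEmbedding_apply_notMem_range _ _ hy]
  have h2 : Perm.sign (via f ρ) = Perm.sign ρ := by
    rw [h]
    exact Perm.viaFintypeEmbedding_sign ρ f
  cases e
  · simp [chr]
  · rw [chr, chr, h2]

end Pool.Agent.SPC
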