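import Pool.Agent.SPC.KDef
import Pool.Agent.SPC.PVia

/-!
# SPC, part K: signs of permutations of blocks

The signs are products over all ordered pairs of blocks; two such products are equal if the factors of
`(x, y)` and `(y, x)` have the same product for all `x ≠ y`.
-/

noncomputable section

namespace Pool.Agent.SPC

open Equiv

variable {n : ℕ}

private theorem ks_sq (a : ℕ) : (-1 : ℚ) ^ a * (-1) ^ a = 1 := by
  rw [← mul_pow]
  norm_num

private theorem ks_bs (i : Fin n → ℕ) (b : Fin n) :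
    bs i b = ∏ c, if c < b then (-1 : ℚ) ^ i c else 1 := by
  unfold bs
  rw [Finset.prod_filter]

private theorem ks_kp (σ : Perm (Fin n)) (i : Fin n → ℕ) :
    kp σ i = ∏ x, ∏ y, if x < y ∧ σ y < σ x then (-1 : ℚ) ^ (i (σ x) * i (σ y)) else 1 := by
  unfold kp
  rw [Finset.prod_filter, ← Finset.univ_product_univ, Finset.prod_product]

private theorem ks_one (w : Fin n) (a : ℚ) : (∏ x, if x = w then a else 1) = a := by
  rw [Finset.prod_eq_single w]
  · exact if_pos rfl
  · intro x _ hx
    exact if_neg hx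
  · intro h
    exact absurd (Finset.mem_univ w) h

private theorem ks_col (w : Fin n) (B : Fin n → ℚ) :
    (∏ x, ∏ y, if x = w then B y else 1) = ∏ y, B y := by
  rw [Finset.prod_eq_single w]
  · exact Finset.prod_congr rfl fun y _ => if_pos rfl
  · intro x _ hx
    exact Finset.prod_eq_one fun y _ => if_neg hx
  · intro h
    exact absurd (Finset.mem_univ w) h

private theorem ks_sym {α : Type} [DecidableEq α] (V : Finset α) (g k : α → α → ℚ)
    (h0 : ∀ p, g p p = k p p) (h1 : ∀ p q, p ≠ q → g p q * g q p = k p q * k q p) :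
    ∏ p ∈ V, ∏ q ∈ V, g p q = ∏ p ∈ V, ∏ q ∈ V, k p q := by
  induction V using Finset.induction_on with
  | empty => rfl
  | insert a V ha ih =>
    have key : ∀ g : α → α → ℚ, ∏ p ∈ insert a V, ∏ q ∈ insert a V, g p q =
        g a a * (∏ q ∈ V, g a q * g q a) * ∏ p ∈ V, ∏ q ∈ V, g p q := by
      intro g
      rw [Finset.prod_insert ha, Finset.prod_insert ha]
      have h2 : ∏ p ∈ V, ∏ q ∈ insert a V, g p q = (∏ p ∈ V, g p a) * ∏ p ∈ V, ∏ q ∈ V, g p q := by
        rw [← Finset.prod_mul_distrib]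
        exact Finset.prod_congr rfl fun p _ => Finset.prod_insert ha
      rw [h2, Finset.prod_mul_distrib]
      ring
    rw [key, key, ih, h0, Finset.prod_congr rfl fun q hq => h1 a q (fun h => ha (h ▸ hq))]

theorem bs_mul_self (i : Fin n → ℕ) (b : Fin n) : bs i b * bs i b = 1 := by
  unfold bs
  rw [← Finset.prod_mul_distrib]
  exact Finset.prod_eq_one fun c _ => ks_sq _

theorem kp_mul_self (σ : Perm (Fin n)) (i : Fin n → ℕ) : kp σ i * kp σ i = 1 := by
  unfold kp
  rw [← Finset.prod_mul_distrib]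
  exact Finset.prod_eq_one fun c _ => ks_sq _

theorem kp_one (i : Fin n → ℕ) : kp 1 i = 1 := by
  unfold kp
  refine Finset.prod_eq_one fun p hp => ?_
  have h := (Finset.mem_filter.1 hp).2
  exact absurd h.2 (not_lt.2 h.1.le)

theorem kp_zero (σ : Perm (Fin n)) : kp σ 0 = 1 := by
  unfold kp
  refine Finset.prod_eq_one fun p _ => ?_
  rw [Pi.zero_apply, zero_mul, pow_zero]

theorem kp_mul (τ σ : Perm (Fin n)) (i : Fin n → ℕ) : kp (τ * σ) i = kp τ i * kp σ (i ∘ τ) := by
  rw [ks_kp, ks_kp, ks_kp]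
  have h1 : (∏ x, ∏ y, if x < y ∧ τ y < τ x then (-1 : ℚ) ^ (i (τ x) * i (τ y)) else 1) =
      ∏ x, ∏ y, if σ x < σ y ∧ τ (σ y) < τ (σ x) then
        (-1 : ℚ) ^ (i (τ (σ x)) * i (τ (σ y))) else 1 := by
    rw [← Equiv.prod_comp σ]
    refine Finset.prod_congr rfl fun x _ => ?_
    rw [← Equiv.prod_comp σ]
  rw [h1]
  simp only [← Finset.prod_mul_distrib]
  refine ks_sym Finset.univ _ _ (fun p => ?_) (fun p q hpq => ?_)
  · simp
  · have hσ : σ p ≠ σ q := fun h' => hpq (σ.injective h')
    have hτ : τ (σ p) ≠ τ (σ q) := fun h' => hσ (τ.injective h')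
    have h2 := ks_sq (i (τ (σ p)) * i (τ (σ q)))
    rw [mul_comm (i (τ (σ q))) (i (τ (σ p)))]
    simp only [Perm.mul_apply, Function.comp_apply]
    rw [mul_comm (i (τ (σ q))) (i (τ (σ p)))]
    obtain ⟨s, hs⟩ : ∃ s, s = (-1 : ℚ) ^ (i (τ (σ p)) * i (τ (σ q))) := ⟨_, rfl⟩
    rw [← hs] at h2 ⊢
    rcases lt_or_gt_of_ne hpq with h3 | h3 <;> rcases lt_or_gt_of_ne hσ with h4 | h4 <;>
      rcases lt_or_gt_of_ne hτ with h5 | h5 <;>
      simp [h3, h4, h5, not_lt.2 h3.le, not_lt.2 h4.le, not_lt.2 h5.le, h2]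

theorem kp_inc (σ : Perm (Fin n)) (i : Fin n → ℕ) (b : Fin n) :
    kp σ i * bs (i ∘ σ) b = bs i (σ b) * kp σ (inc i (σ b)) := by
  have h0 : ∀ x, inc i (σ b) (σ x) = i (σ x) + if x = b then 1 else 0 := by
    intro x
    unfold inc
    rw [Function.update_apply]
    by_cases h : x = b
    · rw [h, if_pos rfl, if_pos rfl]
    · rw [if_neg h, if_neg (fun h' => h (σ.injective h')), add_zero]
  have h1 : kp σ (inc i (σ b)) = kp σ i *
      ((∏ y, if b < y ∧ σ y < σ b then (-1 : ℚ) ^ i (σ y) else 1) *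
        ∏ x, if x < b ∧ σ b < σ x then (-1 : ℚ) ^ i (σ x) else 1) := by
    have h2 : (∏ y, if b < y ∧ σ y < σ b then (-1 : ℚ) ^ i (σ y) else 1) =
        ∏ x, ∏ y, if x = b then (if b < y ∧ σ y < σ b then (-1 : ℚ) ^ i (σ y) else 1) else 1 :=
      (ks_col b _).symm
    have h3 : (∏ x, if x < b ∧ σ b < σ x then (-1 : ℚ) ^ i (σ x) else 1) =
        ∏ x, ∏ y, if y = b then (if x < b ∧ σ b < σ x then (-1 : ℚ) ^ i (σ x) else 1) else 1 := by
      refine Finset.prod_congr rfl fun x _ => (ks_one b _).symm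
    rw [h2, h3, ks_kp, ks_kp]
    simp only [← Finset.prod_mul_distrib]
    refine Finset.prod_congr rfl fun x _ => Finset.prod_congr rfl fun y _ => ?_
    rw [h0, h0]
    by_cases hx : x = b
    · by_cases hy : y = b
      · rw [hx, hy]
        simp
      · rw [hx, if_pos rfl, if_neg hy, if_pos rfl, if_neg hy, add_zero, mul_one]
        by_cases hc : b < y ∧ σ y < σ b
        · rw [if_pos hc, if_pos hc, if_pos hc, ← pow_add, add_mul, one_mul]
        · rw [if_neg hc, if_neg hc, if_neg hc, one_mul]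
    · by_cases hy : y = b
      · rw [hy, if_neg hx, if_pos rfl, if_neg hx, if_pos rfl, add_zero, one_mul]
        by_cases hc : x < b ∧ σ b < σ x
        · rw [if_pos hc, if_pos hc, if_pos hc, ← pow_add, mul_add, mul_one]
        · rw [if_neg hc, if_neg hc, if_neg hc, one_mul]
      · rw [if_neg hx, if_neg hy, if_neg hx, if_neg hy, add_zero, add_zero, mul_one, mul_one]
  have h2 : bs i (σ b) = ∏ x, if σ x < σ b then (-1 : ℚ) ^ i (σ x) else 1 := by
    rw [ks_bs, ← Equiv.prod_comp σ]
  have h3 : bs (i ∘ σ) b = bs i (σ b) *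
      ((∏ y, if b < y ∧ σ y < σ b then (-1 : ℚ) ^ i (σ y) else 1) *
        ∏ x, if x < b ∧ σ b < σ x then (-1 : ℚ) ^ i (σ x) else 1) := by
    rw [h2, ks_bs]
    simp only [← Finset.prod_mul_distrib]
    refine Finset.prod_congr rfl fun x _ => ?_
    rw [Function.comp_apply]
    by_cases hx : x = b
    · rw [hx]
      simp
    · have hσ : σ x ≠ σ b := fun h' => hx (σ.injective h')
      have h4 := ks_sq (i (σ x))
      rcases lt_or_gt_of_ne hx with h5 | h5 <;> rcases lt_or_gt_of_ne hσ with h6 | h6 <;>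
        simp [h5, h6, not_lt.2 h5.le, not_lt.2 h6.le, h4]
  rw [h1, h3]
  ring

theorem comp_via {q : ℕ} (β : Fin q ↪ Fin n) (τ : Perm (Fin q)) (i : Fin n → ℕ) (m : ℕ)
    (h : ∀ a, i (β a) = m) : i ∘ via β τ = i := by
  funext x
  rw [Function.comp_apply]
  by_cases hx : x ∈ Set.range β
  · obtain ⟨a, rfl⟩ := hx
    rw [via_apply, h, h]
  · rw [via_apply_of_notMem β τ x hx]

private theorem ks_swap_lt (i : Fin n → ℕ) (m : ℕ) {u v : Fin n} (huv : u < v) (hu : i u = m)
    (hv : i v = m) : kp (swap u v) i = (-1) ^ m := by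
  obtain ⟨A, hA⟩ : ∃ A : Fin n → ℚ, A = fun y => if u < y ∧ y < v then (-1 : ℚ) ^ (i y * m) else 1 :=
    ⟨_, rfl⟩
  obtain ⟨e, he⟩ : ∃ e : ℚ, e = (-1 : ℚ) ^ (m * m) := ⟨_, rfl⟩
  have hAA : ∀ y, A y * A y = 1 := by
    intro y
    rw [hA]
    beta_reduce
    by_cases hy : u < y ∧ y < v
    · rw [if_pos hy, ks_sq]
    · rw [if_neg hy, one_mul]
  have hem : e = (-1) ^ m := by
    rw [he]
    rcases Nat.even_or_odd m with h | h
    · rw [h.neg_one_pow, (h.mul_left m).neg_one_pow]
    · rw [h.neg_one_pow, (h.mul h).neg_one_pow]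
  have h1 : kp (swap u v) i = ∏ x, ∏ y, ((if x = u then (if y = v then e else 1) else 1) *
      ((if x = u then A y else 1) * (if x = v then A y else 1))) := by
    rw [ks_kp]
    refine ks_sym Finset.univ _ _ (fun p => ?_) (fun p q hpq => ?_)
    · have hu1 : A u = 1 := by
        rw [hA]
        exact if_neg fun h => lt_irrefl _ h.1
      have hv1 : A v = 1 := by
        rw [hA]
        exact if_neg fun h => lt_irrefl _ h.2
      rw [if_neg (fun h => lt_irrefl _ h.1)]
      by_cases hp : p = u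
      · rw [if_pos hp, if_neg (by rw [hp]; exact huv.ne), if_pos hp,
          if_neg (by rw [hp]; exact huv.ne), hp, hu1, one_mul, one_mul]
      · by_cases hp' : p = v
        · rw [if_neg hp, if_neg hp, if_pos hp', hp', hv1, one_mul, one_mul]
        · rw [if_neg hp, if_neg hp, if_neg hp', one_mul, one_mul]
    · have key : ∀ p q, p ≠ q → ((p = u ∧ q = v) ∨ (p = u ∧ q ≠ v) ∨ (p = v ∧ q ≠ u) ∨
          (p ≠ u ∧ p ≠ v ∧ q ≠ u ∧ q ≠ v)) →
          (if p < q ∧ swap u v q < swap u v p then
            (-1 : ℚ) ^ (i (swap u v p) * i (swap u v q)) else 1) *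
          (if q < p ∧ swap u v p < swap u v q then
            (-1 : ℚ) ^ (i (swap u v q) * i (swap u v p)) else 1) =
          (if p = u then (if q = v then e else 1) else 1) *
            ((if p = u then A q else 1) * (if p = v then A q else 1)) *
          ((if q = u then (if p = v then e else 1) else 1) *
            ((if q = u then A p else 1) * (if q = v then A p else 1))) := by
        intro p q hpq hc
        rcases hc with ⟨h2, h3⟩ | ⟨h2, h3⟩ | ⟨h2, h3⟩ | ⟨h2, h3, h4, h5⟩
        · have hu1 : A u = 1 := by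
            rw [hA]
            exact if_neg fun h => lt_irrefl _ h.1
          have hv1 : A v = 1 := by
            rw [hA]
            exact if_neg fun h => lt_irrefl _ h.2
          rw [h2, h3, swap_apply_left, swap_apply_right, hu, hv]
          simp [huv, huv.ne, huv.ne', not_lt.2 huv.le, hu1, hv1, he]
        · have h4 : q ≠ u := fun h => hpq (h2.trans h.symm)
          rw [h2, swap_apply_left, swap_apply_of_ne_of_ne h4 h3, hv, hA]
          rcases lt_or_gt_of_ne h4 with h5 | h5
          · have h6 : q < v := h5.trans huv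
            simp [h3, h4, h5, h6, huv.ne, not_lt.2 h5.le, not_lt.2 h6.le]
          · rcases lt_or_gt_of_ne h3 with h6 | h6
            · simp [h3, h4, h5, h6, huv.ne, not_lt.2 h5.le, not_lt.2 h6.le, mul_comm m]
            · simp [h3, h4, h5, h6, huv.ne, not_lt.2 h5.le, not_lt.2 h6.le]
        · have h4 : q ≠ v := fun h => hpq (h2.trans h.symm)
          rw [h2, swap_apply_right, swap_apply_of_ne_of_ne h3 h4, hu, hA]
          rcases lt_or_gt_of_ne h4 with h5 | h5
          · rcases lt_or_gt_of_ne h3 with h6 | h6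
            · simp [h3, h4, h5, h6, huv.ne', not_lt.2 h5.le, not_lt.2 h6.le]
            · simp [h3, h4, h5, h6, huv.ne', not_lt.2 h5.le, not_lt.2 h6.le]
          · have h6 : u < q := huv.trans h5
            simp [h3, h4, h5, h6, huv.ne', not_lt.2 h5.le, not_lt.2 h6.le]
        · rw [swap_apply_of_ne_of_ne h2 h3, swap_apply_of_ne_of_ne h4 h5, if_neg h2, if_neg h2, if_neg h3,
            if_neg h4, if_neg h4, if_neg h5, if_neg (fun h => lt_asymm h.1 h.2),
            if_neg (fun h => lt_asymm h.1 h.2)]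
          norm_num
      by_cases hp : p = u
      · by_cases hq : q = v
        · exact key p q hpq (Or.inl ⟨hp, hq⟩)
        · exact key p q hpq (Or.inr (Or.inl ⟨hp, hq⟩))
      · by_cases hq : q = u
        · rw [mul_comm]
          by_cases hp' : p = v
          · refine (key q p hpq.symm (Or.inl ⟨hq, hp'⟩)).trans (mul_comm _ _)
          · refine (key q p hpq.symm (Or.inr (Or.inl ⟨hq, hp'⟩))).trans (mul_comm _ _)
        · by_cases hp' : p = v
          · exact key p q hpq (Or.inr (Or.inr (Or.inl ⟨hp', hq⟩)))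
          · by_cases hq' : q = v
            · rw [mul_comm]
              exact (key q p hpq.symm (Or.inr (Or.inr (Or.inl ⟨hq', hp⟩)))).trans (mul_comm _ _)
            · exact key p q hpq (Or.inr (Or.inr (Or.inr ⟨hp, hp', hq, hq'⟩)))
  rw [h1]
  simp only [Finset.prod_mul_distrib]
  rw [ks_col, ks_col, ks_col, ← Finset.prod_mul_distrib, Finset.prod_eq_one fun y _ => hAA y, mul_one,
    ks_one, hem]

private theorem ks_swap (i : Fin n → ℕ) (m : ℕ) {u v : Fin n} (huv : u ≠ v) (hu : i u = m)
    (hv : i v = m) : kp (swap u v) i = (-1) ^ m := by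
  rcases lt_or_gt_of_ne huv with h | h
  · exact ks_swap_lt i m h hu hv
  · rw [swap_comm]
    exact ks_swap_lt i m h hv hu

theorem kp_via {q : ℕ} (β : Fin q ↪ Fin n) (τ : Perm (Fin q)) (i : Fin n → ℕ) (m : ℕ)
    (h : ∀ a, i (β a) = m) : kp (via β τ) i = chr (decide (m % 2 = 1)) τ := by
  induction τ using Equiv.Perm.swap_induction_on with
  | one => rw [map_one, kp_one, chr_one]
  | swap_mul f x y hxy ih =>
    have h1 : via β (swap x y * f) = via β (swap x y) * via β f := map_mul _ _ _
    rw [h1, kp_mul, comp_via β (swap x y) i m h, ih, chr_mul]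
    congr 1
    have h2 : via β (swap x y) = swap (β x) (β y) := by
      refine Equiv.ext fun z => ?_
      by_cases hz : z ∈ Set.range β
      · obtain ⟨a, rfl⟩ := hz
        rw [via_apply, ← β.injective.swap_apply]
      · rw [via_apply_of_notMem β _ z hz, swap_apply_of_ne_of_ne]
        · rintro rfl
          exact hz ⟨x, rfl⟩
        · rintro rfl
          exact hz ⟨y, rfl⟩
    have h3 : chr (decide (m % 2 = 1)) (swap x y) = (-1 : ℚ) ^ m := by
      unfold chr
      rw [Perm.sign_swap hxy]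
      rcases Nat.mod_two_eq_zero_or_one m with h4 | h4
      · rw [h4, (Nat.even_iff.2 h4).neg_one_pow]
        simp
      · rw [h4, (Nat.odd_iff.2 h4).neg_one_pow]
        simp
    rw [h2, h3]
    exact ks_swap i m (fun h' => hxy (β.injective h')) (h x) (h y)

private theorem ks_inc (i : Fin n → ℕ) (b c : Fin n) :
    bs (inc i b) c = bs i c * if b < c then -1 else 1 := by
  have h1 : (if b < c then (-1 : ℚ) else 1) = ∏ x, if x = b then (if b < c then (-1 : ℚ) else 1) else 1 :=
    (ks_one b _).symm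
  rw [h1, ks_bs, ks_bs, ← Finset.prod_mul_distrib]
  refine Finset.prod_congr rfl fun x _ => ?_
  unfold inc
  rw [Function.update_apply]
  by_cases hx : x = b
  · rw [if_pos hx, if_pos hx, hx]
    by_cases hc : b < c
    · rw [if_pos hc, if_pos hc, if_pos hc, pow_succ]
    · rw [if_neg hc, if_neg hc, if_neg hc, one_mul]
  · rw [if_neg hx, if_neg hx, mul_one]

/-- Two different blocks get one more point: the signs anticommute. -/
theorem bs_inc (i : Fin n → ℕ) {b c : Fin n} (h : b < c) :
    bs i b * bs (inc i b) c = -(bs i c * bs (inc i c) b) := by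
  rw [ks_inc, ks_inc, if_pos h, if_neg (not_lt.2 h.le)]
  ring

theorem bs_inc_self (i : Fin n → ℕ) (b : Fin n) : bs (inc i b) b = bs i b := by
  rw [ks_inc, if_neg (lt_irrefl b), mul_one]

end Pool.Agent.SPC
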