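import Pool.Agent.SPC.KRed
import Pool.Agent.SPC.KSgn

/-!
# SPC, part K: the action of the permutations of blocks
-/

noncomputable section

namespace Pool.Agent.SPC

universe u

open SDG Equiv

namespace Env

variable {n l : ℕ} {Cs C₀ C : Type u} [Ring Cs] [Algebra ℚ Cs] [SDG Cs] [Ring C₀]
    [Algebra ℚ C₀] [SDG C₀] [Ring C] [Algebra ℚ C] [SDG C] (E : Env n l Cs C₀ C) (N : TC C₀)

/-- Substitutions commute with the differential. -/
theorem Lv_dN (y : Sb n l) (f : N.I → C) : E.dN N (E.Lv N y f) = E.Lv N y (E.dN N f) := by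
  funext a
  rw [dN_apply, Lv_apply, Lv_apply, dN_apply, map_add, map_sum, SHom.map_d]
  congr 1
  refine Finset.sum_congr rfl fun b _ => ?_
  rw [Lv_apply, map_mul, E.L_cst, SHom.map_par]

private theorem ka_comp (τ σ : Perm (Fin n)) :
    (pm τ : Sb n l).comp (pm σ) = pm (τ * σ) := rfl

private theorem ka_Lv (y z : Sb n l) (f : N.I → C) :
    E.Lv N y (E.Lv N z f) = E.Lv N (y.comp z) f := by
  funext a
  exact E.L_L y z (f a)

theorem act_act (τ σ : Perm (Fin n)) (Ψ : E.Fam N) :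
    E.act N τ (E.act N σ Ψ) = E.act N (τ * σ) Ψ := by
  funext i
  rw [act_apply, act_apply, act_apply, map_smul, smul_smul, ka_Lv, ka_comp, kp_mul]
  rfl

theorem act_mem (σ : Perm (Fin n)) {Ψ : E.Fam N} (h : Ψ ∈ E.V N) : E.act N σ Ψ ∈ E.V N := by
  rw [mem_V] at h ⊢
  obtain ⟨h1, h2⟩ := h
  constructor
  · rintro i ⟨b, hb⟩
    have h3 : Ψ (i ∘ σ) = 0 := by
      apply h1
      refine ⟨σ.symm b, ?_⟩
      have h4 : (i ∘ σ) (σ.symm b) = i b := by
        show i (σ (σ.symm b)) = i b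
        rw [Equiv.apply_symm_apply]
      rw [h4]
      exact hb
    rw [act_apply, h3, map_zero, smul_zero]
  · intro i a
    have h3 : E.act N σ Ψ i a = kp σ i • E.L (pm σ) (Ψ (i ∘ σ) a) := rfl
    rw [h3]
    refine Red.smul E (Red.map E (h2 (i ∘ σ) a) ?_ ?_) _
    · intro t ht
      exact Or.inr ⟨(σ t.1, t.2), rfl, ht⟩
    · intro t' ht'
      refine ⟨(σ.symm t'.1, t'.2), ?_, ?_⟩
      · show (t'.2 : ℕ) ≤ i (σ (σ.symm t'.1))
        rw [Equiv.apply_symm_apply]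
        exact ht'
      · show Sum.inl (σ (σ.symm t'.1), t'.2) = _
        rw [Equiv.apply_symm_apply]

theorem act_dif (σ : Perm (Fin n)) (Ψ : E.Fam N) :
    E.act N σ (E.dif N Ψ) = E.dif N (E.act N σ Ψ) := by
  funext i
  rw [act_apply, dif_apply, dif_apply, act_apply, map_smul, Lv_dN]

/-- The average over all permutations. -/
def av : E.Fam N →ₗ[ℚ] E.Fam N := ((n.factorial : ℚ))⁻¹ • ∑ σ : Perm (Fin n), E.act N σ

private theorem ka_av (Ψ : E.Fam N) :
    E.av N Ψ = ((n.factorial : ℚ))⁻¹ • ∑ σ : Perm (Fin n), E.act N σ Ψ := by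
  unfold av
  rw [LinearMap.smul_apply, LinearMap.sum_apply]

theorem inv_av (Ψ : E.Fam N) : E.Inv N (E.av N Ψ) := by
  intro τ
  rw [ka_av, map_smul, map_sum]
  congr 1
  have h1 : ∀ σ : Perm (Fin n), E.act N τ (E.act N σ Ψ) = E.act N (τ * σ) Ψ :=
    fun σ => act_act E N τ σ Ψ
  rw [Finset.sum_congr rfl fun σ _ => h1 σ]
  exact Fintype.sum_equiv (Equiv.mulLeft τ) _ _ fun σ => rfl

theorem av_eq {Ψ : E.Fam N} (h : E.Inv N Ψ) : E.av N Ψ = Ψ := by
  rw [ka_av, Finset.sum_congr rfl fun σ _ => h σ, Finset.sum_const, Finset.card_univ,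
    Fintype.card_perm, Fintype.card_fin, ← Nat.cast_smul_eq_nsmul ℚ, smul_smul,
    inv_mul_cancel₀ (by exact_mod_cast n.factorial_ne_zero), one_smul]

theorem av_mem {Ψ : E.Fam N} (h : Ψ ∈ E.V N) : E.av N Ψ ∈ E.V N := by
  rw [ka_av]
  exact (E.V N).smul_mem _ ((E.V N).sum_mem fun σ _ => act_mem E N σ h)

theorem av_comm (X : E.Fam N →ₗ[ℚ] E.Fam N) (h : ∀ σ Ψ, E.act N σ (X Ψ) = X (E.act N σ Ψ))
    (Ψ : E.Fam N) : E.av N (X Ψ) = X (E.av N Ψ) := by
  rw [ka_av, ka_av, map_smul, map_sum, Finset.sum_congr rfl fun σ _ => h σ Ψ]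

/-- The average does not increase the support. -/
theorem av_supp {Ψ : E.Fam N} {J : ℕ} (h : ∀ i, J ≤ ∑ b, i b → Ψ i = 0) (i : Fin n → ℕ)
    (hi : J ≤ ∑ b, i b) : E.av N Ψ i = 0 := by
  have h1 : ∀ σ : Perm (Fin n), E.act N σ Ψ i = 0 := by
    intro σ
    have h2 : Ψ (i ∘ σ) = 0 := by
      apply h
      have h3 : ∑ b, (i ∘ σ) b = ∑ b, i b := Equiv.sum_comp σ i
      rw [h3]
      exact hi
    rw [act_apply, h2, map_zero, smul_zero]
  have h2 : E.av N Ψ i = ((n.factorial : ℚ))⁻¹ • ∑ σ : Perm (Fin n), E.act N σ Ψ i := by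
    rw [ka_av, Pi.smul_apply, Finset.sum_apply]
  rw [h2, Finset.sum_congr rfl fun σ _ => h1 σ, Finset.sum_const_zero, smul_zero]

end Env

end Pool.Agent.SPC
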