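import Pool.Agent.SPC.KRed
import Pool.Agent.SPC.KSgn

/-!
# SPC, part K: the square of the face operator is zero on reduced families

MODULE SPC-KDD. PLAN. `del (del Ψ) i = ∑ b, ∑ c, bs i b * bs (inc i b) c • ∑ j, ∑ k, ± L (dl b j (i b)) (L (dl c k (inc i b c))
(Ψ (inc (inc i b) c)))`. The terms `(b, c)` and `(c, b)` with `b ≠ c` cancel: `inc (inc i b) c = inc (inc i c) b`,
`inc i b c = i c`, the substitutions commute (`(dl b j m).comp (dl c k m') = (dl c k m').comp (dl b j m)`: they act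
on different blocks) and `bs_inc`. For `b = c` (`bs_inc_self`), `m = i b`: `one_block` below, which is the
usual cancellation: for `j ≤ m + 1`, `k ≤ m + 2` and `k ≤ j` the pairs `(j, k)` and `(k, j + 1)` give the same value on
reduced cochains (`L_congr` for the type `inc (inc i b) b`) and opposite signs:
`(dl b j m).comp (dl b k (m + 1)) = (dl b k m).comp (dl b (j + 1) (m + 1))` on the labels `(b, r)`, `r ≤ m + 2`, and on all
labels of the other blocks, for `k ≤ j ≤ m + 1`. (If `l ≤ m + 2` then `Ψ (inc (inc i b) b) = 0`.) For the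
cancellation split `range (m + 2) ×ˢ range (m + 3)` into `k ≤ j` and `j < k` and use the bijection
`(j, k) ↦ (k, j + 1)` (`Finset.sum_bij'`), compare `AlternatingFaceMapComplex.d_squared` in Mathlib.
-/

noncomputable section

namespace Pool.Agent.SPC

universe u

open SDG Equiv

private theorem dl_ne {n l : ℕ} {b : Fin n} (j m : ℕ) {t : Lb n l} (h : t.1 ≠ b) : dl b j m t = Sum.inl t := by
  rw [dl, if_neg h]

private theorem dl_lo {n l : ℕ} {b : Fin n} {j m : ℕ} {r : ℕ} (hr : r < l) (h : j ≤ m) (h' : r ≤ j) :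
    dl b j m ((b, ⟨r, hr⟩) : Lb n l) = Sum.inl (b, ⟨r, hr⟩) := by
  rw [dl, if_pos rfl, if_pos h, if_pos h']

private theorem dl_hi {n l : ℕ} {b : Fin n} {j m : ℕ} {r : ℕ} (hr : r < l) (h : j ≤ m) (h' : j < r) :
    dl b j m ((b, ⟨r, hr⟩) : Lb n l) = Sum.inl (b, ⟨r - 1, lt_of_le_of_lt (Nat.sub_le _ _) hr⟩) := by
  rw [dl, if_pos rfl, if_pos h, if_neg (by simpa using h')]

private theorem dl_end {n l : ℕ} {b : Fin n} {j m : ℕ} {r : ℕ} (hr : r < l) (h : m < j) (h' : r = m + 1) :
    dl b j m ((b, ⟨r, hr⟩) : Lb n l) = Sum.inr true := by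
  rw [dl, if_pos rfl, if_neg (by omega), if_pos h']

private theorem dl_oth {n l : ℕ} {b : Fin n} {j m : ℕ} {r : ℕ} (hr : r < l) (h : m < j) (h' : r ≠ m + 1) :
    dl b j m ((b, ⟨r, hr⟩) : Lb n l) = Sum.inl (b, ⟨r, hr⟩) := by
  rw [dl, if_pos rfl, if_neg (by omega), if_neg h']

private theorem comp_inl {n l : ℕ} {y z : Sb n l} {t t' : Lb n l} (h : z t = Sum.inl t') : (y.comp z) t = y t' := by
  rw [Sb.comp, h, Sum.elim_inl]

private theorem comp_inr {n l : ℕ} {y z : Sb n l} {t : Lb n l} {b : Bool} (h : z t = Sum.inr b) :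
    (y.comp z) t = Sum.inr b := by
  rw [Sb.comp, h, Sum.elim_inr]

/-- The exchange rule for the faces of one block. -/
theorem dl_dl {n l : ℕ} (b : Fin n) {j k m : ℕ} (hk : k ≤ j) (hj : j ≤ m + 1) (t : Lb n l)
    (ht : t.1 = b → (t.2 : ℕ) ≤ m + 2) :
    ((dl b j m).comp (dl b k (m + 1)) : Sb n l) t = ((dl b k m).comp (dl b (j + 1) (m + 1))) t := by
  obtain ⟨c, r, hr⟩ := t
  by_cases hc : c = b
  · subst hc
    have hrm : r ≤ m + 2 := ht rfl
    rcases Nat.lt_or_ge k r with h1 | h1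
    · rw [comp_inl (dl_hi hr (by omega) h1)]
      rcases Nat.lt_or_ge m j with h2 | h2
      · -- `j = m + 1`
        by_cases h3 : r = m + 2
        · rw [dl_end _ h2 (by omega), comp_inr (dl_end hr (by omega) (by omega))]
        · rw [dl_oth _ h2 (by omega), comp_inl (dl_oth hr (by omega) (by omega))]
          rcases Nat.lt_or_ge m k with h4 | h4
          · omega
          · rw [dl_hi hr h4 h1]
      · rcases Nat.lt_or_ge (j + 1) r with h3 | h3
        · rw [dl_hi _ h2 (by omega), comp_inl (dl_hi hr (by omega) h3), dl_hi _ (by omega) (by omega)]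
        · rw [dl_lo _ h2 (by omega), comp_inl (dl_lo hr (by omega) h3), dl_hi _ (by omega) h1]
    · rw [comp_inl (dl_lo hr (by omega) h1)]
      rcases Nat.lt_or_ge m j with h2 | h2
      · rw [comp_inl (dl_oth hr (by omega) (by omega))]
        rcases Nat.lt_or_ge m k with h4 | h4
        · have h5 : j = k := by omega
          rw [h5]
        · rw [dl_oth hr h2 (by omega), dl_lo hr h4 h1]
      · rw [comp_inl (dl_lo hr (by omega) (by omega)), dl_lo hr h2 (by omega), dl_lo hr (by omega) h1]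
  · rw [comp_inl (dl_ne _ _ hc), comp_inl (dl_ne _ _ hc), dl_ne _ _ hc, dl_ne _ _ hc]

theorem dl_comm {n l : ℕ} {b c : Fin n} (h : b ≠ c) (j k m m' : ℕ) :
    ((dl b j m).comp (dl c k m') : Sb n l) = (dl c k m').comp (dl b j m) := by
  have key : ∀ {b c : Fin n} (_ : b ≠ c) (j k m m' : ℕ) (t : Lb n l), t.1 = b →
      ((dl b j m).comp (dl c k m') : Sb n l) t = ((dl c k m').comp (dl b j m)) t := by
    intro b c h j k m m' t ht
    obtain ⟨b', r, hr⟩ := t
    simp only at ht
    subst ht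
    have h1 : dl c k m' ((b', ⟨r, hr⟩) : Lb n l) = Sum.inl (b', ⟨r, hr⟩) := dl_ne _ _ h
    rw [comp_inl h1]
    rcases hd : dl b' j m ((b', ⟨r, hr⟩) : Lb n l) with t' | e
    · rw [comp_inl hd]
      have h2 : t'.1 = b' := by
        rcases Nat.lt_or_ge m j with h3 | h3
        · by_cases h4 : r = m + 1
          · rw [dl_end hr h3 h4] at hd
            cases hd
          · rw [dl_oth hr h3 h4] at hd
            cases hd
            rfl
        · rcases Nat.lt_or_ge j r with h4 | h4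
          · rw [dl_hi hr h3 h4] at hd
            cases hd
            rfl
          · rw [dl_lo hr h3 h4] at hd
            cases hd
            rfl
      rw [dl_ne _ _ (by rw [h2]; exact h)]
    · rw [comp_inr hd]
  funext t
  by_cases hb : t.1 = b
  · exact key h j k m m' t hb
  · by_cases hc : t.1 = c
    · exact (key h.symm k j m' m t hc).symm
    · rw [comp_inl (dl_ne _ _ hc), comp_inl (dl_ne _ _ hb), dl_ne _ _ hb, dl_ne _ _ hc]

/-- The cancellation in one block. -/
theorem sum_faces {X : Type u} [AddCommGroup X] [Module ℚ X] (m : ℕ) (g : ℕ → ℕ → X)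
    (h : ∀ j k, k ≤ j → j ≤ m + 1 → g j k = g k (j + 1)) :
    ∑ j ∈ Finset.range (m + 2), ∑ k ∈ Finset.range (m + 3),
      ((-1 : ℚ) ^ (m + 1 + j)) • ((-1 : ℚ) ^ (m + 2 + k)) • g j k = 0 := by
  have hF : ∀ j k, k ≤ j → j ≤ m + 1 →
      ((-1 : ℚ) ^ (m + 1 + j)) • ((-1 : ℚ) ^ (m + 2 + k)) • g j k +
        ((-1 : ℚ) ^ (m + 1 + k)) • ((-1 : ℚ) ^ (m + 2 + (j + 1))) • g k (j + 1) = 0 := by
    intro j k h1 h2
    rw [← h j k h1 h2, smul_smul, smul_smul, ← add_smul]
    have h3 : (-1 : ℚ) ^ (m + 1 + j) * (-1) ^ (m + 2 + k) + (-1) ^ (m + 1 + k) * (-1) ^ (m + 2 + (j + 1)) = 0 := by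
      rw [← pow_add, ← pow_add]
      have e1 : m + 1 + k + (m + 2 + (j + 1)) = (m + 1 + j + (m + 2 + k)) + 1 := by omega
      rw [e1, pow_succ]
      ring
    rw [h3, zero_smul]
  rw [← Finset.sum_product']
  refine Finset.sum_involution (fun p _ => if p.2 ≤ p.1 then (p.2, p.1 + 1) else (p.2 - 1, p.1)) ?_ ?_ ?_ ?_
  · rintro ⟨j, k⟩ hp
    rw [Finset.mem_product, Finset.mem_range, Finset.mem_range] at hp
    simp only at hp ⊢
    split_ifs with h1
    · exact hF j k h1 (by omega)
    · obtain ⟨k', rfl⟩ : ∃ k', k = k' + 1 := ⟨k - 1, by omega⟩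
      have h2 := hF k' j (by omega) (by omega)
      rw [Nat.add_sub_cancel, add_comm]
      exact h2
  · rintro ⟨j, k⟩ hp _
    simp only
    split_ifs with h1
    · intro h2
      rw [Prod.mk.injEq] at h2
      omega
    · intro h2
      rw [Prod.mk.injEq] at h2
      omega
  · rintro ⟨j, k⟩ hp
    rw [Finset.mem_product, Finset.mem_range, Finset.mem_range] at hp
    simp only at hp ⊢
    split_ifs with h1
    · rw [Finset.mem_product, Finset.mem_range, Finset.mem_range]
      simp only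
      omega
    · rw [Finset.mem_product, Finset.mem_range, Finset.mem_range]
      simp only
      omega
  · rintro ⟨j, k⟩ hp
    simp only
    by_cases h1 : k ≤ j
    · rw [if_pos h1]
      simp only
      rw [if_neg (by omega)]
      rfl
    · rw [if_neg h1]
      simp only
      rw [if_pos (by omega), Prod.mk.injEq]
      omega

namespace Env

variable {n l : ℕ} {Cs C₀ C : Type u} [Ring Cs] [Algebra ℚ Cs] [SDG Cs] [Ring C₀]
    [Algebra ℚ C₀] [SDG C₀] [Ring C] [Algebra ℚ C] [SDG C] (E : Env n l Cs C₀ C) (N : TC C₀)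

private theorem inc_ne {i : Fin n → ℕ} {b c : Fin n} (h : b ≠ c) : inc i b c = i c := by
  rw [inc, Function.update_of_ne h.symm]

private theorem inc_same {i : Fin n → ℕ} {b : Fin n} : inc i b b = i b + 1 := by
  rw [inc, Function.update_self]

private theorem inc_inc {i : Fin n → ℕ} {b c : Fin n} (h : b ≠ c) : inc (inc i b) c = inc (inc i c) b := by
  show Function.update (inc i b) c (inc i b c + 1) = Function.update (inc i c) b (inc i c b + 1)
  rw [inc_ne h, inc_ne h.symm]
  show Function.update (Function.update i b (i b + 1)) c (i c + 1) =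
    Function.update (Function.update i c (i c + 1)) b (i b + 1)
  exact Function.update_comm h _ _ _

theorem del_del {Ψ : E.Fam N} (h : Ψ ∈ E.V N) : E.del N (E.del N Ψ) = 0 := by
  funext i
  rw [del_apply]
  have hT : ∀ b, bs i b • ∑ j ∈ Finset.range (i b + 2),
      ((-1 : ℚ) ^ (i b + 1 + j)) • E.Lv N (dl b j (i b)) (E.del N Ψ (inc i b)) =
      ∑ c, (bs i b * bs (inc i b) c) • ∑ j ∈ Finset.range (i b + 2), ∑ k ∈ Finset.range (inc i b c + 2),
        ((-1 : ℚ) ^ (i b + 1 + j)) • ((-1 : ℚ) ^ (inc i b c + 1 + k)) •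
          E.Lv N (dl b j (i b)) (E.Lv N (dl c k (inc i b c)) (Ψ (inc (inc i b) c))) := by
    intro b
    simp only [del_apply, map_sum, map_smul, Finset.smul_sum, smul_smul]
    rw [Finset.sum_comm]
    refine Finset.sum_congr rfl fun c _ => Finset.sum_congr rfl fun j _ => Finset.sum_congr rfl fun k _ => ?_
    congr 1
    ring
  rw [Finset.sum_congr rfl fun b _ => hT b]
  have hbb : ∀ b, (bs i b * bs (inc i b) b) • ∑ j ∈ Finset.range (i b + 2), ∑ k ∈ Finset.range (inc i b b + 2),
        ((-1 : ℚ) ^ (i b + 1 + j)) • ((-1 : ℚ) ^ (inc i b b + 1 + k)) •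
          E.Lv N (dl b j (i b)) (E.Lv N (dl b k (inc i b b)) (Ψ (inc (inc i b) b))) = 0 := by
    intro b
    rw [inc_same]
    have h1 := sum_faces (i b) (fun j k => E.Lv N (dl b j (i b)) (E.Lv N (dl b k (i b + 1)) (Ψ (inc (inc i b) b))))
      (fun j k hk hj => by
        funext a
        rw [Lv_apply, Lv_apply, Lv_apply, Lv_apply, E.L_L, E.L_L]
        refine L_congr E (h.2 _ a) fun t ht => ?_
        refine dl_dl b hk hj t fun htb => ?_
        rw [htb, inc_same, inc_same] at ht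
        omega)
    have h2 : ∑ j ∈ Finset.range (i b + 2), ∑ k ∈ Finset.range (i b + 1 + 2),
        ((-1 : ℚ) ^ (i b + 1 + j)) • ((-1 : ℚ) ^ (i b + 1 + 1 + k)) •
          E.Lv N (dl b j (i b)) (E.Lv N (dl b k (i b + 1)) (Ψ (inc (inc i b) b))) = 0 := h1
    rw [h2, smul_zero]
  have hbc : ∀ b c, b ≠ c → (bs i b * bs (inc i b) c) • ∑ j ∈ Finset.range (i b + 2), ∑ k ∈ Finset.range (inc i b c + 2),
        ((-1 : ℚ) ^ (i b + 1 + j)) • ((-1 : ℚ) ^ (inc i b c + 1 + k)) •
          E.Lv N (dl b j (i b)) (E.Lv N (dl c k (inc i b c)) (Ψ (inc (inc i b) c))) =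
      -((bs i c * bs (inc i c) b) • ∑ j ∈ Finset.range (i c + 2), ∑ k ∈ Finset.range (inc i c b + 2),
        ((-1 : ℚ) ^ (i c + 1 + j)) • ((-1 : ℚ) ^ (inc i c b + 1 + k)) •
          E.Lv N (dl c j (i c)) (E.Lv N (dl b k (inc i c b)) (Ψ (inc (inc i c) b)))) := by
    intro b c hbc
    rw [inc_ne hbc, inc_ne hbc.symm, ← inc_inc hbc]
    have hs : bs i b * bs (inc i b) c = -(bs i c * bs (inc i c) b) := by
      rcases lt_or_gt_of_ne hbc with h1 | h1
      · exact bs_inc i h1
      · rw [bs_inc i h1, neg_neg]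
    rw [hs, neg_smul]
    congr 2
    rw [Finset.sum_comm]
    refine Finset.sum_congr rfl fun k _ => Finset.sum_congr rfl fun j _ => ?_
    rw [smul_comm]
    congr 2
    funext a
    rw [Lv_apply, Lv_apply, Lv_apply, Lv_apply, E.L_L, E.L_L, dl_comm hbc]
  have hS : ∀ (G : Fin n → Fin n → (N.I → C)), (∀ b, G b b = 0) → (∀ b c, b ≠ c → G b c = -G c b) →
      ∑ b, ∑ c, G b c = 0 := by
    intro G h1 h2
    have h3 : ∑ b, ∑ c, G b c = -∑ b, ∑ c, G b c := by
      conv_lhs => rw [Finset.sum_comm]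
      rw [← Finset.sum_neg_distrib]
      refine Finset.sum_congr rfl fun b _ => ?_
      rw [← Finset.sum_neg_distrib]
      refine Finset.sum_congr rfl fun c _ => ?_
      by_cases hbc : b = c
      · subst hbc
        rw [h1, neg_zero]
      · exact h2 c b (fun h => hbc h.symm)
    have h4 : (2 : ℚ) • ∑ b, ∑ c, G b c = 0 := by
      rw [two_smul]
      nth_rewrite 1 [h3]
      exact neg_add_cancel _
    exact (smul_eq_zero.1 h4).resolve_left two_ne_zero
  exact hS (fun b c => (bs i b * bs (inc i b) c) • ∑ j ∈ Finset.range (i b + 2), ∑ k ∈ Finset.range (inc i b c + 2),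
        ((-1 : ℚ) ^ (i b + 1 + j)) • ((-1 : ℚ) ^ (inc i b c + 1 + k)) •
          E.Lv N (dl b j (i b)) (E.Lv N (dl c k (inc i b c)) (Ψ (inc (inc i b) c)))) hbb hbc

end Env

end Pool.Agent.SPC
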