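import Pool.Agent.SPC.KRed
import Pool.Agent.SPC.KSgn

/-!
# SPC, part K: the face operator
-/

noncomputable section

namespace Pool.Agent.SPC

universe u

open SDG Equiv

namespace Env

variable {n l : ℕ} {Cs C₀ C : Type u} [Ring Cs] [Algebra ℚ Cs] [SDG Cs] [Ring C₀]
    [Algebra ℚ C₀] [SDG C₀] [Ring C] [Algebra ℚ C] [SDG C] (E : Env n l Cs C₀ C) (N : TC C₀)

private theorem inc_self' (i : Fin n → ℕ) (b : Fin n) : inc i b b = i b + 1 :=
  Function.update_self ..

private theorem inc_ne' (i : Fin n → ℕ) {b c : Fin n} (h : c ≠ b) : inc i b c = i c :=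
  Function.update_of_ne h _ _

private theorem le_inc' (i : Fin n → ℕ) (b c : Fin n) : i c ≤ inc i b c := by
  by_cases h : c = b
  · rw [h, inc_self']
    exact Nat.le_succ _
  · rw [inc_ne' i h]

private theorem del_apply_apply (Ψ : E.Fam N) (i : Fin n → ℕ) (a : N.I) :
    E.del N Ψ i a = ∑ b, bs i b • ∑ j ∈ Finset.range (i b + 2),
      ((-1 : ℚ) ^ (i b + 1 + j)) • E.L (dl b j (i b)) (Ψ (inc i b) a) := by
  rw [del_apply, Finset.sum_apply]
  refine Finset.sum_congr rfl fun b _ => ?_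
  rw [Pi.smul_apply, Finset.sum_apply]
  rfl

private theorem red_dl {i : Fin n → ℕ} {b : Fin n} (hb : i b + 1 < l) {j : ℕ} (hj : j < i b + 2)
    {c : C} (h : E.Red (inc i b) c) : E.Red i (E.L (dl b j (i b)) c) := by
  refine Red.map E h ?_ ?_
  · rintro ⟨b', r⟩ ht
    by_cases h1 : b' = b
    · subst h1
      have ht' : (r : ℕ) ≤ i b' + 1 := by
        have := ht
        simp only [inc_self'] at this
        exact this
      by_cases h2 : j ≤ i b'
      · by_cases h3 : (r : ℕ) ≤ j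
        · refine Or.inr ⟨(b', r), ?_, le_trans h3 h2⟩
          simp [dl, h2, h3]
        · refine Or.inr ⟨(b', ⟨(r : ℕ) - 1, lt_of_le_of_lt (Nat.sub_le _ _) r.isLt⟩), ?_, ?_⟩
          · simp [dl, h2, h3]
          · change (r : ℕ) - 1 ≤ i b'
            omega
      · by_cases h3 : (r : ℕ) = i b' + 1
        · refine Or.inl ?_
          simp [dl, h2, h3]
        · refine Or.inr ⟨(b', r), ?_, ?_⟩
          · simp [dl, h2, h3]
          · change (r : ℕ) ≤ i b'
            omega
    · refine Or.inr ⟨(b', r), ?_, ?_⟩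
      · simp [dl, h1]
      · have h4 : inc i b b' = i b' := inc_ne' i h1
        change (r : ℕ) ≤ i b'
        rw [← h4]
        exact ht
  · rintro ⟨b', r⟩ ht
    by_cases h1 : b' = b
    · subst h1
      have ht' : (r : ℕ) ≤ i b' := ht
      by_cases h2 : j ≤ i b'
      · by_cases h3 : (r : ℕ) ≤ j
        · refine ⟨(b', r), ?_, ?_⟩
          · change (r : ℕ) ≤ inc i b' b'
            rw [inc_self']
            omega
          · simp [dl, h2, h3]
        · have hl : (r : ℕ) + 1 < l := by omega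
          refine ⟨(b', ⟨(r : ℕ) + 1, hl⟩), ?_, ?_⟩
          · change (r : ℕ) + 1 ≤ inc i b' b'
            rw [inc_self']
            omega
          · have h4 : ¬ ((r : ℕ) + 1 ≤ j) := by omega
            simp [dl, h2, h4]
      · refine ⟨(b', r), ?_, ?_⟩
        · change (r : ℕ) ≤ inc i b' b'
          rw [inc_self']
          omega
        · have h3 : ¬ ((r : ℕ) = i b' + 1) := by omega
          simp [dl, h2, h3]
    · refine ⟨(b', r), ?_, ?_⟩
      · change (r : ℕ) ≤ inc i b b'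
        rw [inc_ne' i h1]
        exact ht
      · simp [dl, h1]

theorem del_mem {Ψ : E.Fam N} (h : Ψ ∈ E.V N) : E.del N Ψ ∈ E.V N := by
  rw [mem_V] at h ⊢
  obtain ⟨h1, h2⟩ := h
  refine ⟨fun i hi => ?_, fun i a => ?_⟩
  · obtain ⟨c, hc⟩ := hi
    rw [del_apply]
    refine Finset.sum_eq_zero fun b _ => ?_
    have h3 : Ψ (inc i b) = 0 := h1 _ ⟨c, le_trans hc (le_inc' i b c)⟩
    rw [h3]
    simp only [map_zero, smul_zero, Finset.sum_const_zero]
  · rw [del_apply_apply]
    refine Red.sum E _ fun b _ => Red.smul E (Red.sum E _ fun j hj => Red.smul E ?_ _) _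
    by_cases hb : i b + 1 < l
    · exact red_dl E hb (Finset.mem_range.1 hj) (h2 _ a)
    · have h3 : Ψ (inc i b) = 0 := h1 _ ⟨b, by rw [inc_self']; omega⟩
      rw [h3]
      have h4 : (0 : N.I → C) a = 0 := rfl
      rw [h4, map_zero]
      exact Red.zero E i

theorem dif_mem {Ψ : E.Fam N} (h : Ψ ∈ E.V N) : E.dif N Ψ ∈ E.V N := by
  rw [mem_V] at h ⊢
  obtain ⟨h1, h2⟩ := h
  refine ⟨fun i hi => ?_, fun i a => ?_⟩
  · rw [dif_apply, h1 i hi, map_zero]
  · rw [dif_apply]
    exact Red.dN E (h2 i) a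

theorem dif_dif (Ψ : E.Fam N) : E.dif N (E.dif N Ψ) = 0 := by
  funext i
  exact TC.dif_dif (N.map E.cst) (Ψ i)

private theorem dN_Lv (y : Sb n l) (f : N.I → C) : E.dN N (E.Lv N y f) = E.Lv N y (E.dN N f) := by
  funext a
  rw [dN_apply, Lv_apply, Lv_apply, dN_apply, map_add, map_sum, (E.L y).map_d]
  congr 1
  refine Finset.sum_congr rfl fun b _ => ?_
  rw [map_mul, (E.L y).map_par, E.L_cst, Lv_apply]

theorem dif_del (Ψ : E.Fam N) : E.dif N (E.del N Ψ) = E.del N (E.dif N Ψ) := by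
  funext i
  rw [dif_apply, del_apply, del_apply, map_sum]
  refine Finset.sum_congr rfl fun b _ => ?_
  rw [map_smul, map_sum]
  congr 1
  refine Finset.sum_congr rfl fun j _ => ?_
  rw [map_smul, dN_Lv, dif_apply]

private theorem Lv_Lv' (y z : Sb n l) (f : N.I → C) :
    E.Lv N y (E.Lv N z f) = E.Lv N (y.comp z) f := by
  funext a
  exact E.L_L y z (f a)

private theorem pm_comp_dl (σ : Perm (Fin n)) (c : Fin n) (j m : ℕ) :
    (pm σ : Sb n l).comp (dl c j m) = (dl (σ c) j m).comp (pm σ) := by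
  funext t
  obtain ⟨b, r⟩ := t
  by_cases h1 : b = c
  · subst h1
    by_cases h2 : j ≤ m
    · by_cases h3 : (r : ℕ) ≤ j
      · simp [Sb.comp, dl, pm, h2, h3]
      · simp [Sb.comp, dl, pm, h2, h3]
    · by_cases h3 : (r : ℕ) = m + 1
      · simp [Sb.comp, dl, pm, h2, h3]
      · simp [Sb.comp, dl, pm, h2, h3]
  · have h4 : σ b ≠ σ c := fun h => h1 (σ.injective h)
    simp [Sb.comp, dl, pm, h1]

private theorem inc_comp (σ : Perm (Fin n)) (i : Fin n → ℕ) (c : Fin n) :
    inc i (σ c) ∘ σ = inc (i ∘ σ) c := by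
  funext x
  by_cases h : x = c
  · subst h
    rw [Function.comp_apply, inc_self', inc_self']
    rfl
  · rw [Function.comp_apply, inc_ne' _ (fun h1 => h (σ.injective h1)), inc_ne' _ h]
    rfl

theorem act_del (σ : Perm (Fin n)) (Ψ : E.Fam N) :
    E.act N σ (E.del N Ψ) = E.del N (E.act N σ Ψ) := by
  funext i
  rw [act_apply, del_apply, del_apply, map_sum, Finset.smul_sum]
  rw [← Equiv.sum_comp σ (fun b => bs i b • ∑ j ∈ Finset.range (i b + 2),
      ((-1 : ℚ) ^ (i b + 1 + j)) • E.Lv N (dl b j (i b)) (E.act N σ Ψ (inc i b)))]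
  refine Finset.sum_congr rfl fun c _ => ?_
  rw [map_smul, map_sum, smul_smul, kp_inc, ← smul_smul]
  congr 1
  rw [Finset.smul_sum]
  refine Finset.sum_congr rfl fun j _ => ?_
  rw [act_apply, map_smul, map_smul, smul_comm, Lv_Lv', Lv_Lv', pm_comp_dl, inc_comp]
  rfl

/-- The face operator lowers the support. -/
theorem del_supp {Ψ : E.Fam N} {J : ℕ} (h : ∀ i, J + 1 ≤ ∑ b, i b → Ψ i = 0) (i : Fin n → ℕ)
    (hi : J ≤ ∑ b, i b) : E.del N Ψ i = 0 := by
  rw [del_apply]
  refine Finset.sum_eq_zero fun b _ => ?_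
  have h1 : ∑ c, inc i b c = ∑ c, i c + 1 := by
    have h2 : ∀ c, inc i b c = i c + (if c = b then 1 else 0) := by
      intro c
      by_cases hc : c = b
      · rw [hc, inc_self', if_pos rfl]
      · rw [inc_ne' i hc, if_neg hc]
        rfl
    rw [Finset.sum_congr rfl fun c _ => h2 c, Finset.sum_add_distrib,
      Finset.sum_ite_eq' Finset.univ b, if_pos (Finset.mem_univ b)]
  have h3 : Ψ (inc i b) = 0 := h _ (by rw [h1]; omega)
  rw [h3]
  simp only [map_zero, smul_zero, Finset.sum_const_zero]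

end Env

end Pool.Agent.SPC
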