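import Pool.Agent.SPC.KAct
import Pool.Agent.SPC.KDel
import Pool.Agent.SPC.KDD

/-!
# SPC, part K: closed invariant families are boundaries

MODULE SPC-KCtr. PLAN. Prove by induction on `J`: for every `Ψ ∈ V`, `Inv Ψ`, `dif Ψ = del Ψ` with `Ψ i = 0` for
`J ≤ ∑ b, i b` there is `Θ ∈ V` with `Ψ = dif Θ + del Θ`. `J = 0`: `Ψ = 0`, `Θ = 0`. Step `J + 1`:
`Θ₁ = av (h Ψ)`, `Ψ' = Ψ - dif Θ₁ - del Θ₁`. `Ψ'` is in `V` (`av_mem`, `dif_mem`, `del_mem`), invariant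
(`act_dif`, `act_del`, `inv_av`) and `dif Ψ' = dif Ψ - dif (del Θ₁) = del Ψ - del (dif Θ₁) = del Ψ'` (`dif_dif`,
`del_del`, `dif_del`). For `J ≤ ∑ b, i b`: `(h (dif Ψ)) i = 0` because `(dif Ψ) i = (del Ψ) i = 0`
(`del_supp`), so `X := Ψ - dif (h Ψ) = h (dif Ψ)` vanishes at all these `i`, `av X i = 0` (`av_supp`),
`av X = Ψ - dif Θ₁` (`av_eq`, `av_comm` with `act_dif`); `Θ₁ i' = 0` for `J + 1 ≤ ∑ b, i' b`
(`hsupp`, `av_supp`), so `(del Θ₁) i = 0` (`del_supp`). Start: for `Ψ ∈ V` take `J = n * l + 1` (if `J ≤ ∑ b, i b`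
some `i b ≥ l`).
-/

noncomputable section

namespace Pool.Agent.SPC

universe u

open SDG Equiv

namespace Env

variable {n l : ℕ} {Cs C₀ C : Type u} [Ring Cs] [Algebra ℚ Cs] [SDG Cs] [Ring C₀]
    [Algebra ℚ C₀] [SDG C₀] [Ring C] [Algebra ℚ C] [SDG C] (E : Env n l Cs C₀ C) (N : TC C₀)

theorem exists_primitive (h : E.Fam N → E.Fam N) (hV : ∀ Ψ ∈ E.V N, h Ψ ∈ E.V N)
    (hsupp : ∀ Ψ i, Ψ i = 0 → h Ψ i = 0)
    (hh : ∀ Ψ ∈ E.V N, E.Inv N Ψ → E.dif N (h Ψ) + h (E.dif N Ψ) = Ψ) {Ψ : E.Fam N}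
    (h1 : Ψ ∈ E.V N) (h2 : E.Inv N Ψ) (h3 : E.dif N Ψ = E.del N Ψ) :
    ∃ Θ ∈ E.V N, Ψ = E.dif N Θ + E.del N Θ := by
  have key : ∀ (J : ℕ) (Ψ : E.Fam N), Ψ ∈ E.V N → E.Inv N Ψ → E.dif N Ψ = E.del N Ψ →
      (∀ i : Fin n → ℕ, J ≤ ∑ b, i b → Ψ i = 0) → ∃ Θ ∈ E.V N, Ψ = E.dif N Θ + E.del N Θ := by
    intro J
    induction J with
    | zero =>
      intro Ψ _ _ _ h4
      refine ⟨0, Submodule.zero_mem _, ?_⟩
      rw [map_zero, map_zero, add_zero]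
      funext i
      exact h4 i (Nat.zero_le _)
    | succ J ih =>
      intro Ψ h1 h2 h3 h4
      obtain ⟨Θ₁, hΘ⟩ : ∃ Θ, Θ = E.av N (h Ψ) := ⟨_, rfl⟩
      have hΘV : Θ₁ ∈ E.V N := by rw [hΘ]; exact E.av_mem N (hV Ψ h1)
      have hΘI : E.Inv N Θ₁ := by rw [hΘ]; exact E.inv_av N _
      have g1 : Ψ - E.dif N Θ₁ - E.del N Θ₁ ∈ E.V N :=
        Submodule.sub_mem _ (Submodule.sub_mem _ h1 (E.dif_mem N hΘV)) (E.del_mem N hΘV)
      have g2 : E.Inv N (Ψ - E.dif N Θ₁ - E.del N Θ₁) := by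
        intro σ
        rw [map_sub, map_sub, h2 σ, E.act_dif, E.act_del, hΘI σ]
      have g3 : E.dif N (Ψ - E.dif N Θ₁ - E.del N Θ₁) = E.del N (Ψ - E.dif N Θ₁ - E.del N Θ₁) := by
        rw [map_sub, map_sub, map_sub, map_sub, E.dif_dif, E.dif_del, E.del_del N hΘV, h3]
        abel
      have hX : ∀ i : Fin n → ℕ, J ≤ ∑ b, i b → h (E.dif N Ψ) i = 0 := by
        intro i hi
        apply hsupp
        rw [h3]
        exact E.del_supp N h4 i hi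
      have hXe : h (E.dif N Ψ) = Ψ - E.dif N (h Ψ) := by
        rw [← hh Ψ h1 h2]
        have h5 := hh Ψ h1 h2
        rw [h5]
        exact (sub_eq_of_eq_add' h5.symm).symm
      have hav : E.av N (h (E.dif N Ψ)) = Ψ - E.dif N Θ₁ := by
        rw [hXe, map_sub, E.av_eq N h2, E.av_comm N (E.dif N) (fun σ Ψ => E.act_dif N σ Ψ), hΘ]
      have hΘs : ∀ i : Fin n → ℕ, J + 1 ≤ ∑ b, i b → Θ₁ i = 0 := by
        intro i hi
        rw [hΘ]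
        exact E.av_supp N (fun i' hi' => hsupp Ψ i' (h4 i' hi')) i hi
      have g4 : ∀ i : Fin n → ℕ, J ≤ ∑ b, i b → (Ψ - E.dif N Θ₁ - E.del N Θ₁) i = 0 := by
        intro i hi
        rw [Pi.sub_apply, E.del_supp N hΘs i hi, sub_zero, ← hav]
        exact E.av_supp N hX i hi
      obtain ⟨Θ₂, hΘ₂, hΘ₂e⟩ := ih _ g1 g2 g3 g4
      refine ⟨Θ₁ + Θ₂, Submodule.add_mem _ hΘV hΘ₂, ?_⟩
      rw [map_add, map_add]
      have h5 : Ψ = (Ψ - E.dif N Θ₁ - E.del N Θ₁) + E.dif N Θ₁ + E.del N Θ₁ := by abel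
      rw [hΘ₂e] at h5
      rw [h5]
      abel
  refine key (n * l + 1) Ψ h1 h2 h3 fun i hi => h1.1 i ?_
  by_contra hcon
  push Not at hcon
  have h4 : ∑ b, i b ≤ ∑ _b : Fin n, l := Finset.sum_le_sum fun b _ => (hcon b).le
  rw [Finset.sum_const, Finset.card_univ, Fintype.card_fin, smul_eq_mul] at h4
  omega

end Env

end Pool.Agent.SPC
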