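import Pool.Agent.SPC.KNul
import Pool.Agent.SPC.Crd

/-!
# SPC, part K: cochains on powers of a curve
-/

noncomputable section

namespace Pool.Agent.SPC

universe u

open SDG Equiv

section

variable {k S Om B : Type u} [Field k] [CommRing S] [Algebra k S] [CommRing Om] [Algebra k Om]
  [CommRing B] [Algebra k B] {n l : ℕ} (X : Crd k S Om B (Lb n l)) (x₀ : S →ₐ[k] k)
  (eta : S →ₐ[k] Om)

namespace Crd

/-- The base point and the end point, with values in `B`. -/
def pt (b : Bool) : S →ₐ[k] B := if b then X.c.comp eta else (Algebra.ofId k B).comp x₀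

/-- The base point and the end point, with values in `Om`. -/
def ptO (x₀ : S →ₐ[k] k) (eta : S →ₐ[k] Om) (b : Bool) : S →ₐ[k] Om :=
  if b then eta else (Algebra.ofId k Om).comp x₀

/-- All points. -/
def pts (p : Lb n l ⊕ Bool) : S →ₐ[k] B := Sum.elim X.x (X.pt x₀ eta) p

theorem pt_eq (b : Bool) : X.pt x₀ eta b = X.c.comp (ptO x₀ eta b) := by
  cases b
  · apply AlgHom.ext
    intro s
    change algebraMap k B (x₀ s) = X.c (algebraMap k Om (x₀ s))
    exact (X.c.commutes _).symm
  · rfl

/-- The substitution `y`. -/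
def subs (y : Sb n l) : B →ₐ[k] B := X.sub fun t => X.pts x₀ eta (y t)

theorem subs_c (y : Sb n l) (w : Om) : X.subs x₀ eta y (X.c w) = X.c w := X.sub_c _ _

theorem subs_pts (y : Sb n l) (p : Lb n l ⊕ Bool) (s : S) :
    X.subs x₀ eta y (X.pts x₀ eta p s) = X.pts x₀ eta (Sum.elim y Sum.inr p) s := by
  cases p with
  | inl t => exact X.sub_x _ t s
  | inr b =>
    change X.subs x₀ eta y (X.pt x₀ eta b s) = X.pt x₀ eta b s
    rw [pt_eq]
    exact X.subs_c x₀ eta y _

theorem subs_subs (y z : Sb n l) : ((X.subs x₀ eta y : B →ₐ[k] B) : B →+* B).comp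
    (X.subs x₀ eta z : B →+* B) = (X.subs x₀ eta (y.comp z) : B →+* B) := by
  refine X.hom_ext ?_ ?_
  · intro w
    change X.subs x₀ eta y (X.subs x₀ eta z (X.c w)) = X.subs x₀ eta (y.comp z) (X.c w)
    rw [subs_c, subs_c, subs_c]
  · intro t s
    change X.subs x₀ eta y (X.subs x₀ eta z (X.pts x₀ eta (Sum.inl t) s)) =
      X.subs x₀ eta (y.comp z) (X.pts x₀ eta (Sum.inl t) s)
    rw [subs_pts, subs_pts, subs_pts]
    rfl

theorem subs_id : (X.subs x₀ eta Sum.inl : B →+* B) = RingHom.id B := by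
  refine X.hom_ext ?_ ?_
  · intro w
    exact X.subs_c x₀ eta _ w
  · intro t s
    exact X.sub_x _ t s

/-- All points go to the end point. -/
def evp : B →ₐ[k] Om := X.lift (AlgHom.id k Om) fun _ => eta

theorem evp_c (w : Om) : X.evp eta (X.c w) = w := X.lift_c_apply _ _ _

theorem evp_x (t : Lb n l) (s : S) : X.evp eta (X.x t s) = eta s := X.lift_x_apply _ _ _ _

theorem evp_subs (y : Sb n l) (hy : ∀ t, y t ≠ Sum.inr false) :
    ((X.evp eta : B →ₐ[k] Om) : B →+* Om).comp (X.subs x₀ eta y : B →+* B) =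
      (X.evp eta : B →+* Om) := by
  refine X.hom_ext ?_ ?_
  · intro w
    change X.evp eta (X.subs x₀ eta y (X.c w)) = X.evp eta (X.c w)
    rw [subs_c]
  · intro t s
    change X.evp eta (X.subs x₀ eta y (X.pts x₀ eta (Sum.inl t) s)) = X.evp eta (X.x t s)
    rw [subs_pts, evp_x]
    change X.evp eta (X.pts x₀ eta (y t) s) = eta s
    cases h : y t with
    | inl t' => exact X.evp_x eta t' s
    | inr b =>
      cases b
      · exact absurd h (hy t)
      · exact X.evp_c eta (eta s)

end Crd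

end

section

variable (A : DGF.{u}) {k S Om B : Type u} [Field k] [CommRing S] [IsDomain S] [HasRat S]
  [Algebra k S] [CommRing Om] [IsDomain Om] [HasRat Om] [Algebra k Om] [CommRing B] [IsDomain B]
  [HasRat B] [Algebra k B] {n l : ℕ} (X : Crd k S Om B (Lb n l)) (x₀ : S →ₐ[k] k)
  (eta : S →ₐ[k] Om)

theorem DGF.map_apply_eq {B B' : Type u} [CommRing B] [IsDomain B] [HasRat B] [CommRing B']
    [IsDomain B'] [HasRat B'] {f g : B →+* B'} (h : f = g) (a : A.obj B) :
    A.map f a = A.map g a := by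
  rw [h]

/-- Cochains on powers of a curve, with the base point `x₀` and the end point `eta`. -/
def Crd.env : Env n l (A.obj S) (A.obj Om) (A.obj B) where
  L y := A.map (X.subs x₀ eta y : B →+* B)
  L_L y z c := by
    rw [← A.map_comp_apply]
    exact A.map_apply_eq (X.subs_subs x₀ eta y z) c
  L_id c := by
    rw [A.map_apply_eq (X.subs_id x₀ eta) c, A.map_id]
    rfl
  e p := A.map (X.pts x₀ eta p : S →+* B)
  L_e y p a := by
    rw [← A.map_comp_apply]
    exact A.map_apply_eq (RingHom.ext fun s => X.subs_pts x₀ eta y p s) a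
  cst := A.map (X.c : Om →+* B)
  L_cst y a := by
    rw [← A.map_comp_apply]
    exact A.map_apply_eq (RingHom.ext fun w => X.subs_c x₀ eta y w) a
  val b := A.map (Crd.ptO x₀ eta b : S →+* Om)
  e_val b a := by
    rw [← A.map_comp_apply]
    exact A.map_apply_eq (congrArg (fun g : S →ₐ[k] B => (g : S →+* B)) (X.pt_eq x₀ eta b)) a
  Ev := A.map (X.evp eta : B →+* Om)
  Ev_cst a := by
    rw [← A.map_comp_apply, A.map_apply_eq (g := RingHom.id Om)
      (RingHom.ext fun w => X.evp_c eta w) a, A.map_id]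
    rfl
  Ev_e t a := by
    rw [← A.map_comp_apply]
    exact A.map_apply_eq (RingHom.ext fun s => X.evp_x eta t s) a
  Ev_L y hy c := by
    rw [← A.map_comp_apply]
    exact A.map_apply_eq (X.evp_subs x₀ eta y hy) c

end

end Pool.Agent.SPC
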