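import Pool.Agent.SPC.KNulB

/-!
# SPC, part K: all types contain many equal blocks

MODULE SPC-KNulC. PLAN. Choose `q m` for every `m` (`null_of_le`: `q m` depends only on `n₀`, `m`),
`n = ∑ m ∈ range l, q m + 1`; if all the sets `{b | i b = m}`, `m < l`, had less than `q m` elements, then
`n = ∑ m < l, card {b | i b = m} ≤ ∑ m < l, q m` (`Finset.card_eq_sum_card_fiberwise`); a set with at least `q`
elements contains the range of an embedding of `Fin q` (`Finset.exists_subset_card_eq`,
`Finset.equivFin`, or `Function.Embedding.nonempty_of_card_le`).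
-/

noncomputable section

namespace Pool.Agent.SPC

universe u

open SDG Equiv

namespace Env

theorem exists_n (n₀ l : ℕ) : ∃ n : ℕ, ∀ {Cs C₀ C : Type u} [Ring Cs] [Algebra ℚ Cs]
    [SDG Cs] [Ring C₀] [Algebra ℚ C₀] [SDG C₀] [Ring C] [Algebra ℚ C] [SDG C]
    (E : Env n l Cs C₀ C) (_ : E.SymNull n₀) (i : Fin n → ℕ) (_ : ∀ b, i b < l),
      ∃ (m q : ℕ) (β : Fin q ↪ Fin n), (∀ a, i (β a) = m) ∧ E.Null m q β := by
  classical
  choose q hq using fun m : ℕ => null_of_le.{u} n₀ m
  refine ⟨∑ m ∈ Finset.range l, q m + 1, ?_⟩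
  intro Cs C₀ C _ _ _ _ _ _ _ _ _ E hE i hi
  have hex : ∃ m ∈ Finset.range l, q m ≤ (Finset.univ.filter fun b => i b = m).card := by
    by_contra hcon
    push Not at hcon
    have h1 := Finset.card_eq_sum_card_fiberwise (f := i)
      (s := (Finset.univ : Finset (Fin (∑ m ∈ Finset.range l, q m + 1)))) (t := Finset.range l)
      (fun b _ => Finset.mem_coe.2 (Finset.mem_range.2 (hi b)))
    rw [Finset.card_univ, Fintype.card_fin] at h1
    have h2 : ∑ m ∈ Finset.range l, (Finset.univ.filter fun b => i b = m).card ≤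
        ∑ m ∈ Finset.range l, q m := Finset.sum_le_sum fun m hm => (hcon m hm).le
    omega
  obtain ⟨m, hm, hc⟩ := hex
  have h3 : Fintype.card (Fin (q m)) ≤
      Fintype.card ↥(Finset.univ.filter fun b => i b = m) := by
    rw [Fintype.card_fin, Fintype.card_coe]
    exact hc
  obtain ⟨β⟩ := Function.Embedding.nonempty_of_card_le h3
  refine ⟨m, q m, β.trans (Function.Embedding.subtype _), fun a => ?_, ?_⟩
  · exact (Finset.mem_filter.1 (β a).2).2
  · exact hq m E hE (Finset.mem_range.1 hm) le_rfl _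

end Env

end Pool.Agent.SPC
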