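import Pool.Agent.SPC.KMain
import Pool.Agent.SPC.KEnv
import Pool.Agent.SPC.KNulC
import Pool.Agent.SPC.HSym
import Pool.Agent.SPC.CrdCr
import Pool.Agent.SPC.Inst

/-!
# SPC: transport of tensor nilpotence along a curve, for every functor `A : DGF`
-/

noncomputable section

namespace Pool.Agent.SPC

universe u

open SDG Equiv Pool.Agent.GSM

theorem via_eq_viaFintypeEmbedding {X Y : Type} [Fintype X] [DecidableEq Y] (f : X ↪ Y)
    (ρ : Perm X) : via f ρ = ρ.viaFintypeEmbedding f := by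
  ext y
  by_cases hy : y ∈ Set.range f
  · obtain ⟨x, rfl⟩ := hy
    rw [via_apply f ρ x, Perm.viaFintypeEmbedding_apply_image]
  · rw [via_apply_of_notMem f ρ y hy, Perm.viaFintypeEmbedding_apply_notMem_range _ _ hy]

section

variable (A : DGF.{u}) {k S Om B : Type u} [Field k] [CommRing S] [IsDomain S] [HasRat S]
  [Algebra k S] [CommRing Om] [IsDomain Om] [HasRat Om] [Algebra k Om] [CommRing B] [IsDomain B]
  [HasRat B] [Algebra k B] {n l : ℕ} (X : Crd k S Om B (Lb n l)) (x₀ : S →ₐ[k] k)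
  (eta : S →ₐ[k] Om)

theorem Crd.subs_kill (t : Lb n l) : X.subs x₀ eta (kill t) = X.setPt x₀ t := by
  unfold Crd.subs Crd.setPt
  congr 1
  funext s
  by_cases hs : s = t
  · subst hs
    rw [Function.update_self]
    unfold kill
    rw [if_pos rfl]
    rfl
  · rw [Function.update_of_ne hs]
    unfold kill
    rw [if_neg hs]
    rfl

theorem Crd.subs_sbp {n₀ : ℕ} (f : Fin n₀ ↪ Lb n l) (ρ : Perm (Fin n₀)) :
    X.subs x₀ eta (sbp (via f ρ)) = X.permF f ρ := by
  unfold Crd.subs Crd.permF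
  congr 1
  funext s
  rw [via_eq_viaFintypeEmbedding]
  rfl

theorem Crd.symNull_env {n₀ : ℕ} (h : ∀ f : Fin n₀ ↪ Lb n l, SymNull A X f x₀) :
    (X.env A x₀ eta).SymNull n₀ := by
  intro f
  obtain ⟨H, h1, h2, h3⟩ := h f
  refine ⟨H, h1, h2, fun c hc => ?_⟩
  rw [h3 c ?_]
  · refine Finset.sum_congr rfl fun ρ _ => ?_
    exact A.map_apply_eq (congrArg (fun g : B →ₐ[k] B => (g : B →+* B))
      (X.subs_sbp x₀ eta f ρ).symm) c
  · intro i
    rw [← hc i]
    exact A.map_apply_eq (congrArg (fun g : B →ₐ[k] B => (g : B →+* B))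
      (X.subs_kill x₀ eta (f i)).symm) c

end

/-- An element which vanishes at the base point is tensor nilpotent at the end point. -/
theorem exact_end (A : DGF.{u}) {k : Type u} [Field k] [IsAlgClosed k] [CharZero k] {L : Type u}
    [Field L] [Algebra k L] (D : Crv k L) (x₀ : intCl k D.h →ₐ[k] k) {Om : Type u} [Field Om]
    [CharZero Om] [Algebra k Om] (eta : intCl k D.h →ₐ[k] Om) (P : PT (A.obj (intCl k D.h)))
    (hP : P.Even) (hP' : P.Closed)
    (h0 : ∀ a, A.map (Crd.ptO x₀ eta false : intCl k D.h →+* Om) (P.2 a) = 0) :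
    ∃ n, ((A.bc (eta : intCl k D.h →+* Om) P).pow n).Exact := by
  classical
  obtain ⟨l, hl, hr⟩ : ∃ l : ℕ, 0 < l ∧ ∀ a, P.1.rk a < l :=
    ⟨Finset.univ.sup P.1.rk + 1, Nat.succ_pos _, fun a =>
      Nat.lt_succ_of_le (Finset.le_sup (Finset.mem_univ a))⟩
  obtain ⟨n₀, _, hn₀⟩ := sym_null D
  obtain ⟨n, hn⟩ := Env.exists_n.{u} n₀ l
  have hd := isDomain_crCrv D Om (Lb n l)
  have hq := hasRat_crCrv D Om (Lb n l)
  have h1 := Crd.symNull_env A (crdCrv D Om (Lb n l)) x₀ eta (n₀ := n₀)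
    (fun f => hn₀ A Om _ (Lb n l) (crdCrv D Om (Lb n l)) f x₀)
  refine ⟨n, ?_⟩
  exact Env.main ((crdCrv D Om (Lb n l)).env A x₀ eta) P.1 hl
    (fun i hi => hn ((crdCrv D Om (Lb n l)).env A x₀ eta) h1 i hi) hP hP' h0 hr

/-- Powers of a closed even element modulo boundaries. -/
theorem pow_add_exact {W : Type u} [Ring W] [Algebra ℚ W] [SDG W] {a : W} (ha : par a = a)
    (ha' : d a = 0) (b : W) (n : ℕ) : ∃ w, (a + d b) ^ n = a ^ n + d w := by
  induction n with
  | zero => exact ⟨0, by rw [pow_zero, pow_zero, map_zero, add_zero]⟩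
  | succ n ih =>
    obtain ⟨w, hw⟩ := ih
    have h1 : d (a ^ n) = 0 := by
      have h2 : ∀ m : ℕ, par (a ^ m) = a ^ m ∧ d (a ^ m) = 0 := by
        intro m
        induction m with
        | zero => exact ⟨by rw [pow_zero, map_one], by rw [pow_zero, d_one]⟩
        | succ m ihm =>
          refine ⟨by rw [pow_succ, map_mul, ihm.1, ha], ?_⟩
          rw [pow_succ, d_mul, ihm.2, ha', zero_mul, mul_zero, add_zero]
      exact (h2 n).2
    refine ⟨a * w + b * a ^ n + b * d w, ?_⟩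
    rw [pow_succ', hw, pow_succ', map_add, map_add, d_mul, d_mul, d_mul, ha', ha, h1, d_d]
    simp only [zero_mul, mul_zero, zero_add, add_zero, add_mul, mul_add]
    abel

/-- Tensor nilpotence is transported from every point of a curve to every other point. -/
theorem DGF.transport (A : DGF.{u}) : A.Transport := by
  intro k _ _ _ L _ _ D x Om _ _ _ _ eta P hP hP' hx
  obtain ⟨M, f⟩ := P
  obtain ⟨X, hX⟩ : ∃ X : SHom (A.obj (intCl k D.h)) (A.obj k),
    X = A.map (x : intCl k D.h →+* k) := ⟨_, rfl⟩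
  obtain ⟨Y, hY⟩ : ∃ Y : SHom (A.obj (intCl k D.h)) (A.obj Om),
    Y = A.map (eta : intCl k D.h →+* Om) := ⟨_, rfl⟩
  have hP1 : M.pr f = f := TC.even_iff.1 hP
  have hP2 : M.dif f = 0 := hP'
  have hx1 : (M.map X).Exact (TC.mapE X M f) := by
    rw [hX]
    exact hx
  obtain ⟨g, hg⟩ := hx1
  have hev : (M.map X).pr (TC.mapE X M f) = TC.mapE X M f :=
    TC.even_iff.1 (TC.Even.mapE X (M := M) hP)
  obtain ⟨g', hg'⟩ : ∃ g' : (M.map X).I → A.obj k, g' = (2⁻¹ : ℚ) • (g - (M.map X).pr g) :=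
    ⟨_, rfl⟩
  have hpg : (M.map X).pr g' = -g' := by
    rw [hg', map_smul, map_sub, TC.pr_pr, ← smul_neg, neg_sub]
  have hdg : (M.map X).dif g' = TC.mapE X M f := by
    rw [hg', map_smul, map_sub, TC.dif_pr, hg, hev, sub_neg_eq_add, ← two_smul ℚ, smul_smul,
      inv_mul_cancel₀ (by norm_num : (2 : ℚ) ≠ 0), one_smul]
  obtain ⟨G, hG⟩ : ∃ G : M.I → A.obj (intCl k D.h),
    ∀ a, G a = A.map (algebraMap k (intCl k D.h)) (g' a) := ⟨_, fun _ => rfl⟩
  have hxG : TC.mapE X M G = g' := by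
    funext a
    change X (G a) = g' a
    rw [hG, hX, ← A.map_comp_apply, A.map_apply_eq (g := RingHom.id k)
      (RingHom.ext fun c => x.commutes c), A.map_id]
    rfl
  have hpG : M.pr G = -G := by
    funext a
    have h2 := congrFun hpg a
    rw [TC.pr_apply, Pi.neg_apply] at h2 ⊢
    rw [hG, ← map_neg, ← h2, map_smul, (A.map _).map_par]
    rfl
  have hdG : M.pr (M.dif G) = M.dif G := by
    have h4 := TC.dif_pr M G
    rw [hpG, map_neg, neg_inj] at h4
    exact h4.symm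
  have hQe : M.Even (f - M.dif G) := by
    refine TC.even_iff.2 ?_
    rw [map_sub, hP1, hdG]
  have hQc : M.dif (f - M.dif G) = 0 := by
    rw [map_sub, hP2, TC.dif_dif, sub_zero]
  have hQx : ∀ a, A.map (Crd.ptO x eta false : intCl k D.h →+* Om) ((f - M.dif G) a) = 0 := by
    intro a
    have h2 : X ((f - M.dif G) a) = 0 := by
      have h3 := congrFun (TC.mapE_dif X M G) a
      rw [hxG] at h3
      have h4 := congrFun hdg a
      rw [Pi.sub_apply, map_sub, sub_eq_zero]
      exact h4.symm.trans h3.symm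
    have h3 : (Crd.ptO x eta false : intCl k D.h →+* Om) =
        (algebraMap k Om).comp (x : intCl k D.h →+* k) := rfl
    rw [h3, A.map_comp_apply, ← hX, h2, map_zero]
  obtain ⟨n, hn⟩ := exact_end A D x eta ⟨M, f - M.dif G⟩ hQe hQc hQx
  refine ⟨n, ?_⟩
  intro W _ _ _ j r
  have hn' : ((M.map Y).pow n).Exact ((M.map Y).powE (TC.mapE Y M (f - M.dif G)) n) := by
    rw [hY]
    exact hn
  obtain ⟨r', hr'⟩ : ∃ r' : Rep (M.map Y) j, r'.ev (TC.mapE Y M f) =
      r.ev (A.bc (eta : intCl k D.h →+* Om) ⟨M, f⟩).2 := by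
    subst hY
    exact ⟨r, rfl⟩
  rw [← hr']
  obtain ⟨v, hv⟩ := r'.exists_of_exact hn'
  have hdif : TC.mapE Y M f = TC.mapE Y M (f - M.dif G) + (M.map Y).dif (TC.mapE Y M G) := by
    rw [← TC.mapE_dif]
    funext a
    change Y (f a) = Y (f a - M.dif G a) + Y (M.dif G a)
    rw [map_sub, sub_add_cancel]
  obtain ⟨w, hw⟩ := pow_add_exact (a := r'.ev (TC.mapE Y M (f - M.dif G)))
    (r'.ev_even (TC.Even.mapE Y hQe)) (by
      rw [r'.d_ev, ← TC.mapE_dif, hQc]
      unfold Rep.ev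
      refine Finset.sum_eq_zero fun i _ => ?_
      have h5 : TC.mapE Y M 0 i = 0 := map_zero Y
      rw [h5, map_zero, zero_mul]) (r'.ev (TC.mapE Y M G)) n
  refine ⟨v + w, ?_⟩
  rw [map_add, hv, hdif, r'.ev_add, ← r'.d_ev, hw]

/-- Tensor nilpotence does not depend on the point. -/
theorem DGF.tn_points (A : DGF.{u}) {k : Type u} [Field k] [IsAlgClosed k] [CharZero k]
    {R : Type u} [CommRing R] [IsDomain R] [HasRat R] [Algebra k R] [Algebra.FiniteType k R]
    {K : Type u} [Field K] [CharZero K] [Algebra k K] (p q : R →ₐ[k] K) (P : PT (A.obj R))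
    (hP : P.Even) (hP' : P.Closed) :
    (A.bc (p : R →+* K) P).TN ↔ (A.bc (q : R →+* K) P).TN :=
  A.points A.transport p q P hP hP'

/-- The nilpotence theorem over an algebraically closed field implies it over all extensions. -/
theorem DGF.nt_ext (A : DGF.{u}) {k : Type u} [Field k] [IsAlgClosed k] [CharZero k]
    {K : Type u} [Field K] [CharZero K] [Algebra k K] (hk : A.NT k) : A.NT K :=
  A.nt_of_nt A.transport hk

end Pool.Agent.SPC
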