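import Pool.Agent.SPC.KRed
import Pool.Agent.SPC.KSgn

/-!
# SPC, part K: the homotopy on invariant families

MODULE SPC-KHom. PLAN. For every type `i` with all `i b < l` choose (`choose`, over the subtype or with
`if hi : ∀ b, i b < l`) `m q β`, `hm : ∀ a, i (β a) = m` and `H` from `Null`, and `π` from `exists_proj i`. Put
`h Ψ i a = (q ! : ℚ)⁻¹ • π (H (Ψ i a))` if all `i b < l` and `0` otherwise. First condition: `exists_proj` and
`smul`. Third condition, at `i`: if some `l ≤ i b` both sides are zero. Otherwise, with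
`K c = (q ! : ℚ)⁻¹ • π (H c)`: `K (par c) = - par (K c)`, `K (c * cst b) = K c * cst b`, so
`dN (K ∘ f) a + K (dN f a) = d (K (f a)) + K (d (f a))` (`dN_apply`; the sums cancel), which is
`(q ! : ℚ)⁻¹ • π (∑ τ, chr (decide (m % 2 = 1)) τ • E.L (bp β m τ) (f a))` for `f = Ψ i` (`Red` gives the condition of
`Null`). `E.L (bp β m τ) c = E.L (pm (via β τ)) c` for `c` reduced of type `i` (`L_congr`: for `t.2 ≤ i t.1`, if
`t.1 = β x` then `t.2 ≤ m`, otherwise `via β τ t.1 = t.1`). Invariance for `σ = via β τ` at `i` with `kp_via` and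
`comp_via` gives `chr (decide (m % 2 = 1)) τ • E.L (pm (via β τ)) (Ψ i a) = Ψ i a`; the sum is `q ! • Ψ i a` and `π` fixes
`Ψ i a`.
-/

noncomputable section

namespace Pool.Agent.SPC

universe u

open SDG Equiv

namespace Env

variable {n l : ℕ} {Cs C₀ C : Type u} [Ring Cs] [Algebra ℚ Cs] [SDG Cs] [Ring C₀]
    [Algebra ℚ C₀] [SDG C₀] [Ring C] [Algebra ℚ C] [SDG C] (E : Env n l Cs C₀ C) (N : TC C₀)

private theorem exists_K (i : Fin n → ℕ) (hn : ∃ (m q : ℕ) (β : Fin q ↪ Fin n),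
      (∀ a, i (β a) = m) ∧ E.Null m q β) :
    ∃ K : C →ₗ[ℚ] C, (∀ c, K (par c) = -par (K c)) ∧ (∀ c b, K (c * E.cst b) = K c * E.cst b) ∧
      (∀ c, E.Red i (K c)) ∧ ∀ c, E.Red i c →
        (∀ σ : Perm (Fin n), i ∘ σ = i → kp σ i • E.L (pm σ) c = c) → d (K c) + K (d c) = c := by
  obtain ⟨m, q, β, hβ, H, h1, h2, h3⟩ := hn
  obtain ⟨π, p1, p2, p3, p4, p5⟩ := E.exists_proj i
  have hK : ∀ c, (((q.factorial : ℚ)⁻¹) • (π ∘ₗ H)) c = (q.factorial : ℚ)⁻¹ • π (H c) :=
    fun c => rfl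
  have hq : (q.factorial : ℚ) ≠ 0 := by exact_mod_cast q.factorial_ne_zero
  refine ⟨((q.factorial : ℚ)⁻¹) • (π ∘ₗ H), fun c => ?_, fun c b => ?_, fun c => ?_,
    fun c hc hinv => ?_⟩
  · rw [hK, hK, h1, map_neg, p1, map_smul, smul_neg]
  · rw [hK, hK, h2, p3, smul_mul_assoc]
  · rw [hK]
    exact Red.smul E (p4 _) _
  · rw [hK, hK, map_smul, ← smul_add, ← p2, ← map_add, h3 c (fun t ht htm => ?_)]
    · have e : ∀ τ : Perm (Fin q), chr (decide (m % 2 = 1)) τ • E.L (bp β m τ) c = c := by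
        intro τ
        have e1 : E.L (bp β m τ) c = E.L (pm (via β τ)) c := by
          refine L_congr E hc fun t ht => ?_
          unfold bp pm
          split_ifs with h
          · rfl
          · have h4 : t.1 ∉ Set.range β := by
              rintro ⟨x, hx⟩
              rw [← hx, hβ] at ht
              exact h ht
            rw [via_apply_of_notMem β τ t.1 h4]
        rw [e1, ← kp_via β τ i m hβ]
        exact hinv _ (comp_via β τ i m hβ)
      rw [Finset.sum_congr rfl fun τ _ => e τ, Finset.sum_const, Finset.card_univ,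
        Fintype.card_perm, Fintype.card_fin, map_nsmul, p5 c hc, ← Nat.cast_smul_eq_nsmul ℚ,
        smul_smul, inv_mul_cancel₀ hq, one_smul]
    · obtain ⟨x, hx⟩ := ht
      refine hc.1 t ?_
      rw [← hx, hβ]
      exact htm

theorem exists_htp (hnull : ∀ i : Fin n → ℕ, (∀ b, i b < l) →
      ∃ (m q : ℕ) (β : Fin q ↪ Fin n), (∀ a, i (β a) = m) ∧ E.Null m q β) :
    ∃ h : E.Fam N → E.Fam N, (∀ Ψ ∈ E.V N, h Ψ ∈ E.V N) ∧ (∀ Ψ i, Ψ i = 0 → h Ψ i = 0) ∧
      ∀ Ψ ∈ E.V N, E.Inv N Ψ → E.dif N (h Ψ) + h (E.dif N Ψ) = Ψ := by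
  classical
  choose K k1 k2 k3 k4 using fun (i : Fin n → ℕ) (hi : ∀ b, i b < l) => E.exists_K i (hnull i hi)
  obtain ⟨h, hh⟩ : ∃ h : E.Fam N → E.Fam N, ∀ Ψ i a, h Ψ i a =
      if hi : ∀ b, i b < l then K i hi (Ψ i a) else 0 := ⟨fun Ψ i a => _, fun _ _ _ => rfl⟩
  have hp : ∀ Ψ i a (hi : ∀ b, i b < l), h Ψ i a = K i hi (Ψ i a) := fun Ψ i a hi => by
    rw [hh, dif_pos hi]
  have hng : ∀ Ψ i a, (¬ ∀ b, i b < l) → h Ψ i a = 0 := fun Ψ i a hi => by
    rw [hh, dif_neg hi]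
  refine ⟨h, fun Ψ _ => ⟨fun i ⟨b, hb⟩ => ?_, fun i a => ?_⟩, fun Ψ i hi => ?_, fun Ψ hΨ hinv => ?_⟩
  · funext a
    exact hng Ψ i a fun hc => absurd (hc b) (by omega)
  · by_cases hi : ∀ b, i b < l
    · rw [hp Ψ i a hi]
      exact k3 i hi _
    · rw [hng Ψ i a hi]
      exact Red.zero E i
  · funext a
    by_cases hl : ∀ b, i b < l
    · rw [hp Ψ i a hl, hi]
      exact map_zero _
    · exact hng Ψ i a hl
  · funext i a
    rw [Pi.add_apply, Pi.add_apply, dif_apply, dN_apply]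
    by_cases hl : ∀ b, i b < l
    · rw [hp Ψ i a hl, hp (E.dif N Ψ) i a hl, dif_apply, dN_apply, map_add, map_sum]
      have e1 : ∀ b, par (h Ψ i b) * E.cst (N.D b a) +
          K i hl (par (Ψ i b) * E.cst (N.D b a)) = 0 := fun b => by
        rw [hp Ψ i b hl, k2, k1, neg_mul, add_neg_cancel]
      have e2 : d (K i hl (Ψ i a)) + K i hl (d (Ψ i a)) = Ψ i a := by
        refine k4 i hl (Ψ i a) (hΨ.2 i a) fun σ hσ => ?_
        have e3 := congrFun (congrFun (hinv σ) i) a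
        rw [act_apply, hσ] at e3
        exact e3
      rw [add_add_add_comm, e2, ← Finset.sum_add_distrib, Finset.sum_congr rfl fun b _ => e1 b,
        Finset.sum_const_zero, add_zero]
    · have e0 : Ψ i = 0 := by
        push Not at hl
        exact hΨ.1 i hl
      rw [hng (E.dif N Ψ) i a hl, hng Ψ i a hl, map_zero, zero_add, add_zero,
        Finset.sum_congr rfl fun b _ => by rw [hng Ψ i b hl, map_zero, zero_mul],
        Finset.sum_const_zero, e0]
      rfl

end Env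

end Pool.Agent.SPC
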