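import Pool.Agent.SPC.KWrd

/-!
# SPC, part K: the differential of a word
-/

noncomputable section

namespace Pool.Agent.SPC

universe u

open SDG Equiv

namespace Env

variable {n l : ℕ} {Cs C₀ C : Type u} [Ring Cs] [Algebra ℚ Cs] [SDG Cs] [Ring C₀]
    [Algebra ℚ C₀] [SDG C₀] [Ring C] [Algebra ℚ C] [SDG C] (E : Env n l Cs C₀ C) (M : TC Cs)

theorem dp_true (a b : M.I) : E.Dp M (Sum.inr true) a b =
    E.cst (E.val true (M.D a b)) - E.cst (E.val false (M.D a b)) := by
  unfold Dp
  rw [E.e_val]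

private theorem hom_flat {A A' : Type u} [Ring A] [Algebra ℚ A] [SDG A] [Ring A'] [Algebra ℚ A']
    [SDG A'] (φ : SHom A A') (M : TC A) (a b : M.I) :
    d (φ (M.D a b)) = -∑ c, par (φ (M.D a c)) * φ (M.D c b) := by
  rw [eq_neg_iff_add_eq_zero]
  exact (M.map φ).flat a b

theorem dp_d (p : Lb n l ⊕ Bool) (a b : M.I) : d (E.Dp M p a b) =
    -(∑ c, par (E.Dp M p a c) * E.Dp M p c b) -
      (∑ c, par (E.Dp M p a c) * E.cst (E.val false (M.D c b))) -
        ∑ c, par (E.cst (E.val false (M.D a c))) * E.Dp M p c b := by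
  have h1 : d (E.Dp M p a b) = -(∑ c, par (E.e p (M.D a c)) * E.e p (M.D c b)) +
      ∑ c, par (E.cst (E.val false (M.D a c))) * E.cst (E.val false (M.D c b)) := by
    unfold Dp
    rw [map_sub, hom_flat (E.e p) M a b]
    have h2 := hom_flat (E.cst.comp (E.val false)) M a b
    simp only [SHom.comp_apply] at h2
    rw [h2, sub_neg_eq_add]
  have h3 : ∀ c, par (E.e p (M.D a c)) * E.e p (M.D c b) =
      par (E.Dp M p a c) * E.Dp M p c b +
        par (E.Dp M p a c) * E.cst (E.val false (M.D c b)) +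
          par (E.cst (E.val false (M.D a c))) * E.Dp M p c b +
            par (E.cst (E.val false (M.D a c))) * E.cst (E.val false (M.D c b)) := by
    intro c
    unfold Dp
    rw [map_sub]
    noncomm_ring
  rw [h1, Finset.sum_congr rfl fun c _ => h3 c]
  simp only [Finset.sum_add_distrib]
  abel

/-- Row vectors times matrices, with the sign. -/
private def rv {I : Type} [Fintype I] (X : I → I → C) : (I → C) →ₗ[ℚ] (I → C) where
  toFun w a := ∑ b, par (w b) * X b a
  map_add' f g := by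
    funext a
    simp only [Pi.add_apply, map_add, add_mul, Finset.sum_add_distrib]
  map_smul' c f := by
    funext a
    simp only [Pi.smul_apply, map_smul, RingHom.id_apply, smul_mul_assoc, Finset.smul_sum]

private theorem rv_apply {I : Type} [Fintype I] (X : I → I → C) (w : I → C) (a : I) :
    rv X w a = ∑ b, par (w b) * X b a := rfl

private theorem rv_sub {I : Type} [Fintype I] (X Y : I → I → C) (w : I → C) :
    rv (fun b a => X b a - Y b a) w = rv X w - rv Y w := by
  funext a
  simp only [rv_apply, Pi.sub_apply, mul_sub, Finset.sum_sub_distrib]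

private theorem rv_rv {I : Type} [Fintype I] (X Y : I → I → C) (w : I → C) (a : I) :
    rv Y (rv X w) a = ∑ b, w b * ∑ c, par (X b c) * Y c a := by
  simp only [rv_apply, map_sum, map_mul, par_par, Finset.sum_mul, Finset.mul_sum, mul_assoc]
  rw [Finset.sum_comm]

private theorem d_rv {I : Type} [Fintype I] (X : I → I → C) (w : I → C) (a : I) :
    d (rv X w a) = -rv X (fun b => d (w b)) a + ∑ b, w b * d (X b a) := by
  simp only [rv_apply, map_sum, d_mul, d_par, par_par, Finset.sum_add_distrib, neg_mul,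
    Finset.sum_neg_distrib]

private theorem W_rv (f : M.I → Cs) (p : ℕ → Lb n l ⊕ Bool) (m : ℕ) :
    E.W M f p (m + 1) = rv (E.Dp M (p (m + 1))) (E.W M f p m) := rfl

private theorem dN_rv (w : M.I → C) : E.dN (M.map (E.val true)) w =
    (fun b => d (w b)) + rv (fun b a => E.cst (E.val true (M.D b a))) w := rfl

private theorem Dp_true : E.Dp M (Sum.inr true) = fun b a =>
    E.cst (E.val true (M.D b a)) - E.cst (E.val false (M.D b a)) := by
  funext b a
  exact E.dp_true M b a

private theorem W_dif' {f : M.I → Cs} (hf : M.dif f = 0) (p : ℕ → Lb n l ⊕ Bool) (m : ℕ) :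
    (fun b => d (E.W M f p m b)) +
      rv (fun b a => E.cst (E.val true (M.D b a))) (E.W M f p m) =
      ∑ j ∈ Finset.range (m + 2), ((-1 : ℚ) ^ (m + 1 + j)) • E.W M f (dlp j m p) (m + 1) := by
  obtain ⟨D₁, hD₁⟩ : ∃ D₁ : M.I → M.I → C, D₁ = fun b a => E.cst (E.val true (M.D b a)) := ⟨_, rfl⟩
  obtain ⟨D₀, hD₀⟩ : ∃ D₀ : M.I → M.I → C, D₀ = fun b a => E.cst (E.val false (M.D b a)) :=
    ⟨_, rfl⟩
  have hT : E.Dp M (Sum.inr true) = fun b a => D₁ b a - D₀ b a := by
    rw [hD₁, hD₀, Dp_true]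
  have hlast : ∀ m : ℕ, E.W M f (dlp (m + 1) m p) (m + 1) =
      rv D₁ (E.W M f p m) - rv D₀ (E.W M f p m) := by
    intro m
    rw [W_rv]
    have h1 : dlp (m + 1) m p (m + 1) = Sum.inr true := by
      unfold dlp
      rw [if_neg (by omega), if_pos rfl]
    have h2 : E.W M f (dlp (m + 1) m p) m = E.W M f p m := by
      refine E.W_congr M f fun r hr => ?_
      unfold dlp
      rw [if_neg (by omega), if_neg (by omega)]
    rw [h1, h2, hT, rv_sub]
  have hmid : ∀ m : ℕ, E.W M f (dlp m m p) (m + 1) = rv (E.Dp M (p m)) (E.W M f p m) := by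
    intro m
    rw [W_rv]
    have h1 : dlp m m p (m + 1) = p m := by
      unfold dlp
      rw [if_pos le_rfl, if_neg (by omega), Nat.add_sub_cancel]
    have h2 : E.W M f (dlp m m p) m = E.W M f p m := by
      refine E.W_congr M f fun r hr => ?_
      unfold dlp
      rw [if_pos le_rfl, if_pos hr]
    rw [h1, h2]
  rw [← hD₁]
  induction m with
  | zero =>
    rw [Finset.sum_range_succ, Finset.sum_range_one, hlast 0, hmid 0]
    have h1 : (fun b => d (E.W M f p 0 b)) =
        -(rv (E.Dp M (p 0)) (E.W M f p 0) + rv D₀ (E.W M f p 0)) := by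
      funext a
      have h2 := congrArg (E.e (p 0)) (congrFun hf a)
      rw [TC.dif_apply, Pi.zero_apply, map_add, map_zero, map_sum, SHom.map_d] at h2
      rw [W_zero, eq_neg_of_add_eq_zero_left h2, Pi.neg_apply, Pi.add_apply, rv_apply, rv_apply,
        ← Finset.sum_add_distrib]
      congr 1
      refine Finset.sum_congr rfl fun b _ => ?_
      rw [← mul_add, hD₀, map_mul, SHom.map_par, W_zero]
      unfold Dp
      rw [sub_add_cancel]
    rw [h1]
    simp only [zero_add, pow_one, neg_smul, one_smul, add_zero, Nat.reduceAdd, even_two,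
      Even.neg_pow, one_pow]
    abel
  | succ m ih =>
    obtain ⟨w, hw⟩ : ∃ w, w = E.W M f p m := ⟨_, rfl⟩
    obtain ⟨X, hX⟩ : ∃ X, X = E.Dp M (p (m + 1)) := ⟨_, rfl⟩
    have hW : E.W M f p (m + 1) = rv X w := by rw [W_rv, hX, hw]
    have hdX : ∀ b a, d (X b a) = -(∑ c, par (X b c) * X c a) - (∑ c, par (X b c) * D₀ c a) -
        ∑ c, par (D₀ b c) * X c a := by
      intro b a
      rw [hX, hD₀]
      exact E.dp_d M _ b a
    have h1 : (fun b => d (rv X w b)) = -rv X (fun b => d (w b)) - rv X (rv X w) -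
        rv D₀ (rv X w) - rv X (rv D₀ w) := by
      funext a
      rw [d_rv, Pi.sub_apply, Pi.sub_apply, Pi.sub_apply, Pi.neg_apply, rv_rv, rv_rv, rv_rv]
      simp only [hdX, mul_sub, mul_neg, Finset.sum_sub_distrib, Finset.sum_neg_distrib]
      abel
    have e1 : (-1 : ℚ) ^ (m + 1 + (m + 1)) = 1 := by
      rw [← two_mul]
      exact (even_two_mul _).neg_one_pow
    have e2 : (-1 : ℚ) ^ (m + 1 + 1 + (m + 1)) = -1 := by
      have : m + 1 + 1 + (m + 1) = m + 1 + (m + 1) + 1 := by ring
      rw [this, pow_succ, e1, one_mul]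
    have e3 : (-1 : ℚ) ^ (m + 1 + 1 + (m + 1 + 1)) = 1 := by
      rw [← two_mul]
      exact (even_two_mul _).neg_one_pow
    obtain ⟨T, hT'⟩ : ∃ T, T = ∑ j ∈ Finset.range (m + 1),
      ((-1 : ℚ) ^ (m + 1 + j)) • E.W M f (dlp j m p) (m + 1) := ⟨_, rfl⟩
    have h2 : (fun b => d (w b)) = T - rv D₀ w := by
      rw [Finset.sum_range_succ, ← hT', hlast m, ← hw, e1, one_smul] at ih
      rw [eq_sub_of_add_eq ih]
      abel
    have h3 : ∀ j ∈ Finset.range (m + 1), ((-1 : ℚ) ^ (m + 1 + 1 + j)) •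
        E.W M f (dlp j (m + 1) p) (m + 1 + 1) =
          -(rv X (((-1 : ℚ) ^ (m + 1 + j)) • (E.W M f (dlp j m p) (m + 1)))) := by
      intro j hj
      rw [Finset.mem_range] at hj
      have h4 : dlp j (m + 1) p (m + 1 + 1) = p (m + 1) := by
        unfold dlp
        rw [if_pos (by omega), if_neg (by omega), Nat.add_sub_cancel]
      have h5 : E.W M f (dlp j (m + 1) p) (m + 1) = E.W M f (dlp j m p) (m + 1) := by
        refine E.W_congr M f fun r hr => ?_
        unfold dlp
        rw [if_pos (show j ≤ m + 1 by omega), if_pos (show j ≤ m by omega)]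
      rw [W_rv, h4, h5, ← hX, map_smul, ← neg_smul]
      congr 1
      ring
    have h6 : ∑ j ∈ Finset.range (m + 1 + 2), ((-1 : ℚ) ^ (m + 1 + 1 + j)) •
        E.W M f (dlp j (m + 1) p) (m + 1 + 1) =
          -rv X T - rv X (rv X w) + (rv D₁ (rv X w) - rv D₀ (rv X w)) := by
      rw [Finset.sum_range_succ, Finset.sum_range_succ, Finset.sum_congr rfl h3, hlast (m + 1),
        hmid (m + 1), e2, e3, ← hX, hW, one_smul, neg_one_smul, Finset.sum_neg_distrib, ← map_sum,
        ← hT']
      abel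
    rw [h6, hW, h1, h2, map_sub]
    abel

theorem W_dif {f : M.I → Cs} (hf : M.dif f = 0) (p : ℕ → Lb n l ⊕ Bool) (m : ℕ) :
    E.dN (M.map (E.val true)) (E.W M f p m) =
      ∑ j ∈ Finset.range (m + 2), ((-1 : ℚ) ^ (m + 1 + j)) • E.W M f (dlp j m p) (m + 1) :=
  E.W_dif' M hf p m

end Env

end Pool.Agent.SPC
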