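import Pool.Agent.SPC.KPhi
import Pool.Agent.SPC.KWDif

/-!
# SPC, part K: the differential of a product of words

MODULE SPC-KPDif. PLAN. `dN_tmul`: `TC.tmul_dif` for `N.map E.cst` and `N'.map E.cst`; the matrix of `(N.tmul N').map E.cst` is
the matrix of the tensor product of the two base changes (compute as in `PT.map_tmul`: `unfold TC.tD`,
`map_add`, `apply_ite`, `map_smul`, `SHom.map_parP`). `Ph_dif`: induction on `k`. `k = 0`: both sides are `0`
(`d_one`, the matrix of `TC.one` is zero). Step: `dN_tmul`, `W_dif`, `W_pr`, the induction hypothesis,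
`Fin.sum_univ_succ`; `bs i 0 = 1`, `bs i b.succ = (-1) ^ i 0 * bs (fun c => i c.succ) b`;
`inc i b.succ` and `Function.update P b.succ _` have first component `i 0`, `P 0` and tail `inc`, `update` of the
tails; `inc i 0` has first component `i 0 + 1` and the same tail; `TC.tE` is bilinear over `ℚ`.
-/

noncomputable section

namespace Pool.Agent.SPC

universe u

open SDG Equiv

namespace Env

variable {n l : ℕ} {Cs C₀ C : Type u} [Ring Cs] [Algebra ℚ Cs] [SDG Cs] [Ring C₀]
    [Algebra ℚ C₀] [SDG C₀] [Ring C] [Algebra ℚ C] [SDG C] (E : Env n l Cs C₀ C)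

private theorem tE_sum_left {A : Type u} [Ring A] [Algebra ℚ A] [SDG A] (N N' : TC A) {ι : Type} (s : Finset ι)
    (c : ι → ℚ) (F : ι → N.I → A) (g : N'.I → A) :
    TC.tE N N' (∑ a ∈ s, c a • F a) g = ∑ a ∈ s, c a • TC.tE N N' (F a) g := by
  funext x
  rw [Finset.sum_apply]
  unfold TC.tE
  rw [Finset.sum_apply, Finset.sum_mul]
  refine Finset.sum_congr rfl fun a _ => ?_
  rw [Pi.smul_apply, Pi.smul_apply, smul_mul_assoc]

private theorem tE_sum_right {A : Type u} [Ring A] [Algebra ℚ A] [SDG A] (N N' : TC A) {ι : Type} (s : Finset ι)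
    (c : ι → ℚ) (f : N.I → A) (G : ι → N'.I → A) :
    TC.tE N N' f (∑ a ∈ s, c a • G a) = ∑ a ∈ s, c a • TC.tE N N' f (G a) := by
  funext x
  rw [Finset.sum_apply]
  unfold TC.tE
  rw [Finset.sum_apply, map_sum, Finset.mul_sum]
  refine Finset.sum_congr rfl fun a _ => ?_
  rw [Pi.smul_apply, Pi.smul_apply, map_smul, mul_smul_comm]

private theorem tE_smul_left {A : Type u} [Ring A] [Algebra ℚ A] [SDG A] (N N' : TC A) (c : ℚ) (f : N.I → A)
    (g : N'.I → A) : TC.tE N N' (c • f) g = c • TC.tE N N' f g := by
  funext x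
  unfold TC.tE
  rw [Pi.smul_apply, Pi.smul_apply, smul_mul_assoc]

private theorem bs_zero' {k : ℕ} (i : Fin (k + 1) → ℕ) : bs i 0 = 1 := by
  rw [bs]
  refine Finset.prod_eq_one fun c hc => ?_
  exact absurd (Finset.mem_filter.1 hc).2 (Fin.not_lt_zero c)

private theorem bs_succ' {k : ℕ} (i : Fin (k + 1) → ℕ) (b : Fin k) :
    bs i b.succ = (-1) ^ i 0 * bs (fun c => i c.succ) b := by
  rw [bs, bs, Finset.prod_filter, Finset.prod_filter, Fin.prod_univ_succ, if_pos (Fin.succ_pos b)]
  congr 1
  refine Finset.prod_congr rfl fun c _ => ?_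
  simp only [Fin.succ_lt_succ_iff]

theorem dN_tmul (N N' : TC C₀) (f : N.I → C) (g : N'.I → C) :
    E.dN (N.tmul N') (TC.tE (N.map E.cst) (N'.map E.cst) f g) =
      TC.tE (N.map E.cst) (N'.map E.cst) (E.dN N f) g +
        TC.tE (N.map E.cst) (N'.map E.cst) ((N.map E.cst).pr f) (E.dN N' g) := by
  funext y
  have h := TC.tE_leibniz (N.map E.cst) (N'.map E.cst) f g y
  refine Eq.trans ?_ h
  rw [dN_apply]
  congr 1
  refine Finset.sum_congr rfl fun x _ => ?_
  congr 1
  change E.cst (TC.tD N N' x y) = TC.tD (N.map E.cst) (N'.map E.cst) x y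
  unfold TC.tD
  rw [map_add]
  congr 1
  · rw [apply_ite E.cst, map_zero]
    rfl
  · rw [apply_ite E.cst, map_zero, map_smul, E.cst.map_parP]
    rfl

theorem Ph_dif (M : TC Cs) {f : M.I → Cs} (hf : M.Even f) (hf' : M.dif f = 0) (k : ℕ)
    (P : Fin k → ℕ → Lb n l ⊕ Bool) (i : Fin k → ℕ) :
    E.dN ((M.map (E.val true)).pow k) (E.Ph M f k P i) = ∑ b, bs i b •
      ∑ j ∈ Finset.range (i b + 2), ((-1 : ℚ) ^ (i b + 1 + j)) •
        E.Ph M f k (Function.update P b (dlp j (i b) (P b))) (inc i b) := by
  induction k with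
  | zero =>
    funext x
    rw [dN_apply]
    change d (1 : C) + ∑ _b : Unit, par (1 : C) * E.cst 0 = 0
    rw [d_one, map_zero]
    simp
  | succ k ih =>
    refine (E.dN_tmul (M.map (E.val true)) ((M.map (E.val true)).pow k) (E.W M f (P 0) (i 0))
      (E.Ph M f k (fun b => P b.succ) fun b => i b.succ)).trans ?_
    rw [E.W_dif M hf', E.W_pr M hf, ih, Fin.sum_univ_succ, bs_zero', one_smul]
    congr 1
    · refine (tE_sum_left ((M.map (E.val true)).map E.cst) (((M.map (E.val true)).pow k).map E.cst)
        (Finset.range (i 0 + 2)) (fun j => (-1 : ℚ) ^ (i 0 + 1 + j)) (fun j => E.W M f (dlp j (i 0) (P 0)) (i 0 + 1))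
        (E.Ph M f k (fun b => P b.succ) fun b => i b.succ)).trans ?_
      refine Finset.sum_congr rfl fun j _ => ?_
      congr 1
    · refine (tE_smul_left ((M.map (E.val true)).map E.cst) (((M.map (E.val true)).pow k).map E.cst)
        ((-1 : ℚ) ^ i 0) (E.W M f (P 0) (i 0)) _).trans ?_
      refine (congrArg (fun z => ((-1 : ℚ) ^ i 0) • z) (tE_sum_right ((M.map (E.val true)).map E.cst)
        (((M.map (E.val true)).pow k).map E.cst) Finset.univ (fun b => bs (fun b => i b.succ) b) (E.W M f (P 0) (i 0))
        (fun b => ∑ j ∈ Finset.range (i b.succ + 2), ((-1 : ℚ) ^ (i b.succ + 1 + j)) •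
              E.Ph M f k (Function.update (fun b => P b.succ) b (dlp j (i b.succ) (P b.succ)))
                (inc (fun b => i b.succ) b)))).trans ?_
      refine Finset.smul_sum.trans ?_
      refine Finset.sum_congr rfl fun b _ => ?_
      rw [bs_succ', smul_smul]
      refine congrArg (fun z => (((-1 : ℚ) ^ i 0) * bs (fun b => i b.succ) b) • z) ?_
      refine (tE_sum_right ((M.map (E.val true)).map E.cst)
        (((M.map (E.val true)).pow k).map E.cst) (Finset.range (i b.succ + 2))
        (fun j => (-1 : ℚ) ^ (i b.succ + 1 + j)) (E.W M f (P 0) (i 0))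
        (fun j => E.Ph M f k (Function.update (fun b => P b.succ) b (dlp j (i b.succ) (P b.succ)))
                (inc (fun b => i b.succ) b))).trans ?_
      refine Finset.sum_congr rfl fun j _ => ?_
      refine congrArg (fun z => ((-1 : ℚ) ^ (i b.succ + 1 + j)) • z) ?_
      rw [Ph_succ]
      have h0 : (0 : Fin (k + 1)) ≠ b.succ := (Fin.succ_ne_zero b).symm
      have h1 : inc i b.succ 0 = i 0 := by rw [inc, Function.update_of_ne h0]
      have h2 : (fun c : Fin k => Function.update P b.succ (dlp j (i b.succ) (P b.succ)) c.succ) =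
          Function.update (fun c => P c.succ) b (dlp j (i b.succ) (P b.succ)) := by
        funext c
        by_cases hc : c = b
        · subst hc
          rw [Function.update_self, Function.update_self]
        · rw [Function.update_of_ne hc, Function.update_of_ne (fun h => hc (Fin.succ_injective _ h))]
      have h3 : (fun c : Fin k => inc i b.succ c.succ) = inc (fun c => i c.succ) b := by
        funext c
        rw [inc, inc]
        by_cases hc : c = b
        · subst hc
          rw [Function.update_self, Function.update_self]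
        · rw [Function.update_of_ne hc, Function.update_of_ne (fun h => hc (Fin.succ_injective _ h))]
      rw [h1, h2, h3, Function.update_of_ne h0]

end Env

end Pool.Agent.SPC
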