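import Pool.Agent.SPC.KCtr
import Pool.Agent.SPC.KHom
import Pool.Agent.SPC.KPDif

/-!
# SPC, part K: an element which vanishes at the base point is tensor nilpotent at the end point
-/

noncomputable section

namespace Pool.Agent.SPC

universe u

open SDG Equiv

/-- The standard labels. -/
def stdl (n l : ℕ) (b : Fin n) (r : ℕ) : Lb n l ⊕ Bool :=
  if h : r < l then Sum.inl (b, ⟨r, h⟩) else Sum.inr false

theorem stdl_of_lt {n l : ℕ} (b : Fin n) {r : ℕ} (h : r < l) :
    stdl n l b r = Sum.inl (b, ⟨r, h⟩) := dif_pos h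

theorem stdl_of_le {n l : ℕ} (b : Fin n) {r : ℕ} (h : l ≤ r) :
    stdl n l b r = Sum.inr false := dif_neg (not_lt.2 h)

namespace Env

variable {n l : ℕ} {Cs C₀ C : Type u} [Ring Cs] [Algebra ℚ Cs] [SDG Cs] [Ring C₀]
    [Algebra ℚ C₀] [SDG C₀] [Ring C] [Algebra ℚ C] [SDG C] (E : Env n l Cs C₀ C) (M : TC Cs)
    (f : M.I → Cs)

/-- The family of the products of words. -/
def Phi : E.Fam ((M.map (E.val true)).pow n) := fun i => E.Ph M f n (stdl n l) i

theorem Phi_mem (h0 : ∀ a, E.val false (f a) = 0) (hr : ∀ a, M.rk a < l) :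
    E.Phi M f ∈ E.V ((M.map (E.val true)).pow n) := by
  refine ⟨?_, fun i a => ⟨fun t ht => ?_, fun t ht => ?_⟩⟩
  · rintro i ⟨b, hb⟩
    exact E.Ph_nil M f hr _ hb
  · change E.L (kill t) (E.Ph M f n (stdl n l) i a) = 0
    rw [E.Ph_L]
    have h1 := E.Ph_base M f h0 (P := fun b r => Sum.elim (kill t) Sum.inr (stdl n l b r)) (i := i)
      (b := t.1) (r := t.2) ht (by
        rw [stdl_of_lt _ t.2.isLt]
        simp [kill])
    exact congrFun h1 a
  · change E.L (kill t) (E.Ph M f n (stdl n l) i a) = E.Ph M f n (stdl n l) i a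
    rw [E.Ph_L]
    refine congrFun (E.Ph_congr M f ?_) a
    intro b r hr'
    by_cases h : r < l
    · rw [stdl_of_lt _ h]
      have h2 : ((b, ⟨r, h⟩) : Lb n l) ≠ t := by
        rintro rfl
        exact absurd ht (not_lt.2 hr')
      simp [kill, h2]
    · rw [stdl_of_le _ (not_lt.1 h)]
      rfl

theorem Phi_dif {f : M.I → Cs} (hf : M.Even f) (hf' : M.dif f = 0) (hr : ∀ a, M.rk a < l) :
    E.dif ((M.map (E.val true)).pow n) (E.Phi M f) =
      E.del ((M.map (E.val true)).pow n) (E.Phi M f) := by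
  funext i
  rw [dif_apply, del_apply]
  unfold Phi
  rw [E.Ph_dif M hf hf']
  refine Finset.sum_congr rfl fun b _ => ?_
  congr 1
  refine Finset.sum_congr rfl fun j hj => ?_
  congr 1
  funext x
  rw [Lv_apply, E.Ph_L]
  by_cases hb : l ≤ i b + 1
  · have hb' : l ≤ inc i b b := by
      unfold inc
      rw [Function.update_self]
      exact hb
    rw [E.Ph_nil M f hr _ hb', E.Ph_nil M f hr _ hb']
  · refine congrFun (E.Ph_congr M f ?_) x
    intro c r hc
    by_cases hcb : c = b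
    · subst hcb
      unfold inc at hc
      rw [Function.update_self] at hc
      have hrl : r < l := by omega
      rw [Function.update_self, stdl_of_lt _ hrl]
      unfold dlp
      simp only [Sum.elim_inl, dl, if_true]
      by_cases hj1 : j ≤ i c
      · rw [if_pos hj1, if_pos hj1]
        by_cases hrj : r ≤ j
        · rw [if_pos hrj, if_pos hrj, stdl_of_lt _ hrl]
        · rw [if_neg hrj, if_neg hrj, stdl_of_lt _ (by omega : r - 1 < l)]
      · rw [if_neg hj1, if_neg hj1]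
        by_cases hrj : r = i c + 1
        · rw [if_pos hrj, if_pos hrj]
        · rw [if_neg hrj, if_neg hrj, stdl_of_lt _ hrl]
    · rw [Function.update_of_ne hcb]
      by_cases hrl : r < l
      · rw [stdl_of_lt _ hrl]
        simp [dl, hcb]
      · rw [stdl_of_le _ (not_lt.1 hrl)]
        rfl

theorem dl_ne (b : Fin n) (j m : ℕ) (t : Lb n l) :
    (dl b j m : Sb n l) t ≠ Sum.inr false := by
  unfold dl
  split_ifs <;> simp

theorem pm_ne (σ : Perm (Fin n)) (t : Lb n l) : (pm σ : Sb n l) t ≠ Sum.inr false := by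
  simp [pm]

/-- The evaluation at the end point commutes with the differentials. -/
theorem Ev_dN (N : TC C₀) (g : N.I → C) (a : N.I) :
    E.Ev (E.dN N g a) = N.dif (fun b => E.Ev (g b)) a := by
  rw [dN_apply, TC.dif_apply, map_add, map_sum, E.Ev.map_d]
  congr 1
  refine Finset.sum_congr rfl fun b _ => ?_
  rw [map_mul, E.Ev.map_par, E.Ev_cst]

theorem main (hl : 0 < l) (hnull : ∀ i : Fin n → ℕ, (∀ b, i b < l) →
      ∃ (m q : ℕ) (β : Fin q ↪ Fin n), (∀ a, i (β a) = m) ∧ E.Null m q β)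
    {f : M.I → Cs} (hf : M.Even f) (hf' : M.dif f = 0) (h0 : ∀ a, E.val false (f a) = 0)
    (hr : ∀ a, M.rk a < l) :
    ((M.map (E.val true)).pow n).Exact
      ((M.map (E.val true)).powE (TC.mapE (E.val true) M f) n) := by
  obtain ⟨N, hN⟩ : ∃ N, N = (M.map (E.val true)).pow n := ⟨_, rfl⟩
  obtain ⟨h, hV, hsupp, hh⟩ := E.exists_htp ((M.map (E.val true)).pow n) hnull
  have h1 := E.Phi_mem M f h0 hr
  have h2 := E.Phi_dif M hf hf' hr
  obtain ⟨Θ, _, hΘ⟩ := E.exists_primitive ((M.map (E.val true)).pow n) h hV hsupp hh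
    (E.av_mem _ h1) (E.inv_av _ _) (by
      rw [← E.av_comm _ (E.dif _) (fun σ Ψ => E.act_dif _ σ Ψ), h2,
        E.av_comm _ (E.del _) (fun σ Ψ => E.act_del _ σ Ψ)])
  refine ⟨fun a => E.Ev (Θ 0 a), ?_⟩
  funext a
  rw [← E.Ev_dN, ← dif_apply]
  have h3 : E.Ev (E.del ((M.map (E.val true)).pow n) Θ 0 a) = 0 := by
    rw [del_apply, Finset.sum_apply, map_sum]
    refine Finset.sum_eq_zero fun b _ => ?_
    rw [Pi.smul_apply, map_smul, Finset.sum_apply, map_sum]
    have h4 : ∀ j, E.Ev ((((-1 : ℚ) ^ ((0 : Fin n → ℕ) b + 1 + j)) • E.Lv ((M.map (E.val true)).pow n)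
        (dl b j ((0 : Fin n → ℕ) b)) (Θ (inc 0 b))) a) =
          ((-1 : ℚ) ^ (1 + j)) • E.Ev (Θ (inc 0 b) a) := by
      intro j
      rw [Pi.smul_apply, map_smul, Lv_apply, E.Ev_L _ (dl_ne b j _), Pi.zero_apply, zero_add]
    simp only [h4]
    rw [Pi.zero_apply, zero_add, Finset.sum_range_succ, Finset.sum_range_one]
    simp
  have h5 : E.Ev (E.dif ((M.map (E.val true)).pow n) Θ 0 a) =
      E.Ev (E.av ((M.map (E.val true)).pow n) (E.Phi M f) 0 a) := by
    rw [hΘ, Pi.add_apply, Pi.add_apply, map_add, h3, add_zero]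
  rw [h5]
  unfold av
  rw [LinearMap.smul_apply, LinearMap.sum_apply, Pi.smul_apply, Pi.smul_apply, map_smul,
    Finset.sum_apply, Finset.sum_apply, map_sum]
  have h6 : ∀ σ : Perm (Fin n), E.Ev (E.act ((M.map (E.val true)).pow n) σ (E.Phi M f) 0 a) =
      (M.map (E.val true)).powE (TC.mapE (E.val true) M f) n a := by
    intro σ
    rw [act_apply, kp_zero, one_smul, Lv_apply, E.Ev_L _ (pm_ne σ)]
    change E.Ev (E.Ph M f n (stdl n l) 0 a) = _
    exact E.Ph_Ev M f _ (fun b => ⟨_, stdl_of_lt b hl⟩) a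
  rw [Finset.sum_congr rfl fun σ _ => h6 σ, Finset.sum_const, Finset.card_univ, Fintype.card_perm,
    Fintype.card_fin, ← Nat.cast_smul_eq_nsmul ℚ, smul_smul,
    inv_mul_cancel₀ (Nat.cast_ne_zero.2 (Nat.factorial_ne_zero n)), one_smul]

end Env

end Pool.Agent.SPC
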