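import Pool.Agent.SPC.KDef
import Pool.Agent.SPC.PMain
import Pool.Agent.SPC.PVia

/-!
# SPC, part K: from symmetrisers of points to symmetrisers of blocks

`E.SymNull n₀`: the symmetriser of any `n₀` labels is homotopic to zero on the elements which vanish
if one of these labels goes to the base point.

MODULE SPC-KNulA: `actL` and `null_of_J`. PLAN. `actL : QS (Lb n l) →ₐ End`: `MonoidAlgebra.lift` of the
monoid homomorphism `π ↦ E.L (sbp π)` (`sbp_comp`, `E.L_L`, `E.L_id`). Call `x : QS (Lb n l)` good for a set `s` of labels if there is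
`H : C →ₗ[ℚ] C` with the three conditions of `Null` for `actL x c`, for all `c` with `E.L (kill t) c = 0` for
`t ∈ s`. Good elements are closed under sums, scalars and left multiplication by `pe π` (compose
`H` with `E.L (sbp π)`, which commutes with `d`, `par` and fixes constants); by `SymNull` the
element `push ι (symm false n₀)` is good for `s` if `ι i ∈ s` for all `i`. `push κ` of a generator of `J false n₀ X` is
`pe (via κ σ) * push (f.trans κ) (symm false n₀)` (`push_pe`, `via_via`, `symm` is a sum of `chr • pe`), with `f.trans κ` in the range of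
`κ`. `Submodule.span_induction`.
-/

noncomputable section

namespace Pool.Agent.SPC

universe u

open SDG Equiv

/-- Permutation of the labels. -/
def sbp {n l : ℕ} (π : Perm (Lb n l)) : Sb n l := fun t => Sum.inl (π t)

theorem sbp_comp {n l : ℕ} (π π' : Perm (Lb n l)) : (sbp π).comp (sbp π') = sbp (π * π') := rfl

namespace Env

variable {n l : ℕ} {Cs C₀ C : Type u} [Ring Cs] [Algebra ℚ Cs] [SDG Cs] [Ring C₀]
    [Algebra ℚ C₀] [SDG C₀] [Ring C] [Algebra ℚ C] [SDG C] (E : Env n l Cs C₀ C)

/-- The symmetriser of `n₀` labels is homotopic to zero. -/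
def SymNull (n₀ : ℕ) : Prop := ∀ ι : Fin n₀ ↪ Lb n l, ∃ H : C →ₗ[ℚ] C,
  (∀ a, H (par a) = -par (H a)) ∧ (∀ a b, H (a * E.cst b) = H a * E.cst b) ∧
    ∀ c, (∀ i, E.L (kill (ι i)) c = 0) →
      d (H c) + H (d c) = ∑ ρ : Perm (Fin n₀), E.L (sbp (via ι ρ)) c

/-- The action of the group algebra of the permutations of the labels. -/
def actL : QS (Lb n l) →ₐ[ℚ] Module.End ℚ C :=
  MonoidAlgebra.lift ℚ (Module.End ℚ C) (Perm (Lb n l))
    { toFun := fun π => (E.L (sbp π)).toAlgHom.toLinearMap
      map_one' := by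
        apply LinearMap.ext
        intro c
        exact E.L_id c
      map_mul' := fun π π' => by
        apply LinearMap.ext
        intro c
        exact (E.L_L (sbp π) (sbp π') c).symm }

theorem actL_pe (π : Perm (Lb n l)) (c : C) : E.actL (pe π) c = E.L (sbp π) c := by
  rw [actL, pe, MonoidAlgebra.lift_of]
  rfl

theorem null_of_J {n₀ : ℕ} (hE : E.SymNull n₀) {X : Type} (κ : X ↪ Lb n l) {x : QS X}
    (hx : x ∈ J false n₀ X) : ∃ H : C →ₗ[ℚ] C, (∀ a, H (par a) = -par (H a)) ∧
      (∀ a b, H (a * E.cst b) = H a * E.cst b) ∧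
        ∀ c, (∀ t ∈ Set.range κ, E.L (kill t) c = 0) →
          d (H c) + H (d c) = E.actL (push κ x) c := by
  induction hx using Submodule.span_induction with
  | mem y hy =>
    obtain ⟨σ, f, rfl⟩ := hy
    obtain ⟨H, h1, h2, h3⟩ := hE (f.trans κ)
    refine ⟨(E.L (sbp (via κ σ))).toAlgHom.toLinearMap.comp H, ?_, ?_, ?_⟩
    · intro a
      show E.L (sbp (via κ σ)) (H (par a)) = -par (E.L (sbp (via κ σ)) (H a))
      rw [h1, map_neg, SHom.map_par]
    · intro a b
      show E.L (sbp (via κ σ)) (H (a * E.cst b)) = E.L (sbp (via κ σ)) (H a) * E.cst b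
      rw [h2, map_mul, E.L_cst]
    · intro a ha
      show d (E.L (sbp (via κ σ)) (H a)) + E.L (sbp (via κ σ)) (H (d a)) = _
      rw [← SHom.map_d, ← map_add (E.L (sbp (via κ σ))), h3 a fun i => ha _ ⟨f i, rfl⟩, map_mul, push_pe, map_mul,
        Module.End.mul_apply, E.actL_pe, symm]
      congr 1
      simp only [map_sum, LinearMap.sum_apply]
      refine Finset.sum_congr rfl fun ρ _ => ?_
      have h4 : chr false ρ = 1 := rfl
      rw [h4, one_smul, push_pe, push_pe, E.actL_pe, via_via]
  | zero =>
    refine ⟨0, by simp, by simp, fun a _ => ?_⟩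
    simp
  | add y z _ _ hy hz =>
    obtain ⟨H, h1, h2, h3⟩ := hy
    obtain ⟨H', h1', h2', h3'⟩ := hz
    refine ⟨H + H', ?_, ?_, ?_⟩
    · intro a
      rw [LinearMap.add_apply, LinearMap.add_apply, h1, h1', map_add, neg_add]
    · intro a b
      rw [LinearMap.add_apply, LinearMap.add_apply, h2, h2', add_mul]
    · intro a ha
      rw [LinearMap.add_apply, LinearMap.add_apply, map_add, map_add, map_add,
        LinearMap.add_apply, ← h3 a ha, ← h3' a ha]
      abel
  | smul r y _ hy =>
    obtain ⟨H, h1, h2, h3⟩ := hy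
    refine ⟨r • H, ?_, ?_, ?_⟩
    · intro a
      rw [LinearMap.smul_apply, LinearMap.smul_apply, h1, map_smul, smul_neg]
    · intro a b
      rw [LinearMap.smul_apply, LinearMap.smul_apply, h2, smul_mul_assoc]
    · intro a ha
      rw [LinearMap.smul_apply, LinearMap.smul_apply, map_smul, ← smul_add, h3 a ha, map_smul,
        map_smul, LinearMap.smul_apply]

end Env

end Pool.Agent.SPC
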