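import Pool.Agent.SPC.KNul

/-!
# SPC, part K: all types contain many equal blocks

MODULE SPC-KNulB. PLAN. `null_of_le`: with `q₀` from `plethysm n₀ m`; `κ : Fin q × Fin (m + 1) ↪ Lb n l`,
`(a, r) ↦ (β a, r)` (`Fin.castLE`, `m < l`); `null_of_J` for `x = blk (decide (m % 2 = 1)) q (m + 1)`. `blk` is a sum of `chr • pe`, so
`actL (push κ x) c = ∑ τ, chr _ τ • E.L (sbp (via κ (Equiv.prodCongr τ (Equiv.refl _)))) c` and
`sbp (via κ (Equiv.prodCongr τ (Equiv.refl _))) = bp β m τ` (`via_apply`, `via_apply_of_notMem`: three cases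
`t = κ (a, r)`; `t.1` not in the range of `β`; `m < t.2`). -/

noncomputable section

namespace Pool.Agent.SPC

universe u

open SDG Equiv

namespace Env

/-- The points `(β a, r)`, `r ≤ m`. -/
private def blkE {n l q : ℕ} (β : Fin q ↪ Fin n) (m : ℕ) (hm : m < l) :
    Fin q × Fin (m + 1) ↪ Lb n l where
  toFun p := (β p.1, Fin.castLE hm p.2)
  inj' := by
    intro p p' h
    have h1 := congrArg Prod.fst h
    have h2 := congrArg Prod.snd h
    exact Prod.ext (β.injective h1) (Fin.castLE_injective hm h2)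

private theorem sbp_blkE {n l q : ℕ} (β : Fin q ↪ Fin n) (m : ℕ) (hm : m < l) (τ : Perm (Fin q)) :
    sbp (via (blkE β m hm) (Equiv.prodCongr τ (Equiv.refl (Fin (m + 1))))) =
      (bp β m τ : Sb n l) := by
  classical
  funext t
  unfold sbp bp
  by_cases ht : t ∈ Set.range (blkE β m hm)
  · obtain ⟨p, rfl⟩ := ht
    have h1 : ((blkE β m hm p).2 : ℕ) ≤ m := Nat.lt_succ_iff.1 p.2.isLt
    rw [via_apply, if_pos h1]
    show Sum.inl (β (τ p.1), Fin.castLE hm p.2) = Sum.inl (via β τ (β p.1), Fin.castLE hm p.2)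
    rw [via_apply]
  · rw [via_apply_of_notMem _ _ _ ht]
    split_ifs with h
    · have h2 : t.1 ∉ Set.range β := by
        rintro ⟨a, ha⟩
        exact ht ⟨(a, ⟨t.2, Nat.lt_succ_iff.2 h⟩), Prod.ext ha rfl⟩
      rw [via_apply_of_notMem _ _ _ h2]
    · rfl

/-- The symmetriser of many equal blocks is homotopic to zero. -/
theorem null_of_le (n₀ m : ℕ) : ∃ q₀ : ℕ, ∀ {n l : ℕ} {Cs C₀ C : Type u} [Ring Cs] [Algebra ℚ Cs]
    [SDG Cs] [Ring C₀] [Algebra ℚ C₀] [SDG C₀] [Ring C] [Algebra ℚ C] [SDG C]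
    (E : Env n l Cs C₀ C) (_ : E.SymNull n₀) (_ : m < l) {q : ℕ} (_ : q₀ ≤ q)
    (β : Fin q ↪ Fin n), E.Null m q β := by
  obtain ⟨q₀, hq₀⟩ := plethysm n₀ m
  refine ⟨q₀, ?_⟩
  intro n l Cs C₀ C _ _ _ _ _ _ _ _ _ E hE hm q hq β
  obtain ⟨H, h1, h2, h3⟩ := E.null_of_J hE (blkE β m hm) (hq₀ q hq)
  refine ⟨H, h1, h2, fun c hc => ?_⟩
  rw [h3 c ?_, blk, map_sum, map_sum, LinearMap.sum_apply]
  · refine Finset.sum_congr rfl fun τ _ => ?_
    rw [map_smul, map_smul, LinearMap.smul_apply, push_pe, E.actL_pe, sbp_blkE]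
  · rintro t ⟨p, rfl⟩
    exact hc _ ⟨p.1, rfl⟩ (Nat.lt_succ_iff.1 p.2.isLt)

end Env

end Pool.Agent.SPC
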