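import Pool.Agent.SPC.KWrd

/-!
# SPC, part K: products of words (definition and statements except the differential)

MODULE SPC-KPhi. PLAN. Induction on `k`, `Fin.forall_fin_succ`/`Fin.cases` to separate the first block; the
statements for words are in `KWrd`. `Ph_Ev`: `E.Ev (E.e (P 0 0) (f a)) = E.val true (f a)` (`E.Ev_e`),
`SHom.map_parP`.
-/

noncomputable section

namespace Pool.Agent.SPC

universe u

open SDG Equiv

namespace Env

variable {n l : ℕ} {Cs C₀ C : Type u} [Ring Cs] [Algebra ℚ Cs] [SDG Cs] [Ring C₀]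
    [Algebra ℚ C₀] [SDG C₀] [Ring C] [Algebra ℚ C] [SDG C] (E : Env n l Cs C₀ C) (M : TC Cs)
    (f : M.I → Cs)

/-- The product of the words with the points `P b 0, …, P b (i b)`, an element of the tensor power. -/
def Ph : (k : ℕ) → (Fin k → ℕ → Lb n l ⊕ Bool) → (Fin k → ℕ) →
    (((M.map (E.val true)).pow k).I → C)
  | 0 => fun _ _ _ => 1
  | k + 1 => fun P i => TC.tE ((M.map (E.val true)).map E.cst)
      (((M.map (E.val true)).pow k).map E.cst) (E.W M f (P 0) (i 0))
      (Ph k (fun b => P b.succ) fun b => i b.succ)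

theorem Ph_zero (P : Fin 0 → ℕ → Lb n l ⊕ Bool) (i : Fin 0 → ℕ) :
    E.Ph M f 0 P i = fun _ => 1 := rfl

theorem Ph_succ (k : ℕ) (P : Fin (k + 1) → ℕ → Lb n l ⊕ Bool) (i : Fin (k + 1) → ℕ) :
    E.Ph M f (k + 1) P i = TC.tE ((M.map (E.val true)).map E.cst)
      (((M.map (E.val true)).pow k).map E.cst) (E.W M f (P 0) (i 0))
      (E.Ph M f k (fun b => P b.succ) fun b => i b.succ) := rfl

theorem Ph_congr {k : ℕ} {P P' : Fin k → ℕ → Lb n l ⊕ Bool} {i : Fin k → ℕ}
    (h : ∀ b, ∀ r ≤ i b, P b r = P' b r) : E.Ph M f k P i = E.Ph M f k P' i := by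
  induction k with
  | zero => rfl
  | succ k ih =>
    rw [Ph_succ, Ph_succ, E.W_congr M f (h 0), ih fun b r hr => h b.succ r hr]

theorem Ph_L (y : Sb n l) (k : ℕ) (P : Fin k → ℕ → Lb n l ⊕ Bool) (i : Fin k → ℕ)
    (x : ((M.map (E.val true)).pow k).I) :
    E.L y (E.Ph M f k P i x) = E.Ph M f k (fun b r => Sum.elim y Sum.inr (P b r)) i x := by
  induction k with
  | zero => exact map_one (E.L y)
  | succ k ih =>
    have key : ∀ (x1 : M.I) (x2 : ((M.map (E.val true)).pow k).I),
        E.L y (E.W M f (P 0) (i 0) x1 * parP C (M.odd x1)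
          (E.Ph M f k (fun b => P b.succ) (fun b => i b.succ) x2)) =
        E.W M f (fun r => Sum.elim y Sum.inr (P 0 r)) (i 0) x1 * parP C (M.odd x1)
          (E.Ph M f k (fun b r => Sum.elim y Sum.inr (P b.succ r)) (fun b => i b.succ) x2) := by
      intro x1 x2
      rw [map_mul, SHom.map_parP, E.W_L, ih]
    exact key x.1 x.2

theorem Ph_base (h0 : ∀ a, E.val false (f a) = 0) {k : ℕ} {P : Fin k → ℕ → Lb n l ⊕ Bool}
    {i : Fin k → ℕ} {b : Fin k} {r : ℕ} (hr : r ≤ i b) (hp : P b r = Sum.inr false) :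
    E.Ph M f k P i = 0 := by
  induction k with
  | zero => exact b.elim0
  | succ k ih =>
    rw [Ph_succ]
    revert hr hp
    refine Fin.cases ?_ (fun b => ?_) b
    · intro hr hp
      rw [E.W_base M f h0 hr hp]
      exact TC.tE_zero_left _ _ _
    · intro hr hp
      rw [ih (P := fun b => P b.succ) (i := fun b => i b.succ) (b := b) hr hp]
      exact TC.tE_zero_right _ _ _

theorem Ph_nil (hr : ∀ a, M.rk a < l) {k : ℕ} (P : Fin k → ℕ → Lb n l ⊕ Bool) {i : Fin k → ℕ}
    {b : Fin k} (hb : l ≤ i b) : E.Ph M f k P i = 0 := by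
  induction k with
  | zero => exact b.elim0
  | succ k ih =>
    rw [Ph_succ]
    revert hb
    refine Fin.cases ?_ (fun b => ?_) b
    · intro hb
      rw [E.W_nil M f hr (P 0) hb]
      exact TC.tE_zero_left _ _ _
    · intro hb
      rw [ih (fun b => P b.succ) (i := fun b => i b.succ) (b := b) hb]
      exact TC.tE_zero_right _ _ _

theorem Ph_Ev {k : ℕ} (P : Fin k → ℕ → Lb n l ⊕ Bool) (hP : ∀ b, ∃ t, P b 0 = Sum.inl t)
    (x : ((M.map (E.val true)).pow k).I) : E.Ev (E.Ph M f k P 0 x) =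
      (M.map (E.val true)).powE (TC.mapE (E.val true) M f) k x := by
  induction k with
  | zero => exact map_one E.Ev
  | succ k ih =>
    obtain ⟨t, ht⟩ := hP 0
    have key : ∀ (x1 : M.I) (x2 : ((M.map (E.val true)).pow k).I),
        E.Ev (E.W M f (P 0) 0 x1 * parP C (M.odd x1)
          (E.Ph M f k (fun b => P b.succ) 0 x2)) =
        E.val true (f x1) * parP C₀ (M.odd x1)
          ((M.map (E.val true)).powE (TC.mapE (E.val true) M f) k x2) := by
      intro x1 x2
      rw [map_mul, SHom.map_parP, ih (fun b => P b.succ) (fun b => hP b.succ), W_zero, ht, E.Ev_e]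
    exact key x.1 x.2

end Env

end Pool.Agent.SPC
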