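import Pool.Agent.SPC.KDef

/-!
# SPC, part K: substitutions in reduced cochains
-/

noncomputable section

namespace Pool.Agent.SPC

universe u

open SDG Equiv

namespace Env

variable {n l : ℕ} {Cs C₀ C : Type u} [Ring Cs] [Algebra ℚ Cs] [SDG Cs] [Ring C₀]
    [Algebra ℚ C₀] [SDG C₀] [Ring C] [Algebra ℚ C] [SDG C] (E : Env n l Cs C₀ C)

private theorem kill_self (t : Lb n l) : kill t t = Sum.inr false := if_pos rfl

private theorem kill_ne {t s : Lb n l} (h : s ≠ t) : kill t s = Sum.inl s := if_neg h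

private theorem comp_kill (y : Sb n l) (t s : Lb n l) :
    y.comp (kill t) s = if s = t then Sum.inr false else y s := by
  unfold Sb.comp
  by_cases h : s = t
  · rw [h, kill_self, if_pos rfl]
    rfl
  · rw [kill_ne h, if_neg h]
    rfl

private theorem kill_kill (t : Lb n l) (c : C) :
    E.L (kill t) (E.L (kill t) c) = E.L (kill t) c := by
  rw [E.L_L]
  have h : (kill t).comp (kill t) = kill (l := l) t := by
    funext s
    rw [comp_kill]
    by_cases h : s = t
    · rw [h, kill_self, if_pos rfl]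
    · rw [if_neg h]
  rw [h]

private theorem kill_comm (t t' : Lb n l) (c : C) :
    E.L (kill t) (E.L (kill t') c) = E.L (kill t') (E.L (kill t) c) := by
  rw [E.L_L, E.L_L]
  have h : (kill t).comp (kill t') = (kill t').comp (kill (l := l) t) := by
    funext s
    rw [comp_kill, comp_kill]
    by_cases h : s = t
    · by_cases h' : s = t'
      · rw [if_pos h, if_pos h']
      · rw [if_pos h, if_neg h', h, kill_self]
    · by_cases h' : s = t'
      · rw [if_neg h, if_pos h', h', kill_self]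
      · rw [if_neg h, if_neg h', kill_ne h, kill_ne h']
  rw [h]

theorem L_vanish {i : Fin n → ℕ} {c : C} (h : E.Red i c) {y : Sb n l} {t : Lb n l}
    (ht : (t.2 : ℕ) ≤ i t.1) (hy : y t = Sum.inr false) : E.L y c = 0 := by
  have h1 : y.comp (kill t) = y := by
    funext s
    rw [comp_kill]
    by_cases h : s = t
    · rw [if_pos h, h, hy]
    · rw [if_neg h]
  rw [← h1, ← E.L_L, h.1 t ht, map_zero]

private theorem L_ind {i : Fin n → ℕ} {c : C} (h : E.Red i c) (y : Sb n l)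
    (s : Finset (Lb n l)) (hs : ∀ t ∈ s, i t.1 < (t.2 : ℕ)) :
    E.L y c = E.L (fun t => if t ∈ s then Sum.inr false else y t) c := by
  classical
  induction s using Finset.induction_on with
  | empty =>
    congr 2
  | insert t s hts ih =>
    have h1 : (fun t' => if t' ∈ insert t s then Sum.inr false else y t') =
        Sb.comp (fun t' => if t' ∈ s then Sum.inr false else y t') (kill t) := by
      funext t'
      rw [comp_kill]
      by_cases h2 : t' = t
      · rw [if_pos h2, if_pos (by rw [h2]; exact Finset.mem_insert_self t s)]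
      · rw [if_neg h2]
        by_cases h3 : t' ∈ s
        · rw [if_pos h3, if_pos (Finset.mem_insert_of_mem h3)]
        · rw [if_neg h3, if_neg (fun h4 => (Finset.mem_insert.1 h4).elim h2 h3)]
    rw [h1, ← E.L_L, h.2 t (hs t (Finset.mem_insert_self t s))]
    exact ih fun t' ht' => hs t' (Finset.mem_insert_of_mem ht')

theorem L_congr {i : Fin n → ℕ} {c : C} (h : E.Red i c) {y y' : Sb n l}
    (hy : ∀ t : Lb n l, (t.2 : ℕ) ≤ i t.1 → y t = y' t) : E.L y c = E.L y' c := by
  classical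
  have hs : ∀ t ∈ (Finset.univ.filter fun t : Lb n l => i t.1 < (t.2 : ℕ)), i t.1 < (t.2 : ℕ) :=
    fun t ht => (Finset.mem_filter.1 ht).2
  rw [L_ind E h y _ hs, L_ind E h y' _ hs]
  have h1 : (fun t => if t ∈ (Finset.univ.filter fun t : Lb n l => i t.1 < (t.2 : ℕ)) then
        Sum.inr false else y t) =
      (fun t => if t ∈ (Finset.univ.filter fun t : Lb n l => i t.1 < (t.2 : ℕ)) then
        Sum.inr false else y' t) := by
    funext t
    by_cases h2 : i t.1 < (t.2 : ℕ)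
    · have h3 : t ∈ (Finset.univ.filter fun t : Lb n l => i t.1 < (t.2 : ℕ)) :=
        Finset.mem_filter.2 ⟨Finset.mem_univ t, h2⟩
      rw [if_pos h3, if_pos h3]
    · have h3 : t ∉ (Finset.univ.filter fun t : Lb n l => i t.1 < (t.2 : ℕ)) :=
        fun h4 => h2 (Finset.mem_filter.1 h4).2
      rw [if_neg h3, if_neg h3, hy t (not_lt.1 h2)]
  rw [h1]

theorem Red.map {i i' : Fin n → ℕ} {c : C} (h : E.Red i c) {y : Sb n l}
    (h1 : ∀ t : Lb n l, (t.2 : ℕ) ≤ i t.1 →
      y t = Sum.inr true ∨ ∃ t' : Lb n l, y t = Sum.inl t' ∧ (t'.2 : ℕ) ≤ i' t'.1)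
    (h2 : ∀ t' : Lb n l, (t'.2 : ℕ) ≤ i' t'.1 →
      ∃ t : Lb n l, (t.2 : ℕ) ≤ i t.1 ∧ y t = Sum.inl t') : E.Red i' (E.L y c) := by
  constructor
  · intro t' ht'
    obtain ⟨t, ht, hy⟩ := h2 t' ht'
    rw [E.L_L]
    refine L_vanish E h ht ?_
    unfold Sb.comp
    rw [hy]
    exact kill_self t'
  · intro t' ht'
    rw [E.L_L]
    refine L_congr E h fun t ht => ?_
    unfold Sb.comp
    rcases h1 t ht with hy | ⟨t'', hy, ht''⟩
    · rw [hy]
      rfl
    · rw [hy]
      refine kill_ne fun h3 => ?_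
      rw [h3] at ht''
      exact absurd ht'' (not_le.2 ht')

theorem Red.zero (i : Fin n → ℕ) : E.Red i 0 :=
  ⟨fun _ _ => map_zero _, fun _ _ => map_zero _⟩

theorem Red.add {i : Fin n → ℕ} {c c' : C} (h : E.Red i c) (h' : E.Red i c') :
    E.Red i (c + c') :=
  ⟨fun t ht => by rw [map_add, h.1 t ht, h'.1 t ht, add_zero],
    fun t ht => by rw [map_add, h.2 t ht, h'.2 t ht]⟩

theorem Red.smul {i : Fin n → ℕ} {c : C} (h : E.Red i c) (q : ℚ) : E.Red i (q • c) :=
  ⟨fun t ht => by rw [map_smul, h.1 t ht, smul_zero],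
    fun t ht => by rw [map_smul, h.2 t ht]⟩

theorem Red.sum {i : Fin n → ℕ} {ι : Type*} (s : Finset ι) {c : ι → C}
    (h : ∀ x ∈ s, E.Red i (c x)) : E.Red i (∑ x ∈ s, c x) := by
  classical
  induction s using Finset.induction_on with
  | empty =>
    rw [Finset.sum_empty]
    exact Red.zero E i
  | insert x s hx ih =>
    rw [Finset.sum_insert hx]
    exact Red.add E (h x (Finset.mem_insert_self x s))
      (ih fun y hy => h y (Finset.mem_insert_of_mem hy))

theorem Red.d {i : Fin n → ℕ} {c : C} (h : E.Red i c) : E.Red i (SDG.d c) :=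
  ⟨fun t ht => by rw [SHom.map_d, h.1 t ht, map_zero],
    fun t ht => by rw [SHom.map_d, h.2 t ht]⟩

theorem Red.par {i : Fin n → ℕ} {c : C} (h : E.Red i c) : E.Red i (SDG.par c) :=
  ⟨fun t ht => by rw [SHom.map_par, h.1 t ht, map_zero],
    fun t ht => by rw [SHom.map_par, h.2 t ht]⟩

theorem Red.mul_cst {i : Fin n → ℕ} {c : C} (h : E.Red i c) (b : C₀) :
    E.Red i (c * E.cst b) :=
  ⟨fun t ht => by rw [map_mul, h.1 t ht, zero_mul],
    fun t ht => by rw [map_mul, h.2 t ht, E.L_cst]⟩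

private theorem step (i : Fin n → ℕ) (t : Lb n l) : ∃ ρ : C →ₗ[ℚ] C,
    (∀ c, ρ (SDG.par c) = SDG.par (ρ c)) ∧ (∀ c, ρ (SDG.d c) = SDG.d (ρ c)) ∧
    (∀ c b, ρ (c * E.cst b) = ρ c * E.cst b) ∧
    (∀ s c, E.L (kill s) (ρ c) = ρ (E.L (kill s) c)) ∧
    (∀ c, ((t.2 : ℕ) ≤ i t.1 → E.L (kill t) (ρ c) = 0) ∧
      (i t.1 < (t.2 : ℕ) → E.L (kill t) (ρ c) = ρ c)) ∧
    ∀ c, ((t.2 : ℕ) ≤ i t.1 → E.L (kill t) c = 0) →
      (i t.1 < (t.2 : ℕ) → E.L (kill t) c = c) → ρ c = c := by
  by_cases h : (t.2 : ℕ) ≤ i t.1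
  · refine ⟨LinearMap.id - (E.L (kill t)).toAlgHom.toLinearMap, fun c => ?_, fun c => ?_,
      fun c b => ?_, fun s c => ?_, fun c => ⟨fun _ => ?_, fun h' => absurd h (not_le.2 h')⟩,
      fun c h1 _ => ?_⟩
    · change SDG.par c - E.L (kill t) (SDG.par c) = SDG.par (c - E.L (kill t) c)
      rw [SHom.map_par, map_sub]
    · change SDG.d c - E.L (kill t) (SDG.d c) = SDG.d (c - E.L (kill t) c)
      rw [SHom.map_d, map_sub]
    · change c * E.cst b - E.L (kill t) (c * E.cst b) = (c - E.L (kill t) c) * E.cst b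
      rw [map_mul, E.L_cst, sub_mul]
    · change E.L (kill s) (c - E.L (kill t) c) = E.L (kill s) c - E.L (kill t) (E.L (kill s) c)
      rw [map_sub, kill_comm E s t]
    · change E.L (kill t) (c - E.L (kill t) c) = 0
      rw [map_sub, kill_kill, sub_self]
    · change c - E.L (kill t) c = c
      rw [h1 h, sub_zero]
  · refine ⟨(E.L (kill t)).toAlgHom.toLinearMap, fun c => ?_, fun c => ?_,
      fun c b => ?_, fun s c => ?_, fun c => ⟨fun h' => absurd h' h, fun _ => ?_⟩,
      fun c _ h1 => ?_⟩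
    · exact SHom.map_par _ c
    · exact SHom.map_d _ c
    · change E.L (kill t) (c * E.cst b) = E.L (kill t) c * E.cst b
      rw [map_mul, E.L_cst]
    · exact kill_comm E s t c
    · exact kill_kill E t c
    · exact h1 (not_le.1 h)

private theorem proj_aux (i : Fin n → ℕ) (s : Finset (Lb n l)) : ∃ π : C →ₗ[ℚ] C,
    (∀ c, π (SDG.par c) = SDG.par (π c)) ∧ (∀ c, π (SDG.d c) = SDG.d (π c)) ∧
    (∀ c b, π (c * E.cst b) = π c * E.cst b) ∧
    (∀ t c, E.L (kill t) (π c) = π (E.L (kill t) c)) ∧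
    (∀ t ∈ s, ∀ c, ((t.2 : ℕ) ≤ i t.1 → E.L (kill t) (π c) = 0) ∧
      (i t.1 < (t.2 : ℕ) → E.L (kill t) (π c) = π c)) ∧
    ∀ c, (∀ t ∈ s, ((t.2 : ℕ) ≤ i t.1 → E.L (kill t) c = 0) ∧
      (i t.1 < (t.2 : ℕ) → E.L (kill t) c = c)) → π c = c := by
  classical
  induction s using Finset.induction_on with
  | empty =>
    exact ⟨LinearMap.id, fun _ => rfl, fun _ => rfl, fun _ _ => rfl, fun _ _ => rfl,
      fun t ht => absurd ht (Finset.notMem_empty t), fun _ _ => rfl⟩
  | insert t s hts ih =>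
    obtain ⟨π, p1, p2, p3, p4, p5, p6⟩ := ih
    obtain ⟨ρ, r1, r2, r3, r4, r5, r6⟩ := step E i t
    refine ⟨ρ.comp π, fun c => ?_, fun c => ?_, fun c b => ?_, fun t' c => ?_,
      fun t' ht' c => ?_, fun c hc => ?_⟩
    · rw [LinearMap.comp_apply, LinearMap.comp_apply, p1, r1]
    · rw [LinearMap.comp_apply, LinearMap.comp_apply, p2, r2]
    · rw [LinearMap.comp_apply, LinearMap.comp_apply, p3, r3]
    · rw [LinearMap.comp_apply, LinearMap.comp_apply, r4, p4]
    · rw [LinearMap.comp_apply]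
      rcases Finset.mem_insert.1 ht' with h1 | h1
      · rw [h1]
        exact r5 (π c)
      · obtain ⟨h2, h3⟩ := p5 t' h1 c
        exact ⟨fun h4 => by rw [r4, h2 h4, map_zero], fun h4 => by rw [r4, h3 h4]⟩
    · rw [LinearMap.comp_apply, p6 c fun t' ht' => hc t' (Finset.mem_insert_of_mem ht')]
      obtain ⟨h2, h3⟩ := hc t (Finset.mem_insert_self t s)
      exact r6 c h2 h3

/-- The projection to the reduced cochains. -/
theorem exists_proj (i : Fin n → ℕ) : ∃ π : C →ₗ[ℚ] C, (∀ c, π (SDG.par c) = SDG.par (π c)) ∧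
    (∀ c, π (SDG.d c) = SDG.d (π c)) ∧ (∀ c b, π (c * E.cst b) = π c * E.cst b) ∧
      (∀ c, E.Red i (π c)) ∧ ∀ c, E.Red i c → π c = c := by
  obtain ⟨π, p1, p2, p3, -, p5, p6⟩ := proj_aux E i Finset.univ
  exact ⟨π, p1, p2, p3, fun c => ⟨fun t ht => (p5 t (Finset.mem_univ t) c).1 ht,
    fun t ht => (p5 t (Finset.mem_univ t) c).2 ht⟩,
    fun c hc => p6 c fun t _ => ⟨hc.1 t, hc.2 t⟩⟩

/-- The differential of reduced elements of a twisted complex is reduced. -/
theorem Red.dN {N : TC C₀} {i : Fin n → ℕ} {f : N.I → C} (h : ∀ a, E.Red i (f a)) (a : N.I) :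
    E.Red i (E.dN N f a) := by
  rw [dN_apply]
  exact Red.add E (Red.d E (h a)) (Red.sum E _ fun b _ => Red.mul_cst E (Red.par E (h b)) _)

end Env

end Pool.Agent.SPC
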