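import Pool.Agent.SPC.KDef

/-!
# SPC, part K: words of points (definition and statements except the differential)

`E.Dp M p`: the matrix of `M` at the point `p` minus its value at the base point. `E.W M f p m`: the
word `f(p 0) * Dp(p 1) * ... * Dp(p m)` with signs.

MODULE SPC-KWrd. PLAN. All by induction on `m`. `W_L`: `E.L_e`, `E.L_cst`, `SHom.map_par`. `W_base`: if `r = m + 1` the
matrix `Dp` vanishes (`E.e_val`), otherwise induction; `r = 0` uses `h0`. `W_nil`: show
`l ≤ M.rk a + m → W p m a = 0` by induction: `Dp b a = 0` if `M.rk b ≤ M.rk a` (`M.tri`), otherwise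
`l ≤ M.rk b + m`. `W_par`: `IsPar.mul`, `IsPar.sum`, `M.par_D`, `IsPar.apply_parP`, `SHom.isPar`.
-/

noncomputable section

namespace Pool.Agent.SPC

universe u

open SDG Equiv

/-- The points of a word after a face operation. -/
def dlp {X : Type*} (j m : ℕ) (p : ℕ → X ⊕ Bool) : ℕ → X ⊕ Bool := fun r =>
  if j ≤ m then if r ≤ j then p r else p (r - 1) else if r = m + 1 then Sum.inr true else p r

namespace Env

variable {n l : ℕ} {Cs C₀ C : Type u} [Ring Cs] [Algebra ℚ Cs] [SDG Cs] [Ring C₀]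
    [Algebra ℚ C₀] [SDG C₀] [Ring C] [Algebra ℚ C] [SDG C] (E : Env n l Cs C₀ C) (M : TC Cs)
    (f : M.I → Cs)

/-- The matrix at the point `p` minus the matrix at the base point. -/
def Dp (p : Lb n l ⊕ Bool) (a b : M.I) : C := E.e p (M.D a b) - E.cst (E.val false (M.D a b))

/-- Words. -/
def W (p : ℕ → Lb n l ⊕ Bool) : ℕ → M.I → C
  | 0 => fun a => E.e (p 0) (f a)
  | m + 1 => fun a => ∑ b, par (W p m b) * E.Dp M (p (m + 1)) b a

theorem W_zero (p : ℕ → Lb n l ⊕ Bool) (a : M.I) : E.W M f p 0 a = E.e (p 0) (f a) := rfl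

theorem W_succ (p : ℕ → Lb n l ⊕ Bool) (m : ℕ) (a : M.I) :
    E.W M f p (m + 1) a = ∑ b, par (E.W M f p m b) * E.Dp M (p (m + 1)) b a := rfl

theorem W_congr {p p' : ℕ → Lb n l ⊕ Bool} {m : ℕ} (h : ∀ r ≤ m, p r = p' r) :
    E.W M f p m = E.W M f p' m := by
  induction m with
  | zero =>
    funext a
    rw [W_zero, W_zero, h 0 le_rfl]
  | succ m ih =>
    funext a
    rw [W_succ, W_succ, ih fun r hr => h r (by omega), h (m + 1) le_rfl]

theorem W_L (y : Sb n l) (p : ℕ → Lb n l ⊕ Bool) (m : ℕ) (a : M.I) :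
    E.L y (E.W M f p m a) = E.W M f (fun r => Sum.elim y Sum.inr (p r)) m a := by
  induction m generalizing a with
  | zero => rw [W_zero, W_zero, E.L_e]
  | succ m ih =>
    rw [W_succ, W_succ, map_sum]
    refine Finset.sum_congr rfl fun b _ => ?_
    rw [map_mul, SHom.map_par, ih]
    unfold Dp
    rw [map_sub, E.L_e, E.L_cst]

theorem W_base (h0 : ∀ a, E.val false (f a) = 0) {p : ℕ → Lb n l ⊕ Bool} {r m : ℕ} (hr : r ≤ m)
    (hp : p r = Sum.inr false) : E.W M f p m = 0 := by
  induction m with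
  | zero =>
    funext a
    have h1 : r = 0 := by omega
    rw [h1] at hp
    rw [W_zero, hp, E.e_val, h0, map_zero]
    rfl
  | succ m ih =>
    funext a
    rw [W_succ]
    refine Finset.sum_eq_zero fun b _ => ?_
    rcases Nat.lt_or_ge m r with h1 | h1
    · have h2 : r = m + 1 := by omega
      rw [h2] at hp
      have h3 : E.Dp M (p (m + 1)) b a = 0 := by
        unfold Dp
        rw [hp, E.e_val, sub_self]
      rw [h3, mul_zero]
    · rw [ih h1, Pi.zero_apply, map_zero, zero_mul]

theorem W_nil (hr : ∀ a, M.rk a < l) (p : ℕ → Lb n l ⊕ Bool) {m : ℕ} (hm : l ≤ m) :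
    E.W M f p m = 0 := by
  have key : ∀ (m : ℕ) (a : M.I), l ≤ M.rk a + m → E.W M f p m a = 0 := by
    intro m
    induction m with
    | zero =>
      intro a h
      have h1 := hr a
      omega
    | succ m ih =>
      intro a h
      rw [W_succ]
      refine Finset.sum_eq_zero fun b _ => ?_
      rcases Nat.lt_or_ge (M.rk a) (M.rk b) with h1 | h1
      · rw [ih b (by omega), map_zero, zero_mul]
      · have h3 : E.Dp M (p (m + 1)) b a = 0 := by
          unfold Dp
          rw [M.tri b a h1, map_zero, map_zero, map_zero, sub_self]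
        rw [h3, mul_zero]
  funext a
  exact key m a (by omega)

theorem W_par {f : M.I → Cs} (hf : M.Even f) (p : ℕ → Lb n l ⊕ Bool) (m : ℕ) (a : M.I) :
    IsPar (M.odd a ^^ decide (m % 2 = 1)) (E.W M f p m a) := by
  induction m generalizing a with
  | zero =>
    rw [W_zero]
    have h1 := (E.e (p 0)).isPar (hf a)
    have h2 : (M.odd a ^^ decide (0 % 2 = 1)) = M.odd a := by simp
    rw [h2]
    exact h1
  | succ m ih =>
    rw [W_succ]
    refine IsPar.sum _ fun b _ => ?_
    have h1 : IsPar (M.odd b ^^ decide (m % 2 = 1)) (par (E.W M f p m b)) :=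
      (ih b).apply_parP true
    have h2 : IsPar (!(M.odd b ^^ M.odd a)) (E.Dp M (p (m + 1)) b a) := by
      unfold Dp
      rw [sub_eq_add_neg, ← neg_one_smul ℚ]
      exact ((E.e _).isPar (M.par_D b a)).add (((E.cst).isPar ((E.val false).isPar (M.par_D b a))).smul _)
    have h3 := h1.mul h2
    have h4 : ((M.odd b ^^ decide (m % 2 = 1)) ^^ !(M.odd b ^^ M.odd a)) =
        (M.odd a ^^ decide ((m + 1) % 2 = 1)) := by
      rcases Nat.mod_two_eq_zero_or_one m with h5 | h5
      · have h6 : (m + 1) % 2 = 1 := by omega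
        rw [h5, h6]
        cases M.odd b <;> cases M.odd a <;> rfl
      · have h6 : (m + 1) % 2 = 0 := by omega
        rw [h5, h6]
        cases M.odd b <;> cases M.odd a <;> rfl
    rw [h4] at h3
    exact h3

/-- The parity automorphism of words. -/
theorem W_pr {f : M.I → Cs} (hf : M.Even f) (p : ℕ → Lb n l ⊕ Bool) (m : ℕ) :
    ((M.map (E.val true)).map E.cst).pr (E.W M f p m) = ((-1 : ℚ) ^ m) • E.W M f p m := by
  have h0 : ∀ a : M.I, sgn (M.odd a) • par (E.W M f p m a) = ((-1 : ℚ) ^ m) • E.W M f p m a := by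
    intro a
    have h1 : par (E.W M f p m a) = sgn (M.odd a ^^ decide (m % 2 = 1)) • E.W M f p m a :=
      E.W_par M hf p m a
    rw [h1, sgn_xor, smul_smul, ← mul_assoc, sgn_mul_self, one_mul]
    congr 1
    rcases Nat.mod_two_eq_zero_or_one m with h5 | h5
    · rw [h5, (Nat.even_iff.2 h5).neg_one_pow]
      rfl
    · rw [h5, (Nat.odd_iff.2 h5).neg_one_pow]
      rfl
  funext a
  exact h0 a

end Env

end Pool.Agent.SPC
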