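import Pool.Agent.SPC.SV

/-!
# Lifting homomorphisms to absolute integral closures
-/

set_option autoImplicit false

noncomputable section

namespace Pool.Agent.SPC

universe u v w

private theorem lift_gen {B : Type u} {S : Type v} {M : Type w} [CommRing B] [CommRing S]
    [Algebra B S] [Algebra.IsIntegral B S] [Field M] [IsAlgClosed M]
    (hinj : Function.Injective (algebraMap B S)) (f : B →+* M) :
    ∃ g : S →+* M, g.comp (algebraMap B S) = f := by
  obtain ⟨P, hP⟩ : ∃ P : Ideal B, P = RingHom.ker f := ⟨_, rfl⟩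
  have hPp : P.IsPrime := by
    rw [hP]
    exact RingHom.ker_isPrime f
  have hle : Ideal.comap (algebraMap B S) ⊥ ≤ P := by
    intro x hx
    rw [Ideal.mem_comap, Ideal.mem_bot] at hx
    have hx0 : x = 0 := hinj (by rw [hx, map_zero])
    rw [hx0]
    exact P.zero_mem
  obtain ⟨Q, -, hQp, hQ⟩ := Ideal.exists_ideal_over_prime_of_isIntegral P ⊥ hle
  let i : B ⧸ P →+* S ⧸ Q := Ideal.quotientMap Q (algebraMap B S) hQ.ge
  have hi : ∀ b : B, i (Ideal.Quotient.mk P b) = Ideal.Quotient.mk Q (algebraMap B S b) :=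
    fun b => Ideal.quotientMap_mk
  have hiinj : Function.Injective i := Ideal.quotientMap_injective' hQ.le
  let f' : B ⧸ P →+* M := Ideal.Quotient.lift P f (fun a ha => by
    rw [hP] at ha
    exact ha)
  have hf' : Function.Injective f' := by
    rw [injective_iff_map_eq_zero]
    intro x
    obtain ⟨b, rfl⟩ := Ideal.Quotient.mk_surjective x
    intro hb
    rw [Ideal.Quotient.eq_zero_iff_mem, hP]
    exact hb
  let a1 : Algebra (B ⧸ P) (S ⧸ Q) := i.toAlgebra
  let a2 : Algebra (B ⧸ P) M := f'.toAlgebra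
  have t1 : Module.IsTorsionFree (B ⧸ P) (S ⧸ Q) := Module.isTorsionFree_iff_algebraMap_injective.2 hiinj
  have t2 : Module.IsTorsionFree (B ⧸ P) M := Module.isTorsionFree_iff_algebraMap_injective.2 hf'
  have t3 : Algebra.IsIntegral (B ⧸ P) (S ⧸ Q) := ⟨fun y => by
    obtain ⟨x, rfl⟩ := Ideal.Quotient.mk_surjective y
    obtain ⟨p, hp, hx⟩ := Algebra.IsIntegral.isIntegral (R := B) x
    refine ⟨p.map (Ideal.Quotient.mk P), hp.map _, ?_⟩
    rw [Polynomial.eval₂_map]
    have h1 : (algebraMap (B ⧸ P) (S ⧸ Q)).comp (Ideal.Quotient.mk P) =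
        (Ideal.Quotient.mk Q).comp (algebraMap B S) := RingHom.ext fun b => hi b
    rw [h1, ← Polynomial.hom_eval₂, hx, map_zero]⟩
  have g : S ⧸ Q →ₐ[B ⧸ P] M := IsAlgClosed.lift
  refine ⟨(g : S ⧸ Q →+* M).comp (Ideal.Quotient.mk Q), RingHom.ext fun b => ?_⟩
  have h1 : g (algebraMap (B ⧸ P) (S ⧸ Q) (Ideal.Quotient.mk P b)) =
      algebraMap (B ⧸ P) M (Ideal.Quotient.mk P b) := g.commutes _
  exact h1

variable {B : Type u} {B' : Type v} [CommRing B] [IsDomain B] [CommRing B'] [IsDomain B']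

/-- MODULE SPC-Lift -/
theorem exists_lift (χ : B →+* Bp B') : ∃ θ : Bp B →+* Bp B', θ.comp (incl B) = χ := by
  let a0 : Algebra B (Bp B) := (incl B).toAlgebra
  have hint : @Algebra.IsIntegral B (Bp B) _ _ a0 := ⟨fun x => incl_isIntegral B x⟩
  obtain ⟨g, hg⟩ := @lift_gen B (Bp B) (Om B') _ _ a0 hint _ _ (incl_injective B)
    ((bval B').comp χ)
  have hg' : ∀ b, g (incl B b) = bval B' (χ b) := fun b =>
    congrArg (fun h : B →+* Om B' => h b) hg
  have hi : ∀ x : Bp B, IsIntegral B' (g x) := by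
    intro x
    obtain ⟨p, hp, hx⟩ := incl_isIntegral B x
    have h1 : IsIntegral (integralClosure B' (Om B')) (g x) := by
      let χ' : B →+* integralClosure B' (Om B') := χ
      refine ⟨p.map χ', hp.map _, ?_⟩
      rw [Polynomial.eval₂_map]
      have h2 : (algebraMap (integralClosure B' (Om B')) (Om B')).comp χ' = g.comp (incl B) :=
        RingHom.ext fun b => (hg' b).symm
      rw [h2, ← Polynomial.hom_eval₂, hx, map_zero]
    exact isIntegral_trans _ h1
  refine ⟨RingHom.codRestrict g (integralClosure B' (Om B')) hi, RingHom.ext fun b => ?_⟩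
  exact bval_injective B' (hg' b)

/-- A (chosen) extension of a homomorphism to the absolute integral closure. -/
def lift (χ : B →+* Bp B') : Bp B →+* Bp B' := (exists_lift χ).choose

theorem lift_comp (χ : B →+* Bp B') : (lift χ).comp (incl B) = χ :=
  (exists_lift χ).choose_spec

theorem lift_incl (χ : B →+* Bp B') (b : B) : lift χ (incl B b) = χ b :=
  congrArg (fun g : B →+* Bp B' => g b) (lift_comp χ)

/-- The lift of a homomorphism of `R`-algebras. -/
def liftAlg {R : Type w} [CommRing R] [Algebra R B] [Algebra R B'] (χ : B →ₐ[R] Bp B') :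
    Bp B →ₐ[R] Bp B' where
  toRingHom := lift (χ : B →+* Bp B')
  commutes' r := by
    change lift (χ : B →+* Bp B') (incl B (algebraMap R B r)) = _
    rw [lift_incl]
    exact χ.commutes r

theorem liftAlg_incl {R : Type w} [CommRing R] [Algebra R B] [Algebra R B'] (χ : B →ₐ[R] Bp B')
    (b : B) : liftAlg χ (incl B b) = χ b := lift_incl (χ : B →+* Bp B') b

end Pool.Agent.SPC
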