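import Pool.Agent.SPC.Alg
import Pool.Agent.SPC.Eps
import Pool.Agent.SPC.Cont
import Pool.Agent.SPC.Dgf

/-!
# The motivic differential algebra is a functor in the sense of `DGF`
-/

set_option autoImplicit false

noncomputable section

namespace Pool.Agent.SPC

universe u v w

open MvPolynomial SDG

section trace

variable {B B' K' : Type u} [CommRing B] [IsDomain B] [Algebra ℚ B] [CommRing B'] [IsDomain B']
  [Algebra ℚ B'] [Field K'] [IsAlgClosed K'] [Algebra ℚ K']

private theorem exists_emb (j : B' →+* K') (hj : Function.Injective j) :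
    ∃ σ : Om B' →+* K', ∀ b, σ (algebraMap B' (Om B') b) = j b := by
  let j' : FractionRing B' →+* K' := IsFractionRing.lift hj
  let _ : Algebra (FractionRing B') K' := j'.toAlgebra
  let σ : Om B' →ₐ[FractionRing B'] K' := IsAlgClosed.lift
  refine ⟨(σ : Om B' →+* K'), fun b => ?_⟩
  have h1 : algebraMap B' (Om B') b =
      algebraMap (FractionRing B') (Om B') (algebraMap B' (FractionRing B') b) :=
    IsScalarTower.algebraMap_apply B' (FractionRing B') (Om B') b
  have h2 : σ (algebraMap (FractionRing B') (Om B') (algebraMap B' (FractionRing B') b)) =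
      algebraMap (FractionRing B') K' (algebraMap B' (FractionRing B') b) := σ.commutes _
  have h3 : algebraMap (FractionRing B') K' (algebraMap B' (FractionRing B') b) = j b :=
    IsFractionRing.lift_algebraMap hj b
  rw [h1]
  exact h2.trans h3

private theorem exists_preimage {j : B' →+* K'} {σ : Om B' →+* K'}
    (hσ : ∀ b, σ (algebraMap B' (Om B') b) = j b) {y : K'} (hy : j.IsIntegralElem y) :
    ∃ x : Bp B', (σ.comp (bval B')) x = y := by
  obtain ⟨p, hp, hpy⟩ := hy
  have hj : j = σ.comp (algebraMap B' (Om B')) := RingHom.ext fun b => (hσ b).symm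
  have hs : (p.map (algebraMap B' (Om B'))).Splits := IsAlgClosed.splits _
  have hm : (p.map (algebraMap B' (Om B'))).Monic := hp.map _
  have h1 : ((p.map (algebraMap B' (Om B'))).map σ).IsRoot y := by
    rw [Polynomial.map_map, ← hj, Polynomial.IsRoot.def, Polynomial.eval_map]
    exact hpy
  have h2 : ((p.map (algebraMap B' (Om B'))).map σ) =
      (((p.map (algebraMap B' (Om B'))).roots.map σ).map
        fun a => Polynomial.X - Polynomial.C a).prod := by
    conv_lhs => rw [hs.eq_prod_roots_of_monic hm]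
    rw [Polynomial.map_multiset_prod, Multiset.map_map, Multiset.map_map]
    congr 1
    refine Multiset.map_congr rfl fun a _ => ?_
    simp
  rw [h2, Polynomial.IsRoot.def, Polynomial.eval_multiset_prod, Multiset.prod_eq_zero_iff,
    Multiset.mem_map] at h1
  obtain ⟨q, hq, hq0⟩ := h1
  rw [Multiset.mem_map] at hq
  obtain ⟨a, ha, rfl⟩ := hq
  rw [Multiset.mem_map] at ha
  obtain ⟨r, hr, rfl⟩ := ha
  rw [Polynomial.eval_sub, Polynomial.eval_X, Polynomial.eval_C, sub_eq_zero] at hq0
  have hr1 : IsIntegral B' r := by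
    refine ⟨p, hp, ?_⟩
    have h3 := Polynomial.isRoot_of_mem_roots hr
    rw [Polynomial.IsRoot.def, Polynomial.eval_map] at h3
    exact h3
  obtain ⟨x, hx⟩ := exists_bval B' hr1
  exact ⟨x, by rw [RingHom.comp_apply, hx, hq0]⟩

private theorem coeff_sum_smul {R : Type v} [CommRing R] [Algebra ℚ R] {ι : Type} [Fintype ι]
    (c : ι → ℚ) (p : ι → T R) (m : ℕ →₀ ℕ) :
    coeff m (∑ i, c i • p i) = ∑ i, algebraMap ℚ R (c i) * coeff m (p i) := by
  rw [MvPolynomial.coeff_sum]
  refine Finset.sum_congr rfl fun i _ => ?_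
  rw [MvPolynomial.coeff_smul, Algebra.smul_def]

private theorem isTr_of_trace (j : B' →+* K') (hj : Function.Injective j) {ι : Type} [Fintype ι]
    (c : ι → ℚ) (chi : ι → (B →+* K')) (hint : ∀ i b, j.IsIntegralElem (chi i b)) (t : B → B')
    (ht : ∀ b, j (t b) = ∑ i, algebraMap ℚ K' (c i) * chi i b) : IsTr ℚ t := by
  obtain ⟨σ, hσ⟩ := exists_emb j hj
  obtain ⟨τ, hτ⟩ : ∃ τ : Bp B' →+* K', τ = σ.comp (bval B') := ⟨_, rfl⟩
  have hτi : Function.Injective τ := by
    rw [hτ]
    exact σ.injective.comp (bval_injective B')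
  have hex : ∀ i, ∃ g : B →+* Bp B', ∀ b, τ (g b) = chi i b := by
    intro i
    have h1 : ∀ b, ∃ x, τ x = chi i b := by
      intro b
      rw [hτ]
      exact exists_preimage hσ (hint i b)
    choose g hg using h1
    refine ⟨{ toFun := g, map_one' := ?_, map_mul' := ?_, map_zero' := ?_, map_add' := ?_ }, hg⟩
    · apply hτi
      rw [hg, map_one, map_one]
    · intro x y
      apply hτi
      rw [hg, map_mul, map_mul, hg, hg]
    · apply hτi
      rw [hg, map_zero, map_zero]
    · intro x y
      apply hτi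
      rw [hg, map_add, map_add, hg, hg]
  choose g hg using hex
  have h1 : (fun b => incl B' (t b)) = ∑ i, c i • fun b => g i b := by
    funext b
    apply hτi
    rw [Finset.sum_apply, map_sum]
    have h2 : τ (incl B' (t b)) = j (t b) := by
      rw [hτ, RingHom.comp_apply, bval_incl, hσ]
    rw [h2, ht]
    refine Finset.sum_congr rfl fun i _ => ?_
    rw [Pi.smul_apply, Algebra.smul_def, map_mul, hg]
    congr 1
    exact (congrArg (fun g : ℚ →+* K' => g (c i))
      (Subsingleton.elim (τ.comp (algebraMap ℚ (Bp B'))) (algebraMap ℚ K'))).symm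
  change (fun b => incl B' (t b)) ∈ Submodule.span ℚ (homs ℚ B B')
  rw [h1]
  refine Submodule.sum_mem _ fun i _ => Submodule.smul_mem _ _ (Submodule.subset_span ?_)
  exact ⟨(g i).toRatAlgHom, fun b => rfl⟩

/-- The trace form of correspondences. -/
theorem MA.exists_trace (j : B' →+* K') (hj : Function.Injective j) {ι : Type} [Fintype ι]
    (c : ι → ℚ) (chi : ι → (B →+* K')) (hint : ∀ i b, j.IsIntegralElem (chi i b))
    (h : ∀ b, ∃ b', j b' = ∑ i, algebraMap ℚ K' (c i) * chi i b) (a : MA B) :
    ∃ b : MA B', MA.map j b = ∑ i, c i • MA.map (chi i) a := by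
  choose t ht using h
  have hT := isTr_of_trace j hj c chi hint t ht
  refine ⟨MA.act t hT a, MA.ext fun U => GT.ext fun e => ?_⟩
  let L : MA K' →ₗ[ℚ] T K' :=
    { toFun := fun x => (x.comp U).val e
      map_add' := fun x y => rfl
      map_smul' := fun r x => rfl }
  have hL : L (∑ i, c i • MA.map (chi i) a) = ∑ i, c i • L (MA.map (chi i) a) := by
    rw [map_sum]
    exact Finset.sum_congr rfl fun i _ => by rw [map_smul]
  change L (MA.map j (MA.act t hT a)) = L (∑ i, c i • MA.map (chi i) a)
  rw [hL]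
  have h0 : t 0 = 0 := by
    have h1 := hT.map_add 0 0
    rw [add_zero] at h1
    exact left_eq_add.1 h1
  ext m
  change coeff m (tMap j (tExt t ((a.comp U).val e))) = _
  rw [MvPolynomial.coeff_map, coeff_tExt h0, ht]
  refine Eq.trans ?_ (coeff_sum_smul c (fun i => L (MA.map (chi i) a)) m).symm
  refine Finset.sum_congr rfl fun i _ => ?_
  change _ = algebraMap ℚ K' (c i) * coeff m (tMap (chi i) ((a.comp U).val e))
  rw [MvPolynomial.coeff_map]

end trace

section htp

variable {B : Type u} [CommRing B] [IsDomain B] [Algebra ℚ B] {P : Type u} [CommRing P]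
  [IsDomain P] [Algebra ℚ P] (e : P →+* Polynomial B)

/-- The homotopy operator of the line. -/
def MA.line : MA P →ₗ[ℚ] MA B := MA.hot e (isTr_ringHom e)

theorem MA.line_par (x : MA P) : MA.line e (par x) = -par (MA.line e x) :=
  MA.hot_par _ _ x

theorem MA.line_d (x : MA P) : d (MA.line e x) + MA.line e (d x) =
    MA.map ((Polynomial.evalRingHom 0).comp e) x - MA.map ((Polynomial.evalRingHom 1).comp e) x := by
  have h1 := MA.d_hot (e : P → Polynomial B) (isTr_ringHom e) x
  have h2 : ∀ b : B, MA.act (fun s : P => (e s).eval b) (MA.isTr_eval (isTr_ringHom e) b) x =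
      MA.map ((Polynomial.evalRingHom b).comp e) x := fun b => by
    rw [← MA.act_hom]
    rfl
  have h3 := h2 0
  have h4 := h2 1
  rw [← h3, ← h4]
  exact h1

theorem MA.line_mul (c : B →+* P) (hc : ∀ b, e (c b) = Polynomial.C b) (x : MA P) (z : MA B) :
    MA.line e (x * MA.map c z) = MA.line e x * z := by
  have h1 := MA.hot_mul (e : P → Polynomial B) (isTr_ringHom e) c
    (RingHom.id B) (fun x z => by
      rw [map_mul, hc]
      rfl) x z
  rw [MA.map_id] at h1
  exact h1

end htp

/-- The augmentation. -/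
def MA.epsS (B : Type u) [CommRing B] [IsDomain B] [Algebra ℚ B] : SHom (MA B) ℚ where
  toAlgHom := MA.eps B
  map_par' x := MA.eps_par x
  map_d' x := MA.eps_d x

/-- Finite correspondences given by their trace. -/
private theorem trace_aux {B B' K' : Type u} [CommRing B] [IsDomain B] [Algebra ℚ B]
    [CommRing B'] [IsDomain B'] [Algebra ℚ B'] [Field K'] [IsAlgClosed K'] (q : Algebra ℚ K')
    (q' : Algebra ℚ K') (j : B' →+* K') (hj : Function.Injective j) {ι : Type} [Fintype ι]
    (c : ι → ℚ) (chi : ι → (B →+* K')) (h : @IsTrace B B' K' _ _ _ q j ι _ c chi) (a : MA B) :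
    ∃ b : MA B', @MA.map B' _ _ _ K' _ _ q' j b =
      ∑ i, c i • @MA.map B _ _ _ K' _ _ q' (chi i) a := by
  obtain rfl : q = q' := Subsingleton.elim _ _
  refine MA.exists_trace j hj c chi h.1 (fun b => ?_) a
  obtain ⟨b', hb'⟩ := h.2 b
  refine ⟨b', hb'.trans (Finset.sum_congr rfl fun i _ => ?_)⟩
  exact Algebra.smul_def _ _

/-- The motivic differential algebra as a functor on domains which contain the rational
numbers. -/
def mot : DGF.{u} where
  obj B _ _ _ := @MA B _ _ (ratAlgebra B)
  ring B _ _ _ := @instRingMA B _ _ (ratAlgebra B)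
  alg B _ _ _ := @instAlgebraRatMA B _ _ (ratAlgebra B)
  sdg B _ _ _ := @instSDGMA B _ _ (ratAlgebra B)
  map {B B'} _ _ _ _ _ _ f := @MA.map B _ _ (ratAlgebra B) B' _ _ (ratAlgebra B') f
  map_id {B} _ _ _ := SHom.ext fun x => @MA.map_id B _ _ (ratAlgebra B) x
  map_comp {B B' B''} _ _ _ _ _ _ _ _ _ g f := SHom.ext fun x =>
    (@MA.map_map B _ _ (ratAlgebra B) B' _ _ (ratAlgebra B') B'' _ _ (ratAlgebra B'') f g x).symm
  inj {B B'} _ _ _ _ _ _ f hf :=
    @MA.map_injective B _ _ (ratAlgebra B) B' _ _ (ratAlgebra B') f hf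
  cont {Om} _ _ a := by
    obtain ⟨F, hF⟩ := @MA.cont Om _ (ratAlgebra Om) a
    exact ⟨F, fun B _ _ _ j hj hFj => @hF B _ _ (ratAlgebra B) j hj fun c hc => hFj hc⟩
  eps B _ _ _ := @MA.epsS B _ _ (ratAlgebra B)
  eps_map {B B'} _ _ _ _ _ _ f a := @MA.eps_map B _ _ (ratAlgebra B) B' _ _ (ratAlgebra B') f a
  trace {B B' K'} _ _ _ _ _ _ _ _ _ j hj ι _ c chi h a :=
    @trace_aux B B' K' _ _ (ratAlgebra B) _ _ (ratAlgebra B') _ _ _ (ratAlgebra K') j hj ι _ c chi
      h a
  htp B _ _ _ := @MA.line B _ _ (ratAlgebra B) (Polynomial B) _ _ (ratAlgebra (Polynomial B))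
    (RingHom.id (Polynomial B))
  htp_d {B} _ _ _ a := @MA.line_d B _ _ (ratAlgebra B) (Polynomial B) _ _
    (ratAlgebra (Polynomial B)) (RingHom.id (Polynomial B)) a
  htp_par {B} _ _ _ a := @MA.line_par B _ _ (ratAlgebra B) (Polynomial B) _ _
    (ratAlgebra (Polynomial B)) (RingHom.id (Polynomial B)) a
  htp_mul {B} _ _ _ a b := @MA.line_mul B _ _ (ratAlgebra B) (Polynomial B) _ _
    (ratAlgebra (Polynomial B)) (RingHom.id (Polynomial B)) Polynomial.C (fun _ => rfl) a b

end Pool.Agent.SPC
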