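import Pool.Agent.SPC.FamB

/-!
# Natural operators and homotopies on families

MODULES SPC-NatA, SPC-NatB.  `NatOp X Y`: a linear map which commutes with `sub` and `pos`; it acts on
families and commutes with `d` and `par`.  `HomOp X Y`: a natural family of linear maps `h c`, where
`c` is a parameter or `0` or `1`; it gives the odd operator
`(H x) U = ∑_(n : cu n ∈ U) ± (h (inl n) - h (inr true)) (x (U \ n))`, and `d H + H d` is
`h 0 - h 1`.
-/

set_option autoImplicit false

noncomputable section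

namespace Pool.Agent.SPC

universe u v w

variable {X : Type u} [CommRing X] [Algebra ℚ X] [CubeAlg X] {Y : Type v} [CommRing Y]
  [Algebra ℚ Y] [CubeAlg Y] {Z : Type w} [CommRing Z] [Algebra ℚ Z] [CubeAlg Z]

/-- Natural linear maps of cube algebras. -/
structure NatOp (X : Type u) [CommRing X] [Algebra ℚ X] [CubeAlg X] (Y : Type v) [CommRing Y]
    [Algebra ℚ Y] [CubeAlg Y] where
  f : X →ₗ[ℚ] Y
  sub : ∀ v x, CubeAlg.sub v (f x) = f (CubeAlg.sub v x)
  pos : ∀ p x, CubeAlg.pos p (f x) = f (CubeAlg.pos p x)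

/-- Natural one-parameter families of linear maps of cube algebras. -/
structure HomOp (X : Type u) [CommRing X] [Algebra ℚ X] [CubeAlg X] (Y : Type v) [CommRing Y]
    [Algebra ℚ Y] [CubeAlg Y] where
  h : ℕ ⊕ Bool → (X →ₗ[ℚ] Y)
  sub : ∀ v c x, CubeAlg.sub v (h c x) = h (Sum.elim v Sum.inr c) (CubeAlg.sub v x)
  pos : ∀ p c x, CubeAlg.pos p (h c x) = h c (CubeAlg.pos p x)

/-- The value at a constant is a natural operator. -/
def HomOp.at (h : HomOp X Y) (b : Bool) : NatOp X Y where
  f := h.h (Sum.inr b)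
  sub v x := h.sub v (Sum.inr b) x
  pos p x := h.pos p (Sum.inr b) x

/-- The odd operator of a homotopy. -/
def hF (h : HomOp X Y) (x : Ext (ℕ ⊕ₗ ℕ) X) : Ext (ℕ ⊕ₗ ℕ) Y :=
  fun U => ∑ u ∈ U, Sum.elim (fun n => sg {u} (U.erase u) •
    (h.h (Sum.inl n) (x (U.erase u)) - h.h (Sum.inr true) (x (U.erase u)))) (fun _ => 0) (ofLex u)

end Pool.Agent.SPC
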