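import Pool.Agent.SPC.Nat

/-!
# Natural operators act on families
-/

set_option autoImplicit false

noncomputable section

namespace Pool.Agent.SPC

universe u v w

variable {X : Type u} [CommRing X] [Algebra ℚ X] [CubeAlg X] {Y : Type v} [CommRing Y]
  [Algebra ℚ Y] [CubeAlg Y] {Z : Type w} [CommRing Z] [Algebra ℚ Z] [CubeAlg Z]

private theorem nata_re (g : NatOp X Y) (π ρ : Equiv.Perm ℕ) (x : X) :
    reCoef Y π ρ (g.f x) = g.f (reCoef X π ρ x) := by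
  have h1 : reCoef Y π ρ (g.f x) = CubeAlg.sub (fun n => Sum.inl (π n))
      (CubeAlg.pos (fun s => some (ρ.symm s)) (g.f x)) := rfl
  have h2 : reCoef X π ρ x = CubeAlg.sub (fun n => Sum.inl (π n))
      (CubeAlg.pos (fun s => some (ρ.symm s)) x) := rfl
  rw [h1, h2, g.pos, g.sub]

private theorem nata_perm (g : X →ₗ[ℚ] Y) (e : ℕ ⊕ₗ ℕ ≃ ℕ ⊕ₗ ℕ) (x : Ext (ℕ ⊕ₗ ℕ) X) :
    Ext.permF e (Ext.mapL g x) = Ext.mapL g (Ext.permF e x) := by
  funext U
  show _ = g (Ext.permF e x U)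
  unfold Ext.permF
  rw [map_zsmul]
  rfl

private theorem nata_contr (g : X →ₗ[ℚ] Y) (i : ℕ ⊕ₗ ℕ) (x : Ext (ℕ ⊕ₗ ℕ) X)
    (U : Finset (ℕ ⊕ₗ ℕ)) : Ext.contr i (Ext.mapL g x) U = g (Ext.contr i x U) := by
  unfold Ext.contr
  by_cases h : i ∈ U
  · rw [if_pos h, if_pos h, map_zero]
  · rw [if_neg h, if_neg h, map_zsmul]
    rfl

theorem IsFam.nat (g : NatOp X Y) {x : Ext (ℕ ⊕ₗ ℕ) X} (hx : IsFam x) :
    IsFam (Ext.mapL g.f x) where
  bdd := by
    obtain ⟨N, hN⟩ := hx.bdd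
    refine ⟨N, fun U hU => ?_⟩
    rw [Ext.mapL_apply, hN U hU, map_zero]
  cube U n h := by
    rw [Ext.mapL_apply, g.sub, hx.cube U n h]
  face U n h := by
    rw [Ext.mapL_apply, g.sub, hx.face U n h, map_zero]
  posn U s h := by
    rw [Ext.mapL_apply, g.pos, hx.posn U s h]
  kill U s h := by
    rw [Ext.mapL_apply, g.pos, hx.kill U s h, map_zero]
  sym π ρ := by
    have h1 : Ext.mapL (reCoef Y π ρ).toLinearMap (Ext.mapL g.f x) =
        Ext.mapL g.f (Ext.mapL (reCoef X π ρ).toLinearMap x) := by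
      funext U
      exact nata_re g π ρ (x U)
    rw [h1, nata_perm, hx.sym π ρ]

theorem dF_nat (g : NatOp X Y) (x : Ext (ℕ ⊕ₗ ℕ) X) :
    dF (Ext.mapL g.f x) = Ext.mapL g.f (dF x) := by
  funext U
  show CubeAlg.sub (setT (fresh U) false) (Ext.contr (cu (fresh U)) (Ext.mapL g.f x) U) =
    g.f (CubeAlg.sub (setT (fresh U) false) (Ext.contr (cu (fresh U)) x U))
  rw [nata_contr, g.sub]

theorem par_mapL (g : X →ₗ[ℚ] Y) (x : Ext (ℕ ⊕ₗ ℕ) X) :
    Ext.par (Ext.mapL g x) = Ext.mapL g (Ext.par x) := by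
  funext U
  rw [Ext.par_apply, Ext.mapL_apply, Ext.mapL_apply, Ext.par_apply, map_zsmul]

/-- Action of a natural operator on families. -/
def NatOp.fam (g : NatOp X Y) : Fam X →ₗ[ℚ] Fam Y where
  toFun x := ⟨Ext.mapL g.f x.1, IsFam.nat g x.2⟩
  map_add' x y := Subtype.ext (map_add (Ext.mapL g.f) _ _)
  map_smul' c x := Subtype.ext (map_smul (Ext.mapL g.f) _ _)

theorem NatOp.coe_fam (g : NatOp X Y) (x : Fam X) :
    ((g.fam x : Fam Y) : Ext (ℕ ⊕ₗ ℕ) Y) = Ext.mapL g.f x.1 := rfl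

theorem NatOp.fam_d (g : NatOp X Y) (x : Fam X) : g.fam (SDG.d x) = SDG.d (g.fam x) :=
  Subtype.ext (dF_nat g x.1).symm

theorem NatOp.fam_par (g : NatOp X Y) (x : Fam X) :
    g.fam (SDG.par x) = SDG.par (g.fam x) := Subtype.ext (par_mapL g.f x.1).symm

/-- Projection formula: if `g (a * b) = g a * g' b` for all `b` in the image of `j`, then the same
holds on families. -/
theorem NatOp.fam_mul (g : NatOp X Y) (j : NatOp Z X) (j' : NatOp Z Y)
    (h : ∀ x z, g.f (x * j.f z) = g.f x * j'.f z) (x : Fam X) (z : Fam Z) :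
    g.fam (x * j.fam z) = g.fam x * j'.fam z := by
  apply Subtype.ext
  funext U
  show g.f ((x.1 * Ext.mapL j.f z.1) U) = (Ext.mapL g.f x.1 * Ext.mapL j'.f z.1) U
  rw [Ext.mul_apply, Ext.mul_apply, map_sum]
  refine Finset.sum_congr rfl fun V _ => ?_
  rw [map_zsmul]
  exact congrArg _ (h _ _)

theorem NatOp.fam_mul_left (g : NatOp X Y) (j : NatOp Z X) (j' : NatOp Z Y)
    (h : ∀ x z, g.f (j.f z * x) = j'.f z * g.f x) (x : Fam X) (z : Fam Z) :
    g.fam (j.fam z * x) = j'.fam z * g.fam x := by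
  apply Subtype.ext
  funext U
  show g.f ((Ext.mapL j.f z.1 * x.1) U) = (Ext.mapL j'.f z.1 * Ext.mapL g.f x.1) U
  rw [Ext.mul_apply, Ext.mul_apply, map_sum]
  refine Finset.sum_congr rfl fun V _ => ?_
  rw [map_zsmul]
  exact congrArg _ (h _ _)

/-- A natural ring homomorphism is a ring homomorphism on families. -/
def NatOp.famAlg (g : X →ₐ[ℚ] Y) (hs : ∀ v x, CubeAlg.sub v (g x) = g (CubeAlg.sub v x))
    (hp : ∀ p x, CubeAlg.pos p (g x) = g (CubeAlg.pos p x)) : Fam X →ₐ[ℚ] Fam Y :=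
  AlgHom.ofLinearMap (NatOp.fam ⟨g.toLinearMap, hs, hp⟩) (by
    exact Subtype.ext (Ext.mapL_one g)) (by
    exact fun x y => Subtype.ext (Ext.mapL_mul g x.1 y.1))

end Pool.Agent.SPC
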