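import Pool.Agent.SPC.NatA

/-!
# Homotopies act on families

MODULE SPC-NatB.  PLAN.  `IsFam.hom`: `bdd`: clear.  `cube` (`cu m ∉ U`): `sub (setT m false)`
commutes with `h (inl n)`, `n ≠ m`, and with `h (inr true)`.  `face` (`cu m ∈ U`): the terms
`n ≠ m` vanish because `x (U.erase (cu n))` is killed by `t_m = 1`; in the term `n = m`,
`(t_m = 1) h (inl m) y = h (inr true) ((t_m = 1) y)` and `(t_m = 1) y = y` for `y = x (U.erase (cu m))`
(`y = (t_m = 0) y` by `cube`, then `CubeAlg.sub_sub`), so the difference is `0`.  `posn`, `kill`: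
commute.  `sym`: `HomOp.sub` with `v = inl ∘ π` and the signs of `Ext.permF`.
`dF_hF`: with `n = fresh U` (or any new `n`): the term `u = cu n` of `(hF h x) (insert (cu n) U)`
gives, after `t_n = 0`, `(h (inr false) - h (inr true)) (x U)`; the other terms cancel
`(hF h (dF x)) U` (the signs: `sg {n} U * sg {m} ((insert n U).erase m) =
- sg {m} (U.erase m) * sg {n} (U.erase m)`).
-/

set_option autoImplicit false

noncomputable section

namespace Pool.Agent.SPC

universe u v w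

variable {X : Type u} [CommRing X] [Algebra ℚ X] [CubeAlg X] {Y : Type v} [CommRing Y]
  [Algebra ℚ Y] [CubeAlg Y] {Z : Type w} [CommRing Z] [Algebra ℚ Z] [CubeAlg Z]

/-- The operator of the basis vector `u`. -/
private def nbK (h : HomOp X Y) (u : ℕ ⊕ₗ ℕ) : X →ₗ[ℚ] Y :=
  Sum.elim (fun n => h.h (Sum.inl n) - h.h (Sum.inr true)) (fun _ => 0) (ofLex u)

private theorem nbK_cu (h : HomOp X Y) (n : ℕ) (y : X) :
    nbK h (cu n) y = h.h (Sum.inl n) y - h.h (Sum.inr true) y := rfl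

private theorem nbK_po (h : HomOp X Y) (s : ℕ) (y : X) : nbK h (po s) y = 0 := rfl

private theorem nb_cases (u : ℕ ⊕ₗ ℕ) : (∃ n, u = cu n) ∨ ∃ s, u = po s := by
  rcases hu : ofLex u with n | s
  · left
    refine ⟨n, ?_⟩
    rw [cu, ← hu, toLex_ofLex]
  · right
    refine ⟨s, ?_⟩
    rw [po, ← hu, toLex_ofLex]

private theorem nb_hF (h : HomOp X Y) (x : Ext (ℕ ⊕ₗ ℕ) X) (U : Finset (ℕ ⊕ₗ ℕ)) :
    hF h x U = ∑ u ∈ U, sg {u} (U.erase u) • nbK h u (x (U.erase u)) := by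
  unfold hF
  refine Finset.sum_congr rfl fun u _ => ?_
  rcases nb_cases u with ⟨n, rfl⟩ | ⟨s, rfl⟩
  · rfl
  · change (0 : Y) = sg _ _ • (0 : Y)
    rw [smul_zero]

private theorem nb_sub (h : HomOp X Y) (v : ℕ → ℕ ⊕ Bool) (m : ℕ) (y : X) :
    CubeAlg.sub v (nbK h (cu m) y) = h.h (v m) (CubeAlg.sub v y) - h.h (Sum.inr true) (CubeAlg.sub v y) := by
  rw [nbK_cu, map_sub, h.sub, h.sub]
  rfl

private theorem nb_pos (h : HomOp X Y) (p : ℕ → Option ℕ) (u : ℕ ⊕ₗ ℕ) (y : X) :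
    CubeAlg.pos p (nbK h u y) = nbK h u (CubeAlg.pos p y) := by
  rcases nb_cases u with ⟨n, rfl⟩ | ⟨s, rfl⟩
  · rw [nbK_cu, nbK_cu, map_sub, h.pos, h.pos]
  · rw [nbK_po, nbK_po, map_zero]

section gen

variable {I : Type u} [LinearOrder I]

private theorem gen_sq (V W : Finset I) : sg V W * sg V W = 1 := by
  unfold sg
  rw [← mul_pow]
  norm_num

private theorem gen_sq' (e : I ≃ I) (V : Finset I) : sgE e V * sgE e V = 1 := by
  unfold sgE
  rw [← mul_pow]
  norm_num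

private theorem gen_sgE1 (e : I ≃ I) (u : I) : sgE e {u} = 1 := by
  unfold sgE invsE
  have h : (({u} ×ˢ {u} : Finset (I × I)).filter fun q => q.1 < q.2 ∧ e q.2 < e q.1) = ∅ := by
    rw [Finset.filter_eq_empty_iff]
    intro q hq hq'
    rw [Finset.mem_product, Finset.mem_singleton, Finset.mem_singleton] at hq
    have h1 := hq'.1
    rw [hq.1, hq.2] at h1
    exact lt_irrefl _ h1
  rw [h]
  rfl

private theorem gen_sgE (e : I ≃ I) {U : Finset I} {u : I} (hu : u ∈ U) :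
    sgE e U * (sg {u} (U.erase u) * sgE e (U.erase u)) =
      sg {e u} ((U.map e.toEmbedding).erase (e u)) := by
  have h1 := sgE_union e (V := {u}) (W := U.erase u)
    (Finset.disjoint_singleton_left.2 (Finset.notMem_erase _ _))
  rw [gen_sgE1, one_mul, ← Finset.insert_eq, Finset.insert_erase hu] at h1
  have h2 : ({u} : Finset I).map e.toEmbedding = {e u} := by
    rw [Finset.map_singleton]
    rfl
  have h3 : (U.erase u).map e.toEmbedding = (U.map e.toEmbedding).erase (e u) := by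
    rw [Finset.map_erase]
    rfl
  rw [h2, h3] at h1
  calc sgE e U * (sg {u} (U.erase u) * sgE e (U.erase u)) =
      (sgE e U * sg {u} (U.erase u)) * sgE e (U.erase u) := by ring
    _ = sg {e u} ((U.map e.toEmbedding).erase (e u)) * (sgE e (U.erase u) * sgE e (U.erase u)) := by
      rw [h1]
      ring
    _ = _ := by rw [gen_sq', mul_one]

private theorem gen_sg_insert {a b : I} {V : Finset I} (hb : b ∉ V) :
    sg {a} (insert b V) = sg {a} {b} * sg {a} V := by
  unfold sg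
  rw [Finset.insert_eq, invs_union_right {a} (Finset.disjoint_singleton_left.2 hb), pow_add]

private theorem gen_sg_swap {a b : I} (h : a ≠ b) : sg {a} {b} * sg {b} {a} = -1 := by
  unfold sg
  rw [← pow_add, invs_add_invs (Finset.disjoint_singleton.2 h)]
  simp

private theorem gen_sign {a b : I} {V : Finset I} (h : a ≠ b) (ha : a ∉ V) (hb : b ∉ V) :
    sg {a} (insert b V) * sg {b} (insert a V) + sg {b} V * sg {a} V = 0 := by
  rw [gen_sg_insert hb, gen_sg_insert ha]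
  have h1 := gen_sg_swap h
  calc sg {a} {b} * sg {a} V * (sg {b} {a} * sg {b} V) + sg {b} V * sg {a} V =
      (sg {a} {b} * sg {b} {a}) * (sg {a} V * sg {b} V) + sg {b} V * sg {a} V := by ring
    _ = 0 := by rw [h1]; ring

private theorem gen_coc {U V : Finset I} {u : I} (huV : u ∉ V) (hVU : V ⊆ U.erase u) :
    sg (insert u V) ((U.erase u) \ V) * sg {u} V = sg {u} (U.erase u) * sg V ((U.erase u) \ V) := by
  have e4 := sg_cocycle (U := {u}) (V := V) (W := (U.erase u) \ V) (Finset.disjoint_singleton_left.2 huV)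
    (Finset.disjoint_singleton_left.2 fun h' => Finset.notMem_erase u U (Finset.mem_sdiff.1 h').1)
    Finset.disjoint_sdiff
  rwa [Finset.union_sdiff_of_subset hVU, ← Finset.insert_eq] at e4

end gen

private theorem nb_sq (V W : Finset (ℕ ⊕ₗ ℕ)) : sg V W * sg V W = 1 := gen_sq V W

private theorem nb_sq' (e : ℕ ⊕ₗ ℕ ≃ ℕ ⊕ₗ ℕ) (V : Finset (ℕ ⊕ₗ ℕ)) : sgE e V * sgE e V = 1 := gen_sq' e V

private theorem nb_sgE (e : ℕ ⊕ₗ ℕ ≃ ℕ ⊕ₗ ℕ) {U : Finset (ℕ ⊕ₗ ℕ)} {u : ℕ ⊕ₗ ℕ} (hu : u ∈ U) :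
    sgE e U * (sg {u} (U.erase u) * sgE e (U.erase u)) =
      sg {e u} ((U.map e.toEmbedding).erase (e u)) := gen_sgE e hu

private theorem nb_sign {a b : ℕ ⊕ₗ ℕ} {V : Finset (ℕ ⊕ₗ ℕ)} (h : a ≠ b) (ha : a ∉ V) (hb : b ∉ V) :
    sg {a} (insert b V) * sg {b} (insert a V) + sg {b} V * sg {a} V = 0 := gen_sign h ha hb

private theorem nb_coc {U V : Finset (ℕ ⊕ₗ ℕ)} {u : ℕ ⊕ₗ ℕ} (huV : u ∉ V) (hVU : V ⊆ U.erase u) :
    sg (insert u V) ((U.erase u) \ V) * sg {u} V = sg {u} (U.erase u) * sg V ((U.erase u) \ V) :=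
  gen_coc huV hVU

theorem IsFam.hom (h : HomOp X Y) {x : Ext (ℕ ⊕ₗ ℕ) X} (hx : IsFam x) : IsFam (hF h x) where
  bdd := by
    obtain ⟨N, hN⟩ := hx.bdd
    refine ⟨N + 1, fun U hU => ?_⟩
    rw [nb_hF]
    refine Finset.sum_eq_zero fun u hu => ?_
    rw [hN _ (by rw [Finset.card_erase_of_mem hu]; omega), map_zero, smul_zero]
  cube := by
    intro U n hn
    rw [nb_hF, map_sum]
    refine Finset.sum_congr rfl fun u hu => ?_
    rw [map_zsmul]
    congr 1
    rcases nb_cases u with ⟨m, rfl⟩ | ⟨s, rfl⟩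
    · have hmn : m ≠ n := fun e => hn (e ▸ hu)
      rw [nb_sub, hx.cube _ n (fun h' => hn (Finset.mem_of_mem_erase h')), nbK_cu]
      have h1 : setT n false m = Sum.inl m := if_neg hmn
      rw [h1]
    · rw [nbK_po, map_zero]
  face := by
    intro U n hn
    rw [nb_hF, map_sum]
    refine Finset.sum_eq_zero fun u hu => ?_
    rw [map_zsmul]
    rcases nb_cases u with ⟨m, rfl⟩ | ⟨s, rfl⟩
    · rw [nb_sub]
      by_cases hmn : m = n
      · have h1 : setT n true m = Sum.inr true := if_pos hmn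
        rw [h1, sub_self, smul_zero]
      · rw [hx.face _ n (Finset.mem_erase.2 ⟨fun e => hmn (by
          have := congrArg ofLex e
          simpa [cu] using this.symm), hn⟩), map_zero, map_zero, sub_zero, smul_zero]
    · rw [nbK_po, map_zero, smul_zero]
  posn := by
    intro U s hs
    rw [nb_hF, map_sum]
    refine Finset.sum_congr rfl fun u _ => ?_
    rw [map_zsmul, nb_pos, hx.posn _ s (fun h' => hs (Finset.mem_of_mem_erase h'))]
  kill := by
    intro U s hs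
    rw [nb_hF, map_sum]
    refine Finset.sum_eq_zero fun u _ => ?_
    rw [map_zsmul, nb_pos]
    rcases nb_cases u with ⟨m, rfl⟩ | ⟨s', rfl⟩
    · rw [hx.kill _ s (Finset.mem_erase.2 ⟨fun e => by
        have := congrArg ofLex e
        simp [cu, po] at this, hs⟩), map_zero, smul_zero]
    · rw [nbK_po, smul_zero]
  sym := by
    intro π ρ
    funext U
    obtain ⟨U', rfl⟩ : ∃ U', U = Finset.map (reIdx π ρ).toEmbedding U' :=
      ⟨U.map (reIdx π ρ).symm.toEmbedding, by ext a; simp⟩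
    rw [Ext.permF_apply_map, Ext.mapL_apply, nb_hF, nb_hF, Finset.sum_map, map_sum, Finset.smul_sum]
    refine Finset.sum_congr rfl fun u hu => ?_
    have hV : (reCoef X π ρ).toLinearMap (x (U'.erase u)) =
        sgE (reIdx π ρ) (U'.erase u) • x ((U'.map (reIdx π ρ).toEmbedding).erase (reIdx π ρ u)) := by
      have h1 := congrFun (hx.sym π ρ) ((U'.erase u).map (reIdx π ρ).toEmbedding)
      rw [Ext.permF_apply_map, Ext.mapL_apply] at h1
      have h3 : (U'.erase u).map (reIdx π ρ).toEmbedding =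
          (U'.map (reIdx π ρ).toEmbedding).erase (reIdx π ρ u) := by
        rw [Finset.map_erase]
        rfl
      rw [h3] at h1
      rw [← h1, smul_smul, nb_sq', one_smul]
    have hK : (reCoef Y π ρ).toLinearMap (nbK h u (x (U'.erase u))) =
        nbK h (reIdx π ρ u) ((reCoef X π ρ).toLinearMap (x (U'.erase u))) := by
      change CubeAlg.sub (fun n => Sum.inl (π n)) (CubeAlg.pos (fun s => some (ρ.symm s)) (nbK h u (x (U'.erase u)))) =
        nbK h (reIdx π ρ u) (CubeAlg.sub (fun n => Sum.inl (π n)) (CubeAlg.pos (fun s => some (ρ.symm s)) (x (U'.erase u))))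
      rw [nb_pos]
      rcases nb_cases u with ⟨m, rfl⟩ | ⟨s', rfl⟩
      · rw [nb_sub]
        rfl
      · rw [nbK_po, map_zero]
        rfl
    rw [map_zsmul, hK, hV, map_zsmul, smul_smul, smul_smul]
    have h4 := nb_sgE (reIdx π ρ) hu
    rw [← mul_assoc] at h4
    change _ = sg {reIdx π ρ u} ((U'.map (reIdx π ρ).toEmbedding).erase (reIdx π ρ u)) •
      nbK h (reIdx π ρ u) (x ((U'.map (reIdx π ρ).toEmbedding).erase (reIdx π ρ u)))
    rw [← h4]

theorem dF_hF (h : HomOp X Y) {x : Ext (ℕ ⊕ₗ ℕ) X} (hx : IsFam x) :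
    dF (hF h x) + hF h (dF x) =
      Ext.mapL (h.at false).f x - Ext.mapL (h.at true).f x := by
  funext U
  obtain ⟨n, hn⟩ : ∃ n, n = fresh U := ⟨_, rfl⟩
  have hnU : cu n ∉ U := hn ▸ fresh_notMem U
  have e0 : (dF (hF h x) + hF h (dF x)) U = dF (hF h x) U + hF h (dF x) U := rfl
  have e1 : (Ext.mapL (h.at false).f x - Ext.mapL (h.at true).f x) U =
      h.h (Sum.inr false) (x U) - h.h (Sum.inr true) (x U) := rfl
  have e2 : dF (hF h x) U = CubeAlg.sub (setT n false) (sg {cu n} U • hF h x (insert (cu n) U)) := by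
    unfold dF Ext.contr
    rw [← hn, if_neg hnU]
    rfl
  have e3 : hF h x (insert (cu n) U) = sg {cu n} U • nbK h (cu n) (x U) +
      ∑ u ∈ U, sg {u} (insert (cu n) (U.erase u)) • nbK h u (x (insert (cu n) (U.erase u))) := by
    rw [nb_hF, Finset.sum_insert hnU, Finset.erase_insert hnU]
    congr 1
    refine Finset.sum_congr rfl fun u hu => ?_
    have h1 : (insert (cu n) U).erase u = insert (cu n) (U.erase u) :=
      Finset.erase_insert_of_ne (fun e => hnU (e ▸ hu))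
    rw [h1]
  rw [e0, e1, e2, e3, smul_add, smul_smul, nb_sq, one_smul, map_add, nb_sub, hx.cube U n hnU]
  have e4 : setT n false n = Sum.inr false := if_pos rfl
  rw [e4, add_assoc]
  rw [show h.h (Sum.inr false) (x U) - h.h (Sum.inr true) (x U) =
    h.h (Sum.inr false) (x U) - h.h (Sum.inr true) (x U) + 0 from (add_zero _).symm]
  congr 1
  · rw [add_zero]
  rw [nb_hF, Finset.smul_sum, map_sum, ← Finset.sum_add_distrib]
  refine Finset.sum_eq_zero fun u hu => ?_
  rcases nb_cases u with ⟨m, rfl⟩ | ⟨s, rfl⟩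
  · have hmn : m ≠ n := fun e => hnU (e ▸ hu)
    have hne : cu n ≠ cu m := fun e => hnU (e ▸ hu)
    have hnV : cu n ∉ U.erase (cu m) := fun h' => hnU (Finset.mem_of_mem_erase h')
    have e5 : dF x (U.erase (cu m)) = CubeAlg.sub (setT n false)
        (sg {cu n} (U.erase (cu m)) • x (insert (cu n) (U.erase (cu m)))) := by
      rw [dF_eq hx hnV, Ext.contr, if_neg hnV]
      rfl
    have e6 : setT n false m = Sum.inl m := if_neg hmn
    have e7 := nb_sign hne hnV (Finset.notMem_erase (cu m) U)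
    rw [Finset.insert_erase hu] at e7
    rw [e5, smul_smul, map_zsmul, nb_sub, e6, map_zsmul, map_zsmul, smul_smul, ← nbK_cu, ← add_smul, e7, zero_smul]
  · rw [nbK_po, nbK_po, smul_zero, smul_zero, smul_zero, map_zero, add_zero]

theorem hF_par (h : HomOp X Y) (x : Ext (ℕ ⊕ₗ ℕ) X) : hF h (Ext.par x) = -Ext.par (hF h x) := by
  funext U
  rw [Ext.neg_apply, Ext.par_apply, nb_hF, nb_hF, Finset.smul_sum, ← Finset.sum_neg_distrib]
  refine Finset.sum_congr rfl fun u hu => ?_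
  rw [Ext.par_apply, map_zsmul, smul_comm, ← neg_smul]
  congr 1
  have h1 : U.card = (U.erase u).card + 1 := (Finset.card_erase_add_one hu).symm
  rw [h1, pow_succ]
  ring

theorem hF_add (h : HomOp X Y) (x y : Ext (ℕ ⊕ₗ ℕ) X) : hF h (x + y) = hF h x + hF h y := by
  funext U
  rw [Ext.add_apply, nb_hF, nb_hF, nb_hF, ← Finset.sum_add_distrib]
  refine Finset.sum_congr rfl fun u _ => ?_
  rw [Ext.add_apply, map_add, smul_add]

theorem hF_smul (h : HomOp X Y) (c : ℚ) (x : Ext (ℕ ⊕ₗ ℕ) X) : hF h (c • x) = c • hF h x := by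
  funext U
  rw [Ext.smul_apply, nb_hF, nb_hF, Finset.smul_sum]
  refine Finset.sum_congr rfl fun u _ => ?_
  rw [Ext.smul_apply, map_smul, smul_comm]

private theorem nb_mul (h : HomOp X Y) (j : NatOp Z X) (j' : NatOp Z Y)
    (hj : ∀ c x z, h.h c (x * j.f z) = h.h c x * j'.f z) (x : Ext (ℕ ⊕ₗ ℕ) X) (z : Ext (ℕ ⊕ₗ ℕ) Z) :
    hF h (x * Ext.mapL j.f z) = hF h x * Ext.mapL j'.f z := by
  have hK : ∀ (u : ℕ ⊕ₗ ℕ) (a : X) (b : Z), nbK h u (a * j.f b) = nbK h u a * j'.f b := by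
    intro u a b
    rcases nb_cases u with ⟨m, rfl⟩ | ⟨s, rfl⟩
    · rw [nbK_cu, nbK_cu, hj, hj, sub_mul]
    · rw [nbK_po, nbK_po, zero_mul]
  funext U
  rw [nb_hF]
  have e1 : ∀ u ∈ U, sg {u} (U.erase u) • nbK h u ((x * Ext.mapL j.f z) (U.erase u)) =
      ∑ V ∈ (U.erase u).powerset, (sg {u} (U.erase u) * sg V ((U.erase u) \ V)) •
        (nbK h u (x V) * j'.f (z ((U.erase u) \ V))) := by
    intro u _
    rw [Ext.mul_apply, map_sum, Finset.smul_sum]
    refine Finset.sum_congr rfl fun V _ => ?_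
    rw [map_zsmul, smul_smul, Ext.mapL_apply, hK]
    rfl
  have e2 : ∀ V ∈ U.powerset, sg V (U \ V) • (hF h x V * Ext.mapL j'.f z (U \ V)) =
      ∑ u ∈ V, (sg V (U \ V) * sg {u} (V.erase u)) • (nbK h u (x (V.erase u)) * j'.f (z (U \ V))) := by
    intro V _
    rw [nb_hF, Finset.sum_mul, Finset.smul_sum]
    refine Finset.sum_congr rfl fun u _ => ?_
    rw [smul_mul_assoc, smul_smul, Ext.mapL_apply]
  refine (Finset.sum_congr rfl e1).trans ?_
  refine Eq.trans ?_ (Finset.sum_congr rfl e2).symm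
  rw [Finset.sum_sigma', Finset.sum_sigma']
  refine Finset.sum_bij' (fun p _ => (⟨insert p.1 p.2, p.1⟩ : Σ _ : Finset (ℕ ⊕ₗ ℕ), ℕ ⊕ₗ ℕ))
    (fun p _ => (⟨p.2, p.1.erase p.2⟩ : Σ _ : ℕ ⊕ₗ ℕ, Finset (ℕ ⊕ₗ ℕ))) ?_ ?_ ?_ ?_ ?_
  · rintro ⟨u, V⟩ hp
    rw [Finset.mem_sigma, Finset.mem_powerset] at hp
    rw [Finset.mem_sigma, Finset.mem_powerset]
    exact ⟨Finset.insert_subset hp.1 (hp.2.trans (Finset.erase_subset _ _)), Finset.mem_insert_self _ _⟩
  · rintro ⟨V, u⟩ hp
    rw [Finset.mem_sigma, Finset.mem_powerset] at hp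
    rw [Finset.mem_sigma, Finset.mem_powerset]
    exact ⟨hp.1 hp.2, Finset.erase_subset_erase _ hp.1⟩
  · rintro ⟨u, V⟩ hp
    rw [Finset.mem_sigma, Finset.mem_powerset] at hp
    have huV : u ∉ V := fun h' => Finset.notMem_erase u U (hp.2 h')
    change (⟨u, (insert u V).erase u⟩ : Σ _ : ℕ ⊕ₗ ℕ, Finset (ℕ ⊕ₗ ℕ)) = ⟨u, V⟩
    rw [Finset.erase_insert huV]
  · rintro ⟨V, u⟩ hp
    rw [Finset.mem_sigma, Finset.mem_powerset] at hp
    change (⟨insert u (V.erase u), u⟩ : Σ _ : Finset (ℕ ⊕ₗ ℕ), ℕ ⊕ₗ ℕ) = ⟨V, u⟩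
    rw [Finset.insert_erase hp.2]
  · rintro ⟨u, V⟩ hp
    rw [Finset.mem_sigma, Finset.mem_powerset] at hp
    have huU : u ∈ U := hp.1
    have hVU : V ⊆ U.erase u := hp.2
    have huV : u ∉ V := fun h' => Finset.notMem_erase u U (hVU h')
    change (sg {u} (U.erase u) * sg V ((U.erase u) \ V)) • (nbK h u (x V) * j'.f (z ((U.erase u) \ V))) =
      (sg (insert u V) (U \ insert u V) * sg {u} ((insert u V).erase u)) •
        (nbK h u (x ((insert u V).erase u)) * j'.f (z (U \ insert u V)))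
    have e3 : U \ insert u V = (U.erase u) \ V := by
      ext a
      simp only [Finset.mem_sdiff, Finset.mem_insert, Finset.mem_erase]
      tauto
    rw [e3, Finset.erase_insert huV]
    rw [nb_coc huV hVU]

private theorem nb_comm (h : HomOp X Y) (g : NatOp X X) (g' : NatOp Y Y)
    (hg : ∀ c x, h.h c (g.f x) = g'.f (h.h c x)) (x : Ext (ℕ ⊕ₗ ℕ) X) :
    hF h (Ext.mapL g.f x) = Ext.mapL g'.f (hF h x) := by
  funext U
  rw [Ext.mapL_apply, nb_hF, nb_hF, map_sum]
  refine Finset.sum_congr rfl fun u _ => ?_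
  rw [map_zsmul, Ext.mapL_apply]
  congr 1
  rcases nb_cases u with ⟨m, rfl⟩ | ⟨s, rfl⟩
  · rw [nbK_cu, nbK_cu, hg, hg, map_sub]
  · rw [nbK_po, nbK_po, map_zero]

/-- Action of a homotopy on families. -/
def HomOp.fam (h : HomOp X Y) : Fam X →ₗ[ℚ] Fam Y where
  toFun x := ⟨hF h x.1, IsFam.hom h x.2⟩
  map_add' x y := Subtype.ext (hF_add h _ _)
  map_smul' c x := Subtype.ext (hF_smul h _ _)

theorem HomOp.coe_fam (h : HomOp X Y) (x : Fam X) :
    ((h.fam x : Fam Y) : Ext (ℕ ⊕ₗ ℕ) Y) = hF h x.1 := rfl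

theorem HomOp.fam_par (h : HomOp X Y) (x : Fam X) :
    h.fam (SDG.par x) = -SDG.par (h.fam x) := Subtype.ext (hF_par h x.1)

theorem HomOp.d_fam (h : HomOp X Y) (x : Fam X) :
    SDG.d (h.fam x) + h.fam (SDG.d x) = (h.at false).fam x - (h.at true).fam x :=
  Subtype.ext (dF_hF h x.2)

/-- Projection formula for homotopies. -/
theorem HomOp.fam_mul (h : HomOp X Y) (j : NatOp Z X) (j' : NatOp Z Y)
    (hj : ∀ c x z, h.h c (x * j.f z) = h.h c x * j'.f z) (x : Fam X) (z : Fam Z) :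
    h.fam (x * j.fam z) = h.fam x * j'.fam z :=
  Subtype.ext (nb_mul h j j' hj x.1 z.1)

/-- Naturality in `X` and `Y`. -/
theorem HomOp.fam_comm (h : HomOp X Y) (g : NatOp X X) (g' : NatOp Y Y)
    (hg : ∀ c x, h.h c (g.f x) = g'.f (h.h c x)) (x : Fam X) :
    h.fam (g.fam x) = g'.fam (h.fam x) :=
  Subtype.ext (nb_comm h g g' hg x.1)

end Pool.Agent.SPC
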