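import Pool.Agent.SPC.PZero

/-!
# The ideals of the two symmetrisers are comaximal

MODULE SPC-PUnit: a functional which vanishes on both ideals is zero.
-/

noncomputable section

namespace Pool.Agent.SPC

open Equiv

private theorem push_pe {X Y : Type} (f : X ↪ Y) (ρ : Perm X) : push f (pe ρ) = pe (via f ρ) := by
  unfold push pe
  simp [MonoidAlgebra.of_apply, MonoidAlgebra.mapDomainAlgHom_apply]

private theorem pe_mul {X : Type} (σ τ : Perm X) : (pe σ * pe τ : QS X) = pe (σ * τ) := by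
  unfold pe
  rw [map_mul]

private theorem rel_of {a m : ℕ} (e : Bool) (φ : QS (Fin m) →ₗ[ℚ] ℚ) (h : ∀ x ∈ J e a (Fin m), φ x = 0) :
    Rel e a (fun σ => φ (pe σ)) := by
  intro σ f
  have h1 : pe σ * push f (symm e a) = ∑ ρ : Perm (Fin a), chr e ρ • pe (σ * via f ρ) := by
    unfold symm
    rw [map_sum, Finset.mul_sum]
    apply Finset.sum_congr rfl
    intro ρ _
    rw [map_smul, push_pe, mul_smul_comm, pe_mul]
  have h2 := h _ (Submodule.subset_span ⟨σ, f, rfl⟩)
  rw [h1, map_sum] at h2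
  rw [← h2]
  apply Finset.sum_congr rfl
  intro ρ _
  rw [map_smul, smul_eq_mul]

theorem sup_J (a : ℕ) (ha : 1 ≤ a) {m : ℕ} (hm : (a - 1) * (a - 1) < m) :
    J true a (Fin m) ⊔ J false a (Fin m) = ⊤ := by
  by_contra h
  obtain ⟨φ, hφ0, hφ⟩ := Submodule.exists_le_ker_of_lt_top _ (lt_top_iff_ne_top.2 h)
  have hA := rel_of (a := a) true φ (fun x hx => hφ (Submodule.mem_sup_left hx))
  have hS := rel_of (a := a) false φ (fun x hx => hφ (Submodule.mem_sup_right hx))
  have h0 := eq_zero_of_rel a ha hm (fun σ => φ (pe σ)) hA hS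
  apply hφ0
  ext σ
  exact h0 σ

end Pool.Agent.SPC
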