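import Pool.Agent.SPC.PBlkA
import Pool.Agent.SPC.PUnit

/-!
# Symmetrisers of blocks: the induction step

MODULE SPC-PBlk: the symmetriser of `m` blocks absorbs a permutation of the first slice into the other slices.
-/

noncomputable section

namespace Pool.Agent.SPC

open Equiv

private theorem pc_mul {m i : ℕ} (σ τ : Perm (Fin m)) :
    (Equiv.prodCongr σ (Equiv.refl (Fin i)) : Perm (Fin m × Fin i)) *
      Equiv.prodCongr τ (Equiv.refl (Fin i)) = Equiv.prodCongr (σ * τ) (Equiv.refl (Fin i)) := by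
  refine Equiv.ext ?_
  rintro ⟨a, b⟩
  rfl

private theorem via_pc {m m' i : ℕ} (ι : Fin m ↪ Fin m') (ρ : Perm (Fin m)) :
    via (Function.Embedding.prodMap ι (Function.Embedding.refl (Fin i)))
      (Equiv.prodCongr ρ (Equiv.refl (Fin i))) =
      Equiv.prodCongr (via ι ρ) (Equiv.refl (Fin i)) := by
  refine Equiv.ext ?_
  rintro ⟨a, b⟩
  by_cases ha : a ∈ Set.range ι
  · obtain ⟨k, rfl⟩ := ha
    have h1 := via_apply (Function.Embedding.prodMap ι (Function.Embedding.refl (Fin i)))
      (Equiv.prodCongr ρ (Equiv.refl (Fin i))) (k, b)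
    have h2 := via_apply ι ρ k
    refine h1.trans ?_
    show (ι (ρ k), b) = (via ι ρ (ι k), b)
    rw [h2]
  · rw [via_apply_of_notMem]
    · show (a, b) = (via ι ρ a, b)
      rw [via_apply_of_notMem ι ρ a ha]
    · rintro ⟨⟨k, j⟩, hk⟩
      exact ha ⟨k, (Prod.mk.inj hk).1⟩

/-- The first slice. -/
private def sl0 (m i : ℕ) : Fin m ↪ Fin m × Fin (i + 1) :=
  ⟨fun k => (k, 0), fun _ _ hk => (Prod.mk.inj hk).1⟩

/-- The other slices. -/
private def sl1 (m i : ℕ) : Fin m × Fin i ↪ Fin m × Fin (i + 1) :=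
  Function.Embedding.prodMap (Function.Embedding.refl (Fin m)) (Fin.succEmb i)

/-- The action on the other slices. -/
private def ph (m i : ℕ) (π : Perm (Fin m)) : Perm (Fin m × Fin (i + 1)) :=
  via (sl1 m i) (Equiv.prodCongr π (Equiv.refl (Fin i)))

private theorem ph_mul (m i : ℕ) (π τ : Perm (Fin m)) : ph m i (π * τ) = ph m i π * ph m i τ := by
  unfold ph
  rw [← pc_mul, map_mul]

private theorem ph_one (m i : ℕ) : ph m i 1 = 1 := by
  unfold ph
  have h : (Equiv.prodCongr (1 : Perm (Fin m)) (Equiv.refl (Fin i)) : Perm (Fin m × Fin i)) = 1 := by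
    refine Equiv.ext ?_
    rintro ⟨a, b⟩
    rfl
  rw [h, map_one]

private theorem split (m i : ℕ) (π : Perm (Fin m)) :
    via (sl0 m i) π * ph m i π = Equiv.prodCongr π (Equiv.refl (Fin (i + 1))) := by
  refine Equiv.ext ?_
  rintro ⟨a, b⟩
  rw [Perm.mul_apply]
  refine Fin.cases ?_ (fun j => ?_) b
  · have h1 : ph m i π (a, 0) = (a, 0) := by
      unfold ph
      apply via_apply_of_notMem
      rintro ⟨⟨k, l⟩, hk⟩
      exact Fin.succ_ne_zero l (Prod.mk.inj hk).2
    rw [h1]
    exact via_apply (sl0 m i) π a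
  · have h1 : ph m i π (a, j.succ) = (π a, j.succ) :=
      via_apply (sl1 m i) (Equiv.prodCongr π (Equiv.refl (Fin i))) (a, j)
    rw [h1]
    refine via_apply_of_notMem (sl0 m i) π (π a, j.succ) ?_
    rintro ⟨k, hk⟩
    exact Fin.succ_ne_zero j (Prod.mk.inj hk).2.symm

private theorem blk_via (e : Bool) (m i : ℕ) (π : Perm (Fin m)) :
    blk e m (i + 1) * pe (via (sl0 m i) π) = chr e π • (blk e m (i + 1) * pe (ph m i π⁻¹)) := by
  have h1 : via (sl0 m i) π =
      Equiv.prodCongr π (Equiv.refl (Fin (i + 1))) * ph m i π⁻¹ := by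
    rw [← split, mul_assoc, ← ph_mul, mul_inv_cancel, ph_one, mul_one]
  rw [h1, pe_mul, ← mul_assoc, blk_mul, smul_mul_assoc]

private theorem gen_mem {e : Bool} {n a m i : ℕ}
    (h : blk (!e) a i ∈ J false n (Fin a × Fin i)) (σ : Perm (Fin m)) (f : Fin a ↪ Fin m) :
    blk e m (i + 1) * push (sl0 m i) (pe σ * push f (symm true a)) ∈
      J false n (Fin m × Fin (i + 1)) := by
  have h1 : blk e m (i + 1) * push (sl0 m i) (pe σ * push f (symm true a)) =
      chr e σ • (blk e m (i + 1) * push ((Function.Embedding.prodMap f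
        (Function.Embedding.refl (Fin i))).trans (sl1 m i)) (blk (!e) a i) *
          pe (ph m i σ⁻¹)) := by
    have h2 : push ((Function.Embedding.prodMap f
        (Function.Embedding.refl (Fin i))).trans (sl1 m i)) (blk (!e) a i) =
        ∑ ρ : Perm (Fin a), chr (!e) ρ • pe (ph m i (via f ρ)⁻¹) := by
      unfold blk
      rw [map_sum]
      refine Fintype.sum_equiv (Equiv.inv (Perm (Fin a))) _ _ fun ρ => ?_
      rw [Equiv.inv_apply, map_smul, push_pe, chr_inv, map_inv, inv_inv, ← via_via, via_pc]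
      rfl
    rw [h2, map_mul, push_pe]
    unfold symm
    rw [map_sum, map_sum, Finset.mul_sum, Finset.mul_sum, Finset.mul_sum, Finset.sum_mul,
      Finset.smul_sum]
    refine Finset.sum_congr rfl fun ρ _ => ?_
    rw [map_smul, map_smul, push_pe, push_pe, mul_smul_comm, mul_smul_comm, ← pe_mul, ← map_mul,
      blk_via, mul_inv_rev, ph_mul, pe_mul, mul_smul_comm, smul_mul_assoc, smul_smul, smul_smul,
      chr_mul, chr_via, ← mul_assoc (blk e m (i + 1)), ← chr_not]
    congr 1
    ring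
  rw [h1]
  exact Submodule.smul_mem _ _ (mem_J_mul (mul_mem_J _ (push_J _ h)) _)

theorem blk_succ {e : Bool} {n a m i : ℕ} (ha : 1 ≤ a) (hn : n ≤ a) (hm : (a - 1) * (a - 1) < m)
    (h : blk (!e) a i ∈ J false n (Fin a × Fin i)) : blk e m (i + 1) ∈ J false n (Fin m × Fin (i + 1)) := by
  have h1 : (1 : QS (Fin m)) ∈ J true a (Fin m) ⊔ J false a (Fin m) := by
    rw [sup_J a ha hm]
    exact Submodule.mem_top
  obtain ⟨u, hu, v, hv, huv⟩ := Submodule.mem_sup.1 h1
  have h2 : blk e m (i + 1) = blk e m (i + 1) * push (sl0 m i) u +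
      blk e m (i + 1) * push (sl0 m i) v := by
    rw [← mul_add, ← map_add, huv, map_one, mul_one]
  rw [h2]
  refine Submodule.add_mem _ ?_ (mul_mem_J _ (J_mono hn (push_J _ hv)))
  refine Submodule.span_induction
    (p := fun x _ => blk e m (i + 1) * push (sl0 m i) x ∈ J false n (Fin m × Fin (i + 1)))
    ?_ ?_ ?_ ?_ hu
  · rintro _ ⟨σ, f, rfl⟩
    exact gen_mem h σ f
  · rw [map_zero, mul_zero]
    exact Submodule.zero_mem _
  · intro x y _ _ hx hy
    rw [map_add, mul_add]
    exact Submodule.add_mem _ hx hy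
  · intro c x _ hx
    rw [map_smul, mul_smul_comm]
    exact Submodule.smul_mem _ _ hx

end Pool.Agent.SPC
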