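import Pool.Agent.SPC.PJ

/-!
# Symmetrisers of blocks: blocks of size one, more blocks

MODULE SPC-PBlkA. PLAN. `blk_mul`: reindex the sum with `Equiv.mulRight`, `chr_mul`, `chr_inv`. `blk_one`: for `f : Fin n ↪ Fin n × Fin 1`, `k ↦ (k, 0)`, `via f τ = prodCongr τ (refl)`, so `blk e n 1 = push f (symm e n)`.
`blk_mono`: let `ι = Fin.castLEEmb h` and `ι' : Fin m × Fin i ↪ Fin m' × Fin i` be the inclusions. `via ι' (prodCongr ρ refl) = prodCongr (via ι ρ) refl`, so
`push ι' (blk e m i) = ∑ ρ, chr e ρ • pe (prodCongr (via ι ρ) refl)` and `(m ! : ℚ) • blk e m' i = blk e m' i * push ι' (blk e m i)` (`blk_mul`, `chr_via`, `chr_mul_self`); `push_J`, `mul_mem_J`; divide by `m !`.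
-/

noncomputable section

namespace Pool.Agent.SPC

open Equiv

private theorem pc_mul {m i : ℕ} (σ τ : Perm (Fin m)) :
    (Equiv.prodCongr σ (Equiv.refl (Fin i)) : Perm (Fin m × Fin i)) *
      Equiv.prodCongr τ (Equiv.refl (Fin i)) = Equiv.prodCongr (σ * τ) (Equiv.refl (Fin i)) := by
  refine Equiv.ext ?_
  rintro ⟨a, b⟩
  rfl

theorem blk_mul (e : Bool) (m i : ℕ) (π : Perm (Fin m)) :
    blk e m i * pe (Equiv.prodCongr π (Equiv.refl (Fin i))) = chr e π • blk e m i := by
  unfold blk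
  rw [Finset.sum_mul, Finset.smul_sum]
  refine Fintype.sum_equiv (Equiv.mulRight π) _ _ fun τ => ?_
  rw [Equiv.coe_mulRight, smul_mul_assoc, ← pe_mul, pc_mul, smul_smul, chr_mul, mul_comm (chr e τ),
    ← mul_assoc, chr_mul_self, one_mul]

theorem blk_one (e : Bool) (n : ℕ) : blk e n 1 ∈ J e n (Fin n × Fin 1) := by
  have h : blk e n 1 = push ⟨fun k : Fin n => (k, (0 : Fin 1)),
      fun _ _ hk => (Prod.mk.inj hk).1⟩ (symm e n) := by
    unfold blk symm
    rw [map_sum]
    refine Finset.sum_congr rfl fun τ _ => ?_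
    rw [map_smul, push_pe]
    congr 2
    refine Equiv.ext ?_
    rintro ⟨a, b⟩
    obtain rfl : b = 0 := Subsingleton.elim _ _
    exact (via_apply (⟨fun k : Fin n => (k, (0 : Fin 1)),
      fun _ _ hk => (Prod.mk.inj hk).1⟩ : Fin n ↪ Fin n × Fin 1) τ a).symm
  rw [h]
  exact push_symm_mem_J _ _ _

private theorem via_pc {m m' i : ℕ} (ι : Fin m ↪ Fin m') (ρ : Perm (Fin m)) :
    via (Function.Embedding.prodMap ι (Function.Embedding.refl (Fin i)))
      (Equiv.prodCongr ρ (Equiv.refl (Fin i))) =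
      Equiv.prodCongr (via ι ρ) (Equiv.refl (Fin i)) := by
  refine Equiv.ext ?_
  rintro ⟨a, b⟩
  by_cases ha : a ∈ Set.range ι
  · obtain ⟨k, rfl⟩ := ha
    have h1 := via_apply (Function.Embedding.prodMap ι (Function.Embedding.refl (Fin i)))
      (Equiv.prodCongr ρ (Equiv.refl (Fin i))) (k, b)
    have h2 := via_apply ι ρ k
    refine h1.trans ?_
    show (ι (ρ k), b) = (via ι ρ (ι k), b)
    rw [h2]
  · rw [via_apply_of_notMem]
    · show (a, b) = (via ι ρ a, b)
      rw [via_apply_of_notMem ι ρ a ha]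
    · rintro ⟨⟨k, j⟩, hk⟩
      exact ha ⟨k, (Prod.mk.inj hk).1⟩

theorem blk_mono {e e' : Bool} {n m m' i : ℕ} (h : m ≤ m') (hm : blk e m i ∈ J e' n (Fin m × Fin i)) :
    blk e m' i ∈ J e' n (Fin m' × Fin i) := by
  have e1 : blk e m' i * push (Function.Embedding.prodMap (Fin.castLEEmb h)
      (Function.Embedding.refl (Fin i))) (blk e m i) = (m.factorial : ℚ) • blk e m' i := by
    have e2 : push (Function.Embedding.prodMap (Fin.castLEEmb h)
        (Function.Embedding.refl (Fin i))) (blk e m i) =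
        ∑ ρ : Perm (Fin m), chr e ρ • pe (Equiv.prodCongr (via (Fin.castLEEmb h) ρ)
          (Equiv.refl (Fin i))) := by
      conv_lhs => rw [blk]
      rw [map_sum]
      refine Finset.sum_congr rfl fun ρ _ => ?_
      rw [map_smul, push_pe, via_pc]
    rw [e2, Finset.mul_sum]
    have e3 : ∀ ρ ∈ (Finset.univ : Finset (Perm (Fin m))),
        blk e m' i * (chr e ρ • pe (Equiv.prodCongr (via (Fin.castLEEmb h) ρ)
          (Equiv.refl (Fin i)))) = blk e m' i := by
      intro ρ _
      rw [mul_smul_comm, blk_mul, chr_via, smul_smul, chr_mul_self, one_smul]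
    rw [Finset.sum_congr rfl e3, Finset.sum_const, Finset.card_univ, Fintype.card_perm,
      Fintype.card_fin, ← Nat.cast_smul_eq_nsmul ℚ]
  have hf : (m.factorial : ℚ) ≠ 0 := by exact_mod_cast m.factorial_ne_zero
  have e4 : blk e m' i = (m.factorial : ℚ)⁻¹ • (blk e m' i * push (Function.Embedding.prodMap
      (Fin.castLEEmb h) (Function.Embedding.refl (Fin i))) (blk e m i)) := by
    rw [e1, smul_smul, inv_mul_cancel₀ hf, one_smul]
  rw [e4]
  exact Submodule.smul_mem _ _ (mul_mem_J _ (push_J _ hm))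

end Pool.Agent.SPC
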