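import Pool.Agent.SPC.PVia

/-!
# Formal properties of the ideals `J e n X`

MODULE SPC-PJ. PLAN. `push f y * pe τ = pe τ * push (f.trans τ⁻¹.toEmbedding) y` (`via_conj`; linear in `y`): so `J` is a two-sided ideal
(`mul_mem_J`, `mem_J_mul`: linear in the other factor, reduce to permutations, which span (`MonoidAlgebra.induction_on`), then `Submodule.span_induction`). `push_J`: `push g (pe σ * push f y) = pe (via g σ) * push (f.trans g) y`
(`via_via`). `J_mono`: it suffices that `symm e n' ∈ J e n (Fin n')` and `push_J`, `mul_mem_J`. With `ι = Fin.castLEEmb h`: `(n ! : ℚ) • symm e n' = symm e n' * push ι (symm e n)` because `symm e n' * pe π = chr e π • symm e n'` (reindex with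
`Equiv.mulRight`), `chr e (via ι ρ) = chr e ρ` (`chr_via`) and `chr_mul_self`; divide by `n !`; `push ι (symm e n) = pe 1 * push ι (symm e n) ∈ J`.
-/

noncomputable section

namespace Pool.Agent.SPC

open Equiv

variable {X Y : Type}

theorem mul_mem_J {e : Bool} {n : ℕ} (u : QS X) {x : QS X} (hx : x ∈ J e n X) : u * x ∈ J e n X := by
  induction u using MonoidAlgebra.induction_on with
  | of g =>
    show pe g * x ∈ J e n X
    refine Submodule.span_induction (p := fun x _ => pe g * x ∈ J e n X) ?_ ?_ ?_ ?_ hx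
    · rintro _ ⟨σ, f, rfl⟩
      exact Submodule.subset_span ⟨g * σ, f, by rw [pe_mul, mul_assoc]⟩
    · rw [mul_zero]
      exact Submodule.zero_mem _
    · intro a b _ _ ha hb
      rw [mul_add]
      exact Submodule.add_mem _ ha hb
    · intro r a _ ha
      rw [mul_smul_comm]
      exact Submodule.smul_mem _ _ ha
  | add a b ha hb =>
    rw [add_mul]
    exact Submodule.add_mem _ ha hb
  | smul r a ha =>
    rw [smul_mul_assoc]
    exact Submodule.smul_mem _ _ ha

private theorem pj_conj (f : Y ↪ X) (τ : Perm X) (y : QS Y) :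
    push f y * pe τ = pe τ * push (f.trans (τ⁻¹ : Perm X).toEmbedding) y := by
  induction y using MonoidAlgebra.induction_on with
  | of ρ =>
    show push f (pe ρ) * pe τ = pe τ * push (f.trans (τ⁻¹ : Perm X).toEmbedding) (pe ρ)
    rw [push_pe, push_pe, ← pe_mul, ← pe_mul, via_conj]
    congr 1
    group
  | add a b ha hb => rw [map_add, map_add, add_mul, mul_add, ha, hb]
  | smul r a ha => rw [map_smul, map_smul, smul_mul_assoc, mul_smul_comm, ha]

private theorem pj_push_push {Z : Type} (g : Y ↪ Z) (f : X ↪ Y) (y : QS X) :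
    push g (push f y) = push (f.trans g) y := by
  induction y using MonoidAlgebra.induction_on with
  | of ρ =>
    show push g (push f (pe ρ)) = push (f.trans g) (pe ρ)
    rw [push_pe, push_pe, push_pe, via_via]
  | add a b ha hb => rw [map_add, map_add, map_add, ha, hb]
  | smul r a ha => rw [map_smul, map_smul, map_smul, ha]

theorem mem_J_mul {e : Bool} {n : ℕ} {x : QS X} (hx : x ∈ J e n X) (u : QS X) : x * u ∈ J e n X := by
  induction u using MonoidAlgebra.induction_on with
  | of g =>
    show x * pe g ∈ J e n X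
    refine Submodule.span_induction (p := fun x _ => x * pe g ∈ J e n X) ?_ ?_ ?_ ?_ hx
    · rintro _ ⟨σ, f, rfl⟩
      refine Submodule.subset_span ⟨σ * g, f.trans (g⁻¹ : Perm X).toEmbedding, ?_⟩
      rw [mul_assoc, pj_conj, pe_mul, mul_assoc]
    · rw [zero_mul]
      exact Submodule.zero_mem _
    · intro a b _ _ ha hb
      rw [add_mul]
      exact Submodule.add_mem _ ha hb
    · intro r a _ ha
      rw [smul_mul_assoc]
      exact Submodule.smul_mem _ _ ha
  | add a b ha hb =>
    rw [mul_add]
    exact Submodule.add_mem _ ha hb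
  | smul r a ha =>
    rw [mul_smul_comm]
    exact Submodule.smul_mem _ _ ha

theorem push_symm_mem_J (e : Bool) (n : ℕ) (f : Fin n ↪ X) : push f (symm e n) ∈ J e n X := by
  refine Submodule.subset_span ⟨1, f, ?_⟩
  rw [pe_one, one_mul]

theorem push_J {e : Bool} {n : ℕ} (g : X ↪ Y) {x : QS X} (hx : x ∈ J e n X) : push g x ∈ J e n Y := by
  refine Submodule.span_induction (p := fun x _ => push g x ∈ J e n Y) ?_ ?_ ?_ ?_ hx
  · rintro _ ⟨σ, f, rfl⟩
    refine Submodule.subset_span ⟨via g σ, f.trans g, ?_⟩
    rw [map_mul, push_pe, pj_push_push]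
  · rw [map_zero]
    exact Submodule.zero_mem _
  · intro a b _ _ ha hb
    rw [map_add]
    exact Submodule.add_mem _ ha hb
  · intro r a _ ha
    rw [map_smul]
    exact Submodule.smul_mem _ _ ha

private theorem pj_symm_mul (e : Bool) (n : ℕ) (π : Perm (Fin n)) :
    symm e n * pe π = chr e π • symm e n := by
  rw [symm, Finset.sum_mul, Finset.smul_sum]
  refine Fintype.sum_equiv (Equiv.mulRight π) _ _ fun ρ => ?_
  rw [Equiv.coe_mulRight, smul_mul_assoc, ← pe_mul, smul_smul, chr_mul]
  congr 1
  have h := chr_mul_self e π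
  calc chr e ρ = chr e ρ * (chr e π * chr e π) := by rw [h, mul_one]
    _ = chr e π * (chr e ρ * chr e π) := by ring

private theorem pj_symm_push (e : Bool) {n n' : ℕ} (h : n ≤ n') :
    symm e n' * push (Fin.castLEEmb h) (symm e n) = (n.factorial : ℚ) • symm e n' := by
  have h1 : push (Fin.castLEEmb h) (symm e n) =
      ∑ ρ : Perm (Fin n), chr e ρ • pe (via (Fin.castLEEmb h) ρ) := by
    rw [symm, map_sum]
    refine Finset.sum_congr rfl fun ρ _ => ?_
    rw [map_smul, push_pe]
  rw [h1, Finset.mul_sum]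
  have h2 : ∀ ρ ∈ (Finset.univ : Finset (Perm (Fin n))),
      symm e n' * chr e ρ • pe (via (Fin.castLEEmb h) ρ) = symm e n' := by
    intro ρ _
    rw [mul_smul_comm, pj_symm_mul, chr_via, smul_smul, chr_mul_self, one_smul]
  rw [Finset.sum_congr rfl h2, Finset.sum_const, Finset.card_univ, Fintype.card_perm,
    Fintype.card_fin]
  exact (Nat.cast_smul_eq_nsmul ℚ _ _).symm

theorem J_mono {e : Bool} {n n' : ℕ} (h : n ≤ n') : J e n' X ≤ J e n X := by
  have h0 : symm e n' ∈ J e n (Fin n') := by
    have h1 : symm e n' * push (Fin.castLEEmb h) (symm e n) ∈ J e n (Fin n') :=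
      mul_mem_J _ (push_symm_mem_J e n _)
    rw [pj_symm_push] at h1
    have h2 := Submodule.smul_mem _ ((n.factorial : ℚ)⁻¹) h1
    rwa [smul_smul, inv_mul_cancel₀ (by exact_mod_cast n.factorial_ne_zero), one_smul] at h2
  refine Submodule.span_le.2 ?_
  rintro _ ⟨σ, f, rfl⟩
  exact mul_mem_J _ (push_J f h0)

end Pool.Agent.SPC
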