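import Pool.Agent.SPC.PDefs

/-!
# Labels of good permutations

The label of a position is the maximal length of a decreasing subsequence ending there.
-/

noncomputable section

namespace Pool.Agent.SPC

open Equiv

/-- there is a decreasing subsequence of length `k + 1` ending at the position `i` -/
private def LabP {m : ℕ} (σ : Perm (Fin m)) (i : Fin m) (k : ℕ) : Prop :=
  ∃ p : Fin (k + 1) → Fin m, StrictMono p ∧ (∀ a b, a < b → σ (p b) < σ (p a)) ∧ p (Fin.last k) = i

private theorem labP_zero {m : ℕ} (σ : Perm (Fin m)) (i : Fin m) : LabP σ i 0 := by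
  refine ⟨fun _ => i, ?_, ?_, rfl⟩
  · intro a b hab
    have h1 := a.2
    have h2 := b.2
    have h3 : (a : ℕ) < b := hab
    omega
  · intro a b hab
    have h1 := a.2
    have h2 := b.2
    have h3 : (a : ℕ) < b := hab
    omega

private theorem labP_succ {m : ℕ} {σ : Perm (Fin m)} {i j : Fin m} {k : ℕ} (h : LabP σ i k)
    (hij : i < j) (hσ : σ j < σ i) : LabP σ j (k + 1) := by
  obtain ⟨p, hp, hd, hl⟩ := h
  obtain ⟨q, hq⟩ : ∃ q : Fin (k + 1 + 1) → Fin m, q = Fin.snoc (α := fun _ => Fin m) p j :=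
    ⟨_, rfl⟩
  have q1 : ∀ a : Fin (k + 1), q a.castSucc = p a := fun a => by
    rw [hq]
    exact Fin.snoc_castSucc (α := fun _ => Fin m) j p a
  have q2 : q (Fin.last (k + 1)) = j := by
    rw [hq]
    exact Fin.snoc_last (α := fun _ => Fin m) j p
  have key : ∀ a b : Fin (k + 1 + 1), a < b → q a < q b ∧ σ (q b) < σ (q a) := by
    intro a b
    refine Fin.lastCases ?_ (fun b' => ?_) b
    · refine Fin.lastCases ?_ (fun a' => ?_) a
      · intro h1
        exact absurd h1 (lt_irrefl _)
      · intro _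
        rw [q1, q2]
        have h2 : p a' ≤ i := by
          rw [← hl]
          exact hp.monotone (Fin.le_last a')
        refine ⟨lt_of_le_of_lt h2 hij, ?_⟩
        rcases (Fin.le_last a').eq_or_lt with h3 | h3
        · rw [h3, hl]
          exact hσ
        · have h4 := hd _ _ h3
          rw [hl] at h4
          exact hσ.trans h4
    · refine Fin.lastCases ?_ (fun a' => ?_) a
      · intro h1
        exact absurd h1 (not_lt.2 (Fin.le_last _))
      · intro h1
        rw [q1, q1]
        have h2 : a' < b' := by simpa using h1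
        exact ⟨hp h2, hd _ _ h2⟩
  exact ⟨q, fun a b hab => (key a b hab).1, fun a b hab => (key a b hab).2, q2⟩

private theorem labP_lt {d m : ℕ} {σ : Perm (Fin m)} (h : Good (d + 1) σ) {i : Fin m} {k : ℕ}
    (hk : LabP σ i k) : k < d := by
  by_contra hc
  obtain ⟨p, hp, hd, -⟩ := hk
  have hle : d + 1 ≤ k + 1 := by omega
  apply h
  refine ⟨fun a => p (Fin.castLE hle a), ?_, ?_⟩
  · intro a b hab
    exact hp ((Fin.castLE_lt_castLE_iff hle).2 hab)
  · intro a b hab
    exact hd _ _ ((Fin.castLE_lt_castLE_iff hle).2 hab)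

theorem exists_lab (d : ℕ) {m : ℕ} (σ : Perm (Fin m)) (h : Good (d + 1) σ) :
    ∃ l : Fin m → Fin d, ∀ i j, i < j → l i = l j → σ i < σ j := by
  classical
  have hP : ∀ i, LabP σ i (Nat.findGreatest (LabP σ i) d) := fun i =>
    Nat.findGreatest_spec (Nat.zero_le d) (labP_zero σ i)
  refine ⟨fun i => ⟨Nat.findGreatest (LabP σ i) d, labP_lt h (hP i)⟩, ?_⟩
  intro i j hij hl
  have hl' : Nat.findGreatest (LabP σ i) d = Nat.findGreatest (LabP σ j) d :=
    congrArg Fin.val hl
  by_contra hc
  have h1 : σ j < σ i := by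
    refine lt_of_le_of_ne (not_lt.1 hc) fun he => ?_
    exact hij.ne (σ.injective he).symm
  have h2 := labP_succ (hP i) hij h1
  have h3 := Nat.le_findGreatest (labP_lt h h2).le h2
  omega

theorem lex_of_fw {d m : ℕ} (σ : Perm (Fin m)) (l : Fin m → Fin d) (hl : ∀ i j, i < j → l i = l j → σ i < σ j)
    (τ : Perm (Fin m)) (h : Fw (fun v => l (σ⁻¹ v)) l τ ≠ 0) : τ = σ ∨ LexLT σ τ := by
  classical
  have hw : ∀ i, l (σ⁻¹ (τ i)) = l i := by
    by_contra hc
    apply h
    unfold Fw
    exact if_neg hc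
  by_cases he : τ = σ
  · exact Or.inl he
  right
  have hne : ({i | τ i ≠ σ i} : Set (Fin m)).Nonempty := by
    by_contra hc
    apply he
    ext i
    by_contra h1
    exact hc ⟨i, fun h2 => h1 (congrArg Fin.val h2)⟩
  obtain ⟨i, hi, hmin⟩ := WellFounded.has_min (wellFounded_lt (α := Fin m)) _ hne
  have hi' : τ i ≠ σ i := hi
  have hmin' : ∀ k < i, σ k = τ k := by
    intro k hk
    by_contra h1
    exact hmin k (fun h2 => h1 h2.symm) hk
  refine ⟨i, hmin', ?_⟩
  have hj : σ (σ⁻¹ (τ i)) = τ i := Equiv.apply_symm_apply σ (τ i)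
  rcases lt_trichotomy (σ⁻¹ (τ i)) i with h1 | h1 | h1
  · have h2 := hmin' _ h1
    rw [hj] at h2
    exact absurd (τ.injective h2).symm h1.ne
  · rw [h1] at hj
    exact absurd hj.symm hi'
  · have h2 := hl _ _ h1 (hw i).symm
    rw [hj] at h2
    exact h2

theorem fw_self {d m : ℕ} (σ : Perm (Fin m)) (l : Fin m → Fin d) : Fw (fun v => l (σ⁻¹ v)) l σ = 1 := by
  unfold Fw
  refine if_pos fun i => ?_
  exact congrArg l (Equiv.symm_apply_apply σ i)

end Pool.Agent.SPC
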