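import Pool.Agent.SPC.PDefs

/-!
# Pigeonhole

MODULE SPC-PPig: two pigeonhole arguments for functions on permutations.
-/

noncomputable section

namespace Pool.Agent.SPC

open Equiv

private theorem via_ap {n m : ℕ} (f : Fin n ↪ Fin m) (ρ : Perm (Fin n)) (i : Fin n) :
    via f ρ (f i) = f (ρ i) :=
  Perm.viaEmbedding_apply ρ f i

private theorem via_out {n m : ℕ} (f : Fin n ↪ Fin m) (ρ : Perm (Fin n)) {y : Fin m}
    (hy : y ∉ Set.range f) : via f ρ y = y :=
  Perm.viaEmbedding_apply_of_notMem ρ f y hy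

theorem rel_fw {d m : ℕ} (w w' : Fin m → Fin d) : Rel true (d + 1) (Fw w w') := by
  classical
  intro σ f
  obtain ⟨i, j, hij, hw⟩ := Fintype.exists_ne_map_eq_of_card_lt (fun i : Fin (d + 1) => w (σ (f i)))
    (by rw [Fintype.card_fin, Fintype.card_fin]; omega)
  have hsw : ∀ y : Fin m, w (σ (via f (swap i j) y)) = w (σ y) := by
    intro y
    by_cases hy : y ∈ Set.range f
    · obtain ⟨k, rfl⟩ := hy
      rw [via_ap]
      rcases eq_or_ne k i with rfl | hki
      · rw [swap_apply_left]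
        exact hw.symm
      · rcases eq_or_ne k j with rfl | hkj
        · rw [swap_apply_right]
          exact hw
        · rw [swap_apply_of_ne_of_ne hki hkj]
    · rw [via_out f _ hy]
  have hF : ∀ ρ : Perm (Fin (d + 1)), Fw w w' (σ * via f (swap i j * ρ)) = Fw w w' (σ * via f ρ) := by
    intro ρ
    unfold Fw
    have : (∀ y, w ((σ * via f (swap i j * ρ)) y) = w' y) ↔ (∀ y, w ((σ * via f ρ) y) = w' y) := by
      refine forall_congr' fun y => ?_
      rw [map_mul, Perm.mul_apply, Perm.mul_apply, hsw, Perm.mul_apply]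
    simp only [this]
  refine Finset.sum_involution (fun ρ _ => swap i j * ρ) ?_ ?_ ?_ ?_
  · intro ρ _
    rw [hF]
    have : chr true (swap i j * ρ) = - chr true ρ := by
      unfold chr
      rw [if_pos rfl, if_pos rfl, Perm.sign_mul, Perm.sign_swap hij]
      push_cast
      ring
    rw [this]
    ring
  · intro ρ _ _ h
    have h1 : swap i j = 1 := mul_eq_right.1 h
    exact hij (swap_eq_one_iff.1 h1)
  · intro ρ _
    exact Finset.mem_univ _
  · intro ρ _
    rw [← mul_assoc, swap_mul_self, one_mul]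

theorem sum_fw {a d m : ℕ} (x : Perm (Fin m) → ℚ) (hS : Rel false a x) (hm : (a - 1) * d < m) (ha : 1 ≤ a)
    (w w' : Fin m → Fin d) : ∑ τ : Perm (Fin m), x τ * Fw w w' τ = 0 := by
  classical
  obtain ⟨y, hy⟩ := Fintype.exists_lt_card_fiber_of_mul_lt_card w' (n := a - 1)
    (by rw [Fintype.card_fin, Fintype.card_fin, mul_comm]; exact hm)
  have hcard : a ≤ (Finset.univ.filter fun z => w' z = y).card := by omega
  obtain ⟨f, hf⟩ : ∃ f : Fin a ↪ Fin m, ∀ i, w' (f i) = y := by
    refine ⟨((Finset.univ.filter fun z => w' z = y).orderEmbOfCardLe hcard).toEmbedding, fun i => ?_⟩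
    have := Finset.orderEmbOfCardLe_mem (Finset.univ.filter fun z => w' z = y) hcard i
    exact (Finset.mem_filter.1 this).2
  have hw' : ∀ (ρ : Perm (Fin a)) (z : Fin m), w' (via f ρ z) = w' z := by
    intro ρ z
    by_cases hz : z ∈ Set.range f
    · obtain ⟨k, rfl⟩ := hz
      rw [via_ap, hf, hf]
    · rw [via_out f _ hz]
  have hF : ∀ (ρ : Perm (Fin a)) (τ : Perm (Fin m)), Fw w w' (τ * via f ρ) = Fw w w' τ := by
    intro ρ τ
    unfold Fw
    have : (∀ z, w ((τ * via f ρ) z) = w' z) ↔ (∀ z, w (τ z) = w' z) := by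
      constructor
      · intro h z
        obtain ⟨u, hu⟩ := (via f ρ).surjective z
        have h1 := h u
        have h2 := hw' ρ u
        rw [Perm.mul_apply, hu] at h1
        rw [hu] at h2
        rw [h1, h2]
      · intro h z
        rw [Perm.mul_apply, h, hw']
    simp only [this]
  have hN : ∀ ρ : Perm (Fin a), ∑ τ : Perm (Fin m), x (τ * via f ρ) * Fw w w' τ =
      ∑ τ : Perm (Fin m), x τ * Fw w w' τ := by
    intro ρ
    refine Fintype.sum_equiv (Equiv.mulRight (via f ρ)) _ _ fun τ => ?_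
    show x (τ * via f ρ) * Fw w w' τ = x (τ * via f ρ) * Fw w w' (τ * via f ρ)
    rw [hF]
  have h1 : ∑ ρ : Perm (Fin a), ∑ τ : Perm (Fin m), x (τ * via f ρ) * Fw w w' τ = 0 := by
    rw [Finset.sum_comm]
    refine Finset.sum_eq_zero fun τ _ => ?_
    rw [← Finset.sum_mul]
    have h2 := hS τ f
    have h3 : ∑ ρ : Perm (Fin a), chr false ρ * x (τ * via f ρ) = ∑ ρ : Perm (Fin a), x (τ * via f ρ) := by
      refine Finset.sum_congr rfl fun ρ _ => ?_
      unfold chr
      rw [if_neg Bool.false_ne_true, one_mul]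
    rw [h3] at h2
    rw [h2, zero_mul]
  rw [Finset.sum_congr rfl fun ρ _ => hN ρ, Finset.sum_const, nsmul_eq_mul] at h1
  have h4 : ((Finset.univ : Finset (Perm (Fin a))).card : ℚ) ≠ 0 := by
    have : 0 < (Finset.univ : Finset (Perm (Fin a))).card := Finset.card_pos.2 ⟨1, Finset.mem_univ _⟩
    exact_mod_cast this.ne'
  exact (mul_eq_zero.1 h1).resolve_left h4

end Pool.Agent.SPC
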