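import Pool.Agent.SPC.PDefs

/-!
# Straightening

A function on the permutations which satisfies the signed relations over all sets of `a` points and vanishes on all permutations without decreasing
subsequence of length `a` is zero (induction on the lexicographic order).
-/

noncomputable section

namespace Pool.Agent.SPC

open Equiv

theorem lexLT_wf (m : ℕ) : WellFounded (LexLT (m := m)) := by
  have h : WellFounded ((· < ·) : Lex (Fin m → Fin m) → Lex (Fin m → Fin m) → Prop) :=
    wellFounded_lt
  exact InvImage.wf (fun σ : Perm (Fin m) => toLex (⇑σ)) h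

private theorem via_apply_mem {a m : ℕ} (f : Fin a ↪ Fin m) (ρ : Perm (Fin a)) (i : Fin a) :
    via f ρ (f i) = f (ρ i) := by
  change (Perm.viaEmbeddingHom f ρ) (f i) = f (ρ i)
  rw [Perm.viaEmbeddingHom_apply, Perm.viaEmbedding_apply]

private theorem via_apply_not {a m : ℕ} (f : Fin a ↪ Fin m) (ρ : Perm (Fin a)) (j : Fin m)
    (hj : j ∉ Set.range f) : via f ρ j = j := by
  change (Perm.viaEmbeddingHom f ρ) j = j
  rw [Perm.viaEmbeddingHom_apply, Perm.viaEmbedding_apply_of_notMem _ _ _ hj]

theorem eq_zero_of_good (a : ℕ) {m : ℕ} (x : Perm (Fin m) → ℚ) (hA : Rel true a x)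
    (hg : ∀ σ, Good a σ → x σ = 0) : ∀ σ, x σ = 0 := by
  intro σ
  induction σ using (lexLT_wf m).induction with
  | _ σ ih =>
    by_cases hgood : Good a σ
    · exact hg σ hgood
    · unfold Good at hgood
      rw [not_not] at hgood
      obtain ⟨p, hp, hdec⟩ := hgood
      have hr := hA σ ⟨p, hp.injective⟩
      rw [Finset.sum_eq_single 1] at hr
      · rw [map_one, mul_one] at hr
        simpa [chr] using hr
      · intro ρ _ hρ
        have hex : ∃ i, ρ i ≠ i := by
          by_contra hne
          push Not at hne
          exact hρ (Equiv.ext hne)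
        obtain ⟨i, hi, hmin⟩ : ∃ i, ρ i ≠ i ∧ ∀ j < i, ρ j = j := by
          obtain ⟨i, hi, hmin⟩ := (wellFounded_lt (α := Fin a)).has_min {i | ρ i ≠ i} hex
          refine ⟨i, hi, fun j hj => ?_⟩
          by_contra hne
          exact hmin j hne hj
        have hgt : i < ρ i := by
          rcases lt_trichotomy (ρ i) i with h | h | h
          · have h2 := hmin _ h
            exact absurd (ρ.injective h2) hi
          · exact absurd h hi
          · exact h
        have hlex : LexLT (σ * via ⟨p, hp.injective⟩ ρ) σ := by
          refine ⟨p i, fun j hj => ?_, ?_⟩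
          · rw [Perm.mul_apply]
            by_cases hjr : j ∈ Set.range (⟨p, hp.injective⟩ : Fin a ↪ Fin m)
            · obtain ⟨l, rfl⟩ := hjr
              have hl : l < i := hp.lt_iff_lt.1 hj
              rw [via_apply_mem, hmin l hl]
            · rw [via_apply_not _ _ _ hjr]
          · rw [Perm.mul_apply]
            have e : via ⟨p, hp.injective⟩ ρ (p i) = p (ρ i) :=
              via_apply_mem ⟨p, hp.injective⟩ ρ i
            rw [e]
            exact hdec i (ρ i) hgt
        rw [ih _ hlex, mul_zero]
      · intro h
        exact absurd (Finset.mem_univ _) h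

end Pool.Agent.SPC
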