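import Pool.Agent.SPC.PStr
import Pool.Agent.SPC.PLab
import Pool.Agent.SPC.PPig

/-!
# Functions with all signed and plain sums over `a` points zero

MODULE SPC-PZero. The functions `Fw` of the good permutations are a basis of the functions whose signed sums are zero (triangular matrix); they are orthogonal to
the functions whose plain sums are zero.
-/

noncomputable section

namespace Pool.Agent.SPC

open Equiv

private theorem tri_inj {m : ℕ} {P : Perm (Fin m) → Prop} [Fintype {σ // P σ}]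
    (F : {σ // P σ} → Perm (Fin m) → ℚ) (h1 : ∀ σ, F σ σ.1 = 1)
    (h2 : ∀ σ τ, F σ τ ≠ 0 → τ = σ.1 ∨ LexLT σ.1 τ) (c : {σ // P σ} → ℚ)
    (hc : ∀ τ : {σ // P σ}, ∑ σ, c σ * F σ τ.1 = 0) : ∀ σ, c σ = 0 := by
  by_contra hne
  push Not at hne
  obtain ⟨σ0, hσ0⟩ := hne
  obtain ⟨τ, hτ, hmin⟩ := (InvImage.wf (Subtype.val : {σ // P σ} → Perm (Fin m)) (lexLT_wf m)).has_min
    {σ | c σ ≠ 0} ⟨σ0, hσ0⟩
  have h3 : ∑ σ, c σ * F σ τ.1 = c τ * F τ τ.1 := by
    refine Finset.sum_eq_single τ (fun σ _ hσ => ?_) (fun h => absurd (Finset.mem_univ _) h)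
    by_cases hcσ : c σ = 0
    · rw [hcσ, zero_mul]
    · have h4 : F σ τ.1 = 0 := by
        by_contra hF
        rcases h2 σ τ.1 hF with h5 | h5
        · exact hσ (Subtype.ext h5.symm)
        · exact hmin σ hcσ h5
      rw [h4, mul_zero]
  rw [hc τ, h1, mul_one] at h3
  exact hτ h3.symm

private theorem tri_surj {m : ℕ} {P : Perm (Fin m) → Prop} [Fintype {σ // P σ}]
    (F : {σ // P σ} → Perm (Fin m) → ℚ) (h1 : ∀ σ, F σ σ.1 = 1)
    (h2 : ∀ σ τ, F σ τ ≠ 0 → τ = σ.1 ∨ LexLT σ.1 τ) (x : Perm (Fin m) → ℚ) :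
    ∃ c : {σ // P σ} → ℚ, ∀ τ : {σ // P σ}, ∑ σ, c σ * F σ τ.1 = x τ.1 := by
  let T : ({σ // P σ} → ℚ) →ₗ[ℚ] ({σ // P σ} → ℚ) :=
    { toFun := fun c τ => ∑ σ, c σ * F σ τ.1
      map_add' := fun c c' => by
        funext τ
        show ∑ σ, (c σ + c' σ) * F σ τ.1 = ∑ σ, c σ * F σ τ.1 + ∑ σ, c' σ * F σ τ.1
        rw [← Finset.sum_add_distrib]
        exact Finset.sum_congr rfl fun σ _ => add_mul _ _ _
      map_smul' := fun r c => by
        funext τ
        show ∑ σ, (r * c σ) * F σ τ.1 = r * ∑ σ, c σ * F σ τ.1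
        rw [Finset.mul_sum]
        exact Finset.sum_congr rfl fun σ _ => mul_assoc _ _ _ }
  have hinj : Function.Injective T := by
    rw [injective_iff_map_eq_zero]
    intro c hc
    funext σ
    exact tri_inj F h1 h2 c (fun τ => congrFun hc τ) σ
  obtain ⟨c, hc⟩ := (LinearMap.injective_iff_surjective.1 hinj) (fun τ => x τ.1)
  exact ⟨c, fun τ => congrFun hc τ⟩

theorem eq_zero_of_rel (a : ℕ) (ha : 1 ≤ a) {m : ℕ} (hm : (a - 1) * (a - 1) < m) (x : Perm (Fin m) → ℚ)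
    (hA : Rel true a x) (hS : Rel false a x) : ∀ σ, x σ = 0 := by
  classical
  obtain ⟨d, rfl⟩ : ∃ d, a = d + 1 := ⟨a - 1, by omega⟩
  choose l hl using fun σ : {σ : Perm (Fin m) // Good (d + 1) σ} => exists_lab d σ.1 σ.2
  obtain ⟨F, hF⟩ : ∃ F : {σ : Perm (Fin m) // Good (d + 1) σ} → Perm (Fin m) → ℚ,
      ∀ σ, F σ = Fw (fun v => l σ (σ.1⁻¹ v)) (l σ) := ⟨_, fun _ => rfl⟩
  have h1 : ∀ σ, F σ σ.1 = 1 := fun σ => by
    rw [hF]
    exact fw_self σ.1 (l σ)
  have h2 : ∀ σ τ, F σ τ ≠ 0 → τ = σ.1 ∨ LexLT σ.1 τ := fun σ τ h => by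
    rw [hF] at h
    exact lex_of_fw σ.1 (l σ) (hl σ) τ h
  have h3 : ∀ σ, Rel true (d + 1) (F σ) := fun σ => by
    rw [hF]
    exact rel_fw _ _
  have h4 : ∀ σ, ∑ τ, x τ * F σ τ = 0 := fun σ => by
    rw [hF]
    exact sum_fw x hS (by simpa using hm) ha _ _
  obtain ⟨c, hc⟩ := tri_surj F h1 h2 x
  have h5 : ∀ τ, x τ - ∑ σ, c σ * F σ τ = 0 := by
    refine eq_zero_of_good (d + 1) (fun τ => x τ - ∑ σ, c σ * F σ τ) ?_ ?_
    · intro σ f
      have e1 : ∑ ρ : Perm (Fin (d + 1)), chr true ρ * (x (σ * via f ρ) - ∑ s, c s * F s (σ * via f ρ)) =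
          ∑ ρ : Perm (Fin (d + 1)), chr true ρ * x (σ * via f ρ) -
            ∑ s, c s * ∑ ρ : Perm (Fin (d + 1)), chr true ρ * F s (σ * via f ρ) := by
        have e2 : ∑ s, c s * ∑ ρ : Perm (Fin (d + 1)), chr true ρ * F s (σ * via f ρ) =
            ∑ ρ : Perm (Fin (d + 1)), chr true ρ * ∑ s, c s * F s (σ * via f ρ) := by
          simp only [Finset.mul_sum]
          rw [Finset.sum_comm]
          refine Finset.sum_congr rfl fun ρ _ => Finset.sum_congr rfl fun s _ => ?_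
          ring
        rw [e2, ← Finset.sum_sub_distrib]
        exact Finset.sum_congr rfl fun ρ _ => mul_sub _ _ _
      show ∑ ρ : Perm (Fin (d + 1)), chr true ρ * (x (σ * via f ρ) - ∑ s, c s * F s (σ * via f ρ)) = 0
      rw [e1, hA σ f, zero_sub, neg_eq_zero]
      refine Finset.sum_eq_zero fun s _ => ?_
      rw [h3 s σ f, mul_zero]
    · intro σ hσ
      show x σ - ∑ s, c s * F s σ = 0
      rw [hc ⟨σ, hσ⟩, sub_self]
  have h6 : ∑ τ, x τ * x τ = 0 := by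
    have e1 : ∀ τ, x τ * x τ = ∑ s, c s * (x τ * F s τ) := by
      intro τ
      have e2 : x τ = ∑ s, c s * F s τ := sub_eq_zero.1 (h5 τ)
      calc x τ * x τ = x τ * ∑ s, c s * F s τ := by rw [← e2]
        _ = ∑ s, c s * (x τ * F s τ) := by
          rw [Finset.mul_sum]
          exact Finset.sum_congr rfl fun s _ => by ring
    rw [Finset.sum_congr rfl fun τ _ => e1 τ, Finset.sum_comm]
    refine Finset.sum_eq_zero fun s _ => ?_
    rw [← Finset.mul_sum, h4, mul_zero]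
  intro σ
  exact mul_self_eq_zero.1 ((Finset.sum_eq_zero_iff_of_nonneg fun τ _ => mul_self_nonneg (x τ)).1 h6 σ
    (Finset.mem_univ σ))

end Pool.Agent.SPC
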