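import Mathlib

/-!
# Rational mixed Tate motives, explicitly

`Fa B` with the operations `mot B`, on the elements with `IsMot`: the motivic cochains of a domain
`B` of characteristic zero. A cochain `x` is a family `x U`, `U` a finite set of parameters `t n`
and positions `z s`: `x U` is a rational finite correspondence from `Spec B[t n, t n ∈ U]` to the
power of the multiplicative group with the coordinates `z s ∈ U`, given by the traces
`x U a ∈ B[t 0, t 1, ...]` of the monomials `z ^ a`.
`Cx`: finite twisted complexes; `El`: finite twisted complexes with an element.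
-/

noncomputable section

namespace Pool.Agent.SPC.Raw

universe u v

/-- Operations (no axioms): `mem` singles out the elements, `par` is the parity automorphism
(`par c = c` for even, `par c = -c` for odd `c`), `d` the differential. -/
structure Ops (C : Type u) where
  mem : C → Prop
  mul : C → C → C
  one : C
  par : C → C
  d : C → C

/-- The data of a finite twisted complex: a basis `w i`, `i : I`, of parity `odd i` and rank
`rk i`, and the matrix of the differential, `d (w i) = ∑ j, D i j * w j`. -/
structure Cx (C : Type u) where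
  I : Type
  [fin : Fintype I]
  [dec : DecidableEq I]
  odd : I → Bool
  rk : I → ℕ
  D : I → I → C

attribute [instance] Cx.fin Cx.dec

/-- A twisted complex with the element `∑ i, f i * w i`. -/
structure El (C : Type u) extends Cx C where
  f : I → C

section

variable {C : Type u} [AddCommGroup C] (O : Ops C)

/-- `c` has the parity `s`. -/
def Par (s : Bool) (c : C) : Prop := O.mem c ∧ O.par c = if s then -c else c

/-- The differential of the element `∑ i, f i * w i`, for a matrix `D`. -/
def dif {I : Type} [Fintype I] (D : I → I → C) (f : I → C) (l : I) : C :=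
  O.d (f l) + ∑ i, O.mul (O.par (f i)) (D i l)

/-- The data are a finite twisted complex: `D` is odd and lowers the rank, `d (d (w i)) = 0`. -/
structure IsCx (M : Cx C) : Prop where
  par_D : ∀ i j, Par O (!(M.odd i ^^ M.odd j)) (M.D i j)
  tri : ∀ i j, M.rk i ≤ M.rk j → M.D i j = 0
  flat : ∀ i j, dif O M.D (M.D i) j = 0

/-- The element is even and closed, in a twisted complex of length at most `l`. -/
structure EvenCycle (l : ℕ) (P : El C) : Prop where
  isCx : IsCx O P.toCx
  even : ∀ i, Par O (P.odd i) (P.f i)
  closed : ∀ i, dif O P.D P.f i = 0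
  len : ∀ i, P.rk i < l

/-- The tensor product of twisted complexes. -/
def tmul (M N : Cx C) : Cx C where
  I := M.I × N.I
  odd x := M.odd x.1 ^^ N.odd x.2
  rk x := M.rk x.1 + N.rk x.2
  D x y := (if x.2 = y.2 then M.D x.1 y.1 else 0) +
    (if x.1 = y.1 then if M.odd x.1 then -O.par (N.D x.2 y.2) else N.D x.2 y.2 else 0)

/-- The unit, with its element `1`. -/
def oneE : El C where
  I := Unit
  odd _ := false
  rk _ := 0
  D _ _ := 0
  f _ := O.one

/-- The tensor product of twisted complexes with elements. -/
def tmulE (P Q : El C) : El C where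
  toCx := tmul O P.toCx Q.toCx
  f x := O.mul (P.f x.1) (if P.odd x.1 then O.par (Q.f x.2) else Q.f x.2)

/-- The tensor product of finitely many twisted complexes with elements. -/
def prod : (n : ℕ) → (Fin n → El C) → El C
  | 0, _ => oneE O
  | n + 1, P => tmulE O (P 0) (prod n fun b => P b.succ)

/-- The base change of the element under `φ` is a boundary. -/
def ExactAt {C' : Type v} (φ : C' → C) (P : El C') : Prop :=
  ∃ g : P.I → C, (∀ i, O.mem (g i)) ∧
    ∀ l, dif O (fun i j => φ (P.D i j)) g l = φ (P.f l)

/-- The identity of `M` is homotopic to zero. -/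
def Contractible (M : Cx C) : Prop :=
  ∃ h : M.I → M.I → C, (∀ i j, Par O (!(M.odd i ^^ M.odd j)) (h i j)) ∧
    ∀ i l, (if i = l then O.one else 0) =
      dif O M.D (h i) l + ∑ j, O.mul (O.par (M.D i j)) (h j l)

/-- The part on a subset of the basis. -/
def restr (X : Cx C) (P : X.I → Prop) [DecidablePred P] : Cx C where
  I := {i // P i}
  odd i := X.odd i
  rk i := X.rk i
  D i j := X.D i j

/-- The parity shift. -/
def sh (X : Cx C) : Cx C where
  I := X.I
  odd i := !X.odd i
  rk i := X.rk i
  D i j := -O.par (X.D i j)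

/-- Even closed maps `X → Y`, `w i ↦ ∑ j, φ i j * w j`. -/
def IsMap (X Y : Cx C) (φ : X.I → Y.I → C) : Prop :=
  (∀ i j, Par O (X.odd i ^^ Y.odd j) (φ i j)) ∧
    ∀ i l, dif O Y.D (φ i) l = ∑ j, O.mul (X.D i j) (φ j l)

/-- `Y` is a homotopy retract of `X`. -/
def Retr (Y X : Cx C) : Prop :=
  ∃ (φ : Y.I → X.I → C) (ψ : X.I → Y.I → C) (h : Y.I → Y.I → C), IsMap O Y X φ ∧ IsMap O X Y ψ ∧
    (∀ i j, Par O (!(Y.odd i ^^ Y.odd j)) (h i j)) ∧
    ∀ i l, ∑ j, O.mul (φ i j) (ψ j l) - (if i = l then O.one else 0) =
      dif O Y.D (h i) l + ∑ j, O.mul (O.par (Y.D i j)) (h j l)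

/-- The thick tensor ideal of twisted complexes generated by `M`: closed under tensor products,
shifts, extensions and homotopy retracts. -/
inductive Thick (M : Cx C) : Cx C → Prop
  | self : Thick M M
  | left (X Y : Cx C) : IsCx O Y → Thick M X → Thick M (tmul O Y X)
  | right (X Y : Cx C) : IsCx O Y → Thick M X → Thick M (tmul O X Y)
  | shift (X : Cx C) : Thick M X → Thick M (sh O X)
  | ext (X : Cx C) (P : X.I → Prop) [DecidablePred P] : IsCx O X →
      (∀ i l, P i → ¬ P l → X.D i l = 0) →
      Thick M (restr X P) → Thick M (restr X fun i => ¬ P i) → Thick M X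
  | retract (X Y : Cx C) : IsCx O Y → Retr O Y X → Thick M X → Thick M Y

end

/-- Parameters and positions, the parameters before the positions. -/
abbrev Ix : Type := ℕ ⊕ₗ ℕ

/-- The parameter `t n`. -/
def tt (n : ℕ) : Ix := toLex (Sum.inl n)

/-- The position `z s`. -/
def zz (s : ℕ) : Ix := toLex (Sum.inr s)

/-- Families of functions of exponents. -/
abbrev Fa (B : Type u) [CommRing B] : Type u := Finset Ix → (ℕ →₀ ℤ) → MvPolynomial ℕ B

/-- The sign of the shuffle of `V` and `W`. -/
def sg (V W : Finset Ix) : ℤ := (-1) ^ ((V ×ˢ W).filter fun q => q.2 < q.1).card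

/-- The permutation of the parameters by `π` and of the positions by `ρ`. -/
def ix (π ρ : Equiv.Perm ℕ) : Ix ≃ Ix :=
  (ofLex : ℕ ⊕ₗ ℕ ≃ ℕ ⊕ ℕ).trans ((Equiv.sumCongr π ρ).trans (toLex : ℕ ⊕ ℕ ≃ ℕ ⊕ₗ ℕ))

/-- The sign of the reordering of `U` by `e`. -/
def sgE (e : Ix ≃ Ix) (U : Finset Ix) : ℤ :=
  (-1) ^ ((U ×ˢ U).filter fun q => q.1 < q.2 ∧ e q.2 < e q.1).card

/-- A number larger than those of all parameters of `U`. -/
def fresh (U : Finset Ix) : ℕ := (U.sup fun u => Sum.elim id (fun _ => 0) (ofLex u)) + 1

section

variable {B : Type u} [CommRing B]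

/-- Put `t n = c`. -/
def put (n : ℕ) (c : B) (p : MvPolynomial ℕ B) : MvPolynomial ℕ B :=
  MvPolynomial.bind₁ (fun m => if m = n then MvPolynomial.C c else MvPolynomial.X m) p

/-- `τ` is a rational cycle on a power of the multiplicative group, finite over the domain `B`, given
by the traces `τ a` of the monomials: a rational combination of characters with integral values in
the algebraic closure. -/
def IsCyc [IsDomain B] (τ : (ℕ →₀ ℤ) → B) : Prop :=
  ∃ (m : ℕ) (c : Fin m → ℚ) (χ : Fin m → (ℕ →₀ ℤ) → AlgebraicClosure (FractionRing B)),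
    (∀ i, χ i 0 = 1 ∧ ∀ a b, χ i (a + b) = χ i a * χ i b) ∧ (∀ i a, IsIntegral B (χ i a)) ∧
      ∀ a, algebraMap B (AlgebraicClosure (FractionRing B)) (τ a) =
        ∑ i, (c i : AlgebraicClosure (FractionRing B)) * χ i a

/-- Motivic cochains: bounded families of cycles `x U` in the parameters and positions of `U`, which
vanish if a parameter is put equal to `1` or a coordinate is replaced by `1`; permutations of
parameters and positions act by their sign. -/
structure IsMot [IsDomain B] (x : Fa B) : Prop where
  bdd : ∃ N, ∀ U, N < U.card → x U = 0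
  cyc : ∀ U, IsCyc (x U)
  cube : ∀ U n, tt n ∉ U → ∀ a, put n 0 (x U a) = x U a
  face : ∀ U n, tt n ∈ U → ∀ a, put n 1 (x U a) = 0
  posn : ∀ U s, zz s ∉ U → ∀ a, x U (Finsupp.erase s a) = x U a
  kill : ∀ U s, zz s ∈ U → ∀ a, x U (Finsupp.erase s a) = 0
  sym : ∀ (π ρ : Equiv.Perm ℕ) U a, x (U.map (ix π ρ).toEmbedding) a =
    sgE (ix π ρ) U • MvPolynomial.rename π (x U (Finsupp.mapDomain ρ.symm a))

/-- The differential ring of motivic cochains: exterior product of families, parity of `x U` = parity
of the number of elements of `U`, differential = put a new parameter equal to `0`. -/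
def mot (B : Type u) [CommRing B] [IsDomain B] : Ops (Fa B) where
  mem := IsMot
  mul x y := fun U a => ∑ V ∈ U.powerset, sg V (U \ V) • (x V a * y (U \ V) a)
  one := fun U _ => if U = ∅ then 1 else 0
  par x := fun U a => (-1 : ℤ) ^ U.card • x U a
  d x := fun U a => put (fresh U) 0 (sg {tt (fresh U)} U • x (insert (tt (fresh U)) U) a)

/-- Base change. -/
def map {B' : Type v} [CommRing B'] (g : B →+* B') (x : Fa B) : Fa B' :=
  fun U a => MvPolynomial.map g (x U a)

end

/-- The nilpotence theorem for `K`: if an even closed element of a finite twisted complex is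
exact modulo the augmentation ideal (the `x` with `x ∅ = 0`) then a tensor power of it is exact. -/
def NT (K : Type u) [Field K] : Prop :=
  ∀ (l : ℕ) (P : El (Fa K)), EvenCycle (mot K) l P →
    (∃ g : P.I → Fa K, (∀ i, IsMot (g i)) ∧ ∀ i, dif (mot K) P.D g i ∅ = P.f i ∅) →
      ∃ n, ExactAt (mot K) id (prod (mot K) n fun _ => P)

end Pool.Agent.SPC.Raw
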