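import Pool.Agent.SPC.RawMA
import Pool.Agent.SPC.BNt

/-!
# The final theorem in explicit form
-/

noncomputable section

namespace Pool.Agent.SPC.Raw

universe u

open SDG

private theorem prod_succ {C : Type u} [AddCommGroup C] (O : Ops C) (n : ℕ)
    (P : Fin (n + 1) → El C) :
    prod O (n + 1) P = tmulE O (P 0) (prod O n fun b => P b.succ) := rfl

/-- The nilpotence theorem in both forms. -/
theorem nt_iff {K : Type u} [Field K] [CharZero K] : NT K ↔ (Pool.Agent.SPC.mot.{u}).NT K := by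
  let _ := ratAlgebra K
  constructor
  · intro h P hP hP' he
    obtain ⟨l, hl⟩ := P.exists_len
    obtain ⟨n, hn⟩ := h l ((emb K).el P) ((emb K).evenCycle_iff.2 ⟨hP, hP', hl⟩)
      ((exact_eps_iff P).1 he)
    refine PT.tn_iff.2 ⟨n, ?_⟩
    rw [← (emb K).el_pow P n] at hn
    exact ((emb K).exact_iff _).1 hn
  · intro h l Q hQ hg
    obtain ⟨P, rfl, h1, h2, _⟩ := (emb K).exists_el_of_evenCycle hQ
    obtain ⟨n, hn⟩ := PT.tn_iff.1 (h P h1 h2 ((exact_eps_iff P).2 hg))
    refine ⟨n, ?_⟩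
    rw [← (emb K).el_pow P n]
    exact ((emb K).exact_iff _).2 hn

theorem uniform {k : Type u} [Field k] [IsAlgClosed k] [CharZero k] {R : Type u} [CommRing R]
    [IsDomain R] [Algebra k R] [Algebra.FiniteType k R] {K : Type u} [Field K] [Algebra k K]
    (p q : R →ₐ[k] K) (l : ℕ) : ∃ N : ℕ, ∀ P : Fin N → El (Fa R),
      (∀ j, EvenCycle (mot R) l (P j) ∧ ExactAt (mot K) (map (p : R →+* K)) (P j)) →
        ExactAt (mot K) (map (q : R →+* K)) (prod (mot R) N P) := by
  have hR : HasRat R := HasRat.of_algebra k R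
  have hK : CharZero K := charZero_of_injective_algebraMap (algebraMap k K).injective
  let iR := ratAlgebra R
  let iK := ratAlgebra K
  obtain ⟨N, hN⟩ := (Pool.Agent.SPC.mot.{u}).uniform_prod p q l
  refine ⟨N, fun P hP => ?_⟩
  have h1 : ∀ j, ∃ Q : PT (MA R), (emb R).el Q = P j ∧ Q.Even ∧ Q.Closed ∧ Q.Len l :=
    fun j => (emb R).exists_el_of_evenCycle (hP j).1
  choose Q hQ h2 h3 h4 using h1
  have h5 : (fun j => (emb R).el (Q j)) = P := funext hQ
  subst h5
  have h6 := hN Q h2 h3 h4 fun j =>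
    ((emb R).exactAt_iff (emb K) (g := MA.map (p : R →+* K)) (fun a => map_fa _ a) (Q j)).1
      (hP j).2
  have h7 := ((emb R).exactAt_iff (emb K) (g := MA.map (q : R →+* K)) (fun a => map_fa _ a)
    (PT.prod N Q)).2 (by
      rw [PT.map_prod]
      exact h6)
  rw [(emb R).el_prod] at h7
  exact h7

theorem nt_all {k : Type u} [Field k] [IsAlgClosed k] [CharZero k] (h : NT k) {K : Type u}
    [Field K] [CharZero K] : NT K :=
  nt_iff.2 ((Pool.Agent.SPC.mot.{u}).nt_all (nt_iff.1 h))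

theorem nt_of_even {k : Type u} [Field k] [CharZero k]
    (h : ∀ a : Fa k, Par (mot k) false a → (mot k).d a = 0 → a ∅ = 0 →
      ∃ b, IsMot b ∧ (mot k).d b = a) : NT k := by
  let _ := ratAlgebra k
  refine nt_iff.2 fun P h1 h2 h3 =>
    (Pool.Agent.SPC.mot.{u}).pow_exact_of_evenTrivial ?_ P h1 h2 h3
  intro (a : MA k) (ha : par a = a) (hd : d a = 0) (he : MA.eps k a = 0)
  obtain ⟨b, hb, hb'⟩ := h (fa a) ((emb k).par_iff.2 (by
      unfold IsPar
      rw [sgn_false, one_smul, ha])) (by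
      rw [← fa_d, hd, map_zero]) (by
      rw [fa_empty, he, map_zero]
      rfl)
  obtain ⟨c, rfl⟩ := (mem_fa b).1 hb
  exact ⟨c, fa_injective ((fa_d c).trans hb')⟩

theorem dichotomy {K : Type u} [Field K] [CharZero K] (h : NT K) (M : Cx (Fa K))
    (hM : IsCx (mot K) M) :
    Contractible (mot K) M ∨ ∀ X, IsCx (mot K) X → Thick (mot K) M X := by
  let _ := ratAlgebra K
  obtain ⟨M', rfl⟩ := (emb K).exists_cx M hM
  rcases (Pool.Agent.SPC.mot.{u}).dichotomy (nt_iff.1 h) M' with h1 | h1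
  · exact Or.inl ((emb K).contractible h1)
  · refine Or.inr fun X hX => ?_
    obtain ⟨X', rfl⟩ := (emb K).exists_cx X hX
    exact (emb K).thick (h1 X')

end Pool.Agent.SPC.Raw
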