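import Pool.Agent.SPC.RawTC
import Pool.Agent.SPC.Mdl

/-!
# The motivic differential algebra as explicit data
-/

noncomputable section

namespace Pool.Agent.SPC.Raw

universe u v w

open SDG MvPolynomial

section

variable {B : Type u} [CommRing B]

theorem subHom_setT (n : ℕ) (b : Bool) (p : T B) :
    subHom B (setT n b) p = put n (if b then 1 else 0) p := by
  have h : subHom B (setT n b) =
      (bind₁ (fun m => if m = n then (C (if b then 1 else 0) : T B) else X m)).toRingHom := by
    refine ringHom_ext (fun c => ?_) (fun m => ?_)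
    · rw [subHom_C]
      exact (bind₁_C_right _ _).symm
    · rw [subHom_X]
      refine Eq.trans ?_ (bind₁_X_right _ _).symm
      unfold setT
      by_cases hm : m = n
      · rw [if_pos hm, if_pos hm]
        rfl
      · rw [if_neg hm, if_neg hm]
        rfl
  rw [h]
  rfl

theorem subHom_perm (π : Equiv.Perm ℕ) (p : T B) :
    subHom B (fun n => Sum.inl (π n)) p = rename π p := by
  have h : subHom B (fun n => Sum.inl (π n)) = (rename (R := B) π).toRingHom := by
    refine ringHom_ext (fun c => ?_) (fun m => ?_)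
    · rw [subHom_C]
      exact (rename_C _ _).symm
    · rw [subHom_X]
      exact (rename_X _ _).symm
  rw [h]
  rfl

theorem posL_killP (s : ℕ) (a : ℕ →₀ ℤ) : posL (killP s) a = Finsupp.erase s a := by
  have h : posL (killP s) = Finsupp.eraseAddHom s := by
    refine Finsupp.addHom_ext fun t n => ?_
    rw [posL_single, Finsupp.eraseAddHom_apply]
    unfold killP
    by_cases hts : t = s
    · subst hts
      rw [if_pos rfl, Finsupp.erase_single]
      rfl
    · rw [if_neg hts, Finsupp.erase_single_ne (Ne.symm hts)]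
      rfl
  rw [h]
  rfl

theorem posL_perm (ρ : Equiv.Perm ℕ) (a : ℕ →₀ ℤ) :
    posL (fun s => some (ρ.symm s)) a = Finsupp.mapDomain ρ.symm a := by
  have h : posL (fun s => some (ρ.symm s)) = Finsupp.mapDomain.addMonoidHom ρ.symm := by
    refine Finsupp.addHom_ext fun t n => ?_
    rw [posL_single]
    exact (Finsupp.mapDomain_single).symm
  rw [h]
  rfl

end

section

variable {B : Type u} [CommRing B] [IsDomain B] [Algebra ℚ B]

theorem algebraMap_rat (q : ℚ) : algebraMap B (Om B) (algebraMap ℚ B q) = (q : Om B) :=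
  eq_ratCast ((algebraMap B (Om B)).comp (algebraMap ℚ B)) q

theorem bval_smul (q : ℚ) (y : Bp B) : bval B (q • y) = (q : Om B) * bval B y := by
  have h : q • y = incl B (algebraMap ℚ B q) * y := rfl
  rw [h, map_mul, bval_incl, algebraMap_rat]

theorem isExp_iff (τ : (ℕ →₀ ℤ) → B) : IsExp τ ↔ IsCyc τ := by
  constructor
  · intro h
    obtain ⟨m, c, g, hg⟩ := Submodule.mem_span_set'.1 h
    refine ⟨m, c, fun i a => bval B ((g i : (ℕ →₀ ℤ) → Bp B) a), fun i => ?_, fun i a => ?_,
      fun a => ?_⟩
    · obtain ⟨φ, hφ⟩ := (g i).2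
      constructor
      · change bval B ((g i : (ℕ →₀ ℤ) → Bp B) 0) = 1
        rw [hφ 0, ofAdd_zero, map_one, map_one]
      · intro a b
        change bval B ((g i : (ℕ →₀ ℤ) → Bp B) (a + b)) =
          bval B ((g i : (ℕ →₀ ℤ) → Bp B) a) * bval B ((g i : (ℕ →₀ ℤ) → Bp B) b)
        rw [hφ (a + b), hφ a, hφ b, ofAdd_add, map_mul, map_mul]
    · exact ((g i : (ℕ →₀ ℤ) → Bp B) a).2
    · have h1 := congrArg (bval B) (congrFun hg a)
      rw [bval_incl] at h1
      rw [← h1, Finset.sum_apply, map_sum]
      refine Finset.sum_congr rfl fun i _ => ?_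
      rw [Pi.smul_apply, bval_smul]
  · rintro ⟨m, c, χ, hχ, hi, hs⟩
    choose y hy using fun x : Fin m × (ℕ →₀ ℤ) => exists_bval (B := B) (hi x.1 x.2)
    have h1 : (fun a => incl B (τ a)) = ∑ i, c i • fun a => y (i, a) := by
      funext a
      apply bval_injective
      rw [bval_incl, hs a, Finset.sum_apply, map_sum]
      refine Finset.sum_congr rfl fun i _ => ?_
      rw [Pi.smul_apply, bval_smul, hy]
    unfold IsExp Comb
    rw [h1]
    refine Submodule.sum_mem _ fun i _ => Submodule.smul_mem _ _ (Submodule.subset_span ?_)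
    refine ⟨{ toFun := fun a => y (i, Multiplicative.toAdd a)
              map_one' := bval_injective B ?_
              map_mul' := fun a b => bval_injective B ?_ }, fun a => rfl⟩
    · change bval B (y (i, 0)) = bval B 1
      rw [hy, map_one]
      exact (hχ i).1
    · change bval B (y (i, Multiplicative.toAdd a + Multiplicative.toAdd b)) = _
      rw [map_mul, hy, hy, hy]
      exact (hχ i).2 _ _

/-- The value at an exponent. -/
def evA (a : ℕ →₀ ℤ) : GT B →+ T B where
  toFun x := x.val a
  map_zero' := rfl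
  map_add' _ _ := rfl

theorem val_sum {ι : Type*} (s : Finset ι) (f : ι → GT B) (a : ℕ →₀ ℤ) :
    (∑ i ∈ s, f i).val a = ∑ i ∈ s, (f i).val a := map_sum (evA a) f s

theorem val_zsmul (n : ℤ) (x : GT B) (a : ℕ →₀ ℤ) : (n • x).val a = n • x.val a :=
  map_zsmul (evA a) n x

/-- Cochains as families of functions of exponents. -/
def fa : MA B →+ Fa B where
  toFun x := fun U a => (x.comp U).val a
  map_zero' := rfl
  map_add' _ _ := rfl

theorem fa_injective : Function.Injective (fa (B := B)) := fun x y h =>
  MA.ext fun U => GT.ext fun a => congrFun (congrFun h U) a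

theorem fa_mul (x y : MA B) : fa (x * y) = (mot B).mul (fa x) (fa y) := by
  funext U a
  change (∑ V ∈ U.powerset, Pool.Agent.SPC.sg V (U \ V) • (x.comp V * y.comp (U \ V))).val a = _
  rw [val_sum]
  refine Finset.sum_congr rfl fun V _ => ?_
  rw [val_zsmul, GT.val_mul]
  rfl

theorem fa_one : fa (1 : MA B) = (mot B).one := by
  funext U a
  change ((if U = ∅ then (1 : GT B) else 0)).val a = if U = ∅ then 1 else 0
  split_ifs <;> rfl

theorem fa_par (x : MA B) : fa (par x) = (mot B).par (fa x) := by
  funext U a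
  change ((-1 : ℤ) ^ U.card • x.comp U).val a = _
  rw [val_zsmul]
  rfl

theorem fa_d (x : MA B) : fa (d x) = (mot B).d (fa x) := by
  funext U a
  change (CubeAlg.sub (setT (Pool.Agent.SPC.fresh U) false)
    (Ext.contr (cu (Pool.Agent.SPC.fresh U)) x.comp U)).val a = _
  have h1 : Ext.contr (cu (Pool.Agent.SPC.fresh U)) x.comp U =
      Pool.Agent.SPC.sg {cu (Pool.Agent.SPC.fresh U)} U •
        x.comp (insert (cu (Pool.Agent.SPC.fresh U)) U) := by
    unfold Ext.contr
    exact if_neg (fresh_notMem U)
  rw [h1]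
  change subHom B (setT (Pool.Agent.SPC.fresh U) false) ((Pool.Agent.SPC.sg
    {cu (Pool.Agent.SPC.fresh U)} U • x.comp (insert (cu (Pool.Agent.SPC.fresh U)) U)).val a) = _
  rw [subHom_setT, val_zsmul]
  rfl

theorem reCoef_val (π ρ : Equiv.Perm ℕ) (x : GT B) (a : ℕ →₀ ℤ) :
    (reCoef (GT B) π ρ x).val a = rename π (x.val (Finsupp.mapDomain ρ.symm a)) := by
  change subHom B (fun n => Sum.inl (π n)) (x.val (posL (fun s => some (ρ.symm s)) a)) = _
  rw [subHom_perm, posL_perm]

theorem sym_iff (x : Ext (ℕ ⊕ₗ ℕ) (GT B)) (π ρ : Equiv.Perm ℕ) :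
    Ext.permF (reIdx π ρ) (Ext.mapL (reCoef (GT B) π ρ).toLinearMap x) = x ↔
      ∀ U a, (x (U.map (ix π ρ).toEmbedding)).val a =
        sgE (ix π ρ) U • rename π ((x U).val (Finsupp.mapDomain ρ.symm a)) := by
  have h0 : ∀ U a, (Ext.permF (reIdx π ρ) (Ext.mapL (reCoef (GT B) π ρ).toLinearMap x)
      (U.map (ix π ρ).toEmbedding)).val a =
        sgE (ix π ρ) U • rename π ((x U).val (Finsupp.mapDomain ρ.symm a)) := by
    intro U a
    have h1 := Ext.permF_apply_map (reIdx π ρ) (Ext.mapL (reCoef (GT B) π ρ).toLinearMap x) U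
    have h2 : (Ext.permF (reIdx π ρ) (Ext.mapL (reCoef (GT B) π ρ).toLinearMap x)
      (U.map (ix π ρ).toEmbedding)) = Pool.Agent.SPC.sgE (reIdx π ρ) U •
        reCoef (GT B) π ρ (x U) := h1
    rw [h2, val_zsmul, reCoef_val]
    rfl
  constructor
  · intro h U a
    rw [← h0, h]
  · intro h
    funext U
    refine GT.ext fun a => ?_
    have h1 : U = (U.map (ix π ρ).symm.toEmbedding).map (ix π ρ).toEmbedding := by
      rw [Finset.map_map]
      ext u
      simp
    rw [h1, h0, h]

theorem mem_fa (c : Fa B) : (mot B).mem c ↔ ∃ x : MA B, fa x = c := by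
  constructor
  · intro h
    have h' : IsMot c := h
    let x : Finset (ℕ ⊕ₗ ℕ) → GT B := fun U => GT.mk (c U) ((isExp_iff _).2 (h'.cyc U))
    have hx : IsFam x := by
      refine ⟨?_, ?_, ?_, ?_, ?_, ?_⟩
      · obtain ⟨N, hN⟩ := h'.bdd
        exact ⟨N, fun U hU => GT.ext fun a => congrFun (hN U hU) a⟩
      · intro U n hn
        refine GT.ext fun a => ?_
        change subHom B (setT n false) (c U a) = c U a
        rw [subHom_setT]
        exact h'.cube U n hn a
      · intro U n hn
        refine GT.ext fun a => ?_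
        change subHom B (setT n true) (c U a) = 0
        rw [subHom_setT]
        exact h'.face U n hn a
      · intro U s hs
        refine GT.ext fun a => ?_
        change c U (posL (killP s) a) = c U a
        rw [posL_killP]
        exact h'.posn U s hs a
      · intro U s hs
        refine GT.ext fun a => ?_
        change c U (posL (killP s) a) = 0
        rw [posL_killP]
        exact h'.kill U s hs a
      · intro π ρ
        exact (sym_iff x π ρ).2 fun U a => h'.sym π ρ U a
    exact ⟨MA.mk x hx, rfl⟩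
  · rintro ⟨x, rfl⟩
    refine ⟨?_, ?_, ?_, ?_, ?_, ?_, ?_⟩
    · obtain ⟨N, hN⟩ := x.isFam.bdd
      refine ⟨N, fun U hU => funext fun a => ?_⟩
      have h1 := hN U hU
      change (x.comp U).val a = 0
      rw [h1]
      rfl
    · intro U
      exact (isExp_iff _).1 (x.comp U).isExp
    · intro U n hn a
      have h1 := congrArg (fun y : GT B => y.val a) (x.isFam.cube U n hn)
      change subHom B (setT n false) ((x.comp U).val a) = (x.comp U).val a at h1
      rw [subHom_setT] at h1
      exact h1
    · intro U n hn a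
      have h1 := congrArg (fun y : GT B => y.val a) (x.isFam.face U n hn)
      change subHom B (setT n true) ((x.comp U).val a) = 0 at h1
      rw [subHom_setT] at h1
      exact h1
    · intro U s hs a
      have h1 := congrArg (fun y : GT B => y.val a) (x.isFam.posn U s hs)
      change (x.comp U).val (posL (killP s) a) = (x.comp U).val a at h1
      rw [posL_killP] at h1
      exact h1
    · intro U s hs a
      have h1 := congrArg (fun y : GT B => y.val a) (x.isFam.kill U s hs)
      change (x.comp U).val (posL (killP s) a) = 0 at h1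
      rw [posL_killP] at h1
      exact h1
    · intro π ρ U a
      exact (sym_iff x.comp π ρ).1 (x.isFam.sym π ρ) U a

/-- The cochains as explicit data. -/
def emb (B : Type u) [CommRing B] [IsDomain B] [Algebra ℚ B] : Emb (MA B) (mot B) where
  ι := fa
  inj := fa_injective
  map_mul := fa_mul
  map_one := fa_one
  map_par := fa_par
  map_d := fa_d
  mem := mem_fa

theorem map_fa {B' : Type v} [CommRing B'] [IsDomain B'] [Algebra ℚ B'] (g : B →+* B') (x : MA B) :
    map g (fa x) = fa (MA.map g x) := rfl

theorem fa_empty (x : MA B) : fa x ∅ = fun _ => algebraMap ℚ (T B) (MA.eps B x) :=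
  funext fun a => MA.epsF_spec x a

theorem fa_empty_inj {x y : MA B} : fa x ∅ = fa y ∅ ↔ MA.eps B x = MA.eps B y := by
  rw [fa_empty, fa_empty]
  constructor
  · intro h
    exact FaithfulSMul.algebraMap_injective ℚ (T B) (congrFun h 0)
  · intro h
    rw [h]

/-- Exactness modulo the augmentation ideal. -/
theorem exact_eps_iff (P : PT (MA B)) : (P.map (MA.epsS B)).Exact ↔
    ∃ g : P.1.I → Fa B, (∀ i, IsMot (g i)) ∧
      ∀ i, dif (mot B) ((emb B).el P).D g i ∅ = ((emb B).el P).f i ∅ := by
  have key : ∀ (y : P.1.I → MA B) (l : P.1.I),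
      MA.eps B (d (y l) + ∑ i, par (y i) * P.1.D i l) =
        ∑ i, MA.eps B (y i) * MA.eps B (P.1.D i l) := by
    intro y l
    rw [map_add, MA.eps_d, zero_add, map_sum]
    refine Finset.sum_congr rfl fun i _ => ?_
    rw [map_mul, MA.eps_par]
  constructor
  · rintro ⟨g, hg⟩
    refine ⟨fun i => fa (algebraMap ℚ (MA B) (g i)), fun i => (emb B).memι _, ?_⟩
    intro (l : P.1.I)
    have h1 := (emb B).ι_dif P.1.D (fun i => algebraMap ℚ (MA B) (g i)) l
    have h2 : dif (mot B) ((emb B).el P).D (fun i => fa (algebraMap ℚ (MA B) (g i))) l =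
      fa (d (algebraMap ℚ (MA B) (g l)) +
        ∑ i, par (algebraMap ℚ (MA B) (g i)) * P.1.D i l) := h1.symm
    have h3 : fa (d (algebraMap ℚ (MA B) (g l)) +
        ∑ i, par (algebraMap ℚ (MA B) (g i)) * P.1.D i l) ∅ = fa (P.2 l) ∅ := by
      rw [fa_empty_inj]
      refine (key (fun i => algebraMap ℚ (MA B) (g i)) l).trans ?_
      have h4 := congrFun hg l
      change (0 : ℚ) + ∑ i, g i * MA.eps B (P.1.D i l) = MA.eps B (P.2 l) at h4
      rw [zero_add] at h4
      rw [← h4]
      refine Finset.sum_congr rfl fun i _ => ?_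
      rw [AlgHom.commutes]
      rfl
    exact (congrFun h2 ∅).trans h3
  · rintro ⟨g, hg, hg'⟩
    have h1 : ∀ i : P.1.I, ∃ x : MA B, fa x = g i := fun i => (mem_fa _).1 (hg i)
    choose y hy using h1
    have h2 : (fun i => fa (y i)) = g := funext hy
    subst h2
    refine ⟨fun i => MA.eps B (y i), ?_⟩
    funext l
    have h3 := hg' l
    have h4 := (emb B).ι_dif P.1.D y l
    have h5 : fa (d (y l) + ∑ i, par (y i) * P.1.D i l) ∅ = fa (P.2 l) ∅ :=
      (congrFun h4 ∅).trans h3
    rw [fa_empty_inj, key y l] at h5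
    change (0 : ℚ) + ∑ i, MA.eps B (y i) * MA.eps B (P.1.D i l) = MA.eps B (P.2 l)
    rw [zero_add]
    exact h5

end

end Pool.Agent.SPC.Raw
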