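import Pool.Agent.SPC.UPts

/-!
# SPC: products of different elements

From powers of an element of a direct sum to products of elements of the summands.
-/

noncomputable section

namespace Pool.Agent.SPC

universe u v

open SDG

section

variable {A : Type u} [Ring A] [Algebra ℚ A] [SDG A]

/-- A direct summand of the differential module. -/
theorem TC.Exact.restrict {N N' : TC A} (i : N.I → N'.I) (hi : Function.Injective i)
    (h1 : ∀ x y, N'.D (i x) (i y) = N.D x y)
    (h2 : ∀ z, (∀ x, i x ≠ z) → ∀ y, N'.D z (i y) = 0) {g : N'.I → A} (h : N'.Exact g) :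
    N.Exact fun x => g (i x) := by
  obtain ⟨g', rfl⟩ := h
  refine ⟨fun x => g' (i x), ?_⟩
  funext y
  rw [TC.dif_apply, TC.dif_apply]
  congr 1
  symm
  have h3 : ∑ x, par (g' (i x)) * N.D x y = ∑ z ∈ Finset.univ.image i, par (g' z) * N'.D z (i y) := by
    rw [Finset.sum_image fun a _ b _ hab => hi hab]
    refine Finset.sum_congr rfl fun x _ => ?_
    rw [h1]
  rw [h3]
  symm
  refine Finset.sum_subset (Finset.subset_univ _) fun z _ hz => ?_
  rw [h2 z (fun x hx => hz (Finset.mem_image.2 ⟨x, Finset.mem_univ x, hx⟩)) y, mul_zero]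

namespace PT

/-- The tensor product of finitely many pairs. -/
def prod : (n : ℕ) → (Fin n → PT A) → PT A
  | 0, _ => ⟨TC.one A, fun _ => 1⟩
  | n + 1, P => (P 0).tmul (prod n fun b => P b.succ)

theorem prod_zero (P : Fin 0 → PT A) : prod 0 P = ⟨TC.one A, fun _ => 1⟩ := rfl

theorem prod_succ (n : ℕ) (P : Fin (n + 1) → PT A) :
    prod (n + 1) P = (P 0).tmul (prod n fun b => P b.succ) := rfl

/-- The matrix of a direct sum. -/
def sD {n : ℕ} (P : Fin n → PT A) (x y : Σ b, (P b).1.I) : A :=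
  if h : x.1 = y.1 then (P y.1).1.D (h ▸ x.2) y.2 else 0

theorem sD_same {n : ℕ} (P : Fin n → PT A) (b : Fin n) (x y : (P b).1.I) :
    sD P ⟨b, x⟩ ⟨b, y⟩ = (P b).1.D x y := by
  unfold sD
  rw [dif_pos rfl]

theorem sD_ne {n : ℕ} (P : Fin n → PT A) {b c : Fin n} (h : b ≠ c) (x : (P b).1.I)
    (y : (P c).1.I) : sD P ⟨b, x⟩ ⟨c, y⟩ = 0 := by
  unfold sD
  rw [dif_neg h]

theorem sum_sD {n : ℕ} (P : Fin n → PT A) (g : (Σ b, (P b).1.I) → A) (c : Fin n)
    (y : (P c).1.I) : ∑ x, g x * sD P x ⟨c, y⟩ = ∑ x, g ⟨c, x⟩ * (P c).1.D x y := by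
  rw [Fintype.sum_sigma, Finset.sum_eq_single c]
  · refine Finset.sum_congr rfl fun x _ => ?_
    rw [sD_same]
  · intro b _ hb
    refine Finset.sum_eq_zero fun x _ => ?_
    rw [sD_ne P hb, mul_zero]
  · intro h
    exact absurd (Finset.mem_univ c) h

/-- The direct sum of finitely many pairs. -/
def dsum {n : ℕ} (P : Fin n → PT A) : PT A :=
  ⟨{ I := Σ b, (P b).1.I
     odd := fun x => (P x.1).1.odd x.2
     rk := fun x => (P x.1).1.rk x.2
     D := sD P
     par_D := by
       rintro ⟨b, x⟩ ⟨c, y⟩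
       by_cases h : b = c
       · subst h
         rw [sD_same]
         exact (P b).1.par_D x y
       · rw [sD_ne P h]
         exact IsPar.zero _
     tri := by
       rintro ⟨b, x⟩ ⟨c, y⟩ hr
       by_cases h : b = c
       · subst h
         rw [sD_same]
         exact (P b).1.tri x y hr
       · exact sD_ne P h x y
     flat := by
       rintro ⟨b, x⟩ ⟨c, y⟩
       rw [sum_sD P (fun z => par (sD P ⟨b, x⟩ z)) c y]
       by_cases h : b = c
       · subst h
         rw [sD_same]
         refine Eq.trans ?_ ((P b).1.flat x y)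
         congr 1
         refine Finset.sum_congr rfl fun z _ => ?_
         rw [sD_same]
       · rw [sD_ne P h, map_zero, zero_add]
         refine Finset.sum_eq_zero fun z _ => ?_
         rw [sD_ne P h, map_zero, zero_mul] }, fun x => (P x.1).2 x.2⟩

theorem dsum_even {n : ℕ} {P : Fin n → PT A} (h : ∀ b, (P b).Even) : (dsum P).Even :=
  fun x => h x.1 x.2

theorem dsum_dif {n : ℕ} (P : Fin n → PT A) (g : (Σ b, (P b).1.I) → A) (c : Fin n)
    (y : (P c).1.I) : (dsum P).1.dif g ⟨c, y⟩ = (P c).1.dif (fun x => g ⟨c, x⟩) y := by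
  rw [TC.dif_apply, TC.dif_apply]
  congr 1
  exact sum_sD P (fun x => par (g x)) c y

theorem dsum_closed {n : ℕ} {P : Fin n → PT A} (h : ∀ b, (P b).Closed) : (dsum P).Closed := by
  funext ⟨c, y⟩
  exact (dsum_dif P (fun x => (P x.1).2 x.2) c y).trans (congrFun (h c) y)

theorem dsum_exact {n : ℕ} {P : Fin n → PT A} (h : ∀ b, (P b).Exact) : (dsum P).Exact := by
  choose g hg using h
  refine ⟨fun x => g x.1 x.2, ?_⟩
  funext ⟨c, y⟩
  exact (dsum_dif P (fun x => g x.1 x.2) c y).trans (congrFun (hg c) y)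

theorem dsum_len {n : ℕ} {P : Fin n → PT A} {l : ℕ} (h : ∀ b, (P b).Len l) : (dsum P).Len l :=
  fun x => h x.1 x.2

theorem map_dsum {A' : Type v} [Ring A'] [Algebra ℚ A'] [SDG A'] (φ : SHom A A') {n : ℕ}
    (P : Fin n → PT A) : (dsum P).map φ = dsum fun b => (P b).map φ := by
  refine ext' ?_ rfl
  funext x y
  obtain ⟨b, x⟩ := x
  obtain ⟨c, y⟩ := y
  change φ (sD P ⟨b, x⟩ ⟨c, y⟩) = sD (fun b => (P b).map φ) ⟨b, x⟩ ⟨c, y⟩
  by_cases h : b = c
  · subst h
    rw [sD_same P, sD_same (fun b => (P b).map φ)]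
    rfl
  · rw [sD_ne P h, sD_ne (fun b => (P b).map φ) h, map_zero]

/-- The product of the components is a direct summand of the power of the direct sum. -/
theorem exists_summand {n : ℕ} (P : Fin n → PT A) : ∀ (k : ℕ) (β : Fin k → Fin n),
    ∃ i : (prod k fun b => P (β b)).1.I → ((dsum P).pow k).1.I, Function.Injective i ∧
      (∀ x y, ((dsum P).pow k).1.D (i x) (i y) = (prod k fun b => P (β b)).1.D x y) ∧
      (∀ z, (∀ x, i x ≠ z) → ∀ y, ((dsum P).pow k).1.D z (i y) = 0) ∧
      (∀ x, ((dsum P).pow k).1.odd (i x) = (prod k fun b => P (β b)).1.odd x) ∧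
      ∀ x, ((dsum P).pow k).2 (i x) = (prod k fun b => P (β b)).2 x := by
  intro k
  induction k with
  | zero =>
    intro β
    exact ⟨fun x => x, fun _ _ h => h, fun _ _ => rfl, fun z hz => absurd rfl (hz z), fun _ => rfl,
      fun _ => rfl⟩
  | succ k ih =>
    intro β
    obtain ⟨i, hi, h1, h2, h3, h4⟩ := ih fun b => β b.succ
    refine ⟨fun x => (⟨β 0, x.1⟩, i x.2), ?_, ?_, ?_, ?_, ?_⟩
    · rintro ⟨x, s⟩ ⟨y, t⟩ h
      have e1 : (⟨β 0, x⟩ : Σ b, (P b).1.I) = ⟨β 0, y⟩ := congrArg Prod.fst h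
      have e2 : i s = i t := congrArg Prod.snd h
      have e3 : x = y := eq_of_heq (Sigma.mk.inj e1).2
      rw [e3, hi e2]
    · rintro ⟨x, s⟩ ⟨y, t⟩
      change TC.tD (dsum P).1 ((dsum P).pow k).1 (⟨β 0, x⟩, i s) (⟨β 0, y⟩, i t) =
        TC.tD (P (β 0)).1 (prod k fun b => P (β b.succ)).1 (x, s) (y, t)
      unfold TC.tD
      congr 1
      · by_cases hst : s = t
        · subst hst
          rw [if_pos rfl, if_pos rfl]
          exact sD_same P (β 0) x y
        · rw [if_neg hst, if_neg fun h => hst (hi h)]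
      · by_cases hxy : x = y
        · subst hxy
          rw [if_pos rfl, if_pos rfl]
          change sgn ((P (β 0)).1.odd x) • parP A ((P (β 0)).1.odd x)
            (((dsum P).pow k).1.D (i s) (i t)) = _
          rw [h1]
        · rw [if_neg hxy, if_neg]
          intro h
          exact hxy (eq_of_heq (Sigma.mk.inj h).2)
    · rintro ⟨a, s⟩ hz ⟨y, t⟩
      change TC.tD (dsum P).1 ((dsum P).pow k).1 (a, s) (⟨β 0, y⟩, i t) = 0
      unfold TC.tD
      have e1 : (if s = i t then (dsum P).1.D a ⟨β 0, y⟩ else 0) = 0 := by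
        split_ifs with hs
        · obtain ⟨b, x⟩ := a
          by_cases hb : b = β 0
          · subst hb
            exact absurd (by rw [hs]) (hz (x, t))
          · exact sD_ne P hb x y
        · rfl
      have e2 : (if a = ⟨β 0, y⟩ then sgn ((dsum P).1.odd a) • parP A ((dsum P).1.odd a)
          (((dsum P).pow k).1.D s (i t)) else 0) = 0 := by
        split_ifs with ha
        · have h5 : ∀ x, i x ≠ s := by
            intro x hx
            refine hz (y, x) ?_
            change ((⟨β 0, y⟩, i x) : (dsum P).1.I × ((dsum P).pow k).1.I) = (a, s)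
            rw [hx, ha]
            rfl
          rw [h2 s h5 t, map_zero, smul_zero]
        · rfl
      exact (congrArg₂ (· + ·) e1 e2).trans (add_zero _)
    · rintro ⟨x, s⟩
      change ((P (β 0)).1.odd x ^^ ((dsum P).pow k).1.odd (i s)) =
        ((P (β 0)).1.odd x ^^ (prod k fun b => P (β b.succ)).1.odd s)
      rw [h3]
    · rintro ⟨x, s⟩
      change (P (β 0)).2 x * parP A ((P (β 0)).1.odd x) (((dsum P).pow k).2 (i s)) =
        (P (β 0)).2 x * parP A ((P (β 0)).1.odd x) ((prod k fun b => P (β b.succ)).2 s)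
      rw [h4]

theorem prod_exact {n : ℕ} (P : Fin n → PT A) (h : ((dsum P).pow n).Exact) :
    (prod n P).Exact := by
  obtain ⟨i, hi, h1, h2, _, h4⟩ := exists_summand P n id
  have h5 := TC.Exact.restrict i hi h1 h2 h
  have h6 : (fun x => ((dsum P).pow n).2 (i x)) = (prod n fun b => P (id b)).2 :=
    funext fun x => h4 x
  rw [h6] at h5
  exact h5

theorem map_prod {A' : Type v} [Ring A'] [Algebra ℚ A'] [SDG A'] (φ : SHom A A') {n : ℕ}
    (P : Fin n → PT A) : (prod n P).map φ = prod n fun b => (P b).map φ := by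
  induction n with
  | zero =>
    refine ext' ?_ ?_
    · funext x y
      exact map_zero φ
    · funext x
      exact map_one φ
  | succ n ih => rw [prod_succ, map_tmul, ih, prod_succ]

end PT

end

/-- Products of different elements: the uniform theorem. -/
theorem DGF.uniform_prod (A : DGF.{u}) {k : Type u} [Field k] [IsAlgClosed k] [CharZero k]
    {R : Type u} [CommRing R] [IsDomain R] [HasRat R] [Algebra k R] [Algebra.FiniteType k R]
    {K : Type u} [Field K] [CharZero K] [Algebra k K] (p q : R →ₐ[k] K) (l : ℕ) :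
    ∃ N : ℕ, ∀ P : Fin N → PT (A.obj R), (∀ j, (P j).Even) → (∀ j, (P j).Closed) →
      (∀ j, (P j).Len l) → (∀ j, (A.bc (p : R →+* K) (P j)).Exact) →
        (PT.prod N fun j => A.bc (q : R →+* K) (P j)).Exact := by
  obtain ⟨N, hN⟩ := A.uniform_points p q l
  refine ⟨N, fun P h1 h2 h3 h4 => ?_⟩
  have h5 : (A.bc (p : R →+* K) (PT.dsum P)).Exact := by
    unfold bc
    rw [PT.map_dsum]
    exact PT.dsum_exact h4
  have h6 := (hN (PT.dsum P) (PT.dsum_even h1) (PT.dsum_closed h2) (PT.dsum_len h3)).1 h5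
  unfold bc at h6
  rw [PT.map_dsum] at h6
  exact PT.prod_exact _ h6

end Pool.Agent.SPC
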