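import Pool.Agent.SPC.Raw
import Pool.Agent.SPC.Cons
import Pool.Agent.SPC.UProd

/-!
# Translation of twisted complexes into explicit data
-/

noncomputable section

namespace Pool.Agent.SPC.Raw

universe u v w w'

open SDG

/-- The differential ring `A` is the part `mem` of `C`. -/
structure Emb (A : Type u) [Ring A] [Algebra ℚ A] [SDG A] {C : Type v} [AddCommGroup C]
    (O : Ops C) where
  ι : A →+ C
  inj : Function.Injective ι
  map_mul : ∀ a b, ι (a * b) = O.mul (ι a) (ι b)
  map_one : ι 1 = O.one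
  map_par : ∀ a, ι (par a) = O.par (ι a)
  map_d : ∀ a, ι (d a) = O.d (ι a)
  mem : ∀ c, O.mem c ↔ ∃ a, ι a = c

/-- Equality of complexes with the same underlying data. -/
theorem Cx.ext' {C : Type u} {I : Type} [Fintype I] [DecidableEq I] {odd : I → Bool} {rk : I → ℕ}
    {D D' : I → I → C} (hD : D = D') : (⟨I, odd, rk, D⟩ : Cx C) = ⟨I, odd, rk, D'⟩ := by
  rw [hD]

/-- Equality of complexes with elements with the same underlying data. -/
theorem El.ext' {C : Type u} {I : Type} [Fintype I] [DecidableEq I] {odd : I → Bool} {rk : I → ℕ}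
    {D D' : I → I → C} {f f' : I → C} (hD : D = D') (hf : f = f') :
    (⟨⟨I, odd, rk, D⟩, f⟩ : El C) = ⟨⟨I, odd, rk, D'⟩, f'⟩ := by
  rw [hD, hf]

namespace Emb

variable {A : Type u} [Ring A] [Algebra ℚ A] [SDG A] {C : Type v} [AddCommGroup C] {O : Ops C}
  (E : Emb A O) {A' : Type w} [Ring A'] [Algebra ℚ A'] [SDG A'] {C' : Type w'} [AddCommGroup C']
  {O' : Ops C'} (E' : Emb A' O')

theorem memι (a : A) : O.mem (E.ι a) := (E.mem _).2 ⟨a, rfl⟩

theorem par_iff {s : Bool} {a : A} : Par O s (E.ι a) ↔ IsPar s a := by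
  unfold Par IsPar
  rw [← E.map_par]
  cases s
  · rw [sgn_false, one_smul]
    simp only [Bool.false_eq_true, if_false]
    exact ⟨fun h => E.inj h.2, fun h => ⟨E.memι a, by rw [h]⟩⟩
  · rw [sgn_true, neg_one_smul]
    simp only [if_true]
    constructor
    · intro h
      apply E.inj
      rw [h.2, map_neg]
    · intro h
      exact ⟨E.memι a, by rw [h, map_neg]⟩

theorem exists_ι {s : Bool} {c : C} (h : Par O s c) : ∃ a, E.ι a = c := (E.mem c).1 h.1

theorem ι_dif {I : Type} [Fintype I] (D : I → I → A) (f : I → A) (l : I) :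
    E.ι (d (f l) + ∑ i, par (f i) * D i l) =
      dif O (fun i j => E.ι (D i j)) (fun i => E.ι (f i)) l := by
  unfold dif
  rw [map_add, map_sum, E.map_d]
  congr 1
  refine Finset.sum_congr rfl fun i _ => ?_
  rw [E.map_mul, E.map_par]

/-- The data of a twisted complex. -/
def cx (M : TC A) : Cx C := ⟨M.I, M.odd, M.rk, fun i j => E.ι (M.D i j)⟩

/-- The data of a twisted complex with element. -/
def el (P : PT A) : El C := ⟨E.cx P.1, fun i => E.ι (P.2 i)⟩

theorem isCx (M : TC A) : IsCx O (E.cx M) where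
  par_D i j := E.par_iff.2 (M.par_D i j)
  tri i j h := by
    change E.ι (M.D i j) = 0
    rw [M.tri i j h, map_zero]
  flat i j :=
    (E.ι_dif M.D (M.D i) j).symm.trans ((congrArg E.ι (M.flat i j)).trans (map_zero E.ι))

theorem exists_cx (N : Cx C) (hN : IsCx O N) : ∃ M : TC A, E.cx M = N := by
  obtain ⟨I, odd, rk, D⟩ := N
  have h1 : ∀ x : I × I, ∃ a, E.ι a = D x.1 x.2 := fun x => E.exists_ι (hN.par_D x.1 x.2)
  choose D' hD' using h1
  have h2 : (fun i j => E.ι (D' (i, j))) = D := by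
    funext i j
    exact hD' (i, j)
  subst h2
  exact ⟨{ I := I
           odd := odd
           rk := rk
           D := fun i j => D' (i, j)
           par_D := fun i j => E.par_iff.1 (hN.par_D i j)
           tri := fun i j h => E.inj (by rw [map_zero]; exact hN.tri i j h)
           flat := fun i j => E.inj
            ((E.ι_dif (fun i j => D' (i, j)) (fun j => D' (i, j)) j).trans
              ((hN.flat i j).trans (map_zero E.ι).symm)) }, rfl⟩

theorem exists_el (Q : El C) (hQ : IsCx O Q.toCx) (hf : ∀ i, O.mem (Q.f i)) :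
    ∃ P : PT A, E.el P = Q := by
  obtain ⟨N, f⟩ := Q
  obtain ⟨M, rfl⟩ := E.exists_cx N hQ
  have h1 : ∀ i : M.I, ∃ a, E.ι a = f i := fun i => (E.mem _).1 (hf i)
  choose f' hf' using h1
  refine ⟨⟨M, f'⟩, ?_⟩
  have h2 : (fun i => E.ι (f' i)) = f := funext hf'
  subst h2
  rfl

theorem cx_tmul (M N : TC A) : E.cx (M.tmul N) = tmul O (E.cx M) (E.cx N) := by
  refine Cx.ext' ?_
  funext x y
  change E.ι (TC.tD M N x y) = (if x.2 = y.2 then E.ι (M.D x.1 y.1) else 0) +
    (if x.1 = y.1 then if M.odd x.1 then -O.par (E.ι (N.D x.2 y.2)) else E.ι (N.D x.2 y.2) else 0)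
  unfold TC.tD
  rw [map_add]
  congr 1
  · split_ifs
    · rfl
    · exact map_zero _
  · by_cases h : x.1 = y.1
    · rw [if_pos h, if_pos h]
      cases M.odd x.1
      · simp
      · simp only [if_true]
        rw [sgn_true, neg_one_smul, map_neg, parP_true, E.map_par]
    · rw [if_neg h, if_neg h, map_zero]

theorem el_tmul (P Q : PT A) : E.el (P.tmul Q) = tmulE O (E.el P) (E.el Q) := by
  have h1 : (E.el (P.tmul Q)).toCx = (tmulE O (E.el P) (E.el Q)).toCx := E.cx_tmul P.1 Q.1
  refine El.ext' ?_ ?_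
  · funext x y
    have h2 : (E.el (P.tmul Q)).toCx = tmul O (E.cx P.1) (E.cx Q.1) := h1
    change E.ι (TC.tD P.1 Q.1 x y) = (if x.2 = y.2 then E.ι (P.1.D x.1 y.1) else 0) +
      (if x.1 = y.1 then if P.1.odd x.1 then -O.par (E.ι (Q.1.D x.2 y.2))
        else E.ι (Q.1.D x.2 y.2) else 0)
    unfold TC.tD
    rw [map_add]
    congr 1
    · split_ifs
      · rfl
      · exact map_zero _
    · by_cases h : x.1 = y.1
      · rw [if_pos h, if_pos h]
        cases P.1.odd x.1
        · simp
        · simp only [if_true]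
          rw [sgn_true, neg_one_smul, map_neg, parP_true, E.map_par]
      · rw [if_neg h, if_neg h, map_zero]
  · funext x
    change E.ι (P.2 x.1 * parP A (P.1.odd x.1) (Q.2 x.2)) = O.mul (E.ι (P.2 x.1))
      (if P.1.odd x.1 then O.par (E.ι (Q.2 x.2)) else E.ι (Q.2 x.2))
    rw [E.map_mul]
    congr 1
    cases P.1.odd x.1
    · simp
    · simp only [if_true]
      rw [parP_true, E.map_par]

theorem el_one : E.el ⟨TC.one A, fun _ => 1⟩ = oneE O := by
  refine El.ext' ?_ ?_
  · funext x y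
    exact map_zero _
  · funext x
    exact E.map_one

theorem el_prod (n : ℕ) : ∀ P : Fin n → PT A, E.el (PT.prod n P) = prod O n fun j => E.el (P j) := by
  induction n with
  | zero => exact fun _ => E.el_one
  | succ n ih =>
    intro P
    rw [PT.prod_succ, E.el_tmul, ih]
    rfl

theorem _root_.Pool.Agent.SPC.PT.pow_eq_prod (P : PT A) : ∀ n : ℕ, P.pow n = PT.prod n fun _ => P
  | 0 => rfl
  | n + 1 => by
    rw [PT.prod_succ, ← PT.pow_eq_prod P n]
    rfl

theorem el_pow (P : PT A) (n : ℕ) : E.el (P.pow n) = prod O n fun _ => E.el P := by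
  rw [PT.pow_eq_prod, E.el_prod]

theorem evenCycle_iff {P : PT A} {l : ℕ} :
    EvenCycle O l (E.el P) ↔ P.Even ∧ P.Closed ∧ P.Len l := by
  constructor
  · rintro ⟨_, h2, h3, h4⟩
    refine ⟨fun i => E.par_iff.1 (h2 i), ?_, h4⟩
    funext i
    exact E.inj ((E.ι_dif P.1.D P.2 i).trans ((h3 i).trans (map_zero E.ι).symm))
  · rintro ⟨h1, h2, h3⟩
    exact ⟨E.isCx P.1, fun i => E.par_iff.2 (h1 i), fun i => (E.ι_dif P.1.D P.2 i).symm.trans
      ((congrArg E.ι (congrFun h2 i)).trans (map_zero E.ι)), h3⟩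

theorem exists_el_of_evenCycle {Q : El C} {l : ℕ} (h : EvenCycle O l Q) :
    ∃ P : PT A, E.el P = Q ∧ P.Even ∧ P.Closed ∧ P.Len l := by
  obtain ⟨P, rfl⟩ := E.exists_el Q h.isCx fun i => (h.even i).1
  exact ⟨P, rfl, E.evenCycle_iff.1 h⟩

/-- Exactness after base change. -/
theorem exactAt_iff {g : SHom A A'} {φ : C → C'} (h : ∀ a, φ (E.ι a) = E'.ι (g a)) (P : PT A) :
    ExactAt O' φ (E.el P) ↔ (P.map g).Exact := by
  constructor
  · rintro ⟨y, hy, hy'⟩
    have h1 : ∀ i : P.1.I, ∃ a, E'.ι a = y i := fun i => (E'.mem _).1 (hy i)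
    choose y' hy1 using h1
    have h2 : (fun i => E'.ι (y' i)) = y := funext hy1
    subst h2
    have h4 : (fun i j => φ ((E.el P).D i j)) = fun i j => E'.ι (g (P.1.D i j)) := by
      funext i j
      exact h _
    refine ⟨y', funext fun l => E'.inj ?_⟩
    have h3 := hy' l
    rw [h4] at h3
    exact (E'.ι_dif (fun i j => g (P.1.D i j)) y' l).trans (h3.trans (h _))
  · rintro ⟨y, hy⟩
    refine ⟨fun i => E'.ι (y i), fun i => E'.memι _, fun l => ?_⟩
    have h4 : (fun i j => φ ((E.el P).D i j)) = fun i j => E'.ι (g (P.1.D i j)) := by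
      funext i j
      exact h _
    rw [h4]
    exact (E'.ι_dif (fun i j => g (P.1.D i j)) y l).symm.trans
      ((congrArg E'.ι (congrFun hy l)).trans (h _).symm)

theorem exact_iff (P : PT A) : ExactAt O id (E.el P) ↔ P.Exact := by
  have h1 := E.exactAt_iff E (g := SHom.id A) (φ := id) (fun a => rfl) P
  rw [h1]
  exact Iff.rfl

theorem contractible {M : TC A} (h : M.Contractible) : Contractible O (E.cx M) := by
  obtain ⟨h, h1, h2⟩ := h
  refine ⟨fun i j => E.ι (h i j), fun i j => E.par_iff.2 (h1 i j), ?_⟩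
  intro (i : M.I) (l : M.I)
  have h3 := congrArg E.ι (h2 i l)
  rw [map_add, map_sum, apply_ite E.ι, E.map_one, map_zero,
    E.ι_dif (fun j l => M.D j l) (fun j => h i j) l] at h3
  refine h3.trans ?_
  simp only [E.map_mul, E.map_par]
  rfl

theorem isMap {X Y : TC A} {φ : X.I → Y.I → A} (h : TC.IsMap X Y φ) :
    IsMap O (E.cx X) (E.cx Y) fun i j => E.ι (φ i j) := by
  refine ⟨fun i j => E.par_iff.2 (h.even i j), ?_⟩
  intro (i : X.I) (l : Y.I)
  have h1 := congrArg E.ι (h.closed i l)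
  rw [map_sum, E.ι_dif (fun j l => Y.D j l) (fun j => φ i j) l] at h1
  refine h1.trans ?_
  simp only [E.map_mul]
  rfl

theorem retr {Y X : TC A} (h : TC.Retr Y X) : Retr O (E.cx Y) (E.cx X) := by
  obtain ⟨φ, hφ, ψ, hψ, h, hh, he⟩ := h
  refine ⟨fun i j => E.ι (φ i j), fun i j => E.ι (ψ i j), fun i j => E.ι (h i j), E.isMap hφ,
    E.isMap hψ, fun i j => E.par_iff.2 (hh i j), ?_⟩
  intro (i : Y.I) (l : Y.I)
  have h3 := congrArg E.ι (he i l)
  rw [map_add, map_sub, map_sum, map_sum, apply_ite E.ι, E.map_one, map_zero,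
    E.ι_dif (fun j l => Y.D j l) (fun j => h i j) l] at h3
  simp only [E.map_mul, E.map_par] at h3
  exact h3

theorem thick {M X : TC A} (h : TC.Thick M X) : Thick O (E.cx M) (E.cx X) := by
  induction h with
  | self => exact Thick.self
  | left X Y _ ih =>
    rw [E.cx_tmul]
    exact Thick.left _ _ (E.isCx Y) ih
  | right X Y _ ih =>
    rw [E.cx_tmul]
    exact Thick.right _ _ (E.isCx Y) ih
  | shift X _ ih =>
    have h1 : E.cx X.sh = sh O (E.cx X) := by
      refine Cx.ext' ?_
      funext i j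
      change E.ι (-par (X.D i j)) = -O.par (E.ι (X.D i j))
      rw [map_neg, E.map_par]
    rw [h1]
    exact Thick.shift _ ih
  | ext X P h _ _ ih1 ih2 =>
    refine Thick.ext (E.cx X) P (E.isCx X) (fun i l hi hl => ?_) ih1 ih2
    change E.ι (X.D i l) = 0
    rw [h i l hi hl, map_zero]
  | retract X Y hr _ ih => exact Thick.retract _ _ (E.isCx Y) (E.retr hr) ih

end Emb

end Pool.Agent.SPC.Raw
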