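import Pool.Agent.GSM.GoDown
import Pool.Agent.GSM.PointC

/-!
# Points of a domain: relations that contain the curve steps

`CurveRel rel`: an equivalence relation on the `K`-valued points of a ring `R` which, for every curve
`C` over an algebraically closed field `k₁` through which two points factor, relates the point given by
an embedding of the function field of `C` in `K` to every `k₁`-point of `C`. Over an algebraically
closed field `k` of characteristic zero such a relation relates every point of a finitely generated
`k`-algebra to every constant point of its closure.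
-/

noncomputable section

namespace Pool.Agent.SPC

open Pool.Agent.GSM

universe u v

/-- A relation on the points of `R` with values in `K` that contains the curve steps. -/
structure CurveRel {R : Type v} [CommRing R] {K : Type u} [Field K]
    (rel : (R →+* K) → (R →+* K) → Prop) : Prop where
  refl : ∀ p, rel p p
  symm : ∀ p q, rel p q → rel q p
  trans : ∀ p q r, rel p q → rel q r → rel p r
  step : ∀ {k₁ : Type u} [Field k₁] [IsAlgClosed k₁] [CharZero k₁] {L : Type u} [Field L]
    [Algebra k₁ L] (C : Subalgebra k₁ L), C.FG →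
    IntermediateField.adjoin k₁ (C : Set L) = ⊤ → Algebra.trdeg k₁ L = 1 →
    ∀ (q : C →ₐ[k₁] k₁) [Algebra k₁ K] (f : L →ₐ[k₁] K) (g : R →+* C),
      rel (((f : L →+* K).comp (C.val : C →+* L)).comp g)
        (((algebraMap k₁ K).comp (q : C →+* k₁)).comp g)

/-- algebraic over `R` implies algebraic over `S` if the image of `R` is in the image of `S` -/
private theorem relTo_lift {R S K : Type*} [CommRing R] [CommRing S] [Field K] (f : R →+* K)
    (hf : Function.Injective f) (g : S →+* K) (h : ∀ r, f r ∈ g.range) (x : K)
    (hx : ∃ P : Polynomial R, P ≠ 0 ∧ P.eval₂ f x = 0) :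
    ∃ P : Polynomial S, P ≠ 0 ∧ P.eval₂ g x = 0 := by
  obtain ⟨P, hP, h0⟩ := hx
  have h1 : P.map f ∈ Polynomial.lifts g := by
    rw [Polynomial.lifts_iff_coeff_lifts]
    intro n
    rw [Polynomial.coeff_map]
    exact h _
  rw [Polynomial.mem_lifts] at h1
  obtain ⟨Q, hQ⟩ := h1
  refine ⟨Q, ?_, ?_⟩
  · rintro rfl
    rw [Polynomial.map_zero] at hQ
    exact hP ((Polynomial.map_eq_zero_iff hf).1 hQ.symm)
  · rw [← Polynomial.eval_map, hQ, Polynomial.eval_map, h0]

/-- algebraicity over the algebra generated by a set in an intermediate field -/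
private theorem relTo_descend {F E K : Type*} [Field F] [Field E] [Field K] [Algebra F E]
    [Algebra E K] [Algebra F K] [IsScalarTower F E K] (s : Set E) (y : E)
    (h : IsAlgebraic (Algebra.adjoin F (algebraMap E K '' s)) (algebraMap E K y)) :
    IsAlgebraic (Algebra.adjoin F s) y := by
  obtain ⟨P, hP, h0⟩ := h
  have h1 : ∃ Q : Polynomial (Algebra.adjoin F s), Q ≠ 0 ∧
      Q.eval₂ ((algebraMap E K).comp (algebraMap (Algebra.adjoin F s) E)) (algebraMap E K y) = 0 := by
    refine relTo_lift (algebraMap (Algebra.adjoin F (algebraMap E K '' s)) K)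
      Subtype.val_injective _ ?_ _ ⟨P, hP, h0⟩
    rintro ⟨r, hr⟩
    have h2 : Algebra.adjoin F (algebraMap E K '' s) =
        (Algebra.adjoin F s).map (IsScalarTower.toAlgHom F E K) := by
      rw [AlgHom.map_adjoin]
      rfl
    rw [h2] at hr
    obtain ⟨z, hz, hzr⟩ := hr
    exact ⟨⟨z, hz⟩, hzr⟩
  obtain ⟨Q, hQ, hQ0⟩ := h1
  refine ⟨Q, hQ, ?_⟩
  rw [Polynomial.aeval_def]
  apply (algebraMap E K).injective
  rw [Polynomial.hom_eval₂, hQ0, map_zero]

theorem exists_step_rel {k : Type u} [Field k] [IsAlgClosed k] [CharZero k] {K : Type u} [Field K]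
    [IsAlgClosed K] [Algebra k K] {R : Type v} [CommRing R] [Algebra k R]
    [Algebra.FiniteType k R] (p : R →ₐ[k] K) (a : R →ₐ[k] k)
    (ha : RingHom.ker p ≤ RingHom.ker a) (n : ℕ) (h : Algebra.trdeg k p.range = n + 1)
    {rel : (R →+* K) → (R →+* K) → Prop} (hrel : CurveRel rel) :
    ∃ q : R →ₐ[k] K, RingHom.ker q ≤ RingHom.ker a ∧ Algebra.trdeg k q.range ≤ n ∧
      rel (p : R →+* K) (q : R →+* K) := by
  classical
  have hFT : Algebra.FiniteType k p.range :=
    Algebra.FiniteType.of_surjective p.rangeRestrict (AlgHom.rangeRestrict_surjective p)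
  obtain ⟨aB, haB⟩ : ∃ aB : p.range →ₐ[k] k, ∀ r : R, aB ⟨p r, r, rfl⟩ = a r := by
    refine ⟨AlgHom.liftOfSurjective p.rangeRestrict (AlgHom.rangeRestrict_surjective p) a ?_, ?_⟩
    · intro r hr
      refine ha ?_
      have h1 : p.rangeRestrict r = 0 := hr
      have h2 := congrArg (fun z : p.range => (z : K)) h1
      exact h2
    · intro r
      exact AlgHom.liftOfSurjective_apply p.rangeRestrict (AlgHom.rangeRestrict_surjective p) a _ r
  obtain ⟨x, t, 𝔭, hprime, h𝔭a, ht𝔭, hind0, hintB, hP, hint⟩ := exists_divisor aB n h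
  have hind : AlgebraicIndependent k
      (fun i => ((Fin.cons t x : Fin (n + 1) → p.range) i : K)) :=
    hind0.map' (f := p.range.val) Subtype.val_injective
  obtain ⟨T0, hT0⟩ : ∃ T0 : Set K, T0 = Set.range (fun i : Fin n => (x i : K)) := ⟨_, rfl⟩
  have htr1 : Transcendental (Algebra.adjoin k T0) (t : K) := by
    have h1 := hind.transcendental_adjoin (s := {0}ᶜ) (i := 0) (by simp)
    have h2 : (fun i => ((Fin.cons t x : Fin (n + 1) → p.range) i : K)) '' {0}ᶜ = T0 := by
      rw [hT0]
      ext z
      constructor
      · rintro ⟨i, hi, rfl⟩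
        obtain ⟨j, rfl⟩ := Fin.exists_succ_eq.2 hi
        exact ⟨j, by simp⟩
      · rintro ⟨j, rfl⟩
        exact ⟨j.succ, Fin.succ_ne_zero j, by simp⟩
    rw [h2] at h1
    exact h1
  have hT0c : Cardinal.mk T0 ≤ n := by
    have h1 : T0 = ((Finset.univ.image fun i : Fin n => (x i : K) : Finset K) : Set K) := by
      rw [hT0]
      simp
    rw [h1, Finset.coe_sort_coe, Cardinal.mk_coe_finset]
    have h2 : (Finset.univ.image fun i : Fin n => (x i : K)).card ≤ n :=
      Finset.card_image_le.trans (by simp)
    exact_mod_cast h2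
  let F : IntermediateField k K := IntermediateField.adjoin k T0
  have htrF : Transcendental F (t : K) := IntermediateField.transcendental_adjoin_iff.2 htr1
  let k₁ : IntermediateField F K := algebraicClosure F K
  have hst : IsScalarTower k k₁ K := IsScalarTower.of_algebraMap_eq (fun c => rfl)
  have hk₁ : IsAlgClosed k₁ := IsAlgClosure.isAlgClosed F
  have hk₁c : CharZero k₁ := charZero_of_injective_algebraMap (algebraMap k k₁).injective
  have htrk : AlgebraicIndependent k₁ (fun _ : PUnit.{u + 1} => (t : K)) :=
    AlgebraicIndependent.algebraicClosure (algebraicIndependent_unique_type_iff.2 htrF)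
  have hTk : ∀ z ∈ T0, z ∈ k₁ := by
    intro z hz
    have hzF : z ∈ F := IntermediateField.subset_adjoin k T0 hz
    exact k₁.algebraMap_mem (⟨z, hzF⟩ : F)
  -- the transcendence degree of `k₁`
  have hk₁d : Algebra.trdeg k k₁ ≤ n := by
    have h1 : Algebra.IsAlgebraic
        (Algebra.adjoin k ((fun y : k₁ => (y : K)) ⁻¹' T0)) k₁ := by
      constructor
      intro y
      refine relTo_descend (K := K) _ _ ?_
      have h2 : algebraMap k₁ K '' ((fun y : k₁ => (y : K)) ⁻¹' T0) = T0 := by
        refine Set.image_preimage_eq_of_subset ?_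
        intro z hz
        exact ⟨⟨z, hTk z hz⟩, rfl⟩
      rw [h2, ← IntermediateField.isAlgebraic_adjoin_iff]
      exact mem_algebraicClosure_iff.1 y.2
    refine (Algebra.IsAlgebraic.trdeg_le_cardinalMk k
      ((fun y : k₁ => (y : K)) ⁻¹' T0)).trans ?_
    exact (Cardinal.mk_preimage_of_injective _ _ Subtype.val_injective).trans hT0c
  -- the fields and algebras
  let L : IntermediateField k₁ K := IntermediateField.adjoin k₁ (p.range : Set K)
  have hpL : ∀ r : R, p r ∈ L := fun r =>
    IntermediateField.subset_adjoin k₁ _ ⟨r, rfl⟩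
  have hBL : ∀ b : p.range, (b : K) ∈ L := fun b =>
    IntermediateField.subset_adjoin k₁ _ b.2
  obtain ⟨S, hS⟩ := Algebra.FiniteType.out (R := k) (A := R)
  let C : Subalgebra k₁ L := Algebra.adjoin k₁ ((fun r : R => (⟨p r, hpL r⟩ : L)) '' (S : Set R))
  have hC : C.FG := by
    rw [Subalgebra.fg_def]
    exact ⟨_, (S.finite_toSet.image _), rfl⟩
  have hpC : ∀ r : R, (⟨p r, hpL r⟩ : L) ∈ C := by
    intro r
    have hr : r ∈ Algebra.adjoin k (S : Set R) := by
      rw [hS]
      exact Algebra.mem_top
    induction hr using Algebra.adjoin_induction with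
    | mem y hy => exact Algebra.subset_adjoin ⟨y, hy, rfl⟩
    | algebraMap c =>
      have : (⟨p (algebraMap k R c), hpL _⟩ : L) = algebraMap k₁ L (algebraMap k k₁ c) := by
        apply Subtype.ext
        change p (algebraMap k R c) = algebraMap k K c
        exact p.commutes c
      rw [this]
      exact C.algebraMap_mem _
    | add y z _ _ hy hz =>
      have : (⟨p (y + z), hpL _⟩ : L) = ⟨p y, hpL y⟩ + ⟨p z, hpL z⟩ := by
        apply Subtype.ext
        exact map_add p y z
      rw [this]
      exact C.add_mem hy hz
    | mul y z _ _ hy hz =>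
      have : (⟨p (y * z), hpL _⟩ : L) = ⟨p y, hpL y⟩ * ⟨p z, hpL z⟩ := by
        apply Subtype.ext
        exact map_mul p y z
      rw [this]
      exact C.mul_mem hy hz
  have hBC : ∀ b : p.range, (⟨(b : K), hBL b⟩ : L) ∈ C := by
    rintro ⟨_, r, rfl⟩
    exact hpC r
  have hgen : IntermediateField.adjoin k₁ (C : Set L) = ⊤ := by
    rw [eq_top_iff]
    intro y _
    rw [← IntermediateField.mem_lift]
    have h1 : L ≤ IntermediateField.lift (IntermediateField.adjoin k₁ (C : Set L)) := by
      rw [IntermediateField.adjoin_le_iff]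
      rintro _ ⟨r, rfl⟩
      refine (IntermediateField.mem_lift (⟨p r, hpL r⟩ : L)).2 ?_
      exact IntermediateField.subset_adjoin k₁ _ (hpC r)
    exact h1 y.2
  have htr : Algebra.trdeg k₁ L = 1 := by
    have htL : (t : K) ∈ L := hBL t
    have hb : IsTranscendenceBasis k₁ (fun _ : PUnit.{u + 1} => (⟨(t : K), htL⟩ : L)) := by
      rw [isTranscendenceBasis_iff_algebraicIndependent_isAlgebraic]
      refine ⟨?_, ?_⟩
      · exact AlgebraicIndependent.of_comp L.val htrk
      · constructor
        intro y
        refine relTo_descend (K := K) _ _ ?_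
        have h2 : algebraMap L K '' (Set.range fun _ : PUnit.{u + 1} =>
            (⟨(t : K), htL⟩ : L)) = {(t : K)} := by
          ext z
          simp only [Set.range_const, Set.image_singleton, Set.mem_singleton_iff]
          rfl
        rw [h2, ← IntermediateField.isAlgebraic_adjoin_iff]
        let M : IntermediateField k₁ K := IntermediateField.adjoin k₁ {(t : K)}
        have hkM : ∀ z : K, z ∈ k₁ → z ∈ M := fun z hz =>
          M.algebraMap_mem (⟨z, hz⟩ : k₁)
        have h3 : L ≤ (algebraicClosure M K).restrictScalars k₁ := by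
          rw [IntermediateField.adjoin_le_iff]
          rintro _ ⟨r, rfl⟩
          rw [SetLike.mem_coe, IntermediateField.mem_restrictScalars, mem_algebraicClosure_iff]
          have h4 := (hintB (⟨p r, r, rfl⟩ : p.range)).isAlgebraic
          obtain ⟨P, hP', hP0⟩ := h4
          have h5 : ∃ Q : Polynomial M, Q ≠ 0 ∧ Q.eval₂ (algebraMap M K) (p r) = 0 := by
            refine relTo_lift ((algebraMap p.range K).comp (algebraMap
              (Algebra.adjoin k (Set.range (Fin.cons t x : Fin (n + 1) → p.range))) p.range))
              (Subtype.val_injective.comp Subtype.val_injective) _ ?_ _ ⟨P, hP', ?_⟩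
            · rintro ⟨z, hz⟩
              change (z : K) ∈ _
              have h6 : (z : K) ∈ M := by
                induction hz using Algebra.adjoin_induction with
                | mem y hy =>
                  obtain ⟨i, rfl⟩ := hy
                  refine Fin.cases ?_ (fun j => ?_) i
                  · rw [Fin.cons_zero]
                    exact IntermediateField.subset_adjoin k₁ _ rfl
                  · rw [Fin.cons_succ]
                    exact hkM _ (hTk _ (by rw [hT0]; exact ⟨j, rfl⟩))
                | algebraMap c =>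
                  exact hkM _ (algebraMap k k₁ c).2
                | add y z _ _ hy hz => exact M.add_mem hy hz
                | mul y z _ _ hy hz => exact M.mul_mem hy hz
              exact ⟨⟨z, h6⟩, rfl⟩
            · have h9 := congrArg (algebraMap p.range K) hP0
              rw [map_zero, Polynomial.aeval_def, Polynomial.hom_eval₂] at h9
              exact h9
          obtain ⟨Q, hQ, hQ0⟩ := h5
          exact ⟨Q, hQ, by rw [Polynomial.aeval_def]; exact hQ0⟩
        have h4 := h3 y.2
        rw [IntermediateField.mem_restrictScalars, mem_algebraicClosure_iff] at h4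
        exact h4
    rw [← hb.cardinalMk_eq_trdeg]
    simp
  -- the point of `C` over the divisor
  let gBL : p.range →+* L := (p.range.val : p.range →+* K).codRestrict L hBL
  let gB : p.range →+* C := gBL.codRestrict C hBC
  let x₁ : Fin n → k₁ := fun i => ⟨(x i : K), hTk _ (by rw [hT0]; exact ⟨i, rfl⟩)⟩
  let iAB : Algebra (MvPolynomial (Fin n) k) p.range :=
    (MvPolynomial.aeval x : MvPolynomial (Fin n) k →ₐ[k] p.range).toRingHom.toAlgebra
  let iBC : Algebra p.range C := gB.toAlgebra
  let iAC : Algebra (MvPolynomial (Fin n) k) C :=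
    (gB.comp (MvPolynomial.aeval x : MvPolynomial (Fin n) k →ₐ[k] p.range).toRingHom).toAlgebra
  let iAk : Algebra (MvPolynomial (Fin n) k) k₁ :=
    (MvPolynomial.aeval x₁ : MvPolynomial (Fin n) k →ₐ[k] k₁).toRingHom.toAlgebra
  have hT1 : IsScalarTower (MvPolynomial (Fin n) k) p.range C :=
    IsScalarTower.of_algebraMap_eq fun _ => rfl
  have hxx : ∀ P : MvPolynomial (Fin n) k,
      ((MvPolynomial.aeval x₁ P : k₁) : K) = ((MvPolynomial.aeval x P : p.range) : K) := by
    intro P
    have h1 : (IsScalarTower.toAlgHom k k₁ K).comp (MvPolynomial.aeval x₁) =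
        (p.range.val).comp (MvPolynomial.aeval x) := by
      apply MvPolynomial.algHom_ext
      intro i
      rw [AlgHom.comp_apply, AlgHom.comp_apply, MvPolynomial.aeval_X, MvPolynomial.aeval_X]
      rfl
    exact DFunLike.congr_fun h1 P
  have hT2 : IsScalarTower (MvPolynomial (Fin n) k) k₁ C := by
    refine IsScalarTower.of_algebraMap_eq fun P => ?_
    apply Subtype.ext
    apply Subtype.ext
    exact (hxx P).symm
  have hAB : Function.Injective (algebraMap (MvPolynomial (Fin n) k) p.range) := by
    rw [injective_iff_map_eq_zero]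
    intro P h0
    refine hP P ?_
    have h1 : MvPolynomial.aeval x P = 0 := h0
    rw [h1]
    exact 𝔭.zero_mem
  have hBCi : Function.Injective (algebraMap p.range C) := by
    intro b b' hbb
    have h1 := congrArg (fun z : C => ((z : L) : K)) hbb
    exact Subtype.ext h1
  have halg : Algebra.IsAlgebraic (MvPolynomial (Fin n) k) k₁ := by
    constructor
    intro y
    have h1 : IsAlgebraic (Algebra.adjoin k T0) (y : K) := by
      rw [← IntermediateField.isAlgebraic_adjoin_iff]
      exact mem_algebraicClosure_iff.1 y.2
    obtain ⟨P, hP', hP0⟩ := h1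
    obtain ⟨Q, hQ, hQ0⟩ := relTo_lift (algebraMap (Algebra.adjoin k T0) K) Subtype.val_injective
      ((algebraMap k₁ K).comp (algebraMap (MvPolynomial (Fin n) k) k₁)) (by
        rintro ⟨z, hz⟩
        rw [hT0, Algebra.adjoin_range_eq_range_aeval] at hz
        obtain ⟨P', hP''⟩ := hz
        refine ⟨P', ?_⟩
        change ((MvPolynomial.aeval x₁ P' : k₁) : K) = z
        rw [hxx, ← hP'']
        have h1 : (p.range.val).comp (MvPolynomial.aeval x) =
            (MvPolynomial.aeval fun i : Fin n => (x i : K)) := by
          apply MvPolynomial.algHom_ext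
          intro i
          rw [AlgHom.comp_apply, MvPolynomial.aeval_X, MvPolynomial.aeval_X]
          rfl
        exact DFunLike.congr_fun h1 P') (y : K) ⟨P, hP', hP0⟩
    refine ⟨Q, hQ, ?_⟩
    rw [Polynomial.aeval_def]
    apply (algebraMap k₁ K).injective
    rw [Polynomial.hom_eval₂, map_zero]
    exact hQ0
  have hgenC : Algebra.adjoin k₁ (Set.range (algebraMap p.range C)) = ⊤ := by
    rw [eq_top_iff]
    rintro ⟨y, hy⟩ _
    induction hy using Algebra.adjoin_induction with
    | mem z hz =>
      obtain ⟨r, hr, rfl⟩ := hz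
      exact Algebra.subset_adjoin ⟨⟨p r, r, rfl⟩, rfl⟩
    | algebraMap c =>
      exact Subalgebra.algebraMap_mem _ c
    | add y z _ _ hy hz =>
      exact Subalgebra.add_mem _ (hy Algebra.mem_top) (hz Algebra.mem_top)
    | mul y z _ _ hy hz =>
      exact Subalgebra.mul_mem _ (hy Algebra.mem_top) (hz Algebra.mem_top)
  obtain ⟨q', hq0⟩ := exists_point_over (A := MvPolynomial (Fin n) k) (B := p.range) (C := C)
    (k₁ := k₁) hAB hBCi halg hgenC 𝔭 hprime hP (by
      have h1 : (Ideal.Quotient.mk 𝔭).comp (algebraMap (MvPolynomial (Fin n) k) p.range) =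
          ((MvPolynomial.aeval (fun i => Ideal.Quotient.mk 𝔭 (x i)) :
            MvPolynomial (Fin n) k →ₐ[k] p.range ⧸ 𝔭) :
            MvPolynomial (Fin n) k →+* p.range ⧸ 𝔭) := by
        have h2 : (Ideal.Quotient.mkₐ k 𝔭).comp (MvPolynomial.aeval x) =
            (MvPolynomial.aeval (fun i => Ideal.Quotient.mk 𝔭 (x i)) :
            MvPolynomial (Fin n) k →ₐ[k] p.range ⧸ 𝔭) := by
          apply MvPolynomial.algHom_ext
          intro i
          rw [AlgHom.comp_apply, MvPolynomial.aeval_X, MvPolynomial.aeval_X]
          rfl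
        rw [← h2]
        rfl
      rw [h1]
      exact hint)
  let gL : R →+* L := (p : R →+* K).codRestrict L hpL
  let g : R →+* C := gL.codRestrict C hpC
  have hq2 := hrel.step C hC hgen htr q' L.val g
  have hgc : ∀ c : k, g (algebraMap k R c) = algebraMap k₁ C (algebraMap k k₁ c) := by
    intro c
    apply Subtype.ext
    apply Subtype.ext
    change p (algebraMap k R c) = algebraMap k K c
    exact p.commutes c
  let q'' : R →ₐ[k] k₁ :=
    { (q' : C →+* k₁).comp g with
      commutes' := fun c => by
        change q' (g (algebraMap k R c)) = _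
        rw [hgc, q'.commutes]
        rfl }
  refine ⟨(IsScalarTower.toAlgHom k k₁ K).comp q'', ?_, ?_, ?_⟩
  · intro r hr
    have h1 : ((q' (g r) : k₁) : K) = 0 := hr
    have h2 : q' (g r) = 0 := Subtype.ext h1
    have h3 : g r = algebraMap p.range C ⟨p r, r, rfl⟩ := rfl
    rw [h3, hq0] at h2
    have h4 := h𝔭a h2
    rw [RingHom.mem_ker, haB] at h4
    exact h4
  · refine le_trans ?_ hk₁d
    have h1 : ((IsScalarTower.toAlgHom k k₁ K).comp q'').range ≤
        (IsScalarTower.toAlgHom k k₁ K).range := AlgHom.range_comp_le_range _ _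
    refine (trdeg_le_of_injective (Subalgebra.inclusion h1)
      (Subalgebra.inclusion_injective h1)).trans ?_
    exact trdeg_le_of_surjective (IsScalarTower.toAlgHom k k₁ K).rangeRestrict
      (AlgHom.rangeRestrict_surjective _)
  · exact hq2

/-- A point is related to every constant point of its closure. -/
theorem exists_rel_to {k : Type u} [Field k] [IsAlgClosed k] [CharZero k] {K : Type u} [Field K]
    [IsAlgClosed K] [Algebra k K] {R : Type v} [CommRing R] [Algebra k R]
    [Algebra.FiniteType k R] (p : R →ₐ[k] K) (a : R →ₐ[k] k)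
    (ha : RingHom.ker p ≤ RingHom.ker a) {rel : (R →+* K) → (R →+* K) → Prop}
    (hrel : CurveRel rel) : rel (p : R →+* K) ((algebraMap k K).comp (a : R →+* k)) := by
  have key : ∀ (n : ℕ) (p : R →ₐ[k] K), RingHom.ker p ≤ RingHom.ker a →
      Algebra.trdeg k p.range = n →
      rel (p : R →+* K) ((algebraMap k K).comp (a : R →+* k)) := by
    intro n
    induction n using Nat.strong_induction_on with
    | _ n ih =>
      intro p ha hp
      rcases n with _ | n
      · have h1 : Algebra.IsAlgebraic k p.range :=
          (trdeg_eq_zero_iff (R := k) (A := p.range)).1 (by rw [hp]; simp)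
        have h2 : Function.Surjective (algebraMap k p.range) :=
          (IsAlgClosed.algebraMap_bijective_of_isIntegral (k := k) (K := p.range)).2
        let e : k ≃ₐ[k] p.range := AlgEquiv.ofBijective (Algebra.ofId k p.range)
          ⟨(algebraMap k p.range).injective, h2⟩
        have h3 : (algebraMap k K).comp
            (((e.symm : p.range →ₐ[k] k).comp p.rangeRestrict : R →ₐ[k] k) : R →+* k) =
            (p : R →+* K) := by
          ext x
          have h4 : algebraMap k p.range (e.symm (p.rangeRestrict x)) = p.rangeRestrict x :=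
            e.apply_symm_apply _
          have h5 := congrArg (fun y : p.range => (y : K)) h4
          exact h5
        set p0 : R →ₐ[k] k := (e.symm : p.range →ₐ[k] k).comp p.rangeRestrict with hp0
        have h6 : (p0 : R →+* k) = (a : R →+* k) := by
          ext r
          have h7 : p (r - algebraMap k R (p0 r)) = 0 := by
            have h8 : algebraMap k K (p0 (r - algebraMap k R (p0 r))) =
                p (r - algebraMap k R (p0 r)) := RingHom.congr_fun h3 _
            rw [← h8, map_sub, p0.commutes]
            simp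
          have h9 : r - algebraMap k R (p0 r) ∈ RingHom.ker a :=
            ha ((RingHom.mem_ker).2 h7)
          rw [RingHom.mem_ker, map_sub, a.commutes, sub_eq_zero] at h9
          exact h9.symm
        rw [← h6, h3]
        exact hrel.refl _
      · obtain ⟨q, hqa, hq, hL⟩ := exists_step_rel p a ha n (by rw [hp]; push_cast; rfl) hrel
        obtain ⟨m, hm⟩ := Cardinal.lt_aleph0.1 (hq.trans_lt (Cardinal.natCast_lt_aleph0 (n := n)))
        have hmn : m ≤ n := by
          rw [hm] at hq
          exact_mod_cast hq
        exact hrel.trans _ _ _ hL (ih m (by omega) q hqa hm)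
  have : Algebra.FiniteType k p.range :=
    Algebra.FiniteType.of_surjective p.rangeRestrict p.rangeRestrict_surjective
  obtain ⟨n, hn⟩ := Cardinal.lt_aleph0.1
    (trdeg_lt_aleph0_of_finiteType (R := k) (S := p.range))
  exact key n p ha hn

end Pool.Agent.SPC
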