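import Pool.Agent.SPC.TC

/-!
# Maps of twisted complexes into algebras

`r : Rep M j` is a map of differential `A`-modules from `M` to the supercommutative differential
ring `W` over `A` (`j : A → W`). `r.ev f` is the image of `f`.
-/

noncomputable section

namespace Pool.Agent.SPC

universe u v w

open SDG

variable {A : Type u} {W : Type v} [Ring A] [Algebra ℚ A] [SDG A] [Ring W] [Algebra ℚ W] [SDG W]

/-- The images of the basis elements of `M` under a map of differential modules `M → W`. -/
structure Rep (M : TC A) (j : SHom A W) where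
  w : M.I → W
  par_w : ∀ i, IsPar (M.odd i) (w i)
  d_w : ∀ i, d (w i) = ∑ l, j (M.D i l) * w l

namespace Rep

variable {M N : TC A} {j : SHom A W}

/-- The map `M → W`. -/
def ev (r : Rep M j) (f : M.I → A) : W := ∑ i, j (f i) * r.w i

theorem d_ev (r : Rep M j) (f : M.I → A) : d (r.ev f) = r.ev (M.dif f) := by
  unfold ev
  rw [map_sum]
  simp only [TC.dif_apply, map_add, map_sum, map_mul, d_mul, add_mul, Finset.sum_add_distrib,
    Finset.sum_mul, j.map_d, r.d_w, j.map_par, Finset.mul_sum]
  congr 1
  rw [Finset.sum_comm]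
  refine Finset.sum_congr rfl fun l _ => Finset.sum_congr rfl fun i _ => ?_
  rw [mul_assoc]

theorem par_ev (r : Rep M j) (f : M.I → A) : par (r.ev f) = r.ev (M.pr f) := by
  unfold ev
  rw [map_sum]
  refine Finset.sum_congr rfl fun i _ => ?_
  rw [map_mul, r.par_w i, TC.pr_apply, map_smul, j.map_par, mul_smul_comm, smul_mul_assoc]

theorem ev_even (r : Rep M j) {f : M.I → A} (hf : M.Even f) : par (r.ev f) = r.ev f := by
  rw [par_ev, TC.even_iff.1 hf]

theorem ev_add (r : Rep M j) (f g : M.I → A) : r.ev (f + g) = r.ev f + r.ev g := by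
  unfold ev
  rw [← Finset.sum_add_distrib]
  refine Finset.sum_congr rfl fun i _ => ?_
  rw [Pi.add_apply, map_add, add_mul]

theorem ev_sub (r : Rep M j) (f g : M.I → A) : r.ev (f - g) = r.ev f - r.ev g := by
  unfold ev
  rw [← Finset.sum_sub_distrib]
  refine Finset.sum_congr rfl fun i _ => ?_
  rw [Pi.sub_apply, map_sub, sub_mul]

/-- The product of two maps. -/
def tmul (r : Rep M j) (s : Rep N j) : Rep (M.tmul N) j where
  w x := r.w x.1 * s.w x.2
  par_w x := (r.par_w x.1).mul (s.par_w x.2)
  d_w x := by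
    obtain ⟨i, k⟩ := x
    have e1 : ∀ i' k', j (TC.tD M N (i, k) (i', k')) * (r.w i' * s.w k') =
        (if k = k' then j (M.D i i') * (r.w i' * s.w k') else 0) +
        (if i = i' then (sgn (M.odd i) • parP W (M.odd i) (j (N.D k k'))) *
          (r.w i' * s.w k') else 0) := by
      intro i' k'
      unfold TC.tD
      rw [map_add, add_mul]
      congr 1
      · split_ifs
        · rfl
        · rw [map_zero, zero_mul]
      · split_ifs
        · rw [map_smul, j.map_parP]
        · rw [map_zero, zero_mul]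
    change d (r.w i * s.w k) = ∑ l : M.I × N.I, j (TC.tD M N (i, k) l) * (r.w l.1 * s.w l.2)
    rw [Fintype.sum_prod_type]
    simp only [e1, Finset.sum_add_distrib, Finset.sum_ite_eq, Finset.sum_ite_irrel,
      Finset.sum_const_zero, Finset.mem_univ, if_true]
    rw [d_mul, r.d_w, s.d_w, Finset.sum_mul, Finset.mul_sum]
    congr 1
    · refine Finset.sum_congr rfl fun l _ => ?_
      rw [mul_assoc]
    · refine Finset.sum_congr rfl fun l _ => ?_
      have h1 : par (r.w i) = sgn (M.odd i) • r.w i := r.par_w i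
      rw [h1, smul_mul_assoc, smul_mul_assoc, ← mul_assoc, ← mul_assoc,
        (r.par_w i).mul_comm (j (N.D k l))]

theorem ev_tE (r : Rep M j) (s : Rep N j) (f : M.I → A) (g : N.I → A) :
    (r.tmul s).ev (TC.tE M N f g) = r.ev f * s.ev g := by
  unfold ev
  rw [Finset.sum_mul_sum]
  change ∑ x : M.I × N.I, j (TC.tE M N f g x) * (r.w x.1 * s.w x.2) = _
  rw [Fintype.sum_prod_type]
  refine Finset.sum_congr rfl fun i _ => Finset.sum_congr rfl fun k _ => ?_
  unfold TC.tE
  rw [map_mul, j.map_parP, mul_assoc, mul_assoc, ← mul_assoc (r.w i),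
    (r.par_w i).mul_comm (j (g k)), mul_assoc]

/-- The map `1 → W`. -/
def one (j : SHom A W) : Rep (TC.one A) j where
  w _ := 1
  par_w _ := IsPar.one
  d_w _ := by
    rw [d_one]
    symm
    refine Finset.sum_eq_zero fun l _ => ?_
    rw [show (TC.one A).D _ l = (0 : A) from rfl, map_zero, zero_mul]

/-- The powers of a map. -/
def pow (r : Rep M j) : (n : ℕ) → Rep (M.pow n) j
  | 0 => one j
  | n + 1 => r.tmul (r.pow n)

theorem ev_powE (r : Rep M j) (f : M.I → A) (n : ℕ) : (r.pow n).ev (M.powE f n) = r.ev f ^ n := by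
  induction n with
  | zero =>
    unfold ev
    change ∑ i : Unit, j 1 * 1 = _
    rw [map_one, pow_zero]
    simp
  | succ n ih =>
    rw [pow_succ', ← ih]
    exact ev_tE r (r.pow n) f (M.powE f n)

/-- Lemma A: if a tensor power of `f` is a boundary then the power of its image is one. -/
theorem exists_of_exact (r : Rep M j) {f : M.I → A} {n : ℕ} (h : (M.pow n).Exact (M.powE f n)) :
    ∃ v, d v = r.ev f ^ n := by
  obtain ⟨g, hg⟩ := h
  exact ⟨(r.pow n).ev g, by rw [d_ev, hg, ev_powE]⟩

end Rep

end Pool.Agent.SPC
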