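import Mathlib

/-!
# Rational cycles over a domain (Suslin-Voevodsky), as functions of exponents

For a domain `B` (a `ℚ`-algebra) let `Bp B` be its absolute integral closure: the integral closure of
`B` in an algebraic closure of its field of fractions.  A character of the group of exponents
`ℕ →₀ ℤ` with values in `Bp B` is a sequence of units of `Bp B`, i.e. a point of a power of the
multiplicative group; a rational combination of characters is a rational cycle, determined by
its values (traces of monomials).  `G B` is the algebra of those rational combinations of
characters whose values lie in `B`: for normal `B` these are the rational finite correspondences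
from `Spec B` to powers of `G_m`; the product is induced by the multiplication of `G_m`.
`IsTr R t`: the function `t : S → B` is a rational combination of `R`-algebra homomorphisms
`S → Bp B`: a rational finite correspondence from `Spec B` to `Spec S`, given by its traces.
-/

set_option autoImplicit false

noncomputable section

namespace Pool.Agent.SPC

universe u v w

/-- An algebraic closure of the fraction field of a domain. -/
abbrev Om (B : Type u) [CommRing B] [IsDomain B] : Type u := AlgebraicClosure (FractionRing B)

/-- The absolute integral closure of a domain. -/
def Bp (B : Type u) [CommRing B] [IsDomain B] : Type u := integralClosure B (Om B)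

section

variable (B : Type u) [CommRing B] [IsDomain B]

instance : CommRing (Bp B) := inferInstanceAs (CommRing (integralClosure B (Om B)))

instance : IsDomain (Bp B) := inferInstanceAs (IsDomain (integralClosure B (Om B)))

/-- The inclusion of a domain in its absolute integral closure. -/
def incl : B →+* Bp B := algebraMap B (integralClosure B (Om B))

/-- The inclusion of the absolute integral closure in the algebraic closure. -/
def bval : Bp B →+* Om B := (integralClosure B (Om B)).val.toRingHom

instance {R : Type w} [CommRing R] [Algebra R B] : Algebra R (Bp B) :=
  ((incl B).comp (algebraMap R B)).toAlgebra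

theorem bval_injective : Function.Injective (bval B) := Subtype.val_injective

theorem bval_incl (b : B) : bval B (incl B b) = algebraMap B (Om B) b := rfl

theorem incl_injective : Function.Injective (incl B) := by
  intro x y h
  have h1 : algebraMap B (Om B) x = algebraMap B (Om B) y := congrArg (bval B) h
  rw [IsScalarTower.algebraMap_apply B (FractionRing B) (Om B),
    IsScalarTower.algebraMap_apply B (FractionRing B) (Om B)] at h1
  exact IsFractionRing.injective B (FractionRing B)
    ((algebraMap (FractionRing B) (Om B)).injective h1)

theorem incl_isIntegral (x : Bp B) : (incl B).IsIntegralElem x := by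
  obtain ⟨y, hy⟩ := x
  obtain ⟨p, hp, h⟩ := hy
  refine ⟨p, hp, Subtype.ext ?_⟩
  have h1 : (bval B) (Polynomial.eval₂ (incl B) ⟨y, ⟨p, hp, h⟩⟩ p) =
      Polynomial.eval₂ (algebraMap B (Om B)) y p := by
    rw [Polynomial.hom_eval₂]
    rfl
  exact h1.trans h

theorem exists_bval {y : Om B} (hy : IsIntegral B y) : ∃ x : Bp B, bval B x = y := ⟨⟨y, hy⟩, rfl⟩

theorem algebraMap_Bp {R : Type w} [CommRing R] [Algebra R B] (r : R) :
    algebraMap R (Bp B) r = incl B (algebraMap R B r) := rfl

end

/-- `τ` is a rational combination of functions in `F`, in the absolute integral closure. -/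
def Comb {B : Type u} [CommRing B] [IsDomain B] [Algebra ℚ B] {M : Type v}
    (F : Set (M → Bp B)) (τ : M → B) : Prop :=
  (fun a => incl B (τ a)) ∈ Submodule.span ℚ F

/-- The characters of the group of exponents. -/
def chars (B : Type u) [CommRing B] [IsDomain B] : Set ((ℕ →₀ ℤ) → Bp B) :=
  {f | ∃ φ : Multiplicative (ℕ →₀ ℤ) →* Bp B, ∀ a, f a = φ (Multiplicative.ofAdd a)}

/-- `τ` is a rational cycle over `B`. -/
def IsExp {B : Type u} [CommRing B] [IsDomain B] [Algebra ℚ B] (τ : (ℕ →₀ ℤ) → B) : Prop :=
  Comb (chars B) τ

/-- The homomorphisms of algebras, as functions. -/
def homs (R : Type w) [CommRing R] (S : Type v) [CommRing S] [Algebra R S] (B : Type u)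
    [CommRing B] [IsDomain B] [Algebra R B] : Set (S → Bp B) :=
  {f | ∃ χ : S →ₐ[R] Bp B, ∀ s, f s = χ s}

/-- `t` is (the trace function of) a rational correspondence. -/
def IsTr (R : Type w) [CommRing R] {S : Type v} [CommRing S] [Algebra R S] {B : Type u}
    [CommRing B] [IsDomain B] [Algebra ℚ B] [Algebra R B] (t : S → B) : Prop :=
  Comb (homs R S B) t

end Pool.Agent.SPC
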