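import Pool.Agent.SPC.TC

/-!
# Thick tensor ideals of twisted complexes

`Thick M`: the smallest thick tensor ideal containing the twisted complex `M`: it is closed under
tensor products with arbitrary twisted complexes, parity shifts, extensions (block triangular
twisted complexes) and homotopy retracts.
`thick_one`: if `w_o` is a closed even basis element of `N`, `N` without `w_o` is in the ideal of `M` and a tensor
power of `w_o` is a boundary, then the unit is in the ideal of `M`.
-/

noncomputable section

namespace Pool.Agent.SPC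

universe u v w

open SDG

namespace TC

variable {A : Type u} [Ring A] [Algebra ℚ A] [SDG A]

omit [Algebra ℚ A] [SDG A] in
/-- A sum over a subset outside of which the terms vanish. -/
theorem sum_restr {I : Type} [Fintype I] (P : I → Prop) [DecidablePred P] (f : I → A)
    (h : ∀ l, ¬ P l → f l = 0) : ∑ l : {l // P l}, f l = ∑ l, f l := by
  rw [← Finset.sum_subtype (Finset.univ.filter P) (fun x => by simp) f, Finset.sum_filter]
  refine Finset.sum_congr rfl fun l _ => ?_
  split_ifs with hl
  · rfl
  · exact (h l hl).symm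

/-- The part of a twisted complex on a subset of the basis. -/
def restr (X : TC A) (P : X.I → Prop) [DecidablePred P]
    (h : ∀ i l j, P i → ¬ P l → P j → par (X.D i l) * X.D l j = 0) : TC A where
  I := {i // P i}
  odd i := X.odd i
  rk i := X.rk i
  D i j := X.D i j
  par_D i j := X.par_D i j
  tri i j := X.tri i j
  flat i j := by
    rw [sum_restr P (fun l => par (X.D i l) * X.D l j) fun l hl => h i l j i.2 hl j.2]
    exact X.flat i j

/-- The subcomplex on a `D`-stable subset of the basis. -/
def sub (X : TC A) (P : X.I → Prop) [DecidablePred P] (h : ∀ i l, P i → ¬ P l → X.D i l = 0) :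
    TC A :=
  X.restr P fun i l j hi hl _ => by rw [h i l hi hl, map_zero, zero_mul]

/-- The quotient by the subcomplex on a `D`-stable subset of the basis. -/
def quo (X : TC A) (P : X.I → Prop) [DecidablePred P] (h : ∀ i l, P i → ¬ P l → X.D i l = 0) :
    TC A :=
  X.restr (fun i => ¬ P i) fun i l j _ hl hj => by rw [h l j (not_not.1 hl) hj, mul_zero]

/-- The parity shift. -/
def sh (X : TC A) : TC A where
  I := X.I
  odd i := !X.odd i
  rk i := X.rk i
  D i j := -par (X.D i j)
  par_D i j := by
    have h1 := X.par_D i j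
    have h2 : (!((!X.odd i) ^^ (!X.odd j))) = !(X.odd i ^^ X.odd j) := by
      cases X.odd i <;> cases X.odd j <;> rfl
    rw [h2]
    have h3 := (h1.apply_parP true).smul (-1)
    rwa [neg_one_smul] at h3
  tri i j h := by rw [X.tri i j h, map_zero, neg_zero]
  flat i j := by
    have h1 := congrArg par (X.flat i j)
    rw [map_add, map_sum, map_zero] at h1
    rw [map_neg, d_par, neg_neg]
    refine Eq.trans ?_ h1
    congr 1
    refine Finset.sum_congr rfl fun l _ => ?_
    rw [map_neg, neg_mul_neg, map_mul]

/-- Even closed maps `X → Y`, given by matrices. -/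
structure IsMap (X Y : TC A) (φ : X.I → Y.I → A) : Prop where
  even : ∀ i j, IsPar (X.odd i ^^ Y.odd j) (φ i j)
  closed : ∀ i l, d (φ i l) + ∑ j, par (φ i j) * Y.D j l = ∑ j, X.D i j * φ j l

/-- `Y` is a homotopy retract of `X`. -/
def Retr (Y X : TC A) : Prop :=
  ∃ φ : Y.I → X.I → A, IsMap Y X φ ∧ ∃ ψ : X.I → Y.I → A, IsMap X Y ψ ∧
    ∃ h : Y.I → Y.I → A, (∀ i j, IsPar (!(Y.odd i ^^ Y.odd j)) (h i j)) ∧
      ∀ i l, ∑ j, φ i j * ψ j l - (if i = l then 1 else 0) =
        d (h i l) + ∑ j, par (h i j) * Y.D j l + ∑ j, par (Y.D i j) * h j l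

/-- The smallest thick tensor ideal that contains `M`. -/
inductive Thick (M : TC A) : TC A → Prop
  | self : Thick M M
  | left (X Y : TC A) : Thick M X → Thick M (Y.tmul X)
  | right (X Y : TC A) : Thick M X → Thick M (X.tmul Y)
  | shift (X : TC A) : Thick M X → Thick M X.sh
  | ext (X : TC A) (P : X.I → Prop) [DecidablePred P] (h : ∀ i l, P i → ¬ P l → X.D i l = 0) :
      Thick M (X.sub P h) → Thick M (X.quo P h) → Thick M X
  | retract (X Y : TC A) : Retr Y X → Thick M X → Thick M Y

/-- Isomorphic by a bijection of the bases. -/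
theorem Thick.reindex {M X Y : TC A} (e : Y.I ≃ X.I) (ho : ∀ i, Y.odd i = X.odd (e i))
    (hD : ∀ i j, Y.D i j = X.D (e i) (e j)) (h : Thick M X) : Thick M Y := by
  refine Thick.retract X Y ⟨fun i j => if e i = j then 1 else 0, ⟨?_, ?_⟩,
    fun i j => if i = e j then 1 else 0, ⟨?_, ?_⟩, fun _ _ => 0, fun _ _ => IsPar.zero _, ?_⟩ h
  · intro i j
    split_ifs with hij
    · subst hij
      rw [ho, Bool.xor_self]
      exact IsPar.one
    · exact IsPar.zero _
  · intro i l
    have h1 : d (if e i = l then (1 : A) else 0) = 0 := by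
      split_ifs
      · exact d_one
      · exact map_zero _
    rw [h1, zero_add, Finset.sum_eq_single (e i), Finset.sum_eq_single (e.symm l)]
    · rw [if_pos rfl, map_one, one_mul, e.apply_symm_apply, if_pos rfl, mul_one, hD,
        e.apply_symm_apply]
    · intro j _ hj
      rw [if_neg, mul_zero]
      intro h2
      exact hj (by rw [← h2, e.symm_apply_apply])
    · intro h2
      exact absurd (Finset.mem_univ _) h2
    · intro j _ hj
      rw [if_neg (fun h2 => hj h2.symm), map_zero, zero_mul]
    · intro h2
      exact absurd (Finset.mem_univ _) h2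
  · intro i j
    split_ifs with hij
    · subst hij
      rw [ho, Bool.xor_self]
      exact IsPar.one
    · exact IsPar.zero _
  · intro i l
    have h1 : d (if i = e l then (1 : A) else 0) = 0 := by
      split_ifs
      · exact d_one
      · exact map_zero _
    rw [h1, zero_add, Finset.sum_eq_single (e.symm i), Finset.sum_eq_single (e l)]
    · rw [e.apply_symm_apply, if_pos rfl, map_one, one_mul, if_pos rfl, mul_one, hD,
        e.apply_symm_apply]
    · intro j _ hj
      rw [if_neg hj, mul_zero]
    · intro h2
      exact absurd (Finset.mem_univ _) h2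
    · intro j _ hj
      rw [if_neg, map_zero, zero_mul]
      intro h2
      exact hj (by rw [h2, e.symm_apply_apply])
    · intro h2
      exact absurd (Finset.mem_univ _) h2
  · intro i l
    simp only [map_zero, zero_mul, mul_zero, Finset.sum_const_zero, add_zero]
    rw [Finset.sum_eq_single (e i)]
    · rw [if_pos rfl, one_mul]
      by_cases hil : i = l
      · rw [if_pos hil, if_pos (by rw [hil]), sub_self]
      · rw [if_neg hil, if_neg (fun h2 => hil (e.injective h2)), sub_self]
    · intro j _ hj
      rw [if_neg (fun h2 => hj h2.symm), zero_mul]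
    · intro h2
      exact absurd (Finset.mem_univ _) h2

/-- A twisted complex with the empty basis. -/
theorem Thick.of_empty {M Y : TC A} [IsEmpty Y.I] : Thick M Y := by
  refine Thick.retract M Y ⟨fun i => isEmptyElim i, ⟨fun i => isEmptyElim i, fun i => isEmptyElim i⟩,
    fun _ j => isEmptyElim j, ⟨fun _ j => isEmptyElim j, fun _ j => isEmptyElim j⟩,
    fun i => isEmptyElim i, fun i => isEmptyElim i, fun i => isEmptyElim i⟩ Thick.self

/-- If a closed even basis element of `X` is a boundary and the quotient of `X` by it is in the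
ideal of `M` then the unit is in the ideal of `M`. -/
theorem Thick.one_of_exact {M X : TC A} (o : X.I) (ho : X.odd o = false) (hD : ∀ j, X.D o j = 0)
    (hQ : Thick M (X.quo (fun i => i = o) fun i l hi _ => by rw [hi]; exact hD l))
    (hE : X.Exact (Pi.single o 1)) : Thick M (TC.one A) := by
  -- an odd primitive
  obtain ⟨y₀, hy₀⟩ := hE
  obtain ⟨y, hy, hyo⟩ : ∃ y : X.I → A, X.dif y = Pi.single o 1 ∧ X.pr y = -y := by
    refine ⟨(2⁻¹ : ℚ) • (y₀ - X.pr y₀), ?_, ?_⟩
    · rw [map_smul, map_sub, dif_pr, hy₀]
      have h1 : X.pr (Pi.single o 1) = Pi.single o 1 := by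
        rw [← even_iff]
        intro i
        by_cases hi : i = o
        · subst hi
          rw [Pi.single_eq_same, ho]
          exact IsPar.one
        · rw [Pi.single_eq_of_ne hi]
          exact IsPar.zero _
      rw [h1, sub_neg_eq_add, ← two_smul ℚ, smul_smul]
      norm_num
    · rw [map_smul, map_sub, pr_pr, ← smul_neg, neg_sub]
  have hyp : ∀ j, par (y j) = -(sgn (X.odd j) • y j) := by
    intro j
    have h1 := congrFun hyo j
    rw [pr_apply, Pi.neg_apply] at h1
    have h2 := congrArg (fun z => sgn (X.odd j) • z) h1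
    simp only [sgn_smul_smul, smul_neg] at h2
    exact h2
  have hyl : ∀ l, l ≠ o → d (y l) + ∑ j, par (y j) * X.D j l = 0 := by
    intro l hl
    have h1 := congrFun hy l
    rw [dif_apply, Pi.single_eq_of_ne hl] at h1
    exact h1
  refine Thick.retract (X.quo (fun i => i = o) fun i l hi _ => by rw [hi]; exact hD l).sh
    (TC.one A) ⟨fun _ j => par (y j.1), ⟨?_, ?_⟩, fun j _ => X.D j.1 o, ⟨?_, ?_⟩,
    fun _ _ => -y o, ?_, ?_⟩ (Thick.shift _ hQ)
  · rintro _ ⟨j, hj⟩
    have h1 : IsPar (!X.odd j) (y j) := by
      unfold IsPar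
      rw [hyp, sgn_not, neg_smul]
    have h2 := h1.apply_parP true
    have h3 : ((TC.one A).odd () ^^ (!X.odd j)) = !X.odd j := by
      cases X.odd j <;> rfl
    change IsPar ((TC.one A).odd () ^^ (!X.odd j)) _
    rw [h3]
    exact h2
  · rintro _ ⟨l, hl⟩
    have h1 := hyl l hl
    have h2 : ∑ j : {j // ¬ j = o}, par (y j) * X.D j l = ∑ j, par (y j) * X.D j l :=
      sum_restr (fun j => ¬ j = o) (fun j => par (y j) * X.D j l) fun j hj => by
        rw [not_not.1 hj, hD, mul_zero]
    have h3 : d (par (y l)) + ∑ j : {j // ¬ j = o}, par (par (y j)) * -par (X.D j l) = 0 := by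
      rw [← h2] at h1
      have h4 := congrArg par h1
      rw [map_add, map_sum, map_zero] at h4
      rw [d_par, ← neg_eq_zero, neg_add, neg_neg, ← Finset.sum_neg_distrib, ← h4]
      congr 1
      refine Finset.sum_congr rfl fun j _ => ?_
      rw [map_mul, mul_neg, neg_neg]
    refine Eq.trans h3 ?_
    symm
    refine Finset.sum_eq_zero fun j _ => ?_
    exact zero_mul _
  · rintro ⟨j, hj⟩ _
    have h1 := X.par_D j o
    have h3 : (!(X.odd j ^^ X.odd o)) = ((!X.odd j) ^^ false) := by
      rw [ho]
      cases X.odd j <;> rfl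
    rw [h3] at h1
    exact h1
  · rintro ⟨i, hi⟩ _
    have h1 := X.flat i o
    have h2 : ∑ l : {l // ¬ l = o}, par (X.D i l) * X.D l o = ∑ l, par (X.D i l) * X.D l o :=
      sum_restr (fun l => ¬ l = o) (fun l => par (X.D i l) * X.D l o) fun l hl => by
        rw [not_not.1 hl, hD, mul_zero]
    rw [← h2] at h1
    have h3 : ∑ j : Unit, par (X.D i o) * (TC.one A).D j () = 0 :=
      Finset.sum_eq_zero fun j _ => mul_zero _
    refine Eq.trans (congrArg (fun z => d (X.D i o) + z) h3) ?_
    rw [add_zero, eq_neg_of_add_eq_zero_left h1, ← Finset.sum_neg_distrib]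
    refine Finset.sum_congr rfl fun l _ => ?_
    exact (neg_mul _ _).symm
  · intro _ _
    have h1 : IsPar (!X.odd o) (y o) := by
      unfold IsPar
      rw [hyp, sgn_not, neg_smul]
    rw [ho] at h1
    have h2 := h1.smul (-1)
    rw [neg_one_smul] at h2
    exact h2
  · intro i l
    have h1 := congrFun hy o
    rw [dif_apply, Pi.single_eq_same] at h1
    have h2 : ∑ j : {j // ¬ j = o}, par (y j) * X.D j o = ∑ j, par (y j) * X.D j o :=
      sum_restr (fun j => ¬ j = o) (fun j => par (y j) * X.D j o) fun j hj => by
        rw [not_not.1 hj, hD, mul_zero]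
    have h3 : (if i = l then (1 : A) else 0) = 1 := if_pos rfl
    have h4 : ∑ j : Unit, par (-y o) * (TC.one A).D j l = 0 :=
      Finset.sum_eq_zero fun j _ => mul_zero _
    have h5 : ∑ j : Unit, par ((TC.one A).D i j) * (-y o) = 0 :=
      Finset.sum_eq_zero fun j _ => by
        change par (0 : A) * _ = 0
        rw [map_zero, zero_mul]
    have h6 : ∑ j : {j // ¬ j = o}, par (y j) * X.D j o - (if i = l then (1 : A) else 0) =
        d (-y o) + ∑ j : Unit, par (-y o) * (TC.one A).D j l +
          ∑ j : Unit, par ((TC.one A).D i j) * (-y o) := by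
      rw [h3, h4, h5, add_zero, add_zero, h2, map_neg, ← h1]
      abel
    exact h6

/-- The distinguished basis element of the tensor power. -/
def powO {N : TC A} (o : N.I) : (n : ℕ) → (N.pow n).I
  | 0 => ()
  | n + 1 => (o, powO o n)

theorem powE_single (N : TC A) (o : N.I) (n : ℕ) :
    N.powE (Pi.single o 1) n = Pi.single (powO o n) 1 := by
  induction n with
  | zero =>
    funext x
    have h1 : x = powO o 0 := rfl
    rw [h1, Pi.single_eq_same]
    rfl
  | succ n ih =>
    change tE N (N.pow n) (Pi.single o 1) (N.powE (Pi.single o 1) n) = _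
    rw [ih]
    exact tE_single N (N.pow n) o (powO o n)

theorem odd_powO {N : TC A} {o : N.I} (ho : N.odd o = false) (n : ℕ) :
    (N.pow n).odd (powO o n) = false := by
  induction n with
  | zero => rfl
  | succ n ih =>
    change (N.odd o ^^ (N.pow n).odd (powO o n)) = false
    rw [ho, ih]
    rfl

theorem D_powO {N : TC A} {o : N.I} (hD : ∀ j, N.D o j = 0) (n : ℕ) (j : (N.pow n).I) :
    (N.pow n).D (powO o n) j = 0 := by
  induction n with
  | zero => rfl
  | succ n ih =>
    change tD N (N.pow n) (o, powO o n) j = 0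
    unfold tD
    have h1 : (if (o, powO o n).2 = j.2 then N.D (o, powO o n).1 j.1 else 0) = 0 := by
      split_ifs
      · exact hD _
      · rfl
    have h2 : (if (o, powO o n).1 = j.1 then sgn (N.odd (o, powO o n).1) •
        parP A (N.odd (o, powO o n).1) ((N.pow n).D (o, powO o n).2 j.2) else 0) = 0 := by
      split_ifs
      · change sgn (N.odd o) • parP A (N.odd o) ((N.pow n).D (powO o n) j.2) = 0
        rw [ih, map_zero, smul_zero]
      · rfl
    rw [h1, h2, add_zero]

/-- The quotient of the tensor power by the distinguished element. -/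
theorem thick_quo_pow {M N : TC A} {o : N.I} (ho : N.odd o = false) (hD : ∀ j, N.D o j = 0)
    (hQ : Thick M (N.quo (fun i => i = o) fun i l hi _ => by rw [hi]; exact hD l)) (n : ℕ) :
    Thick M ((N.pow n).quo (fun i => i = powO o n) fun i l hi _ => by
      rw [hi]; exact D_powO hD n l) := by
  induction n with
  | zero =>
    have : IsEmpty ((N.pow 0).quo (fun i => i = powO o 0) fun i l hi _ => by
      rw [hi]; exact D_powO hD 0 l).I := ⟨fun i => i.2 rfl⟩
    exact Thick.of_empty
  | succ n ih =>
    refine Thick.ext _ (fun i => i.1.1 = o) ?_ ?_ ?_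
    · rintro ⟨⟨i, j⟩, hij⟩ ⟨⟨i', j'⟩, hij'⟩ h1 h2
      change i = o at h1
      change ¬ i' = o at h2
      change tD N (N.pow n) (i, j) (i', j') = 0
      unfold tD
      subst h1
      rw [if_neg (fun h3 : i = i' => h2 h3.symm), add_zero]
      split_ifs
      · exact hD _
      · rfl
    · refine Thick.reindex (X := (N.pow n).quo (fun i => i = powO o n) fun i l hi _ => by
        rw [hi]; exact D_powO hD n l) ?_ ?_ ?_ ih
      · refine
          { toFun := fun x => ⟨x.1.1.2, fun h => x.1.2 (Prod.ext x.2 h)⟩
            invFun := fun j => ⟨⟨(o, j.1), fun h => j.2 (congrArg Prod.snd h)⟩, rfl⟩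
            left_inv := ?_
            right_inv := ?_ }
        · rintro ⟨⟨⟨i, j⟩, hij⟩, h1⟩
          change i = o at h1
          subst h1
          rfl
        · rintro ⟨j, hj⟩
          rfl
      · rintro ⟨⟨⟨i, j⟩, hij⟩, h1⟩
        change i = o at h1
        subst h1
        change (N.odd i ^^ (N.pow n).odd j) = (N.pow n).odd j
        rw [ho, Bool.false_xor]
      · rintro ⟨⟨⟨i, j⟩, hij⟩, h1⟩ ⟨⟨⟨i', j'⟩, hij'⟩, h1'⟩
        change i = o at h1
        change i' = o at h1'
        subst h1
        subst h1'
        change tD N (N.pow n) (i', j) (i', j') = (N.pow n).D j j'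
        unfold tD
        have h2 : (if (i', j).2 = (i', j').2 then N.D (i', j).1 (i', j').1 else 0) = 0 := by
          split_ifs
          · exact hD _
          · rfl
        rw [h2, zero_add, if_pos rfl]
        change sgn (N.odd i') • parP A (N.odd i') ((N.pow n).D j j') = _
        rw [ho, sgn_false, one_smul, parP_false]
    · refine Thick.reindex (X := (N.quo (fun i => i = o) fun i l hi _ => by
        rw [hi]; exact hD l).tmul (N.pow n)) ?_ ?_ ?_ (Thick.right _ _ hQ)
      · refine
          { toFun := fun x => (⟨x.1.1.1, x.2⟩, x.1.1.2)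
            invFun := fun j => ⟨⟨(j.1.1, j.2), fun h => j.1.2 (congrArg Prod.fst h)⟩, j.1.2⟩
            left_inv := ?_
            right_inv := ?_ }
        · rintro ⟨⟨⟨i, j⟩, hij⟩, h1⟩
          rfl
        · rintro ⟨⟨i, hi⟩, j⟩
          rfl
      · rintro ⟨⟨⟨i, j⟩, hij⟩, h1⟩
        rfl
      · rintro ⟨⟨⟨i, j⟩, hij⟩, h1⟩ ⟨⟨⟨i', j'⟩, hij'⟩, h1'⟩
        change tD N (N.pow n) (i, j) (i', j') = tD (N.quo (fun i => i = o) fun i l hi _ => by
          rw [hi]; exact hD l) (N.pow n) (⟨i, h1⟩, j) (⟨i', h1'⟩, j')
        unfold tD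
        congr 1
        by_cases h2 : i = i'
        · subst h2
          exact (if_pos rfl).trans (if_pos rfl).symm
        · exact (if_neg h2).trans (if_neg fun h3 => h2 (congrArg Subtype.val h3)).symm

/-- The unit is in the ideal of `M` if a closed even basis element of `N` is tensor nilpotent and the
quotient of `N` by it is in the ideal of `M`. -/
theorem thick_one {M N : TC A} (o : N.I) (ho : N.odd o = false) (hD : ∀ j, N.D o j = 0)
    (hQ : Thick M (N.quo (fun i => i = o) fun i l hi _ => by rw [hi]; exact hD l))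
    (hT : N.TN (Pi.single o 1)) : Thick M (TC.one A) := by
  obtain ⟨n, hn⟩ := hT
  rw [powE_single] at hn
  exact Thick.one_of_exact (powO o n) (odd_powO ho n) (D_powO hD n) (thick_quo_pow ho hD hQ n) hn

/-- If the unit is in the ideal of `M` then everything is. -/
theorem Thick.all_of_one {M : TC A} (h : Thick M (TC.one A)) (X : TC A) : Thick M X := by
  refine Thick.reindex (X := X.tmul (TC.one A)) (Equiv.prodPUnit _).symm ?_ ?_
    (Thick.left _ _ h)
  · intro i
    change X.odd i = (X.odd i ^^ false)
    rw [Bool.xor_false]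
  · intro i j
    change X.D i j = tD X (TC.one A) (i, ()) (j, ())
    unfold tD
    have h1 : (if (i, ()).1 = (j, ()).1 then sgn (X.odd (i, ()).1) •
        parP A (X.odd (i, ()).1) ((TC.one A).D (i, ()).2 (j, ()).2) else 0) = 0 := by
      split_ifs
      · change sgn (X.odd i) • parP A (X.odd i) (0 : A) = 0
        rw [map_zero, smul_zero]
      · rfl
    rw [h1, add_zero, if_pos rfl]

end TC

end Pool.Agent.SPC
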