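import Pool.Agent.SPC.Dual
import Pool.Agent.SPC.Thick

/-!
# The spectrum is a point

If the nilpotence theorem holds over `K` and `M` is not acyclic modulo the augmentation ideal, then
the smallest thick tensor ideal containing `M` contains every twisted complex.
-/

noncomputable section

namespace Pool.Agent.SPC

universe u

open SDG

namespace TC

variable {A : Type u} [Ring A] [Algebra ℚ A] [SDG A]

/-- The index of `w₀`. -/
def evn (M : TC A) : M.evc.I := (none : Option (M.I × M.I))

theorem evo_eq_single (M : TC A) : M.evo = Pi.single M.evn (1 : A) := by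
  funext x
  rw [Pi.single_apply]
  match x with
  | none => exact (if_pos rfl).symm
  | some x => exact (if_neg fun h => by injection h).symm

/-- The cone of the evaluation without `w₀` is the shift of `M ⊗ dual M`. -/
theorem thick_evc_quo (M : TC A) :
    Thick M (M.evc.quo (fun i => i = M.evn) fun i l hi _ => by rw [hi]; exact evc_D_none M l) := by
  have h0 : Thick M (M.tmul M.dual).sh := Thick.shift _ (Thick.right M M.dual Thick.self)
  refine Thick.reindex (X := (M.tmul M.dual).sh)
    (Y := M.evc.quo (fun i => i = M.evn) _)
    { toFun := fun x => Option.get x.1 (Option.isSome_iff_ne_none.2 x.2)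
      invFun := fun x => ⟨some x, fun h => by injection h⟩
      left_inv := fun x => Subtype.ext (Option.some_get _)
      right_inv := fun x => rfl } ?_ ?_ h0
  · rintro ⟨i, hi⟩
    match i, hi with
    | none, hi => exact absurd rfl hi
    | some x, _ => rfl
  · rintro ⟨i, hi⟩ ⟨j, hj⟩
    match i, hi, j, hj with
    | none, hi, _, _ => exact absurd rfl hi
    | some x, _, none, hj => exact absurd rfl hj
    | some x, _, some y, _ => rfl

end TC

/-- If the nilpotence theorem holds over `K` and `M` is not acyclic modulo the augmentation ideal,
then every twisted complex is in the smallest thick tensor ideal that contains `M`. -/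
theorem DGF.thick_all (A : DGF.{u}) {K : Type u} [Field K] [CharZero K]
    (hK : ∀ P : PT (A.obj K), P.Even → P.Closed → (P.map (A.eps K)).Exact → P.TN)
    (M : TC (A.obj K)) {m : M.I → ℚ} (hm : (M.map (A.eps K)).dif m = 0)
    (hm' : ¬ (M.map (A.eps K)).Exact m) (X : TC (A.obj K)) : TC.Thick M X := by
  refine TC.Thick.all_of_one (TC.thick_one (N := M.evc) M.evn
    (TC.evc_odd_none M) (TC.evc_D_none M) (TC.thick_evc_quo M) ?_) X
  have h := A.tn_evo hK M hm hm'
  rwa [TC.evo_eq_single] at h

end Pool.Agent.SPC
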