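import Pool.Agent.SPC.Thick
import Pool.Agent.SPC.Dual
import Pool.Agent.SPC.Inst

/-!
# The spectrum is a point

If the nilpotence theorem holds over `K`, every twisted complex over `A K` which is not acyclic modulo
the augmentation ideal generates the category of twisted complexes as a thick tensor ideal.
-/

noncomputable section

namespace Pool.Agent.SPC

universe u v

open SDG

namespace TC

variable {A : Type u} [Ring A] [Algebra ℚ A] [SDG A]

/-- The index of `w₀`. -/
def evn (M : TC A) : M.evc.I := (none : Option (M.I × M.I))

theorem evo_eq_single (M : TC A) : M.evo = Pi.single (M := fun _ => A) M.evn 1 := by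
  funext x
  by_cases h : x = M.evn
  · subst h
    rw [Pi.single_eq_same]
    rfl
  · rw [Pi.single_eq_of_ne h]
    cases x with
    | none => exact absurd rfl h
    | some x => rfl

/-- The cone of the evaluation without `w₀` is the shift of `M ⊗ dual M`. -/
theorem thick_quo_evc (M : TC A) : Thick M (M.evc.quo (fun i => i = M.evn) fun i l hi _ => by
    rw [hi]; exact M.evc_D_none l) := by
  refine Thick.reindex (X := (M.tmul M.dual).sh)
    ⟨fun i => (Option.get i.1 (Option.isSome_iff_ne_none.2 i.2) : M.I × M.I),
      fun x => ⟨some x, Option.some_ne_none x⟩, fun i => Subtype.ext (Option.some_get _),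
      fun x => rfl⟩ ?_ ?_ (Thick.shift _ (Thick.right _ _ Thick.self))
  · rintro ⟨i, hi⟩
    cases i with
    | none => exact absurd rfl hi
    | some x => rfl
  · rintro ⟨i, hi⟩ ⟨j, hj⟩
    cases i with
    | none => exact absurd rfl hi
    | some x =>
      cases j with
      | none => exact absurd rfl hj
      | some y => rfl

theorem thick_one_of_tn (M : TC A) (h : M.evc.TN M.evo) : Thick M (TC.one A) := by
  rw [evo_eq_single] at h
  exact thick_one M.evn rfl M.evc_D_none M.thick_quo_evc h

end TC

/-- The spectrum is a point: `M` is acyclic modulo the augmentation ideal or generates everything. -/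
theorem DGF.thick_of_nt (A : DGF.{u}) {K : Type u} [Field K] [CharZero K] (hK : A.NT K)
    (M : TC (A.obj K)) (hM : ∃ m, (M.map (A.eps K)).dif m = 0 ∧ ¬ (M.map (A.eps K)).Exact m)
    (X : TC (A.obj K)) : TC.Thick M X := by
  obtain ⟨m, hm, hm'⟩ := hM
  exact (M.thick_one_of_tn (A.tn_evo hK M hm hm')).all_of_one X

end Pool.Agent.SPC
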