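import Pool.Agent.SPC.Univ

/-!
# Functoriality of square-zero extensions

`Sq.mapS`: a homomorphism `φ : W → W'` over `A` induces `Sq M j → Sq M j'`. `Sq.op`: an odd
operator `H : W → W'` which is linear over `A` on the right induces an operator of the same kind,
componentwise, and `d H + H d` is componentwise too. `Sq.op0`: the same for even operators.
-/

noncomputable section

namespace Pool.Agent.SPC

universe u v w

open SDG

variable {A : Type u} {W : Type v} {W' : Type w} [Ring A] [Algebra ℚ A] [SDG A] [Ring W]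
  [Algebra ℚ W] [SDG W] [Ring W'] [Algebra ℚ W'] [SDG W']

namespace Sq

variable {M : TC A} {j : SHom A W} {j' : SHom A W'}

/-- Functoriality. -/
def mapS (φ : SHom W W') (h : ∀ a, φ (j a) = j' a) : SHom (Sq M j) (Sq M j') where
  toAlgHom := AlgHom.ofLinearMap
    { toFun := fun x => mk (φ x.fst) fun i => φ (x.snd i)
      map_add' := fun _ _ => ext (map_add φ _ _) fun _ => map_add φ _ _
      map_smul' := fun _ _ => ext (map_smul φ _ _) fun _ => map_smul φ _ _ }
    (ext (map_one φ) fun _ => map_zero φ)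
    (fun x y => ext (map_mul φ _ _) fun i => by
      change φ (x.fst * y.snd i + x.snd i * parP W (M.odd i) y.fst) =
        φ x.fst * φ (y.snd i) + φ (x.snd i) * parP W' (M.odd i) (φ y.fst)
      rw [map_add, map_mul, map_mul, φ.map_parP])
  map_par' x := ext (φ.map_par _) fun i => by
    change φ (sgn (M.odd i) • par (x.snd i)) = sgn (M.odd i) • par (φ (x.snd i))
    rw [map_smul, φ.map_par]
  map_d' x := ext (φ.map_d _) fun i => by
    change φ (d (x.snd i) + ∑ l, par (x.snd l) * j (M.D l i)) =
      d (φ (x.snd i)) + ∑ l, par (φ (x.snd l)) * j' (M.D l i)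
    rw [map_add, map_sum, φ.map_d]
    congr 1
    refine Finset.sum_congr rfl fun l _ => ?_
    rw [map_mul, φ.map_par, h]

@[simp] theorem fst_mapS (φ : SHom W W') (h : ∀ a, φ (j a) = j' a) (x : Sq M j) :
    (mapS φ h x).fst = φ x.fst := rfl

@[simp] theorem snd_mapS (φ : SHom W W') (h : ∀ a, φ (j a) = j' a) (x : Sq M j) (i : M.I) :
    (mapS φ h x).snd i = φ (x.snd i) := rfl

theorem mapS_incl (φ : SHom W W') (h : ∀ a, φ (j a) = j' a) (a : A) :
    mapS (M := M) φ h (incl M j a) = incl M j' a :=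
  ext (h a) fun _ => map_zero φ

/-- The operator on square-zero extensions induced by a `ℚ`-linear map. -/
def op (M : TC A) (j : SHom A W) (j' : SHom A W') (H : W →ₗ[ℚ] W') : Sq M j →ₗ[ℚ] Sq M j' where
  toFun x := mk (H x.fst) fun i => H (x.snd i)
  map_add' _ _ := ext (map_add H _ _) fun _ => map_add H _ _
  map_smul' _ _ := ext (map_smul H _ _) fun _ => map_smul H _ _

@[simp] theorem fst_op (H : W →ₗ[ℚ] W') (x : Sq M j) : (op M j j' H x).fst = H x.fst := rfl

@[simp] theorem snd_op (H : W →ₗ[ℚ] W') (x : Sq M j) (i : M.I) :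
    (op M j j' H x).snd i = H (x.snd i) := rfl

theorem op_mapS (φ : SHom W W') (h : ∀ a, φ (j a) = j' a) (x : Sq M j) :
    op M j j' φ.toAlgHom.toLinearMap x = mapS φ h x := rfl

theorem op_mul {H : W →ₗ[ℚ] W'} (h : ∀ x a, H (x * j a) = H x * j' a) (x : Sq M j) (a : A) :
    op M j j' H (x * incl M j a) = op M j j' H x * incl M j' a := by
  refine ext (h _ _) fun i => ?_
  rw [snd_op, snd_mul, snd_mul, snd_incl, snd_incl, mul_zero, mul_zero, zero_add, zero_add,
    fst_incl, fst_incl, snd_op, ← j.map_parP, ← j'.map_parP, h]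

theorem op_par_odd {H : W →ₗ[ℚ] W'} (h : ∀ x, H (par x) = -par (H x)) (x : Sq M j) :
    op M j j' H (par x) = -par (op M j j' H x) := by
  refine ext (h _) fun i => ?_
  change H (sgn (M.odd i) • par (x.snd i)) = -(sgn (M.odd i) • par (H (x.snd i)))
  rw [map_smul, h, smul_neg]

theorem op_par_even {H : W →ₗ[ℚ] W'} (h : ∀ x, H (par x) = par (H x)) (x : Sq M j) :
    op M j j' H (par x) = par (op M j j' H x) := by
  refine ext (h _) fun i => ?_
  change H (sgn (M.odd i) • par (x.snd i)) = sgn (M.odd i) • par (H (x.snd i))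
  rw [map_smul, h]

/-- For odd right linear operators `d H + H d` is computed componentwise. -/
theorem op_d_odd {H T : W →ₗ[ℚ] W'} (hp : ∀ x, H (par x) = -par (H x))
    (hm : ∀ x a, H (x * j a) = H x * j' a) (hT : ∀ x, d (H x) + H (d x) = T x) (x : Sq M j) :
    d (op M j j' H x) + op M j j' H (d x) = op M j j' T x := by
  refine ext (hT _) fun i => ?_
  change (d (H (x.snd i)) + ∑ l, par (H (x.snd l)) * j' (M.D l i)) +
    H (d (x.snd i) + ∑ l, par (x.snd l) * j (M.D l i)) = T (x.snd i)
  rw [← hT, map_add, map_sum]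
  have h1 : ∑ l, H (par (x.snd l) * j (M.D l i)) = -∑ l, par (H (x.snd l)) * j' (M.D l i) := by
    rw [← Finset.sum_neg_distrib]
    refine Finset.sum_congr rfl fun l _ => ?_
    rw [hm, hp, neg_mul]
  rw [h1]
  abel

/-- Even right linear operators which commute with `d`. -/
theorem op_d_even {H : W →ₗ[ℚ] W'} (hp : ∀ x, H (par x) = par (H x))
    (hm : ∀ x a, H (x * j a) = H x * j' a) (hd : ∀ x, d (H x) = H (d x)) (x : Sq M j) :
    d (op M j j' H x) = op M j j' H (d x) := by
  refine ext (hd _) fun i => ?_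
  change d (H (x.snd i)) + ∑ l, par (H (x.snd l)) * j' (M.D l i) =
    H (d (x.snd i) + ∑ l, par (x.snd l) * j (M.D l i))
  rw [hd, map_add, map_sum]
  congr 1
  refine Finset.sum_congr rfl fun l _ => ?_
  rw [hm, hp]

end Sq

end Pool.Agent.SPC
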