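import Pool.Agent.SPC.Rep

/-!
# Square-zero extensions

`Sq M j = W ⊕ W ⊗ M`, the supercommutative differential ring obtained from `W` by adding one
element `(0, e i)` for each basis element of `M`, with products of two such elements zero.
-/

noncomputable section

namespace Pool.Agent.SPC

universe u v w

open SDG

variable {A : Type u} {W : Type v} [Ring A] [Algebra ℚ A] [SDG A] [Ring W] [Algebra ℚ W] [SDG W]

/-- `W ⊕ W ⊗ M` -/
def Sq (M : TC A) (_ : SHom A W) : Type v := W × (M.I → W)

namespace Sq

variable {M : TC A} {j : SHom A W}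

instance : AddCommGroup (Sq M j) := inferInstanceAs (AddCommGroup (W × (M.I → W)))

instance : Module ℚ (Sq M j) := inferInstanceAs (Module ℚ (W × (M.I → W)))

/-- constructor -/
def mk (a : W) (m : M.I → W) : Sq M j := (a, m)

/-- first component -/
def fst (x : Sq M j) : W := x.1

/-- second component -/
def snd (x : Sq M j) : M.I → W := x.2

@[simp] theorem fst_mk (a : W) (m : M.I → W) : (mk a m : Sq M j).fst = a := rfl

@[simp] theorem snd_mk (a : W) (m : M.I → W) : (mk a m : Sq M j).snd = m := rfl

theorem ext {x y : Sq M j} (h1 : x.fst = y.fst) (h2 : ∀ i, x.snd i = y.snd i) : x = y :=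
  Prod.ext h1 (funext h2)

@[simp] theorem fst_add (x y : Sq M j) : (x + y).fst = x.fst + y.fst := rfl

@[simp] theorem snd_add (x y : Sq M j) (i : M.I) : (x + y).snd i = x.snd i + y.snd i := rfl

@[simp] theorem fst_zero : (0 : Sq M j).fst = 0 := rfl

@[simp] theorem snd_zero (i : M.I) : (0 : Sq M j).snd i = 0 := rfl

@[simp] theorem fst_neg (x : Sq M j) : (-x).fst = -x.fst := rfl

@[simp] theorem snd_neg (x : Sq M j) (i : M.I) : (-x).snd i = -x.snd i := rfl

@[simp] theorem fst_smul (c : ℚ) (x : Sq M j) : (c • x).fst = c • x.fst := rfl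

@[simp] theorem snd_smul (c : ℚ) (x : Sq M j) (i : M.I) : (c • x).snd i = c • x.snd i := rfl

instance : One (Sq M j) := ⟨mk 1 0⟩

instance : Mul (Sq M j) :=
  ⟨fun x y => mk (x.fst * y.fst) fun i => x.fst * y.snd i + x.snd i * parP W (M.odd i) y.fst⟩

@[simp] theorem fst_one : (1 : Sq M j).fst = 1 := rfl

@[simp] theorem snd_one (i : M.I) : (1 : Sq M j).snd i = 0 := rfl

@[simp] theorem fst_mul (x y : Sq M j) : (x * y).fst = x.fst * y.fst := rfl

theorem snd_mul (x y : Sq M j) (i : M.I) :
    (x * y).snd i = x.fst * y.snd i + x.snd i * parP W (M.odd i) y.fst := rfl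

instance : Ring (Sq M j) :=
  { (inferInstance : AddCommGroup (Sq M j)) with
    mul := (· * ·)
    one := 1
    left_distrib := by
      intro x y z
      refine ext (mul_add _ _ _) fun i => ?_
      simp only [snd_mul, snd_add, fst_add, map_add, mul_add]
      abel
    right_distrib := by
      intro x y z
      refine ext (add_mul _ _ _) fun i => ?_
      simp only [snd_mul, snd_add, fst_add, add_mul]
      abel
    zero_mul := by
      intro x
      refine ext (zero_mul _) fun i => ?_
      simp only [snd_mul, snd_zero, fst_zero, zero_mul, add_zero]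
    mul_zero := by
      intro x
      refine ext (mul_zero _) fun i => ?_
      simp only [snd_mul, snd_zero, fst_zero, mul_zero, map_zero, add_zero]
    mul_assoc := by
      intro x y z
      refine ext (mul_assoc _ _ _) fun i => ?_
      simp only [snd_mul, fst_mul, map_mul, mul_add, add_mul, mul_assoc]
      abel
    one_mul := by
      intro x
      refine ext (one_mul _) fun i => ?_
      simp only [snd_mul, snd_one, fst_one, one_mul, zero_mul, add_zero]
    mul_one := by
      intro x
      refine ext (mul_one _) fun i => ?_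
      simp only [snd_mul, snd_one, fst_one, map_one, mul_one, mul_zero, zero_add] }

instance : Algebra ℚ (Sq M j) :=
  Algebra.ofModule
    (fun c x y => ext (smul_mul_assoc c x.fst y.fst) fun i => by
      rw [snd_mul, snd_smul, snd_smul, fst_smul, snd_mul, smul_mul_assoc, smul_mul_assoc, smul_add])
    (fun c x y => ext (mul_smul_comm c x.fst y.fst) fun i => by
      rw [snd_mul, snd_smul, snd_smul, fst_smul, snd_mul, mul_smul_comm, map_smul, mul_smul_comm,
        smul_add])

/-- the parity automorphism -/
def parA : Sq M j →ₐ[ℚ] Sq M j :=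
  AlgHom.ofLinearMap
    { toFun := fun x => mk (par x.fst) fun i => sgn (M.odd i) • par (x.snd i)
      map_add' := fun x y => ext (map_add _ _ _) fun i => by
        simp only [snd_mk, snd_add, map_add, smul_add]
      map_smul' := fun c x => ext (map_smul _ _ _) fun i => by
        simp only [snd_mk, snd_smul, map_smul, RingHom.id_apply, smul_comm c] }
    (ext (map_one _) fun i => by
      change sgn (M.odd i) • par (0 : W) = 0
      rw [map_zero, smul_zero])
    (fun x y => ext (map_mul _ _ _) fun i => by
      change sgn (M.odd i) • par (x.fst * y.snd i + x.snd i * parP W (M.odd i) y.fst) =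
        par x.fst * (sgn (M.odd i) • par (y.snd i)) +
          (sgn (M.odd i) • par (x.snd i)) * parP W (M.odd i) (par y.fst)
      rw [map_add, map_mul, map_mul, smul_add, mul_smul_comm, smul_mul_assoc, par_parP, parP_par])

@[simp] theorem fst_parA (x : Sq M j) : (parA x).fst = par x.fst := rfl

@[simp] theorem snd_parA (x : Sq M j) (i : M.I) :
    (parA x).snd i = sgn (M.odd i) • par (x.snd i) := rfl

/-- the differential -/
def dA : Sq M j →ₗ[ℚ] Sq M j where
  toFun x := mk (d x.fst) ((M.map j).dif x.snd)
  map_add' x y := ext (map_add _ _ _) fun i => congrFun (map_add (M.map j).dif x.snd y.snd) i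
  map_smul' c x := ext (map_smul _ _ _) fun i => congrFun (map_smul (M.map j).dif c x.snd) i

@[simp] theorem fst_dA (x : Sq M j) : (dA x).fst = d x.fst := rfl

theorem snd_dA (x : Sq M j) (i : M.I) :
    (dA x).snd i = d (x.snd i) + ∑ l, par (x.snd l) * j (M.D l i) := rfl

instance : SDG (Sq M j) where
  par := parA
  d := dA
  par_par x := ext (par_par _) fun i => by
    rw [snd_parA, snd_parA, map_smul, par_par, sgn_smul_smul]
  d_par x := by
    refine ext (d_par _) fun i => ?_
    have h := congrFun (TC.dif_pr (M.map j) x.snd) i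
    exact h
  d_d x := by
    refine ext (d_d _) fun i => ?_
    have h := congrFun (TC.dif_dif (M.map j) x.snd) i
    exact h
  d_mul x y := by
    refine ext (d_mul _ _) fun i => ?_
    have e1 : ∀ l, parP W (M.odd l) (par y.fst) * j (M.D l i) =
        j (M.D l i) * parP W (M.odd i) y.fst := by
      intro l
      rw [(j.isPar (M.par_D l i)).mul_comm (parP W (M.odd i) y.fst), parP_parP, parP_par]
      congr 2
      cases M.odd l <;> cases M.odd i <;> rfl
    rw [snd_dA, snd_add, snd_mul, snd_mul, snd_mul, snd_dA, snd_dA, fst_dA, fst_dA, fst_parA,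
      snd_parA]
    simp only [snd_mul, map_add, map_mul, d_mul, d_parP, par_parP, mul_add, add_mul,
      Finset.sum_add_distrib, Finset.mul_sum, Finset.sum_mul, mul_assoc, smul_mul_assoc,
      mul_smul_comm]
    have e2 : ∀ l, par (x.snd l) * (parP W (!M.odd l) y.fst * j (M.D l i)) =
        par (x.snd l) * (j (M.D l i) * parP W (M.odd i) y.fst) := by
      intro l
      rw [← e1, parP_par]
    simp only [e2]
    abel
  comm x y hx := by
    have h1 : par x.fst = x.fst := congrArg Sq.fst hx
    have h2 : ∀ i, IsPar (M.odd i) (x.snd i) := by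
      intro i
      have h3 : sgn (M.odd i) • par (x.snd i) = x.snd i := congrFun (congrArg Sq.snd hx) i
      unfold IsPar
      rw [← sgn_smul_smul (M.odd i) (par (x.snd i)), h3]
    refine ext (SDG.comm _ _ h1) fun i => ?_
    rw [snd_mul, snd_mul, SDG.comm _ _ h1, (h2 i).mul_comm, parP_self, add_comm]
    congr 2
    cases M.odd i
    · rfl
    · exact h1.symm
  anti x y hx hy := by
    have h1 : par x.fst = -x.fst := congrArg Sq.fst hx
    have k1 : par y.fst = -y.fst := congrArg Sq.fst hy
    have h2 : ∀ i, IsPar (!M.odd i) (x.snd i) := by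
      intro i
      have h3 : sgn (M.odd i) • par (x.snd i) = -x.snd i := congrFun (congrArg Sq.snd hx) i
      unfold IsPar
      rw [← sgn_smul_smul (M.odd i) (par (x.snd i)), h3, sgn_not, neg_smul, smul_neg]
    have k2 : ∀ i, IsPar (!M.odd i) (y.snd i) := by
      intro i
      have h3 : sgn (M.odd i) • par (y.snd i) = -y.snd i := congrFun (congrArg Sq.snd hy) i
      unfold IsPar
      rw [← sgn_smul_smul (M.odd i) (par (y.snd i)), h3, sgn_not, neg_smul, smul_neg]
    refine ext (SDG.anti _ _ h1 k1) fun i => ?_
    have a1 : parP W (M.odd i) x.fst = sgn (M.odd i) • x.fst := by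
      cases M.odd i
      · rw [parP_false, sgn_false, one_smul]
      · rw [parP_true, sgn_true, neg_one_smul]
        exact h1
    have a2 : parP W (M.odd i) y.fst = sgn (M.odd i) • y.fst := by
      cases M.odd i
      · rw [parP_false, sgn_false, one_smul]
      · rw [parP_true, sgn_true, neg_one_smul]
        exact k1
    have p1 : IsPar true x.fst := by
      unfold IsPar
      rw [sgn_true, neg_one_smul]
      exact h1
    have p2 : IsPar true y.fst := by
      unfold IsPar
      rw [sgn_true, neg_one_smul]
      exact k1
    have c1 : par (y.snd i) = sgn (!M.odd i) • y.snd i := k2 i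
    have c2 : par (x.snd i) = sgn (!M.odd i) • x.snd i := h2 i
    rw [snd_neg, snd_mul, snd_mul, a1, a2, p1.mul_comm, p2.mul_comm, parP_true, parP_true, c1, c2,
      sgn_not, mul_smul_comm, mul_smul_comm, smul_mul_assoc, smul_mul_assoc, neg_smul, neg_smul]
    abel

end Sq

end Pool.Agent.SPC
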