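import Pool.Agent.SPC.Sdg

/-!
# Finite twisted complexes over a supercommutative differential ring

`M : TC A` is a free left module on finitely many basis elements `w i` (parity `odd i`) with
`d (w i) = ∑ j, D i j * w j`, `D` strictly triangular. An element `∑ i, f i * w i` is the family
`f : M.I → A`.
-/

noncomputable section

namespace Pool.Agent.SPC

universe u v w

open SDG

/-- Finite twisted complexes (semi-free modules with finitely many generators). -/
structure TC (A : Type u) [Ring A] [Algebra ℚ A] [SDG A] where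
  I : Type
  [fin : Fintype I]
  [dec : DecidableEq I]
  odd : I → Bool
  rk : I → ℕ
  D : I → I → A
  par_D : ∀ i j, IsPar (!(odd i ^^ odd j)) (D i j)
  tri : ∀ i j, rk i ≤ rk j → D i j = 0
  flat : ∀ i j, d (D i j) + ∑ l, par (D i l) * D l j = 0

attribute [instance] TC.fin TC.dec

namespace TC

variable {A : Type u} {A' : Type v} [Ring A] [Algebra ℚ A] [SDG A] [Ring A'] [Algebra ℚ A']
  [SDG A']

/-- The differential of `M`: `d (∑ i, f i * w i) = ∑ j, (M.dif f) j * w j`. -/
def dif (M : TC A) : (M.I → A) →ₗ[ℚ] (M.I → A) where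
  toFun f j := d (f j) + ∑ i, par (f i) * M.D i j
  map_add' f g := by
    funext j
    simp only [Pi.add_apply, map_add, add_mul, Finset.sum_add_distrib]
    abel
  map_smul' c f := by
    funext j
    simp only [Pi.smul_apply, map_smul, RingHom.id_apply, smul_mul_assoc, smul_add,
      Finset.smul_sum]

theorem dif_apply (M : TC A) (f : M.I → A) (j : M.I) :
    M.dif f j = d (f j) + ∑ i, par (f i) * M.D i j := rfl

/-- The parity automorphism of `M`. -/
def pr (M : TC A) : (M.I → A) →ₗ[ℚ] (M.I → A) where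
  toFun f i := sgn (M.odd i) • par (f i)
  map_add' f g := by
    funext j
    simp only [Pi.add_apply, map_add, smul_add]
  map_smul' c f := by
    funext j
    simp only [Pi.smul_apply, map_smul, RingHom.id_apply, smul_comm c]

theorem pr_apply (M : TC A) (f : M.I → A) (i : M.I) : M.pr f i = sgn (M.odd i) • par (f i) := rfl

/-- `f` is an even element of `M`. -/
def Even (M : TC A) (f : M.I → A) : Prop := ∀ i, IsPar (M.odd i) (f i)

/-- `f` is a boundary. -/
def Exact (M : TC A) (f : M.I → A) : Prop := ∃ g, M.dif g = f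

theorem even_iff {M : TC A} {f : M.I → A} : M.Even f ↔ M.pr f = f := by
  constructor
  · intro h
    funext i
    have h1 : par (f i) = sgn (M.odd i) • f i := h i
    rw [pr_apply, h1, sgn_smul_smul]
  · intro h i
    have h1 := congrFun h i
    rw [pr_apply] at h1
    unfold IsPar
    rw [← sgn_smul_smul (M.odd i) (par (f i)), h1]

theorem dif_dif (M : TC A) (f : M.I → A) : M.dif (M.dif f) = 0 := by
  funext j
  rw [dif_apply]
  simp only [dif_apply, map_add, map_sum, d_d, d_mul, d_par, par_par, map_mul, zero_add, neg_mul,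
    Finset.sum_add_distrib, add_mul, Finset.sum_mul, Finset.sum_neg_distrib, Pi.zero_apply]
  have h1 : ∑ i, f i * d (M.D i j) + ∑ l, ∑ i, f i * par (M.D i l) * M.D l j = 0 := by
    rw [Finset.sum_comm, ← Finset.sum_add_distrib]
    refine Finset.sum_eq_zero fun i _ => ?_
    have h2 := congrArg (fun x => f i * x) (M.flat i j)
    simp only [mul_add, mul_zero, Finset.mul_sum, ← mul_assoc] at h2
    exact h2
  rw [← h1]
  abel

/-- A twisted complex is determined by a matrix for which the differential squares to zero. -/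
theorem flat_of_dif_dif {I : Type} [Fintype I] [DecidableEq I] (D : I → I → A)
    (h : ∀ (i j : I), d ((fun j => d (Pi.single (M := fun _ => A) i 1 j) +
      ∑ l, par (Pi.single (M := fun _ => A) i 1 l) * D l j) j) +
      ∑ m, par ((fun j => d (Pi.single (M := fun _ => A) i 1 j) +
      ∑ l, par (Pi.single (M := fun _ => A) i 1 l) * D l j) m) * D m j = 0) (i j : I) :
    d (D i j) + ∑ l, par (D i l) * D l j = 0 := by
  have h1 : ∀ j, (d (Pi.single (M := fun _ => A) i 1 j) +
      ∑ l, par (Pi.single (M := fun _ => A) i 1 l) * D l j) = D i j := by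
    intro j
    rw [Finset.sum_eq_single i]
    · rw [Pi.single_eq_same, map_one, one_mul]
      by_cases hij : j = i
      · subst hij
        rw [Pi.single_eq_same, d_one, zero_add]
      · rw [Pi.single_eq_of_ne hij, map_zero, zero_add]
    · intro l _ hl
      rw [Pi.single_eq_of_ne hl, map_zero, zero_mul]
    · intro h
      exact absurd (Finset.mem_univ i) h
  have h2 := h i j
  simp only [h1] at h2
  exact h2

/-- Base change. -/
def map (φ : SHom A A') (M : TC A) : TC A' where
  I := M.I
  odd := M.odd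
  rk := M.rk
  D i j := φ (M.D i j)
  par_D i j := φ.isPar (M.par_D i j)
  tri i j h := by rw [M.tri i j h, map_zero]
  flat i j := by
    have h := congrArg φ (M.flat i j)
    rw [map_add, map_sum, map_zero, φ.map_d] at h
    rw [← h]
    congr 1
    refine Finset.sum_congr rfl fun l _ => ?_
    rw [map_mul, φ.map_par]

/-- Base change of elements. -/
def mapE (φ : SHom A A') (M : TC A) (f : M.I → A) : (M.map φ).I → A' := fun i => φ (f i)

theorem mapE_dif (φ : SHom A A') (M : TC A) (f : M.I → A) :
    mapE φ M (M.dif f) = (M.map φ).dif (mapE φ M f) := by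
  funext j
  change φ (M.dif f j) = _
  rw [dif_apply, dif_apply, map_add, map_sum, φ.map_d]
  congr 1
  refine Finset.sum_congr rfl fun l _ => ?_
  rw [map_mul, φ.map_par]
  rfl

theorem Exact.mapE (φ : SHom A A') {M : TC A} {f : M.I → A} (h : M.Exact f) :
    (M.map φ).Exact (mapE φ M f) := by
  obtain ⟨g, rfl⟩ := h
  exact ⟨TC.mapE φ M g, (mapE_dif φ M g).symm⟩

theorem Even.mapE (φ : SHom A A') {M : TC A} {f : M.I → A} (h : M.Even f) :
    (M.map φ).Even (TC.mapE φ M f) := fun i => φ.isPar (h i)

/-- The unit object. -/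
def one (A : Type u) [Ring A] [Algebra ℚ A] [SDG A] : TC A where
  I := Unit
  odd _ := false
  rk _ := 0
  D _ _ := 0
  par_D _ _ := IsPar.zero _
  tri _ _ _ := rfl
  flat _ _ := by simp

/-- The matrix of the differential of a tensor product. -/
def tD (M N : TC A) (x y : M.I × N.I) : A :=
  (if x.2 = y.2 then M.D x.1 y.1 else 0) +
    (if x.1 = y.1 then sgn (M.odd x.1) • parP A (M.odd x.1) (N.D x.2 y.2) else 0)

/-- The product of two elements. -/
def tE (M N : TC A) (f : M.I → A) (g : N.I → A) (x : M.I × N.I) : A :=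
  f x.1 * parP A (M.odd x.1) (g x.2)

theorem tE_single (M N : TC A) (i : M.I) (j : N.I) :
    tE M N (Pi.single i 1) (Pi.single j 1) = Pi.single (i, j) 1 := by
  funext x
  obtain ⟨k, l⟩ := x
  unfold tE
  by_cases h1 : k = i
  · subst h1
    by_cases h2 : l = j
    · subst h2
      simp
    · rw [Pi.single_eq_of_ne (M := fun _ => A) h2, map_zero, mul_zero, Pi.single_eq_of_ne]
      intro h
      exact h2 (Prod.mk.inj h).2
  · rw [Pi.single_eq_of_ne (M := fun _ => A) h1, zero_mul, Pi.single_eq_of_ne]
    intro h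
    exact h1 (Prod.mk.inj h).1

/-- The Leibniz rule for the product of two elements. -/
theorem tE_leibniz (M N : TC A) (f : M.I → A) (g : N.I → A) (y : M.I × N.I) :
    d (tE M N f g y) + ∑ x, par (tE M N f g x) * tD M N x y =
      tE M N (M.dif f) g y + tE M N (M.pr f) (N.dif g) y := by
  obtain ⟨k, l⟩ := y
  have e1 : ∀ i j, par (tE M N f g (i, j)) * tD M N (i, j) (k, l) =
      (if j = l then par (f i) * (par (parP A (M.odd i) (g j)) * M.D i k) else 0) +
      (if i = k then sgn (M.odd i) • (par (f i) *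
        (par (parP A (M.odd i) (g j)) * parP A (M.odd i) (N.D j l))) else 0) := by
    intro i j
    unfold tE tD
    rw [map_mul, mul_add]
    congr 1
    · split_ifs
      · rw [mul_assoc]
      · rw [mul_zero]
    · split_ifs
      · rw [mul_smul_comm, mul_assoc]
      · rw [mul_zero]
  rw [Fintype.sum_prod_type]
  simp only [e1, Finset.sum_add_distrib, Finset.sum_ite_eq', Finset.sum_ite_irrel,
    Finset.sum_const_zero, Finset.mem_univ, if_true]
  have e2 : ∀ i, par (parP A (M.odd i) (g l)) * M.D i k =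
      M.D i k * parP A (M.odd k) (g l) := by
    intro i
    rw [(M.par_D i k).mul_comm (parP A (M.odd k) (g l)), parP_parP, par_parP]
    congr 2
    cases M.odd i <;> cases M.odd k <;> rfl
  have e3 : ∀ j, par (parP A (M.odd k) (g j)) * parP A (M.odd k) (N.D j l) =
      parP A (M.odd k) (par (g j) * N.D j l) := by
    intro j
    rw [map_mul, par_parP, parP_par]
  simp only [e2, e3]
  unfold tE
  rw [dif_apply, dif_apply, pr_apply, d_mul, d_parP, add_mul, Finset.sum_mul, map_add, map_sum,
    mul_add, Finset.mul_sum, smul_mul_assoc, mul_smul_comm, ← Finset.smul_sum]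
  simp only [mul_assoc, smul_mul_assoc, ← Finset.smul_sum]
  abel

theorem par_tD (M N : TC A) (x y : M.I × N.I) :
    IsPar (!((M.odd x.1 ^^ N.odd x.2) ^^ (M.odd y.1 ^^ N.odd y.2))) (tD M N x y) := by
  unfold tD
  refine IsPar.add ?_ ?_
  · split_ifs with h
    · rw [h]
      have h1 := M.par_D x.1 y.1
      have h2 : (!((M.odd x.1 ^^ N.odd y.2) ^^ (M.odd y.1 ^^ N.odd y.2))) =
          !(M.odd x.1 ^^ M.odd y.1) := by
        cases M.odd x.1 <;> cases M.odd y.1 <;> cases N.odd y.2 <;> rfl
      rw [h2]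
      exact h1
    · exact IsPar.zero _
  · split_ifs with h
    · rw [h]
      have h1 := (N.par_D x.2 y.2).apply_parP (M.odd y.1)
      have h2 : (!((M.odd y.1 ^^ N.odd x.2) ^^ (M.odd y.1 ^^ N.odd y.2))) =
          !(N.odd x.2 ^^ N.odd y.2) := by
        cases N.odd x.2 <;> cases M.odd y.1 <;> cases N.odd y.2 <;> rfl
      rw [h2]
      exact h1.smul _
    · exact IsPar.zero _

theorem tri_tD (M N : TC A) (x y : M.I × N.I) (h : M.rk x.1 + N.rk x.2 ≤ M.rk y.1 + N.rk y.2) :
    tD M N x y = 0 := by
  unfold tD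
  have h1 : (if x.2 = y.2 then M.D x.1 y.1 else 0) = 0 := by
    split_ifs with h2
    · rw [h2] at h
      exact M.tri _ _ (by omega)
    · rfl
  have h3 : (if x.1 = y.1 then sgn (M.odd x.1) • parP A (M.odd x.1) (N.D x.2 y.2) else 0) = 0 := by
    split_ifs with h2
    · rw [h2] at h
      rw [N.tri _ _ (by omega), map_zero, smul_zero]
    · rfl
  rw [h1, h3, add_zero]

/-- `d ∘ pr = - pr ∘ d` -/
theorem dif_pr (M : TC A) (f : M.I → A) : M.dif (M.pr f) = -M.pr (M.dif f) := by
  funext j
  rw [dif_apply, Pi.neg_apply, pr_apply, pr_apply, dif_apply, map_smul, d_par, map_add, map_sum,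
    smul_neg, smul_add, neg_add]
  congr 1
  rw [Finset.smul_sum, ← Finset.sum_neg_distrib]
  refine Finset.sum_congr rfl fun i _ => ?_
  rw [pr_apply, map_smul, map_mul]
  have h1 : par (M.D i j) = sgn (!(M.odd i ^^ M.odd j)) • M.D i j := M.par_D i j
  rw [h1, mul_smul_comm, smul_smul, smul_mul_assoc, ← neg_smul]
  congr 1
  cases M.odd i <;> cases M.odd j <;> simp

theorem pr_pr (M : TC A) (f : M.I → A) : M.pr (M.pr f) = f := by
  funext j
  rw [pr_apply, pr_apply, map_smul, par_par, sgn_smul_smul]

theorem flat_tD (M N : TC A) (x y : M.I × N.I) :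
    d (tD M N x y) + ∑ z, par (tD M N x z) * tD M N z y = 0 := by
  refine flat_of_dif_dif (tD M N) ?_ x y
  rintro ⟨i, j⟩ y
  have e0 : ∀ (f : M.I → A) (g : N.I → A) (y : M.I × N.I),
      d (tE M N f g y) + ∑ x, par (tE M N f g x) * tD M N x y =
      tE M N (M.dif f) g y + tE M N (M.pr f) (N.dif g) y := tE_leibniz M N
  have e1 : ∀ y, (d (Pi.single (M := fun _ => A) (i, j) 1 y) +
      ∑ l, par (Pi.single (M := fun _ => A) (i, j) 1 l) * tD M N l y) =
      tE M N (M.dif (Pi.single i 1)) (Pi.single j 1) y +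
        tE M N (M.pr (Pi.single i 1)) (N.dif (Pi.single j 1)) y := by
    intro y
    rw [← e0]
    simp only [tE_single]
  simp only [e1]
  have e2 : d (tE M N (M.dif (Pi.single i 1)) (Pi.single j 1) y +
        tE M N (M.pr (Pi.single i 1)) (N.dif (Pi.single j 1)) y) +
      ∑ m, par (tE M N (M.dif (Pi.single i 1)) (Pi.single j 1) m +
        tE M N (M.pr (Pi.single i 1)) (N.dif (Pi.single j 1)) m) * tD M N m y =
      (tE M N (M.dif (M.dif (Pi.single i 1))) (Pi.single j 1) y +
        tE M N (M.pr (M.dif (Pi.single i 1))) (N.dif (Pi.single j 1)) y) +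
      (tE M N (M.dif (M.pr (Pi.single i 1))) (N.dif (Pi.single j 1)) y +
        tE M N (M.pr (M.pr (Pi.single i 1))) (N.dif (N.dif (Pi.single j 1))) y) := by
    rw [← e0 (M.dif (Pi.single i 1)) (Pi.single j 1) y,
      ← e0 (M.pr (Pi.single i 1)) (N.dif (Pi.single j 1)) y]
    simp only [map_add, add_mul, Finset.sum_add_distrib]
    abel
  rw [e2, dif_dif, dif_dif, dif_pr]
  unfold tE
  simp only [Pi.zero_apply, Pi.neg_apply, zero_mul, map_zero, mul_zero, neg_mul, zero_add,
    add_zero]
  abel

/-- The tensor product over `A`, with basis `w (i, j) = w i ⊗ w' j`. -/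
def tmul (M N : TC A) : TC A where
  I := M.I × N.I
  odd x := M.odd x.1 ^^ N.odd x.2
  rk x := M.rk x.1 + N.rk x.2
  D := tD M N
  par_D := par_tD M N
  tri := tri_tD M N
  flat := flat_tD M N

theorem tmul_dif (M N : TC A) (f : M.I → A) (g : N.I → A) :
    (M.tmul N).dif (tE M N f g) = tE M N (M.dif f) g + tE M N (M.pr f) (N.dif g) :=
  funext fun y => tE_leibniz M N f g y

theorem tmul_even {M N : TC A} {f : M.I → A} {g : N.I → A} (hf : M.Even f) (hg : N.Even g) :
    (M.tmul N).Even (tE M N f g) := fun x => (hf x.1).mul ((hg x.2).apply_parP _)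

theorem tE_zero_left (M N : TC A) (g : N.I → A) : tE M N 0 g = 0 := by
  funext x
  unfold tE
  rw [Pi.zero_apply, zero_mul, Pi.zero_apply]

theorem tE_zero_right (M N : TC A) (f : M.I → A) : tE M N f 0 = 0 := by
  funext x
  unfold tE
  rw [Pi.zero_apply, map_zero, mul_zero, Pi.zero_apply]

theorem tmul_closed {M N : TC A} {f : M.I → A} {g : N.I → A} (hf : M.dif f = 0)
    (hg : N.dif g = 0) : (M.tmul N).dif (tE M N f g) = 0 := by
  rw [tmul_dif, hf, hg, tE_zero_left, tE_zero_right]
  exact add_zero _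

/-- Tensor powers: `pow 0 = 1`, `pow (n + 1) = M ⊗ pow n`. -/
def pow (M : TC A) : ℕ → TC A
  | 0 => one A
  | n + 1 => M.tmul (M.pow n)

/-- The power of an element. -/
def powE (M : TC A) (f : M.I → A) : (n : ℕ) → (M.pow n).I → A
  | 0 => fun _ => 1
  | n + 1 => tE M (M.pow n) f (powE M f n)

theorem powE_even {M : TC A} {f : M.I → A} (hf : M.Even f) (n : ℕ) :
    (M.pow n).Even (M.powE f n) := by
  induction n with
  | zero => intro x; exact IsPar.one
  | succ n ih => exact tmul_even hf ih

theorem powE_closed {M : TC A} {f : M.I → A} (hf : M.dif f = 0) (n : ℕ) :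
    (M.pow n).dif (M.powE f n) = 0 := by
  induction n with
  | zero =>
    funext x
    rw [dif_apply]
    change d (1 : A) + ∑ i : Unit, par (1 : A) * 0 = 0
    rw [d_one]
    simp
  | succ n ih => exact tmul_closed hf ih

/-- `f` is tensor nilpotent: some power `f ⊗ ... ⊗ f` is a boundary. -/
def TN (M : TC A) (f : M.I → A) : Prop := ∃ n, (M.pow n).Exact (M.powE f n)

end TC

/-- A twisted complex with an element. -/
def PT (A : Type u) [Ring A] [Algebra ℚ A] [SDG A] : Type (max u 1) := Σ M : TC A, (M.I → A)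

namespace PT

variable {A : Type u} {A' : Type v} {A'' : Type w} [Ring A] [Algebra ℚ A] [SDG A] [Ring A']
  [Algebra ℚ A'] [SDG A'] [Ring A''] [Algebra ℚ A''] [SDG A'']

/-- pairs with the same underlying data are equal -/
theorem ext' {I : Type} [Fintype I] [DecidableEq I] {odd : I → Bool} {rk : I → ℕ}
    {D D' : I → I → A} {p p' t t' q q'} {f f' : I → A} (hD : D = D') (hf : f = f') :
    (⟨⟨I, odd, rk, D, p, t, q⟩, f⟩ : PT A) = ⟨⟨I, odd, rk, D', p', t', q'⟩, f'⟩ := by
  subst hD
  subst hf
  rfl

/-- base change -/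
def map (φ : SHom A A') (P : PT A) : PT A' := ⟨P.1.map φ, TC.mapE φ P.1 P.2⟩

/-- tensor product -/
def tmul (P Q : PT A) : PT A := ⟨P.1.tmul Q.1, TC.tE P.1 Q.1 P.2 Q.2⟩

/-- tensor power -/
def pow (P : PT A) (n : ℕ) : PT A := ⟨P.1.pow n, P.1.powE P.2 n⟩

/-- the element is even -/
def Even (P : PT A) : Prop := P.1.Even P.2

/-- the element is closed -/
def Closed (P : PT A) : Prop := P.1.dif P.2 = 0

/-- the element is a boundary -/
def Exact (P : PT A) : Prop := P.1.Exact P.2

/-- the element is tensor nilpotent -/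
def TN (P : PT A) : Prop := P.1.TN P.2

theorem tn_iff {P : PT A} : P.TN ↔ ∃ n, (P.pow n).Exact := Iff.rfl

theorem pow_succ (P : PT A) (n : ℕ) : P.pow (n + 1) = P.tmul (P.pow n) := rfl

theorem map_tmul (φ : SHom A A') (P Q : PT A) : (P.tmul Q).map φ = (P.map φ).tmul (Q.map φ) := by
  refine ext' ?_ ?_
  · funext x y
    change φ (TC.tD P.1 Q.1 x y) = TC.tD (P.1.map φ) (Q.1.map φ) x y
    unfold TC.tD
    rw [map_add]
    congr 1
    · rw [apply_ite φ, map_zero]
      rfl
    · rw [apply_ite φ, map_zero, map_smul, φ.map_parP]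
      rfl
  · funext x
    change φ (P.2 x.1 * parP A (P.1.odd x.1) (Q.2 x.2)) = _
    rw [map_mul, φ.map_parP]
    rfl

theorem map_pow (φ : SHom A A') (P : PT A) (n : ℕ) : (P.pow n).map φ = (P.map φ).pow n := by
  induction n with
  | zero =>
    refine ext' ?_ ?_
    · funext x y
      exact map_zero φ
    · funext x
      exact map_one φ
  | succ n ih => rw [pow_succ, map_tmul, ih, pow_succ]

theorem map_map (φ : SHom A A') (ψ : SHom A' A'') (P : PT A) :
    (P.map φ).map ψ = P.map (ψ.comp φ) := rfl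

theorem Exact.map (φ : SHom A A') {P : PT A} (h : P.Exact) : (P.map φ).Exact :=
  TC.Exact.mapE φ h

theorem TN.map (φ : SHom A A') {P : PT A} (h : P.TN) : (P.map φ).TN := by
  obtain ⟨n, hn⟩ := tn_iff.1 h
  refine tn_iff.2 ⟨n, ?_⟩
  rw [← map_pow]
  exact Exact.map φ hn

theorem Even.pow {P : PT A} (h : P.Even) (n : ℕ) : (P.pow n).Even := TC.powE_even h n

theorem Closed.pow {P : PT A} (h : P.Closed) (n : ℕ) : (P.pow n).Closed := TC.powE_closed h n

theorem Even.map (φ : SHom A A') {P : PT A} (h : P.Even) : (P.map φ).Even := TC.Even.mapE φ h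

theorem Closed.map (φ : SHom A A') {P : PT A} (h : P.Closed) : (P.map φ).Closed := by
  unfold Closed at *
  change (P.1.map φ).dif (TC.mapE φ P.1 P.2) = 0
  rw [← TC.mapE_dif, h]
  funext i
  exact map_zero φ

end PT

end Pool.Agent.SPC
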