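import Pool.Agent.SPC.Comb

/-!
# Parameters `t_0, t_1, ...`

`T B = B[t_0, t_1, ...]`; `tExt t` is the coefficientwise extension of a function `t` with `t 0 = 0`.
-/

set_option autoImplicit false

noncomputable section

namespace Pool.Agent.SPC

universe u v w w'

open MvPolynomial

/-- Polynomials in the parameters `t_0, t_1, ...`. -/
abbrev T (B : Type u) [CommRing B] : Type u := MvPolynomial ℕ B

/-- Coefficientwise extension of a ring homomorphism. -/
abbrev tMap {A : Type u} {B : Type v} [CommRing A] [CommRing B] (f : A →+* B) : T A →+* T B :=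
  MvPolynomial.map f

/-- A place where a parameter can be put: another parameter or `0` (`false`) or `1` (`true`). -/
def place (B : Type u) [CommRing B] : ℕ ⊕ Bool → T B
  | Sum.inl n => X n
  | Sum.inr b => C (if b then 1 else 0)

/-- Substitution of the parameters. -/
def subHom (B : Type u) [CommRing B] (v : ℕ → ℕ ⊕ Bool) : T B →+* T B :=
  eval₂Hom C fun n => place B (v n)

theorem subHom_C (B : Type u) [CommRing B] (v : ℕ → ℕ ⊕ Bool) (b : B) :
    subHom B v (C b) = C b := by
  simp [subHom]

theorem subHom_place (B : Type u) [CommRing B] (v : ℕ → ℕ ⊕ Bool) (c : ℕ ⊕ Bool) :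
    subHom B v (place B c) = place B (Sum.elim v Sum.inr c) := by
  cases c with
  | inl n => simp [subHom, place]
  | inr b => cases b <;> simp [subHom, place]

theorem subHom_X (B : Type u) [CommRing B] (v : ℕ → ℕ ⊕ Bool) (n : ℕ) :
    subHom B v (X n) = place B (v n) := by
  simp [subHom]

theorem subHom_id (B : Type u) [CommRing B] (p : T B) : subHom B Sum.inl p = p := by
  have h : subHom B Sum.inl = RingHom.id (T B) := by
    refine MvPolynomial.ringHom_ext (fun b => ?_) (fun n => ?_)
    · rw [subHom_C]; rfl
    · rw [subHom_X]; rfl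
  rw [h]; rfl

theorem subHom_subHom (B : Type u) [CommRing B] (v w : ℕ → ℕ ⊕ Bool) (p : T B) :
    subHom B v (subHom B w p) = subHom B (fun n => Sum.elim v Sum.inr (w n)) p := by
  have h : (subHom B v).comp (subHom B w) = subHom B (fun n => Sum.elim v Sum.inr (w n)) := by
    refine MvPolynomial.ringHom_ext (fun b => ?_) (fun n => ?_)
    · rw [RingHom.comp_apply, subHom_C, subHom_C, subHom_C]
    · rw [RingHom.comp_apply, subHom_X, subHom_place, subHom_X]
  rw [← h]; rfl

theorem map_place {B : Type u} {B' : Type v} [CommRing B] [CommRing B'] (f : B →+* B')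
    (c : ℕ ⊕ Bool) : tMap f (place B c) = place B' c := by
  cases c with
  | inl n => simp [place]
  | inr b => cases b <;> simp [place]

theorem map_subHom {B : Type u} {B' : Type v} [CommRing B] [CommRing B'] (f : B →+* B')
    (v : ℕ → ℕ ⊕ Bool) (p : T B) : tMap f (subHom B v p) = subHom B' v (tMap f p) := by
  have h : (tMap f).comp (subHom B v) = (subHom B' v).comp (tMap f) := by
    refine MvPolynomial.ringHom_ext (fun b => ?_) (fun n => ?_)
    · rw [RingHom.comp_apply, RingHom.comp_apply, subHom_C, MvPolynomial.map_C, subHom_C]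
    · rw [RingHom.comp_apply, RingHom.comp_apply, subHom_X, map_place, MvPolynomial.map_X,
        subHom_X]
  exact congrArg (fun g : T B →+* T B' => g p) h

/-- Coefficientwise extension of a function with `t 0 = 0`. -/
def tExt {S : Type v} {B : Type u} [CommRing S] [CommRing B] (t : S → B) (p : T S) : T B :=
  ∑ m ∈ p.support, monomial m (t (coeff m p))

theorem coeff_tExt {S : Type v} {B : Type u} [CommRing S] [CommRing B] {t : S → B}
    (h : t 0 = 0) (p : T S) (m : ℕ →₀ ℕ) : coeff m (tExt t p) = t (coeff m p) := by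
  classical
  unfold tExt
  rw [coeff_sum]
  simp only [coeff_monomial]
  rw [Finset.sum_ite_eq']
  split_ifs with hm
  · rfl
  · rw [notMem_support_iff.1 hm, h]

theorem tExt_map {S : Type v} {S' : Type w'} {B : Type u} [CommRing S] [CommRing S'] [CommRing B]
    (f : S' →+* S) {t : S → B} (h : t 0 = 0) (p : T S') :
    tExt t (tMap f p) = tExt (fun s => t (f s)) p := by
  ext m
  rw [coeff_tExt h, coeff_tExt (by rw [map_zero, h]), coeff_map]

theorem map_tExt {S : Type v} {B : Type u} {B' : Type w'} [CommRing S] [CommRing B] [CommRing B']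
    (f : B →+* B') {t : S → B} (h : t 0 = 0) (p : T S) :
    tMap f (tExt t p) = tExt (fun s => f (t s)) p := by
  ext m
  rw [coeff_tExt (by rw [h, map_zero]), coeff_map, coeff_tExt h]

section

variable {R : Type w} [CommRing R] {S : Type v} [CommRing S] [Algebra R S] {B : Type u}
  [CommRing B] [IsDomain B] [Algebra ℚ B] [Algebra R B]

/-- the extension of `Bp B → Bp (T B)` -/
private def lam (B : Type u) [CommRing B] [IsDomain B] : Bp B →+* Bp (T B) :=
  lift ((incl (T B)).comp (C : B →+* T B))

private theorem lam_incl (B : Type u) [CommRing B] [IsDomain B] (b : B) :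
    lam B (incl B b) = incl (T B) (C b) := lift_incl _ b

/-- the extension of functions with values in `Bp B` -/
private def tPhi (S : Type v) [CommRing S] (B : Type u) [CommRing B] [IsDomain B] [Algebra ℚ B] :
    (S → Bp B) →ₗ[ℚ] (T S → Bp (T B)) where
  toFun f p := ∑ m ∈ p.support, lam B (f (coeff m p)) * incl (T B) (monomial m 1)
  map_add' f g := by
    funext p
    simp only [Pi.add_apply, map_add, add_mul, Finset.sum_add_distrib]
  map_smul' c f := by
    funext p
    simp only [Pi.smul_apply, RingHom.id_apply, map_rat_smul, smul_mul_assoc, Finset.smul_sum]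

private theorem tPhi_apply (f : S → Bp B) (p : T S) :
    tPhi S B f p = ∑ m ∈ p.support, lam B (f (coeff m p)) * incl (T B) (monomial m 1) := rfl

private theorem tPhi_incl (t : S → B) (p : T S) :
    tPhi S B (fun s => incl B (t s)) p = incl (T B) (tExt t p) := by
  rw [tPhi_apply]
  unfold tExt
  rw [map_sum]
  refine Finset.sum_congr rfl fun m _ => ?_
  rw [lam_incl, ← map_mul, C_mul_monomial, mul_one]

/-- the extension of a homomorphism -/
private def tChi (χ : S →ₐ[R] Bp B) : T S →ₐ[R] Bp (T B) where
  toRingHom := eval₂Hom ((lam B).comp (χ : S →+* Bp B)) fun n => incl (T B) (X n)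
  commutes' r := by
    change eval₂Hom ((lam B).comp (χ : S →+* Bp B)) (fun n => incl (T B) (X n))
      (algebraMap R (T S) r) = _
    rw [MvPolynomial.algebraMap_apply, eval₂Hom_C, RingHom.comp_apply, algebraMap_Bp,
      MvPolynomial.algebraMap_apply]
    have h1 : (χ : S →+* Bp B) (algebraMap R S r) = incl B (algebraMap R B r) := χ.commutes r
    rw [h1, lam_incl]

private theorem tPhi_chi (χ : S →ₐ[R] Bp B) (p : T S) :
    tPhi S B (fun s => χ s) p = tChi χ p := by
  rw [tPhi_apply]
  change _ = eval₂ ((lam B).comp (χ : S →+* Bp B)) (fun n => incl (T B) (X n)) p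
  rw [eval₂_eq]
  refine Finset.sum_congr rfl fun m _ => ?_
  have h1 : incl (T B) (monomial m 1) = ∏ i ∈ m.support, incl (T B) (X i) ^ m i := by
    rw [monomial_eq, C_1, one_mul, Finsupp.prod, map_prod]
    exact Finset.prod_congr rfl fun i _ => map_pow _ _ _
  rw [h1]
  rfl

/-- MODULE SPC-TExt -/
theorem IsTr.t {t : S → B} (h : IsTr R t) : IsTr R (tExt t) := by
  have h1 : tPhi S B (fun s => incl B (t s)) ∈
      (Submodule.span ℚ (homs R S B)).map (tPhi S B) := Submodule.mem_map_of_mem h
  have h2 : (Submodule.span ℚ (homs R S B)).map (tPhi S B) ≤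
      Submodule.span ℚ (homs R (T S) (T B)) := by
    rw [Submodule.map_span_le]
    rintro f ⟨χ, hχ⟩
    have h3 : f = fun s => χ s := funext hχ
    rw [h3]
    exact Submodule.subset_span ⟨tChi χ, fun p => tPhi_chi χ p⟩
  have h4 : tPhi S B (fun s => incl B (t s)) = fun p => incl (T B) (tExt t p) :=
    funext fun p => tPhi_incl t p
  rw [h4] at h1
  exact h2 h1

end

theorem tExt_mul_map {S : Type v} {B : Type u} {D : Type w'} [CommRing S] [CommRing B]
    [CommRing D] (j : D →+* S) (j' : D →+* B) {t : S → B} (h0 : ∀ x y, t (x + y) = t x + t y)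
    (h : ∀ x z, t (x * j z) = t x * j' z) (p : T S) (q : T D) :
    tExt t (p * tMap j q) = tExt t p * tMap j' q := by
  have ht : t 0 = 0 := (AddMonoidHom.mk' t h0).map_zero
  ext m
  rw [coeff_tExt ht, coeff_mul, coeff_mul]
  refine (map_sum (AddMonoidHom.mk' t h0) _ _).trans ?_
  refine Finset.sum_congr rfl fun x _ => ?_
  rw [coeff_tExt ht, coeff_map, coeff_map]
  exact h _ _

private theorem tExt_add {S : Type v} {B : Type u} [CommRing S] [CommRing B] {t : S → B}
    (h0 : ∀ x y, t (x + y) = t x + t y) (p q : T S) : tExt t (p + q) = tExt t p + tExt t q := by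
  have ht : t 0 = 0 := (AddMonoidHom.mk' t h0).map_zero
  ext m
  rw [coeff_tExt ht, coeff_add, coeff_add, coeff_tExt ht, coeff_tExt ht, h0]

private theorem tExt_monomial {S : Type v} {B : Type u} [CommRing S] [CommRing B] {t : S → B}
    (h0 : ∀ x y, t (x + y) = t x + t y) (m : ℕ →₀ ℕ) (s : S) :
    tExt t (monomial m s) = monomial m (t s) := by
  classical
  have ht : t 0 = 0 := (AddMonoidHom.mk' t h0).map_zero
  ext m'
  rw [coeff_tExt ht, coeff_monomial, coeff_monomial]
  split_ifs
  · rfl
  · exact ht

private theorem subHom_monomial {S : Type v} [CommRing S] (v : ℕ → ℕ ⊕ Bool) (m : ℕ →₀ ℕ) (s : S) :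
    subHom S v (monomial m s) = C s * tMap (Int.castRingHom S) (subHom ℤ v (monomial m 1)) := by
  have h1 : (monomial m s : T S) = C s * tMap (Int.castRingHom S) (monomial m 1) := by
    rw [tMap, map_monomial, map_one, C_mul_monomial, mul_one]
  rw [h1, map_mul, subHom_C, map_subHom]

theorem tExt_sub {S : Type v} {B : Type u} [CommRing S] [CommRing B] {t : S → B}
    (h0 : ∀ x y, t (x + y) = t x + t y) (v : ℕ → ℕ ⊕ Bool) (p : T S) :
    subHom B v (tExt t p) = tExt t (subHom S v p) := by
  induction p using MvPolynomial.induction_on' with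
  | monomial m s =>
    rw [tExt_monomial h0, subHom_monomial v m (t s), subHom_monomial v m s,
      tExt_mul_map (Int.castRingHom S) (Int.castRingHom B) h0]
    · have h1 : tExt t (C s) = C (t s) := tExt_monomial h0 0 s
      rw [h1]
    · intro x z
      have h3 : t (z • x) = z • t x := map_zsmul (AddMonoidHom.mk' t h0) z x
      rw [eq_intCast, eq_intCast, mul_comm, ← zsmul_eq_mul, h3, zsmul_eq_mul, mul_comm]
  | add p q hp hq =>
    rw [tExt_add h0, map_add, map_add, tExt_add h0, hp, hq]

end Pool.Agent.SPC
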