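import Pool.Agent.SPC.Dgf

/-!
# Transfers for finite extensions of fields

MODULE SPC-Tr. `exists_isTrace`: let `Kb` be an algebraic closure of `K'`; the `K`-embeddings
`K' → Kb` (`n = [K' : K]` of them, indexed by `Fin n`; `AlgHom.card`, separable in characteristic
zero) with coefficients `1` form a trace from `K'` to `K`: `trace_eq_sum_embeddings`; everything is
algebraic over `K`.
`exists_transfer`: `t a = n⁻¹ • b` with `map j b = ∑ i, map (chi i) a` (`A.trace`); `b` is unique
by `A.inj`, all properties are checked after `map j` (`chi i` restricted to `K` is `j`).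
-/

noncomputable section

namespace Pool.Agent.SPC

universe u v w

open SDG

/-- The embeddings of a finite extension form a trace. -/
theorem exists_isTrace (K K' : Type u) [Field K] [Field K'] [CharZero K] [CharZero K']
    [Algebra K K'] [FiniteDimensional K K'] : ∃ (n : ℕ) (chi : Fin n → (K' →+* AlgebraicClosure K')), 0 < n ∧
      (∀ i, (chi i).comp (algebraMap K K') = algebraMap K (AlgebraicClosure K')) ∧
      IsTrace (algebraMap K (AlgebraicClosure K')) (fun _ => 1) chi := by
  classical
  let E := AlgebraicClosure K'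
  let e : Fin (Fintype.card (K' →ₐ[K] E)) ≃ (K' →ₐ[K] E) := (Fintype.equivFin _).symm
  refine ⟨Fintype.card (K' →ₐ[K] E), fun i => ((e i : K' →ₐ[K] E) : K' →+* E), ?_, ?_, ?_, ?_⟩
  · rw [Fintype.card_pos_iff]
    exact ⟨IsScalarTower.toAlgHom K K' E⟩
  · intro i
    ext x
    exact (e i).commutes x
  · intro i b
    have h1 : IsIntegral K b := Algebra.IsIntegral.isIntegral b
    have h2 : IsIntegral K (e i b) := h1.map (e i)
    exact h2
  · intro b
    refine ⟨Algebra.trace K K' b, ?_⟩
    rw [trace_eq_sum_embeddings E (K := K) (L := K')]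
    simp only [one_smul]
    exact (Fintype.sum_equiv e (fun i => (e i) b) (fun σ => σ b) (fun i => rfl)).symm

namespace DGF

variable (A : DGF.{u})

theorem exists_transfer {K K' : Type u} [Field K] [Field K'] [CharZero K] [CharZero K']
    [Algebra K K']
    [FiniteDimensional K K'] : ∃ t : A.obj K' →ₗ[ℚ] A.obj K, (∀ a, t (par a) = par (t a)) ∧
      (∀ a, t (d a) = d (t a)) ∧ (∀ a b, t (b * A.map (algebraMap K K') a) = t b * a) ∧ t 1 = 1 := by
  obtain ⟨n, chi, hn, hc, hT⟩ := exists_isTrace K K'
  let j : K →+* AlgebraicClosure K' := algebraMap K (AlgebraicClosure K')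
  have hj : Function.Injective j := j.injective
  have hJ : Function.Injective (A.map j) := A.inj j hj
  have hn0 : (n : ℚ) ≠ 0 := Nat.cast_ne_zero.2 hn.ne'
  have hex : ∀ a : A.obj K', ∃ b : A.obj K, A.map j b = ((n : ℚ)⁻¹) • ∑ i, A.map (chi i) a := by
    intro a
    obtain ⟨b, hb⟩ := A.trace j hj (fun _ => 1) chi hT a
    refine ⟨((n : ℚ)⁻¹) • b, ?_⟩
    rw [map_smul, hb]
    simp only [one_smul]
  choose t ht using hex
  refine ⟨{ toFun := t, map_add' := fun a b => hJ ?_, map_smul' := fun c a => hJ ?_ }, ?_, ?_, ?_, ?_⟩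
  · rw [map_add, ht, ht, ht, ← smul_add, ← Finset.sum_add_distrib]
    simp only [map_add]
  · rw [RingHom.id_apply, map_smul, ht, ht, smul_comm, Finset.smul_sum (r := c)]
    simp only [map_smul]
  · intro a
    apply hJ
    change A.map j (t (par a)) = A.map j (par (t a))
    rw [(A.map j).map_par, ht, ht, map_smul, map_sum]
    simp only [SHom.map_par]
  · intro a
    apply hJ
    change A.map j (t (d a)) = A.map j (d (t a))
    rw [(A.map j).map_d, ht, ht, map_smul, map_sum]
    simp only [SHom.map_d]
  · intro a b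
    apply hJ
    change A.map j (t (b * A.map (algebraMap K K') a)) = A.map j (t b * a)
    rw [map_mul, ht, ht, smul_mul_assoc, Finset.sum_mul]
    congr 1
    refine Finset.sum_congr rfl fun i _ => ?_
    rw [map_mul, ← A.map_comp_apply, hc i]
  · apply hJ
    change A.map j (t 1) = A.map j 1
    rw [ht, map_one]
    simp only [map_one, Finset.sum_const, Finset.card_univ, Fintype.card_fin]
    rw [← Nat.cast_smul_eq_nsmul ℚ, smul_smul, inv_mul_cancel₀ hn0, one_smul]

/-- Exactness descends along finite extensions. -/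
theorem exact_fin {K K' : Type u} [Field K] [Field K'] [CharZero K] [CharZero K'] [Algebra K K']
    [FiniteDimensional K K'] {P : PT (A.obj K)} (h : (A.bc (algebraMap K K') P).Exact) :
    P.Exact := by
  obtain ⟨y, hy⟩ := (A.exact_bc_iff _ P).1 h
  obtain ⟨t, ht1, ht2, ht3, ht4⟩ := A.exists_transfer (K := K) (K' := K')
  refine (A.exact_iff P).2 ⟨fun l => t (y l), fun l => ?_⟩
  have h1 := congrArg t (hy l)
  rw [← one_mul (A.map (algebraMap K K') (P.2 l)), ht3, ht4, one_mul, map_add, map_sum, ht2] at h1
  rw [← h1]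
  congr 1
  refine Finset.sum_congr rfl fun m _ => ?_
  rw [ht3, ht1]

theorem tn_fin {K K' : Type u} [Field K] [Field K'] [CharZero K] [CharZero K'] [Algebra K K']
    [FiniteDimensional K K'] {P : PT (A.obj K)} (h : (A.bc (algebraMap K K') P).TN) :
    P.TN := by
  obtain ⟨n, hn⟩ := PT.tn_iff.1 h
  refine PT.tn_iff.2 ⟨n, A.exact_fin (K' := K') ?_⟩
  unfold bc at *
  rw [PT.map_pow]
  exact hn

end DGF

end Pool.Agent.SPC
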