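import Pool.Agent.SPC.Comb
import Pool.Agent.SPC.CChr

/-!
# Traces of matrix representations are laws

MODULE SPC-TrM.  PLAN.  `exists_algHom_Bp`: the values of `χ` are integral over `B`, so they are in the
range of the injective homomorphism `bval B` (`exists_bval`); `bval B` is a homomorphism of
`k`-algebras (`bval_incl`, `algebraMap_Bp`).  `isTr_trace`: apply `exists_chars` over `K = Om B` to
`ρ` composed with the map of matrices induced by `algebraMap B (Om B)` (`AlgHom.mapMatrix`); the
trace is minus the next coefficient of the characteristic polynomial `∏ (X - χ i s)`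
(`Matrix.trace_eq_neg_charpoly_coeff`, `Multiset.prod_X_sub_C_nextCoeff`-like lemmas; or
`Polynomial.nextCoeff`), so it is `∑ i, χ i s`; `χ i s` is a root of the (mapped) characteristic
polynomial of `ρ s`, a monic polynomial over `B`, so it is integral.  Then `isTr_of_sum`.
-/

set_option autoImplicit false

noncomputable section

namespace Pool.Agent.SPC

universe u v w

variable {k : Type w} [Field k] {S : Type v} [CommRing S] [Algebra k S] {B : Type u} [CommRing B]
  [IsDomain B] [Algebra ℚ B] [Algebra k B]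

theorem exists_algHom_Bp (χ : S →ₐ[k] Om B) (h : ∀ s, IsIntegral B (χ s)) :
    ∃ χ' : S →ₐ[k] Bp B, ∀ s, bval B (χ' s) = χ s := by
  obtain ⟨g, hg⟩ : ∃ g : S →+* Bp B, ∀ s, bval B (g s) = χ s :=
    ⟨RingHom.codRestrict (χ : S →+* Om B) (integralClosure B (Om B)) h, fun s => rfl⟩
  refine ⟨{ g with commutes' := fun r => ?_ }, fun s => hg s⟩
  apply bval_injective B
  change bval B (g (algebraMap k S r)) = _
  rw [hg, algebraMap_Bp, bval_incl, χ.commutes, IsScalarTower.algebraMap_apply k B (Om B)]

/-- MODULE SPC-TrM -/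
theorem isTr_trace {ι : Type} [Fintype ι] [DecidableEq ι] (ρ : S →ₐ[k] Matrix ι ι B) :
    IsTr k (fun s => (ρ s).trace) := by
  obtain ⟨ρ', hρ'⟩ : ∃ ρ' : S →ₐ[k] Matrix ι ι (Om B), ∀ s, ρ' s = (ρ s).map (algebraMap B (Om B)) :=
    ⟨((IsScalarTower.toAlgHom k B (Om B)).mapMatrix).comp ρ, fun s => rfl⟩
  obtain ⟨χ, hχ⟩ := exists_chars ρ'
  have hint : ∀ i s, IsIntegral B (χ i s) := by
    intro i s
    refine ⟨(ρ s).charpoly, Matrix.charpoly_monic _, ?_⟩
    have h1 := hχ s
    rw [hρ'] at h1
    have h2 : ((ρ s).map (algebraMap B (Om B))).charpoly = (ρ s).charpoly.map (algebraMap B (Om B)) :=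
      Matrix.charpoly_map _ _
    rw [h2] at h1
    rw [← Polynomial.eval_map, h1, Polynomial.eval_prod]
    refine Finset.prod_eq_zero (Finset.mem_univ i) ?_
    rw [Polynomial.eval_sub, Polynomial.eval_X, Polynomial.eval_C, sub_self]
  have hex : ∀ i, ∃ χ' : S →ₐ[k] Bp B, ∀ s, bval B (χ' s) = χ i s := fun i => exists_algHom_Bp (χ i) (hint i)
  choose χ' hχ' using hex
  refine isTr_of_sum Finset.univ χ' _ fun s => ?_
  apply bval_injective B
  rw [bval_incl, map_sum]
  have h3 : (ρ' s).trace = ∑ i, χ i s := by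
    rw [Matrix.trace_eq_sum_roots_charpoly, hχ s]
    have h4 : (∏ i, (Polynomial.X - Polynomial.C (χ i s))) =
        ((Finset.univ.val.map fun i => χ i s).map fun a => Polynomial.X - Polynomial.C a).prod := by
      rw [Multiset.map_map]
      rfl
    rw [h4, Polynomial.roots_multiset_prod_X_sub_C]
    rfl
  have h5 : (ρ' s).trace = algebraMap B (Om B) (ρ s).trace := by
    rw [hρ', Matrix.trace, Matrix.trace, map_sum]
    rfl
  rw [← h5, h3]
  exact Finset.sum_congr rfl fun i _ => (hχ' i s).symm

end Pool.Agent.SPC
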