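import Pool.Agent.SPC.KFin

/-!
# SPC: the uniform form of the transport of tensor nilpotence

The exponent of nilpotence depends only on the two points and the length of the complex.
-/

noncomputable section

namespace Pool.Agent.SPC

universe u

open SDG Equiv Pool.Agent.GSM

namespace PT

variable {A : Type u} [Ring A] [Algebra ℚ A] [SDG A]

/-- The length of a twisted complex is at most `l`. -/
def Len (P : PT A) (l : ℕ) : Prop := ∀ a, P.1.rk a < l

theorem pow_exact_of_rep {P : PT A} (hP : P.Even) (n : ℕ)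
    (h : ∀ (W : Type u) [Ring W] [Algebra ℚ W] [SDG W] (j : SHom A W) (r : Rep P.1 j),
      ∃ v, d v = r.ev P.2 ^ n) : (P.pow n).Exact := exact_of_forall (M := P.1) (f := P.2) hP n h

theorem ev_exact {P : PT A} {n : ℕ} (h : (P.pow n).Exact) {W : Type u} [Ring W] [Algebra ℚ W]
    [SDG W] {j : SHom A W} (r : Rep P.1 j) : ∃ v, d v = r.ev P.2 ^ n :=
  r.exists_of_exact h

theorem pow_one_exact {P : PT A} (hP : P.Even) (h : P.Exact) : (P.pow 1).Exact := by
  refine pow_exact_of_rep hP 1 ?_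
  intro W _ _ _ j r
  obtain ⟨g, hg⟩ := h
  refine ⟨r.ev g, ?_⟩
  rw [r.d_ev, pow_one]
  exact congrArg r.ev hg

theorem pow_mono {P : PT A} (hP : P.Even) (hP' : P.Closed) {n m : ℕ} (hnm : n ≤ m)
    (h : (P.pow n).Exact) : (P.pow m).Exact := by
  refine pow_exact_of_rep hP m ?_
  intro W _ _ _ j r
  obtain ⟨v, hv⟩ := ev_exact h r
  obtain ⟨c, rfl⟩ := Nat.exists_eq_add_of_le hnm
  have h1 : par (r.ev P.2) = r.ev P.2 := r.ev_even hP
  have h2 : d (r.ev P.2) = 0 := by
    rw [r.d_ev]
    have h3 : P.1.dif P.2 = 0 := hP'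
    rw [h3]
    unfold Rep.ev
    refine Finset.sum_eq_zero fun i _ => ?_
    rw [Pi.zero_apply, map_zero, zero_mul]
  have h3 : ∀ k : ℕ, ∃ w, d w = r.ev P.2 ^ (n + k) := by
    intro k
    induction k with
    | zero => exact ⟨v, hv⟩
    | succ k ih =>
      obtain ⟨w, hw⟩ := ih
      refine ⟨r.ev P.2 * w, ?_⟩
      rw [d_mul, h2, zero_mul, zero_add, h1, hw, ← pow_succ']
      rfl
  exact h3 c

theorem pow_pow {P : PT A} (hP : P.Even) {n N : ℕ} (h : ((P.pow n).pow N).Exact) :
    (P.pow (n * N)).Exact := by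
  refine pow_exact_of_rep hP (n * N) ?_
  intro W _ _ _ j r
  obtain ⟨v, hv⟩ := (r.pow n).exists_of_exact (f := P.1.powE P.2 n) (n := N) h
  refine ⟨v, ?_⟩
  rw [hv, r.ev_powE, pow_mul]

theorem Len.pow {P : PT A} {l : ℕ} (h : P.Len l) (n : ℕ) : (P.pow n).Len (n * l + 1) := by
  induction n with
  | zero =>
    intro a
    exact Nat.lt_succ_of_le (Nat.zero_le _)
  | succ n ih =>
    intro a
    change P.1.rk a.1 + (P.1.pow n).rk a.2 < _
    have h1 := h a.1
    have h2 : (P.1.pow n).rk a.2 < n * l + 1 := ih a.2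
    rw [add_mul, one_mul]
    omega

theorem exists_len (P : PT A) : ∃ l, P.Len l :=
  ⟨Finset.univ.sup P.1.rk + 1, fun a => Nat.lt_succ_of_le (Finset.le_sup (Finset.mem_univ a))⟩

end PT

/-- Transport along a curve, uniform form. -/
theorem uniform_transport {k : Type u} [Field k] [IsAlgClosed k] [CharZero k] {L : Type u}
    [Field L] [Algebra k L] (D : Crv k L) (l : ℕ) : ∃ n : ℕ, ∀ (A : DGF.{u})
      (x : intCl k D.h →ₐ[k] k) {Om : Type u} [Field Om] [CharZero Om] [Algebra k Om]
      (eta : intCl k D.h →ₐ[k] Om) (P : PT (A.obj (intCl k D.h))) (_ : P.Even) (_ : P.Closed)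
      (_ : P.Len l) (_ : (A.bc (x : intCl k D.h →+* k) P).Exact),
      ((A.bc (eta : intCl k D.h →+* Om) P).pow n).Exact := by
  obtain ⟨n₀, _, hn₀⟩ := sym_null D
  obtain ⟨n, hn⟩ := Env.exists_n.{u} n₀ (l + 1)
  refine ⟨n, ?_⟩
  intro A x Om _ _ _ eta P hP hP' hl hx
  obtain ⟨M, f⟩ := P
  obtain ⟨X, hX⟩ : ∃ X : SHom (A.obj (intCl k D.h)) (A.obj k),
    X = A.map (x : intCl k D.h →+* k) := ⟨_, rfl⟩
  obtain ⟨Y, hY⟩ : ∃ Y : SHom (A.obj (intCl k D.h)) (A.obj Om),
    Y = A.map (eta : intCl k D.h →+* Om) := ⟨_, rfl⟩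
  have hP1 : M.pr f = f := TC.even_iff.1 hP
  have hP2 : M.dif f = 0 := hP'
  have hx1 : (M.map X).Exact (TC.mapE X M f) := by
    rw [hX]
    exact hx
  obtain ⟨g, hg⟩ := hx1
  have hev : (M.map X).pr (TC.mapE X M f) = TC.mapE X M f :=
    TC.even_iff.1 (TC.Even.mapE X (M := M) hP)
  obtain ⟨g', hg'⟩ : ∃ g' : (M.map X).I → A.obj k, g' = (2⁻¹ : ℚ) • (g - (M.map X).pr g) :=
    ⟨_, rfl⟩
  have hpg : (M.map X).pr g' = -g' := by
    rw [hg', map_smul, map_sub, TC.pr_pr, ← smul_neg, neg_sub]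
  have hdg : (M.map X).dif g' = TC.mapE X M f := by
    rw [hg', map_smul, map_sub, TC.dif_pr, hg, hev, sub_neg_eq_add, ← two_smul ℚ, smul_smul,
      inv_mul_cancel₀ (by norm_num : (2 : ℚ) ≠ 0), one_smul]
  obtain ⟨G, hG⟩ : ∃ G : M.I → A.obj (intCl k D.h),
    ∀ a, G a = A.map (algebraMap k (intCl k D.h)) (g' a) := ⟨_, fun _ => rfl⟩
  have hxG : TC.mapE X M G = g' := by
    funext a
    change X (G a) = g' a
    rw [hG, hX, ← A.map_comp_apply, A.map_apply_eq (g := RingHom.id k)
      (RingHom.ext fun c => x.commutes c), A.map_id]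
    rfl
  have hpG : M.pr G = -G := by
    funext a
    have h2 := congrFun hpg a
    rw [TC.pr_apply, Pi.neg_apply] at h2 ⊢
    rw [hG, ← map_neg, ← h2, map_smul, (A.map _).map_par]
    rfl
  have hdG : M.pr (M.dif G) = M.dif G := by
    have h4 := TC.dif_pr M G
    rw [hpG, map_neg, neg_inj] at h4
    exact h4.symm
  have hQe : M.Even (f - M.dif G) := by
    refine TC.even_iff.2 ?_
    rw [map_sub, hP1, hdG]
  have hQc : M.dif (f - M.dif G) = 0 := by
    rw [map_sub, hP2, TC.dif_dif, sub_zero]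
  have hQx : ∀ a, A.map (Crd.ptO x eta false : intCl k D.h →+* Om) ((f - M.dif G) a) = 0 := by
    intro a
    have h2 : X ((f - M.dif G) a) = 0 := by
      have h3 := congrFun (TC.mapE_dif X M G) a
      rw [hxG] at h3
      have h4 := congrFun hdg a
      rw [Pi.sub_apply, map_sub, sub_eq_zero]
      exact h4.symm.trans h3.symm
    have h3 : (Crd.ptO x eta false : intCl k D.h →+* Om) =
        (algebraMap k Om).comp (x : intCl k D.h →+* k) := rfl
    rw [h3, A.map_comp_apply, ← hX, h2, map_zero]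
  have hn' : ((M.map Y).pow n).Exact ((M.map Y).powE (TC.mapE Y M (f - M.dif G)) n) := by
    rw [hY]
    have hd := isDomain_crCrv D Om (Lb n (l + 1))
    have hq := hasRat_crCrv D Om (Lb n (l + 1))
    have h1 := Crd.symNull_env A (crdCrv D Om (Lb n (l + 1))) x eta (n₀ := n₀)
      (fun f => hn₀ A Om _ (Lb n (l + 1)) (crdCrv D Om (Lb n (l + 1))) f x)
    exact Env.main ((crdCrv D Om (Lb n (l + 1))).env A x eta) M (Nat.succ_pos l)
      (fun i hi => hn ((crdCrv D Om (Lb n (l + 1))).env A x eta) h1 i hi) hQe hQc hQx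
      (fun a => Nat.lt_succ_of_lt (hl a))
  have hgoal : ((M.map Y).pow n).Exact ((M.map Y).powE (TC.mapE Y M f) n) := by
    refine exact_of_forall (TC.Even.mapE Y hP) n ?_
    intro W _ _ _ j r
    obtain ⟨v, hv⟩ := r.exists_of_exact hn'
    have hdif : TC.mapE Y M f = TC.mapE Y M (f - M.dif G) + (M.map Y).dif (TC.mapE Y M G) := by
      rw [← TC.mapE_dif]
      funext a
      change Y (f a) = Y (f a - M.dif G a) + Y (M.dif G a)
      rw [map_sub, sub_add_cancel]
    obtain ⟨w, hw⟩ := pow_add_exact (a := r.ev (TC.mapE Y M (f - M.dif G)))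
      (r.ev_even (TC.Even.mapE Y hQe)) (by
        rw [r.d_ev, ← TC.mapE_dif, hQc]
        unfold Rep.ev
        refine Finset.sum_eq_zero fun i _ => ?_
        have h5 : TC.mapE Y M 0 i = 0 := map_zero Y
        rw [h5, map_zero, zero_mul]) (r.ev (TC.mapE Y M G)) n
    refine ⟨v + w, ?_⟩
    rw [map_add, hv, hdif, r.ev_add, ← r.d_ev, hw]
  rw [hY] at hgoal
  exact hgoal

namespace DGF

variable (A : DGF.{u})

theorem Exact_bc {B B' : Type u} [CommRing B] [IsDomain B] [HasRat B] [CommRing B'] [IsDomain B']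
    [HasRat B'] (g : B →+* B') {P : PT (A.obj B)} (h : P.Exact) : (A.bc g P).Exact :=
  PT.Exact.map _ h

theorem bc_pow {B B' : Type u} [CommRing B] [IsDomain B] [HasRat B] [CommRing B'] [IsDomain B']
    [HasRat B'] (g : B →+* B') (P : PT (A.obj B)) (n : ℕ) :
    A.bc g (P.pow n) = (A.bc g P).pow n := PT.map_pow _ P n

theorem len_bc {B B' : Type u} [CommRing B] [IsDomain B] [HasRat B] [CommRing B'] [IsDomain B']
    [HasRat B'] (g : B →+* B') {P : PT (A.obj B)} {l : ℕ} (h : P.Len l) : (A.bc g P).Len l := h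

/-- Spreading out of exactness. -/
theorem exact_spread {k : Type u} [Field k] [IsAlgClosed k] [CharZero k] {R : Type u} [CommRing R]
    [IsDomain R] [HasRat R] [Algebra k R] (hR : ∃ F : Set R, F.Finite ∧ Algebra.adjoin k F = ⊤)
    {Om : Type u} [Field Om] [CharZero Om] [Algebra k Om] (i : R →ₐ[k] Om) (P : PT (A.obj R))
    (hP : (A.bc (i : R →+* Om) P).Exact) :
    ∃ s : R →ₐ[k] k, (A.bc (s : R →+* k) P).Exact := by
  obtain ⟨G, hG, hGR⟩ := hR
  obtain ⟨F, h⟩ := A.exact_cont (i : R →+* Om) P hP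
  let B : Subalgebra k Om := Algebra.adjoin k ((F : Set Om) ∪ i '' G)
  have hB : Algebra.FiniteType k B := by
    rw [← Subalgebra.fg_iff_finiteType]
    exact Subalgebra.fg_def.2 ⟨(F : Set Om) ∪ i '' G, (F.finite_toSet).union (hG.image _), rfl⟩
  have hiB : ∀ r : R, i r ∈ B := by
    intro r
    have h1 : i.range ≤ B := by
      rw [← Algebra.map_top, ← hGR, AlgHom.map_adjoin]
      exact Algebra.adjoin_mono Set.subset_union_right
    exact h1 ⟨r, rfl⟩
  let g : R →ₐ[k] B := i.codRestrict B hiB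
  have h1 : (A.bc (g : R →+* B) P).Exact := by
    refine h B (g : R →+* B) (B.val : B →+* Om) Subtype.val_injective rfl ?_
    intro y hy
    exact ⟨⟨y, Algebra.subset_adjoin (Or.inl hy)⟩, rfl⟩
  obtain ⟨s⟩ := exists_pt k B
  refine ⟨s.comp g, ?_⟩
  have h2 := A.Exact_bc (s : B →+* k) h1
  rw [← A.bc_comp] at h2
  exact h2

theorem exact_of_isAlgClosed {K : Type u} [Field K] [CharZero K] [IsAlgClosed K] {Om : Type u}
    [Field Om] [CharZero Om] [Algebra K Om] (P : PT (A.obj K))
    (hP : (A.bc (algebraMap K Om) P).Exact) : P.Exact := by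
  obtain ⟨s, hs⟩ := A.exact_spread (k := K) (R := K) ⟨∅, Set.finite_empty, by
    rw [Algebra.adjoin_empty, eq_top_iff]
    intro r _
    exact (⊥ : Subalgebra K K).algebraMap_mem r⟩ (Algebra.ofId K Om) P hP
  have h1 : (s : K →+* K) = RingHom.id K := by
    ext c
    exact s.commutes c
  rw [h1, A.bc_id] at hs
  exact hs

theorem exact_of_algebraic {K : Type u} [Field K] [CharZero K] {Om : Type u} [Field Om]
    [CharZero Om] [Algebra K Om] [Algebra.IsAlgebraic K Om] (P : PT (A.obj K))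
    (hP : (A.bc (algebraMap K Om) P).Exact) : P.Exact := by
  obtain ⟨F, h⟩ := A.exact_cont (algebraMap K Om) P hP
  have hfin : FiniteDimensional K (IntermediateField.adjoin K (F : Set Om)) := by
    have : Finite (F : Set Om) := F.finite_toSet
    exact IntermediateField.finiteDimensional_adjoin
      (fun y _ => Algebra.IsIntegral.isIntegral y)
  apply A.exact_fin (K' := IntermediateField.adjoin K (F : Set Om))
  refine h (IntermediateField.adjoin K (F : Set Om))
    (algebraMap K (IntermediateField.adjoin K (F : Set Om)))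
    (algebraMap (IntermediateField.adjoin K (F : Set Om)) Om) (RingHom.injective _) ?_ ?_
  · exact (IsScalarTower.algebraMap_eq K (IntermediateField.adjoin K (F : Set Om)) Om).symm
  · intro y hy
    exact ⟨⟨y, IntermediateField.subset_adjoin K (F : Set Om) hy⟩, rfl⟩

/-- Exactness does not change under extensions of fields. -/
theorem exact_ext_iff {K : Type u} [Field K] [CharZero K] {K' : Type u} [Field K'] [CharZero K']
    (i : K →+* K') (P : PT (A.obj K)) : (A.bc i P).Exact ↔ P.Exact := by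
  refine ⟨fun hx => ?_, A.Exact_bc i⟩
  let _ : Algebra K K' := i.toAlgebra
  let Om := AlgebraicClosure K'
  let K₁ : IntermediateField K Om := algebraicClosure K Om
  have hK₁ : IsAlgClosed K₁ := IsAlgClosure.isAlgClosed K
  have hK₁c : CharZero K₁ := charZero_of_injective_algebraMap (algebraMap K K₁).injective
  have h1 : (A.bc (algebraMap K Om) P).Exact := by
    have h2 := A.Exact_bc (algebraMap K' Om) hx
    rw [← A.bc_comp] at h2
    exact h2
  have h3 : algebraMap K Om = (algebraMap K₁ Om).comp (algebraMap K K₁) :=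
    IsScalarTower.algebraMap_eq K K₁ Om
  rw [h3, A.bc_comp] at h1
  exact A.exact_of_algebraic (Om := K₁) P (A.exact_of_isAlgClosed _ h1)

theorem tn_ext_iff {K : Type u} [Field K] [CharZero K] {K' : Type u} [Field K'] [CharZero K']
    (i : K →+* K') (P : PT (A.obj K)) : (A.bc i P).TN ↔ P.TN := by
  rw [PT.tn_iff, PT.tn_iff]
  refine exists_congr fun n => ?_
  rw [← A.bc_pow, A.exact_ext_iff]

/-- The relation of points: exactness at one point implies nilpotence at the other one, with an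
exponent which depends only on the length. -/
def URel {R K : Type u} [CommRing R] [IsDomain R] [HasRat R] [Field K] [CharZero K]
    (p q : R →+* K) : Prop :=
  ∀ l : ℕ, ∃ N : ℕ, ∀ P : PT (A.obj R), P.Even → P.Closed → P.Len l →
    ((A.bc p P).Exact → ((A.bc q P).pow N).Exact) ∧
      ((A.bc q P).Exact → ((A.bc p P).pow N).Exact)

theorem uniform_curve {k : Type u} [Field k] [IsAlgClosed k] [CharZero k]
    {L : Type u} [Field L] [Algebra k L] (C : Subalgebra k L) (hC : C.FG)
    (hgen : IntermediateField.adjoin k (C : Set L) = ⊤) (htr : Algebra.trdeg k L = 1)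
    (q₀ : C →ₐ[k] k) {Om : Type u} [Field Om] [CharZero Om] [Algebra k Om] (f : L →ₐ[k] Om) :
    A.URel ((f : L →+* Om).comp (C.val : C →+* L))
      ((algebraMap k Om).comp (q₀ : C →+* k)) := by
  obtain ⟨D, hle, hP⟩ := exists_crv C hC hgen htr q₀
  let inc : C →ₐ[k] intCl k D.h := Subalgebra.inclusion hle
  let eta : intCl k D.h →ₐ[k] Om := f.comp (intCl k D.h).val
  have e1 : ((f : L →+* Om).comp (C.val : C →+* L)) =
      (eta : intCl k D.h →+* Om).comp (inc : C →+* intCl k D.h) := rfl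
  have e2 : (q₀ : C →+* k) = (D.P : intCl k D.h →+* k).comp (inc : C →+* intCl k D.h) := by
    ext c
    exact (hP c).symm
  intro l
  obtain ⟨n, hn⟩ := uniform_transport D l
  refine ⟨n, fun P hPe hPc hPl => ⟨fun h => ?_, fun h => ?_⟩⟩
  · rw [e1, A.bc_comp] at h
    obtain ⟨s, hs⟩ := A.exact_spread (k := k) (fg_intCl D.h D.tr D.fin) eta _ h
    have h1 := hn A s (Om := k) D.P (A.bc (inc : C →+* intCl k D.h) P) (PT.Even.map _ hPe)
      (PT.Closed.map _ hPc) hPl hs
    rw [e2, ← A.bc_pow, A.bc_comp, A.exact_ext_iff, A.bc_comp, A.bc_pow, A.bc_pow]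
    exact h1
  · rw [e2, A.bc_comp, A.exact_ext_iff, A.bc_comp] at h
    have h1 := hn A D.P eta (A.bc (inc : C →+* intCl k D.h) P) (PT.Even.map _ hPe)
      (PT.Closed.map _ hPc) hPl h
    rw [e1, A.bc_comp]
    exact h1

theorem uniform_curveRel {R K : Type u} [CommRing R] [IsDomain R] [HasRat R] [Field K]
    [CharZero K] : CurveRel (A.URel (R := R) (K := K)) where
  refl p := fun l => ⟨1, fun P hP _ _ =>
    ⟨fun h => PT.pow_one_exact (PT.Even.map _ hP) h, fun h => PT.pow_one_exact (PT.Even.map _ hP) h⟩⟩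
  symm p q h := fun l => by
    obtain ⟨N, hN⟩ := h l
    exact ⟨N, fun P h1 h2 h3 => (hN P h1 h2 h3).symm⟩
  trans p q r h h' := fun l => by
    obtain ⟨N₁, h₁⟩ := h l
    obtain ⟨N₂, h₂⟩ := h' (N₁ * l + 1)
    obtain ⟨N₃, h₃⟩ := h' l
    obtain ⟨N₄, h₄⟩ := h (N₃ * l + 1)
    refine ⟨N₁ * N₂ + N₃ * N₄, fun P hP hP' hl => ⟨fun hp => ?_, fun hr => ?_⟩⟩
    · have e1 : (A.bc q (P.pow N₁)).Exact := by
        rw [A.bc_pow]
        exact (h₁ P hP hP' hl).1 hp
      have e2 := (h₂ (P.pow N₁) (PT.Even.pow hP N₁) (PT.Closed.pow hP' N₁) (hl.pow N₁)).1 e1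
      rw [A.bc_pow] at e2
      exact PT.pow_mono (PT.Even.map _ hP) (PT.Closed.map _ hP') (Nat.le_add_right _ _)
        (PT.pow_pow (PT.Even.map _ hP) e2)
    · have e1 : (A.bc q (P.pow N₃)).Exact := by
        rw [A.bc_pow]
        exact (h₃ P hP hP' hl).2 hr
      have e2 := (h₄ (P.pow N₃) (PT.Even.pow hP N₃) (PT.Closed.pow hP' N₃) (hl.pow N₃)).2 e1
      rw [A.bc_pow] at e2
      exact PT.pow_mono (PT.Even.map _ hP) (PT.Closed.map _ hP') (Nat.le_add_left _ _)
        (PT.pow_pow (PT.Even.map _ hP) e2)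
  step := by
    intro k₁ _ _ _ L _ _ C hC hgen htr q _ f g l
    obtain ⟨N, hN⟩ := A.uniform_curve C hC hgen htr q f l
    refine ⟨N, fun P hP hP' hl => ?_⟩
    rw [A.bc_comp, A.bc_comp ((algebraMap k₁ K).comp (q : C →+* k₁)) g]
    exact hN (A.bc g P) (PT.Even.map _ hP) (PT.Closed.map _ hP') hl

/-- The uniform theorem: exactness at one point implies nilpotence at every other point, with an
exponent which depends only on the points and the length. -/
theorem uniform_points {k : Type u} [Field k] [IsAlgClosed k] [CharZero k] {R : Type u}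
    [CommRing R] [IsDomain R] [HasRat R] [Algebra k R] [Algebra.FiniteType k R] {K : Type u}
    [Field K] [CharZero K] [Algebra k K] (p q : R →ₐ[k] K) :
    A.URel (p : R →+* K) (q : R →+* K) := by
  obtain ⟨a, ha⟩ := exists_const_point p
  obtain ⟨b, hb⟩ := exists_const_point q
  obtain ⟨Ω, _, _, _, _, _, η, hη⟩ := exists_big (k := k) (K := K) (R := R)
  have hΩc : CharZero Ω := charZero_of_injective_algebraMap (algebraMap K Ω).injective
  have hker : RingHom.ker η = ⊥ := (RingHom.injective_iff_ker_eq_bot η).1 hη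
  have hkp : RingHom.ker ((IsScalarTower.toAlgHom k K Ω).comp p) ≤ RingHom.ker a := by
    intro r hr
    refine ha ?_
    rw [RingHom.mem_ker] at hr ⊢
    exact (algebraMap K Ω).injective (by rw [map_zero]; exact hr)
  have hkq : RingHom.ker ((IsScalarTower.toAlgHom k K Ω).comp q) ≤ RingHom.ker b := by
    intro r hr
    refine hb ?_
    rw [RingHom.mem_ker] at hr ⊢
    exact (algebraMap K Ω).injective (by rw [map_zero]; exact hr)
  have hrel := A.uniform_curveRel (R := R) (K := Ω)
  have h1 := exists_rel_to ((IsScalarTower.toAlgHom k K Ω).comp p) a hkp hrel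
  have h2 := exists_rel_to η a (hker ▸ bot_le) hrel
  have h3 := exists_rel_to η b (hker ▸ bot_le) hrel
  have h4 := exists_rel_to ((IsScalarTower.toAlgHom k K Ω).comp q) b hkq hrel
  have h5 := hrel.trans _ _ _ (hrel.trans _ _ _ h1 (hrel.symm _ _ h2))
    (hrel.trans _ _ _ h3 (hrel.symm _ _ h4))
  have e1 : (((IsScalarTower.toAlgHom k K Ω).comp p : R →ₐ[k] Ω) : R →+* Ω) =
      (algebraMap K Ω).comp (p : R →+* K) := rfl
  have e2 : (((IsScalarTower.toAlgHom k K Ω).comp q : R →ₐ[k] Ω) : R →+* Ω) =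
      (algebraMap K Ω).comp (q : R →+* K) := rfl
  intro l
  obtain ⟨N, hN⟩ := h5 l
  refine ⟨N, fun P hP hP' hl => ?_⟩
  have h6 := hN P hP hP' hl
  rw [e1, e2] at h6
  simp only [← A.bc_pow] at h6 ⊢
  rw [A.bc_comp, A.bc_comp (algebraMap K Ω) (q : R →+* K) P, A.bc_comp _ (q : R →+* K) (P.pow N),
    A.bc_comp _ (p : R →+* K) (P.pow N), A.exact_ext_iff, A.exact_ext_iff, A.exact_ext_iff,
    A.exact_ext_iff] at h6
  exact h6

private theorem nt_all_aux {Q : Type} [Field Q] [CharZero Q] {k : Type u} [Field k]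
    [IsAlgClosed k] [CharZero k] [Algebra Q k] {K : Type u} [Field K] [CharZero K] [Algebra Q K]
    (hk : A.NT k) : A.NT K := by
  let F : IntermediateField Q k := algebraicClosure Q k
  have hF : IsAlgClosed F := IsAlgClosure.isAlgClosed Q
  have hFc : CharZero F := charZero_of_injective_algebraMap (algebraMap Q F).injective
  have h1 : A.NT F := by
    intro P hP hP' he
    rw [← A.tn_ext_iff (F.val : F →+* k)]
    refine hk _ (PT.Even.map _ hP) (PT.Closed.map _ hP') ?_
    rw [A.map_eps]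
    exact he
  let Kb := AlgebraicClosure K
  have hKb : CharZero Kb := charZero_of_injective_algebraMap (algebraMap K Kb).injective
  let g : F →ₐ[Q] Kb := IsAlgClosed.lift
  let _ : Algebra F Kb := (g : F →+* Kb).toAlgebra
  have h2 : A.NT Kb := A.nt_ext (k := F) (K := Kb) h1
  intro P hP hP' he
  rw [← A.tn_ext_iff (algebraMap K Kb)]
  refine h2 _ (PT.Even.map _ hP) (PT.Closed.map _ hP') ?_
  rw [A.map_eps]
  exact he

/-- The nilpotence theorem over one algebraically closed field implies it over all fields. -/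
theorem nt_all {k : Type u} [Field k] [IsAlgClosed k] [CharZero k] {K : Type u} [Field K]
    [CharZero K] (hk : A.NT k) : A.NT K := A.nt_all_aux (Q := ℚ) hk

end DGF

end Pool.Agent.SPC
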