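import Pool.Agent.SPC.Sqz

/-!
# Nilpotence can be tested in commutative algebras

Lemma B: if the image of the even element `f` of `M` in every supercommutative differential
ring over `A` has an exact `n`-th power, then `f ⊗ ... ⊗ f` (`n` factors) is a boundary.
-/

noncomputable section

namespace Pool.Agent.SPC

universe u v w

open SDG

variable {A : Type u} {W : Type v} [Ring A] [Algebra ℚ A] [SDG A] [Ring W] [Algebra ℚ W] [SDG W]

namespace Sq

variable {M : TC A} {j : SHom A W}

/-- the structure map of the square-zero extension -/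
def incl (M : TC A) (j : SHom A W) : SHom A (Sq M j) where
  toAlgHom := AlgHom.ofLinearMap
    { toFun := fun a => mk (j a) 0
      map_add' := fun x y => ext (map_add j _ _) fun i => (add_zero (0 : W)).symm
      map_smul' := fun c x => ext (map_smul j _ _) fun i => (smul_zero c).symm }
    (ext (map_one j) fun i => rfl)
    (fun x y => ext (map_mul j _ _) fun i => by
      change (0 : W) = j x * 0 + 0 * _
      rw [mul_zero, zero_mul, add_zero])
  map_par' a := ext (j.map_par a) fun i => by
    change (0 : W) = sgn _ • par (0 : W)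
    rw [map_zero, smul_zero]
  map_d' a := ext (j.map_d a) fun i => by
    change (0 : W) = d (0 : W) + ∑ l, par (0 : W) * j (M.D l i)
    rw [map_zero, map_zero]
    simp

@[simp] theorem fst_incl (a : A) : (incl M j a).fst = j a := rfl

@[simp] theorem snd_incl (a : A) (i : M.I) : (incl M j a).snd i = 0 := rfl

/-- first component, additive -/
def fstHom (M : TC A) (j : SHom A W) : Sq M j →+ W where
  toFun := fst
  map_zero' := rfl
  map_add' _ _ := rfl

/-- second component, additive -/
def sndHom (M : TC A) (j : SHom A W) (i : M.I) : Sq M j →+ W where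
  toFun x := x.snd i
  map_zero' := rfl
  map_add' _ _ := rfl

theorem fst_sum {ι : Type*} (s : Finset ι) (f : ι → Sq M j) :
    (∑ i ∈ s, f i).fst = ∑ i ∈ s, (f i).fst := map_sum (fstHom M j) f s

theorem snd_sum {ι : Type*} (s : Finset ι) (f : ι → Sq M j) (k : M.I) :
    (∑ i ∈ s, f i).snd k = ∑ i ∈ s, (f i).snd k := map_sum (sndHom M j k) f s

/-- the extended map of `M` -/
def rep (r : Rep M j) : Rep M (incl M j) where
  w i := mk (r.w i) (Pi.single i 1)
  par_w i := by
    refine ext (r.par_w i) fun l => ?_
    change sgn (M.odd l) • par (Pi.single (M := fun _ => W) i 1 l) =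
      sgn (M.odd i) • Pi.single (M := fun _ => W) i 1 l
    by_cases h : l = i
    · subst h
      rw [Pi.single_eq_same, map_one]
    · rw [Pi.single_eq_of_ne h, map_zero, smul_zero, smul_zero]
  d_w i := by
    refine ext ?_ fun k => ?_
    · rw [fst_sum]
      exact r.d_w i
    · rw [snd_sum]
      have h1 : (d (mk (r.w i) (Pi.single i 1) : Sq M j)).snd k =
          d (Pi.single (M := fun _ => W) i 1 k) +
            ∑ l, par (Pi.single (M := fun _ => W) i 1 l) * j (M.D l k) := rfl
      rw [h1, Finset.sum_eq_single i, Finset.sum_eq_single k]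
      · rw [snd_mul, fst_incl, snd_incl, snd_mk, Pi.single_eq_same, Pi.single_eq_same, map_one,
          one_mul, mul_one, zero_mul, add_zero]
        by_cases h : k = i
        · subst h
          rw [Pi.single_eq_same, d_one, zero_add]
        · rw [Pi.single_eq_of_ne h, map_zero, zero_add]
      · intro l _ hl
        rw [snd_mul, fst_incl, snd_incl, snd_mk, Pi.single_eq_of_ne (Ne.symm hl), mul_zero,
          zero_mul, add_zero]
      · intro h
        exact absurd (Finset.mem_univ k) h
      · intro l _ hl
        rw [Pi.single_eq_of_ne hl, map_zero, zero_mul]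
      · intro h
        exact absurd (Finset.mem_univ i) h

theorem ev_rep (r : Rep M j) (f : M.I → A) :
    (rep r).ev f = mk (r.ev f) fun i => j (f i) := by
  unfold Rep.ev
  refine ext ?_ fun k => ?_
  · rw [fst_sum]
    rfl
  · rw [snd_sum, Finset.sum_eq_single k]
    · rw [snd_mul, fst_incl, snd_incl, snd_mk]
      change j (f k) * Pi.single (M := fun _ => W) k 1 k + _ = _
      rw [Pi.single_eq_same, mul_one, zero_mul, add_zero]
    · intro l _ hl
      rw [snd_mul, fst_incl, snd_incl]
      change j (f l) * Pi.single (M := fun _ => W) l 1 k + _ = _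
      rw [Pi.single_eq_of_ne (Ne.symm hl), mul_zero, zero_mul, add_zero]
    · intro h
      exact absurd (Finset.mem_univ k) h

theorem snd_pow {r : Rep M j} {f : M.I → A} (hf : M.Even f) (n : ℕ) (i : M.I) :
    ((rep r).ev f ^ (n + 1)).snd i = ((n + 1 : ℕ) : ℚ) • (r.ev f ^ n * j (f i)) := by
  have hu : par (r.ev f) = r.ev f := r.ev_even hf
  have h0 : ∀ s : Bool, parP W s (r.ev f) = r.ev f := by
    intro s
    cases s
    · rfl
    · exact hu
  have hfst : ∀ n, ((rep r).ev f ^ n).fst = r.ev f ^ n := by
    intro n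
    induction n with
    | zero => rw [pow_zero, pow_zero, fst_one]
    | succ n ih => rw [_root_.pow_succ, _root_.pow_succ, fst_mul, ih, ev_rep, fst_mk]
  induction n with
  | zero =>
    rw [zero_add, pow_one, pow_zero, one_mul, ev_rep, snd_mk, Nat.cast_one, one_smul]
  | succ n ih =>
    have hc : r.ev f * j (f i) = j (f i) * r.ev f := SDG.comm _ _ hu
    rw [_root_.pow_succ, snd_mul, ih, hfst]
    have h1 : ((rep r).ev f).snd i = j (f i) := by
      rw [ev_rep, snd_mk]
    have h2 : ((rep r).ev f).fst = r.ev f := by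
      rw [ev_rep, fst_mk]
    rw [h1, h2, h0, smul_mul_assoc, mul_assoc, ← hc, ← mul_assoc, ← _root_.pow_succ]
    push_cast
    rw [add_smul (((n : ℚ) + 1)) 1, one_smul, add_comm]

/-- exactness in the extension gives exactness with one more factor -/
theorem exact_step {r : Rep M j} {f : M.I → A} (hf : M.Even f) (P : TC A) (z : P.I → A) (n : ℕ)
    (h : (P.map (incl M j)).Exact fun k => (rep r).ev f ^ (n + 1) * incl M j (z k)) :
    ((M.tmul P).map j).Exact fun x => r.ev f ^ n * j (TC.tE M P f z x) := by
  obtain ⟨y, hy⟩ : ∃ y : P.I → Sq M j, (P.map (incl M j)).dif y =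
      fun k => (rep r).ev f ^ (n + 1) * incl M j (z k) := h
  have hn : ((n + 1 : ℕ) : ℚ) ≠ 0 := Nat.cast_ne_zero.2 (Nat.succ_ne_zero n)
  have key : ∀ x : M.I × P.I, ((M.tmul P).map j).dif (fun x => (y x.2).snd x.1) x =
      ((n + 1 : ℕ) : ℚ) • (r.ev f ^ n * j (TC.tE M P f z x)) := by
    rintro ⟨i, k⟩
    have h1 := congrArg (fun t : Sq M j => t.snd i) (congrFun hy k)
    have h2 : (((rep r).ev f ^ (n + 1) * incl M j (z k)) : Sq M j).snd i =
        ((n + 1 : ℕ) : ℚ) • (r.ev f ^ n * j (TC.tE M P f z (i, k))) := by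
      rw [snd_mul, snd_incl, mul_zero, zero_add, snd_pow hf, fst_incl, smul_mul_assoc, mul_assoc]
      unfold TC.tE
      rw [map_mul, j.map_parP]
    rw [← h2, ← h1]
    change _ = (d (y k) + ∑ l, par (y l) * incl M j (P.D l k)).snd i
    rw [snd_add, snd_sum]
    have h3 : (d (y k)).snd i = d ((y k).snd i) + ∑ i', par ((y k).snd i') * j (M.D i' i) := rfl
    have h4 : ∀ l : P.I, (par (y l) * incl M j (P.D l k)).snd i =
        (sgn (M.odd i) • par ((y l).snd i)) * parP W (M.odd i) (j (P.D l k)) := by
      intro l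
      rw [snd_mul, snd_incl, mul_zero, zero_add]
      rfl
    have e1 : ∀ (i' : M.I) (l : P.I), par ((y l).snd i') * j (TC.tD M P (i', l) (i, k)) =
        (if l = k then par ((y l).snd i') * j (M.D i' i) else 0) +
        (if i' = i then par ((y l).snd i') *
          (sgn (M.odd i') • parP W (M.odd i') (j (P.D l k))) else 0) := by
      intro i' l
      unfold TC.tD
      rw [map_add, mul_add]
      congr 1
      · split_ifs
        · rfl
        · rw [map_zero, mul_zero]
      · split_ifs
        · rw [map_smul, j.map_parP]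
        · rw [map_zero, mul_zero]
    change d ((y k).snd i) + ∑ x : M.I × P.I, par ((y x.2).snd x.1) *
      j (TC.tD M P x (i, k)) = _
    rw [Fintype.sum_prod_type]
    simp only [e1, Finset.sum_add_distrib, Finset.sum_ite_eq', Finset.sum_ite_irrel,
      Finset.sum_const_zero, Finset.mem_univ, if_true]
    rw [h3, add_assoc]
    congr 2
    refine Finset.sum_congr rfl fun l _ => ?_
    rw [h4, smul_mul_assoc, mul_smul_comm]
  refine ⟨(((n + 1 : ℕ) : ℚ))⁻¹ • fun x => (y x.2).snd x.1, ?_⟩
  have e2 : ((M.tmul P).map j).dif ((((n + 1 : ℕ) : ℚ))⁻¹ • fun x => (y x.2).snd x.1) =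
      (((n + 1 : ℕ) : ℚ))⁻¹ • ((M.tmul P).map j).dif (fun x => (y x.2).snd x.1) :=
    map_smul _ _ _
  rw [e2]
  funext x
  rw [Pi.smul_apply, key, smul_smul, inv_mul_cancel₀ hn, one_smul]

end Sq

/-- the zero map -/
def Rep.zero (M : TC A) (j : SHom A W) : Rep M j where
  w _ := 0
  par_w i := IsPar.zero _
  d_w i := by
    rw [map_zero]
    simp

/-- Lemma B for a class of algebras which contains `A` and is stable under square-zero
extensions. -/
theorem exact_of_good {M : TC A} {f : M.I → A} (hf : M.Even f) (n : ℕ)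
    (Good : ∀ (W : Type u) [Ring W] [Algebra ℚ W] [SDG W], SHom A W → Prop)
    (h0 : Good A (SHom.id A))
    (hS : ∀ (W : Type u) [Ring W] [Algebra ℚ W] [SDG W] (j : SHom A W), Good W j →
      Good (Sq M j) (Sq.incl M j))
    (h : ∀ (W : Type u) [Ring W] [Algebra ℚ W] [SDG W] (j : SHom A W), Good W j →
      ∀ r : Rep M j, ∃ v, d v = r.ev f ^ n) : (M.pow n).Exact (M.powE f n) := by
  have key : ∀ m k, m + k = n → ∀ (W : Type u) [Ring W] [Algebra ℚ W] [SDG W] (j : SHom A W),
      Good W j → ∀ r : Rep M j,
      ((M.pow m).map j).Exact fun x => r.ev f ^ k * j (M.powE f m x) := by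
    intro m
    induction m with
    | zero =>
      intro k hk W _ _ _ j hj r
      obtain ⟨v, hv⟩ := h W j hj r
      refine ⟨fun _ => v, ?_⟩
      funext x
      change d v + ∑ l : Unit, par v * j 0 = r.ev f ^ k * j 1
      rw [hv, map_zero, map_one, mul_one]
      have : k = n := by omega
      rw [this]
      simp
    | succ m ih =>
      intro k hk W _ _ _ j hj r
      exact Sq.exact_step hf (M.pow m) (M.powE f m) k
        (ih (k + 1) (by omega) (Sq M j) (Sq.incl M j) (hS W j hj) (Sq.rep r))
  obtain ⟨y, hy⟩ := key n 0 (by omega) A (SHom.id A) h0 (Rep.zero M _)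
  refine ⟨y, ?_⟩
  funext x
  have h1 := congrFun hy x
  rw [pow_zero, one_mul] at h1
  exact h1

theorem exact_of_forall {M : TC A} {f : M.I → A} (hf : M.Even f) (n : ℕ)
    (h : ∀ (W : Type u) [Ring W] [Algebra ℚ W] [SDG W] (j : SHom A W) (r : Rep M j),
      ∃ v, d v = r.ev f ^ n) : (M.pow n).Exact (M.powE f n) :=
  exact_of_good hf n (fun _ _ _ _ _ => True) trivial (fun _ _ _ _ _ _ => trivial)
    fun W _ _ _ j _ r => h W j r

end Pool.Agent.SPC
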